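import Pool.Agent.HSC.Stmts2

/-!
# Assembly: the main theorem from the modules
-/

set_option autoImplicit false

open scoped Matrix.Norms.Frobenius ContDiff Topology Manifold ComplexOrder ComplexConjugate
open Matrix Set Filter MeasureTheory Metric

noncomputable section

namespace Pool.Agent.HSC

universe u v

/-- the concave sequence of the a priori bound -/
def bb (r : ℕ) (l : ℝ) (j : ℕ) : ℝ := l * j * ((r : ℝ) - j) / 2

theorem bb_zero (r : ℕ) (l : ℝ) : bb r l 0 = 0 := by simp [bb]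

theorem bb_top (r : ℕ) (l : ℝ) : bb r l r = 0 := by simp [bb]

theorem bb_nonneg (r : ℕ) {l : ℝ} (hl : 0 ≤ l) : ∀ j ≤ r, 0 ≤ bb r l j := by
  intro j hj
  have : (j : ℝ) ≤ r := by exact_mod_cast hj
  unfold bb
  have h1 : 0 ≤ (r : ℝ) - j := by linarith
  positivity

theorem bb_conc (r : ℕ) (l : ℝ) : ∀ j, 1 ≤ j → j < r →
    l ≤ 2 * bb r l j - bb r l (j - 1) - bb r l (j + 1) := by
  intro j h1 _
  unfold bb
  have e : ((j - 1 : ℕ) : ℝ) = j - 1 := by push_cast [Nat.cast_sub h1]; ring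
  rw [e]
  push_cast
  apply le_of_eq
  ring

theorem brk_smul {r : ℕ} (t : ℂ) (Θ K : M r) :
    brk (t • Θ) K = ((‖t‖ ^ 2 : ℝ) : ℂ) • brk Θ K := by
  have h : ((‖t‖ ^ 2 : ℝ) : ℂ) = t * star t := by
    rw [Complex.star_def, Complex.mul_conj, Complex.normSq_eq_norm_sq]
  unfold brk adj
  rw [h, Matrix.conjTranspose_smul]
  simp only [Matrix.smul_mul, Matrix.mul_smul, smul_smul, smul_sub]
  congr 1
  rw [mul_comm]

variable {X : Type u} [TopologicalSpace X] [ChartedSpace ℂ X] {r : ℕ}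

theorem IsHarmonic.metX {E : HiggsBundle.{u, v} X r} {h : E.ι → X → M r} (hh : IsHarmonic E h) :
    MetX E univ h where
  pos i x hx := hh.pos i x hx.1
  trans i j x hx := hh.trans i j x hx.1
  cont i := by
    rw [inter_univ]
    have h1 := (hh.smooth i).continuousOn.comp (E.φ i).continuousOn (E.φ i).mapsTo
    apply h1.congr
    intro x hx
    simp [(E.φ i).left_inv hx]

theorem IsHarmonic.solX {E : HiggsBundle.{u, v} X r} {h : E.ι → X → M r} (hh : IsHarmonic E h) :
    SolX E 1 univ h := by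
  intro i
  have hd : E.dom i univ = (E.φ i).target := by simp [HiggsBundle.dom]
  rw [hd]
  refine ⟨hh.smooth i, fun z hz => hh.pos i _ ((E.φ i).map_target hz), fun z hz => ?_⟩
  have h1 := hh.hitchin i z hz
  have h2 : ((1 : ℝ) : ℂ) • brk (E.θ i z) (E.loc h i z) = brk (E.θ i z) (E.loc h i z) := by
    rw [Complex.ofReal_one, one_smul]
  exact h1.trans h2.symm

theorem isHarmonic_scale {E : HiggsBundle.{u, v} X r} {t : ℂ} {h : E.ι → X → M r}
    (hm : MetX E univ h) (hs : SolX E (‖t‖ ^ 2) univ h) : IsHarmonic (E.scale t) h where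
  pos i x hx := hm.pos i x ⟨hx, mem_univ _⟩
  trans i j x hx := hm.trans i j x ⟨hx, mem_univ _⟩
  smooth i := by
    have h1 := (hs i).smooth
    have hd : E.dom i univ = (E.φ i).target := by simp [HiggsBundle.dom]
    rw [hd] at h1
    exact h1
  hitchin i z hz := by
    have hd : E.dom i univ = (E.φ i).target := by simp [HiggsBundle.dom]
    have h1 := (hs i).eqn z (by rw [hd]; exact hz)
    have h2 : brk ((E.scale t).θ i z) (h i ((E.φ i).symm z)) =
        ((‖t‖ ^ 2 : ℝ) : ℂ) • brk (E.θ i z) (h i ((E.φ i).symm z)) := brk_smul t _ _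
    exact h1.trans h2.symm

section main

set_option linter.unusedSectionVars false

variable (X : Type u) [TopologicalSpace X] [T2Space X] [ChartedSpace ℂ X] [IsManifold 𝓘(ℂ) ω X]
  (r : ℕ) (E : HiggsBundle.{u, v} X r)

theorem exist_local [ConnectedSpace X] [NoncompactSpace X]
    (hMaxP : Stmt_MaxP.{u, v}) (hFin : FinAt X r E) (hGood : GoodAt X r E) (hSeq : SeqAt X r E)
    (hFSub : FSubAt X r E) (hGlue : GlueAt X r E)
    (p q : ℝ) (b : ℕ → ℝ) (P : E.ι → X → M r) (hp : 0 < p) (hq : 0 < q) (hb0 : b 0 = 0)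
    (hbr : b r = 0) (hb : ∀ j ≤ r, 0 ≤ b j)
    (hbc : ∀ j, 1 ≤ j → j < r → |Real.log (q / p)| ≤ 2 * b j - b (j - 1) - b (j + 1))
    (hm : MetX E univ P) (hs : SolX E p univ P) (C : Set X) (hC : IsCompact C) :
    ∃ (Ω : Set X) (K : E.ι → X → M r), IsOpen Ω ∧ C ⊆ Ω ∧
      MetX E Ω K ∧ SolX E q Ω K ∧ ∀ i, ∀ x ∈ (E.φ i).source ∩ Ω, Bd b (P i x) (K i x) := by
  obtain ⟨x₀⟩ := (inferInstance : Nonempty X)
  have hC' : IsCompact (insert x₀ C) := hC.insert x₀
  obtain ⟨N, D, hN, hper, hcov, hS, hExc⟩ := hFin (insert x₀ C)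
    (fun D => D.Solv q (max (b 1) (b (r - 1))) P) hC' (insert_nonempty _ _)
    (fun x _ => hGood q _ P hq hm x)
  obtain ⟨H, hH⟩ := hSeq p q b P N D hp hq hb0 hbr hb hbc hm hs hN hper hS
  obtain ⟨h1, ⟨B, h2⟩, h3, h4, h5⟩ := hFSub q b P N D H hq.le hb hH
  have hcomp : IsCompact (⋃ m, (D m).cl) := by
    have e : (⋃ m, (D m).cl) = ⋃ m ∈ Finset.range N, (D m).cl := by
      apply subset_antisymm
      · apply iUnion_subset
        intro m
        have hm' : D m = D (m % N) := by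
          have : ∀ k l, D (l + k * N) = D l := by
            intro k
            induction k with
            | zero => intro l; simp
            | succ k ih =>
              intro l
              rw [show l + (k + 1) * N = (l + k * N) + N by ring, hper, ih]
          conv_lhs => rw [← Nat.mod_add_div m N, mul_comm]
          exact this _ _
        rw [hm']
        exact subset_biUnion_of_mem (u := fun m => (D m).cl)
          (Finset.mem_coe.2 (Finset.mem_range.2 (Nat.mod_lt m hN)))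
      · exact iUnion₂_subset fun m _ => subset_iUnion (fun m => (D m).cl) m
    rw [e]
    exact (Finset.range N).isCompact_biUnion fun m _ => (D m).isCompact_cl
  have hf := hMaxP X E.ι E.φ (Exc N D) (⋃ m, (D m).cl) (fX E H) B E.cover hExc hcomp h3 h1 h2 h4
    (fun i x hx hx' => h5 x hx' i hx)
  obtain ⟨K, hK1, hK2, hK3⟩ := hGlue q b P N D H hq.le hb hH hExc hf
  exact ⟨⋃ m, (D m).op, K, isOpen_iUnion fun m => (D m).isOpen_op,
    (subset_insert _ _).trans hcov, hK1, hK2, hK3⟩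

theorem exist_global [ConnectedSpace X] [NoncompactSpace X]
    (hMaxP : Stmt_MaxP.{u, v}) (hFin : FinAt X r E) (hGood : GoodAt X r E) (hSeq : SeqAt X r E)
    (hFSub : FSubAt X r E) (hGlue : GlueAt X r E) (hExh : ExhAt X r E)
    (h : E.ι → X → M r) (hh : IsHarmonic E h) (t : ℂ) (ht : t ≠ 0) :
    ∃ K, IsHarmonic (E.scale t) K := by
  have hq : 0 < ‖t‖ ^ 2 := by positivity
  set l := |Real.log (‖t‖ ^ 2 / 1)| with hl
  have hl0 : 0 ≤ l := abs_nonneg _
  obtain ⟨K, hK1, hK2⟩ := hExh (‖t‖ ^ 2) (bb r l) h hq.le (bb_nonneg r hl0) hh.metX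
    (fun C hC => exist_local X r E hMaxP hFin hGood hSeq hFSub hGlue 1 (‖t‖ ^ 2) (bb r l) h
      one_pos hq (bb_zero r l) (bb_top r l) (bb_nonneg r hl0) (bb_conc r l) hh.metX hh.solX C hC)
  exact ⟨K, isHarmonic_scale hK1 hK2⟩

end main

end Pool.Agent.HSC
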