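import Pool.Agent.HSC.Stmts

/-!
# Boundary modulus of continuity (module BMOD)
-/

set_option autoImplicit false

open scoped Matrix.Norms.Frobenius ContDiff Topology Manifold ComplexOrder ComplexConjugate
open Matrix Set Filter MeasureTheory Metric

noncomputable section

namespace Pool.Agent.HSC

namespace BMod

theorem contDiff_normSq (a : ℂ) : ContDiff ℝ 2 (fun w : ℂ => ‖w - a‖ ^ 2) :=
  (contDiff_id.sub contDiff_const).norm_sq ℝ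

/-- the barrier -/
def bar (a x : ℂ) (ρ η M C : ℝ) (z : ℂ) : ℝ :=
  η + (M / (2 * ρ ^ 2)) * (ρ ^ 2 - ‖z - a‖ ^ 2 + ‖z - x‖ ^ 2) + C * (ρ ^ 2 - ‖z - a‖ ^ 2)

theorem contDiff_bar (a x : ℂ) (ρ η M C : ℝ) : ContDiff ℝ 2 (bar a x ρ η M C) := by
  unfold bar
  exact (contDiff_const.add (contDiff_const.mul ((contDiff_const.sub (contDiff_normSq a)).add
    (contDiff_normSq x)))).add (contDiff_const.mul (contDiff_const.sub (contDiff_normSq a)))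

theorem ddb_bar (a x : ℂ) (ρ η M C : ℝ) (z : ℂ) : ddb (bar a x ρ η M C) z = - C := by
  have ha : ContDiffAt ℝ 2 (fun w : ℂ => ‖w - a‖ ^ 2) z := (contDiff_normSq a).contDiffAt
  have hx : ContDiffAt ℝ 2 (fun w : ℂ => ‖w - x‖ ^ 2) z := (contDiff_normSq x).contDiffAt
  have h1 : ContDiffAt ℝ 2 (fun w : ℂ => ρ ^ 2 - ‖w - a‖ ^ 2) z := contDiffAt_const.sub ha
  have h2 : ContDiffAt ℝ 2 (fun w : ℂ => ρ ^ 2 - ‖w - a‖ ^ 2 + ‖w - x‖ ^ 2) z := h1.add hx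
  have h3 : ContDiffAt ℝ 2 (fun w : ℂ => (M / (2 * ρ ^ 2)) *
      (ρ ^ 2 - ‖w - a‖ ^ 2 + ‖w - x‖ ^ 2)) z := contDiffAt_const.mul h2
  have h4 : ContDiffAt ℝ 2 (fun w : ℂ => η + (M / (2 * ρ ^ 2)) *
      (ρ ^ 2 - ‖w - a‖ ^ 2 + ‖w - x‖ ^ 2)) z := contDiffAt_const.add h3
  have h5 : ContDiffAt ℝ 2 (fun w : ℂ => C * (ρ ^ 2 - ‖w - a‖ ^ 2)) z := contDiffAt_const.mul h1
  have e1 : ddb (fun w : ℂ => ρ ^ 2 - ‖w - a‖ ^ 2) z = -1 := by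
    rw [ddb_sub contDiffAt_const ha, ddb_const, ddb_normSq]; ring
  unfold bar
  rw [ddb_add h4 h5, ddb_add contDiffAt_const h3, ddb_const, ddb_const_mul _ h2, ddb_const_mul _ h1,
    ddb_add h1 hx, e1, ddb_normSq]
  ring

theorem num (ρ s t M C η : ℝ) (hρ : 0 < ρ) (hs0 : 0 ≤ s) (hs : s ≤ ρ) (ht0 : 0 ≤ t) (ht : t < ρ)
    (htri : ρ ≤ s + t) (hM : 0 ≤ M) (hC : 0 ≤ C)
    (htδ : t * (2 * M / ρ + 2 * C * ρ + 1) ≤ η) :
    η + M / (2 * ρ ^ 2) * (ρ ^ 2 - s ^ 2 + t ^ 2) + C * (ρ ^ 2 - s ^ 2) ≤ 2 * η := by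
  have hk : ρ ^ 2 - s ^ 2 ≤ 2 * ρ * t := by
    have : (ρ - s) * (ρ + s) ≤ t * (2 * ρ) :=
      mul_le_mul (by linarith) (by linarith) (by linarith) ht0
    linarith [this, show (ρ - s) * (ρ + s) = ρ ^ 2 - s ^ 2 by ring]
  have hk2 : ρ ^ 2 - s ^ 2 + t ^ 2 ≤ 4 * ρ * t := by
    have : t * t ≤ ρ * t := mul_le_mul_of_nonneg_right ht.le ht0
    have h3 : 0 ≤ ρ * t := by positivity
    linarith [this, show t * t = t ^ 2 by ring]
  have h1 : M / (2 * ρ ^ 2) * (ρ ^ 2 - s ^ 2 + t ^ 2) ≤ 2 * M / ρ * t := by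
    calc M / (2 * ρ ^ 2) * (ρ ^ 2 - s ^ 2 + t ^ 2) ≤ M / (2 * ρ ^ 2) * (4 * ρ * t) :=
          mul_le_mul_of_nonneg_left hk2 (by positivity)
      _ = 2 * M / ρ * t := by field_simp; ring
  have h2 : C * (ρ ^ 2 - s ^ 2) ≤ 2 * C * ρ * t := by
    calc C * (ρ ^ 2 - s ^ 2) ≤ C * (2 * ρ * t) := mul_le_mul_of_nonneg_left hk hC
      _ = 2 * C * ρ * t := by ring
  have h4 : t * (2 * M / ρ + 2 * C * ρ + 1) = 2 * M / ρ * t + 2 * C * ρ * t + t := by ring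
  linarith

theorem num2 (ρ σ c : ℝ) (hρ : 0 < ρ) (hσ : 0 < σ) :
    2 * c = (4 * c * ρ ^ 2 / σ ^ 2) / (2 * ρ ^ 2) * σ ^ 2 := by
  field_simp; ring

theorem cont_aux {r : ℕ} (h : ContinuousOn (fun p : Pool.Agent.HSC.M r × Pool.Agent.HSC.M r =>
    dT p.1 p.2) {p | p.1.PosDef ∧ p.2.PosDef}) (K : ℂ → Pool.Agent.HSC.M r)
    (P : Pool.Agent.HSC.M r) (a : ℂ) (ρ : ℝ) (hK : ContinuousOn K (closedBall a ρ))
    (hp : ∀ w ∈ closedBall a ρ, (K w).PosDef) (hP : P.PosDef) :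
    ContinuousOn (fun w => dT (K w) P) (closedBall a ρ) := by
  have h1 : ContinuousOn (fun w => ((K w, P) : Pool.Agent.HSC.M r × Pool.Agent.HSC.M r))
      (closedBall a ρ) := hK.prodMk continuousOn_const
  have h2 : MapsTo (fun w => ((K w, P) : Pool.Agent.HSC.M r × Pool.Agent.HSC.M r))
      (closedBall a ρ) {p | p.1.PosDef ∧ p.2.PosDef} := fun w hw => ⟨hp w hw, hP⟩
  have h3 := ContinuousOn.comp h h1 h2
  exact h3

end BMod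

open BMod in
theorem bmod_proof (hDT : Stmt_DT) (hV : Stmt_VCmp) (hT : Stmt_TPC) : Stmt_BMod := by
  intro r q B c ρ η σ hq hc hρ hη hσ
  obtain ⟨C, hC, hTPC⟩ := hT r q B c hq hc
  obtain ⟨N, hN⟩ : ∃ N : ℝ, N = 4 * c * ρ ^ 2 / σ ^ 2 := ⟨_, rfl⟩
  have hN0 : 0 ≤ N := by rw [hN]; positivity
  have hD : 0 < 2 * N / ρ + 2 * C * ρ + 1 := by positivity
  refine ⟨min ρ (η / (2 * N / ρ + 2 * C * ρ + 1)), by positivity, ?_⟩
  intro Θ K a x₀ hKc hK hSol hΘ hx₀ hsph z hz hzδ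
  have hsub : sphere a ρ ⊆ closedBall a ρ := sphere_subset_closedBall
  have hKx := hK x₀ (hsub hx₀)
  have one : (1 : Pool.Agent.HSC.M r).PosDef := Matrix.PosDef.one
  have hd1 : ∀ y ∈ closedBall a ρ, dT (K y) 1 ≤ c := fun y hy =>
    hDT.le r _ _ c hc (hK y hy).2
  have hu2 : ∀ y ∈ closedBall a ρ, dT (K y) (K x₀) ≤ 2 * c := by
    intro y hy
    have h1 := hDT.tri r (K y) 1 (K x₀) (hK y hy).1 one hKx.1
    have h2 := hd1 y hy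
    have h3 := hd1 x₀ (hsub hx₀)
    rw [hDT.comm] at h3
    linarith
  have hcont : ContinuousOn (fun w => dT (K w) (K x₀)) (closedBall a ρ) :=
    cont_aux (hDT.cont r) K (K x₀) a ρ hKc (fun w hw => (hK w hw).1) hKx.1
  have hbd : ∀ y ∈ sphere a ρ, dT (K y) (K x₀) ≤ bar a x₀ ρ η N C y := by
    intro y hy
    have hyn : ‖y - a‖ = ρ := by simpa [dist_eq_norm] using hy
    have e : bar a x₀ ρ η N C y = η + N / (2 * ρ ^ 2) * ‖y - x₀‖ ^ 2 := by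
      unfold bar; rw [hyn]; ring
    rw [e]
    have hnn : 0 ≤ N / (2 * ρ ^ 2) * ‖y - x₀‖ ^ 2 := by positivity
    by_cases h : ‖y - x₀‖ < σ
    · have := hsph y hy h
      linarith
    · push Not at h
      have h1 : 2 * c ≤ N / (2 * ρ ^ 2) * ‖y - x₀‖ ^ 2 := by
        have h2 : σ ^ 2 ≤ ‖y - x₀‖ ^ 2 := pow_le_pow_left₀ hσ.le h 2
        calc 2 * c = N / (2 * ρ ^ 2) * σ ^ 2 := by rw [hN]; exact num2 ρ σ c hρ hσ
          _ ≤ N / (2 * ρ ^ 2) * ‖y - x₀‖ ^ 2 := mul_le_mul_of_nonneg_left h2 (by positivity)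
      have := hu2 y (hsub hy)
      linarith
  have hcmp := hV (fun w => dT (K w) (K x₀)) (bar a x₀ ρ η N C) a ρ C hρ hcont
    (contDiff_bar a x₀ ρ η N C).continuous.continuousOn
    (fun y _ => ⟨(contDiff_bar a x₀ ρ η N C).contDiffAt, (ddb_bar a x₀ ρ η N C y).le⟩)
    (fun y hy => hTPC (ball a ρ) Θ K (K x₀) isOpen_ball hSol hΘ hKx.1 hKx.2 y hy) hbd z hz
  refine hcmp.trans ?_
  have hzn : ‖z - a‖ ≤ ρ := by simpa [dist_eq_norm] using hz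
  have hxn : ‖x₀ - a‖ = ρ := by simpa [dist_eq_norm] using hx₀
  have htρ : ‖z - x₀‖ < ρ := hzδ.trans_le (min_le_left _ _)
  have htδ : ‖z - x₀‖ < η / (2 * N / ρ + 2 * C * ρ + 1) := hzδ.trans_le (min_le_right _ _)
  have htri : ρ ≤ ‖z - a‖ + ‖z - x₀‖ := by
    have h1 : ‖x₀ - a‖ ≤ ‖z - a‖ + ‖x₀ - z‖ := by
      have : x₀ - a = (z - a) + (x₀ - z) := by ring
      rw [this]; exact norm_add_le _ _
    rw [hxn, norm_sub_rev x₀ z] at h1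
    exact h1
  rw [lt_div_iff₀ hD] at htδ
  unfold bar
  exact num ρ ‖z - a‖ ‖z - x₀‖ N C η hρ (norm_nonneg _) hzn (norm_nonneg _) htρ htri hN0 hC htδ.le

end Pool.Agent.HSC
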