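import Pool.Agent.HSC.Defs

/-!
# Wirtinger calculus
-/

set_option autoImplicit false

open scoped Matrix.Norms.Frobenius ContDiff Topology Manifold ComplexOrder ComplexConjugate
open Matrix Set Filter

noncomputable section

namespace Pool.Agent.HSC

section gen

variable {E : Type*} [NormedAddCommGroup E] [NormedSpace ℂ E]
variable {E' : Type*} [NormedAddCommGroup E'] [NormedSpace ℂ E']
variable {F G : ℂ → E} {z : ℂ}

theorem dz_congr (h : F =ᶠ[𝓝 z] G) : dz F z = dz G z := by
  unfold dz; rw [h.fderiv_eq]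

theorem db_congr (h : F =ᶠ[𝓝 z] G) : db F z = db G z := by
  unfold db; rw [h.fderiv_eq]

@[simp] theorem dz_const (c : E) (z : ℂ) : dz (fun _ => c) z = 0 := by simp [dz]

@[simp] theorem db_const (c : E) (z : ℂ) : db (fun _ => c) z = 0 := by simp [db]

/-- the real derivative in terms of the Wirtinger derivatives -/
theorem fderiv_eq_dz_db (_hF : DifferentiableAt ℝ F z) (v : ℂ) :
    fderiv ℝ F z v = v • dz F z + conj v • db F z := by
  have h1 : v = v.re • (1 : ℂ) + v.im • Complex.I := by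
    simp
  have h2 : fderiv ℝ F z v = v.re • fderiv ℝ F z 1 + v.im • fderiv ℝ F z Complex.I := by
    conv_lhs => rw [h1]
    rw [map_add, map_smul, map_smul]
  have h3 : ∀ (t : ℝ) (x : E), t • x = (t : ℂ) • x := fun t x => (Complex.coe_smul t x).symm
  rw [h2, h3, h3]
  simp only [dz, db, smul_sub, smul_add, smul_smul]
  have e1 : v * (1/2) + conj v * (1/2) = (v.re : ℂ) := by
    apply Complex.ext <;> (simp; try ring)
  have e2 : - (v * ((1/2) * Complex.I)) + conj v * ((1/2) * Complex.I) = (v.im : ℂ) := by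
    apply Complex.ext <;> (simp; try ring)
  rw [← e1, ← e2]
  simp only [add_smul, neg_smul]
  abel

theorem norm_fderiv_le_dz_db (hF : DifferentiableAt ℝ F z) :
    ‖fderiv ℝ F z‖ ≤ ‖dz F z‖ + ‖db F z‖ := by
  apply ContinuousLinearMap.opNorm_le_bound _ (by positivity)
  intro v
  rw [fderiv_eq_dz_db hF v]
  calc ‖v • dz F z + conj v • db F z‖ ≤ ‖v • dz F z‖ + ‖conj v • db F z‖ := norm_add_le _ _
    _ = (‖dz F z‖ + ‖db F z‖) * ‖v‖ := by
        rw [norm_smul, norm_smul, RCLike.norm_conj]; ring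

theorem norm_dz_le (z : ℂ) : ‖dz F z‖ ≤ ‖fderiv ℝ F z‖ := by
  have h1 : ‖fderiv ℝ F z 1‖ ≤ ‖fderiv ℝ F z‖ := by
    simpa using (fderiv ℝ F z).le_opNorm 1
  have h2 : ‖fderiv ℝ F z Complex.I‖ ≤ ‖fderiv ℝ F z‖ := by
    simpa using (fderiv ℝ F z).le_opNorm Complex.I
  unfold dz
  rw [norm_smul]
  have h3 := norm_sub_le (fderiv ℝ F z 1) (Complex.I • fderiv ℝ F z Complex.I)
  rw [norm_smul, Complex.norm_I, one_mul] at h3
  have h4 : ‖(1/2 : ℂ)‖ = 1/2 := by simp
  rw [h4]
  linarith

theorem norm_db_le (z : ℂ) : ‖db F z‖ ≤ ‖fderiv ℝ F z‖ := by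
  have h1 : ‖fderiv ℝ F z 1‖ ≤ ‖fderiv ℝ F z‖ := by
    simpa using (fderiv ℝ F z).le_opNorm 1
  have h2 : ‖fderiv ℝ F z Complex.I‖ ≤ ‖fderiv ℝ F z‖ := by
    simpa using (fderiv ℝ F z).le_opNorm Complex.I
  unfold db
  rw [norm_smul]
  have h3 := norm_add_le (fderiv ℝ F z 1) (Complex.I • fderiv ℝ F z Complex.I)
  rw [norm_smul, Complex.norm_I, one_mul] at h3
  have h4 : ‖(1/2 : ℂ)‖ = 1/2 := by simp
  rw [h4]
  linarith

theorem dz_add (hF : DifferentiableAt ℝ F z) (hG : DifferentiableAt ℝ G z) :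
    dz (fun w => F w + G w) z = dz F z + dz G z := by
  unfold dz
  rw [fderiv_fun_add hF hG]
  simp only [_root_.add_apply, smul_add, smul_sub]
  abel

theorem db_add (hF : DifferentiableAt ℝ F z) (hG : DifferentiableAt ℝ G z) :
    db (fun w => F w + G w) z = db F z + db G z := by
  unfold db
  rw [fderiv_fun_add hF hG]
  simp only [_root_.add_apply, smul_add]
  abel

theorem dz_sub (hF : DifferentiableAt ℝ F z) (hG : DifferentiableAt ℝ G z) :
    dz (fun w => F w - G w) z = dz F z - dz G z := by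
  unfold dz
  rw [fderiv_fun_sub hF hG]
  simp only [_root_.sub_apply, smul_sub]
  abel

theorem db_sub (hF : DifferentiableAt ℝ F z) (hG : DifferentiableAt ℝ G z) :
    db (fun w => F w - G w) z = db F z - db G z := by
  unfold db
  rw [fderiv_fun_sub hF hG]
  simp only [_root_.sub_apply, smul_sub, smul_add]
  abel

theorem dz_neg : dz (fun w => - F w) z = - dz F z := by
  unfold dz
  rw [fderiv_fun_neg]
  simp only [_root_.neg_apply, smul_neg, smul_sub]
  abel

theorem db_neg : db (fun w => - F w) z = - db F z := by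
  unfold db
  rw [fderiv_fun_neg]
  simp only [_root_.neg_apply, smul_neg, smul_add]
  abel

/-- composition with a complex linear map -/
theorem dz_clm (L : E →L[ℂ] E') (hF : DifferentiableAt ℝ F z) :
    dz (fun w => L (F w)) z = L (dz F z) := by
  have h : HasFDerivAt (fun w => L (F w)) ((L.restrictScalars ℝ).comp (fderiv ℝ F z)) z :=
    (L.restrictScalars ℝ).hasFDerivAt.comp z hF.hasFDerivAt
  unfold dz
  rw [h.fderiv]
  simp

theorem db_clm (L : E →L[ℂ] E') (hF : DifferentiableAt ℝ F z) :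
    db (fun w => L (F w)) z = L (db F z) := by
  have h : HasFDerivAt (fun w => L (F w)) ((L.restrictScalars ℝ).comp (fderiv ℝ F z)) z :=
    (L.restrictScalars ℝ).hasFDerivAt.comp z hF.hasFDerivAt
  unfold db
  rw [h.fderiv]
  simp

theorem dz_const_smul (c : ℂ) (hF : DifferentiableAt ℝ F z) :
    dz (fun w => c • F w) z = c • dz F z :=
  dz_clm (c • ContinuousLinearMap.id ℂ E) hF

theorem db_const_smul (c : ℂ) (hF : DifferentiableAt ℝ F z) :
    db (fun w => c • F w) z = c • db F z :=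
  db_clm (c • ContinuousLinearMap.id ℂ E) hF

/-- product of a scalar function and a vector function -/
theorem dz_smul {c : ℂ → ℂ} (hc : DifferentiableAt ℝ c z) (hF : DifferentiableAt ℝ F z) :
    dz (fun w => c w • F w) z = dz c z • F z + c z • dz F z := by
  have h : HasFDerivAt (fun w => c w • F w)
      (c z • fderiv ℝ F z + (fderiv ℝ c z).smulRight (F z)) z :=
    hc.hasFDerivAt.smul hF.hasFDerivAt
  unfold dz
  rw [h.fderiv]
  simp only [_root_.add_apply, _root_.smul_apply, ContinuousLinearMap.smulRight_apply,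
    smul_eq_mul]
  module

theorem db_smul {c : ℂ → ℂ} (hc : DifferentiableAt ℝ c z) (hF : DifferentiableAt ℝ F z) :
    db (fun w => c w • F w) z = db c z • F z + c z • db F z := by
  have h : HasFDerivAt (fun w => c w • F w)
      (c z • fderiv ℝ F z + (fderiv ℝ c z).smulRight (F z)) z :=
    hc.hasFDerivAt.smul hF.hasFDerivAt
  unfold db
  rw [h.fderiv]
  simp only [_root_.add_apply, _root_.smul_apply, ContinuousLinearMap.smulRight_apply,
    smul_eq_mul]
  module

/-- holomorphic functions -/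
theorem fderiv_real_of_complex (hF : DifferentiableAt ℂ F z) (v : ℂ) :
    fderiv ℝ F z v = v • deriv F z := by
  have h2 : fderiv ℝ F z = (ContinuousLinearMap.toSpanSingleton ℂ (deriv F z)).restrictScalars ℝ :=
    (hF.hasDerivAt.hasFDerivAt.restrictScalars ℝ).fderiv
  rw [h2]; simp

theorem dz_holo (hF : DifferentiableAt ℂ F z) : dz F z = deriv F z := by
  unfold dz
  rw [fderiv_real_of_complex hF, fderiv_real_of_complex hF, one_smul, smul_smul, Complex.I_mul_I,
    neg_one_smul, sub_neg_eq_add, ← two_smul ℂ, smul_smul]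
  norm_num

theorem db_holo (hF : DifferentiableAt ℂ F z) : db F z = 0 := by
  unfold db
  rw [fderiv_real_of_complex hF, fderiv_real_of_complex hF, one_smul, smul_smul, Complex.I_mul_I,
    neg_one_smul, add_neg_cancel, smul_zero]

/-- a real differentiable function with vanishing `∂̄` is complex differentiable -/
theorem differentiableAt_of_db_eq_zero (hF : DifferentiableAt ℝ F z) (h : db F z = 0) :
    DifferentiableAt ℂ F z := by
  have h1 : HasFDerivAt F
      ((ContinuousLinearMap.toSpanSingleton ℂ (dz F z)).restrictScalars ℝ) z := by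
    have := hF.hasFDerivAt
    have e : fderiv ℝ F z = (ContinuousLinearMap.toSpanSingleton ℂ (dz F z)).restrictScalars ℝ := by
      ext v
      simp [fderiv_eq_dz_db hF, h]
    rwa [e] at this
  have h2 : HasFDerivAt F (ContinuousLinearMap.toSpanSingleton ℂ (dz F z)) z := by
    rw [hasFDerivAt_iff_isLittleO_nhds_zero] at h1 ⊢
    exact h1
  exact h2.differentiableAt

/-- chain rule with a holomorphic inner function -/
theorem dz_comp {ψ : ℂ → ℂ} (hψ : DifferentiableAt ℂ ψ z) (hF : DifferentiableAt ℝ F (ψ z)) :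
    dz (fun w => F (ψ w)) z = deriv ψ z • dz F (ψ z) := by
  have h : HasFDerivAt (fun w => F (ψ w)) ((fderiv ℝ F (ψ z)).comp (fderiv ℝ ψ z)) z :=
    hF.hasFDerivAt.comp z (hψ.restrictScalars ℝ).hasFDerivAt
  conv_lhs => unfold dz
  rw [h.fderiv]
  simp only [ContinuousLinearMap.comp_apply, fderiv_real_of_complex hψ, fderiv_eq_dz_db hF,
    smul_eq_mul, map_mul, one_mul, Complex.conj_I]
  match_scalars
  · linear_combination (-(1 / 2) * deriv ψ z) * Complex.I_sq
  · linear_combination (1 / 2 * conj (deriv ψ z)) * Complex.I_sq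

theorem db_comp {ψ : ℂ → ℂ} (hψ : DifferentiableAt ℂ ψ z) (hF : DifferentiableAt ℝ F (ψ z)) :
    db (fun w => F (ψ w)) z = conj (deriv ψ z) • db F (ψ z) := by
  have h : HasFDerivAt (fun w => F (ψ w)) ((fderiv ℝ F (ψ z)).comp (fderiv ℝ ψ z)) z :=
    hF.hasFDerivAt.comp z (hψ.restrictScalars ℝ).hasFDerivAt
  conv_lhs => unfold db
  rw [h.fderiv]
  simp only [ContinuousLinearMap.comp_apply, fderiv_real_of_complex hψ, fderiv_eq_dz_db hF,
    smul_eq_mul, map_mul, one_mul, Complex.conj_I]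
  match_scalars
  · linear_combination (1 / 2 * deriv ψ z) * Complex.I_sq
  · linear_combination (-(1 / 2) * conj (deriv ψ z)) * Complex.I_sq

/-- smoothness of Wirtinger derivatives -/
theorem contDiffAt_dz {n : ℕ} (hF : ContDiffAt ℝ (n + 1) F z) : ContDiffAt ℝ n (dz F) z := by
  have h : ContDiffAt ℝ n (fderiv ℝ F) z := hF.fderiv_right le_rfl
  unfold dz
  exact ((h.clm_apply contDiffAt_const).sub
    ((h.clm_apply contDiffAt_const).const_smul Complex.I)).const_smul (1 / 2 : ℂ)

theorem contDiffAt_db {n : ℕ} (hF : ContDiffAt ℝ (n + 1) F z) : ContDiffAt ℝ n (db F) z := by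
  have h : ContDiffAt ℝ n (fderiv ℝ F) z := hF.fderiv_right le_rfl
  unfold db
  exact ((h.clm_apply contDiffAt_const).add
    ((h.clm_apply contDiffAt_const).const_smul Complex.I)).const_smul (1 / 2 : ℂ)

theorem contDiffAt_dz_infty (hF : ContDiffAt ℝ ∞ F z) : ContDiffAt ℝ ∞ (dz F) z := by
  have h : ContDiffAt ℝ ∞ (fderiv ℝ F) z := hF.fderiv_right le_rfl
  unfold dz
  exact ((h.clm_apply contDiffAt_const).sub
    ((h.clm_apply contDiffAt_const).const_smul Complex.I)).const_smul (1 / 2 : ℂ)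

theorem contDiffAt_db_infty (hF : ContDiffAt ℝ ∞ F z) : ContDiffAt ℝ ∞ (db F) z := by
  have h : ContDiffAt ℝ ∞ (fderiv ℝ F) z := hF.fderiv_right le_rfl
  unfold db
  exact ((h.clm_apply contDiffAt_const).add
    ((h.clm_apply contDiffAt_const).const_smul Complex.I)).const_smul (1 / 2 : ℂ)

theorem contDiffOn_dz {n : ℕ} {U : Set ℂ} (hU : IsOpen U) (hF : ContDiffOn ℝ (n + 1) F U) :
    ContDiffOn ℝ n (dz F) U := fun _ hz =>
  (contDiffAt_dz (hF.contDiffAt (hU.mem_nhds hz))).contDiffWithinAt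

theorem contDiffOn_db {n : ℕ} {U : Set ℂ} (hU : IsOpen U) (hF : ContDiffOn ℝ (n + 1) F U) :
    ContDiffOn ℝ n (db F) U := fun _ hz =>
  (contDiffAt_db (hF.contDiffAt (hU.mem_nhds hz))).contDiffWithinAt

theorem contDiffOn_dz_infty {U : Set ℂ} (hU : IsOpen U) (hF : ContDiffOn ℝ ∞ F U) :
    ContDiffOn ℝ ∞ (dz F) U := fun _ hz =>
  (contDiffAt_dz_infty (hF.contDiffAt (hU.mem_nhds hz))).contDiffWithinAt

theorem contDiffOn_db_infty {U : Set ℂ} (hU : IsOpen U) (hF : ContDiffOn ℝ ∞ F U) :
    ContDiffOn ℝ ∞ (db F) U := fun _ hz =>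
  (contDiffAt_db_infty (hF.contDiffAt (hU.mem_nhds hz))).contDiffWithinAt

/-- the Wirtinger derivatives commute on `C²` functions -/
theorem db_dz_comm (hF : ContDiffAt ℝ 2 F z) : db (dz F) z = dz (db F) z := by
  have hs : IsSymmSndFDerivAt ℝ F z := hF.isSymmSndFDerivAt (by simp)
  have hd : DifferentiableAt ℝ (fderiv ℝ F) z := by
    have : ContDiffAt ℝ 1 (fderiv ℝ F) z := hF.fderiv_right (by norm_num)
    exact this.differentiableAt one_ne_zero
  have key : ∀ v : ℂ, HasFDerivAt (fun w => fderiv ℝ F w v)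
      ((ContinuousLinearMap.apply ℝ E v).comp (fderiv ℝ (fderiv ℝ F) z)) z := fun v =>
    (ContinuousLinearMap.apply ℝ E v).hasFDerivAt.comp z hd.hasFDerivAt
  have k1 : fderiv ℝ (dz F) z = (1 / 2 : ℂ) • (((ContinuousLinearMap.apply ℝ E 1).comp
      (fderiv ℝ (fderiv ℝ F) z)) - Complex.I • ((ContinuousLinearMap.apply ℝ E Complex.I).comp
      (fderiv ℝ (fderiv ℝ F) z))) :=
    (((key 1).sub ((key Complex.I).const_smul Complex.I)).const_smul (1 / 2 : ℂ)).fderiv
  have k2 : fderiv ℝ (db F) z = (1 / 2 : ℂ) • (((ContinuousLinearMap.apply ℝ E 1).comp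
      (fderiv ℝ (fderiv ℝ F) z)) + Complex.I • ((ContinuousLinearMap.apply ℝ E Complex.I).comp
      (fderiv ℝ (fderiv ℝ F) z))) :=
    (((key 1).add ((key Complex.I).const_smul Complex.I)).const_smul (1 / 2 : ℂ)).fderiv
  have hs' := hs.eq 1 Complex.I
  rw [db, dz, k1, k2]
  simp only [_root_.smul_apply, _root_.sub_apply, _root_.add_apply,
    ContinuousLinearMap.comp_apply, ContinuousLinearMap.apply_apply]
  rw [hs']
  module

end gen

section ring

variable {A : Type*} [NormedRing A] [NormedAlgebra ℂ A] {F G : ℂ → A} {z : ℂ}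

theorem dz_mul (hF : DifferentiableAt ℝ F z) (hG : DifferentiableAt ℝ G z) :
    dz (fun w => F w * G w) z = dz F z * G z + F z * dz G z := by
  unfold dz
  rw [fderiv_fun_mul' hF hG]
  simp only [_root_.add_apply, smul_add, smul_sub, _root_.smul_apply, mul_sub, sub_mul,
    smul_eq_mul, MulOpposite.smul_eq_mul_unop, MulOpposite.unop_op, mul_smul_comm, smul_mul_assoc]
  abel

theorem db_mul (hF : DifferentiableAt ℝ F z) (hG : DifferentiableAt ℝ G z) :
    db (fun w => F w * G w) z = db F z * G z + F z * db G z := by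
  unfold db
  rw [fderiv_fun_mul' hF hG]
  simp only [_root_.add_apply, smul_add, _root_.smul_apply, mul_add, add_mul,
    smul_eq_mul, MulOpposite.smul_eq_mul_unop, MulOpposite.unop_op, mul_smul_comm, smul_mul_assoc]
  abel

theorem hasFDerivAt_ringInverse_comp [CompleteSpace A] (hF : DifferentiableAt ℝ F z)
    (hu : IsUnit (F z)) :
    HasFDerivAt (fun w => Ring.inverse (F w))
      ((- ContinuousLinearMap.mulLeftRight ℝ A (Ring.inverse (F z)) (Ring.inverse (F z))).comp
        (fderiv ℝ F z)) z := by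
  obtain ⟨u, hu⟩ := hu
  have h1 := hasFDerivAt_ringInverse (𝕜 := ℝ) u
  have hui : ((u⁻¹ : Aˣ) : A) = Ring.inverse (F z) := by
    rw [← hu, Ring.inverse_unit]
  rw [hu, hui] at h1
  exact h1.comp z hF.hasFDerivAt

theorem dz_ringInverse [CompleteSpace A] (hF : DifferentiableAt ℝ F z)
    (hu : IsUnit (F z)) : dz (fun w => Ring.inverse (F w)) z =
      - (Ring.inverse (F z) * dz F z * Ring.inverse (F z)) := by
  conv_lhs => unfold dz
  rw [(hasFDerivAt_ringInverse_comp hF hu).fderiv]
  simp only [ContinuousLinearMap.comp_apply, _root_.neg_apply,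
    ContinuousLinearMap.mulLeftRight_apply, dz, mul_sub, sub_mul, mul_smul_comm, smul_mul_assoc,
    smul_neg, smul_sub]
  abel

theorem db_ringInverse [CompleteSpace A] (hF : DifferentiableAt ℝ F z)
    (hu : IsUnit (F z)) : db (fun w => Ring.inverse (F w)) z =
      - (Ring.inverse (F z) * db F z * Ring.inverse (F z)) := by
  conv_lhs => unfold db
  rw [(hasFDerivAt_ringInverse_comp hF hu).fderiv]
  simp only [ContinuousLinearMap.comp_apply, _root_.neg_apply,
    ContinuousLinearMap.mulLeftRight_apply, db, mul_add, add_mul, mul_smul_comm, smul_mul_assoc,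
    smul_neg, smul_add]
  abel

end ring

section star

variable {A : Type*} [NormedAddCommGroup A] [NormedSpace ℂ A] [StarAddMonoid A]
  [NormedStarGroup A] [StarModule ℂ A] {F : ℂ → A} {z : ℂ}

theorem differentiableAt_star (hF : DifferentiableAt ℝ F z) :
    DifferentiableAt ℝ (fun w => star (F w)) z := hF.star

theorem dz_star (hF : DifferentiableAt ℝ F z) : dz (fun w => star (F w)) z = star (db F z) := by
  have h := hF.hasFDerivAt.star.fderiv
  have h2 : fderiv ℝ (fun w => star (F w)) z = (((starL' ℝ : A ≃L[ℝ] A) : A →L[ℝ] A) ∘L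
    fderiv ℝ F z) := h
  unfold dz
  rw [h2]
  simp only [db, star_smul, star_add, ContinuousLinearMap.comp_apply]
  simp
  module

theorem db_star (hF : DifferentiableAt ℝ F z) : db (fun w => star (F w)) z = star (dz F z) := by
  have h := hF.hasFDerivAt.star.fderiv
  have h2 : fderiv ℝ (fun w => star (F w)) z = (((starL' ℝ : A ≃L[ℝ] A) : A →L[ℝ] A) ∘L
    fderiv ℝ F z) := h
  unfold db
  rw [h2]
  simp only [dz, star_smul, star_sub, ContinuousLinearMap.comp_apply]
  simp

end star

section matrix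

variable {r : ℕ} {F G : ℂ → M r} {z : ℂ}

theorem differentiableAt_mul (hF : DifferentiableAt ℝ F z) (hG : DifferentiableAt ℝ G z) :
    DifferentiableAt ℝ (fun w => F w * G w) z := hF.mul hG

theorem inv_eq (F : ℂ → M r) : (fun w => (F w)⁻¹) = fun w => Ring.inverse (F w) := by
  funext w; exact Matrix.nonsing_inv_eq_ringInverse _

/-- the inverse matrix as a function is smooth near invertible matrices -/
theorem contDiffAt_inv {n : WithTop ℕ∞} (hF : ContDiffAt ℝ n F z) (hu : IsUnit (F z)) :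
    ContDiffAt ℝ n (fun w => (F w)⁻¹) z := by
  obtain ⟨u, hu⟩ := hu
  have h1 := contDiffAt_ringInverse ℝ u (n := n)
  rw [hu] at h1
  have h2 := h1.comp z hF
  rw [inv_eq]; exact h2

theorem contDiffOn_inv {n : WithTop ℕ∞} {U : Set ℂ} (hF : ContDiffOn ℝ n F U)
    (hu : ∀ z ∈ U, IsUnit (F z)) : ContDiffOn ℝ n (fun w => (F w)⁻¹) U := by
  intro z hz
  obtain ⟨u, hu⟩ := hu z hz
  have h1 := contDiffAt_ringInverse ℝ u (n := n)
  rw [hu] at h1
  have h2 := h1.comp_contDiffWithinAt z (hF z hz)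
  rw [inv_eq]; exact h2

theorem continuousAt_inv (hF : ContinuousAt F z) (hu : IsUnit (F z)) :
    ContinuousAt (fun w => (F w)⁻¹) z := by
  obtain ⟨u, hu⟩ := hu
  have h1 : ContinuousAt Ring.inverse (u : M r) := NormedRing.inverse_continuousAt u
  rw [hu] at h1
  have h2 := h1.comp hF
  rw [inv_eq]; exact h2

theorem continuousOn_inv {U : Set ℂ} (hF : ContinuousOn F U)
    (hu : ∀ z ∈ U, IsUnit (F z)) : ContinuousOn (fun w => (F w)⁻¹) U := by
  intro z hz
  obtain ⟨u, hu⟩ := hu z hz
  have h1 : ContinuousAt Ring.inverse (u : M r) := NormedRing.inverse_continuousAt u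
  rw [hu] at h1
  have h2 := h1.comp_continuousWithinAt (hF z hz)
  rw [inv_eq]; exact h2

theorem differentiableAt_inv (hF : DifferentiableAt ℝ F z) (hu : IsUnit (F z)) :
    DifferentiableAt ℝ (fun w => (F w)⁻¹) z := by
  rw [inv_eq]; exact (hasFDerivAt_ringInverse_comp hF hu).differentiableAt

theorem dz_inv (hF : DifferentiableAt ℝ F z) (hu : IsUnit (F z)) :
    dz (fun w => (F w)⁻¹) z = - ((F z)⁻¹ * dz F z * (F z)⁻¹) := by
  rw [inv_eq, dz_ringInverse hF hu, Matrix.nonsing_inv_eq_ringInverse]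

theorem db_inv (hF : DifferentiableAt ℝ F z) (hu : IsUnit (F z)) :
    db (fun w => (F w)⁻¹) z = - ((F z)⁻¹ * db F z * (F z)⁻¹) := by
  rw [inv_eq, db_ringInverse hF hu, Matrix.nonsing_inv_eq_ringInverse]

theorem differentiableAt_conjTranspose (hF : DifferentiableAt ℝ F z) :
    DifferentiableAt ℝ (fun w => (F w)ᴴ) z := differentiableAt_star hF

theorem contDiffAt_conjTranspose {n : WithTop ℕ∞} (hF : ContDiffAt ℝ n F z) :
    ContDiffAt ℝ n (fun w => (F w)ᴴ) z :=
  ((starL' ℝ : M r ≃L[ℝ] M r) : M r →L[ℝ] M r).contDiff.contDiffAt.comp z hF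

theorem contDiffOn_conjTranspose {n : WithTop ℕ∞} {U : Set ℂ} (hF : ContDiffOn ℝ n F U) :
    ContDiffOn ℝ n (fun w => (F w)ᴴ) U :=
  ((starL' ℝ : M r ≃L[ℝ] M r) : M r →L[ℝ] M r).contDiff.comp_contDiffOn hF

theorem dz_conjTranspose (hF : DifferentiableAt ℝ F z) :
    dz (fun w => (F w)ᴴ) z = (db F z)ᴴ := dz_star hF

theorem db_conjTranspose (hF : DifferentiableAt ℝ F z) :
    db (fun w => (F w)ᴴ) z = (dz F z)ᴴ := db_star hF

/-- for Hermitian valued functions `∂̄K = (∂K)ᴴ` -/
theorem db_eq_of_hermitian (hF : DifferentiableAt ℝ F z) (hh : ∀ᶠ w in 𝓝 z, (F w)ᴴ = F w) :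
    db F z = (dz F z)ᴴ := by
  rw [← db_conjTranspose hF]
  exact db_congr (hh.mono fun w hw => hw.symm)

theorem dz_entry (hF : DifferentiableAt ℝ F z) (i j : Fin r) :
    dz (fun w => F w i j) z = dz F z i j :=
  dz_clm (LinearMap.toContinuousLinearMap (Matrix.entryLinearMap ℂ ℂ i j) : M r →L[ℂ] ℂ) hF

theorem db_entry (hF : DifferentiableAt ℝ F z) (i j : Fin r) :
    db (fun w => F w i j) z = db F z i j :=
  db_clm (LinearMap.toContinuousLinearMap (Matrix.entryLinearMap ℂ ℂ i j) : M r →L[ℂ] ℂ) hF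

theorem dz_trace (hF : DifferentiableAt ℝ F z) :
    dz (fun w => (F w).trace) z = (dz F z).trace :=
  dz_clm (LinearMap.toContinuousLinearMap (Matrix.traceLinearMap (Fin r) ℂ ℂ) : M r →L[ℂ] ℂ) hF

theorem db_trace (hF : DifferentiableAt ℝ F z) :
    db (fun w => (F w).trace) z = (db F z).trace :=
  db_clm (LinearMap.toContinuousLinearMap (Matrix.traceLinearMap (Fin r) ℂ ℂ) : M r →L[ℂ] ℂ) hF

/-- linear operations on matrix functions, also to matrices of another size -/
theorem dz_compress {j : ℕ} (V : Matrix (Fin r) (Fin j) ℂ) (W : Matrix (Fin j) (Fin r) ℂ)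
    (hF : DifferentiableAt ℝ F z) : dz (fun w => W * F w * V) z = W * dz F z * V := by
  let L : M r →ₗ[ℂ] M j :=
    { toFun := fun A => W * A * V
      map_add' := fun A B => by rw [Matrix.mul_add, Matrix.add_mul]
      map_smul' := fun c A => by simp }
  exact dz_clm (LinearMap.toContinuousLinearMap L) hF

theorem db_compress {j : ℕ} (V : Matrix (Fin r) (Fin j) ℂ) (W : Matrix (Fin j) (Fin r) ℂ)
    (hF : DifferentiableAt ℝ F z) : db (fun w => W * F w * V) z = W * db F z * V := by
  let L : M r →ₗ[ℂ] M j :=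
    { toFun := fun A => W * A * V
      map_add' := fun A B => by rw [Matrix.mul_add, Matrix.add_mul]
      map_smul' := fun c A => by simp }
  exact db_clm (LinearMap.toContinuousLinearMap L) hF

theorem contDiffAt_compress {n : WithTop ℕ∞} {j : ℕ} (V : Matrix (Fin r) (Fin j) ℂ)
    (W : Matrix (Fin j) (Fin r) ℂ) (hF : ContDiffAt ℝ n F z) :
    ContDiffAt ℝ n (fun w => W * F w * V) z := by
  let L : M r →ₗ[ℂ] M j :=
    { toFun := fun A => W * A * V
      map_add' := fun A B => by rw [Matrix.mul_add, Matrix.add_mul]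
      map_smul' := fun c A => by simp }
  exact ((LinearMap.toContinuousLinearMap L).restrictScalars ℝ).contDiff.contDiffAt.comp z hF

/-- `∂̄∂K = ∂̄K K⁻¹ ∂K + K Q` -/
theorem db_dz_eq (hF : ContDiffAt ℝ 2 F z) (hu : IsUnit (F z)) :
    db (dz F) z = db F z * (F z)⁻¹ * dz F z + F z * Qc F z := by
  have hd : DifferentiableAt ℝ F z := hF.differentiableAt (by norm_num)
  have h1 : DifferentiableAt ℝ (dz F) z :=
    (contDiffAt_dz (n := 1) hF).differentiableAt one_ne_zero
  have h2 : DifferentiableAt ℝ (fun w => (F w)⁻¹ * dz F w) z :=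
    (differentiableAt_inv hd hu).mul h1
  have hev : ∀ᶠ w in 𝓝 z, IsUnit (F w) := by
    obtain ⟨u, hu⟩ := hu
    have := hF.continuousAt.eventually (Units.isOpen.mem_nhds (show F z ∈ {x | IsUnit x} from hu ▸ u.isUnit))
    exact this
  have h3 : dz F =ᶠ[𝓝 z] fun w => F w * ((F w)⁻¹ * dz F w) := by
    filter_upwards [hev] with w hw
    rw [← Matrix.mul_assoc, Matrix.mul_nonsing_inv _ ((Matrix.isUnit_iff_isUnit_det _).1 hw),
      Matrix.one_mul]
  rw [db_congr h3, db_mul hd h2, Qc, Matrix.mul_assoc]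

end matrix

section real

variable {f g : ℂ → ℝ} {z : ℂ}

theorem contDiffAt_ofReal {n : WithTop ℕ∞} (hf : ContDiffAt ℝ n f z) :
    ContDiffAt ℝ n (fun w => (f w : ℂ)) z :=
  Complex.ofRealCLM.contDiff.contDiffAt.comp z hf

theorem ddb_congr (h : f =ᶠ[𝓝 z] g) : ddb f z = ddb g z := by
  unfold ddb
  congr 1
  apply db_congr
  have h2 : ∀ᶠ w in 𝓝 z, f =ᶠ[𝓝 w] g := eventually_eventually_nhds.2 h
  filter_upwards [h2] with w hw
  apply dz_congr
  filter_upwards [hw] with y hy
  rw [hy]

theorem ddb_add (hf : ContDiffAt ℝ 2 f z) (hg : ContDiffAt ℝ 2 g z) :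
    ddb (fun w => f w + g w) z = ddb f z + ddb g z := by
  unfold ddb
  have hf' := contDiffAt_ofReal hf
  have hg' := contDiffAt_ofReal hg
  have e : dz (fun w => ((f w + g w : ℝ) : ℂ)) =ᶠ[𝓝 z]
      fun w => dz (fun w => (f w : ℂ)) w + dz (fun w => (g w : ℂ)) w := by
    have h1 := hf'.eventually (by simp)
    have h2 := hg'.eventually (by simp)
    filter_upwards [h1, h2] with w h1 h2
    rw [← dz_add (h1.differentiableAt (by norm_num)) (h2.differentiableAt (by norm_num))]
    apply dz_congr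
    filter_upwards with y
    push_cast; rfl
  rw [db_congr e, db_add ((contDiffAt_dz (n := 1) hf').differentiableAt one_ne_zero)
    ((contDiffAt_dz (n := 1) hg').differentiableAt one_ne_zero), Complex.add_re]

theorem ddb_const_mul (c : ℝ) (hf : ContDiffAt ℝ 2 f z) :
    ddb (fun w => c * f w) z = c * ddb f z := by
  unfold ddb
  have hf' := contDiffAt_ofReal hf
  have e : dz (fun w => ((c * f w : ℝ) : ℂ)) =ᶠ[𝓝 z]
      fun w => (c : ℂ) • dz (fun w => (f w : ℂ)) w := by
    have h1 := hf'.eventually (by simp)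
    filter_upwards [h1] with w h1
    rw [← dz_const_smul (c : ℂ) (h1.differentiableAt (by norm_num))]
    apply dz_congr
    filter_upwards with y
    push_cast; rfl
  rw [db_congr e, db_const_smul (c : ℂ)
    ((contDiffAt_dz (n := 1) hf').differentiableAt one_ne_zero)]
  simp

theorem ddb_neg (hf : ContDiffAt ℝ 2 f z) : ddb (fun w => - f w) z = - ddb f z := by
  have := ddb_const_mul (-1) hf
  simpa using this

theorem ddb_sub (hf : ContDiffAt ℝ 2 f z) (hg : ContDiffAt ℝ 2 g z) :
    ddb (fun w => f w - g w) z = ddb f z - ddb g z := by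
  have := ddb_add hf hg.neg
  simp only [← sub_eq_add_neg] at this
  have h2 := ddb_neg hg
  linarith

@[simp] theorem ddb_const (c : ℝ) (z : ℂ) : ddb (fun _ => c) z = 0 := by
  unfold ddb
  have : dz (fun _ : ℂ => (c : ℂ)) = fun _ => 0 := by funext w; simp
  rw [this]; simp

/-- `|z - a|²` has `∂̄∂ = 1` -/
theorem ddb_normSq (a z : ℂ) : ddb (fun w => ‖w - a‖ ^ 2) z = 1 := by
  unfold ddb
  have e : (fun w : ℂ => ((‖w - a‖ ^ 2 : ℝ) : ℂ)) = fun w => (w - a) * star (w - a) := by
    funext w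
    rw [Complex.star_def, Complex.mul_conj, Complex.normSq_eq_norm_sq]
  rw [e]
  have h1 : ∀ w : ℂ, DifferentiableAt ℝ (fun w : ℂ => w - a) w := fun w => by fun_prop
  have h1' : ∀ w : ℂ, DifferentiableAt ℂ (fun w : ℂ => w - a) w := fun w => by fun_prop
  have h2 : dz (fun w : ℂ => (w - a) * star (w - a)) = fun w => star (w - a) := by
    funext w
    rw [dz_mul (h1 w) (differentiableAt_star (h1 w)), dz_star (h1 w), dz_holo (h1' w),
      db_holo (h1' w)]
    simp
  rw [h2, db_star (h1 z), dz_holo (h1' z)]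
  simp

end real

end Pool.Agent.HSC
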