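import Pool.Agent.HSC.Stmts

/-!
# Module BDAPI: API of the a priori bound
-/

set_option autoImplicit false

open scoped Matrix.Norms.Frobenius ContDiff Topology Manifold ComplexOrder ComplexConjugate
open Matrix Set Filter MeasureTheory Metric

noncomputable section

namespace Pool.Agent.HSC

namespace BdApi

theorem det_nonneg {r j : ℕ} {P : M r} (hP : P.PosDef) (V : Matrix (Fin r) (Fin j) ℂ) :
    0 ≤ (Vᴴ * P * V).det.re := by
  have h1 : (Vᴴ * P * V).PosSemidef := hP.posSemidef.conjTranspose_mul_mul_same V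
  exact (Complex.le_def.1 h1.det_nonneg).1

/-- compression of a diagonal matrix to the first `j` basis vectors -/
theorem En_diag {r j : ℕ} (h : j ≤ r) (d : Fin r → ℂ) :
    (En r j)ᴴ * Matrix.diagonal d * En r j = Matrix.diagonal fun k : Fin j => d (Fin.castLE h k) := by
  ext a b
  rw [Matrix.mul_apply, Matrix.diagonal_apply]
  have h1 : ∀ x : Fin r, ((En r j)ᴴ * Matrix.diagonal d) a x =
      (if (x : ℕ) = (a : ℕ) then 1 else 0) * d x := by
    intro x
    rw [Matrix.mul_diagonal, Matrix.conjTranspose_apply]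
    unfold En
    rw [Matrix.of_apply]
    split_ifs <;> simp
  simp only [h1]
  unfold En
  simp only [Matrix.of_apply]
  rw [Finset.sum_eq_single (Fin.castLE h a)]
  · by_cases hab : a = b
    · subst hab
      simp
    · have : ((Fin.castLE h a : Fin r) : ℕ) ≠ (b : ℕ) := by
        intro hc
        exact hab (Fin.ext (by simpa using hc))
      rw [if_neg this, if_neg hab, mul_zero]
  · intro x _ hx
    have : ¬ ((x : ℕ) = (a : ℕ)) := by
      intro hc
      exact hx (Fin.ext (by simpa using hc))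
    rw [if_neg this, zero_mul, zero_mul]
  · simp

theorem refl' (r : ℕ) (b : ℕ → ℝ) (P : M r) (hP : P.PosDef) (hb : ∀ j ≤ r, 0 ≤ b j) :
    Bd b P P := by
  refine ⟨rfl, fun j hj V => ?_⟩
  have h1 := det_nonneg hP V
  have h2 : 1 ≤ Real.exp (b j) := Real.one_le_exp (hb j hj)
  nlinarith

theorem congr' (r : ℕ) (b : ℕ → ℝ) (P K G : M r) (h : Bd b P K) :
    Bd b (Gᴴ * P * G) (Gᴴ * K * G) := by
  refine ⟨?_, fun j hj V => ?_⟩
  · rw [det_mul, det_mul, det_mul, det_mul, h.1]
  · have h1 := h.2 j hj (G * V)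
    have e : ∀ X : M r, (G * V)ᴴ * X * (G * V) = Vᴴ * (Gᴴ * X * G) * V := by
      intro X
      rw [conjTranspose_mul]
      simp only [Matrix.mul_assoc]
    rwa [e, e] at h1

theorem closed' (r : ℕ) (b : ℕ → ℝ) (P : M r) : IsClosed {K : M r | Bd b P K} := by
  have h1 : {K : M r | Bd b P K} = {K : M r | K.det = P.det} ∩ ⋂ (j : ℕ) (_ : j ≤ r)
      (V : Matrix (Fin r) (Fin j) ℂ), {K : M r | (Vᴴ * K * V).det.re ≤
        Real.exp (b j) * (Vᴴ * P * V).det.re} := by
    ext K
    simp only [Bd, Set.mem_ofPred_eq, Set.mem_inter_iff, Set.mem_iInter]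
  rw [h1]
  refine IsClosed.inter (isClosed_eq (Continuous.matrix_det continuous_id) continuous_const) ?_
  refine isClosed_iInter fun j => isClosed_iInter fun _ => isClosed_iInter fun V => ?_
  refine isClosed_le (Complex.continuous_re.comp (Continuous.matrix_det ?_)) continuous_const
  exact (continuous_const.matrix_mul continuous_id).matrix_mul continuous_const

theorem psd_of_diag {r : ℕ} {B A : M r} (hB : IsUnit B) (d : Fin r → ℝ) (hd : ∀ i, 0 ≤ d i)
    (h : Bᴴ * A * B = Matrix.diagonal fun i => (d i : ℂ)) : A.PosSemidef := by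
  have hdet : IsUnit B.det := (Matrix.isUnit_iff_isUnit_det B).1 hB
  have e1 : B * B⁻¹ = 1 := Matrix.mul_nonsing_inv B hdet
  have e2 : (B⁻¹)ᴴ * Bᴴ = 1 := by
    rw [← conjTranspose_mul, e1, conjTranspose_one]
  have h1 : A = (B⁻¹)ᴴ * (Matrix.diagonal fun i => (d i : ℂ)) * B⁻¹ := by
    rw [← h]
    calc A = ((B⁻¹)ᴴ * Bᴴ) * A * (B * B⁻¹) := by rw [e1, e2, Matrix.one_mul, Matrix.mul_one]
      _ = _ := by simp only [Matrix.mul_assoc]
  rw [h1]
  refine Matrix.PosSemidef.conjTranspose_mul_mul_same ?_ _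
  refine Matrix.PosSemidef.diagonal fun i => ?_
  exact Complex.zero_le_real.2 (hd i)

theorem thm' (hS : Stmt_Simd) (r : ℕ) (b : ℕ → ℝ) (P K : M r) (hP : P.PosDef) (hK : K.PosDef)
    (hb : ∀ j ≤ r, 0 ≤ b j) (h : Bd b P K) : Thm (max (b 1) (b (r - 1))) K P := by
  obtain ⟨B, κ, hB, hanti, hBP, hBK⟩ := hS r P K hP hK.isHermitian
  have hdet : IsUnit B.det := (Matrix.isUnit_iff_isUnit_det B).1 hB
  have hpos : ∀ i, 0 < κ i := by
    intro i
    have h1 : (Bᴴ * K * B).PosDef := by
      refine hK.conjTranspose_mul_mul_same ?_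
      exact Matrix.mulVec_injective_iff_isUnit.2 hB
    rw [hBK] at h1
    have h2 := (Matrix.posDef_diagonal_iff.1 h1) i
    exact_mod_cast h2
  have hprod : ∏ i, κ i = 1 := by
    have h1 : (Bᴴ * K * B).det = (Bᴴ * P * B).det := by
      rw [det_mul, det_mul, det_mul, det_mul, h.1]
    rw [hBK, hBP, det_one, det_diagonal] at h1
    exact_mod_cast h1
  set c := max (b 1) (b (r - 1)) with hc
  -- compressions
  have hcomp : ∀ j, ∀ hj : j ≤ r, ∏ k : Fin j, κ (Fin.castLE hj k) ≤ Real.exp (b j) := by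
    intro j hj
    have h1 := h.2 j hj (B * En r j)
    have e : ∀ X : M r, (B * En r j)ᴴ * X * (B * En r j) = (En r j)ᴴ * (Bᴴ * X * B) * En r j := by
      intro X
      rw [conjTranspose_mul]
      simp only [Matrix.mul_assoc]
    have e1 : (1 : M r) = Matrix.diagonal fun _ => (1 : ℂ) := Matrix.diagonal_one.symm
    rw [e, e, hBK, hBP, e1, En_diag hj, En_diag hj, det_diagonal, det_diagonal] at h1
    simp only [Finset.prod_const_one, Complex.one_re, mul_one] at h1
    have h2 : (∏ k : Fin j, (κ (Fin.castLE hj k) : ℂ)) =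
        ((∏ k : Fin j, κ (Fin.castLE hj k) : ℝ) : ℂ) := by push_cast; rfl
    rw [h2, Complex.ofReal_re] at h1
    exact h1
  have hup : ∀ i, κ i ≤ Real.exp c := by
    intro i
    have hr : 0 < r := i.pos
    have h1 := hcomp 1 hr
    simp only [Finset.univ_unique, Finset.prod_singleton] at h1
    have h2 : κ i ≤ κ (Fin.castLE hr default) := by
      apply hanti
      rw [Fin.le_def]
      simp
    exact (h2.trans h1).trans (Real.exp_le_exp.2 (le_max_left _ _))
  have hlow : ∀ i, 1 ≤ Real.exp c * κ i := by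
    intro i
    obtain ⟨n, rfl⟩ : ∃ n, r = n + 1 := ⟨r - 1, by have := i.pos; omega⟩
    have h1 := hcomp n (by omega)
    have h3 : ∏ k : Fin n, κ (Fin.castLE (by omega : n ≤ n + 1) k) =
        ∏ k : Fin n, κ k.castSucc := rfl
    rw [h3] at h1
    rw [Fin.prod_univ_castSucc] at hprod
    have h4 : κ (Fin.last n) ≤ κ i := hanti (Fin.le_last i)
    have h5 : Real.exp (b n) ≤ Real.exp c := by
      apply Real.exp_le_exp.2
      have : b (n + 1 - 1) ≤ c := le_max_right _ _
      simpa using this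
    have h6 : 0 < κ (Fin.last n) := hpos _
    calc 1 = (∏ k : Fin n, κ k.castSucc) * κ (Fin.last n) := hprod.symm
      _ ≤ Real.exp c * κ i := by
        apply mul_le_mul (h1.trans h5) h4 h6.le (Real.exp_pos _).le
  constructor
  · refine psd_of_diag hB (fun i => Real.exp c - κ i) (fun i => sub_nonneg.2 (hup i)) ?_
    rw [Matrix.mul_sub, Matrix.sub_mul, Matrix.mul_smul, Matrix.smul_mul, hBP, hBK]
    ext i k
    simp only [Matrix.sub_apply, Matrix.smul_apply, Matrix.one_apply, Matrix.diagonal_apply,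
      smul_eq_mul]
    split_ifs <;> simp
  · refine psd_of_diag hB (fun i => Real.exp c * κ i - 1) (fun i => sub_nonneg.2 (hlow i)) ?_
    rw [Matrix.mul_sub, Matrix.sub_mul, Matrix.mul_smul, Matrix.smul_mul, hBP, hBK]
    ext i k
    simp only [Matrix.sub_apply, Matrix.smul_apply, Matrix.one_apply, Matrix.diagonal_apply,
      smul_eq_mul]
    split_ifs <;> simp

end BdApi

theorem bdapi_proof (hSimd : Stmt_Simd) : Stmt_BdApi where
  refl := BdApi.refl'
  congr := BdApi.congr'
  closed := BdApi.closed'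
  thm := BdApi.thm' hSimd

end Pool.Agent.HSC
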