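import Pool.Agent.HSC.Defs

/-!
# Higgs bundles on Riemann surfaces and harmonic metrics
-/

set_option autoImplicit false

open scoped Matrix.Norms.Frobenius ContDiff Topology Manifold ComplexOrder
open Matrix Set

noncomputable section

namespace Pool.Agent.HSC

universe u v

/-- A Higgs bundle of rank `r` on the Riemann surface `X`, given by a covering of `X` by charts
`φ i` over which the holomorphic vector bundle `E` is trivialised, the transition matrices `g i j`
(if `s_i`, `s_j` are the coordinate vectors of a section in the frames `i`, `j`, then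
`s_i = g i j * s_j`) and the Higgs field, equal to `θ i dz_i` in the frame `i`, where
`z_i = φ i` is the coordinate. -/
structure HiggsBundle (X : Type u) [TopologicalSpace X] [ChartedSpace ℂ X] (r : ℕ) where
  /-- index set of the covering -/
  ι : Type v
  /-- the coordinate charts -/
  φ : ι → OpenPartialHomeomorph X ℂ
  chart : ∀ i, φ i ∈ IsManifold.maximalAtlas 𝓘(ℂ) ω X
  cover : ∀ x, ∃ i, x ∈ (φ i).source
  /-- the transition matrices -/
  g : ι → ι → X → Matrix (Fin r) (Fin r) ℂ
  g_holo : ∀ i j, DifferentiableOn ℂ (fun z => g i j ((φ i).symm z))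
    ((φ i).target ∩ (φ i).symm ⁻¹' (φ j).source)
  g_self : ∀ i, ∀ x ∈ (φ i).source, g i i x = 1
  g_mul : ∀ i j k, ∀ x ∈ (φ i).source ∩ (φ j).source ∩ (φ k).source,
    g i j x * g j k x = g i k x
  /-- the coefficient of the Higgs field, as a function of the coordinate -/
  θ : ι → ℂ → Matrix (Fin r) (Fin r) ℂ
  θ_holo : ∀ i, DifferentiableOn ℂ (θ i) (φ i).target
  θ_trans : ∀ i j, ∀ x ∈ (φ i).source ∩ (φ j).source,
    θ i (φ i x) = deriv (fun z => φ j ((φ i).symm z)) (φ i x) •
      (g i j x * θ j (φ j x) * g j i x)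

variable {X : Type u} [TopologicalSpace X] [ChartedSpace ℂ X] {r : ℕ}

/-- the Higgs bundle `(E, t θ)` -/
def HiggsBundle.scale (E : HiggsBundle.{u, v} X r) (t : ℂ) : HiggsBundle.{u, v} X r where
  ι := E.ι
  φ := E.φ
  chart := E.chart
  cover := E.cover
  g := E.g
  g_holo := E.g_holo
  g_self := E.g_self
  g_mul := E.g_mul
  θ := fun i z => t • E.θ i z
  θ_holo := fun i => (E.θ_holo i).const_smul t
  θ_trans := fun i j x hx => by
    rw [E.θ_trans i j x hx]
    simp only [Matrix.mul_smul, Matrix.smul_mul, smul_smul]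
    rw [mul_comm]

/-- A smooth Hermitian metric `h` on `E` (Gram matrix `h i` in the frame `i`, `⟨s, s⟩ = s_iᴴ h_i s_i`)
which is harmonic: `F_h + [θ, θ†_h] = 0`. In the frame `i` the curvature of the Chern connection is
`∂̄(h⁻¹ ∂h) = Qc h dz̄ ∧ dz` and `[θ, θ†] = [Θ, h⁻¹ Θᴴ h] dz ∧ dz̄`. -/
structure IsHarmonic (E : HiggsBundle.{u, v} X r) (h : E.ι → X → Matrix (Fin r) (Fin r) ℂ) :
    Prop where
  pos : ∀ i, ∀ x ∈ (E.φ i).source, (h i x).PosDef
  trans : ∀ i j, ∀ x ∈ (E.φ i).source ∩ (E.φ j).source,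
    h j x = (E.g i j x)ᴴ * h i x * E.g i j x
  smooth : ∀ i, ContDiffOn ℝ ∞ (fun z => h i ((E.φ i).symm z)) (E.φ i).target
  hitchin : ∀ i, ∀ z ∈ (E.φ i).target,
    Qc (fun w => h i ((E.φ i).symm w)) z = brk (E.θ i z) (h i ((E.φ i).symm z))

end Pool.Agent.HSC
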