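import Pool.Agent.HSC.Stmts

/-!
# The Cauchy transform of smooth compactly supported functions
-/

set_option autoImplicit false

open scoped Matrix.Norms.Frobenius ContDiff Topology Manifold ComplexOrder ComplexConjugate
open scoped Convolution
open Matrix Set Filter MeasureTheory Metric

noncomputable section

namespace Pool.Agent.HSC

namespace CTX

variable {E : Type*} [NormedAddCommGroup E] [NormedSpace ℂ E]

/-- the kernel -/
def ker (u : ℂ) : ℂ := (1 / (Real.pi : ℂ)) * u⁻¹

theorem ker_loc : LocallyIntegrable ker volume := by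
  refine locallyIntegrable_of_norm_le_rpow (C := 1 / Real.pi) (α := 1) ?_ ?_ ?_ ?_
  · rw [Complex.finrank_real_complex]; norm_num
  · rw [Complex.finrank_real_complex]; norm_num
  · refine Eventually.of_forall fun u => ?_
    unfold ker
    rw [norm_mul, norm_inv, Real.rpow_neg (norm_nonneg _), Real.rpow_one, norm_div, norm_one,
      Complex.norm_real, Real.norm_eq_abs, abs_of_pos Real.pi_pos]
  · exact (measurable_const.mul measurable_inv).aestronglyMeasurable

/-- scalar multiplication as a real bilinear map -/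
def Lsm (E : Type*) [NormedAddCommGroup E] [NormedSpace ℂ E] : ℂ →L[ℝ] E →L[ℝ] E :=
  ContinuousLinearMap.lsmul ℝ ℂ

theorem Lsm_apply (c : ℂ) (x : E) : Lsm E c x = c • x := rfl

theorem CT_eq_apply (f : ℂ → E) (z : ℂ) : CT f z = ∫ t, ker t • f (z - t) := by
  unfold CT
  rw [← integral_sub_left_eq_self (fun w => (w - z)⁻¹ • f w) volume z, ← integral_smul]
  refine integral_congr_ae (Eventually.of_forall fun t => ?_)
  change (-(1 / (Real.pi : ℂ))) • ((z - t - z)⁻¹ • f (z - t)) = ker t • f (z - t)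
  rw [smul_smul]
  congr 1
  unfold ker
  have : z - t - z = -t := by ring
  rw [this, inv_neg]
  ring

theorem CT_eq (f : ℂ → E) : CT f = ker ⋆[Lsm E, volume] f := by
  funext z
  rw [CT_eq_apply]
  rfl

theorem smooth {n : ℕ} {f : ℂ → E} (hf : ContDiff ℝ n f) (hc : HasCompactSupport f) :
    ContDiff ℝ n (CT f) := by
  rw [CT_eq]
  exact hc.contDiff_convolution_right (n := n) (Lsm E) ker_loc hf

theorem fderiv_CT {f : ℂ → E} (hf : ContDiff ℝ 1 f) (hc : HasCompactSupport f) (z v : ℂ) :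
    fderiv ℝ (CT f) z v = CT (fun w => fderiv ℝ f w v) z := by
  have h := hc.hasFDerivAt_convolution_right (Lsm E) ker_loc hf z
  rw [← CT_eq] at h
  rw [h.fderiv, convolution_precompR_apply (Lsm E) ker_loc (hc.fderiv ℝ)
    (hf.continuous_fderiv one_ne_zero), CT_eq]

theorem conv_int {f : ℂ → E} (hf : Continuous f) (hc : HasCompactSupport f) (z : ℂ) :
    Integrable (fun t => ker t • f (z - t)) :=
  hc.convolutionExists_right (Lsm E) ker_loc hf z

theorem db_CT {f : ℂ → E} (hf : ContDiff ℝ 1 f) (hc : HasCompactSupport f) (z : ℂ) :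
    db (CT f) z = CT (db f) z := by
  have h1 : Continuous (fderiv ℝ f) := hf.continuous_fderiv one_ne_zero
  have i1 := conv_int (f := fun w => fderiv ℝ f w 1) (by fun_prop) (hc.fderiv_apply ℝ 1) z
  have i2 := conv_int (f := fun w => fderiv ℝ f w Complex.I) (by fun_prop)
    (hc.fderiv_apply ℝ Complex.I) z
  have i2' : Integrable (fun t => Complex.I • (ker t • fderiv ℝ f (z - t) Complex.I)) :=
    i2.smul Complex.I
  unfold db
  rw [fderiv_CT hf hc, fderiv_CT hf hc, CT_eq_apply, CT_eq_apply, CT_eq_apply, ← integral_smul,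
    ← integral_add i1 i2', ← integral_smul]
  refine integral_congr_ae (Eventually.of_forall fun t => ?_)
  change (1 / 2 : ℂ) • (ker t • fderiv ℝ f (z - t) 1 + Complex.I •
    (ker t • fderiv ℝ f (z - t) Complex.I)) = ker t • ((1 / 2 : ℂ) • (fderiv ℝ f (z - t) 1 +
      Complex.I • fderiv ℝ f (z - t) Complex.I))
  rw [smul_comm Complex.I (ker t), ← smul_add, smul_comm]

/-- unit vectors -/
def e (t : ℝ) : ℂ := Complex.exp (t * Complex.I)

theorem continuous_e : Continuous e := by unfold e; fun_prop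

theorem e_ne (t : ℝ) : e t ≠ 0 := Complex.exp_ne_zero _

theorem norm_e (t : ℝ) : ‖e t‖ = 1 := Complex.norm_exp_ofReal_mul_I t

theorem hasDerivAt_e (t : ℝ) : HasDerivAt e (Complex.I * e t) t := by
  have h1 : HasDerivAt (fun t : ℝ => (t : ℂ) * Complex.I) Complex.I t := by
    simpa using (Complex.ofRealCLM.hasDerivAt (x := t)).mul_const Complex.I
  have h2 := h1.cexp
  rw [mul_comm] at h2
  exact h2

theorem e_inv_conj (t : ℝ) : conj (e t) = (e t)⁻¹ := by
  rw [eq_comm, inv_eq_iff_eq_inv, eq_comm, eq_comm]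
  have := Complex.inv_def (e t)
  have h2 : Complex.normSq (e t) = 1 := by
    rw [Complex.normSq_eq_norm_sq, norm_e]; norm_num
  rw [h2] at this
  rw [eq_comm, inv_eq_iff_eq_inv, this]
  simp

/-- the polar form of the operator -/
theorem polar_db {f : ℂ → E} (hf : Differentiable ℝ f) (w : ℂ) (t : ℝ) :
    (e t)⁻¹ • db f w = (1 / 2 : ℂ) • (fderiv ℝ f w (e t) +
      Complex.I • fderiv ℝ f w (Complex.I * e t)) := by
  rw [fderiv_eq_dz_db (hf w), fderiv_eq_dz_db (hf w), map_mul, Complex.conj_I, e_inv_conj]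
  match_scalars
  · linear_combination (1 / 2 * (e t)⁻¹) * Complex.I_sq
  · linear_combination (-(1 / 2) * e t) * Complex.I_sq

theorem CT_polar {g : ℂ → E} (z : ℂ) : CT g z = (-(1 / (Real.pi : ℂ))) •
    ∫ p in Ioi (0 : ℝ) ×ˢ Ioo (-Real.pi) Real.pi, (e p.2)⁻¹ • g (z + p.1 * e p.2) := by
  unfold CT
  rw [← integral_add_left_eq_self (fun w => (w - z)⁻¹ • g w) z,
    ← Complex.integral_comp_polarCoord_symm]
  congr 1
  change ∫ p in Ioi (0 : ℝ) ×ˢ Ioo (-Real.pi) Real.pi, _ = _
  refine setIntegral_congr_fun (measurableSet_Ioi.prod measurableSet_Ioo) fun p hp => ?_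
  have h0 : (0 : ℝ) < p.1 := hp.1
  have h1 : Complex.polarCoord.symm p = p.1 * e p.2 := by
    rw [Complex.polarCoord_symm_apply]
    unfold e
    rw [Complex.exp_mul_I, Complex.ofReal_cos, Complex.ofReal_sin]
  change p.1 • ((z + Complex.polarCoord.symm p - z)⁻¹ • g (z + Complex.polarCoord.symm p)) = _
  rw [h1, add_sub_cancel_left, ← Complex.coe_smul, smul_smul]
  congr 1
  have h2 : (p.1 : ℂ) ≠ 0 := by exact_mod_cast h0.ne'
  have h3 := e_ne p.2
  field_simp

omit [NormedSpace ℂ E] in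
theorem exists_bd {f : ℂ → E} (hc : HasCompactSupport f) (z : ℂ) :
    ∃ S : ℝ, 0 < S ∧ ∀ w, S ≤ ‖w‖ → z + w ∉ tsupport f := by
  obtain ⟨R, hR⟩ := hc.isCompact.isBounded.exists_norm_le
  refine ⟨|R| + ‖z‖ + 1, by positivity, fun w hw hmem => ?_⟩
  have h1 := hR _ hmem
  have h2 : ‖w‖ ≤ ‖z + w‖ + ‖z‖ := by
    have := norm_sub_le (z + w) z
    rwa [add_sub_cancel_left] at this
  have := le_abs_self R
  linarith

omit [NormedSpace ℂ E] in
theorem integrable_polar {F : ℝ × ℝ → E} (hF : Continuous F) {S : ℝ}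
    (h0 : ∀ p : ℝ × ℝ, S ≤ p.1 → F p = 0) :
    IntegrableOn F (Ioi (0 : ℝ) ×ˢ Ioo (-Real.pi) Real.pi) := by
  have h1 : IntegrableOn F (Icc (0 : ℝ) S ×ˢ Icc (-Real.pi) Real.pi) :=
    hF.continuousOn.integrableOn_compact (isCompact_Icc.prod isCompact_Icc)
  refine h1.of_forall_sdiff_eq_zero (measurableSet_Ioi.prod measurableSet_Ioo) ?_
  rintro ⟨s, t⟩ ⟨⟨hs, ht⟩, hn⟩
  refine h0 _ ?_
  by_contra hcon
  push Not at hcon
  apply hn
  exact ⟨⟨le_of_lt hs, hcon.le⟩, ⟨ht.1.le, ht.2.le⟩⟩

variable [CompleteSpace E]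

theorem int_radial {f : ℂ → E} (hf : ContDiff ℝ 1 f) (hc : HasCompactSupport f) (z : ℂ) (t : ℝ) :
    ∫ s in Ioi (0 : ℝ), fderiv ℝ f (z + s * e t) (e t) = - f z := by
  obtain ⟨S, hS, hS'⟩ := exists_bd hc z
  have hd : ∀ s : ℝ, HasDerivAt (fun s : ℝ => f (z + s * e t)) (fderiv ℝ f (z + s * e t) (e t)) s := by
    intro s
    have h1 : HasDerivAt (fun s : ℝ => z + (s : ℂ) * e t) (e t) s := by
      simpa using ((Complex.ofRealCLM.hasDerivAt (x := s)).mul_const (e t)).const_add z
    exact ((hf.differentiable one_ne_zero _).hasFDerivAt).comp_hasDerivAt s h1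
  have hcont : Continuous fun s : ℝ => fderiv ℝ f (z + s * e t) (e t) := by
    have h1 : Continuous (fderiv ℝ f) := hf.continuous_fderiv one_ne_zero
    fun_prop
  have hzero : ∀ s : ℝ, S ≤ s → z + (s : ℂ) * e t ∉ tsupport f := by
    intro s hs
    refine hS' _ ?_
    rw [norm_mul, norm_e, mul_one, Complex.norm_real, Real.norm_eq_abs, abs_of_pos (by linarith)]
    exact hs
  have hint : IntegrableOn (fun s : ℝ => fderiv ℝ f (z + s * e t) (e t)) (Ioi 0) := by
    have h1 : IntegrableOn (fun s : ℝ => fderiv ℝ f (z + s * e t) (e t)) (Icc 0 S) :=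
      hcont.continuousOn.integrableOn_compact isCompact_Icc
    refine h1.of_forall_sdiff_eq_zero measurableSet_Ioi ?_
    rintro s ⟨hs, hn⟩
    have h2 : S ≤ s := by
      by_contra hcon
      push Not at hcon
      exact hn ⟨le_of_lt hs, hcon.le⟩
    have h3 : fderiv ℝ f (z + s * e t) = 0 := by
      have := hzero s h2
      exact image_eq_zero_of_notMem_tsupport fun h => this (tsupport_fderiv_subset ℝ h)
    rw [h3]
    rfl
  have hlim : Tendsto (fun s : ℝ => f (z + s * e t)) atTop (𝓝 0) := by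
    refine tendsto_const_nhds.congr' ?_
    filter_upwards [eventually_ge_atTop S] with s hs
    exact (image_eq_zero_of_notMem_tsupport (hzero s hs)).symm
  have := integral_Ioi_of_hasDerivAt_of_tendsto (a := 0) (m := 0)
    (hd 0).continuousAt.continuousWithinAt (fun s _ => hd s) hint hlim
  rw [this]
  simp

theorem int_angular {f : ℂ → E} (hf : ContDiff ℝ 1 f) (z : ℂ) {s : ℝ} (hs : 0 < s) :
    ∫ t in Ioo (-Real.pi) Real.pi, fderiv ℝ f (z + s * e t) (Complex.I * e t) = 0 := by
  have hd : ∀ t : ℝ, HasDerivAt (fun t : ℝ => f (z + s * e t))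
      (s • fderiv ℝ f (z + s * e t) (Complex.I * e t)) t := by
    intro t
    have h1 : HasDerivAt (fun t : ℝ => z + (s : ℂ) * e t) (s * (Complex.I * e t)) t :=
      ((hasDerivAt_e t).const_mul (s : ℂ)).const_add z
    have h2 := ((hf.differentiable one_ne_zero (z + s * e t)).hasFDerivAt).comp_hasDerivAt t h1
    have h3 : fderiv ℝ f (z + s * e t) (s * (Complex.I * e t)) =
        s • fderiv ℝ f (z + s * e t) (Complex.I * e t) := by
      have h4 : (s : ℂ) * (Complex.I * e t) = s • (Complex.I * e t) := (Complex.real_smul).symm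
      rw [h4, map_smul]
    rw [h3] at h2
    exact h2
  have hcont : Continuous fun t : ℝ => s • fderiv ℝ f (z + s * e t) (Complex.I * e t) := by
    have h1 : Continuous (fderiv ℝ f) := hf.continuous_fderiv one_ne_zero
    have h2 := continuous_e
    fun_prop
  have h1 := intervalIntegral.integral_eq_sub_of_hasDerivAt (a := -Real.pi) (b := Real.pi)
    (fun t _ => hd t) (hcont.intervalIntegrable _ _)
  have h2 : e Real.pi = e (-Real.pi) := by
    unfold e
    push_cast
    rw [Complex.exp_pi_mul_I, neg_mul, Complex.exp_neg, Complex.exp_pi_mul_I]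
    norm_num
  rw [h2, sub_self, intervalIntegral.integral_smul, smul_eq_zero,
    intervalIntegral.integral_of_le (by linarith [Real.pi_pos]), integral_Ioc_eq_integral_Ioo] at h1
  exact h1.resolve_left hs.ne'

theorem inv2 {f : ℂ → E} (hf : ContDiff ℝ 1 f) (hc : HasCompactSupport f) (z : ℂ) :
    CT (db f) z = f z := by
  rw [CT_polar]
  have hdf : Continuous (fderiv ℝ f) := hf.continuous_fderiv one_ne_zero
  have he := continuous_e
  obtain ⟨S, hS, hS'⟩ := exists_bd hc z
  have hzero : ∀ p : ℝ × ℝ, S ≤ p.1 → fderiv ℝ f (z + p.1 * e p.2) = 0 := by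
    intro p hp
    have h1 : z + (p.1 : ℂ) * e p.2 ∉ tsupport f := by
      refine hS' _ ?_
      rw [norm_mul, norm_e, mul_one, Complex.norm_real, Real.norm_eq_abs,
        abs_of_pos (by linarith)]
      exact hp
    exact image_eq_zero_of_notMem_tsupport fun h => h1 (tsupport_fderiv_subset ℝ h)
  have iA : IntegrableOn (fun p : ℝ × ℝ => fderiv ℝ f (z + p.1 * e p.2) (e p.2))
      (Ioi (0 : ℝ) ×ˢ Ioo (-Real.pi) Real.pi) :=
    integrable_polar (S := S) (by fun_prop) fun p hp => by rw [hzero p hp]; rfl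
  have iB : IntegrableOn (fun p : ℝ × ℝ => fderiv ℝ f (z + p.1 * e p.2) (Complex.I * e p.2))
      (Ioi (0 : ℝ) ×ˢ Ioo (-Real.pi) Real.pi) :=
    integrable_polar (S := S) (by fun_prop) fun p hp => by rw [hzero p hp]; rfl
  have h1 : ∫ p in Ioi (0 : ℝ) ×ˢ Ioo (-Real.pi) Real.pi, (e p.2)⁻¹ • db f (z + p.1 * e p.2) =
      (1 / 2 : ℂ) • ((∫ p in Ioi (0 : ℝ) ×ˢ Ioo (-Real.pi) Real.pi,
        fderiv ℝ f (z + p.1 * e p.2) (e p.2)) + Complex.I •
        ∫ p in Ioi (0 : ℝ) ×ˢ Ioo (-Real.pi) Real.pi,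
          fderiv ℝ f (z + p.1 * e p.2) (Complex.I * e p.2)) := by
    have iB' : IntegrableOn (fun p : ℝ × ℝ => Complex.I •
        fderiv ℝ f (z + p.1 * e p.2) (Complex.I * e p.2))
        (Ioi (0 : ℝ) ×ˢ Ioo (-Real.pi) Real.pi) := iB.smul Complex.I
    rw [← integral_smul, ← integral_add iA iB', ← integral_smul]
    refine integral_congr_ae (Eventually.of_forall fun p => ?_)
    exact polar_db (hf.differentiable one_ne_zero) _ _
  rw [h1]
  have hB : ∫ p in Ioi (0 : ℝ) ×ˢ Ioo (-Real.pi) Real.pi,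
      fderiv ℝ f (z + p.1 * e p.2) (Complex.I * e p.2) = 0 := by
    rw [Measure.volume_eq_prod, setIntegral_prod _ iB]
    rw [setIntegral_congr_fun measurableSet_Ioi (fun s hs => int_angular hf z hs)]
    simp
  have hA : ∫ p in Ioi (0 : ℝ) ×ˢ Ioo (-Real.pi) Real.pi,
      fderiv ℝ f (z + p.1 * e p.2) (e p.2) = ((2 * Real.pi : ℝ) : ℂ) • (- f z) := by
    rw [Measure.volume_eq_prod, ← setIntegral_prod_swap, setIntegral_prod]
    · simp only [Prod.swap_prod_mk]
      rw [setIntegral_congr_fun measurableSet_Ioo (fun t _ => int_radial hf hc z t)]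
      rw [setIntegral_const, Complex.coe_smul]
      congr 1
      simp only [Measure.real, Real.volume_Ioo]
      rw [ENNReal.toReal_ofReal (by linarith [Real.pi_pos])]
      ring
    · exact iA.swap
  rw [hA, hB, smul_zero, add_zero, smul_smul, smul_smul, smul_neg, ← neg_smul]
  have hpi : (Real.pi : ℂ) ≠ 0 := by exact_mod_cast Real.pi_ne_zero
  have : -(-(1 / (Real.pi : ℂ)) * (1 / 2) * ((2 * Real.pi : ℝ) : ℂ)) = 1 := by
    push_cast
    field_simp
  rw [this, one_smul]

end CTX

theorem ct_proof : Stmt_CT where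
  smooth := by
    intro r n f _ hf hc
    exact CTX.smooth hf hc
  inv1 := by
    intro r f hf hc z
    rw [CTX.db_CT hf hc, CTX.inv2 hf hc]
  inv2 := by
    intro r f hf hc z
    exact CTX.inv2 hf hc z
  inv2' := by
    intro f hf hc z
    exact CTX.inv2 hf hc z

end Pool.Agent.HSC
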