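import Pool.Agent.HSC.Stmts

/-!
# Module CTB: bounds of the Cauchy transform
-/

set_option autoImplicit false

open scoped Matrix.Norms.Frobenius ContDiff Topology Manifold ComplexOrder ComplexConjugate
open Matrix Set Filter MeasureTheory Metric

noncomputable section

namespace Pool.Agent.HSC

namespace CTB

/-- the truncated kernel -/
def Ker (u : ℂ) : ℝ := (ball (0 : ℂ) 1).indicator (fun u => ‖u‖ ^ (-(3 / 2 : ℝ))) u

theorem Ker_nonneg (u : ℂ) : 0 ≤ Ker u := by
  unfold Ker
  exact Set.indicator_nonneg (fun u _ => by positivity) u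

theorem Ker_integrable : Integrable Ker volume := by
  unfold Ker
  rw [integrable_indicator_iff measurableSet_ball]
  refine integrableOn_ball_of_norm_le_rpow (C := 1) (α := 3 / 2) ?_ ?_ ?_ ?_
  · simp [Complex.finrank_real_complex]
  · simp [Complex.finrank_real_complex]; norm_num
  · refine Filter.Eventually.of_forall fun x => ?_
    rw [one_mul, Real.norm_of_nonneg (by positivity)]
  · exact (measurable_norm.pow_const _).aestronglyMeasurable

/-- the majorant -/
def G (a : ℂ) (R : ℝ) (z w : ℂ) : ℝ := Ker (w - z) + (closedBall a R).indicator (fun _ => (1 : ℝ)) w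

theorem G_nonneg (a : ℂ) (R : ℝ) (z w : ℂ) : 0 ≤ G a R z w :=
  add_nonneg (Ker_nonneg _) (Set.indicator_nonneg (fun _ _ => zero_le_one) _)

theorem G_integrable (a : ℂ) (R : ℝ) (z : ℂ) : Integrable (G a R z) volume := by
  unfold G
  refine (Ker_integrable.comp_sub_right z).add ?_
  rw [integrable_indicator_iff measurableSet_closedBall]
  exact integrableOn_const (by exact measure_closedBall_lt_top.ne)

theorem G_integral (a : ℂ) (R : ℝ) (z : ℂ) :
    ∫ w, G a R z w = (∫ u, Ker u) + (volume (closedBall (0 : ℂ) R)).toReal := by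
  unfold G
  rw [integral_add (Ker_integrable.comp_sub_right z), integral_sub_right_eq_self]
  · congr 1
    rw [integral_indicator measurableSet_closedBall]
    simp only [integral_const, smul_eq_mul, mul_one, MeasurableSet.univ, measureReal_restrict_apply,
      Set.univ_inter]
    rw [Measure.real, Measure.addHaar_closedBall_center]
  · rw [integrable_indicator_iff measurableSet_closedBall]
    exact integrableOn_const (by exact measure_closedBall_lt_top.ne)

theorem rpow_le (a : ℂ) (R : ℝ) (z w : ℂ) (hw : w ∈ closedBall a R) :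
    ‖w - z‖ ^ (-(3 / 2 : ℝ)) ≤ G a R z w := by
  unfold G
  rw [Set.indicator_of_mem hw]
  by_cases h : w - z ∈ ball (0 : ℂ) 1
  · unfold Ker
    rw [Set.indicator_of_mem h]
    linarith
  · have h1 : 1 ≤ ‖w - z‖ := by simpa using h
    have := Real.rpow_le_one_of_one_le_of_nonpos h1 (by norm_num : (-(3 / 2 : ℝ)) ≤ 0)
    linarith [Ker_nonneg (w - z)]

theorem inv_le (a : ℂ) (R : ℝ) (z w : ℂ) (hw : w ∈ closedBall a R) :
    ‖w - z‖⁻¹ ≤ G a R z w := by
  by_cases h1 : 1 ≤ ‖w - z‖
  · have h2 : ‖w - z‖⁻¹ ≤ 1 := inv_le_one_of_one_le₀ h1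
    unfold G
    rw [Set.indicator_of_mem hw]
    linarith [Ker_nonneg (w - z)]
  · push Not at h1
    rcases eq_or_lt_of_le (norm_nonneg (w - z)) with h0 | h0
    · rw [← h0, _root_.inv_zero]
      exact G_nonneg _ _ _ _
    · refine le_trans ?_ (rpow_le a R z w hw)
      rw [← Real.rpow_neg_one]
      exact Real.rpow_le_rpow_of_exponent_ge h0 h1.le (by norm_num)

/-- the elementary inequality for the kernel -/
theorem ker_diff {x y d : ℝ} (hx : 0 < x) (hy : 0 < y) (hd : 0 ≤ d) (hxy : d ≤ x + y) :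
    d / (x * y) ≤ 2 * Real.sqrt d * (x ^ (-(3 / 2 : ℝ)) + y ^ (-(3 / 2 : ℝ))) := by
  wlog h : x ≤ y with H
  · have := H hy hx hd (by linarith) (by linarith : y ≤ x)
    rw [mul_comm y x, add_comm (y ^ _)] at this
    exact this
  have hsd : Real.sqrt d ≤ Real.sqrt x + Real.sqrt y := by
    refine (Real.sqrt_le_sqrt hxy).trans ?_
    rw [← Real.sqrt_sq (add_nonneg (Real.sqrt_nonneg x) (Real.sqrt_nonneg y))]
    apply Real.sqrt_le_sqrt
    nlinarith [Real.sq_sqrt hx.le, Real.sq_sqrt hy.le,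
      mul_nonneg (Real.sqrt_nonneg x) (Real.sqrt_nonneg y)]
  have hsx : Real.sqrt x ≤ Real.sqrt y := Real.sqrt_le_sqrt h
  have hsy0 : 0 < Real.sqrt y := Real.sqrt_pos.mpr hy
  have hsx0 : 0 < Real.sqrt x := Real.sqrt_pos.mpr hx
  have h3 : x ^ (-(3 / 2 : ℝ)) = (x * Real.sqrt x)⁻¹ := by
    rw [Real.rpow_neg hx.le, Real.sqrt_eq_rpow]
    congr 1
    nth_rewrite 2 [← Real.rpow_one x]
    rw [← Real.rpow_add hx]
    norm_num
  have h4 : d / (x * y) ≤ Real.sqrt d * (2 * Real.sqrt y) / (x * y) := by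
    apply div_le_div_of_nonneg_right _ (by positivity)
    calc d = Real.sqrt d * Real.sqrt d := (Real.mul_self_sqrt hd).symm
      _ ≤ Real.sqrt d * (2 * Real.sqrt y) :=
        mul_le_mul_of_nonneg_left (by linarith) (Real.sqrt_nonneg _)
  have h5 : Real.sqrt d * (2 * Real.sqrt y) / (x * y) = 2 * Real.sqrt d * (x * Real.sqrt y)⁻¹ := by
    have : y = Real.sqrt y * Real.sqrt y := (Real.mul_self_sqrt hy.le).symm
    field_simp
    rw [Real.sq_sqrt hy.le]
  have h6 : (x * Real.sqrt y)⁻¹ ≤ (x * Real.sqrt x)⁻¹ := by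
    apply inv_anti₀ (by positivity)
    exact mul_le_mul_of_nonneg_left hsx hx.le
  calc d / (x * y) ≤ 2 * Real.sqrt d * (x * Real.sqrt y)⁻¹ := h4.trans h5.le
    _ ≤ 2 * Real.sqrt d * (x ^ (-(3 / 2 : ℝ)) + y ^ (-(3 / 2 : ℝ))) := by
      apply mul_le_mul_of_nonneg_left _ (by positivity)
      rw [h3]
      have : 0 ≤ y ^ (-(3 / 2 : ℝ)) := by positivity
      linarith

theorem inv_sub_le (z z' w : ℂ) : ‖(w - z)⁻¹ - (w - z')⁻¹‖ ≤
    2 * Real.sqrt ‖z - z'‖ * (‖w - z‖ ^ (-(3 / 2 : ℝ)) + ‖w - z'‖ ^ (-(3 / 2 : ℝ))) := by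
  have key : ∀ y : ℝ, 0 < y → y⁻¹ ≤ 2 * Real.sqrt y * y ^ (-(3 / 2 : ℝ)) := by
    intro y hy
    have h3 : Real.sqrt y * y ^ (-(3 / 2 : ℝ)) = y⁻¹ := by
      rw [Real.sqrt_eq_rpow, ← Real.rpow_add hy, ← Real.rpow_neg_one]
      norm_num
    rw [mul_assoc, h3]
    have : 0 < y⁻¹ := by positivity
    linarith
  rcases eq_or_ne w z with rfl | hz
  · rcases eq_or_ne w z' with rfl | hz'
    · simp
    · have hy : 0 < ‖w - z'‖ := norm_pos_iff.mpr (sub_ne_zero.mpr hz')
      simp only [sub_self, _root_.inv_zero, zero_sub, norm_neg, norm_zero, norm_inv]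
      rw [Real.zero_rpow (by norm_num), zero_add]
      exact key _ hy
  · have hx : 0 < ‖w - z‖ := norm_pos_iff.mpr (sub_ne_zero.mpr hz)
    rcases eq_or_ne w z' with rfl | hz'
    · simp only [sub_self, _root_.inv_zero, sub_zero, norm_zero, norm_inv]
      rw [Real.zero_rpow (by norm_num), add_zero, norm_sub_rev z w]
      exact key _ hx
    · have hy : 0 < ‖w - z'‖ := norm_pos_iff.mpr (sub_ne_zero.mpr hz')
      have h1 : (w - z)⁻¹ - (w - z')⁻¹ = (z - z') / ((w - z) * (w - z')) := by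
        have hz1 := sub_ne_zero.mpr hz
        have hz2 := sub_ne_zero.mpr hz'
        field_simp
        ring
      rw [h1, norm_div, norm_mul]
      refine ker_diff hx hy (norm_nonneg _) ?_
      calc ‖z - z'‖ = ‖(w - z') - (w - z)‖ := by congr 1; ring
        _ ≤ ‖w - z'‖ + ‖w - z‖ := norm_sub_le _ _
        _ = ‖w - z‖ + ‖w - z'‖ := add_comm _ _

section

variable {E : Type*} [NormedAddCommGroup E] [NormedSpace ℂ E]

theorem point_bound (a : ℂ) (R m : ℝ) (f : ℂ → E) (hm : ∀ w, ‖f w‖ ≤ m)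
    (h0 : ∀ w ∉ closedBall a R, f w = 0) (z w : ℂ) :
    ‖(w - z)⁻¹ • f w‖ ≤ m * G a R z w := by
  have hm0 : 0 ≤ m := (norm_nonneg _).trans (hm 0)
  by_cases hw : w ∈ closedBall a R
  · rw [norm_smul, norm_inv, mul_comm]
    exact mul_le_mul (hm w) (inv_le a R z w hw) (by positivity) hm0
  · rw [h0 w hw, smul_zero, norm_zero]
    exact mul_nonneg hm0 (G_nonneg _ _ _ _)

theorem integrable_ker (a : ℂ) (R m : ℝ) (f : ℂ → E) (hf : AEStronglyMeasurable f volume)
    (hm : ∀ w, ‖f w‖ ≤ m) (h0 : ∀ w ∉ closedBall a R, f w = 0) (z : ℂ) :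
    Integrable (fun w => (w - z)⁻¹ • f w) volume := by
  refine Integrable.mono' ((G_integrable a R z).const_mul m) ?_
    (Filter.Eventually.of_forall (point_bound a R m f hm h0 z))
  refine AEStronglyMeasurable.smul ?_ hf
  exact ((measurable_id.sub_const z).inv).aestronglyMeasurable

end

end CTB

open CTB in
theorem ctb_proof : Stmt_CTB := by
  intro r R hR
  set I : ℝ := (∫ u, Ker u) + (volume (closedBall (0 : ℂ) R)).toReal with hI
  have hI0 : 0 ≤ I := add_nonneg (integral_nonneg Ker_nonneg) ENNReal.toReal_nonneg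
  refine ⟨4 * I + 1, by linarith, ?_⟩
  intro f a m hf hm h0
  have hm0 : 0 ≤ m := (norm_nonneg _).trans (hm 0)
  have hpi : ‖(-(1 / (Real.pi : ℂ)))‖ ≤ 1 := by
    rw [norm_neg, norm_div, norm_one, Complex.norm_real, Real.norm_of_nonneg Real.pi_pos.le]
    rw [div_le_one Real.pi_pos]
    linarith [Real.pi_gt_three]
  constructor
  · intro z
    unfold CT
    rw [norm_smul]
    have h1 : ‖∫ w, (w - z)⁻¹ • f w‖ ≤ m * I := by
      have := norm_integral_le_of_norm_le ((G_integrable a R z).const_mul m)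
        (Filter.Eventually.of_forall (point_bound a R m f hm h0 z))
      rwa [integral_const_mul, G_integral] at this
    calc ‖(-(1 / (Real.pi : ℂ)))‖ * ‖∫ w, (w - z)⁻¹ • f w‖ ≤ 1 * (m * I) :=
          mul_le_mul hpi h1 (norm_nonneg _) zero_le_one
      _ ≤ (4 * I + 1) * m := by nlinarith [mul_nonneg hm0 hI0]
  · intro z z'
    unfold CT
    rw [← smul_sub, norm_smul, ← integral_sub (integrable_ker a R m f hf hm h0 z)
      (integrable_ker a R m f hf hm h0 z')]
    set s := Real.sqrt ‖z - z'‖ with hs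
    have hs0 : 0 ≤ s := Real.sqrt_nonneg _
    have h1 : ∀ w, ‖(w - z)⁻¹ • f w - (w - z')⁻¹ • f w‖ ≤
        (2 * s * m) * (G a R z w + G a R z' w) := by
      intro w
      by_cases hw : w ∈ closedBall a R
      · rw [← sub_smul, norm_smul]
        calc ‖(w - z)⁻¹ - (w - z')⁻¹‖ * ‖f w‖
            ≤ (2 * s * (‖w - z‖ ^ (-(3 / 2 : ℝ)) + ‖w - z'‖ ^ (-(3 / 2 : ℝ)))) * m :=
              mul_le_mul (inv_sub_le z z' w) (hm w) (norm_nonneg _) (by positivity)
          _ ≤ (2 * s * (G a R z w + G a R z' w)) * m := by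
              apply mul_le_mul_of_nonneg_right _ hm0
              apply mul_le_mul_of_nonneg_left _ (by positivity)
              exact add_le_add (rpow_le a R z w hw) (rpow_le a R z' w hw)
          _ = _ := by ring
      · rw [h0 w hw, smul_zero, smul_zero, sub_zero, norm_zero]
        exact mul_nonneg (by positivity) (add_nonneg (G_nonneg _ _ _ _) (G_nonneg _ _ _ _))
    have h2 : ‖∫ w, ((w - z)⁻¹ • f w - (w - z')⁻¹ • f w)‖ ≤ (2 * s * m) * (I + I) := by
      have := norm_integral_le_of_norm_le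
        (((G_integrable a R z).add (G_integrable a R z')).const_mul (2 * s * m))
        (Filter.Eventually.of_forall h1)
      rw [integral_const_mul] at this
      simp only [Pi.add_apply] at this
      rwa [integral_add (G_integrable a R z) (G_integrable a R z'), G_integral, G_integral]
        at this
    calc ‖(-(1 / (Real.pi : ℂ)))‖ * ‖∫ w, ((w - z)⁻¹ • f w - (w - z')⁻¹ • f w)‖
        ≤ 1 * ((2 * s * m) * (I + I)) := mul_le_mul hpi h2 (norm_nonneg _) zero_le_one
      _ ≤ (4 * I + 1) * m * s := by nlinarith [mul_nonneg hm0 hs0]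

end Pool.Agent.HSC
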