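import Pool.Agent.HSC.Stmts

/-!
CTW: the weak `∂̄` of the Cauchy transform of a bounded function.
-/

set_option autoImplicit false

open scoped Matrix.Norms.Frobenius ContDiff Topology Manifold ComplexOrder ComplexConjugate
open Matrix Set Filter MeasureTheory Metric

noncomputable section

namespace Pool.Agent.HSC

namespace CTW

theorem int_inv (r : ℝ) : IntegrableOn (fun x : ℂ => x⁻¹) (ball (0 : ℂ) r) volume := by
  have h : IntegrableOn (fun x : ℂ => ‖x‖⁻¹) (ball (0 : ℂ) r) volume := by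
    refine (integrableOn_fun_norm_addHaar (volume : Measure ℂ)
      (f := fun y : ℝ => y⁻¹) (r := r)).mpr ?_
    have h1 : IntegrableOn (fun _ : ℝ => (1 : ℝ)) (Ioo 0 r) volume :=
      integrableOn_const (by simp)
    refine h1.congr_fun (fun y hy => ?_) measurableSet_Ioo
    have hy0 : y ≠ 0 := hy.1.ne'
    simp [Complex.finrank_real_complex, hy0]
  refine Integrable.mono' h ?_ (Eventually.of_forall fun x => ?_)
  · exact (measurable_inv.aestronglyMeasurable)
  · rw [norm_inv]

/-- truncated kernel -/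
def kr (R : ℝ) : ℂ → ℂ := (ball (0 : ℂ) R).indicator fun u => u⁻¹

theorem kr_int (R : ℝ) : Integrable (kr R) volume :=
  (integrable_indicator_iff measurableSet_ball).mpr (int_inv R)

theorem db_zero {ψ : ℂ → ℂ} {z : ℂ} (h : fderiv ℝ ψ z = 0) : db ψ z = 0 := by
  simp [db, h]

theorem db_cont {ψ : ℂ → ℂ} (h : ContDiff ℝ 1 ψ) : Continuous (db ψ) := by
  rw [continuous_iff_continuousAt]
  intro z
  have h1 : ContDiffAt ℝ (((0 : ℕ) : WithTop ℕ∞) + 1) ψ z := by
    simpa using h.contDiffAt
  exact (contDiffAt_db h1).continuousAt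

theorem db_supp {ψ : ℂ → ℂ} (h : HasCompactSupport ψ) : HasCompactSupport (db ψ) := by
  refine (h.fderiv (𝕜 := ℝ)).mono' ?_
  intro z hz
  refine subset_closure ?_
  intro h0
  exact hz (db_zero h0)

theorem gen {E : Type*} [NormedAddCommGroup E] [NormedSpace ℂ E] [CompleteSpace E]
    (h2' : ∀ f : ℂ → ℂ, ContDiff ℝ 1 f → HasCompactSupport f → ∀ z, CT (db f) z = f z)
    (R m : ℝ) (f : ℂ → E) (hfm : AEStronglyMeasurable f volume) (hfb : ∀ w, ‖f w‖ ≤ m)
    (hf0 : ∀ w ∉ closedBall (0 : ℂ) R, f w = 0) : WeakDb univ (CT f) f := by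
  intro ψ hψ hψc _
  have hgc := db_cont hψ
  have hgs := db_supp hψc
  obtain ⟨ρ, hρ⟩ := hgs.isCompact.isBounded.subset_ball (0 : ℂ)
  have hgi : Integrable (db ψ) volume := hgc.integrable_of_hasCompactSupport hgs
  have hg0 : ∀ z, z ∉ ball (0 : ℂ) ρ → db ψ z = 0 := by
    intro z hz
    by_contra h
    exact hz (hρ (subset_closure h))
  have hI := Integrable.convolution_integrand (ContinuousLinearMap.mul ℂ ℂ) hgi
    (kr_int (R + ρ)) (μ := (volume : Measure ℂ))
  have hF : Integrable (fun p : ℂ × ℂ => (db ψ p.2 * kr (R + ρ) (p.1 - p.2)) • f p.1)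
      ((volume : Measure ℂ).prod volume) := by
    refine Integrable.mono' (hI.norm.mul_const m) ?_ (Eventually.of_forall fun p => ?_)
    · exact hI.aestronglyMeasurable.smul hfm.comp_fst
    · rw [norm_smul]
      exact mul_le_mul_of_nonneg_left (hfb _) (norm_nonneg _)
  have heq : ∀ w z : ℂ, (db ψ z * kr (R + ρ) (w - z)) • f w = (db ψ z * (w - z)⁻¹) • f w := by
    intro w z
    by_cases hz : z ∈ ball (0 : ℂ) ρ
    · by_cases hw : w ∈ closedBall (0 : ℂ) R
      · have : w - z ∈ ball (0 : ℂ) (R + ρ) := by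
          rw [mem_ball_zero_iff] at hz ⊢
          rw [mem_closedBall_zero_iff] at hw
          exact lt_of_le_of_lt (norm_sub_le _ _) (by linarith)
        rw [kr, Set.indicator_of_mem this]
      · rw [hf0 w hw, smul_zero, smul_zero]
    · rw [hg0 z hz, zero_mul, zero_mul]
  have hswap := integral_integral_swap (f := fun w z : ℂ =>
    (db ψ z * kr (R + ρ) (w - z)) • f w) hF
  have hpi : (Real.pi : ℂ) ≠ 0 := by exact_mod_cast Real.pi_ne_zero
  have hL : ∫ z, db ψ z • CT f z
      = (-(1 / (Real.pi : ℂ))) • ∫ z, ∫ w, (db ψ z * kr (R + ρ) (w - z)) • f w := by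
    rw [← integral_smul]
    refine integral_congr_ae (Eventually.of_forall fun z => ?_)
    show db ψ z • CT f z = (-(1 / (Real.pi : ℂ))) • ∫ w, (db ψ z * kr (R + ρ) (w - z)) • f w
    unfold CT
    rw [smul_comm]
    congr 1
    rw [← integral_smul]
    refine integral_congr_ae (Eventually.of_forall fun w => ?_)
    show db ψ z • (w - z)⁻¹ • f w = (db ψ z * kr (R + ρ) (w - z)) • f w
    rw [heq, smul_smul]
  have hin : ∀ w : ℂ, ∫ z, (db ψ z * kr (R + ρ) (w - z)) • f w
      = ((Real.pi : ℂ) * ψ w) • f w := by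
    intro w
    have h1 : ∫ z, (db ψ z * kr (R + ρ) (w - z)) • f w
        = ∫ z, (db ψ z * (w - z)⁻¹) • f w :=
      integral_congr_ae (Eventually.of_forall fun z => heq w z)
    rw [h1, integral_smul_const]
    congr 1
    have h2 := h2' ψ hψ hψc w
    unfold CT at h2
    rw [smul_eq_mul] at h2
    have h3 : ∫ z, db ψ z * (w - z)⁻¹ = -∫ z, (z - w)⁻¹ • db ψ z := by
      rw [← integral_neg]
      refine integral_congr_ae (Eventually.of_forall fun z => ?_)
      show db ψ z * (w - z)⁻¹ = -((z - w)⁻¹ • db ψ z)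
      rw [smul_eq_mul, ← neg_sub z w, inv_neg]
      ring
    rw [h3, ← h2]
    field_simp
  rw [hL, ← hswap]
  simp only [hin]
  rw [← integral_smul, ← integral_neg]
  refine integral_congr_ae (Eventually.of_forall fun w => ?_)
  show (-(1 / (Real.pi : ℂ))) • ((Real.pi : ℂ) * ψ w) • f w = -(ψ w • f w)
  rw [smul_smul, ← neg_smul]
  congr 1
  field_simp

end CTW

theorem ctw_proof (hCT : Stmt_CT) : Stmt_CTW := by
  intro r R m f hfm hfb hf0
  exact CTW.gen hCT.inv2' R m f hfm hfb hf0

end Pool.Agent.HSC
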