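import Pool.Agent.HSC.Stmts

/-!
# The a priori bound (module CMP)
-/

set_option autoImplicit false

open scoped Matrix.Norms.Frobenius ContDiff Topology Manifold ComplexOrder ComplexConjugate
open Matrix Set Filter MeasureTheory Metric

noncomputable section

namespace Pool.Agent.HSC

namespace Cmp

/-! ### Linear algebra -/

section lin

variable {r j : ℕ}

theorem det_pos {K : M r} (hK : K.PosDef) {V : Matrix (Fin r) (Fin j) ℂ} (hV : Inj V) :
    0 < (Vᴴ * K * V).det := (hK.conjTranspose_mul_mul_same hV).det_pos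

theorem det_re_pos {K : M r} (hK : K.PosDef) {V : Matrix (Fin r) (Fin j) ℂ} (hV : Inj V) :
    0 < (Vᴴ * K * V).det.re := (Complex.pos_iff.1 (det_pos hK hV)).1

theorem det_im {K : M r} (hK : K.PosDef) {V : Matrix (Fin r) (Fin j) ℂ} (hV : Inj V) :
    (Vᴴ * K * V).det.im = 0 := (Complex.pos_iff.1 (det_pos hK hV)).2.symm

theorem det_of_not_inj {K : M r} {V : Matrix (Fin r) (Fin j) ℂ} (hV : ¬ Inj V) :
    (Vᴴ * K * V).det = 0 := by
  have h : ∃ v, v ≠ 0 ∧ V *ᵥ v = 0 := by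
    by_contra hcon
    push Not at hcon
    apply hV
    intro x y hxy
    by_contra hne
    have h1 := hcon (x - y) (sub_ne_zero.2 hne)
    apply h1
    rw [Matrix.mulVec_sub]
    exact sub_eq_zero.2 hxy
  obtain ⟨v, hv, hv0⟩ := h
  rw [← Matrix.exists_mulVec_eq_zero_iff]
  refine ⟨v, hv, ?_⟩
  rw [← Matrix.mulVec_mulVec, hv0, Matrix.mulVec_zero]

/-- the difference of the logarithms -/
def dl (K P : M r) (V : Matrix (Fin r) (Fin j) ℂ) : ℝ := ldet K V - ldet P V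

theorem det_mul_right (K : M r) (V : Matrix (Fin r) (Fin j) ℂ) (C : M j) :
    ((V * C)ᴴ * K * (V * C)).det = (Complex.normSq C.det : ℂ) * (Vᴴ * K * V).det := by
  have h : (V * C)ᴴ * K * (V * C) = Cᴴ * (Vᴴ * K * V) * C := by
    rw [Matrix.conjTranspose_mul]
    simp only [Matrix.mul_assoc]
  rw [h, Matrix.det_mul, Matrix.det_mul, Matrix.det_conjTranspose, Complex.star_def,
    Complex.normSq_eq_conj_mul_self]
  ring

theorem ldet_mul_right {K : M r} (hK : K.PosDef) {V : Matrix (Fin r) (Fin j) ℂ} (hV : Inj V)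
    {C : M j} (hC : IsUnit C) :
    ldet K (V * C) = Real.log (Complex.normSq C.det) + ldet K V := by
  have hC' : C.det ≠ 0 := ((Matrix.isUnit_iff_isUnit_det _).1 hC).ne_zero
  rw [ldet, ldet, det_mul_right, Complex.re_ofReal_mul, Real.log_mul]
  · exact (Complex.normSq_pos.2 hC').ne'
  · exact (det_re_pos hK hV).ne'

theorem dl_mul_right {K P : M r} (hK : K.PosDef) (hP : P.PosDef)
    {V : Matrix (Fin r) (Fin j) ℂ} (hV : Inj V) {C : M j} (hC : IsUnit C) :
    dl K P (V * C) = dl K P V := by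
  rw [dl, dl, ldet_mul_right hK hV hC, ldet_mul_right hP hV hC]
  ring

theorem inj_mul_right {V : Matrix (Fin r) (Fin j) ℂ} (hV : Inj V) {C : M j} (hC : IsUnit C) :
    Inj (V * C) := by
  unfold Inj
  have h : (V * C).mulVec = V.mulVec ∘ C.mulVec := by
    funext v
    simp [Matrix.mulVec_mulVec]
  rw [h]
  exact hV.comp (Matrix.mulVec_injective_of_isUnit hC)

theorem inj_mul_left {V : Matrix (Fin r) (Fin j) ℂ} (hV : Inj V) {B : M r} (hB : IsUnit B) :
    Inj (B * V) := by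
  unfold Inj
  have h : (B * V).mulVec = B.mulVec ∘ V.mulVec := by
    funext v
    simp [Matrix.mulVec_mulVec]
  rw [h]
  exact (Matrix.mulVec_injective_of_isUnit hB).comp hV

theorem inj_of_iso {V : Matrix (Fin r) (Fin j) ℂ} (h : Vᴴ * V = 1) : Inj V := by
  intro x y hxy
  have h1 : Vᴴ *ᵥ (V *ᵥ x) = Vᴴ *ᵥ (V *ᵥ y) := by
    have : V *ᵥ x = V *ᵥ y := hxy
    rw [this]
  rw [Matrix.mulVec_mulVec, Matrix.mulVec_mulVec, h, Matrix.one_mulVec, Matrix.one_mulVec] at h1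
  exact h1

/-- normalisation -/
theorem exists_iso (hS : Stmt_Simd) {V : Matrix (Fin r) (Fin j) ℂ} (hV : Inj V) :
    ∃ C : M j, IsUnit C ∧ (V * C)ᴴ * (V * C) = 1 := by
  have h1 : (Vᴴ * V).PosDef := Matrix.PosDef.conjTranspose_mul_self V hV
  obtain ⟨B, κ, hB, -, hB1, -⟩ := hS j (Vᴴ * V) 1 h1 Matrix.isHermitian_one
  refine ⟨B, hB, ?_⟩
  rw [← hB1, Matrix.conjTranspose_mul]
  simp only [Matrix.mul_assoc]

theorem En_star_mul (r j : ℕ) (hj : j ≤ r) : (En r j)ᴴ * En r j = 1 := by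
  ext a b
  rw [Matrix.mul_apply]
  simp only [En, Matrix.conjTranspose_apply, Matrix.of_apply]
  rw [Finset.sum_eq_single (Fin.castLE hj a)]
  · by_cases h : a = b
    · subst h; simp
    · rw [Matrix.one_apply_ne h]
      have : ¬ ((Fin.castLE hj a : ℕ) = (b : ℕ)) := by
        intro hc
        exact h (Fin.ext hc)
      simp [this]
      intro hc
      exact h (Fin.ext hc)
  · intro i _ hi
    have : ¬ ((i : ℕ) = (a : ℕ)) := by
      intro hc
      exact hi (Fin.ext hc)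
    simp [this]
  · simp

theorem En_diag (r j : ℕ) (hj : j ≤ r) (d : Fin r → ℂ) :
    (En r j)ᴴ * Matrix.diagonal d * En r j = Matrix.diagonal (fun a => d (Fin.castLE hj a)) := by
  ext a b
  rw [Matrix.mul_apply]
  simp only [Matrix.mul_diagonal, En, Matrix.conjTranspose_apply, Matrix.of_apply]
  rw [Finset.sum_eq_single (Fin.castLE hj a)]
  · by_cases h : a = b
    · subst h; simp
    · rw [Matrix.diagonal_apply_ne _ h]
      have : ¬ ((Fin.castLE hj a : ℕ) = (b : ℕ)) := by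
        intro hc
        exact h (Fin.ext hc)
      simp [this]
      intro hc
      exact absurd (Fin.ext hc) h
  · intro i _ hi
    have : ¬ ((i : ℕ) = (a : ℕ)) := by
      intro hc
      exact hi (Fin.ext hc)
    simp [this]
  · simp

/-- the sum of the logarithms of the first `j` eigenvalues -/
def Sj (κ : Fin r → ℝ) (j : ℕ) : ℝ :=
  ∑ i ∈ Finset.univ.filter (fun i : Fin r => (i : ℕ) < j), Real.log (κ i)

theorem Sj_zero (κ : Fin r → ℝ) : Sj κ 0 = 0 := by simp [Sj]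

theorem Sj_succ (κ : Fin r → ℝ) (j : ℕ) (hj : j < r) :
    Sj κ (j + 1) = Sj κ j + Real.log (κ ⟨j, hj⟩) := by
  have h : Finset.univ.filter (fun i : Fin r => (i : ℕ) < j + 1) =
      insert ⟨j, hj⟩ (Finset.univ.filter (fun i : Fin r => (i : ℕ) < j)) := by
    ext i
    simp only [Finset.mem_filter, Finset.mem_univ, true_and, Finset.mem_insert, Fin.ext_iff]
    omega
  rw [Sj, h, Finset.sum_insert (by simp), Sj]
  ring

theorem prod_castLE (κ : Fin r → ℝ) (j : ℕ) (hj : j ≤ r) :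
    ∏ a : Fin j, κ (Fin.castLE hj a) =
      ∏ i ∈ Finset.univ.filter (fun i : Fin r => (i : ℕ) < j), κ i := by
  refine Finset.prod_nbij (fun a => Fin.castLE hj a) ?_ ?_ ?_ ?_
  · intro a _
    simp
  · intro a _ b _ hab
    exact Fin.castLE_injective hj hab
  · intro i hi
    have hi' : (i : ℕ) < j := by simpa using hi
    exact ⟨⟨i, hi'⟩, by simp, Fin.ext rfl⟩
  · intro a _; rfl

variable {K P B : M r} {κ : Fin r → ℝ}

theorem kappa_pos (hK : K.PosDef) (hB : IsUnit B)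
    (hBK : Bᴴ * K * B = Matrix.diagonal (fun i => (κ i : ℂ))) (i : Fin r) : 0 < κ i := by
  have h1 : (Bᴴ * K * B).PosDef :=
    hK.conjTranspose_mul_mul_same (Matrix.mulVec_injective_of_isUnit hB)
  rw [hBK] at h1
  have h2 := h1.diag_pos (i := i)
  rw [Matrix.diagonal_apply_eq] at h2
  exact_mod_cast h2

theorem dl_En (hj : j ≤ r) (hκ : ∀ i, 0 < κ i) (hBP : Bᴴ * P * B = 1)
    (hBK : Bᴴ * K * B = Matrix.diagonal (fun i => (κ i : ℂ))) :
    dl K P (B * En r j) = Sj κ j := by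
  have h1 : (B * En r j)ᴴ * K * (B * En r j) =
      Matrix.diagonal (fun a => (κ (Fin.castLE hj a) : ℂ)) := by
    rw [← En_diag r j hj (fun i => (κ i : ℂ)), ← hBK, Matrix.conjTranspose_mul]
    simp only [Matrix.mul_assoc]
  have h2 : (B * En r j)ᴴ * P * (B * En r j) = 1 := by
    have : (B * En r j)ᴴ * P * (B * En r j) = (En r j)ᴴ * (Bᴴ * P * B) * En r j := by
      rw [Matrix.conjTranspose_mul]
      simp only [Matrix.mul_assoc]
    rw [this, hBP, Matrix.mul_one, En_star_mul r j hj]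
  rw [dl, ldet, ldet, h1, h2, Matrix.det_one, Matrix.det_diagonal]
  rw [← Complex.ofReal_prod, Complex.ofReal_re, Complex.one_re, Real.log_one, sub_zero,
    prod_castLE, Real.log_prod (fun i _ => (hκ i).ne')]
  rfl

theorem dl_le (hKF : Stmt_KyFan) (hj : j ≤ r) (hK : K.PosDef) (hP : P.PosDef) (hB : IsUnit B)
    (hκ : ∀ i, 0 < κ i) (hanti : Antitone κ) (hBP : Bᴴ * P * B = 1)
    (hBK : Bᴴ * K * B = Matrix.diagonal (fun i => (κ i : ℂ)))
    {V : Matrix (Fin r) (Fin j) ℂ} (hV : Inj V) : dl K P V ≤ Sj κ j := by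
  have hBdet : IsUnit B.det := (Matrix.isUnit_iff_isUnit_det _).1 hB
  have hV2 : V = B * (B⁻¹ * V) := by
    rw [← Matrix.mul_assoc, Matrix.mul_nonsing_inv _ hBdet, Matrix.one_mul]
  set W := B⁻¹ * V with hW
  have h1 : Vᴴ * K * V = Wᴴ * Matrix.diagonal (fun i => (κ i : ℂ)) * W := by
    rw [← hBK, hV2, Matrix.conjTranspose_mul]
    simp only [Matrix.mul_assoc]
  have h2 : Vᴴ * P * V = Wᴴ * W := by
    have : Vᴴ * P * V = Wᴴ * (Bᴴ * P * B) * W := by
      rw [hV2, Matrix.conjTranspose_mul]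
      simp only [Matrix.mul_assoc]
    rw [this, hBP, Matrix.mul_one]
  have h3 := hKF r j κ hj hanti hκ W
  rw [← h1, ← h2] at h3
  have hp1 := det_re_pos hK hV
  have hp2 := det_re_pos hP hV
  have h4 := Real.log_le_log hp1 h3
  rw [Real.log_mul (Finset.prod_pos fun i _ => hκ i).ne' hp2.ne',
    Real.log_prod (fun i _ => (hκ i).ne')] at h4
  rw [dl, ldet, ldet, Sj]
  linarith

end lin

/-! ### Compactness -/

theorem isCompact_iso (r j : ℕ) : IsCompact {V : Matrix (Fin r) (Fin j) ℂ | Vᴴ * V = 1} := by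
  have h1 : IsCompact {V : Matrix (Fin r) (Fin j) ℂ | ∀ i, V i ∈
      {w : Fin j → ℂ | ∀ k, w k ∈ closedBall (0 : ℂ) 1}} :=
    isCompact_pi_infinite (fun _ => isCompact_pi_infinite (fun _ => isCompact_closedBall _ _))
  refine h1.of_isClosed_subset ?_ ?_
  · refine isClosed_eq ?_ continuous_const
    exact (continuous_id.matrix_conjTranspose).matrix_mul continuous_id
  · intro V hV i k
    have h2 : (Vᴴ * V) k k = 1 := by
      have : Vᴴ * V = 1 := hV
      rw [this, Matrix.one_apply_eq]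
    rw [Matrix.mul_apply] at h2
    have h3 : ∑ i, Complex.normSq (V i k) = 1 := by
      have h4 := congrArg Complex.re h2
      rw [Complex.re_sum, Complex.one_re] at h4
      rw [← h4]
      refine Finset.sum_congr rfl fun i _ => ?_
      rw [Matrix.conjTranspose_apply, Complex.star_def, ← Complex.normSq_eq_conj_mul_self,
        Complex.ofReal_re]
    have h5 : Complex.normSq (V i k) ≤ 1 := by
      rw [← h3]
      exact Finset.single_le_sum (f := fun i => Complex.normSq (V i k))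
        (fun i _ => Complex.normSq_nonneg _) (Finset.mem_univ i)
    rw [mem_closedBall_zero_iff]
    rw [Complex.normSq_eq_norm_sq] at h5
    nlinarith [norm_nonneg (V i k)]

theorem continuousOn_dl (r j : ℕ) (K P : ℂ → M r) (S : Set ℂ) (hK : ContinuousOn K S)
    (hP : ContinuousOn P S) (hpos : ∀ z ∈ S, (P z).PosDef ∧ (K z).PosDef) :
    ContinuousOn (fun x : ℂ × Matrix (Fin r) (Fin j) ℂ => dl (K x.1) (P x.1) x.2)
      (S ×ˢ {V | Vᴴ * V = 1}) := by
  have hc : Continuous (fun x : M r × Matrix (Fin r) (Fin j) ℂ => (x.2ᴴ * x.1 * x.2).det.re) :=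
    Complex.continuous_re.comp
      (((continuous_snd.matrix_conjTranspose).matrix_mul continuous_fst).matrix_mul
        continuous_snd).matrix_det
  have h1 : ∀ L : ℂ → M r, ContinuousOn L S → (∀ z ∈ S, (L z).PosDef) →
      ContinuousOn (fun x : ℂ × Matrix (Fin r) (Fin j) ℂ => ldet (L x.1) x.2)
        (S ×ˢ {V | Vᴴ * V = 1}) := by
    intro L hL hLp
    have h2 : ContinuousOn (fun x : ℂ × Matrix (Fin r) (Fin j) ℂ => (L x.1, x.2))
        (S ×ˢ {V | Vᴴ * V = 1}) :=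
      (hL.comp continuousOn_fst (fun x hx => hx.1)).prodMk continuousOn_snd
    have h3 := hc.comp_continuousOn h2
    refine ContinuousOn.log h3 fun x hx => ?_
    exact (det_re_pos (hLp x.1 hx.1) (inj_of_iso hx.2)).ne'
  exact (h1 K hK fun z hz => (hpos z hz).2).sub (h1 P hP fun z hz => (hpos z hz).1)

theorem exists_max (hS : Stmt_Simd) (r j : ℕ) (hj : j ≤ r) (K P : ℂ → M r) (a : ℂ) (ρ ε : ℝ)
    (hρ : 0 < ρ) (hK : ContinuousOn K (closedBall a ρ)) (hP : ContinuousOn P (closedBall a ρ))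
    (hpos : ∀ z ∈ closedBall a ρ, (P z).PosDef ∧ (K z).PosDef) :
    ∃ z ∈ closedBall a ρ, ∃ V : Matrix (Fin r) (Fin j) ℂ, Inj V ∧
      ∀ z' ∈ closedBall a ρ, ∀ V' : Matrix (Fin r) (Fin j) ℂ, Inj V' →
        dl (K z') (P z') V' + ε * ‖z' - a‖ ^ 2 ≤ dl (K z) (P z) V + ε * ‖z - a‖ ^ 2 := by
  have hcomp : IsCompact (closedBall a ρ ×ˢ {V : Matrix (Fin r) (Fin j) ℂ | Vᴴ * V = 1}) :=
    (isCompact_closedBall a ρ).prod (isCompact_iso r j)
  have hne : (closedBall a ρ ×ˢ {V : Matrix (Fin r) (Fin j) ℂ | Vᴴ * V = 1}).Nonempty :=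
    ⟨(a, En r j), mem_closedBall_self hρ.le, En_star_mul r j hj⟩
  have hcont : ContinuousOn (fun x : ℂ × Matrix (Fin r) (Fin j) ℂ =>
      dl (K x.1) (P x.1) x.2 + ε * ‖x.1 - a‖ ^ 2)
      (closedBall a ρ ×ˢ {V : Matrix (Fin r) (Fin j) ℂ | Vᴴ * V = 1}) := by
    refine (continuousOn_dl r j K P _ hK hP hpos).add (Continuous.continuousOn ?_)
    fun_prop
  obtain ⟨x, hx, hmax⟩ := hcomp.exists_isMaxOn hne hcont
  refine ⟨x.1, hx.1, x.2, inj_of_iso hx.2, fun z' hz' V' hV' => ?_⟩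
  obtain ⟨C, hC, hiso⟩ := exists_iso hS hV'
  have h1 := hmax (show (z', V' * C) ∈ closedBall a ρ ×ˢ
    {V : Matrix (Fin r) (Fin j) ℂ | Vᴴ * V = 1} from ⟨hz', hiso⟩)
  simp only [mem_setOf_eq] at h1
  rw [dl_mul_right (hpos z' hz').2 (hpos z' hz').1 hV' hC] at h1
  exact h1

/-! ### Determinants -/

theorem trq_one_of_trace {r : ℕ} {K Q : M r} (hK : K.PosDef) (hQ : Q.trace = 0) :
    trq K Q (1 : M r) = 0 := by
  have h : IsUnit K.det := (Matrix.isUnit_iff_isUnit_det _).1 hK.isUnit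
  rw [trq]
  have e : ((1 : M r)ᴴ * K * 1)⁻¹ * ((1 : M r)ᴴ * K * Q * 1) = Q := by
    rw [Matrix.conjTranspose_one, Matrix.one_mul, Matrix.mul_one, Matrix.mul_one,
      ← Matrix.mul_assoc, Matrix.nonsing_inv_mul _ h, Matrix.one_mul]
  rw [e, hQ, Complex.zero_re]

theorem brk_trace {r : ℕ} (Θ K : M r) : (brk Θ K).trace = 0 := by
  rw [brk, Matrix.trace_sub, Matrix.trace_mul_comm, sub_self]

theorem contDiffAt_psi (a : ℂ) (ε : ℝ) (z : ℂ) :
    ContDiffAt ℝ 2 (fun w : ℂ => (-ε) * ‖w - a‖ ^ 2) z :=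
  contDiffAt_const.mul ((contDiffAt_id.sub contDiffAt_const).norm_sq ℝ)

theorem ddb_psi (a : ℂ) (ε : ℝ) (z : ℂ) :
    ddb (fun w : ℂ => (-ε) * ‖w - a‖ ^ 2) z = -ε := by
  have h : ContDiffAt ℝ 2 (fun w : ℂ => ‖w - a‖ ^ 2) z :=
    (contDiffAt_id.sub contDiffAt_const).norm_sq ℝ
  rw [ddb_const_mul (-ε) h, ddb_normSq, mul_one]

/-- one inequality between the determinants -/
theorem det_le (hT : Stmt_Touch) {r : ℕ} {p q : ℝ} {Θ P K : ℂ → M r} {a : ℂ} {ρ : ℝ}
    (hρ : 0 < ρ) (hP : ContinuousOn P (closedBall a ρ)) (hK : ContinuousOn K (closedBall a ρ))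
    (hpos : ∀ z ∈ closedBall a ρ, (P z).PosDef ∧ (K z).PosDef)
    (hsP : Sol (ball a ρ) p Θ P) (hsK : Sol (ball a ρ) q Θ K)
    (hbd : ∀ z ∈ sphere a ρ, (K z).det = (P z).det) :
    ∀ z ∈ closedBall a ρ, dl (K z) (P z) (1 : M r) ≤ 0 := by
  intro z₁ hz₁
  by_contra hcon
  push Not at hcon
  set δ := dl (K z₁) (P z₁) (1 : M r) with hδ
  obtain ⟨ε, hε, hεδ⟩ : ∃ ε : ℝ, 0 < ε ∧ ε * ρ ^ 2 < δ := by
    refine ⟨δ / (2 * ρ ^ 2), by positivity, ?_⟩
    have : δ / (2 * ρ ^ 2) * ρ ^ 2 = δ / 2 := by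
      field_simp
    rw [this]
    linarith
  have hone : Inj (1 : M r) := by
    apply inj_of_iso
    rw [Matrix.conjTranspose_one, Matrix.one_mul]
  have hcont : ContinuousOn (fun z => dl (K z) (P z) (1 : M r) + ε * ‖z - a‖ ^ 2)
      (closedBall a ρ) := by
    have h1 := continuousOn_dl r r K P _ hK hP hpos
    have h2 : ContinuousOn (fun z : ℂ => (z, (1 : M r))) (closedBall a ρ) := by fun_prop
    have h3 := h1.comp h2 (fun z hz => (⟨hz, by
      show (1 : M r)ᴴ * 1 = 1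
      rw [Matrix.conjTranspose_one, Matrix.one_mul]⟩ : (z, (1 : M r)) ∈
        closedBall a ρ ×ˢ {V : Matrix (Fin r) (Fin r) ℂ | Vᴴ * V = 1}))
    refine h3.add (Continuous.continuousOn ?_)
    fun_prop
  obtain ⟨z₀, hz₀, hmax⟩ := (isCompact_closedBall a ρ).exists_isMaxOn
    ⟨a, mem_closedBall_self hρ.le⟩ hcont
  have hm1 := hmax hz₁
  simp only [mem_setOf_eq] at hm1
  have hbdry : ∀ z ∈ sphere a ρ, dl (K z) (P z) (1 : M r) = 0 := by
    intro z hz
    have : ∀ L : M r, (1 : M r)ᴴ * L * 1 = L := fun L => by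
      rw [Matrix.conjTranspose_one, Matrix.one_mul, Matrix.mul_one]
    rw [dl, ldet, ldet, this, this, hbd z hz, sub_self]
  have hz₀b : z₀ ∈ ball a ρ := by
    rw [mem_ball]
    refine lt_of_le_of_ne (mem_closedBall.1 hz₀) fun heq => ?_
    have hs : z₀ ∈ sphere a ρ := heq
    rw [hbdry z₀ hs] at hm1
    have h2 : ‖z₀ - a‖ = ρ := by rw [← dist_eq_norm]; exact heq
    rw [h2] at hm1
    have : 0 ≤ ε * ‖z₁ - a‖ ^ 2 := by positivity
    linarith
  have hU : ball a ρ ∈ 𝓝 z₀ := isOpen_ball.mem_nhds hz₀b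
  have key := hT r r K P z₀ (1 : M r) (fun w => (-ε) * ‖w - a‖ ^ 2)
    (hsK.smooth.contDiffAt hU) (hsP.smooth.contDiffAt hU)
    (by filter_upwards [hU] with z hz using hsK.pos z hz)
    (by filter_upwards [hU] with z hz using hsP.pos z hz)
    hone (contDiffAt_psi a ε z₀) (by
      filter_upwards [hU] with z hz V hV
      have hzc : z ∈ closedBall a ρ := ball_subset_closedBall hz
      have hVu : IsUnit V := by
        rw [← Matrix.mulVec_injective_iff_isUnit]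
        exact hV
      have e : dl (K z) (P z) V = dl (K z) (P z) (1 : M r) := by
        have := dl_mul_right (hpos z hzc).2 (hpos z hzc).1 hone hVu
        rwa [Matrix.one_mul] at this
      have h1 := hmax hzc
      simp only [mem_setOf_eq] at h1
      rw [← e] at h1
      rw [dl, dl] at h1
      linarith)
  rw [hsK.eqn z₀ hz₀b, hsP.eqn z₀ hz₀b, trq_one_of_trace (hpos z₀ hz₀).2 (by
    rw [Matrix.trace_smul, brk_trace, smul_zero]), trq_one_of_trace (hpos z₀ hz₀).1 (by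
    rw [Matrix.trace_smul, brk_trace, smul_zero]), ddb_psi] at key
  linarith

theorem det_eq (hT : Stmt_Touch) {r : ℕ} {p q : ℝ} {Θ P K : ℂ → M r} {a : ℂ} {ρ : ℝ}
    (hρ : 0 < ρ) (hP : ContinuousOn P (closedBall a ρ)) (hK : ContinuousOn K (closedBall a ρ))
    (hpos : ∀ z ∈ closedBall a ρ, (P z).PosDef ∧ (K z).PosDef)
    (hsP : Sol (ball a ρ) p Θ P) (hsK : Sol (ball a ρ) q Θ K)
    (hbd : ∀ z ∈ sphere a ρ, (K z).det = (P z).det) :
    ∀ z ∈ closedBall a ρ, (K z).det = (P z).det := by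
  intro z hz
  have h1 := det_le hT hρ hP hK hpos hsP hsK hbd z hz
  have h2 := det_le hT hρ hK hP (fun z hz => (hpos z hz).symm) hsK hsP
    (fun z hz => (hbd z hz).symm) z hz
  have e : ∀ L : M r, (1 : M r)ᴴ * L * 1 = L := fun L => by
    rw [Matrix.conjTranspose_one, Matrix.one_mul, Matrix.mul_one]
  rw [dl, ldet, ldet, e, e] at h1 h2
  have pK := Complex.pos_iff.1 (hpos z hz).2.det_pos
  have pP := Complex.pos_iff.1 (hpos z hz).1.det_pos
  have h3 : Real.log (K z).det.re = Real.log (P z).det.re := by linarith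
  have h4 := Real.log_injOn_pos (Set.mem_Ioi.2 pK.1) (Set.mem_Ioi.2 pP.1) h3
  refine Complex.ext h4 ?_
  rw [← pK.2, ← pP.2]

end Cmp

open Cmp in
theorem cmp_proof (hS : Stmt_Simd) (hKF : Stmt_KyFan) (hG : Stmt_Gap) (hT : Stmt_Touch) :
    Stmt_Cmp := by
  intro r p q b Θ P K a ρ hp hq hρ hb0 hbr hb hP hK hpos hsP hsK hbd
  have hdet := det_eq hT hρ hP hK hpos hsP hsK (fun z hz => (hbd z hz).1)
  intro z₁ hz₁
  refine ⟨hdet z₁ hz₁, ?_⟩
  by_contra hcon
  push Not at hcon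
  obtain ⟨j₁, hj₁, V₁, hV₁⟩ := hcon
  have hK1 := (hpos z₁ hz₁).2
  have hP1 := (hpos z₁ hz₁).1
  have hinj : Inj V₁ := by
    by_contra hni
    rw [det_of_not_inj hni, det_of_not_inj hni, Complex.zero_re, mul_zero] at hV₁
    exact lt_irrefl _ hV₁
  have hδ : 0 < dl (K z₁) (P z₁) V₁ - b j₁ := by
    have h1 := Real.log_lt_log (mul_pos (Real.exp_pos _) (det_re_pos hP1 hinj)) hV₁
    rw [Real.log_mul (Real.exp_pos _).ne' (det_re_pos hP1 hinj).ne', Real.log_exp] at h1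
    rw [dl, ldet, ldet]
    linarith
  -- extreme values of j
  have hdl0 : ∀ z ∈ closedBall a ρ, ∀ V : Matrix (Fin r) (Fin 0) ℂ, dl (K z) (P z) V = 0 := by
    intro z hz V
    rw [dl, ldet, ldet, Matrix.det_isEmpty, Matrix.det_isEmpty, sub_self]
  have hdlr : ∀ z ∈ closedBall a ρ, ∀ V : Matrix (Fin r) (Fin r) ℂ, dl (K z) (P z) V = 0 := by
    intro z hz V
    rw [dl, ldet, ldet, Matrix.det_mul, Matrix.det_mul, Matrix.det_mul, Matrix.det_mul,
      hdet z hz, sub_self]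
  have hj1pos : 1 ≤ j₁ := by
    by_contra hc
    have : j₁ = 0 := by omega
    subst this
    rw [hdl0 z₁ hz₁ V₁, hb0] at hδ
    linarith
  have hj1r : j₁ < r := by
    refine lt_of_le_of_ne hj₁ fun h => ?_
    subst h
    rw [hdlr z₁ hz₁ V₁, hbr] at hδ
    linarith
  set δ := dl (K z₁) (P z₁) V₁ - b j₁ with hδdef
  obtain ⟨ε, hε, hεδ⟩ : ∃ ε : ℝ, 0 < ε ∧ ε * ρ ^ 2 < δ := by
    refine ⟨δ / (2 * ρ ^ 2), by positivity, ?_⟩
    have : δ / (2 * ρ ^ 2) * ρ ^ 2 = δ / 2 := by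
      field_simp
    rw [this]
    linarith
  have hmx := fun (j : ℕ) (hj : j ≤ r) => exists_max hS r j hj K P a ρ ε hρ hK hP hpos
  -- maximal values
  have hmx' : ∀ j : ℕ, ∃ (z : ℂ) (V : Matrix (Fin r) (Fin j) ℂ), j ≤ r →
      z ∈ closedBall a ρ ∧ Inj V ∧
      ∀ z' ∈ closedBall a ρ, ∀ V' : Matrix (Fin r) (Fin j) ℂ, Inj V' →
        dl (K z') (P z') V' + ε * ‖z' - a‖ ^ 2 ≤ dl (K z) (P z) V + ε * ‖z - a‖ ^ 2 := by
    intro j
    by_cases hj : j ≤ r
    · obtain ⟨z, hz, V, hV, h⟩ := hmx j hj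
      exact ⟨z, V, fun _ => ⟨hz, hV, h⟩⟩
    · exact ⟨0, 0, fun h => absurd h hj⟩
  choose zf Vf hf using hmx'
  obtain ⟨j, hjm, hjmax⟩ := Finset.exists_max_image (Finset.Ico 1 r)
    (fun j => dl (K (zf j)) (P (zf j)) (Vf j) + ε * ‖zf j - a‖ ^ 2 - b j)
    ⟨j₁, Finset.mem_Ico.2 ⟨hj1pos, hj1r⟩⟩
  obtain ⟨hj1, hjr⟩ := Finset.mem_Ico.1 hjm
  obtain ⟨hz₀, hVj, hmaxj⟩ := hf j hjr.le
  set z₀ := zf j with hz₀def
  set V₀ := Vf j with hV₀def
  set m := dl (K z₀) (P z₀) V₀ + ε * ‖z₀ - a‖ ^ 2 - b j with hm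
  -- all values are at most m
  have hall : ∀ i : ℕ, 1 ≤ i → i < r → ∀ z ∈ closedBall a ρ, ∀ V : Matrix (Fin r) (Fin i) ℂ,
      Inj V → dl (K z) (P z) V + ε * ‖z - a‖ ^ 2 - b i ≤ m := by
    intro i hi1 hir z hz V hV
    obtain ⟨h1, h2, h3⟩ := hf i hir.le
    have h4 := h3 z hz V hV
    have h5 := hjmax i (Finset.mem_Ico.2 ⟨hi1, hir⟩)
    linarith
  have hmδ : δ ≤ m := by
    have h1 := hall j₁ hj1pos hj1r z₁ hz₁ V₁ hinj
    have h2 : 0 ≤ ε * ‖z₁ - a‖ ^ 2 := by positivity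
    rw [hδdef]
    linarith
  have hz₀b : z₀ ∈ ball a ρ := by
    rw [mem_ball]
    refine lt_of_le_of_ne (mem_closedBall.1 hz₀) fun heq => ?_
    have hs : z₀ ∈ sphere a ρ := heq
    have h1 := (hbd z₀ hs).2 j hjr.le V₀
    have hK0 := (hpos z₀ hz₀).2
    have hP0 := (hpos z₀ hz₀).1
    have h2 := Real.log_le_log (det_re_pos hK0 hVj) h1
    rw [Real.log_mul (Real.exp_pos _).ne' (det_re_pos hP0 hVj).ne', Real.log_exp] at h2
    have h3 : dl (K z₀) (P z₀) V₀ ≤ b j := by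
      rw [dl, ldet, ldet]
      linarith
    have h4 : ‖z₀ - a‖ = ρ := by rw [← dist_eq_norm]; exact heq
    rw [h4] at hm
    linarith
  have hU : ball a ρ ∈ 𝓝 z₀ := isOpen_ball.mem_nhds hz₀b
  have hK0 := (hpos z₀ hz₀).2
  have hP0 := (hpos z₀ hz₀).1
  -- diagonalise at z₀
  obtain ⟨B, κ, hB, hanti, hBP, hBK⟩ := hS r (P z₀) (K z₀) hP0 hK0.isHermitian
  have hκ : ∀ i, 0 < κ i := fun i => kappa_pos hK0 hB hBK i
  have hεz : ε * ‖z₀ - a‖ ^ 2 < m := by
    have h1 : ‖z₀ - a‖ < ρ := by rw [← dist_eq_norm]; exact hz₀b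
    have h2 : ‖z₀ - a‖ ^ 2 ≤ ρ ^ 2 := by
      have := norm_nonneg (z₀ - a)
      nlinarith
    have h3 := mul_le_mul_of_nonneg_left h2 hε.le
    linarith
  have hEn : ∀ i ≤ r, Inj (B * En r i) := fun i hi =>
    inj_mul_left (inj_of_iso (En_star_mul r i hi)) hB
  have hSi : ∀ i ≤ r, dl (K z₀) (P z₀) (B * En r i) = Sj κ i := fun i hi =>
    dl_En hi hκ hBP hBK
  have hSle : ∀ i ≤ r, Sj κ i + ε * ‖z₀ - a‖ ^ 2 - b i ≤ m := by
    intro i hi
    by_cases hi0 : i = 0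
    · subst hi0
      rw [Sj_zero, hb0]
      linarith
    by_cases hir : i = r
    · subst hir
      rw [← hSi i le_rfl, hdlr z₀ hz₀, hbr]
      linarith
    rw [← hSi i hi]
    exact hall i (by omega) (by omega) z₀ hz₀ _ (hEn i hi)
  have hSge : m ≤ Sj κ j + ε * ‖z₀ - a‖ ^ 2 - b j := by
    have h1 := dl_le hKF hjr.le hK0 hP0 hB hκ hanti hBP hBK hVj
    linarith
  -- the gap
  obtain ⟨j', rfl⟩ : ∃ j', j = j' + 1 := ⟨j - 1, by omega⟩
  have hgap0 : |Real.log (q / p)| ≤ Real.log (κ ⟨j', by omega⟩) - Real.log (κ ⟨j' + 1, hjr⟩) := by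
    have h1 := hb (j' + 1) hj1 hjr
    have e1 : j' + 1 - 1 = j' := by omega
    rw [e1] at h1
    have h2 := hSle j' (by omega)
    have h3 := hSle (j' + 1 + 1) (by omega)
    have h4 := Sj_succ κ j' (by omega)
    have h5 := Sj_succ κ (j' + 1) hjr
    linarith
  have hgap : ∀ i n : Fin r, (i : ℕ) < j' + 1 → j' + 1 ≤ (n : ℕ) →
      p * κ n ≤ q * κ i ∧ q * κ n ≤ p * κ i := by
    intro i n hi hn
    have h1 : κ ⟨j', by omega⟩ ≤ κ i := hanti (by
      rw [Fin.le_iff_val_le_val]; show (i : ℕ) ≤ j'; omega)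
    have h2 : κ n ≤ κ ⟨j' + 1, hjr⟩ := hanti (by
      rw [Fin.le_iff_val_le_val]; exact hn)
    have h3 : |Real.log (q / p)| ≤ Real.log (κ i) - Real.log (κ n) := by
      have h4 := Real.log_le_log (hκ _) h1
      have h5 := Real.log_le_log (hκ _) h2
      linarith
    rw [Real.log_div hq.ne' hp.ne', abs_le] at h3
    constructor
    · rw [← Real.log_le_log_iff (mul_pos hp (hκ n)) (mul_pos hq (hκ i)),
        Real.log_mul hp.ne' (hκ n).ne', Real.log_mul hq.ne' (hκ i).ne']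
      linarith
    · rw [← Real.log_le_log_iff (mul_pos hq (hκ n)) (mul_pos hp (hκ i)),
        Real.log_mul hq.ne' (hκ n).ne', Real.log_mul hp.ne' (hκ i).ne']
      linarith
  have hG' := hG r (j' + 1) (P z₀) (K z₀) (Θ z₀) B κ p q hjr.le hP0 hK0 hB hBP hBK hκ hp hq hgap
  have key := hT r (j' + 1) K P z₀ (B * En r (j' + 1)) (fun w => (-ε) * ‖w - a‖ ^ 2)
    (hsK.smooth.contDiffAt hU) (hsP.smooth.contDiffAt hU)
    (by filter_upwards [hU] with z hz using hsK.pos z hz)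
    (by filter_upwards [hU] with z hz using hsP.pos z hz)
    (hEn _ hjr.le) (contDiffAt_psi a ε z₀) (by
      filter_upwards [hU] with z hz V hV
      have hzc : z ∈ closedBall a ρ := ball_subset_closedBall hz
      have h1 := hall (j' + 1) hj1 hjr z hzc V hV
      have h2 := hSi (j' + 1) hjr.le
      rw [dl] at h1 h2
      linarith)
  rw [hsK.eqn z₀ hz₀b, hsP.eqn z₀ hz₀b, ddb_psi] at key
  linarith

end Pool.Agent.HSC
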