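import Pool.Agent.HSC.Stmts

/-!
# Module DIR: the Dirichlet problem on the unit disc
-/

set_option autoImplicit false

open scoped Matrix.Norms.Frobenius ContDiff Topology Manifold ComplexOrder ComplexConjugate
open Matrix Set Filter MeasureTheory Metric

noncomputable section

namespace Pool.Agent.HSC

namespace DIR

/-- convergence in the Thompson distance implies convergence -/
theorem tendsto_of_dT (hDT : Stmt_DT) {r : ℕ} {ι : Type} {l : Filter ι} {A : ι → M r} {L : M r}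
    (hL : L.PosDef) (hA : ∀ᶠ i in l, (A i).PosDef)
    (h : Tendsto (fun i => dT (A i) L) l (𝓝 0)) : Tendsto A l (𝓝 L) := by
  have hcomp := hDT.compact r L 1 hL
  have hmem : ∀ᶠ i in l, A i ∈ {X : M r | X.PosDef ∧ Thm 1 X L} := by
    have h1 : ∀ᶠ i in l, dT (A i) L < 1 := h.eventually_lt_const (by norm_num)
    filter_upwards [h1, hA] with i hi hAi
    exact ⟨hAi, hDT.mono r _ _ _ _ hAi hL hi.le (hDT.thm r _ _ hAi hL)⟩
  refine hcomp.tendsto_nhds_of_unique_mapClusterPt hmem ?_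
  rintro Y ⟨hY, -⟩ hcl
  apply hDT.eq r Y L hY hL
  by_contra hne
  have hpos : 0 < dT Y L := lt_of_le_of_ne (hDT.nonneg r Y L) (Ne.symm hne)
  have hcont := hDT.cont r (Y, L) ⟨hY, hL⟩
  have h2 : Tendsto (fun X : M r => (X, L)) (𝓝[{X | X.PosDef}] Y)
      (𝓝[{p : M r × M r | p.1.PosDef ∧ p.2.PosDef}] (Y, L)) := by
    refine tendsto_nhdsWithin_iff.2 ⟨?_, ?_⟩
    · have : Continuous (fun X : M r => (X, L)) := by fun_prop
      exact (this.tendsto Y).mono_left nhdsWithin_le_nhds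
    · filter_upwards [self_mem_nhdsWithin] with X hX
      exact ⟨hX, hL⟩
  have h30 := hcont.tendsto.comp h2
  have h3 : Tendsto (fun X : M r => dT X L) (𝓝[{X | X.PosDef}] Y) (𝓝 (dT Y L)) := h30
  have h4 : ∀ᶠ X in 𝓝[{X : M r | X.PosDef}] Y, dT Y L / 2 < dT X L :=
    h3.eventually_const_lt (by linarith)
  rw [eventually_nhdsWithin_iff] at h4
  have h5 : ∃ᶠ i in l, (A i).PosDef → dT Y L / 2 < dT (A i) L := by
    have := hcl.frequently h4
    exact this
  have h6 : ∀ᶠ i in l, dT (A i) L < dT Y L / 2 := h.eventually_lt_const (by linarith)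
  obtain ⟨i, hi1, hi2, hi3⟩ := (h5.and_eventually (h6.and hA)).exists
  have := hi1 hi3
  linarith

theorem tendsto_dT (hDT : Stmt_DT) {r : ℕ} {ι : Type} {l : Filter ι} {A : ι → M r} {X Y : M r}
    (hX : X.PosDef) (hY : Y.PosDef) (hA : ∀ᶠ i in l, (A i).PosDef)
    (h : Tendsto A l (𝓝 X)) : Tendsto (fun i => dT (A i) Y) l (𝓝 (dT X Y)) := by
  have hcont := hDT.cont r (X, Y) ⟨hX, hY⟩
  have h2 : Tendsto (fun i => (A i, Y)) l
      (𝓝[{p : M r × M r | p.1.PosDef ∧ p.2.PosDef}] (X, Y)) := by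
    refine tendsto_nhdsWithin_iff.2 ⟨?_, ?_⟩
    · exact h.prodMk_nhds tendsto_const_nhds
    · filter_upwards [hA] with i hi
      exact ⟨hi, hY⟩
  have h3 := hcont.tendsto.comp h2
  exact h3

theorem sol_mono {r : ℕ} {U U' : Set ℂ} {q : ℝ} {Θ K : ℂ → M r} (h : Sol U q Θ K)
    (hU : U' ⊆ U) : Sol U' q Θ K :=
  ⟨h.smooth.mono hU, fun z hz => h.pos z (hU hz), fun z hz => h.eqn z (hU hz)⟩

end DIR

open DIR in
theorem dir_proof (hSolve : Stmt_Solve) (hDens : Stmt_Dens) (hDMax : Stmt_DMax)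
    (hLim : Stmt_Lim) (hDT : Stmt_DT) : Stmt_Dir := by
  intro r B
  set B0 : ℝ := max B 0 with hB0
  have hB00 : 0 ≤ B0 := le_max_right _ _
  obtain ⟨ε, hε, hS⟩ := hSolve r (B0 + 1)
  refine ⟨ε, hε, fun Θ hΘ hΘε f hf hfp => ?_⟩
  -- bounds for `f`
  have hone : (1 : M r).PosDef := Matrix.PosDef.one
  have hf1 : ∀ z ∈ sphere (0 : ℂ) 1, dT (f z) 1 ≤ B0 := fun z hz =>
    hDT.le r _ _ _ hB00 (hDT.mono r _ _ _ _ (hfp z hz).1 hone (le_max_left _ _) (hfp z hz).2)
  -- approximations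
  have hex : ∀ n : ℕ, ∃ K : ℂ → M r, ContinuousOn K (closedBall 0 1) ∧
      (∀ z ∈ closedBall (0 : ℂ) 1, (K z).PosDef) ∧
      (∀ z ∈ sphere (0 : ℂ) 1, dT (f z) (K z) ≤ 1 / ((n : ℝ) + 1)) ∧
      Sol (ball 0 1) 1 Θ K := by
    intro n
    have hn : (0 : ℝ) < 1 / ((n : ℝ) + 1) := by positivity
    have hn1 : 1 / ((n : ℝ) + 1) ≤ 1 := by
      rw [div_le_one (by positivity)]
      have : (0 : ℝ) ≤ n := Nat.cast_nonneg n
      linarith
    obtain ⟨d, c, hdc⟩ := hDens r f hf (fun z hz => (hfp z hz).1) _ hn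
    obtain ⟨K, h1, h2, h3, h4⟩ := hS Θ hΘ hΘε d c (by
      intro z hz
      refine ⟨(hdc z hz).1, ?_⟩
      have h5 : dT (Lp d c z) 1 ≤ B0 + 1 := by
        have h6 := hDT.tri r (Lp d c z) (f z) 1 (hdc z hz).1 (hfp z hz).1 hone
        have h7 := (hdc z hz).2
        rw [hDT.comm r (f z)] at h7
        have h8 := hf1 z hz
        linarith
      exact hDT.mono r _ _ _ _ (hdc z hz).1 hone h5 (hDT.thm r _ _ (hdc z hz).1 hone))
    refine ⟨K, h1, h2, fun z hz => ?_, h4⟩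
    rw [h3 z hz]
    exact (hdc z hz).2
  choose K hKc hKp hKs hKsol using hex
  have hsph : sphere (0 : ℂ) 1 ⊆ closedBall 0 1 := sphere_subset_closedBall
  have hKK : ∀ n m : ℕ, ∀ z ∈ closedBall (0 : ℂ) 1,
      dT (K n z) (K m z) ≤ 1 / ((n : ℝ) + 1) + 1 / ((m : ℝ) + 1) := by
    intro n m
    refine hDMax r 1 Θ (K n) (K m) 0 1 _ zero_le_one one_pos (hKc n) (hKc m)
      (fun z hz => ⟨hKp n z hz, hKp m z hz⟩) (hKsol n) (hKsol m) ?_
    intro z hz
    have h1 := hDT.tri r (K n z) (f z) (K m z) (hKp n z (hsph hz)) (hfp z hz).1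
      (hKp m z (hsph hz))
    have h2 := hKs n z hz
    rw [hDT.comm r (f z)] at h2
    have h3 := hKs m z hz
    linarith
  have hinv1 : ∀ n : ℕ, 1 / ((n : ℝ) + 1) ≤ 1 := by
    intro n
    rw [div_le_one (by positivity)]
    have : (0 : ℝ) ≤ n := Nat.cast_nonneg n
    linarith
  have hinv0 : Tendsto (fun n : ℕ => 1 / ((n : ℝ) + 1)) atTop (𝓝 0) :=
    tendsto_one_div_add_atTop_nhds_zero_nat
  -- the limit
  have hlim : ∀ z : ℂ, ∃ L : M r, z ∈ closedBall (0 : ℂ) 1 →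
      L.PosDef ∧ ∀ n, dT (K n z) L ≤ 1 / ((n : ℝ) + 1) := by
    intro z
    by_cases hz : z ∈ closedBall (0 : ℂ) 1
    swap
    · exact ⟨0, fun h => absurd h hz⟩
    have hcomp := hDT.compact r (K 0 z) 2 (hKp 0 z hz)
    have hmem : ∀ n, K n z ∈ {X : M r | X.PosDef ∧ Thm 2 X (K 0 z)} := by
      intro n
      refine ⟨hKp n z hz, ?_⟩
      have h1 := hKK n 0 z hz
      have h2 := hinv1 n
      have h3 := hinv1 0
      exact hDT.mono r _ _ _ _ (hKp n z hz) (hKp 0 z hz) (by linarith)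
        (hDT.thm r _ _ (hKp n z hz) (hKp 0 z hz))
    have : FirstCountableTopology (M r) :=
      inferInstanceAs (FirstCountableTopology (Fin r → Fin r → ℂ))
    obtain ⟨L, hL, φ, hφ, hlim⟩ := hcomp.tendsto_subseq hmem
    refine ⟨L, fun _ => ⟨hL.1, fun n => ?_⟩⟩
    have h1 : Tendsto (fun m => dT (K (φ m) z) (K n z)) atTop (𝓝 (dT L (K n z))) :=
      tendsto_dT hDT hL.1 (hKp n z hz) (Eventually.of_forall fun m => hKp _ z hz) hlim
    have h2 : Tendsto (fun m => 1 / ((φ m : ℝ) + 1) + 1 / ((n : ℝ) + 1)) atTop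
        (𝓝 (0 + 1 / ((n : ℝ) + 1))) :=
      (hinv0.comp hφ.tendsto_atTop).add tendsto_const_nhds
    have h3 := le_of_tendsto_of_tendsto' h1 h2 (fun m => hKK (φ m) n z hz)
    rw [hDT.comm]
    simpa using h3
  choose L hL using hlim
  have hLp : ∀ z ∈ closedBall (0 : ℂ) 1, (L z).PosDef := fun z hz => (hL z hz).1
  have hKL : ∀ n, ∀ z ∈ closedBall (0 : ℂ) 1, dT (K n z) (L z) ≤ 1 / ((n : ℝ) + 1) :=
    fun n z hz => (hL z hz).2 n
  -- continuity
  have hLc : ContinuousOn L (closedBall 0 1) := by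
    intro z0 hz0
    refine tendsto_of_dT hDT (hLp z0 hz0) ?_ ?_
    · filter_upwards [self_mem_nhdsWithin] with z hz
      exact hLp z hz
    · rw [Metric.tendsto_nhds]
      intro η hη
      obtain ⟨n, hn⟩ : ∃ n : ℕ, 1 / ((n : ℝ) + 1) < η / 4 :=
        (hinv0.eventually_lt_const (by positivity : (0 : ℝ) < η / 4)).exists
      have h1 : Tendsto (fun z => dT (K n z) (K n z0)) (𝓝[closedBall 0 1] z0)
          (𝓝 (dT (K n z0) (K n z0))) := by
        refine tendsto_dT hDT (hKp n z0 hz0) (hKp n z0 hz0) ?_ (hKc n z0 hz0)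
        filter_upwards [self_mem_nhdsWithin] with z hz
        exact hKp n z hz
      rw [hDT.self r _ (hKp n z0 hz0)] at h1
      have h2 : ∀ᶠ z in 𝓝[closedBall 0 1] z0, dT (K n z) (K n z0) < η / 4 :=
        h1.eventually_lt_const (by positivity)
      filter_upwards [h2, self_mem_nhdsWithin] with z hz1 hz
      rw [Real.dist_eq, sub_zero, abs_of_nonneg (hDT.nonneg r _ _)]
      have h3 := hDT.tri r (L z) (K n z) (L z0) (hLp z hz) (hKp n z hz) (hLp z0 hz0)
      have h4 := hDT.tri r (K n z) (K n z0) (L z0) (hKp n z hz) (hKp n z0 hz0) (hLp z0 hz0)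
      have h5 := hKL n z hz
      rw [hDT.comm] at h5
      have h6 := hKL n z0 hz0
      linarith
  refine ⟨L, hLc, hLp, ?_, ?_⟩
  · intro z hz
    symm
    refine hDT.eq r _ _ (hfp z hz).1 (hLp z (hsph hz)) ?_
    refine le_antisymm ?_ (hDT.nonneg r _ _)
    have h1 : Tendsto (fun n : ℕ => 1 / ((n : ℝ) + 1) + 1 / ((n : ℝ) + 1)) atTop
        (𝓝 (0 + 0)) := hinv0.add hinv0
    rw [add_zero] at h1
    refine ge_of_tendsto' h1 fun n => ?_
    have h2 := hDT.tri r (f z) (K n z) (L z) (hfp z hz).1 (hKp n z (hsph hz)) (hLp z (hsph hz))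
    have h3 := hKs n z hz
    have h4 := hKL n z (hsph hz)
    linarith
  · refine hLim r (ball 0 1) 1 Θ ℕ atTop K L atTop_neBot isOpen_ball zero_le_one hΘ ?_ ?_
    · intro z hz
      -- a uniform bound
      obtain ⟨c0, hc0⟩ : ∃ c0 : ℝ, ∀ w ∈ closedBall (0 : ℂ) 1, dT (L w) 1 ≤ c0 := by
        have hcont : ContinuousOn (fun w => dT (L w) 1) (closedBall (0 : ℂ) 1) := by
          intro w hw
          refine tendsto_dT hDT (hLp w hw) hone ?_ (hLc w hw)
          filter_upwards [self_mem_nhdsWithin] with x hx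
          exact hLp x hx
        obtain ⟨c0, hc0⟩ := (isCompact_closedBall (0 : ℂ) 1).exists_bound_of_continuousOn hcont
        exact ⟨c0, fun w hw => (le_abs_self _).trans (hc0 w hw)⟩
      obtain ⟨ρ, hρ, hball⟩ := Metric.isOpen_iff.1 (isOpen_ball : IsOpen (ball (0 : ℂ) 1)) z hz
      refine ⟨ρ, hρ, 1 + c0, Eventually.of_forall fun n => ⟨sol_mono (hKsol n) hball, ?_⟩⟩
      intro w hw
      have hw' : w ∈ closedBall (0 : ℂ) 1 := ball_subset_closedBall (hball hw)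
      have h1 := hDT.tri r (K n w) (L w) 1 (hKp n w hw') (hLp w hw') hone
      have h2 := hKL n w hw'
      have h3 := hc0 w hw'
      have h4 := hinv1 n
      exact hDT.mono r _ _ _ _ (hKp n w hw') hone (by linarith)
        (hDT.thm r _ _ (hKp n w hw') hone)
    · intro z hz
      have hz' : z ∈ closedBall (0 : ℂ) 1 := ball_subset_closedBall hz
      refine tendsto_of_dT hDT (hLp z hz') (Eventually.of_forall fun n => hKp n z hz') ?_
      exact squeeze_zero (fun n => hDT.nonneg r _ _) (fun n => hKL n z hz') hinv0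

end Pool.Agent.HSC
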