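import Pool.Agent.HSC.Stmts

/-!
# HSC, module DMAX: comparison principle for two solutions
-/

set_option autoImplicit false

open scoped Matrix.Norms.Frobenius Topology
open Set Filter Metric Matrix

noncomputable section

namespace Pool.Agent.HSC

theorem dmax_proof (hDT : Stmt_DT) (hVC : Stmt_VCmp) (hTP : Stmt_TP) : Stmt_DMax := by
  intro r q Θ K L a ρ c hq hρ hK hL hpos hSK hSL hS z hz
  have hcont := hDT.cont r
  have hu : ContinuousOn ((fun p : M r × M r => dT p.1 p.2) ∘ (fun z => (K z, L z)))
      (closedBall a ρ) := by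
    apply ContinuousOn.comp hcont
    · exact ContinuousOn.prodMk hK hL
    · intro z hz
      exact hpos z hz
  have hu2 : ContinuousOn (fun z => dT (K z) (L z)) (closedBall a ρ) := hu
  have key := hVC (fun z => dT (K z) (L z)) (fun _ => c) a ρ 0 hρ hu2 continuousOn_const
  refine key ?_ ?_ hS z hz
  · intro z _
    refine ⟨contDiffAt_const, ?_⟩
    rw [ddb_const]
    norm_num
  · intro z hz
    exact hTP r (ball a ρ) q Θ K L isOpen_ball hq hSK hSL z hz

end Pool.Agent.HSC
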