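import Pool.Agent.HSC.Stmts

/-!
# Simultaneous diagonalisation
-/

set_option autoImplicit false

open scoped Matrix.Norms.Frobenius ContDiff Topology Manifold ComplexOrder ComplexConjugate
open Matrix Set Filter MeasureTheory Metric

noncomputable section

namespace Pool.Agent.HSC

namespace SIMDX

theorem diag {r : ℕ} {A : M r} (hA : A.IsHermitian) :
    ∃ V : M r, Vᴴ * V = 1 ∧ Vᴴ * A * V = Matrix.diagonal (fun i => (hA.eigenvalues i : ℂ)) := by
  refine ⟨hA.eigenvectorUnitary, ?_, ?_⟩
  · exact (Unitary.coe_star_mul_self hA.eigenvectorUnitary)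
  · have h := hA.conjStarAlgAut_star_eigenvectorUnitary
    rw [Unitary.conjStarAlgAut_apply] at h
    simp only [Unitary.coe_star, star_star] at h
    exact h

theorem exists_sq {r : ℕ} {P : M r} (hP : P.PosDef) : ∃ C : M r, Cᴴ * P * C = 1 := by
  obtain ⟨V, hV1, hV2⟩ := diag hP.isHermitian
  let s : Fin r → ℂ := fun i => ((Real.sqrt (hP.isHermitian.eigenvalues i))⁻¹ : ℝ)
  refine ⟨V * Matrix.diagonal s, ?_⟩
  rw [conjTranspose_mul, Matrix.diagonal_conjTranspose]
  have h1 : Matrix.diagonal (star s) * Vᴴ * P * (V * Matrix.diagonal s) =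
      Matrix.diagonal (star s) * (Vᴴ * P * V) * Matrix.diagonal s := by
    simp only [Matrix.mul_assoc]
  rw [h1, hV2, Matrix.diagonal_mul_diagonal, Matrix.diagonal_mul_diagonal, ← Matrix.diagonal_one]
  congr 1
  funext i
  have h2 := hP.eigenvalues_pos i
  have h3 : star s i = s i := by
    simp only [Pi.star_apply, s]
    exact Complex.conj_ofReal _
  rw [h3]
  have h4 : (Real.sqrt (hP.isHermitian.eigenvalues i))⁻¹ * hP.isHermitian.eigenvalues i *
      (Real.sqrt (hP.isHermitian.eigenvalues i))⁻¹ = 1 := by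
    have h5 := Real.sqrt_pos.2 h2
    have h6 := Real.mul_self_sqrt h2.le
    field_simp
    rw [pow_two]
    exact h6.symm
  simp only [s]
  exact_mod_cast h4

end SIMDX

theorem simd_proof : Stmt_Simd := by
  intro r P K hP hK
  obtain ⟨C, hC⟩ := SIMDX.exists_sq hP
  have hK' : (Cᴴ * K * C).IsHermitian := by
    unfold Matrix.IsHermitian
    rw [conjTranspose_mul, conjTranspose_mul, conjTranspose_conjTranspose, hK.eq, Matrix.mul_assoc]
  obtain ⟨V, hV1, hV2⟩ := SIMDX.diag hK'
  let κ0 := hK'.eigenvalues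
  let σ := Tuple.sort (fun i => - κ0 i)
  have hσ : Monotone ((fun i => - κ0 i) ∘ σ) := Tuple.monotone_sort _
  let B0 : M r := C * V
  have h1 : B0ᴴ * P * B0 = 1 := by
    change (C * V)ᴴ * P * (C * V) = 1
    rw [conjTranspose_mul]
    have : Vᴴ * Cᴴ * P * (C * V) = Vᴴ * (Cᴴ * P * C) * V := by simp only [Matrix.mul_assoc]
    rw [this, hC, Matrix.mul_one, hV1]
  have h2 : B0ᴴ * K * B0 = Matrix.diagonal (fun i => (κ0 i : ℂ)) := by
    change (C * V)ᴴ * K * (C * V) = _
    rw [conjTranspose_mul, ← hV2]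
    simp only [Matrix.mul_assoc]
  have h3 : ∀ X : M r, (B0.submatrix id σ)ᴴ * X * (B0.submatrix id σ) =
      (B0ᴴ * X * B0).submatrix σ σ := by
    intro X
    rw [conjTranspose_submatrix]
    rw [← Matrix.submatrix_id_id X]
    rw [← Matrix.submatrix_mul _ _ σ id id Function.bijective_id,
      ← Matrix.submatrix_mul _ _ σ id σ Function.bijective_id, Matrix.submatrix_id_id]
  refine ⟨B0.submatrix id σ, fun i => κ0 (σ i), ?_, ?_, ?_, ?_⟩
  · have h4 := h3 P
    rw [h1, Matrix.submatrix_one_equiv] at h4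
    have h5 := congrArg Matrix.det h4
    rw [Matrix.det_mul, Matrix.det_one] at h5
    rw [Matrix.isUnit_iff_isUnit_det]
    exact IsUnit.of_mul_eq_one_right _ h5
  · intro i j hij
    have := hσ hij
    simpa using this
  · rw [h3, h1, Matrix.submatrix_one_equiv]
  · rw [h3, h2, Matrix.submatrix_diagonal_equiv]
    rfl

end Pool.Agent.HSC
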