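import Pool.Agent.HSC.Stmts
import Pool.Agent.HSC.SIMD

/-!
# The Thompson distance
-/

set_option autoImplicit false

open scoped Matrix.Norms.Frobenius ContDiff Topology Manifold ComplexOrder ComplexConjugate
open Matrix Set Filter MeasureTheory Metric

noncomputable section

namespace Pool.Agent.HSC

namespace DT

variable {r : ℕ}

/-! ### Elementary properties of the relation `Thm` -/

theorem thm_symm {c : ℝ} {A B : M r} (h : Thm c A B) : Thm c B A := ⟨h.2, h.1⟩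

theorem psd_smul {X : M r} (hX : X.PosSemidef) {t : ℝ} (ht : 0 ≤ t) :
    ((t : ℂ) • X).PosSemidef :=
  hX.smul (Complex.zero_le_real.2 ht)

theorem thm_self (A : M r) : Thm 0 A A := by
  have h : (Real.exp 0 : ℂ) • A - A = 0 := by simp
  constructor <;> rw [h] <;> exact Matrix.PosSemidef.zero

theorem thm_mono {A B : M r} {c c' : ℝ} (hA : A.PosSemidef) (hB : B.PosSemidef) (h : c ≤ c')
    (hT : Thm c A B) : Thm c' A B := by
  have hs : 0 ≤ Real.exp c' - Real.exp c := sub_nonneg.2 (Real.exp_le_exp.2 h)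
  constructor
  · have e : (Real.exp c' : ℂ) • B - A =
        ((Real.exp c' - Real.exp c : ℝ) : ℂ) • B + ((Real.exp c : ℂ) • B - A) := by
      push_cast; module
    rw [e]
    exact (psd_smul hB hs).add hT.1
  · have e : (Real.exp c' : ℂ) • A - B =
        ((Real.exp c' - Real.exp c : ℝ) : ℂ) • A + ((Real.exp c : ℂ) • A - B) := by
      push_cast; module
    rw [e]
    exact (psd_smul hA hs).add hT.2

theorem thm_trans {A B C : M r} {c c' : ℝ} (h : Thm c A B) (h' : Thm c' B C) :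
    Thm (c + c') A C := by
  constructor
  · have e : (Real.exp (c + c') : ℂ) • C - A =
        (Real.exp c : ℂ) • ((Real.exp c' : ℂ) • C - B) + ((Real.exp c : ℂ) • B - A) := by
      rw [Real.exp_add]; push_cast; module
    rw [e]
    exact (psd_smul h'.1 (Real.exp_pos c).le).add h.1
  · have e : (Real.exp (c + c') : ℂ) • A - C =
        (Real.exp c' : ℂ) • ((Real.exp c : ℂ) • A - B) + ((Real.exp c' : ℂ) • B - C) := by
      rw [Real.exp_add]; push_cast; module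
    rw [e]
    exact (psd_smul h.2 (Real.exp_pos c').le).add h'.2

theorem psd_congr {G X : M r} (hG : IsUnit G) : (Gᴴ * X * G).PosSemidef ↔ X.PosSemidef :=
  Matrix.IsUnit.posSemidef_star_left_conjugate_iff hG

theorem thm_congr {G A B : M r} (hG : IsUnit G) (c : ℝ) :
    Thm c (Gᴴ * A * G) (Gᴴ * B * G) ↔ Thm c A B := by
  have e : ∀ X Y : M r, (Real.exp c : ℂ) • (Gᴴ * X * G) - Gᴴ * Y * G =
      Gᴴ * ((Real.exp c : ℂ) • X - Y) * G := by
    intro X Y
    rw [Matrix.mul_sub, Matrix.sub_mul, Matrix.mul_smul, Matrix.smul_mul]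
  unfold Thm
  rw [e, e, psd_congr hG, psd_congr hG]

theorem thm_diag {κ : Fin r → ℝ} (c : ℝ) :
    Thm c 1 (Matrix.diagonal (fun i => (κ i : ℂ))) ↔
      ∀ i, κ i ≤ Real.exp c ∧ 1 ≤ Real.exp c * κ i := by
  have e1 : (Real.exp c : ℂ) • Matrix.diagonal (fun i => (κ i : ℂ)) - (1 : M r) =
      Matrix.diagonal (fun i => ((Real.exp c * κ i - 1 : ℝ) : ℂ)) := by
    rw [← Matrix.diagonal_one, ← Matrix.diagonal_smul, Matrix.diagonal_sub]
    congr 1
    funext i
    simp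
  have e2 : (Real.exp c : ℂ) • (1 : M r) - Matrix.diagonal (fun i => (κ i : ℂ)) =
      Matrix.diagonal (fun i => ((Real.exp c - κ i : ℝ) : ℂ)) := by
    rw [← Matrix.diagonal_one, ← Matrix.diagonal_smul, Matrix.diagonal_sub]
    congr 1
    funext i
    simp
  unfold Thm
  rw [e1, e2, Matrix.posSemidef_diagonal_iff, Matrix.posSemidef_diagonal_iff]
  simp only [Complex.zero_le_real, sub_nonneg]
  constructor
  · rintro ⟨h1, h2⟩ i
    exact ⟨h2 i, h1 i⟩
  · intro h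
    exact ⟨fun i => (h i).2, fun i => (h i).1⟩

/-! ### Simultaneous diagonalisation -/

/-- positive definite pairs are simultaneously diagonalisable -/
theorem diag_pair {A B : M r} (hA : A.PosDef) (hB : B.PosDef) :
    ∃ (G : M r) (κ : Fin r → ℝ), IsUnit G ∧ (∀ i, 0 < κ i) ∧ Gᴴ * A * G = 1 ∧
      Gᴴ * B * G = Matrix.diagonal (fun i => (κ i : ℂ)) := by
  obtain ⟨G, κ, hG, -, h1, h2⟩ := simd_proof r A B hA hB.isHermitian
  refine ⟨G, κ, hG, ?_, h1, h2⟩
  have h3 : (Gᴴ * B * G).PosDef := (Matrix.IsUnit.posDef_star_left_conjugate_iff hG).2 hB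
  rw [h2] at h3
  intro i
  have := h3.diag_pos (i := i)
  rw [Matrix.diagonal_apply_eq] at this
  exact_mod_cast this

theorem thm_iff {A B G : M r} {κ : Fin r → ℝ} (hG : IsUnit G) (h1 : Gᴴ * A * G = 1)
    (h2 : Gᴴ * B * G = Matrix.diagonal (fun i => (κ i : ℂ))) (c : ℝ) :
    Thm c A B ↔ ∀ i, κ i ≤ Real.exp c ∧ 1 ≤ Real.exp c * κ i := by
  rw [← thm_congr hG, h1, h2, thm_diag]

/-- the set in the definition of the Thompson distance -/
def S (A B : M r) : Set ℝ := {c : ℝ | 0 ≤ c ∧ Thm c A B}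

theorem S_bdd (A B : M r) : BddBelow (S A B) := ⟨0, fun _ h => h.1⟩

theorem dT_nonneg (A B : M r) : 0 ≤ dT A B := Real.sInf_nonneg fun _ h => h.1

theorem dT_le {A B : M r} {c : ℝ} (hc : 0 ≤ c) (h : Thm c A B) : dT A B ≤ c :=
  csInf_le (S_bdd A B) ⟨hc, h⟩

theorem dT_comm (A B : M r) : dT A B = dT B A := by
  have : {c : ℝ | 0 ≤ c ∧ Thm c A B} = {c : ℝ | 0 ≤ c ∧ Thm c B A} := by
    ext c
    exact ⟨fun h => ⟨h.1, thm_symm h.2⟩, fun h => ⟨h.1, thm_symm h.2⟩⟩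
  unfold dT
  rw [this]

theorem S_nonempty {A B : M r} (hA : A.PosDef) (hB : B.PosDef) : (S A B).Nonempty := by
  obtain ⟨G, κ, hG, hκ, h1, h2⟩ := diag_pair hA hB
  refine ⟨∑ i, |Real.log (κ i)|, Finset.sum_nonneg fun _ _ => abs_nonneg _, ?_⟩
  rw [thm_iff hG h1 h2]
  intro i
  have h3 : |Real.log (κ i)| ≤ ∑ i, |Real.log (κ i)| :=
    Finset.single_le_sum (f := fun i => |Real.log (κ i)|) (fun _ _ => abs_nonneg _)
      (Finset.mem_univ i)
  have h4 := abs_le.1 (le_refl |Real.log (κ i)|)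
  constructor
  · rw [← Real.exp_log (hκ i)]
    apply Real.exp_le_exp.2
    linarith [h4.2]
  · have h5 : Real.exp (∑ i, |Real.log (κ i)|) * κ i =
        Real.exp (∑ i, |Real.log (κ i)| + Real.log (κ i)) := by
      rw [Real.exp_add, Real.exp_log (hκ i)]
    rw [h5]
    apply Real.one_le_exp
    linarith [h4.1]

theorem S_closed {A B : M r} (hA : A.PosDef) (hB : B.PosDef) : IsClosed (S A B) := by
  obtain ⟨G, κ, hG, hκ, h1, h2⟩ := diag_pair hA hB
  have e : S A B = {c : ℝ | 0 ≤ c} ∩ ⋂ i, ({c : ℝ | κ i ≤ Real.exp c} ∩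
      {c : ℝ | 1 ≤ Real.exp c * κ i}) := by
    ext c
    simp only [S, mem_ofPred_eq, mem_inter_iff, mem_iInter]
    rw [thm_iff hG h1 h2]
  rw [e]
  refine (isClosed_le continuous_const continuous_id).inter (isClosed_iInter fun i =>
    (isClosed_le continuous_const Real.continuous_exp).inter
      (isClosed_le continuous_const (Real.continuous_exp.mul continuous_const)))

theorem thm_dT {A B : M r} (hA : A.PosDef) (hB : B.PosDef) : Thm (dT A B) A B :=
  ((S_closed hA hB).csInf_mem (S_nonempty hA hB) (S_bdd A B)).2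

theorem dT_tri {A B C : M r} (hA : A.PosDef) (hB : B.PosDef) (hC : C.PosDef) :
    dT A C ≤ dT A B + dT B C :=
  dT_le (add_nonneg (dT_nonneg _ _) (dT_nonneg _ _)) (thm_trans (thm_dT hA hB) (thm_dT hB hC))

theorem dT_congr {A B G : M r} (hG : IsUnit G) :
    dT (Gᴴ * A * G) (Gᴴ * B * G) = dT A B := by
  have : {c : ℝ | 0 ≤ c ∧ Thm c (Gᴴ * A * G) (Gᴴ * B * G)} = {c : ℝ | 0 ≤ c ∧ Thm c A B} := by
    ext c
    exact and_congr_right fun _ => thm_congr hG c
  unfold dT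
  rw [this]

theorem dT_self (A : M r) : dT A A = 0 :=
  le_antisymm (dT_le le_rfl (thm_self A)) (dT_nonneg A A)

theorem cancel {G X Y : M r} (hG : IsUnit G) (h : Gᴴ * X * G = Gᴴ * Y * G) : X = Y := by
  have h1 : IsUnit Gᴴ := hG.star
  have h2 : Gᴴ * X = Gᴴ * Y := hG.mul_right_cancel h
  exact h1.mul_left_cancel h2

theorem dT_eq {A B : M r} (hA : A.PosDef) (hB : B.PosDef) (h : dT A B = 0) : A = B := by
  obtain ⟨G, κ, hG, hκ, h1, h2⟩ := diag_pair hA hB
  have h3 := thm_dT hA hB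
  rw [h, thm_iff hG h1 h2] at h3
  apply cancel hG
  rw [h1, h2, ← Matrix.diagonal_one]
  congr 1
  funext i
  obtain ⟨h4, h5⟩ := h3 i
  rw [Real.exp_zero] at h4 h5
  rw [one_mul] at h5
  have : κ i = 1 := le_antisymm h4 h5
  rw [this]; simp

theorem thm_inv {A B : M r} {c : ℝ} (hA : A.PosDef) (hB : B.PosDef) (h : Thm c A B) :
    Thm c A⁻¹ B⁻¹ := by
  obtain ⟨G, κ, hG, hκ, h1, h2⟩ := diag_pair hA hB
  rw [thm_iff hG h1 h2] at h
  have hGd : IsUnit G.det := (Matrix.isUnit_iff_isUnit_det G).1 hG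
  have hGH : IsUnit Gᴴ := hG.star
  have hGHd : IsUnit Gᴴ.det := (Matrix.isUnit_iff_isUnit_det _).1 hGH
  -- the inverses
  have key : ∀ X D : M r, X.PosDef → Gᴴ * X * G = D → X⁻¹ = G * D⁻¹ * Gᴴ := by
    intro X D hX hXD
    rw [← hXD, Matrix.mul_inv_rev, Matrix.mul_inv_rev]
    calc X⁻¹ = (G * G⁻¹) * X⁻¹ * ((Gᴴ)⁻¹ * Gᴴ) := by
          rw [Matrix.mul_nonsing_inv _ hGd, Matrix.nonsing_inv_mul _ hGHd, Matrix.one_mul,
            Matrix.mul_one]
      _ = _ := by simp only [Matrix.mul_assoc]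
  have eA : A⁻¹ = (Gᴴ)ᴴ * 1 * Gᴴ := by
    rw [key A 1 hA h1, inv_one, conjTranspose_conjTranspose]
  have hdi : (Matrix.diagonal (fun i => (κ i : ℂ)))⁻¹ =
      Matrix.diagonal (fun i => (((κ i)⁻¹ : ℝ) : ℂ)) := by
    apply Matrix.inv_eq_left_inv
    rw [Matrix.diagonal_mul_diagonal, ← Matrix.diagonal_one]
    congr 1
    funext i
    rw [← Complex.ofReal_mul, inv_mul_cancel₀ (hκ i).ne']
    simp
  have eB : B⁻¹ = (Gᴴ)ᴴ * Matrix.diagonal (fun i => (((κ i)⁻¹ : ℝ) : ℂ)) * Gᴴ := by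
    rw [key B _ hB h2, hdi, conjTranspose_conjTranspose]
  rw [eA, eB, thm_congr hGH, thm_diag]
  intro i
  obtain ⟨h3, h4⟩ := h i
  constructor
  · rw [inv_le_iff_one_le_mul₀ (hκ i)]
    exact h4
  · rw [← div_eq_mul_inv, le_div_iff₀ (hκ i), one_mul]
    exact h3

theorem dT_att {A B : M r} (hA : A.PosDef) (hB : B.PosDef) (hD : 0 < dT A B) :
    ∃ v : Fin r → ℂ, v ≠ 0 ∧ (A *ᵥ v = (Real.exp (dT A B) : ℂ) • (B *ᵥ v) ∨
      B *ᵥ v = (Real.exp (dT A B) : ℂ) • (A *ᵥ v)) := by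
  obtain ⟨G, κ, hG, hκ, h1, h2⟩ := diag_pair hA hB
  have h3 := thm_dT hA hB
  rw [thm_iff hG h1 h2] at h3
  have h4 : ∃ i, κ i = Real.exp (dT A B) ∨ Real.exp (dT A B) * κ i = 1 := by
    by_contra hcon
    push Not at hcon
    have h5 : ∀ᶠ c in 𝓝 (dT A B), 0 < c ∧ ∀ i, κ i < Real.exp c ∧ 1 < Real.exp c * κ i := by
      refine (lt_mem_nhds hD).and (eventually_all.2 fun i => ?_)
      have h6 : κ i < Real.exp (dT A B) := lt_of_le_of_ne (h3 i).1 (hcon i).1
      have h7 : 1 < Real.exp (dT A B) * κ i := lt_of_le_of_ne (h3 i).2 (hcon i).2.symm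
      exact (Real.continuous_exp.continuousAt.eventually (lt_mem_nhds h6)).and
        ((Real.continuous_exp.mul continuous_const).continuousAt.eventually (lt_mem_nhds h7))
    have h6 : ∀ᶠ c in 𝓝[<] (dT A B), c < dT A B := self_mem_nhdsWithin
    obtain ⟨c, hc, hc'⟩ := ((h5.filter_mono nhdsWithin_le_nhds).and h6).exists
    have h7 : Thm c A B := (thm_iff hG h1 h2 c).2 fun i => ⟨(hc.2 i).1.le, (hc.2 i).2.le⟩
    exact absurd (dT_le hc.1.le h7) (not_le.2 hc')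
  obtain ⟨i, hi⟩ := h4
  have hGH : IsUnit Gᴴ := hG.star
  let v : Fin r → ℂ := G *ᵥ Pi.single i 1
  have hinj : Function.Injective G.mulVec := Matrix.mulVec_injective_iff_isUnit.2 hG
  have hinj' : Function.Injective (Gᴴ).mulVec := Matrix.mulVec_injective_iff_isUnit.2 hGH
  have hv : v ≠ 0 := by
    intro h
    have h5 : G *ᵥ Pi.single i (1 : ℂ) = G *ᵥ 0 := by rw [Matrix.mulVec_zero]; exact h
    have h6 := congrFun (hinj h5) i
    simp at h6
  have hBA : B *ᵥ v = (κ i : ℂ) • (A *ᵥ v) := by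
    apply hinj'
    rw [Matrix.mulVec_smul]
    have e1 : Gᴴ *ᵥ (B *ᵥ v) = (Gᴴ * B * G) *ᵥ Pi.single i 1 := by
      simp only [v, Matrix.mulVec_mulVec, Matrix.mul_assoc]
    have e2 : Gᴴ *ᵥ (A *ᵥ v) = (Gᴴ * A * G) *ᵥ Pi.single i 1 := by
      simp only [v, Matrix.mulVec_mulVec, Matrix.mul_assoc]
    rw [e1, e2, h1, h2, Matrix.one_mulVec]
    funext j
    rw [Matrix.mulVec_diagonal]
    by_cases hj : j = i
    · subst hj; simp
    · simp [hj]
  refine ⟨v, hv, ?_⟩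
  rcases hi with hi | hi
  · right
    rw [hBA, hi]
  · left
    rw [hBA, smul_smul, ← Complex.ofReal_mul, hi]
    simp

/-! ### Norm bounds -/

theorem norm_sq_eq (A : M r) : ‖A‖ ^ 2 = (Aᴴ * A).trace.re := by
  rw [Matrix.frobenius_norm_def, ← Real.sqrt_eq_rpow, Real.sq_sqrt (by positivity)]
  simp only [Matrix.trace, Matrix.diag, Matrix.mul_apply, Matrix.conjTranspose_apply,
    Complex.re_sum]
  rw [Finset.sum_comm]
  apply Finset.sum_congr rfl; intro i _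
  apply Finset.sum_congr rfl; intro j _
  rw [Complex.star_def, Complex.conj_mul']
  norm_cast

theorem trace_mul_nonneg {A B : M r} (hA : A.PosDef) (hB : B.PosSemidef) :
    0 ≤ (A * B).trace.re := by
  obtain ⟨C, hC⟩ := SIMDX.exists_sq hA
  have hu : IsUnit C.det := by
    have h5 := congrArg Matrix.det hC
    rw [Matrix.det_mul, Matrix.det_one] at h5
    exact IsUnit.of_mul_eq_one_right _ h5
  have huH : IsUnit Cᴴ.det := by
    rw [Matrix.det_conjTranspose]; exact hu.star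
  -- `A = C⁻ᴴ C⁻¹`
  have e : A = (C⁻¹)ᴴ * C⁻¹ := by
    have h1 : Cᴴ * A = C⁻¹ := by
      rw [← Matrix.mul_one (Cᴴ * A), ← Matrix.mul_nonsing_inv C hu, ← Matrix.mul_assoc, hC,
        Matrix.one_mul]
    have h2 : (C⁻¹)ᴴ = (Cᴴ)⁻¹ := Matrix.conjTranspose_nonsing_inv C
    rw [h2, ← h1, ← Matrix.mul_assoc, Matrix.nonsing_inv_mul _ huH, Matrix.one_mul]
  have h3 : (A * B).trace = (C⁻¹ * B * (C⁻¹)ᴴ).trace := by
    rw [e, Matrix.mul_assoc, Matrix.trace_mul_comm]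
  rw [h3]
  exact (Complex.le_def.1 (hB.mul_mul_conjTranspose_same C⁻¹).trace_nonneg).1

theorem norm_le_aux {A : M r} {c : ℝ} (hA : A.PosDef) (h : Thm c A 1) :
    ‖A‖ ≤ Real.sqrt r * Real.exp c := by
  have h1 := trace_mul_nonneg hA h.1
  have h2 := (Complex.le_def.1 h.1.trace_nonneg).1
  rw [Matrix.mul_sub, Matrix.trace_sub, Matrix.mul_smul, Matrix.mul_one, Matrix.trace_smul,
    Complex.sub_re, smul_eq_mul, Complex.re_ofReal_mul] at h1
  rw [Matrix.trace_sub, Matrix.trace_smul, Matrix.trace_one, Complex.sub_re, smul_eq_mul,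
    Complex.re_ofReal_mul, Fintype.card_fin, Complex.natCast_re, Complex.zero_re] at h2
  have h3 : ‖A‖ ^ 2 = (A * A).trace.re := by rw [norm_sq_eq, hA.isHermitian.eq]
  have hexp := Real.exp_pos c
  have h4 : ‖A‖ ^ 2 ≤ (Real.sqrt r * Real.exp c) ^ 2 := by
    rw [mul_pow, Real.sq_sqrt (Nat.cast_nonneg r)]
    nlinarith
  exact abs_le_of_sq_le_sq' h4 (by positivity) |>.2

theorem norm_le {A : M r} {c : ℝ} (hA : A.PosDef) (h : Thm c A 1) :
    ‖A‖ ≤ Real.sqrt r * Real.exp c ∧ ‖A⁻¹‖ ≤ Real.sqrt r * Real.exp c := by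
  refine ⟨norm_le_aux hA h, norm_le_aux hA.inv ?_⟩
  have := thm_inv hA Matrix.PosDef.one h
  rwa [inv_one] at this

/-! ### Matrices near `1` -/

theorem qf_one (x : Fin r → ℂ) : star x ⬝ᵥ x = ((‖WithLp.toLp 2 x‖ ^ 2 : ℝ) : ℂ) := by
  rw [EuclideanSpace.norm_sq_eq]
  simp only [dotProduct, Pi.star_apply]
  rw [Complex.ofReal_sum]
  refine Finset.sum_congr rfl fun i _ => ?_
  rw [← Complex.normSq_eq_norm_sq]
  exact Complex.normSq_eq_conj_mul_self.symm

theorem norm_mulVec_le (A : M r) (x : Fin r → ℂ) :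
    ‖WithLp.toLp 2 (A *ᵥ x)‖ ≤ ‖A‖ * ‖WithLp.toLp 2 x‖ := by
  have h1 := Matrix.frobenius_norm_mul A (Matrix.replicateCol (Fin 1) x)
  rw [← Matrix.replicateCol_mulVec] at h1
  have e1 : ‖Matrix.replicateCol (Fin 1) (A *ᵥ x)‖ = ‖WithLp.toLp 2 (A *ᵥ x)‖ :=
    Matrix.frobenius_norm_replicateCol _
  have e2 : ‖Matrix.replicateCol (Fin 1) x‖ = ‖WithLp.toLp 2 x‖ :=
    Matrix.frobenius_norm_replicateCol _
  rwa [e1, e2] at h1

theorem psd_of_norm_le {E : M r} {δ : ℝ} (hE : E.IsHermitian) (hδ : ‖E‖ ≤ δ) :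
    ((δ : ℂ) • (1 : M r) - E).PosSemidef := by
  have hH : ((δ : ℂ) • (1 : M r) - E).IsHermitian := by
    unfold Matrix.IsHermitian
    rw [conjTranspose_sub, conjTranspose_smul, conjTranspose_one, hE.eq]
    simp
  refine Matrix.PosSemidef.of_dotProduct_mulVec_nonneg hH fun x => ?_
  rw [Matrix.sub_mulVec, Matrix.smul_mulVec, Matrix.one_mulVec, dotProduct_sub, dotProduct_smul,
    qf_one]
  -- the quadratic form of a Hermitian matrix is real
  have him : star (star x ⬝ᵥ (E *ᵥ x)) = star x ⬝ᵥ (E *ᵥ x) := by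
    rw [← Matrix.star_dotProduct_star, star_star, Matrix.star_mulVec, hE.eq,
      ← Matrix.dotProduct_mulVec]
  have hle : ‖star x ⬝ᵥ (E *ᵥ x)‖ ≤ δ * ‖WithLp.toLp 2 x‖ ^ 2 := by
    have h1 : ‖star x ⬝ᵥ (E *ᵥ x)‖ ≤ ‖WithLp.toLp 2 x‖ * ‖WithLp.toLp 2 (E *ᵥ x)‖ := by
      have := norm_inner_le_norm (𝕜 := ℂ) (WithLp.toLp 2 x) (WithLp.toLp 2 (E *ᵥ x))
      rw [EuclideanSpace.inner_toLp_toLp] at this
      rwa [dotProduct_comm]
    have h2 := norm_mulVec_le E x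
    calc _ ≤ _ := h1
      _ ≤ ‖WithLp.toLp 2 x‖ * (‖E‖ * ‖WithLp.toLp 2 x‖) :=
          mul_le_mul_of_nonneg_left h2 (norm_nonneg _)
      _ = ‖E‖ * ‖WithLp.toLp 2 x‖ ^ 2 := by ring
      _ ≤ _ := mul_le_mul_of_nonneg_right hδ (by positivity)
  have hre : star x ⬝ᵥ (E *ᵥ x) = (((star x ⬝ᵥ (E *ᵥ x)).re : ℝ) : ℂ) :=
    (Complex.conj_eq_iff_re.1 him).symm
  rw [hre, smul_eq_mul, ← Complex.ofReal_mul, ← Complex.ofReal_sub]
  apply Complex.zero_le_real.2
  have := (Complex.re_le_norm (star x ⬝ᵥ (E *ᵥ x))).trans hle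
  linarith

theorem near (r : ℕ) (ε : ℝ) (hε : 0 < ε) : ∃ δ > 0, ∀ A : M r, A.IsHermitian → ‖A - 1‖ ≤ δ →
    A.PosDef ∧ Thm ε A 1 := by
  have h1 : 1 < Real.exp ε := Real.one_lt_exp_iff.2 hε
  -- `δ = 1 - exp (-ε)`
  refine ⟨1 - Real.exp (-ε), sub_pos.2 (by simpa using hε), ?_⟩
  intro A hA hAδ
  set δ := 1 - Real.exp (-ε) with hδ
  have hme : 0 < Real.exp (-ε) := Real.exp_pos _
  have hmm : Real.exp ε * Real.exp (-ε) = 1 := by rw [← Real.exp_add]; simp
  have hH : (A - 1).IsHermitian := hA.sub Matrix.isHermitian_one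
  have p1 := psd_of_norm_le hH hAδ
  have p2 : ((δ : ℂ) • (1 : M r) - (1 - A)).PosSemidef := by
    apply psd_of_norm_le (Matrix.isHermitian_one.sub hA)
    rw [norm_sub_rev]; exact hAδ
  refine ⟨?_, ?_, ?_⟩
  · have e : A = ((Real.exp (-ε) : ℝ) : ℂ) • (1 : M r) + ((δ : ℂ) • (1 : M r) - (1 - A)) := by
      rw [hδ]; push_cast; module
    rw [e]
    exact (Matrix.PosDef.one.smul (by exact_mod_cast hme)).add_posSemidef p2
  · have e : (Real.exp ε : ℂ) • (1 : M r) - A =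
        ((Real.exp ε - 1 - δ : ℝ) : ℂ) • (1 : M r) + ((δ : ℂ) • (1 : M r) - (A - 1)) := by
      push_cast; module
    rw [e]
    refine (psd_smul Matrix.PosSemidef.one ?_).add p1
    rw [hδ]
    nlinarith [sq_nonneg (Real.exp ε - 1), sq_nonneg (Real.exp ε - Real.exp (-ε))]
  · have e : (Real.exp ε : ℂ) • A - (1 : M r) =
        (Real.exp ε : ℂ) • ((δ : ℂ) • (1 : M r) - (1 - A)) := by
      have h2 : (Real.exp ε : ℂ) * (Real.exp (-ε) : ℂ) = 1 := by exact_mod_cast hmm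
      rw [hδ]
      push_cast
      have h3 : (Real.exp ε : ℂ) • (((1 : ℂ) - (Real.exp (-ε) : ℂ)) • (1 : M r) - (1 - A)) =
          (Real.exp ε : ℂ) • A - ((Real.exp ε : ℂ) * (Real.exp (-ε) : ℂ)) • (1 : M r) := by
        module
      push_cast at h3 h2
      rw [h3, h2, one_smul]
    rw [e]
    exact psd_smul p2 (Real.exp_pos ε).le

/-! ### Continuity -/

theorem continuous_conj (G : M r) : Continuous (fun A : M r => Gᴴ * A * G) :=
  (continuous_const.matrix_mul continuous_id).matrix_mul continuous_const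

theorem tendsto_dT {A₀ : M r} (hA₀ : A₀.PosDef) {ε : ℝ} (hε : 0 < ε) :
    ∀ᶠ A in 𝓝 A₀, A.PosDef → dT A A₀ ≤ ε := by
  obtain ⟨G, κ, hG, hκ, h1, -⟩ := diag_pair hA₀ hA₀
  obtain ⟨δ, hδ, hn⟩ := near r ε hε
  have h2 : Tendsto (fun A : M r => Gᴴ * A * G) (𝓝 A₀) (𝓝 1) := by
    have := (continuous_conj G).tendsto A₀
    rwa [h1] at this
  have h3 := h2.eventually (closedBall_mem_nhds (1 : M r) hδ)
  filter_upwards [h3] with A hA hpos
  rw [dist_eq_norm] at hA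
  have hpos' : (Gᴴ * A * G).PosDef := (Matrix.IsUnit.posDef_star_left_conjugate_iff hG).2 hpos
  have h4 := (hn _ hpos'.isHermitian hA).2
  rw [← h1, thm_congr hG] at h4
  exact dT_le hε.le h4

theorem dT_cont (r : ℕ) : ContinuousOn (fun p : M r × M r => dT p.1 p.2)
    {p | p.1.PosDef ∧ p.2.PosDef} := by
  rintro ⟨A₀, B₀⟩ ⟨hA₀, hB₀⟩
  simp only at hA₀ hB₀
  rw [ContinuousWithinAt, Metric.tendsto_nhds]
  intro ε hε
  have h1 := tendsto_dT hA₀ (ε := ε / 3) (by positivity)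
  have h2 := tendsto_dT hB₀ (ε := ε / 3) (by positivity)
  have h3 : ∀ᶠ p : M r × M r in 𝓝 (A₀, B₀), (p.1.PosDef → dT p.1 A₀ ≤ ε / 3) ∧
      (p.2.PosDef → dT p.2 B₀ ≤ ε / 3) := by
    rw [nhds_prod_eq]
    exact h1.prod_mk h2
  filter_upwards [h3.filter_mono nhdsWithin_le_nhds, self_mem_nhdsWithin] with p hp hp'
  obtain ⟨hp1, hp2⟩ := hp'
  have h4 := hp.1 hp1
  have h5 := hp.2 hp2
  have t1 := dT_tri hp1 hA₀ hp2
  have t2 := dT_tri hA₀ hB₀ hp2
  have t3 := dT_tri hA₀ hp1 hB₀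
  have t4 := dT_tri hp1 hp2 hB₀
  have c1 := dT_comm A₀ p.1
  have c2 := dT_comm B₀ p.2
  rw [Real.dist_eq, abs_lt]
  constructor <;> linarith

/-! ### Compactness -/

theorem posSemidef_closed (r : ℕ) : IsClosed {A : M r | A.PosSemidef} := by
  have h : {A : M r | A.PosSemidef} = {A : M r | Aᴴ = A} ∩
      ⋂ x : Fin r → ℂ, {A : M r | 0 ≤ star x ⬝ᵥ (A *ᵥ x)} := by
    ext A
    simp only [mem_ofPred_eq, mem_inter_iff, mem_iInter]
    rw [Matrix.posSemidef_iff_dotProduct_mulVec]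
    rfl
  rw [h]
  apply IsClosed.inter
  · exact isClosed_eq (continuous_id.matrix_conjTranspose) continuous_id
  · apply isClosed_iInter
    intro x
    apply isClosed_le continuous_const
    fun_prop

theorem posDef_of_thm {A B : M r} {c : ℝ} (hB : B.PosDef) (h : Thm c A B) : A.PosDef := by
  have h1 : ((Real.exp c : ℂ) • A).PosDef := by
    have := hB.add_posSemidef h.2
    simpa using this
  have h2 : (0 : ℂ) < (Real.exp (-c) : ℂ) := by
    exact_mod_cast Real.exp_pos (-c)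
  have h3 := h1.smul h2
  rw [smul_smul] at h3
  have h4 : (Real.exp (-c) : ℂ) * (Real.exp c : ℂ) = 1 := by
    rw [← Complex.ofReal_mul, ← Real.exp_add]; simp
  rwa [h4, one_smul] at h3

theorem compact' (r : ℕ) (B : M r) (c : ℝ) (hB : B.PosDef) :
    IsCompact {A : M r | A.PosDef ∧ Thm c A B} := by
  obtain ⟨G, κ, hG, hκ, h1, -⟩ := diag_pair hB hB
  have hGd : IsUnit G.det := (Matrix.isUnit_iff_isUnit_det G).1 hG
  have e : {A : M r | A.PosDef ∧ Thm c A B} = {A : M r | Thm c A B} := by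
    ext A
    exact ⟨fun h => h.2, fun h => ⟨posDef_of_thm hB h, h⟩⟩
  have hclosed : IsClosed {A : M r | Thm c A B} := by
    have : {A : M r | Thm c A B} = (fun A : M r => (Real.exp c : ℂ) • B - A) ⁻¹'
        {A : M r | A.PosSemidef} ∩ (fun A : M r => (Real.exp c : ℂ) • A - B) ⁻¹'
        {A : M r | A.PosSemidef} := rfl
    rw [this]
    exact ((posSemidef_closed r).preimage (continuous_const.sub continuous_id)).inter
      ((posSemidef_closed r).preimage ((continuous_const_smul _).sub continuous_const))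
  rw [e]
  have hcont : Continuous (fun A : M r => (G⁻¹)ᴴ * A * G⁻¹) := continuous_conj G⁻¹
  have hcpt : IsCompact ((fun A : M r => (G⁻¹)ᴴ * A * G⁻¹) ''
      closedBall (0 : M r) (Real.sqrt r * Real.exp c)) :=
    (isCompact_closedBall _ _).image hcont
  refine hcpt.of_isClosed_subset hclosed ?_
  intro A hA
  have hA' : A.PosDef := posDef_of_thm hB hA
  refine ⟨Gᴴ * A * G, ?_, ?_⟩
  · rw [mem_closedBall, dist_zero_right]
    apply norm_le_aux ((Matrix.IsUnit.posDef_star_left_conjugate_iff hG).2 hA')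
    rw [← h1]
    exact (thm_congr hG c).2 hA
  · have e1 : G * G⁻¹ = 1 := Matrix.mul_nonsing_inv G hGd
    have e2 : (G⁻¹)ᴴ * Gᴴ = 1 := by rw [← conjTranspose_mul, e1, conjTranspose_one]
    calc (G⁻¹)ᴴ * (Gᴴ * A * G) * G⁻¹ = ((G⁻¹)ᴴ * Gᴴ) * A * (G * G⁻¹) := by
          simp only [Matrix.mul_assoc]
      _ = A := by rw [e1, e2, Matrix.one_mul, Matrix.mul_one]

end DT

theorem dt_proof : Stmt_DT where
  nonneg := fun _ A B => DT.dT_nonneg A B
  comm := fun _ A B => DT.dT_comm A B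
  self := fun _ A _ => DT.dT_self A
  thm := fun _ _ _ hA hB => DT.thm_dT hA hB
  le := fun _ _ _ _ hc h => DT.dT_le hc h
  mono := fun _ _ _ _ _ hA hB h hT => DT.thm_mono hA.posSemidef hB.posSemidef h hT
  tri := fun _ _ _ _ hA hB hC => DT.dT_tri hA hB hC
  congr := fun _ _ _ _ hG => DT.dT_congr hG
  eq := fun _ _ _ hA hB h => DT.dT_eq hA hB h
  inv := fun _ _ _ _ hA hB h => DT.thm_inv hA hB h
  att := fun _ _ _ hA hB h => DT.dT_att hA hB h
  cont := DT.dT_cont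
  norm_le := fun _ _ _ hA h => DT.norm_le hA h
  near := DT.near
  compact := DT.compact'

end Pool.Agent.HSC
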