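import Mathlib

/-!
# Higgs bundles and harmonic metrics on Riemann surfaces: basic definitions
(problem MP_a09535_gt, scaling of the Higgs field).
-/

set_option autoImplicit false

open scoped Matrix.Norms.Frobenius ContDiff Topology Manifold ComplexOrder
open Matrix Set

noncomputable section

namespace Pool.Agent.HSC

/-- square complex matrices -/
abbrev M (r : ℕ) := Matrix (Fin r) (Fin r) ℂ

section wirt

variable {E : Type*} [NormedAddCommGroup E] [NormedSpace ℂ E]

/-- the Wirtinger derivative `∂F/∂z` -/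
def dz (F : ℂ → E) (z : ℂ) : E :=
  (1 / 2 : ℂ) • (fderiv ℝ F z 1 - Complex.I • fderiv ℝ F z Complex.I)

/-- the Wirtinger derivative `∂F/∂z̄` -/
def db (F : ℂ → E) (z : ℂ) : E :=
  (1 / 2 : ℂ) • (fderiv ℝ F z 1 + Complex.I • fderiv ℝ F z Complex.I)

end wirt

/-- a quarter of the Laplacian of a real function, `∂²ψ/∂z∂z̄` -/
def ddb (ψ : ℂ → ℝ) (z : ℂ) : ℝ := (db (dz (fun w => (ψ w : ℂ))) z).re

/-- the adjoint of the endomorphism `Θ` with respect to the Hermitian metric with Gram matrix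
`K` (`⟨v, w⟩ = wᴴ K v`) -/
def adj {r : ℕ} (K Θ : M r) : M r := K⁻¹ * Θᴴ * K

/-- the commutator `[Θ, Θ†]`, the adjoint being taken with respect to `K` -/
def brk {r : ℕ} (Θ K : M r) : M r := Θ * adj K Θ - adj K Θ * Θ

/-- the curvature coefficient `∂/∂z̄ (K⁻¹ ∂K/∂z)` of the Chern connection of `K` -/
def Qc {r : ℕ} (K : ℂ → M r) (z : ℂ) : M r := db (fun w => (K w)⁻¹ * dz K w) z

/-- `K` is (the Gram matrix of) a smooth Hermitian metric on `U` solving the Hitchin equation with
Higgs field `√q · Θ dz` -/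
structure Sol {r : ℕ} (U : Set ℂ) (q : ℝ) (Θ K : ℂ → M r) : Prop where
  smooth : ContDiffOn ℝ ∞ K U
  pos : ∀ z ∈ U, (K z).PosDef
  eqn : ∀ z ∈ U, Qc K z = (q : ℂ) • brk (Θ z) (K z)

end Pool.Agent.HSC
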