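import Pool.Agent.HSC.Stmts

/-! # Module DENS: density of Laurent polynomials -/

set_option autoImplicit false

namespace Pool.Agent.HSC.DENS

section

open scoped MatrixOrder Matrix.Norms.L2Operator ComplexOrder Matrix

theorem exists_factor {r : ℕ} (A : Matrix (Fin r) (Fin r) ℂ) (hA : A.PosSemidef) :
    ∃ C : Matrix (Fin r) (Fin r) ℂ, A = Cᴴ * C :=
  CStarAlgebra.nonneg_iff_eq_star_mul_self.mp hA.nonneg

end

end Pool.Agent.HSC.DENS

open scoped Matrix.Norms.Frobenius ContDiff Topology Manifold ComplexOrder ComplexConjugate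
open Matrix Set Filter MeasureTheory Metric

noncomputable section

namespace Pool.Agent.HSC.DENS

/-- Scalar trigonometric approximation on the unit circle. -/
theorem scalar (g : ℂ → ℂ) (hg : ContinuousOn g (sphere 0 1)) (δ : ℝ) (hδ : 0 < δ) :
    ∃ a : ℤ →₀ ℂ, ∀ z ∈ sphere (0 : ℂ) 1, ‖(a.sum fun k c => z ^ k * c) - g z‖ < δ := by
  have hmem : ∀ x : AddCircle (1 : ℝ), ((AddCircle.toCircle x : Circle) : ℂ) ∈ sphere (0 : ℂ) 1 :=
    fun x => mem_sphere_zero_iff_norm.mpr (Circle.norm_coe _)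
  have hc : Continuous fun x : AddCircle (1 : ℝ) => g ((AddCircle.toCircle x : Circle) : ℂ) :=
    hg.comp_continuous (continuous_subtype_val.comp AddCircle.continuous_toCircle) hmem
  let F : C(AddCircle (1 : ℝ), ℂ) := ⟨_, hc⟩
  have hF : F ∈ (Submodule.span ℂ (range (@fourier (1 : ℝ)))).topologicalClosure := by
    rw [span_fourier_closure_eq_top]; trivial
  obtain ⟨p, hp, hpd⟩ := Metric.mem_closure_iff.mp hF δ hδ
  obtain ⟨a, ha⟩ := Finsupp.mem_span_range_iff_exists_finsupp.mp hp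
  refine ⟨a, fun z hz => ?_⟩
  have hz1 : ‖z‖ = 1 := by simpa using hz
  let w : Circle := ⟨z, mem_sphere_zero_iff_norm.mpr hz1⟩
  let x : AddCircle (1 : ℝ) := (AddCircle.homeomorphCircle (T := 1) one_ne_zero).symm w
  have hx : AddCircle.toCircle x = w := by
    rw [← AddCircle.homeomorphCircle_apply (T := 1) one_ne_zero]
    exact (AddCircle.homeomorphCircle (T := 1) one_ne_zero).apply_symm_apply w
  have h1 : ‖(p - F) x‖ ≤ ‖p - F‖ := ContinuousMap.norm_coe_le_norm _ _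
  have h2 : ‖p - F‖ < δ := by rw [← dist_eq_norm, dist_comm]; exact hpd
  have h3 : (p - F) x = (a.sum fun k c => z ^ k * c) - g z := by
    rw [ContinuousMap.sub_apply, ← ha]
    congr 1
    · rw [Finsupp.sum, Finsupp.sum, ContinuousMap.sum_apply]
      refine Finset.sum_congr rfl fun k _ => ?_
      rw [ContinuousMap.smul_apply, smul_eq_mul, fourier_apply, AddCircle.toCircle_zsmul, hx,
        Circle.coe_zpow, mul_comm]
    · change g ((AddCircle.toCircle x : Circle) : ℂ) = g z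
      rw [hx]
  rw [← h3]
  exact h1.trans_lt h2

/-- The Frobenius norm is bounded by the entries. -/
theorem norm_le {r : ℕ} (A : M r) (δ : ℝ) (hδ : 0 ≤ δ) (h : ∀ i j, ‖A i j‖ ≤ δ) :
    ‖A‖ ≤ r * δ := by
  have h0 : ‖A‖ ^ 2 ≤ (r * δ) ^ 2 := by
    rw [Matrix.frobenius_norm_def, ← Real.sqrt_eq_rpow, Real.sq_sqrt (by positivity)]
    calc ∑ i, ∑ j, ‖A i j‖ ^ (2 : ℝ) ≤ ∑ _i : Fin r, ∑ _j : Fin r, δ ^ 2 := by
          refine Finset.sum_le_sum fun i _ => Finset.sum_le_sum fun j _ => ?_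
          rw [Real.rpow_two]
          exact pow_le_pow_left₀ (norm_nonneg _) (h i j) 2
      _ = (r * δ) ^ 2 := by simp; ring
  exact le_of_sq_le_sq h0 (by positivity)

/-- Approximation in norm by Laurent polynomials. -/
theorem approx {r : ℕ} (f : ℂ → M r) (hf : ContinuousOn f (sphere 0 1)) (δ : ℝ) (hδ : 0 < δ) :
    ∃ (d : ℕ) (c : ℤ → M r), ∀ z ∈ sphere (0 : ℂ) 1, ‖Lp d c z - f z‖ ≤ r * δ := by
  have h1 : ∀ i j : Fin r, ∃ a : ℤ →₀ ℂ, ∀ z ∈ sphere (0 : ℂ) 1,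
      ‖(a.sum fun k c => z ^ k * c) - f z i j‖ < δ := by
    intro i j
    refine scalar (fun z => f z i j) ?_ δ hδ
    intro z hz
    have := hf z hz
    exact ((continuous_apply j).comp (continuous_apply i)).continuousAt.comp_continuousWithinAt this
  choose a ha using h1
  let S : Finset ℤ := Finset.univ.biUnion fun i => Finset.univ.biUnion fun j => (a i j).support
  let d : ℕ := S.sup Int.natAbs
  refine ⟨d, fun k => Matrix.of fun i j => a i j k, fun z hz => norm_le _ δ hδ.le fun i j => ?_⟩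
  have h2 : (Lp d (fun k => Matrix.of fun i j => a i j k) z - f z) i j =
      ((a i j).sum fun k c => z ^ k * c) - f z i j := by
    rw [Matrix.sub_apply]
    congr 1
    rw [Lp, Matrix.sum_apply, Finsupp.sum_of_support_subset (s := Finset.Icc (-(d : ℤ)) d)]
    · rfl
    · intro k hk
      have hkS : k ∈ S := Finset.mem_biUnion.mpr ⟨i, Finset.mem_univ _,
        Finset.mem_biUnion.mpr ⟨j, Finset.mem_univ _, hk⟩⟩
      have : k.natAbs ≤ d := Finset.le_sup (f := Int.natAbs) hkS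
      rw [Finset.mem_Icc]
      omega
    · intro k _; rw [mul_zero]
  rw [h2]
  exact (ha i j z hz).le

/-- Adjoint of a Laurent polynomial on the circle. -/
theorem adjoint {r : ℕ} (d : ℕ) (c : ℤ → M r) (z : ℂ) (hz : z ∈ sphere (0 : ℂ) 1) :
    (Lp d c z)ᴴ = Lp d (fun k => (c (-k))ᴴ) z := by
  have hz1 : ‖z‖ = 1 := by simpa using hz
  have hinv : star z = z⁻¹ := by
    have h0 : z ≠ 0 := by intro h; rw [h] at hz1; simp at hz1
    apply eq_inv_of_mul_eq_one_left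
    have : star z * z = ((‖z‖ ^ 2 : ℝ) : ℂ) := by
      rw [mul_comm]; exact_mod_cast Complex.mul_conj' z
    rw [this, hz1]; simp
  rw [Lp, Lp, Matrix.conjTranspose_sum]
  refine Finset.sum_nbij' (fun k => -k) (fun k => -k) ?_ ?_ ?_ ?_ ?_
  · intro k hk; rw [Finset.mem_Icc] at hk ⊢; omega
  · intro k hk; rw [Finset.mem_Icc] at hk ⊢; omega
  · intro k _; exact neg_neg k
  · intro k _; exact neg_neg k
  · intro k _
    rw [Matrix.conjTranspose_smul, neg_neg, star_zpow₀, hinv, _root_.inv_zpow']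

theorem lin {r : ℕ} (d : ℕ) (c c' : ℤ → M r) (z : ℂ) :
    Lp d (fun k => (1 / 2 : ℂ) • (c k + c' k)) z = (1 / 2 : ℂ) • (Lp d c z + Lp d c' z) := by
  rw [Lp, Lp, Lp, ← Finset.sum_add_distrib, Finset.smul_sum]
  refine Finset.sum_congr rfl fun k _ => ?_
  rw [← smul_add, smul_comm]

/-- Hermitian approximation in norm. -/
theorem happrox {r : ℕ} (f : ℂ → M r) (hf : ContinuousOn f (sphere 0 1))
    (hh : ∀ z ∈ sphere (0 : ℂ) 1, (f z).IsHermitian) (δ : ℝ) (hδ : 0 < δ) :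
    ∃ (d : ℕ) (c : ℤ → M r), ∀ z ∈ sphere (0 : ℂ) 1, (Lp d c z).IsHermitian ∧
      ‖Lp d c z - f z‖ ≤ r * δ := by
  obtain ⟨d, c, hc⟩ := approx f hf δ hδ
  refine ⟨d, fun k => (1 / 2 : ℂ) • (c k + (c (-k))ᴴ), fun z hz => ?_⟩
  rw [lin d c (fun k => (c (-k))ᴴ) z, ← adjoint d c z hz]
  constructor
  · rw [Matrix.IsHermitian, Matrix.conjTranspose_smul, Matrix.conjTranspose_add,
      Matrix.conjTranspose_conjTranspose, add_comm]
    congr 1
    simp
  · have h1 : (1 / 2 : ℂ) • (Lp d c z + (Lp d c z)ᴴ) - f z =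
        (1 / 2 : ℂ) • ((Lp d c z - f z) + (Lp d c z - f z)ᴴ) := by
      rw [Matrix.conjTranspose_sub, (hh z hz).eq]
      module
    rw [h1, norm_smul]
    have h2 := norm_add_le (Lp d c z - f z) (Lp d c z - f z)ᴴ
    rw [Matrix.frobenius_norm_conjTranspose] at h2
    have h3 := hc z hz
    have h4 : ‖(1 / 2 : ℂ)‖ = 1 / 2 := by norm_num
    rw [h4]
    linarith

theorem norm_sq {r : ℕ} (A : M r) : ‖A‖ ^ 2 = ((A * Aᴴ).trace).re := by
  rw [Matrix.frobenius_norm_def, ← Real.sqrt_eq_rpow, Real.sq_sqrt (by positivity)]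
  rw [Matrix.trace, Complex.re_sum]
  refine Finset.sum_congr rfl fun i _ => ?_
  rw [Matrix.diag_apply, Matrix.mul_apply, Complex.re_sum]
  refine Finset.sum_congr rfl fun j _ => ?_
  rw [Matrix.conjTranspose_apply, Real.rpow_two]
  have := Complex.mul_conj' (A i j)
  rw [Complex.star_def, this]
  norm_cast

/-- A matrix close to a positive definite matrix. -/
theorem close (hDT : Stmt_DT) {r : ℕ} (ε : ℝ) (hε : 0 < ε) : ∃ δ > 0, ∀ A L : M r,
    A.PosDef → L.IsHermitian → ((A⁻¹).trace).re * ‖L - A‖ ≤ δ → L.PosDef ∧ dT A L ≤ ε := by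
  obtain ⟨δ, hδ, h⟩ := hDT.near r ε hε
  refine ⟨δ, hδ, fun A L hA hL hle => ?_⟩
  obtain ⟨C, hC⟩ := exists_factor A hA.posSemidef
  have hdet : IsUnit C.det := by
    have h1 : IsUnit A.det := hA.isUnit.map Matrix.detMonoidHom
    rw [hC, Matrix.det_mul] at h1
    exact isUnit_of_mul_isUnit_right h1
  have hCu : IsUnit C := (Matrix.isUnit_iff_isUnit_det C).mpr hdet
  have hdetH : IsUnit (Cᴴ).det := by
    rw [Matrix.det_conjTranspose]; exact hdet.star
  have e1 : C * C⁻¹ = 1 := Matrix.mul_nonsing_inv C hdet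
  have e2 : C⁻¹ * C = 1 := Matrix.nonsing_inv_mul C hdet
  have e3 : Cᴴ * (C⁻¹)ᴴ = 1 := by rw [← Matrix.conjTranspose_mul, e2, Matrix.conjTranspose_one]
  have e4 : (C⁻¹)ᴴ * Cᴴ = 1 := by rw [← Matrix.conjTranspose_mul, e1, Matrix.conjTranspose_one]
  set B : M r := (C⁻¹)ᴴ * L * C⁻¹ with hB
  have hLB : L = Cᴴ * B * C := by
    rw [hB]
    calc L = (Cᴴ * (C⁻¹)ᴴ) * L * (C⁻¹ * C) := by rw [e3, e2, one_mul, mul_one]
      _ = _ := by simp only [Matrix.mul_assoc]
  have hBh : B.IsHermitian := by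
    rw [hB, Matrix.IsHermitian, Matrix.conjTranspose_mul, Matrix.conjTranspose_mul,
      Matrix.conjTranspose_conjTranspose, hL.eq, Matrix.mul_assoc]
  have hB1 : B - 1 = (C⁻¹)ᴴ * (L - A) * C⁻¹ := by
    rw [hB, Matrix.mul_sub, Matrix.sub_mul]
    congr 1
    rw [hC]
    calc (1 : M r) = ((C⁻¹)ᴴ * Cᴴ) * (C * C⁻¹) := by rw [e4, e1, one_mul]
      _ = _ := by simp only [Matrix.mul_assoc]
  have hinv : A⁻¹ = C⁻¹ * (C⁻¹)ᴴ := by
    apply Matrix.inv_eq_right_inv
    rw [hC]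
    calc Cᴴ * C * (C⁻¹ * (C⁻¹)ᴴ) = Cᴴ * (C * C⁻¹) * (C⁻¹)ᴴ := by simp only [Matrix.mul_assoc]
      _ = 1 := by rw [e1, mul_one, e3]
  have hn : ‖B - 1‖ ≤ δ := by
    rw [hB1]
    calc ‖(C⁻¹)ᴴ * (L - A) * C⁻¹‖ ≤ ‖(C⁻¹)ᴴ * (L - A)‖ * ‖C⁻¹‖ := norm_mul_le _ _
      _ ≤ (‖(C⁻¹)ᴴ‖ * ‖L - A‖) * ‖C⁻¹‖ := by gcongr; exact norm_mul_le _ _
      _ = ‖C⁻¹‖ ^ 2 * ‖L - A‖ := by rw [Matrix.frobenius_norm_conjTranspose]; ring
      _ = ((A⁻¹).trace).re * ‖L - A‖ := by rw [norm_sq, hinv]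
      _ ≤ δ := hle
  obtain ⟨hBp, hBt⟩ := h B hBh hn
  constructor
  · rw [hLB]
    exact hBp.conjTranspose_mul_mul_same (Matrix.mulVec_injective_of_isUnit hCu)
  · have h5 : dT A L = dT (1 : M r) B := by
      have := hDT.congr r 1 B C hCu
      rw [Matrix.mul_one, ← hC, ← hLB] at this
      exact this
    rw [h5, hDT.comm]
    exact hDT.le r B 1 ε hε.le hBt

end Pool.Agent.HSC.DENS

namespace Pool.Agent.HSC

theorem dens_proof (hDT : Stmt_DT) : Stmt_Dens := by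
  intro r f hf hp ε hε
  obtain ⟨δ, hδ, hclose⟩ := DENS.close (r := r) hDT ε hε
  have hcont : ContinuousOn (fun z => (((f z)⁻¹).trace).re) (sphere (0 : ℂ) 1) := by
    have h1 := continuousOn_inv hf fun z hz => (hp z hz).isUnit
    have h2 : Continuous fun A : M r => (A.trace).re :=
      Complex.continuous_re.comp (continuous_id.matrix_trace)
    exact h2.comp_continuousOn h1
  obtain ⟨m, hm⟩ := (isCompact_sphere (0 : ℂ) 1).bddAbove_image hcont
  have hm' : ∀ z ∈ sphere (0 : ℂ) 1, (((f z)⁻¹).trace).re ≤ m := fun z hz =>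
    hm ⟨z, hz, rfl⟩
  have hK : 0 < (|m| + 1) * (r + 1 : ℝ) := by positivity
  obtain ⟨d, c, hc⟩ := DENS.happrox f hf (fun z hz => (hp z hz).isHermitian)
    (δ / ((|m| + 1) * (r + 1 : ℝ))) (by positivity)
  refine ⟨d, c, fun z hz => ?_⟩
  obtain ⟨hh, hn⟩ := hc z hz
  refine hclose (f z) _ (hp z hz) hh ?_
  calc (((f z)⁻¹).trace).re * ‖Lp d c z - f z‖ ≤ (|m| + 1) * ‖Lp d c z - f z‖ := by
        have := hm' z hz
        have := le_abs_self m
        gcongr
        linarith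
    _ ≤ (|m| + 1) * (r * (δ / ((|m| + 1) * (r + 1 : ℝ)))) := by gcongr
    _ ≤ δ := by
        rw [← mul_assoc, mul_div_assoc', div_le_iff₀ hK]
        nlinarith [mul_pos hδ (by positivity : 0 < |m| + 1)]

end Pool.Agent.HSC
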