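import Pool.Agent.HSC.Stmts2

/-!
# Squad HSC, module EQC: equicontinuity of the sweeping sequence off the exceptional set
-/

set_option autoImplicit false
set_option linter.unusedVariables false
set_option linter.unusedSectionVars false

open scoped Matrix.Norms.Frobenius ContDiff Topology Manifold ComplexOrder ComplexConjugate
open Matrix Set Filter MeasureTheory Metric

noncomputable section

namespace Pool.Agent.HSC

universe u v

namespace EQC

variable {X : Type u} [TopologicalSpace X] [T2Space X] [ChartedSpace ℂ X] [IsManifold 𝓘(ℂ) ω X]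
  {r : ℕ} {E : HiggsBundle.{u, v} X r}

theorem per_mod {N : ℕ} {D : ℕ → Disc E} (h : ∀ m, D (m + N) = D m) (m : ℕ) :
    D (m % N) = D m :=
  Function.Periodic.map_mod_nat (f := D) h m

/-- the constant -/
def cc (r : ℕ) (b : ℕ → ℝ) : ℝ := max (max (b 1) (b (r - 1))) 0

theorem thm_H (hBd : Stmt_BdApi) (hDT : Stmt_DT) {q : ℝ} {b : ℕ → ℝ} {P : E.ι → X → M r} {N : ℕ}
    {D : ℕ → Disc E} {H : ℕ → E.ι → X → M r} (hb : ∀ j ≤ r, 0 ≤ b j) (hS : Sweep E q b P N D H)
    (m : ℕ) (i : E.ι) {y : X} (hy : y ∈ (E.φ i).source) : Thm (cc r b) (H m i y) (P i y) := by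
  have hP : (P i y).PosDef := by
    have h0 := (hS.met 0).pos i y ⟨hy, mem_univ _⟩
    rwa [hS.zero] at h0
  have hH : (H m i y).PosDef := (hS.met m).pos i y ⟨hy, mem_univ _⟩
  exact hDT.mono r _ _ _ _ hH hP (le_max_left _ _)
    (hBd.thm r b (P i y) (H m i y) hP hH hb (hS.bd m i y hy))

/-- the first part -/
theorem base (hXInt : XIntAt X r E) (hBd : Stmt_BdApi) (hDT : Stmt_DT) {q : ℝ} {b : ℕ → ℝ}
    {P : E.ι → X → M r} {N : ℕ} {D : ℕ → Disc E} {H : ℕ → E.ι → X → M r} (hq : 0 ≤ q)
    (hb : ∀ j ≤ r, 0 ≤ b j) (hS : Sweep E q b P N D H) {x : X} {i : E.ι}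
    (hi : x ∈ (E.φ i).source) {ε : ℝ} (hε : 0 < ε) :
    ∃ V ∈ 𝓝 x, V ⊆ (E.φ i).source ∧
      (∀ m, x ∉ (D m).cl → ∀ y ∈ V, y ∉ (D m).op) ∧
      (∀ m, x ∈ (D m).op → ∀ y ∈ V, dT (H (m + 1) i x) (H (m + 1) i y) ≤ ε) ∧
      ∀ m, ∀ y ∈ V, (∀ k < N, x ∈ (D k).cir → y ∉ (D k).op) →
        dT (H m i x) (H m i y) ≤ ε := by
  classical
  have hPm : MetX E univ P := by
    have h0 := hS.met 0
    rwa [hS.zero] at h0
  have hc : 0 ≤ cc r b := le_max_right _ _
  -- interior neighbourhoods
  have h1 : ∀ k, ∃ V ∈ 𝓝 x, V ⊆ (E.φ i).source ∧ (x ∉ (D k).cl → ∀ y ∈ V, y ∉ (D k).op) ∧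
      (x ∈ (D k).op → ∀ h : E.ι → X → M r, MetX E univ h → SolX E q (D k).op h →
        (∀ y ∈ (D k).op ∩ (E.φ i).source, Thm (cc r b) (h i y) (P i y)) →
        ∀ y ∈ V, dT (h i x) (h i y) ≤ ε) := by
    intro k
    by_cases hx : x ∈ (D k).op
    · obtain ⟨V, hV, hVs, hVh⟩ := hXInt q (cc r b) P (D k).op i x hq hc hPm (D k).isOpen_op hx hi
        ε hε
      exact ⟨V, hV, hVs, fun h => absurd ((D k).op_sub_cl hx) h, fun _ => hVh⟩
    · refine ⟨(E.φ i).source ∩ (if x ∈ (D k).cl then univ else (D k).clᶜ), ?_, inter_subset_left,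
        ?_, fun h => absurd h hx⟩
      · refine inter_mem ((E.φ i).open_source.mem_nhds hi) ?_
        split
        · exact univ_mem
        · rename_i h
          exact (D k).isClosed_cl.isOpen_compl.mem_nhds h
      · intro h y hy
        rw [if_neg h] at hy
        exact fun h' => hy.2 ((D k).op_sub_cl h')
  choose V hV hVs hVout hVin using h1
  -- the initial metric
  have h2 : ∀ᶠ y in 𝓝 x, dT (P i x) (P i y) ≤ ε := by
    have hPx : (P i x).PosDef := hPm.pos i x ⟨hi, mem_univ _⟩
    have hc1 : ContinuousAt (P i) x := (hPm.cont i).continuousAt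
      (by rw [inter_univ]; exact (E.φ i).open_source.mem_nhds hi)
    have hc2 := hDT.cont r (P i x, P i x) ⟨hPx, hPx⟩
    have ht : Tendsto (fun y => (P i x, P i y)) (𝓝 x)
        (𝓝[{p : M r × M r | p.1.PosDef ∧ p.2.PosDef}] (P i x, P i x)) := by
      rw [tendsto_nhdsWithin_iff]
      refine ⟨tendsto_const_nhds.prodMk_nhds hc1, ?_⟩
      filter_upwards [(E.φ i).open_source.mem_nhds hi] with y hy
      exact ⟨hPx, hPm.pos i y ⟨hy, mem_univ _⟩⟩
    have h3 := hc2.tendsto.comp ht
    have h4 : dT (P i x) (P i x) = 0 := hDT.self r _ hPx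
    have h5 : Tendsto (fun y => dT (P i x) (P i y)) (𝓝 x) (𝓝 0) := by
      have h6 := h3
      simp only [Function.comp_def] at h6
      rwa [h4] at h6
    exact (h5.eventually (gt_mem_nhds hε)).mono fun y hy => hy.le
  refine ⟨(⋂ k ∈ Finset.range N, V k) ∩ ({y | dT (P i x) (P i y) ≤ ε} ∩ (E.φ i).source), ?_, ?_, ?_,
    ?_, ?_⟩
  · refine inter_mem ?_ (inter_mem h2 ((E.φ i).open_source.mem_nhds hi))
    exact (Filter.biInter_finset_mem _).2 fun k _ => hV k
  · exact fun y hy => hy.2.2
  · intro m hm y hy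
    rw [← per_mod hS.per m] at hm ⊢
    have hlt : m % N < N := Nat.mod_lt _ hS.pos
    exact hVout (m % N) hm y (mem_iInter₂.1 hy.1 (m % N) (Finset.mem_range.2 hlt))
  · intro m hm y hy
    have hlt : m % N < N := Nat.mod_lt _ hS.pos
    have hD := per_mod hS.per m
    have hsol := hS.sol m
    rw [← hD] at hm hsol
    exact hVin (m % N) hm (H (m + 1)) (hS.met _) hsol
      (fun z hz => thm_H hBd hDT hb hS _ _ hz.2) y
      (mem_iInter₂.1 hy.1 (m % N) (Finset.mem_range.2 hlt))
  · intro m
    induction m with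
    | zero =>
      intro y hy _
      rw [hS.zero]
      exact hy.2.1
    | succ m ih =>
      intro y hy hk
      have hlt : m % N < N := Nat.mod_lt _ hS.pos
      have hD := per_mod hS.per m
      by_cases hxo : x ∈ (D m).op
      · have hsol := hS.sol m
        rw [← hD] at hxo hsol
        exact hVin (m % N) hxo (H (m + 1)) (hS.met _) hsol
          (fun z hz => thm_H hBd hDT hb hS _ _ hz.2) y
          (mem_iInter₂.1 hy.1 (m % N) (Finset.mem_range.2 hlt))
      · have hyo : y ∉ (D m).op := by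
          by_cases hxc : x ∈ (D m).cir
          · rw [← hD] at hxc ⊢
            exact hk _ hlt hxc
          · have hxcl : x ∉ (D m).cl := by
              rw [Disc.cl_eq]
              exact fun h => h.elim hxo hxc
            rw [← hD] at hxcl ⊢
            exact hVout (m % N) hxcl y (mem_iInter₂.1 hy.1 (m % N) (Finset.mem_range.2 hlt))
        rw [hS.off m x hxo i, hS.off m y hyo i]
        exact ih y hy hk

end EQC

open EQC in
theorem eqc_proof (X : Type u) [TopologicalSpace X] [T2Space X] [ChartedSpace ℂ X]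
    [IsManifold 𝓘(ℂ) ω X] (r : ℕ) (E : HiggsBundle.{u, v} X r) (hXInt : XIntAt X r E)
    (hXBd : XBdAt X r E) (hBd : Stmt_BdApi) (hDT : Stmt_DT) : EqcAt X r E := by
  intro q b P N D H hq hb hS x hx
  have hPm : MetX E univ P := by
    have h0 := hS.met 0
    rwa [hS.zero] at h0
  by_cases hJ : ∃ j < N, x ∈ (D j).cir
  · obtain ⟨j, hj, hxj⟩ := hJ
    have hxs : x ∈ (E.φ (D j).i).source := (Disc.mem_cir.1 hxj).1
    refine ⟨(D j).i, hxs, ?_⟩
    intro ε hε
    have hε2 : 0 < ε / 2 := by positivity
    obtain ⟨V, hV, hVs, hout, hin, hG⟩ := base hXInt hBd hDT hq hb hS hxs hε2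
    obtain ⟨V', hV', hbd⟩ := hXBd q (cc r b) P (D j) x V hq (le_max_right _ _) hPm hxj hV (ε / 2)
      hε2
    have huniq : ∀ k < N, x ∈ (D k).cir → k = j := by
      intro k hk hxk
      by_contra hne
      exact hx ⟨k, hk, j, hj, hne, hxk, hxj⟩
    have hxo : x ∉ (D j).op := fun h => (D j).op_disjoint_cir h hxj
    -- the full estimate
    have full : ∀ m, j < m → ∀ y ∈ V ∩ V', dT (H m (D j).i x) (H m (D j).i y) ≤ ε := by
      intro m
      induction m with
      | zero => intro h; omega
      | succ m ih =>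
        intro hjm y hy
        have hlt : m % N < N := Nat.mod_lt _ hS.pos
        have hD := per_mod hS.per m
        by_cases hxo' : x ∈ (D m).op
        · exact (hin m hxo' y hy.1).trans (by linarith)
        · by_cases hmj : m % N = j
          · by_cases hyc : y ∈ (D j).cl
            · have hsol := hS.sol m
              rw [← hD, hmj] at hsol
              have h1 := hbd (H (m + 1)) (hS.met _) hsol
                (fun z hz => thm_H hBd hDT hb hS _ _ ((D j).cl_sub_source hz)) (by
                  intro z hz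
                  refine hG (m + 1) z hz.1 ?_
                  intro k hk hxk
                  rw [huniq k hk hxk]
                  exact fun h => (D j).op_disjoint_cir h hz.2) y ⟨hy.2, hyc⟩
              linarith
            · refine (hG (m + 1) y hy.1 ?_).trans (by linarith)
              intro k hk hxk
              rw [huniq k hk hxk]
              exact fun h => hyc ((D j).op_sub_cl h)
          · have hxc : x ∉ (D m).cir := by
              rw [← hD]
              exact fun h => hmj (huniq _ hlt h)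
            have hxcl : x ∉ (D m).cl := by
              rw [Disc.cl_eq]
              exact fun h => h.elim hxo' hxc
            have hyo := hout m hxcl y hy.1
            rw [hS.off m x hxo' _, hS.off m y hyo _]
            refine ih ?_ y hy
            have : m ≠ j := by
              rintro rfl
              exact hmj (Nat.mod_eq_of_lt hj)
            omega
    refine ⟨N, ?_⟩
    filter_upwards [hV, hV'] with y hy hy'
    exact ⟨hVs hy, fun m hm => full m (by omega) y ⟨hy, hy'⟩⟩
  · push Not at hJ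
    refine ⟨E.ix x, E.mem_ix x, ?_⟩
    intro ε hε
    obtain ⟨V, hV, hVs, hout, hin, hG⟩ := base hXInt hBd hDT hq hb hS (E.mem_ix x) hε
    refine ⟨0, ?_⟩
    filter_upwards [hV] with y hy
    exact ⟨hVs hy, fun m _ => hG m y hy fun k hk hxk => absurd hxk (hJ k hk)⟩

end Pool.Agent.HSC
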