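import Pool.Agent.HSC.Stmts2

/-!
# From compact sets to the whole surface
-/

set_option autoImplicit false

open scoped Matrix.Norms.Frobenius ContDiff Topology Manifold ComplexOrder ComplexConjugate
open Matrix Set Filter MeasureTheory Metric

noncomputable section

namespace Pool.Agent.HSC

universe u v

namespace EXH

/-- a continuous metric is bounded on a closed disc -/
theorem local_bound (hDT : Stmt_DT) {r : ℕ} (P : ℂ → M r) {z : ℂ} {ρ : ℝ}
    (hc : ContinuousOn P (closedBall z ρ)) (hp : ∀ w ∈ closedBall z ρ, (P w).PosDef) :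
    ∃ B : ℝ, ∀ w ∈ closedBall z ρ, dT (P w) 1 ≤ B := by
  have h1 : ContinuousOn (fun w => dT (P w) 1) (closedBall z ρ) := by
    intro w hw
    have h4 := hDT.cont r (P w, (1 : M r)) ⟨hp w hw, Matrix.PosDef.one⟩
    have h5 : Tendsto (fun w => (P w, (1 : M r))) (𝓝[closedBall z ρ] w)
        (𝓝[{p : M r × M r | p.1.PosDef ∧ p.2.PosDef}] (P w, (1 : M r))) := by
      rw [tendsto_nhdsWithin_iff]
      refine ⟨(hc w hw).prodMk_nhds tendsto_const_nhds, ?_⟩
      filter_upwards [self_mem_nhdsWithin] with v hv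
      exact ⟨hp v hv, Matrix.PosDef.one⟩
    exact Tendsto.comp (f := fun w => (P w, (1 : M r)))
      (g := fun p : M r × M r => dT p.1 p.2) h4 h5
  obtain ⟨B, hB⟩ := (isCompact_closedBall z ρ).bddAbove_image h1
  exact ⟨B, fun w hw => hB (mem_image_of_mem _ hw)⟩

end EXH

theorem exh_proof (hLim : Stmt_Lim) (hDT : Stmt_DT) (hBd : Stmt_BdApi) (X : Type u)
    [TopologicalSpace X] [T2Space X] [ChartedSpace ℂ X] [IsManifold 𝓘(ℂ) ω X] (r : ℕ)
    (E : HiggsBundle.{u, v} X r) : ExhAt X r E := by
  intro q b P hq hb hP hC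
  choose Ω K hΩ hCΩ hM hS hB using
    fun C : TopologicalSpace.Compacts X => hC (C : Set X) C.isCompact
  set c : ℝ := max (max (b 1) (b (r - 1))) 0 with hc
  have hc0 : 0 ≤ c := le_max_right _ _
  set U : Ultrafilter (TopologicalSpace.Compacts X) := Ultrafilter.of atTop with hU
  have hUle : (U : Filter (TopologicalSpace.Compacts X)) ≤ atTop := Ultrafilter.of_le _
  have hbig : ∀ C₀ : TopologicalSpace.Compacts X,
      ∀ᶠ C in (U : Filter (TopologicalSpace.Compacts X)), C₀ ≤ C := fun C₀ =>
    hUle (eventually_ge_atTop C₀)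
  have hthm : ∀ (C : TopologicalSpace.Compacts X) (i : E.ι) (x : X), x ∈ (E.φ i).source →
      x ∈ Ω C → (K C i x).PosDef ∧ Thm c (K C i x) (P i x) := by
    intro C i x hx hx'
    have h1 := (hM C).pos i x ⟨hx, hx'⟩
    have h2 := hP.pos i x ⟨hx, mem_univ x⟩
    exact ⟨h1, hDT.mono r _ _ _ c h1 h2 (le_max_left _ _)
      (hBd.thm r b _ _ h2 h1 hb (hB C i x ⟨hx, hx'⟩))⟩
  have hpt : ∀ (x : X), ∀ᶠ C in (U : Filter (TopologicalSpace.Compacts X)), x ∈ Ω C := by
    intro x
    filter_upwards [hbig ⟨{x}, isCompact_singleton⟩] with C h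
    exact hCΩ C (h (mem_singleton x))
  have key : ∀ (i : E.ι) (x : X), ∃ A : M r, x ∈ (E.φ i).source →
      A.PosDef ∧ Tendsto (fun C => K C i x) (U : Filter (TopologicalSpace.Compacts X)) (𝓝 A) := by
    intro i x
    by_cases hx : x ∈ (E.φ i).source
    · have hcomp := hDT.compact r (P i x) c (hP.pos i x ⟨hx, mem_univ x⟩)
      have hle : ((U.map (fun C => K C i x) : Ultrafilter (M r)) : Filter (M r)) ≤
          𝓟 {A : M r | A.PosDef ∧ Thm c A (P i x)} := by
        rw [Ultrafilter.coe_map, le_principal_iff, mem_map]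
        filter_upwards [hpt x] with C h
        exact hthm C i x hx h
      obtain ⟨A, hA, hA2⟩ := hcomp.ultrafilter_le_nhds _ hle
      exact ⟨A, fun _ => ⟨hA.1, hA2⟩⟩
    · exact ⟨0, fun h => absurd h hx⟩
  choose L hL using key
  have hsol : SolX E q univ L := by
    intro i
    have hdom : E.dom i univ = (E.φ i).target := by
      simp [HiggsBundle.dom]
    have : (map (fun C => E.loc (K C) i) (U : Filter (TopologicalSpace.Compacts X))).NeBot :=
      inferInstance
    refine hLim r (E.dom i univ) q (E.θ i) (ℂ → M r)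
      (map (fun C => E.loc (K C) i) (U : Filter (TopologicalSpace.Compacts X)))
      (fun n => n) (E.loc L i) this (isOpen_dom E i isOpen_univ) hq ?_ ?_ ?_
    · rw [hdom]
      exact E.θ_holo i
    · intro z hz
      rw [hdom] at hz
      obtain ⟨ρ, hρ, hρs⟩ := Metric.nhds_basis_closedBall.mem_iff.1
        ((E.φ i).open_target.mem_nhds hz)
      have hsrc : ∀ w ∈ closedBall z ρ, (E.φ i).symm w ∈ (E.φ i).source := fun w hw =>
        (E.φ i).map_target (hρs hw)
      have hPc : ContinuousOn (E.loc P i) (closedBall z ρ) := by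
        apply (hP.cont i).comp ((E.φ i).continuousOn_symm.mono hρs)
        intro w hw
        exact ⟨hsrc w hw, mem_univ _⟩
      obtain ⟨B, hBB⟩ := EXH.local_bound hDT (E.loc P i) hPc
        (fun w hw => hP.pos i _ ⟨hsrc w hw, mem_univ _⟩)
      refine ⟨ρ, hρ, c + B, ?_⟩
      rw [eventually_map]
      have hcp : IsCompact ((E.φ i).symm '' closedBall z ρ) :=
        (isCompact_closedBall z ρ).image_of_continuousOn ((E.φ i).continuousOn_symm.mono hρs)
      filter_upwards [hbig ⟨_, hcp⟩] with C hCC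
      have hin : ∀ w ∈ ball z ρ, (E.φ i).symm w ∈ Ω C := fun w hw =>
        hCΩ C (hCC (mem_image_of_mem _ (ball_subset_closedBall hw)))
      constructor
      · exact (hS C i).mono fun w hw => ⟨hρs (ball_subset_closedBall hw), hin w hw⟩
      · intro w hw
        have hw' := ball_subset_closedBall hw
        obtain ⟨h1, h2⟩ := hthm C i _ (hsrc w hw') (hin w hw)
        have h3 := hP.pos i _ ⟨hsrc w hw', mem_univ _⟩
        have h4 : dT (K C i ((E.φ i).symm w)) 1 ≤ c + B := by
          refine (hDT.tri r _ _ _ h1 h3 Matrix.PosDef.one).trans ?_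
          exact add_le_add (hDT.le r _ _ c hc0 h2) (hBB w hw')
        exact hDT.mono r _ _ _ _ h1 Matrix.PosDef.one h4 (hDT.thm r _ _ h1 Matrix.PosDef.one)
    · intro z hz
      rw [hdom] at hz
      rw [tendsto_map'_iff]
      exact (hL i ((E.φ i).symm z) ((E.φ i).map_target hz)).2
  refine ⟨L, ⟨fun i x hx => (hL i x hx.1).1, ?_, ?_⟩, hsol⟩
  · intro i j x hx
    have h1 := (hL j x hx.1.2).2
    have h2 := (hL i x hx.1.1).2
    have h3 : Tendsto (fun C => (E.g i j x)ᴴ * K C i x * E.g i j x)
        (U : Filter (TopologicalSpace.Compacts X))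
        (𝓝 ((E.g i j x)ᴴ * L i x * E.g i j x)) :=
      (h2.const_mul _).mul_const _
    refine tendsto_nhds_unique_of_eventuallyEq h1 h3 ?_
    filter_upwards [hpt x] with C h
    exact (hM C).trans i j x ⟨hx.1, h⟩
  · intro i
    have h1 : ContinuousOn (E.loc L i) (E.φ i).target := by
      refine (hsol i).smooth.continuousOn.mono ?_
      intro z hz
      exact ⟨hz, mem_univ _⟩
    have h2 : ContinuousOn (fun x => E.loc L i (E.φ i x)) (E.φ i).source :=
      h1.comp (E.φ i).continuousOn (fun x hx => (E.φ i).map_source hx)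
    have h3 : ContinuousOn (L i) (E.φ i).source := by
      apply h2.congr
      intro x hx
      simp only [HiggsBundle.loc]
      rw [(E.φ i).left_inv hx]
    exact h3.mono inter_subset_left

end Pool.Agent.HSC
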