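import Pool.Agent.HSC.Stmts

/-!
# Matrix spectral factorization (Fejér-Riesz) in the strictly positive case, by the continuity method
-/

set_option autoImplicit false

open scoped Matrix.Norms.Frobenius ContDiff Topology Manifold ComplexOrder ComplexConjugate
open Matrix Set Filter MeasureTheory Metric

noncomputable section

namespace Pool.Agent.HSC

namespace FACT

/-- A function with vanishing real part on the circle is constant. -/
theorem re_zero {f : ℂ → ℂ} (hf : DiffContOnCl ℂ f (ball 0 1))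
    (h : ∀ z ∈ sphere (0 : ℂ) 1, (f z).re = 0) : ∀ z ∈ closedBall (0 : ℂ) 1, f z = f 0 := by
  have hb : Bornology.IsBounded (ball (0 : ℂ) 1) := isBounded_ball
  have hfr : frontier (ball (0 : ℂ) 1) = sphere 0 1 := frontier_ball 0 one_ne_zero
  have hcl : closure (ball (0 : ℂ) 1) = closedBall 0 1 := closure_ball 0 one_ne_zero
  have e1 : DiffContOnCl ℂ (fun z => Complex.exp (f z)) (ball 0 1) :=
    Complex.differentiable_exp.comp_diffContOnCl hf
  have e2 : DiffContOnCl ℂ (fun z => Complex.exp (-f z)) (ball 0 1) :=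
    Complex.differentiable_exp.comp_diffContOnCl hf.neg
  have hre : ∀ z ∈ closedBall (0 : ℂ) 1, (f z).re = 0 := by
    intro z hz
    have h1 := Complex.norm_le_of_forall_mem_frontier_norm_le hb e1 (C := 1) (by
      intro w hw
      rw [hfr] at hw
      simp [Complex.norm_exp, h w hw]) (hcl ▸ hz)
    have h2 := Complex.norm_le_of_forall_mem_frontier_norm_le hb e2 (C := 1) (by
      intro w hw
      rw [hfr] at hw
      simp [Complex.norm_exp, h w hw]) (hcl ▸ hz)
    simp only [Complex.norm_exp, Real.exp_le_one_iff, Complex.neg_re] at h1 h2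
    linarith
  have h0 : (0 : ℂ) ∈ closedBall (0 : ℂ) 1 := by simp
  have hden : ∀ z ∈ closedBall (0 : ℂ) 1, 1 ≤ ‖1 - f z + f 0‖ := by
    intro z hz
    have h1 : (1 - f z + f 0).re = 1 := by simp [hre z hz, hre 0 h0]
    calc (1 : ℝ) = |(1 - f z + f 0).re| := by rw [h1, abs_one]
      _ ≤ _ := Complex.abs_re_le_norm _
  have g1 : DiffContOnCl ℂ (fun z => (1 - f z + f 0)⁻¹) (ball 0 1) := by
    refine DiffContOnCl.inv ((hf.const_sub 1).add_const (f 0)) ?_
    intro z hz h2
    have := hden z (hcl ▸ hz)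
    rw [h2, norm_zero] at this
    linarith
  have hmax : IsMaxOn (norm ∘ fun z => (1 - f z + f 0)⁻¹) (ball 0 1) 0 := by
    intro z hz
    have := hden z (ball_subset_closedBall hz)
    simp only [mem_ofPred_eq, Function.comp_apply, norm_inv, sub_add_cancel, norm_one, inv_one]
    exact inv_le_one_of_one_le₀ this
  intro z hz
  have h3 := Complex.eqOn_closedBall_of_isMaxOn_norm g1 hmax hz
  simp only [Function.const_apply, sub_add_cancel, inv_one, inv_eq_one] at h3
  linear_combination -h3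

/-! ### Matrix polynomials -/

/-- coefficients of matrix polynomials of degree at most `d` -/
abbrev V (r d : ℕ) := Fin (d + 1) → Fin r → Fin r → ℂ

variable {r d : ℕ}

/-- the `j`-th coefficient -/
def mt (h : V r d) (j : Fin (d + 1)) : M r := Matrix.of (h j)

/-- the value of the polynomial -/
def ev (h : V r d) (z : ℂ) : M r := ∑ j : Fin (d + 1), z ^ (j : ℕ) • mt h j

/-- the coefficients of the product -/
def bt (h k : V r d) : V r d := fun m => (∑ i : Fin (d + 1), ∑ j : Fin (d + 1),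
  if (j : ℕ) = (i : ℕ) + (m : ℕ) then (mt h i)ᴴ * mt k j else 0 : M r)

theorem mt_bt (h k : V r d) (m : Fin (d + 1)) : mt (bt h k) m =
    ∑ i : Fin (d + 1), ∑ j : Fin (d + 1),
      if (j : ℕ) = (i : ℕ) + (m : ℕ) then (mt h i)ᴴ * mt k j else 0 := rfl

theorem conj_pow_mul {z : ℂ} (hz : ‖z‖ = 1) {i j : ℕ} (h : i ≤ j) :
    (conj z) ^ i * z ^ j = z ^ (j - i) := by
  have h1 : conj z * z = 1 := by
    rw [mul_comm, Complex.mul_conj, Complex.normSq_eq_norm_sq, hz]
    simp
  obtain ⟨n, rfl⟩ := Nat.exists_eq_add_of_le h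
  rw [pow_add, ← mul_assoc, ← mul_pow, h1, one_pow, one_mul, Nat.add_sub_cancel_left]

theorem ev_bt (h k : V r d) (z : ℂ) : ev (bt h k) z =
    ∑ i : Fin (d + 1), ∑ j : Fin (d + 1),
      (if (i : ℕ) ≤ j then z ^ ((j : ℕ) - i) else 0) • ((mt h i)ᴴ * mt k j) := by
  unfold ev
  simp only [mt_bt, Finset.smul_sum]
  rw [Finset.sum_comm]
  refine Finset.sum_congr rfl fun i _ => ?_
  rw [Finset.sum_comm]
  refine Finset.sum_congr rfl fun j _ => ?_
  by_cases hij : (i : ℕ) ≤ j
  · rw [if_pos hij, Finset.sum_eq_single (⟨(j : ℕ) - i, by omega⟩ : Fin (d + 1))]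
    · simp only
      rw [if_pos (by omega)]
    · intro m _ hm
      rw [if_neg, smul_zero]
      intro h2
      apply hm
      ext
      simp only
      omega
    · simp
  · rw [if_neg hij, zero_smul]
    refine Finset.sum_eq_zero fun m _ => ?_
    rw [if_neg (by omega), smul_zero]

theorem ev_mul (h k : V r d) {z : ℂ} (hz : ‖z‖ = 1) :
    (ev h z)ᴴ * ev k z = ev (bt h k) z + (ev (bt k h) z)ᴴ - mt (bt h k) 0 := by
  rw [ev_bt, ev_bt, mt_bt]
  unfold ev
  rw [Matrix.conjTranspose_sum, Matrix.conjTranspose_sum, Finset.sum_mul_sum]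
  have h3 : ∀ i : Fin (d + 1), (∑ j : Fin (d + 1),
      (if (i : ℕ) ≤ j then z ^ ((j : ℕ) - i) else 0) • ((mt k i)ᴴ * mt h j))ᴴ =
      ∑ j : Fin (d + 1),
        (if (i : ℕ) ≤ j then (conj z) ^ ((j : ℕ) - i) else 0) • ((mt h j)ᴴ * mt k i) := by
    intro i
    rw [Matrix.conjTranspose_sum]
    refine Finset.sum_congr rfl fun j _ => ?_
    rw [Matrix.conjTranspose_smul, Matrix.conjTranspose_mul, Matrix.conjTranspose_conjTranspose]
    congr 1
    split_ifs <;> simp
  simp only [h3]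
  rw [Finset.sum_comm (f := fun i j : Fin (d + 1) =>
    (if (i : ℕ) ≤ j then (conj z) ^ ((j : ℕ) - i) else 0) • ((mt h j)ᴴ * mt k i))]
  rw [← Finset.sum_add_distrib, ← Finset.sum_sub_distrib]
  refine Finset.sum_congr rfl fun i _ => ?_
  rw [← Finset.sum_add_distrib, ← Finset.sum_sub_distrib]
  refine Finset.sum_congr rfl fun j _ => ?_
  rw [Matrix.conjTranspose_smul, Matrix.smul_mul, Matrix.mul_smul, smul_smul]
  have h4 : (if (j : ℕ) = (i : ℕ) + ((0 : Fin (d + 1)) : ℕ) then (mt h i)ᴴ * mt k j else 0) =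
      (if (j : ℕ) = i then (1 : ℂ) else 0) • ((mt h i)ᴴ * mt k j) := by
    simp
  rw [h4, ← add_smul, ← sub_smul]
  congr 1
  rw [Complex.star_def, map_pow]
  rcases lt_trichotomy (i : ℕ) j with hij | hij | hij
  · rw [if_pos hij.le, if_neg (by omega), if_neg (by omega), conj_pow_mul hz hij.le]
    ring
  · rw [hij, if_pos le_rfl, if_pos le_rfl, if_pos rfl, conj_pow_mul hz le_rfl]
    simp
  · rw [if_neg (by omega), if_pos hij.le, if_neg (by omega)]
    have h5 := conj_pow_mul (z := conj z) (by simpa using hz) hij.le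
    rw [Complex.conj_conj] at h5
    rw [mul_comm, h5]
    ring

/-! ### Polynomial entries -/

/-- the polynomial matrix -/
def pm (h : V r d) : Matrix (Fin r) (Fin r) (Polynomial ℂ) :=
  Matrix.of fun a b => ∑ j : Fin (d + 1), Polynomial.C (h j a b) * Polynomial.X ^ (j : ℕ)

theorem ev_pm (h : V r d) (z : ℂ) : ev h z = (Polynomial.evalRingHom z).mapMatrix (pm h) := by
  ext a b
  simp only [ev, mt, pm, Matrix.sum_apply, Matrix.smul_apply, Matrix.of_apply,
    RingHom.mapMatrix_apply, Matrix.map_apply, Polynomial.coe_evalRingHom, smul_eq_mul]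
  rw [Polynomial.eval_finsetSum]
  refine Finset.sum_congr rfl fun j _ => ?_
  rw [Polynomial.eval_mul, Polynomial.eval_C, Polynomial.eval_pow, Polynomial.eval_X, mul_comm]

theorem det_ev (h : V r d) (z : ℂ) : (ev h z).det = (pm h).det.eval z := by
  rw [ev_pm, ← RingHom.map_det]
  rfl

theorem mul_adj_ev (h k : V r d) (z : ℂ) (a b : Fin r) :
    (ev k z * adjugate (ev h z)) a b = ((pm k * adjugate (pm h)) a b).eval z := by
  rw [ev_pm, ev_pm, ← RingHom.map_adjugate, ← map_mul]
  rfl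

theorem inv_entry (h k : V r d) (z : ℂ) (a b : Fin r) :
    (ev k z * (ev h z)⁻¹) a b =
      ((pm k * adjugate (pm h)) a b).eval z * ((pm h).det.eval z)⁻¹ := by
  rw [Matrix.inv_def, Matrix.mul_smul, Matrix.smul_apply, mul_adj_ev, det_ev,
    Ring.inverse_eq_inv', smul_eq_mul, mul_comm]

theorem ev_eq_zero {k : V r d} (hk : ∀ z ∈ closedBall (0 : ℂ) 1, ev k z = 0) : k = 0 := by
  funext i a b
  have h1 : pm k a b = 0 := by
    apply Polynomial.eq_zero_of_infinite_isRoot
    refine Set.Infinite.mono (s := closedBall (0 : ℂ) 1) ?_ ?_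
    · intro z hz
      have h2 := congrFun (congrFun (hk z hz) a) b
      rw [ev_pm] at h2
      exact h2
    · exact infinite_of_mem_nhds (0 : ℂ) (closedBall_mem_nhds 0 one_pos)
  have h4 := congrArg (fun P => Polynomial.coeff P (i : ℕ)) h1
  simp only [pm, Matrix.of_apply, Polynomial.finsetSum_coeff, Polynomial.coeff_C_mul,
    Polynomial.coeff_X_pow, Polynomial.coeff_zero, mul_ite, mul_one, mul_zero] at h4
  rw [Finset.sum_eq_single i] at h4
  · simpa using h4
  · intro j _ hj
    rw [if_neg]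
    intro h5
    exact hj (Fin.ext h5.symm)
  · simp

theorem ker {h k : V r d} (hh : ∀ z ∈ closedBall (0 : ℂ) 1, (ev h z).det ≠ 0)
    (hk : ∀ z ∈ sphere (0 : ℂ) 1, (ev h z)ᴴ * ev k z + (ev k z)ᴴ * ev h z = 0) :
    ∃ S : M r, Sᴴ = -S ∧ ∀ z ∈ closedBall (0 : ℂ) 1, ev k z = S * ev h z := by
  have hcl : closure (ball (0 : ℂ) 1) = closedBall 0 1 := closure_ball 0 one_ne_zero
  have hdiff : ∀ a b, DiffContOnCl ℂ (fun z => (ev k z * (ev h z)⁻¹) a b) (ball 0 1) := by
    intro a b
    have h1 : DifferentiableOn ℂ (fun z => (ev k z * (ev h z)⁻¹) a b) (closedBall 0 1) := by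
      refine DifferentiableOn.congr (f := fun z =>
        ((pm k * adjugate (pm h)) a b).eval z * ((pm h).det.eval z)⁻¹) ?_
        (fun z _ => inv_entry h k z a b)
      refine DifferentiableOn.mul (Polynomial.differentiable _).differentiableOn ?_
      refine DifferentiableOn.inv (Polynomial.differentiable _).differentiableOn ?_
      intro z hz
      rw [← det_ev]
      exact hh z hz
    exact DifferentiableOn.diffContOnCl (hcl ▸ h1)
  have hunit : ∀ z ∈ closedBall (0 : ℂ) 1, IsUnit (ev h z).det := fun z hz => (hh z hz).isUnit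
  have hsk : ∀ z ∈ sphere (0 : ℂ) 1,
      ev k z * (ev h z)⁻¹ + (ev k z * (ev h z)⁻¹)ᴴ = 0 := by
    intro z hz
    have hu := hunit z (sphere_subset_closedBall hz)
    have hu' : IsUnit ((ev h z)ᴴ).det := by
      rw [Matrix.det_conjTranspose]
      exact hu.star
    have h1 := hk z hz
    have h2 : ((ev h z)ᴴ)⁻¹ * ((ev h z)ᴴ * ev k z + (ev k z)ᴴ * ev h z) * (ev h z)⁻¹ = 0 := by
      rw [h1]; simp
    rw [Matrix.mul_add, ← Matrix.mul_assoc, Matrix.nonsing_inv_mul _ hu', Matrix.one_mul,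
      Matrix.add_mul, Matrix.mul_assoc, Matrix.mul_assoc, Matrix.mul_nonsing_inv _ hu,
      Matrix.mul_one] at h2
    rw [Matrix.conjTranspose_mul, Matrix.conjTranspose_nonsing_inv]
    exact h2
  have hsk' : ∀ z ∈ sphere (0 : ℂ) 1, ∀ a b,
      (ev k z * (ev h z)⁻¹) a b = - conj ((ev k z * (ev h z)⁻¹) b a) := by
    intro z hz a b
    have h1 := congrFun (congrFun (hsk z hz) a) b
    rw [Matrix.add_apply, Matrix.conjTranspose_apply, Matrix.zero_apply] at h1
    exact eq_neg_of_add_eq_zero_left h1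
  have hconst : ∀ z ∈ closedBall (0 : ℂ) 1, ∀ a b,
      (ev k z * (ev h z)⁻¹) a b = (ev k 0 * (ev h 0)⁻¹) a b := by
    intro z hz a b
    have c1 := re_zero ((hdiff a b).add (hdiff b a)) (by
      intro w hw
      simp only [Pi.add_apply, Complex.add_re]
      rw [hsk' w hw a b]
      simp) z hz
    have c2 := re_zero (((hdiff a b).sub (hdiff b a)).const_smul Complex.I) (by
      intro w hw
      simp only [Pi.smul_apply, Pi.sub_apply, smul_eq_mul]
      rw [hsk' w hw a b]
      simp) z hz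
    simp only [Pi.add_apply, Pi.smul_apply, Pi.sub_apply, smul_eq_mul] at c1 c2
    have c3 := mul_left_cancel₀ Complex.I_ne_zero c2
    linear_combination (c1 + c3) / 2
  refine ⟨ev k 0 * (ev h 0)⁻¹, ?_, ?_⟩
  · have h1 := hsk 1 (by simp)
    have h2 : ev k 1 * (ev h 1)⁻¹ = ev k 0 * (ev h 0)⁻¹ := by
      ext a b
      exact hconst 1 (by simp) a b
    rw [h2] at h1
    exact eq_neg_of_add_eq_zero_right h1
  · intro z hz
    have h2 : ev k z * (ev h z)⁻¹ = ev k 0 * (ev h 0)⁻¹ := by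
      ext a b
      exact hconst z hz a b
    rw [← h2, Matrix.mul_assoc, Matrix.nonsing_inv_mul _ (hunit z hz), Matrix.mul_one]

/-! ### The bilinear map -/

theorem mt_add (h k : V r d) (j : Fin (d + 1)) : mt (h + k) j = mt h j + mt k j := rfl

theorem mt_zero (j : Fin (d + 1)) : mt (0 : V r d) j = 0 := rfl

theorem mt_smul (t : ℝ) (h : V r d) (j : Fin (d + 1)) : mt (t • h) j = (t : ℂ) • mt h j := by
  ext a b
  simp [mt]

theorem mt_ext {h k : V r d} (hk : ∀ m, mt h m = mt k m) : h = k := by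
  funext m
  exact hk m

theorem ev_add (h k : V r d) (z : ℂ) : ev (h + k) z = ev h z + ev k z := by
  simp only [ev, mt_add, smul_add, Finset.sum_add_distrib]

theorem ev_smul (t : ℝ) (h : V r d) (z : ℂ) : ev (t • h) z = (t : ℂ) • ev h z := by
  simp only [ev, mt_smul, Finset.smul_sum]
  exact Finset.sum_congr rfl fun j _ => smul_comm _ _ _

theorem ev_zero' (z : ℂ) : ev (0 : V r d) z = 0 := by
  simp [ev, mt_zero]

theorem ev_at_zero (h : V r d) : ev h 0 = mt h 0 := by
  unfold ev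
  rw [Finset.sum_eq_single 0]
  · simp
  · intro j _ hj
    rw [zero_pow, zero_smul]
    intro h0
    exact hj (Fin.ext h0)
  · simp

theorem bt_add_left (h h' k : V r d) : bt (h + h') k = bt h k + bt h' k := by
  refine mt_ext fun m => ?_
  rw [mt_add, mt_bt, mt_bt, mt_bt, ← Finset.sum_add_distrib]
  refine Finset.sum_congr rfl fun i _ => ?_
  rw [← Finset.sum_add_distrib]
  refine Finset.sum_congr rfl fun j _ => ?_
  split_ifs
  · rw [mt_add, Matrix.conjTranspose_add, Matrix.add_mul]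
  · simp

theorem bt_add_right (h k k' : V r d) : bt h (k + k') = bt h k + bt h k' := by
  refine mt_ext fun m => ?_
  rw [mt_add, mt_bt, mt_bt, mt_bt, ← Finset.sum_add_distrib]
  refine Finset.sum_congr rfl fun i _ => ?_
  rw [← Finset.sum_add_distrib]
  refine Finset.sum_congr rfl fun j _ => ?_
  split_ifs
  · rw [mt_add, Matrix.mul_add]
  · simp

theorem bt_smul_left (t : ℝ) (h k : V r d) : bt (t • h) k = t • bt h k := by
  refine mt_ext fun m => ?_
  rw [mt_smul, mt_bt, mt_bt, Finset.smul_sum]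
  refine Finset.sum_congr rfl fun i _ => ?_
  rw [Finset.smul_sum]
  refine Finset.sum_congr rfl fun j _ => ?_
  split_ifs
  · rw [mt_smul, Matrix.conjTranspose_smul, Matrix.smul_mul, Complex.star_def, Complex.conj_ofReal]
  · simp

theorem bt_smul_right (t : ℝ) (h k : V r d) : bt h (t • k) = t • bt h k := by
  refine mt_ext fun m => ?_
  rw [mt_smul, mt_bt, mt_bt, Finset.smul_sum]
  refine Finset.sum_congr rfl fun i _ => ?_
  rw [Finset.smul_sum]
  refine Finset.sum_congr rfl fun j _ => ?_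
  split_ifs
  · rw [mt_smul, Matrix.mul_smul]
  · simp

/-- the bilinear map -/
def BB (r d : ℕ) : V r d →L[ℝ] V r d →L[ℝ] V r d :=
  (LinearMap.mk₂ ℝ bt bt_add_left bt_smul_left bt_add_right bt_smul_right).toContinuousBilinearMap

theorem BB_apply (h k : V r d) : BB r d h k = bt h k := rfl

/-- the skew part of `h(0) a` -/
def nu (a : M r) (h : V r d) : M r := (1 / 2 : ℂ) • (mt h 0 * a - (mt h 0 * a)ᴴ)

/-- the gauge fixing term -/
def nuV (a : M r) : V r d →ₗ[ℝ] V r d where
  toFun h := fun m => if m = 0 then (nu a h : Fin r → Fin r → ℂ) else 0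
  map_add' h k := by
    refine mt_ext fun m => ?_
    rw [mt_add]
    simp only [mt]
    split_ifs
    · show nu a (h + k) = nu a h + nu a k
      simp only [nu, mt_add, Matrix.add_mul, Matrix.conjTranspose_add]
      rw [← smul_add]
      congr 1
      abel
    · exact (add_zero _).symm
  map_smul' t h := by
    refine mt_ext fun m => ?_
    rw [RingHom.id_apply, mt_smul]
    simp only [mt]
    split_ifs
    · show nu a (t • h) = (t : ℂ) • nu a h
      simp only [nu, mt_smul, Matrix.smul_mul, Matrix.conjTranspose_smul, Complex.star_def,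
        Complex.conj_ofReal]
      rw [← smul_sub, smul_comm]
    · exact (smul_zero _).symm

theorem mt_nuV (a : M r) (h : V r d) (m : Fin (d + 1)) :
    mt (nuV a h) m = if m = 0 then nu a h else 0 := by
  show Matrix.of (if m = 0 then (nu a h : Fin r → Fin r → ℂ) else 0) = _
  split_ifs <;> rfl

theorem nu_skew (a : M r) (h : V r d) : (nu a h)ᴴ = - nu a h := by
  unfold nu
  rw [Matrix.conjTranspose_smul, Matrix.conjTranspose_sub, Matrix.conjTranspose_conjTranspose,
    ← smul_neg, neg_sub]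
  simp

theorem bt_zero (h k : V r d) : mt (bt h k) 0 = ∑ i : Fin (d + 1), (mt h i)ᴴ * mt k i := by
  rw [mt_bt]
  refine Finset.sum_congr rfl fun i _ => ?_
  rw [Finset.sum_eq_single i]
  · simp
  · intro j _ hj
    rw [if_neg]
    intro h1
    apply hj
    ext
    simpa using h1
  · simp

theorem bt_zero_adj (h k : V r d) : (mt (bt h k) 0)ᴴ = mt (bt k h) 0 := by
  rw [bt_zero, bt_zero, Matrix.conjTranspose_sum]
  refine Finset.sum_congr rfl fun i _ => ?_
  rw [Matrix.conjTranspose_mul, Matrix.conjTranspose_conjTranspose]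

/-- skew parts and Hermitian parts -/
theorem skew_herm {X Y : M r} (hX : Xᴴ = X) (hY : Yᴴ = -Y) (h : X + Y = 0) : X = 0 ∧ Y = 0 := by
  have h1 : X - Y = 0 := by
    have := congrArg Matrix.conjTranspose h
    rw [Matrix.conjTranspose_add, hX, hY, Matrix.conjTranspose_zero] at this
    rw [sub_eq_add_neg]; exact this
  have h2 : (2 : ℂ) • X = 0 := by
    rw [two_smul]
    calc X + X = (X + Y) + (X - Y) := by abel
      _ = 0 := by rw [h, h1, add_zero]
  have h3 : X = 0 := by
    rcases smul_eq_zero.1 h2 with h4 | h4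
    · norm_num at h4
    · exact h4
  refine ⟨h3, ?_⟩
  rw [h3, zero_add] at h
  exact h

theorem deriv_inj {h k : V r d} (hh : ∀ z ∈ closedBall (0 : ℂ) 1, (ev h z).det ≠ 0)
    (hk : bt h k + bt k h + nuV (mt h 0)⁻¹ k = 0) : k = 0 := by
  have h0 : mt (bt h k + bt k h) 0 + nu (mt h 0)⁻¹ k = 0 := by
    have := congrArg (fun x => mt x 0) hk
    simp only [mt_add, mt_nuV, if_true, mt_zero] at this ⊢
    exact this
  obtain ⟨h1, h2⟩ := skew_herm (by
    rw [mt_add, Matrix.conjTranspose_add, bt_zero_adj, bt_zero_adj, add_comm]) (nu_skew _ _) h0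
  have h3 : bt h k + bt k h = 0 := by
    refine mt_ext fun m => ?_
    rw [mt_zero]
    by_cases hm : m = 0
    · rw [hm]; exact h1
    · have := congrArg (fun x => mt x m) hk
      simp only [mt_add, mt_nuV, if_neg hm, mt_zero, add_zero] at this ⊢
      exact this
  obtain ⟨S, hS, hS2⟩ := ker (k := k) hh (by
    intro z hz
    have hz' : ‖z‖ = 1 := by simpa using hz
    rw [ev_mul h k hz', ev_mul k h hz']
    have e1 : ev (bt h k) z + ev (bt k h) z = 0 := by rw [← ev_add, h3, ev_zero']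
    have e2 : (ev (bt k h) z)ᴴ + (ev (bt h k) z)ᴴ = 0 := by
      rw [← Matrix.conjTranspose_add, add_comm, e1, Matrix.conjTranspose_zero]
    have e3 : mt (bt h k) 0 + mt (bt k h) 0 = 0 := by
      rw [← mt_add, h3, mt_zero]
    calc _ = (ev (bt h k) z + ev (bt k h) z) + ((ev (bt k h) z)ᴴ + (ev (bt h k) z)ᴴ) -
          (mt (bt h k) 0 + mt (bt k h) 0) := by abel
      _ = 0 := by rw [e1, e2, e3]; simp)
  have hu : IsUnit (mt h 0).det := by
    have := hh 0 (by simp)
    rw [ev_at_zero] at this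
    exact this.isUnit
  have h4 : mt k 0 * (mt h 0)⁻¹ = S := by
    have := hS2 0 (by simp)
    rw [ev_at_zero, ev_at_zero] at this
    rw [this, Matrix.mul_assoc, Matrix.mul_nonsing_inv _ hu, Matrix.mul_one]
  have h5 : S = 0 := by
    unfold nu at h2
    rw [h4, hS, sub_neg_eq_add, ← two_smul ℂ, smul_smul] at h2
    simpa using h2
  refine ev_eq_zero fun z hz => ?_
  rw [hS2 z hz, h5, Matrix.zero_mul]

/-! ### Openness -/

/-- the map with gauge fixing -/
def Psi (a : M r) (h : V r d) : V r d := bt h h + nuV a h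

theorem Psi_open {h : V r d} (hh : ∀ z ∈ closedBall (0 : ℂ) 1, (ev h z).det ≠ 0) :
    map (Psi (mt h 0)⁻¹) (𝓝 h) = 𝓝 (Psi (mt h 0)⁻¹ h) := by
  have h1 : HasStrictFDerivAt (fun k : V r d => BB r d k k)
      ((BB r d).precompR (V r d) h (ContinuousLinearMap.id ℝ (V r d)) +
        (BB r d).precompL (V r d) (ContinuousLinearMap.id ℝ (V r d)) h) h :=
    (BB r d).hasStrictFDerivAt_of_bilinear (hasStrictFDerivAt_id h) (hasStrictFDerivAt_id h)
  have h2 : HasStrictFDerivAt (fun k : V r d => nuV (mt h 0)⁻¹ k)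
      (LinearMap.toContinuousLinearMap (nuV (mt h 0)⁻¹)) h :=
    (LinearMap.toContinuousLinearMap (nuV (mt h 0)⁻¹)).hasStrictFDerivAt
  have h3 := h1.add h2
  refine HasStrictFDerivAt.map_nhds_eq_of_surj h3 ?_
  have h4 : Function.Injective
      (((BB r d).precompR (V r d) h (ContinuousLinearMap.id ℝ (V r d)) +
        (BB r d).precompL (V r d) (ContinuousLinearMap.id ℝ (V r d)) h +
        LinearMap.toContinuousLinearMap (nuV (mt h 0)⁻¹) : V r d →L[ℝ] V r d) :
          V r d →ₗ[ℝ] V r d) := by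
    rw [injective_iff_map_eq_zero]
    intro k hk
    refine deriv_inj hh ?_
    exact hk
  have h5 := LinearMap.injective_iff_surjective.1 h4
  exact LinearMap.range_eq_top.2 h5

theorem nu_self {h : V r d} (hu : IsUnit (mt h 0).det) : nu (mt h 0)⁻¹ h = 0 := by
  unfold nu
  rw [Matrix.mul_nonsing_inv _ hu]
  simp

theorem nearby {h : V r d} (hh : ∀ z ∈ closedBall (0 : ℂ) 1, (ev h z).det ≠ 0) {s : Set (V r d)}
    (hs : s ∈ 𝓝 h) : ∀ᶠ e in 𝓝 (bt h h), (mt e 0)ᴴ = mt e 0 → ∃ k ∈ s, bt k k = e := by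
  have hu : IsUnit (mt h 0).det := by
    have := hh 0 (by simp)
    rw [ev_at_zero] at this
    exact this.isUnit
  have h1 : Psi (mt h 0)⁻¹ h = bt h h := by
    refine mt_ext fun m => ?_
    rw [Psi, mt_add, mt_nuV]
    split_ifs
    · rw [nu_self hu, add_zero]
    · rw [add_zero]
  have h2 : Psi (mt h 0)⁻¹ '' s ∈ 𝓝 (bt h h) := by
    rw [← h1, ← Psi_open hh]
    exact image_mem_map hs
  filter_upwards [h2] with e he hherm
  obtain ⟨k, hk, rfl⟩ := he
  refine ⟨k, hk, ?_⟩
  have h3 : nu (mt h 0)⁻¹ k = 0 := by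
    unfold Psi at hherm
    rw [mt_add, mt_nuV, if_pos rfl, Matrix.conjTranspose_add, bt_zero_adj, nu_skew] at hherm
    have h4 : (2 : ℂ) • nu (mt h 0)⁻¹ k = 0 := by
      have h5 := add_left_cancel hherm
      rw [two_smul]
      nth_rewrite 1 [← h5]
      exact neg_add_cancel _
    rcases smul_eq_zero.1 h4 with h6 | h6
    · norm_num at h6
    · exact h6
  refine mt_ext fun m => ?_
  rw [Psi, mt_add, mt_nuV]
  split_ifs
  · rw [h3, add_zero]
  · rw [add_zero]

/-! ### Continuity -/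

theorem ev_apply (h : V r d) (z : ℂ) (a b : Fin r) :
    ev h z a b = ∑ j : Fin (d + 1), z ^ (j : ℕ) * h j a b := by
  simp only [ev, Matrix.sum_apply, Matrix.smul_apply, smul_eq_mul]
  rfl

theorem continuous_entry {X : Type} [TopologicalSpace X] {f : X → V r d} {g : X → ℂ}
    (hf : Continuous f) (hg : Continuous g) (a b : Fin r) :
    Continuous fun x => ev (f x) (g x) a b := by
  simp only [ev_apply]
  refine continuous_finsetSum _ fun j _ => (hg.pow _).mul ?_
  have h1 : Continuous fun h : V r d => h j a b := by fun_prop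
  exact h1.comp hf

theorem continuous_det_of_entries {X : Type} [TopologicalSpace X] {A : X → M r}
    (hA : ∀ a b, Continuous fun x => A x a b) : Continuous fun x => (A x).det := by
  simp only [Matrix.det_apply]
  refine continuous_finsetSum _ fun σ _ => ?_
  refine Continuous.const_smul ?_ _
  exact continuous_finsetProd _ fun i _ => hA _ _

theorem eventually_det {h : V r d} (hh : ∀ z ∈ closedBall (0 : ℂ) 1, (ev h z).det ≠ 0) :
    ∀ᶠ k in 𝓝 h, ∀ z ∈ closedBall (0 : ℂ) 1, (ev k z).det ≠ 0 := by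
  refine (isCompact_closedBall (0 : ℂ) 1).eventually_forall_of_forall_eventually
    (P := fun k z => (ev k z).det ≠ 0) ?_
  intro z hz
  have hc : Continuous fun p : V r d × ℂ => (ev p.1 p.2).det :=
    continuous_det_of_entries fun a b => continuous_entry continuous_fst continuous_snd a b
  exact hc.continuousAt.eventually_ne (hh z hz)

/-! ### The path -/

/-- the constant polynomial `1` -/
def e1 (r d : ℕ) : V r d := fun m => if m = 0 then ((1 : M r) : Fin r → Fin r → ℂ) else 0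

theorem mt_e1 (m : Fin (d + 1)) : mt (e1 r d) m = if m = 0 then 1 else 0 := by
  show Matrix.of (if m = 0 then ((1 : M r) : Fin r → Fin r → ℂ) else 0) = _
  split_ifs <;> rfl

theorem ev_e1 (z : ℂ) : ev (e1 r d) z = 1 := by
  unfold ev
  rw [Finset.sum_eq_single 0]
  · simp [mt_e1]
  · intro j _ hj
    rw [mt_e1, if_neg hj, smul_zero]
  · simp

theorem bt_e1 : bt (e1 r d) (e1 r d) = e1 r d := by
  refine mt_ext fun m => ?_
  rw [mt_bt, Finset.sum_eq_single 0]
  · rw [Finset.sum_eq_single 0]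
    · rw [mt_e1, mt_e1]
      by_cases hm : m = 0
      · simp [hm]
      · rw [if_neg hm, if_neg]
        simp only [Fin.val_zero, zero_add]
        intro h
        exact hm (Fin.ext h.symm)
    · intro j _ hj
      rw [mt_e1 j, if_neg hj]
      simp
    · simp
  · intro i _ hi
    refine Finset.sum_eq_zero fun j _ => ?_
    rw [mt_e1 i, if_neg hi]
    simp
  · simp

/-- the path -/
def et (e : V r d) (t : ℝ) : V r d := (1 - t) • e1 r d + t • e

/-- the function on the circle -/
def fn (e : V r d) (z : ℂ) : M r := ev e z + (ev e z)ᴴ - mt e 0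

theorem fn_et (e : V r d) (t : ℝ) (z : ℂ) :
    fn (et e t) z = ((1 - t : ℝ) : ℂ) • (1 : M r) + (t : ℂ) • fn e z := by
  unfold fn et
  rw [ev_add, ev_smul, ev_smul, mt_add, mt_smul, mt_smul, ev_e1, mt_e1, if_pos rfl,
    Matrix.conjTranspose_add, Matrix.conjTranspose_smul, Matrix.conjTranspose_smul,
    Matrix.conjTranspose_one, Complex.star_def, Complex.conj_ofReal,
    Complex.conj_ofReal, smul_sub, smul_add]
  abel

theorem fn_pos {e : V r d} (he : ∀ z ∈ sphere (0 : ℂ) 1, (fn e z).PosDef) {t : ℝ}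
    (ht : t ∈ Icc (0 : ℝ) 1) {z : ℂ} (hz : z ∈ sphere (0 : ℂ) 1) : (fn (et e t) z).PosDef := by
  rw [fn_et]
  rcases eq_or_lt_of_le ht.1 with h0 | h0
  · rw [← h0]
    simpa using (Matrix.PosDef.one : (1 : M r).PosDef)
  · have h1 : ((t : ℂ) • fn e z).PosDef := (he z hz).smul (by exact_mod_cast h0)
    have h2 : (((1 - t : ℝ) : ℂ) • (1 : M r)).PosSemidef :=
      Matrix.PosSemidef.one.smul (by exact_mod_cast sub_nonneg.2 ht.2)
    exact Matrix.PosDef.posSemidef_add h2 h1

theorem bt_fn {h : V r d} {z : ℂ} (hz : z ∈ sphere (0 : ℂ) 1) :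
    (ev h z)ᴴ * ev h z = fn (bt h h) z := ev_mul h h (by simpa using hz)

theorem det_bound (e : V r d) (he : ∀ z ∈ sphere (0 : ℂ) 1, (fn e z).PosDef) :
    ∃ δ > 0, ∀ t ∈ Icc (0 : ℝ) 1, ∀ z ∈ sphere (0 : ℂ) 1, δ ≤ ‖(fn (et e t) z).det‖ := by
  have hc : Continuous fun p : ℝ × ℂ => (fn (et e p.1) p.2).det := by
    refine continuous_det_of_entries fun a b => ?_
    have het : Continuous fun p : ℝ × ℂ => et e p.1 := by
      unfold et
      fun_prop
    have c1 := continuous_entry het continuous_snd a b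
    have c2 := continuous_entry het continuous_snd b a
    have c3 := continuous_entry het (continuous_const (y := (0 : ℂ))) a b
    simp only [fn, Matrix.sub_apply, Matrix.add_apply, Matrix.conjTranspose_apply, ← ev_at_zero]
    exact (c1.add (continuous_star.comp c2)).sub c3
  have hcpt : IsCompact (Icc (0 : ℝ) 1 ×ˢ sphere (0 : ℂ) 1) :=
    isCompact_Icc.prod (isCompact_sphere 0 1)
  obtain ⟨p, hp, hmin⟩ := hcpt.exists_isMinOn ⟨(0, 1), by simp⟩ hc.norm.continuousOn
  refine ⟨‖(fn (et e p.1) p.2).det‖, ?_, ?_⟩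
  · rw [gt_iff_lt, norm_pos_iff]
    exact (fn_pos he hp.1 hp.2).det_pos.ne'
  · intro t ht z hz
    exact isMinOn_iff.1 hmin (t, z) ⟨ht, hz⟩

/-- lower bound of the determinant inside the disc -/
theorem det_lower {h : V r d} {δ : ℝ} (hδ : 0 < δ)
    (hh : ∀ z ∈ closedBall (0 : ℂ) 1, (ev h z).det ≠ 0)
    (hb : ∀ z ∈ sphere (0 : ℂ) 1, δ ≤ ‖(fn (bt h h) z).det‖) :
    ∀ z ∈ closedBall (0 : ℂ) 1, Real.sqrt δ ≤ ‖(ev h z).det‖ := by
  have hcl : closure (ball (0 : ℂ) 1) = closedBall 0 1 := closure_ball 0 one_ne_zero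
  have hfr : frontier (ball (0 : ℂ) 1) = sphere 0 1 := frontier_ball 0 one_ne_zero
  have hs : ∀ z ∈ sphere (0 : ℂ) 1, Real.sqrt δ ≤ ‖(ev h z).det‖ := by
    intro z hz
    have h1 := hb z hz
    rw [← bt_fn hz, Matrix.det_mul, Matrix.det_conjTranspose, norm_mul, norm_star, ← sq] at h1
    exact Real.sqrt_le_iff.2 ⟨norm_nonneg _, h1⟩
  have hsq : 0 < Real.sqrt δ := Real.sqrt_pos.2 hδ
  have hd : DiffContOnCl ℂ (fun z => ((ev h z).det)⁻¹) (ball 0 1) := by
    have h1 : DifferentiableOn ℂ (fun z => ((ev h z).det)⁻¹) (closedBall 0 1) := by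
      simp only [det_ev]
      refine DifferentiableOn.inv (Polynomial.differentiable _).differentiableOn ?_
      intro z hz
      rw [← det_ev]
      exact hh z hz
    exact DifferentiableOn.diffContOnCl (hcl ▸ h1)
  intro z hz
  have h2 := Complex.norm_le_of_forall_mem_frontier_norm_le isBounded_ball hd
    (C := (Real.sqrt δ)⁻¹) (by
      intro w hw
      rw [hfr] at hw
      rw [norm_inv]
      exact inv_anti₀ hsq (hs w hw)) (hcl ▸ hz)
  rw [norm_inv] at h2
  exact (inv_le_inv₀ (norm_pos_iff.2 (hh z hz)) hsq).1 h2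

/-- coefficients are bounded -/
theorem coeff_bound (h : V r d) (j : Fin (d + 1)) (a b : Fin r) :
    ‖h j a b‖ ^ 2 ≤ (mt (bt h h) 0 b b).re := by
  rw [bt_zero, Matrix.sum_apply, Complex.re_sum]
  have h1 : ∀ i : Fin (d + 1), (((mt h i)ᴴ * mt h i) b b).re = ∑ a, ‖h i a b‖ ^ 2 := by
    intro i
    rw [Matrix.mul_apply, Complex.re_sum]
    refine Finset.sum_congr rfl fun a _ => ?_
    rw [Matrix.conjTranspose_apply, Complex.star_def]
    show (conj (h i a b) * h i a b).re = _
    rw [mul_comm, Complex.mul_conj, Complex.normSq_eq_norm_sq, Complex.ofReal_re]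
  simp only [h1]
  calc ‖h j a b‖ ^ 2 ≤ ∑ a, ‖h j a b‖ ^ 2 :=
        Finset.single_le_sum (f := fun a => ‖h j a b‖ ^ 2) (fun _ _ => by positivity)
          (Finset.mem_univ a)
    _ ≤ ∑ i, ∑ a, ‖h i a b‖ ^ 2 :=
        Finset.single_le_sum (f := fun i => ∑ a, ‖h i a b‖ ^ 2)
          (fun _ _ => Finset.sum_nonneg fun _ _ => by positivity) (Finset.mem_univ j)

theorem main (e : V r d) (he0 : (mt e 0)ᴴ = mt e 0)
    (he : ∀ z ∈ sphere (0 : ℂ) 1, (fn e z).PosDef) :
    ∃ h : V r d, (∀ z ∈ closedBall (0 : ℂ) 1, (ev h z).det ≠ 0) ∧ bt h h = e := by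
  obtain ⟨δ, hδ, hδ'⟩ := det_bound e he
  have hsq : 0 < Real.sqrt δ := Real.sqrt_pos.2 hδ
  have hetc : Continuous fun t : ℝ => et e t := by
    unfold et
    fun_prop
  -- the compact set of solutions
  set K : Set (ℝ × V r d) := {p | p.1 ∈ Icc (0 : ℝ) 1 ∧ bt p.2 p.2 = et e p.1 ∧
    ∀ z ∈ closedBall (0 : ℂ) 1, Real.sqrt δ ≤ ‖(ev p.2 z).det‖} with hK
  have hKc : IsClosed K := by
    have c1 : IsClosed {p : ℝ × V r d | p.1 ∈ Icc (0 : ℝ) 1} := isClosed_Icc.preimage continuous_fst
    have c2 : IsClosed {p : ℝ × V r d | bt p.2 p.2 = et e p.1} := by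
      refine isClosed_eq ?_ (hetc.comp continuous_fst)
      have : Continuous fun k : V r d => BB r d k k := (BB r d).continuous.clm_apply continuous_id
      exact this.comp continuous_snd
    have c3 : IsClosed {p : ℝ × V r d | ∀ z ∈ closedBall (0 : ℂ) 1,
        Real.sqrt δ ≤ ‖(ev p.2 z).det‖} := by
      simp only [ofPred_forall]
      refine isClosed_biInter fun z _ => ?_
      refine isClosed_le continuous_const ?_
      exact (continuous_det_of_entries fun a b =>
        continuous_entry continuous_snd continuous_const a b).norm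
    exact c1.inter (c2.inter c3)
  obtain ⟨R, hR0, hR⟩ : ∃ R : ℝ, 0 ≤ R ∧ ∀ t ∈ Icc (0 : ℝ) 1, ∀ b, (mt (et e t) 0 b b).re ≤ R ^ 2 := by
    have hc : ∀ b, Continuous fun t : ℝ => (mt (et e t) 0 b b).re := by
      intro b
      simp only [← ev_at_zero]
      exact Complex.continuous_re.comp (continuous_entry hetc continuous_const b b)
    have h1 : ∀ b, ∃ C, ∀ t ∈ Icc (0 : ℝ) 1, (mt (et e t) 0 b b).re ≤ C := by
      intro b
      obtain ⟨C, hC⟩ := (isCompact_Icc (a := (0 : ℝ)) (b := 1)).bddAbove_image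
        (hc b).continuousOn
      exact ⟨C, fun t ht => hC (mem_image_of_mem _ ht)⟩
    choose C hC using h1
    refine ⟨Real.sqrt (∑ b, |C b|), Real.sqrt_nonneg _, fun t ht b => ?_⟩
    rw [Real.sq_sqrt (Finset.sum_nonneg fun _ _ => abs_nonneg _)]
    calc _ ≤ C b := hC b t ht
      _ ≤ |C b| := le_abs_self _
      _ ≤ _ := Finset.single_le_sum (f := fun b => |C b|) (fun _ _ => abs_nonneg _)
        (Finset.mem_univ b)
  have hKcpt : IsCompact K := by
    have hbox : IsCompact (Icc (0 : ℝ) 1 ×ˢ closedBall (0 : V r d) R) :=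
      isCompact_Icc.prod (isCompact_closedBall (0 : V r d) R)
    refine hbox.of_isClosed_subset hKc ?_
    rintro ⟨t, h⟩ ⟨h1, h2, _⟩
    refine ⟨h1, ?_⟩
    rw [mem_closedBall_zero_iff]
    refine (pi_norm_le_iff_of_nonneg hR0).2 fun j => (pi_norm_le_iff_of_nonneg hR0).2 fun a =>
      (pi_norm_le_iff_of_nonneg hR0).2 fun b => ?_
    have h3 := coeff_bound h j a b
    rw [h2] at h3
    have h4 := hR t h1 b
    exact abs_le_of_sq_le_sq' (h3.trans h4) hR0 |>.2
  have hScl : IsClosed (Prod.fst '' K) := (hKcpt.image continuous_fst).isClosed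
  have hS0 : (0 : ℝ) ∈ Prod.fst '' K := by
    refine ⟨(0, e1 r d), ⟨by simp, ?_, ?_⟩, rfl⟩
    · simp [et, bt_e1]
    · refine det_lower hδ (fun z _ => by simp [ev_e1]) ?_
      intro z hz
      have := hδ' 0 (by simp) z hz
      simpa [et, bt_e1] using this
  have hS : Icc (0 : ℝ) 1 ⊆ Prod.fst '' K := by
    refine IsClosed.Icc_subset_of_forall_mem_nhdsWithin (hScl.inter isClosed_Icc) hS0 ?_
    rintro t ⟨⟨⟨t', h⟩, ⟨h1, h2, h3⟩, rfl⟩, ht⟩
    simp only at h1 h2 h3 ht ⊢
    have hdet : ∀ z ∈ closedBall (0 : ℂ) 1, (ev h z).det ≠ 0 := by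
      intro z hz h0
      have := h3 z hz
      rw [h0, norm_zero] at this
      linarith
    have h4 := nearby hdet (eventually_det hdet)
    rw [h2] at h4
    have h5 : ∀ᶠ s in 𝓝 t', (mt (et e s) 0)ᴴ = mt (et e s) 0 →
        ∃ k ∈ {k : V r d | ∀ z ∈ closedBall (0 : ℂ) 1, (ev k z).det ≠ 0}, bt k k = et e s :=
      hetc.continuousAt.eventually h4
    have h6 : ∀ᶠ s in 𝓝[>] t', s < 1 := by
      have := Ioo_mem_nhdsGT ht.2
      filter_upwards [this] with s hs using hs.2
    have h7 : ∀ᶠ s in 𝓝[>] t', t' < s := eventually_mem_nhdsWithin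
    filter_upwards [h6, h7, h5.filter_mono nhdsWithin_le_nhds] with s hs1 hs2 hs3
    have hsI : s ∈ Icc (0 : ℝ) 1 := ⟨ht.1.trans hs2.le, hs1.le⟩
    obtain ⟨k, hk, hk2⟩ := hs3 (by
      unfold et
      rw [mt_add, mt_smul, mt_smul, Matrix.conjTranspose_add, Matrix.conjTranspose_smul,
        Matrix.conjTranspose_smul, he0, mt_e1, if_pos rfl, Matrix.conjTranspose_one,
        Complex.star_def, Complex.conj_ofReal, Complex.conj_ofReal])
    refine ⟨(s, k), ⟨hsI, hk2, ?_⟩, rfl⟩
    refine det_lower hδ hk ?_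
    intro z hz
    rw [hk2]
    exact hδ' s hsI z hz
  obtain ⟨⟨t', h⟩, ⟨h1, h2, h3⟩, h4⟩ := hS (show (1 : ℝ) ∈ Icc (0 : ℝ) 1 by simp)
  simp only at h1 h2 h3 h4
  refine ⟨h, ?_, ?_⟩
  · intro z hz h0
    have := h3 z hz
    rw [h0, norm_zero] at this
    linarith
  · rw [h2, h4]
    simp [et]

/-! ### Laurent polynomials -/

theorem sum_Icc_int {E : Type} [AddCommGroup E] (f : ℤ → E) (n : ℕ) :
    ∑ k ∈ Finset.Icc (-(n : ℤ)) n, f k =
      (∑ k ∈ Finset.range (n + 1), f k) + (∑ k ∈ Finset.range (n + 1), f (-(k : ℤ))) - f 0 := by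
  induction n with
  | zero => simp
  | succ n ih =>
    have h1 : Finset.Icc (-((n + 1 : ℕ) : ℤ)) ((n + 1 : ℕ) : ℤ) =
        insert ((n + 1 : ℕ) : ℤ) (insert (-((n + 1 : ℕ) : ℤ)) (Finset.Icc (-(n : ℤ)) n)) := by
      ext k
      simp only [Finset.mem_Icc, Finset.mem_insert]
      push_cast
      omega
    rw [h1, Finset.sum_insert, Finset.sum_insert, ih, Finset.sum_range_succ _ (n + 1),
      Finset.sum_range_succ (fun k : ℕ => f (-(k : ℤ))) (n + 1)]
    · abel
    · simp only [Finset.mem_Icc]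
      push_cast
      omega
    · simp only [Finset.mem_Icc, Finset.mem_insert]
      push_cast
      omega

/-- the symmetrised coefficients -/
def sym (d : ℕ) (c : ℤ → M r) : V r d := fun m =>
  ((1 / 2 : ℂ) • (c (m : ℕ) + (c (-((m : ℕ) : ℤ)))ᴴ) : M r)

theorem mt_sym (c : ℤ → M r) (m : Fin (d + 1)) :
    mt (sym d c) m = (1 / 2 : ℂ) • (c (m : ℕ) + (c (-((m : ℕ) : ℤ)))ᴴ) := rfl

theorem Lp_eq (c : ℤ → M r) {z : ℂ} (hz : z ∈ sphere (0 : ℂ) 1) (hH : (Lp d c z)ᴴ = Lp d c z) :
    fn (sym d c) z = Lp d c z := by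
  have hz1 : ‖z‖ = 1 := by simpa using hz
  have hz0 : z ≠ 0 := by
    rintro rfl
    simp at hz1
  have hinv : ∀ k : ℕ, z ^ (-(k : ℤ)) = (conj z) ^ k := by
    intro k
    have h1 : conj z * z = 1 := by
      rw [mul_comm, Complex.mul_conj, Complex.normSq_eq_norm_sq, hz1]
      simp
    have h2 : z⁻¹ = conj z := (eq_inv_of_mul_eq_one_left h1).symm
    rw [_root_.zpow_neg, _root_.zpow_natCast, ← inv_pow, h2]
  -- the two halves
  have hL : Lp d c z = (∑ k ∈ Finset.range (d + 1), z ^ k • c k) +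
      (∑ k ∈ Finset.range (d + 1), (conj z) ^ k • c (-(k : ℤ))) - c 0 := by
    unfold Lp
    rw [sum_Icc_int]
    simp only [hinv, zpow_natCast, zpow_zero, one_smul]
  have hLH : (Lp d c z)ᴴ = (∑ k ∈ Finset.range (d + 1), (conj z) ^ k • (c k)ᴴ) +
      (∑ k ∈ Finset.range (d + 1), z ^ k • (c (-(k : ℤ)))ᴴ) - (c 0)ᴴ := by
    rw [hL]
    simp only [Matrix.conjTranspose_sub, Matrix.conjTranspose_add, Matrix.conjTranspose_sum,
      Matrix.conjTranspose_smul, star_pow, Complex.star_def, Complex.conj_conj]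
  have hev : ev (sym d c) z = (1 / 2 : ℂ) • ((∑ k ∈ Finset.range (d + 1), z ^ k • c k) +
      (∑ k ∈ Finset.range (d + 1), z ^ k • (c (-(k : ℤ)))ᴴ)) := by
    unfold ev
    rw [← Finset.sum_add_distrib, Finset.smul_sum, Finset.sum_range]
    refine Finset.sum_congr rfl fun j _ => ?_
    rw [mt_sym, ← smul_add, smul_comm]
  have hevH : (ev (sym d c) z)ᴴ = (1 / 2 : ℂ) • ((∑ k ∈ Finset.range (d + 1), (conj z) ^ k • (c k)ᴴ) +
      (∑ k ∈ Finset.range (d + 1), (conj z) ^ k • c (-(k : ℤ)))) := by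
    rw [hev]
    simp only [Matrix.conjTranspose_add, Matrix.conjTranspose_sum,
      Matrix.conjTranspose_smul, star_pow, Complex.star_def, Matrix.conjTranspose_conjTranspose]
    congr 1
    have : (starRingEnd ℂ) 2 = 2 := Complex.conj_ofNat 2
    simp [this]
  have hm : mt (sym d c) 0 = (1 / 2 : ℂ) • (c 0 + (c 0)ᴴ) := by
    rw [mt_sym]
    simp
  have h2 : Lp d c z = (1 / 2 : ℂ) • (Lp d c z + (Lp d c z)ᴴ) := by
    rw [hH, ← two_smul ℂ, smul_smul]
    norm_num
  rw [h2]
  unfold fn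
  rw [hevH, hev, hm, hLH, hL, ← smul_add, ← smul_sub]
  congr 1
  abel

end FACT

theorem fact_proof : Stmt_Fact := by
  intro r d c hc
  have hfn : ∀ z ∈ sphere (0 : ℂ) 1, FACT.fn (FACT.sym d c) z = Lp d c z := fun z hz =>
    FACT.Lp_eq c hz (hc z hz).1
  obtain ⟨h, h1, h2⟩ := FACT.main (FACT.sym d c) (by
    rw [FACT.mt_sym]
    simp only [Fin.val_zero, Nat.cast_zero, neg_zero, Matrix.conjTranspose_smul,
      Matrix.conjTranspose_add, Matrix.conjTranspose_conjTranspose]
    rw [add_comm]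
    congr 1
    simp) (fun z hz => by rw [hfn z hz]; exact hc z hz)
  refine ⟨FACT.ev h, ?_, ?_, ?_⟩
  · unfold FACT.ev
    refine Differentiable.fun_sum fun j _ => ?_
    exact (differentiable_id.pow _).smul_const _
  · intro z hz
    exact (Matrix.isUnit_iff_isUnit_det _).2 (h1 z hz).isUnit
  · intro z hz
    rw [FACT.bt_fn hz, h2, hfn z hz]

end Pool.Agent.HSC
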