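import Pool.Agent.HSC.Stmts2

set_option autoImplicit false

open scoped Matrix.Norms.Frobenius ContDiff Topology Manifold ComplexOrder ComplexConjugate
open Matrix Set Filter MeasureTheory Metric

noncomputable section

namespace Pool.Agent.HSC

universe u v

namespace FSub

/-- the index type -/
abbrev Pr (n : ℕ) := {p : ℕ × ℕ // n ≤ p.1 ∧ n ≤ p.2}

instance (n : ℕ) : Nonempty (Pr n) := ⟨⟨(n, n), le_refl n, le_refl n⟩⟩

/-- double limsup -/
def F (s : ℕ → ℕ → ℝ) : ℝ := ⨅ n : ℕ, ⨆ p : Pr n, s p.1.1 p.1.2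

structure Bdd (s : ℕ → ℕ → ℝ) (B : ℝ) : Prop where
  nn : ∀ m l, 0 ≤ s m l
  le : ∀ m l, s m l ≤ B

variable {s s' : ℕ → ℕ → ℝ} {B B' : ℝ}

theorem bddAbove (h : Bdd s B) (n : ℕ) : BddAbove (range fun p : Pr n => s p.1.1 p.1.2) :=
  ⟨B, by rintro _ ⟨p, rfl⟩; exact h.le _ _⟩

theorem sup_nonneg (h : Bdd s B) (n : ℕ) : 0 ≤ ⨆ p : Pr n, s p.1.1 p.1.2 :=
  Real.iSup_nonneg fun _ => h.nn _ _

theorem bddBelow (h : Bdd s B) : BddBelow (range fun n : ℕ => ⨆ p : Pr n, s p.1.1 p.1.2) :=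
  ⟨0, by rintro _ ⟨n, rfl⟩; exact sup_nonneg h n⟩

theorem F_nonneg (h : Bdd s B) : 0 ≤ F s := Real.iInf_nonneg fun n => sup_nonneg h n

theorem F_le_sup (h : Bdd s B) (n : ℕ) : F s ≤ ⨆ p : Pr n, s p.1.1 p.1.2 := ciInf_le (bddBelow h) n

theorem F_le (h : Bdd s B) : F s ≤ B :=
  (F_le_sup h 0).trans (ciSup_le fun _ => h.le _ _)

theorem F_le_add (h : Bdd s B) (h' : Bdd s' B') (n₀ : ℕ) (δ : ℝ)
    (hle : ∀ m l, n₀ ≤ m → n₀ ≤ l → s m l ≤ s' m l + δ) : F s ≤ F s' + δ := by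
  rw [← sub_le_iff_le_add]
  apply le_ciInf
  intro n
  rw [sub_le_iff_le_add]
  refine (F_le_sup h (max n n₀)).trans (ciSup_le fun p => ?_)
  have h1 := hle p.1.1 p.1.2 ((le_max_right _ _).trans p.2.1) ((le_max_right _ _).trans p.2.2)
  have h2 : s' p.1.1 p.1.2 ≤ ⨆ p : Pr n, s' p.1.1 p.1.2 :=
    le_ciSup (bddAbove h' n) (⟨p.1, (le_max_left _ _).trans p.2.1, (le_max_left _ _).trans p.2.2⟩ : Pr n)
  linarith

theorem F_eventually (h : Bdd s B) {ε : ℝ} (hε : 0 < ε) :
    ∃ n₀, ∀ m l, n₀ ≤ m → n₀ ≤ l → s m l ≤ F s + ε := by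
  obtain ⟨n, hn⟩ := exists_lt_of_ciInf_lt (show (⨅ n : ℕ, ⨆ p : Pr n, s p.1.1 p.1.2) < F s + ε by
    unfold F; linarith)
  refine ⟨n, fun m l hm hl => ?_⟩
  exact (le_ciSup (bddAbove h n) (⟨(m, l), hm, hl⟩ : Pr n)).trans hn.le

theorem F_exists (h : Bdd s B) {ε : ℝ} (hε : 0 < ε) (n : ℕ) :
    ∃ m l, n ≤ m ∧ n ≤ l ∧ F s - ε < s m l := by
  have h1 : F s - ε < ⨆ p : Pr n, s p.1.1 p.1.2 := by
    have := F_le_sup h n
    linarith
  obtain ⟨p, hp⟩ := exists_lt_of_lt_ciSup h1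
  exact ⟨p.1.1, p.1.2, p.2.1, p.2.2, hp⟩

section

variable {X : Type u} [TopologicalSpace X] [ChartedSpace ℂ X] {r : ℕ} {E : HiggsBundle.{u, v} X r}

theorem fX_eq (H : ℕ → E.ι → X → M r) (x : X) :
    fX E H x = F (fun m l => dX E (H m) (H l) x) := rfl

/-- frame independence -/
theorem dX_eq (hDT : Stmt_DT) {h h' : E.ι → X → M r} (hm : MetX E univ h) (hm' : MetX E univ h')
    {i : E.ι} {x : X} (hx : x ∈ (E.φ i).source) : dX E h h' x = dT (h i x) (h' i x) := by
  unfold dX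
  have h1 := hm.trans i (E.ix x) x ⟨⟨hx, E.mem_ix x⟩, mem_univ _⟩
  have h2 := hm'.trans i (E.ix x) x ⟨⟨hx, E.mem_ix x⟩, mem_univ _⟩
  rw [h1, h2]
  exact hDT.congr r _ _ _ (g_isUnit E i (E.ix x) hx (E.mem_ix x))

variable {q : ℝ} {b : ℕ → ℝ} {P : E.ι → X → M r} {N : ℕ} {D : ℕ → Disc E}
  {H : ℕ → E.ι → X → M r}

theorem c_nonneg (hb : ∀ j ≤ r, 0 ≤ b j) : 0 ≤ max (b 1) (b (r - 1)) :=
  (hb (r - 1) (Nat.sub_le r 1)).trans (le_max_right _ _)

theorem metP (hS : Sweep E q b P N D H) : MetX E univ P := by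
  have := hS.met 0
  rwa [hS.zero] at this

theorem dT_P (hDT : Stmt_DT) (hBd : Stmt_BdApi) (hb : ∀ j ≤ r, 0 ≤ b j)
    (hS : Sweep E q b P N D H) (m : ℕ) {i : E.ι} {x : X} (hx : x ∈ (E.φ i).source) :
    dT (H m i x) (P i x) ≤ max (b 1) (b (r - 1)) := by
  apply hDT.le _ _ _ _ (c_nonneg hb)
  exact hBd.thm r b _ _ ((metP hS).pos i x ⟨hx, mem_univ _⟩)
    ((hS.met m).pos i x ⟨hx, mem_univ _⟩) hb (hS.bd m i x hx)

theorem bdd (hDT : Stmt_DT) (hBd : Stmt_BdApi) (hb : ∀ j ≤ r, 0 ≤ b j)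
    (hS : Sweep E q b P N D H) (x : X) :
    Bdd (fun m l => dX E (H m) (H l) x) (2 * max (b 1) (b (r - 1))) := by
  refine ⟨fun m l => hDT.nonneg _ _ _, fun m l => ?_⟩
  have hx := E.mem_ix x
  have h1 := dT_P hDT hBd hb hS m hx
  have h2 := dT_P hDT hBd hb hS l hx
  have h3 := hDT.tri r (H m (E.ix x) x) (P (E.ix x) x) (H l (E.ix x) x)
    ((hS.met m).pos _ x ⟨hx, mem_univ _⟩) ((metP hS).pos _ x ⟨hx, mem_univ _⟩)
    ((hS.met l).pos _ x ⟨hx, mem_univ _⟩)
  rw [hDT.comm r (P (E.ix x) x)] at h3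
  change dT (H m (E.ix x) x) (H l (E.ix x) x) ≤ _
  linarith

theorem H_eq_P (hS : Sweep E q b P N D H) {x : X} (hx : ∀ m, x ∉ (D m).op) (m : ℕ) (i : E.ι) :
    H m i x = P i x := by
  induction m with
  | zero => rw [hS.zero]
  | succ m ih => rw [hS.off m x (hx m) i, ih]

theorem fX_zero (hDT : Stmt_DT) (hBd : Stmt_BdApi) (hb : ∀ j ≤ r, 0 ≤ b j)
    (hS : Sweep E q b P N D H) {x : X} (hx : ∀ m, x ∉ (D m).op) :
    fX E H x = 0 := by
  have h0 : ∀ m l, dX E (H m) (H l) x = 0 := by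
    intro m l
    unfold dX
    rw [H_eq_P hS hx, H_eq_P hS hx]
    exact hDT.self r _ ((metP hS).pos _ x ⟨E.mem_ix x, mem_univ _⟩)
  apply le_antisymm
  · rw [fX_eq]
    exact F_le ⟨fun m l => by rw [h0], fun m l => by rw [h0]⟩
  · rw [fX_eq]
    exact F_nonneg (bdd hDT hBd hb hS x)

/-- comparison of the distances at two points -/
theorem dT_close (hDT : Stmt_DT) (hS : Sweep E q b P N D H) {i : E.ι} {x y : X}
    (hx : x ∈ (E.φ i).source) (hy : y ∈ (E.φ i).source) {m l : ℕ} {ε : ℝ}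
    (h1 : dT (H m i x) (H m i y) ≤ ε) (h2 : dT (H l i x) (H l i y) ≤ ε) :
    dT (H m i x) (H l i x) ≤ dT (H m i y) (H l i y) + 2 * ε := by
  have p : ∀ m, ∀ z ∈ (E.φ i).source, (H m i z).PosDef := fun m z hz =>
    (hS.met m).pos i z ⟨hz, mem_univ _⟩
  have h3 := hDT.tri r (H m i x) (H m i y) (H l i x) (p m x hx) (p m y hy) (p l x hx)
  have h4 := hDT.tri r (H m i y) (H l i y) (H l i x) (p m y hy) (p l y hy) (p l x hx)
  rw [hDT.comm r (H l i y)] at h4
  linarith

theorem isClosed_exc [T2Space X] (N : ℕ) (D : ℕ → Disc E) : IsClosed (Exc N D) := by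
  have : Exc N D = ⋃ m ∈ {m | m < N}, ⋃ l ∈ {l | l < N ∧ m ≠ l}, ((D m).cir ∩ (D l).cir) := by
    ext x
    simp only [Exc, mem_ofPred_eq, mem_iUnion, mem_inter_iff, exists_prop]
    constructor
    · rintro ⟨m, hm, l, hl, hml, h1, h2⟩
      exact ⟨m, hm, l, ⟨hl, hml⟩, h1, h2⟩
    · rintro ⟨m, hm, l, ⟨hl, hml⟩, h1, h2⟩
      exact ⟨m, hm, l, hl, hml, h1, h2⟩
  rw [this]
  apply Set.Finite.isClosed_biUnion (Set.finite_lt_nat N)
  intro m _
  apply Set.Finite.isClosed_biUnion ((Set.finite_lt_nat N).subset fun l hl => hl.1)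
  intro l _
  exact (D m).isClosed_cir.inter (D l).isClosed_cir

end

end FSub

open FSub in
theorem fsub_proof (hDT : Stmt_DT) (hBdApi : Stmt_BdApi) (hTP : Stmt_TP) (hStab : Stmt_Stab)
    (hLocMax : Stmt_LocMax) (X : Type u) [TopologicalSpace X] [T2Space X] [ChartedSpace ℂ X]
    [IsManifold 𝓘(ℂ) ω X] (r : ℕ) (E : HiggsBundle.{u, v} X r) (hFresh : FreshAt X r E)
    (hEqc : EqcAt X r E) : FSubAt X r E := by
  intro q b P N D H hq hb hS
  have hbdd := fun x => bdd hDT hBdApi hb hS x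
  refine ⟨fun x => F_nonneg (hbdd x), ⟨_, fun x => F_le (hbdd x)⟩, ?_, ?_, ?_⟩
  · intro x hx
    apply fX_zero hDT hBdApi hb hS
    intro m hm
    exact hx (mem_iUnion.2 ⟨m, (D m).op_sub_cl hm⟩)
  · intro x hx
    obtain ⟨i, hi, h⟩ := hEqc q b P N D H hq hb hS x hx
    rw [ContinuousAt, Metric.tendsto_nhds]
    intro ε hε
    obtain ⟨n₀, hn⟩ := h (ε / 4) (by positivity)
    filter_upwards [hn] with y hy
    obtain ⟨hyi, hy⟩ := hy
    have e1 : ∀ m l, dX E (H m) (H l) x = dT (H m i x) (H l i x) := fun m l =>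
      dX_eq hDT (hS.met m) (hS.met l) hi
    have e2 : ∀ m l, dX E (H m) (H l) y = dT (H m i y) (H l i y) := fun m l =>
      dX_eq hDT (hS.met m) (hS.met l) hyi
    have h1 : fX E H x ≤ fX E H y + 2 * (ε / 4) := by
      rw [fX_eq, fX_eq]
      apply F_le_add (hbdd x) (hbdd y) n₀
      intro m l hm hl
      rw [e1, e2]
      exact dT_close hDT hS hi hyi (hy m hm) (hy l hl)
    have h2 : fX E H y ≤ fX E H x + 2 * (ε / 4) := by
      rw [fX_eq, fX_eq]
      apply F_le_add (hbdd y) (hbdd x) n₀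
      intro m l hm hl
      rw [e1, e2]
      refine dT_close hDT hS hyi hi ?_ ?_
      · rw [hDT.comm]
        exact hy m hm
      · rw [hDT.comm]
        exact hy l hl
    rw [Real.dist_eq, abs_lt]
    constructor <;> linarith
  · intro x hx i hi
    have hinv : (E.φ i).symm (E.φ i x) = x := (E.φ i).left_inv hi
    by_cases hop : x ∈ ⋃ m, (D m).op
    · obtain ⟨W, hW, hxW, hfresh⟩ := hFresh q b P N D H hS x hop
      -- the sequence of pairs
      have hseq : ∀ k : ℕ, ∃ m l, k ≤ m ∧ k ≤ l ∧ SolX E q W (H m) ∧ SolX E q W (H l) ∧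
          fX E H x - 1 / ((k : ℝ) + 1) < dX E (H m) (H l) x := by
        intro k
        obtain ⟨m, l, hm, hl, hml⟩ := F_exists (hbdd x) (show (0 : ℝ) < 1 / ((k : ℝ) + 1) by
          positivity) (k + N)
        obtain ⟨m', hm1, hm2, hm3, hm4⟩ := hfresh m (by omega)
        obtain ⟨l', hl1, hl2, hl3, hl4⟩ := hfresh l (by omega)
        refine ⟨m', l', by omega, by omega, hm3, hl3, ?_⟩
        have : dX E (H m') (H l') x = dX E (H m) (H l) x := by
          unfold dX
          rw [hm4, hl4]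
        rw [this]
        exact hml
      choose m l hmk hlk hSm hSl hml using hseq
      -- a small disc
      have hopen : IsOpen (E.dom i (W ∩ (Exc N D)ᶜ)) :=
        isOpen_dom E i (hW.inter (isClosed_exc N D).isOpen_compl)
      have hmem : E.φ i x ∈ E.dom i (W ∩ (Exc N D)ᶜ) := map_mem_dom hi ⟨hxW, hx⟩
      obtain ⟨R', hR', hR'sub⟩ := Metric.isOpen_iff.1 hopen _ hmem
      have hsub : closedBall (E.φ i x) (R' / 2) ⊆ E.dom i (W ∩ (Exc N D)ᶜ) :=
        (closedBall_subset_ball (by linarith)).trans hR'sub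
      have hsrc : ∀ y ∈ closedBall (E.φ i x) (R' / 2), (E.φ i).symm y ∈ (E.φ i).source :=
        fun y hy => (E.φ i).map_target (hsub hy).1
      have hdk : ∀ k, ∀ y ∈ closedBall (E.φ i x) (R' / 2),
          dT (E.loc (H (m k)) i y) (E.loc (H (l k)) i y) =
            dX E (H (m k)) (H (l k)) ((E.φ i).symm y) := fun k y hy =>
        (dX_eq hDT (hS.met _) (hS.met _) (hsrc y hy)).symm
      refine hStab (fun z => fX E H ((E.φ i).symm z))
        (fun k z => dT (E.loc (H (m k)) i z) (E.loc (H (l k)) i z)) (E.φ i x) (R' / 2)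
        (by positivity) ?_ ?_ ?_ ?_ ?_
      · intro k y hy
        have hyW : y ∈ E.dom i W := by
          have := hsub (ball_subset_closedBall hy)
          exact ⟨this.1, this.2.1⟩
        exact hTP r (E.dom i W) q (E.θ i) _ _ (isOpen_dom E i hW) hq (hSm k i) (hSl k i) y hyW
      · intro k
        have hc : ∀ n, ContinuousOn (E.loc (H n) i) (closedBall (E.φ i x) (R' / 2)) := by
          intro n
          have h1 := (hS.met n).cont i
          rw [inter_univ] at h1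
          exact h1.comp ((E.φ i).continuousOn_symm.mono fun y hy => (hsub hy).1) hsrc
        have h2 := hDT.cont r
        exact ContinuousOn.comp (g := fun p : M r × M r => dT p.1 p.2)
          (f := fun z => (E.loc (H (m k)) i z, E.loc (H (l k)) i z)) h2
          ((hc _).prodMk (hc _)) (fun y hy => ⟨(hS.met _).pos i _ ⟨hsrc y hy, mem_univ _⟩,
            (hS.met _).pos i _ ⟨hsrc y hy, mem_univ _⟩⟩)
      · intro y hy ε hε
        obtain ⟨n, hn⟩ := F_eventually (hbdd ((E.φ i).symm y)) hε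
        filter_upwards [eventually_ge_atTop n] with k hk
        rw [hdk k y hy]
        exact hn _ _ (hk.trans (hmk k)) (hk.trans (hlk k))
      · intro y hy ε hε
        have hyE : (E.φ i).symm y ∉ Exc N D := (hsub hy).2.2
        obtain ⟨i', hi', h⟩ := hEqc q b P N D H hq hb hS _ hyE
        obtain ⟨n₀, hn⟩ := h (ε / 2) (by positivity)
        have hcont : ContinuousAt (E.φ i).symm y :=
          (E.φ i).symm.continuousAt (by simpa using (hsub hy).1)
        have hev := hcont.eventually hn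
        obtain ⟨δ, hδ, hδ'⟩ := Metric.eventually_nhds_iff_ball.1 hev
        refine ⟨δ, hδ, ?_⟩
        filter_upwards [eventually_ge_atTop n₀] with k hk z hz hzy
        rw [hdk k y hy, hdk k z hz]
        have hz' := hδ' z (by rw [mem_ball, dist_eq_norm]; exact hzy)
        rw [dX_eq hDT (hS.met _) (hS.met _) hi', dX_eq hDT (hS.met _) (hS.met _) hz'.1]
        have h1 := dT_close hDT hS (i := i') hz'.1 hi' (m := m k) (l := l k) (ε := ε / 2)
          (by rw [hDT.comm]; exact hz'.2 _ (hk.trans (hmk k)))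
          (by rw [hDT.comm]; exact hz'.2 _ (hk.trans (hlk k)))
        linarith
      · have hself : E.φ i x ∈ closedBall (E.φ i x) (R' / 2) := mem_closedBall_self (by positivity)
        have e1 : ∀ k, dT (E.loc (H (m k)) i (E.φ i x)) (E.loc (H (l k)) i (E.φ i x)) =
            dX E (H (m k)) (H (l k)) x := by
          intro k
          rw [hdk k _ hself, hinv]
        simp only [e1, hinv]
        rw [Metric.tendsto_atTop]
        intro ε hε
        obtain ⟨n, hn⟩ := F_eventually (hbdd x) (show (0 : ℝ) < ε / 2 by positivity)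
        obtain ⟨n', hn'⟩ := exists_nat_one_div_lt hε
        refine ⟨max n n', fun k hk => ?_⟩
        have h1 := hn _ _ (((le_max_left _ _).trans hk).trans (hmk k))
          (((le_max_left _ _).trans hk).trans (hlk k))
        have h2 := hml k
        have h3 : 1 / ((k : ℝ) + 1) ≤ 1 / ((n' : ℝ) + 1) := by
          apply one_div_le_one_div_of_le (by positivity)
          have : (n' : ℝ) ≤ k := by exact_mod_cast (le_max_right _ _).trans hk
          linarith
        rw [Real.dist_eq, abs_lt]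
        rw [← fX_eq] at h1
        constructor <;> linarith
    · have hop' : ∀ m, x ∉ (D m).op := fun m hm => hop (mem_iUnion.2 ⟨m, hm⟩)
      have h0 := fX_zero hDT hBdApi hb hS hop'
      intro ψ hψ hev
      have hmin : IsLocalMax (fun w => - ψ w) (E.φ i x) := by
        filter_upwards [hev] with w hw
        rw [hinv, h0] at hw
        have h1 : 0 ≤ fX E H ((E.φ i).symm w) := F_nonneg (hbdd _)
        linarith
      have h1 := hLocMax _ _ hψ.neg hmin
      rw [ddb_neg hψ] at h1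
      linarith

end Pool.Agent.HSC
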