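import Pool.Agent.HSC.Stmts2

/-!
# Module FIN: choice of the discs, with a finite exceptional set
-/

set_option autoImplicit false

open scoped Matrix.Norms.Frobenius ContDiff Topology Manifold ComplexOrder ComplexConjugate
open Matrix Set Filter MeasureTheory Metric

noncomputable section

namespace Pool.Agent.HSC

universe u v

namespace FIN

variable {X : Type u} [TopologicalSpace X] [T2Space X] [ChartedSpace ℂ X]
  [IsManifold 𝓘(ℂ) ω X] {r : ℕ} {E : HiggsBundle.{u, v} X r}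

/-- parametrisation of the circle -/
def gam (l : Disc E) (t : ℝ) : X := (E.φ l.i).symm (circleMap l.a l.ρ t)

omit [T2Space X] [IsManifold 𝓘(ℂ) ω X] in
theorem circleMap_mem (l : Disc E) (t : ℝ) : circleMap l.a l.ρ t ∈ sphere l.a l.ρ :=
  circleMap_mem_sphere l.a l.pos.le t

omit [T2Space X] [IsManifold 𝓘(ℂ) ω X] in
theorem circleMap_mem_target (l : Disc E) (t : ℝ) :
    circleMap l.a l.ρ t ∈ (E.φ l.i).target :=
  l.sub (sphere_subset_closedBall (circleMap_mem l t))

omit [T2Space X] [IsManifold 𝓘(ℂ) ω X] in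
theorem gam_cont (l : Disc E) : Continuous (gam l) := by
  have h := (E.φ l.i).continuousOn_symm
  rw [← continuousOn_univ]
  exact h.comp (continuous_circleMap l.a l.ρ).continuousOn (fun t _ => circleMap_mem_target l t)

omit [T2Space X] [IsManifold 𝓘(ℂ) ω X] in
theorem cir_eq (l : Disc E) : l.cir = gam l '' Ioc 0 (2 * Real.pi) := by
  unfold Disc.cir gam
  have h := image_circleMap_Ioc l.a l.ρ
  rw [_root_.abs_of_pos l.pos] at h
  rw [← h, image_image]

/-- the parameters at which the circle `l` meets the circle `d` -/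
def par (l d : Disc E) : Set ℝ := gam l ⁻¹' d.cir

omit [IsManifold 𝓘(ℂ) ω X] in
theorem par_closed (l d : Disc E) : IsClosed (par l d) :=
  d.isClosed_cir.preimage (gam_cont l)

omit [T2Space X] in
/-- the local equation of the set `par` is analytic -/
theorem analytic (l d : Disc E) (t₀ : ℝ) (ht : gam l t₀ ∈ (E.φ d.i).source) :
    AnalyticAt ℝ (fun t => Complex.normSq (E.φ d.i (gam l t) - d.a) - d.ρ ^ 2) t₀ := by
  have hd := transition_holo E l.i d.i
  have ho : IsOpen ((E.φ l.i).target ∩ (E.φ l.i).symm ⁻¹' (E.φ d.i).source) :=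
    (E.φ l.i).isOpen_inter_preimage_symm (E.φ d.i).open_source
  have h1 : AnalyticAt ℂ (fun z => E.φ d.i ((E.φ l.i).symm z)) (circleMap l.a l.ρ t₀) :=
    (hd.analyticOnNhd ho) _ ⟨circleMap_mem_target l t₀, ht⟩
  have h2 : AnalyticAt ℝ (fun z => E.φ d.i ((E.φ l.i).symm z)) (circleMap l.a l.ρ t₀) :=
    h1.restrictScalars
  have h3 : AnalyticAt ℝ (circleMap l.a l.ρ) t₀ := analyticOnNhd_circleMap l.a l.ρ t₀ (mem_univ _)
  have h4 : AnalyticAt ℝ (fun t => E.φ d.i (gam l t) - d.a) t₀ := (h2.comp h3).sub analyticAt_const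
  have hre : AnalyticAt ℝ (fun t => (E.φ d.i (gam l t) - d.a).re) t₀ :=
    (Complex.reCLM.analyticAt _).comp h4
  have him : AnalyticAt ℝ (fun t => (E.φ d.i (gam l t) - d.a).im) t₀ :=
    (Complex.imCLM.analyticAt _).comp h4
  have h5 := (hre.mul hre).add (him.mul him)
  exact h5.sub analyticAt_const

omit [T2Space X] [IsManifold 𝓘(ℂ) ω X] in
theorem mem_par {l d : Disc E} {t : ℝ} : t ∈ par l d ↔ gam l t ∈ (E.φ d.i).source ∧
    Complex.normSq (E.φ d.i (gam l t) - d.a) - d.ρ ^ 2 = 0 := by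
  unfold par
  rw [mem_preimage, Disc.mem_cir]
  refine and_congr_right fun _ => ?_
  rw [mem_sphere, Complex.dist_eq, Complex.normSq_eq_norm_sq]
  constructor
  · intro h
    rw [h, sub_self]
  · intro h
    have h1 : ‖E.φ d.i (gam l t) - d.a‖ ^ 2 = d.ρ ^ 2 := by linarith
    exact (sq_eq_sq₀ (norm_nonneg _) d.pos.le).1 h1

/-- two circles with infinitely many common points share an arc -/
theorem interior_nonempty (l d : Disc E) (h : ¬ (l.cir ∩ d.cir).Finite) :
    (interior (par l d)).Nonempty := by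
  have h1 : (par l d ∩ Icc 0 (2 * Real.pi)).Infinite := by
    intro hf
    apply h
    apply (hf.image (gam l)).subset
    rintro x ⟨hx, hx'⟩
    rw [cir_eq] at hx
    obtain ⟨t, ht, rfl⟩ := hx
    exact ⟨t, ⟨hx', Ioc_subset_Icc_self ht⟩, rfl⟩
  obtain ⟨t₀, _, hacc⟩ := h1.exists_accPt_of_subset_isCompact isCompact_Icc inter_subset_right
  have hacc' : AccPt t₀ (𝓟 (par l d)) := hacc.mono (principal_mono.2 inter_subset_left)
  have hmem : t₀ ∈ par l d := by
    have h2 := mem_closure_iff_clusterPt.2 hacc'.clusterPt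
    rwa [(par_closed l d).closure_eq] at h2
  have hsrc := (mem_par.1 hmem).1
  refine ⟨t₀, mem_interior_iff_mem_nhds.2 ?_⟩
  rcases (analytic l d t₀ hsrc).eventually_eq_zero_or_eventually_ne_zero with h2 | h2
  · have h3 : ∀ᶠ t in 𝓝 t₀, gam l t ∈ (E.φ d.i).source :=
      (gam_cont l).continuousAt.eventually ((E.φ d.i).open_source.mem_nhds hsrc)
    filter_upwards [h2, h3] with t ht ht'
    exact mem_par.2 ⟨ht', ht⟩
  · exfalso
    have h3 := accPt_iff_frequently_nhdsNE.1 hacc'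
    obtain ⟨t, ht, ht'⟩ := (h3.and_eventually h2).exists
    exact ht' (mem_par.1 ht).2

/-- the bad radii are countable -/
theorem bad_countable (l : Disc E) (k : E.ι) (b : ℂ) :
    {s : ℝ | ∃ d : Disc E, d.i = k ∧ d.a = b ∧ d.ρ = s ∧ ¬ (l.cir ∩ d.cir).Finite}.Countable := by
  classical
  set A : Set ℝ := {s : ℝ | ∃ d : Disc E, d.i = k ∧ d.a = b ∧ d.ρ = s ∧
    ¬ (l.cir ∩ d.cir).Finite} with hA
  let T : ℝ → Set ℝ := fun s => {t | gam l t ∈ (E.φ k).source ∧ dist (E.φ k (gam l t)) b = s}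
  have hT : ∀ d : Disc E, d.i = k → d.a = b → par l d = T d.ρ := by
    intro d hk hb
    subst hk
    subst hb
    ext t
    unfold par
    rw [mem_preimage, Disc.mem_cir, mem_sphere]
    rfl
  have hdisj : A.PairwiseDisjoint (fun s => interior (T s)) := by
    intro s _ s' _ hne
    apply Set.disjoint_left.2
    intro t ht ht'
    exact hne ((interior_subset ht).2.symm.trans (interior_subset ht').2)
  refine hdisj.countable_of_isOpen (fun _ _ => isOpen_interior) ?_
  rintro s ⟨d, hk, hb, hs, hinf⟩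
  have := interior_nonempty l d hinf
  rw [hT d hk hb, hs] at this
  exact this

/-- one more disc -/
theorem pick (L : ℕ → Disc E) (n : ℕ) (k : E.ι) (b : ℂ) (R : ℝ) (hR : 0 < R)
    (hsub : closedBall b R ⊆ (E.φ k).target) : ∃ d : Disc E, d.i = k ∧ d.a = b ∧ R / 2 < d.ρ ∧
      d.ρ ≤ R ∧ ∀ m < n, ((L m).cir ∩ d.cir).Finite := by
  set B : Set ℝ := ⋃ m, {s : ℝ | ∃ d : Disc E, d.i = k ∧ d.a = b ∧ d.ρ = s ∧
    ¬ ((L m).cir ∩ d.cir).Finite} with hB
  have hc : B.Countable := countable_iUnion fun m => bad_countable (L m) k b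
  obtain ⟨s, hs, hs1, hs2⟩ := (hc.dense_compl ℝ).exists_between (by linarith : R / 2 < R)
  have hpos : 0 < s := by linarith
  refine ⟨⟨k, b, s, hpos, (closedBall_subset_closedBall hs2.le).trans hsub⟩, rfl, rfl, hs1,
    hs2.le, fun m _ => ?_⟩
  by_contra hcon
  exact hs (mem_iUnion.2 ⟨m, _, rfl, rfl, rfl, hcon⟩)

/-- choice of the radii -/
theorem radii (k : ℕ → E.ι) (b : ℕ → ℂ) (R : ℕ → ℝ) (hR : ∀ m, 0 < R m)
    (hsub : ∀ m, closedBall (b m) (R m) ⊆ (E.φ (k m)).target) (n : ℕ) (d₀ : Disc E) :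
    ∃ L : ℕ → Disc E, ∀ m < n, (L m).i = k m ∧ (L m).a = b m ∧ R m / 2 < (L m).ρ ∧
      (L m).ρ ≤ R m ∧ ∀ l < m, ((L l).cir ∩ (L m).cir).Finite := by
  classical
  induction n with
  | zero => exact ⟨fun _ => d₀, fun m hm => absurd hm (Nat.not_lt_zero m)⟩
  | succ n ih =>
    obtain ⟨L, hL⟩ := ih
    obtain ⟨d, h1, h2, h3, h4, h5⟩ := pick L n (k n) (b n) (R n) (hR n) (hsub n)
    refine ⟨Function.update L n d, fun m hm => ?_⟩
    rcases Nat.lt_succ_iff_lt_or_eq.1 hm with hm | rfl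
    · have hne : m ≠ n := hm.ne
      obtain ⟨g1, g2, g3, g4, g5⟩ := hL m hm
      rw [Function.update_of_ne hne]
      refine ⟨g1, g2, g3, g4, fun l hl => ?_⟩
      rw [Function.update_of_ne (hl.trans hm).ne]
      exact g5 l hl
    · rw [Function.update_self]
      refine ⟨h1, h2, h3, h4, fun l hl => ?_⟩
      rw [Function.update_of_ne hl.ne]
      exact h5 l hl

end FIN

open FIN in
theorem fin_proof (X : Type u) [TopologicalSpace X] [T2Space X] [ChartedSpace ℂ X]
    [IsManifold 𝓘(ℂ) ω X] (r : ℕ) (E : HiggsBundle.{u, v} X r) : FinAt X r E := by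
  classical
  intro C S hC hne hS
  have : Nonempty E.ι := ⟨E.ix hne.some⟩
  choose! i hi R hR hsub hD using hS
  -- the finite subcover
  have hopen : ∀ x ∈ C, (E.φ (i x)).symm '' ball (E.φ (i x) x) (R x / 2) ∈ 𝓝 x := by
    intro x hx
    have hsub' : ball (E.φ (i x) x) (R x / 2) ⊆ (E.φ (i x)).target :=
      (ball_subset_closedBall.trans (closedBall_subset_closedBall
        (by linarith [hR x hx]))).trans (hsub x hx)
    refine ((E.φ (i x)).isOpen_image_symm_of_subset_target isOpen_ball hsub').mem_nhds ?_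
    exact ⟨E.φ (i x) x, mem_ball_self (by linarith [hR x hx]), (E.φ (i x)).left_inv (hi x hx)⟩
  obtain ⟨t, htC, hcov⟩ := hC.elim_nhds_subcover _ hopen
  have htne : t.Nonempty := by
    obtain ⟨x, hx⟩ := hne
    obtain ⟨y, hy, _⟩ := mem_iUnion₂.1 (hcov hx)
    exact ⟨y, hy⟩
  have hNpos : 0 < t.card := htne.card_pos
  set N := t.card with hN
  let e : Fin N ≃ t := (t.equivFinOfCardEq hN.symm).symm
  let x : ℕ → X := fun m => (e ⟨m % N, Nat.mod_lt _ hNpos⟩ : X)
  have hxC : ∀ m, x m ∈ C := fun m => htC _ (e ⟨m % N, Nat.mod_lt _ hNpos⟩).2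
  obtain ⟨x₀, hx₀⟩ := hne
  obtain ⟨L, hL⟩ := radii (E := E) (fun m => i (x m)) (fun m => E.φ (i (x m)) (x m))
    (fun m => R (x m)) (fun m => hR _ (hxC m)) (fun m => hsub _ (hxC m)) N
    ⟨i x₀, E.φ (i x₀) x₀, R x₀, hR _ hx₀, hsub _ hx₀⟩
  refine ⟨N, fun m => L (m % N), hNpos, fun m => by simp, ?_, fun m => ?_, ?_⟩
  · intro y hy
    obtain ⟨z, hz, hyz⟩ := mem_iUnion₂.1 (hcov hy)
    obtain ⟨j, hj⟩ := e.surjective ⟨z, hz⟩
    have hjN : (j : ℕ) % N = j := Nat.mod_eq_of_lt j.2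
    have hxz : x j = z := by
      simp only [x]
      have : (⟨(j : ℕ) % N, Nat.mod_lt _ hNpos⟩ : Fin N) = j := Fin.ext hjN
      rw [this, hj]
    refine mem_iUnion.2 ⟨j, ?_⟩
    obtain ⟨h1, h2, h3, h4, _⟩ := hL j j.2
    obtain ⟨w, hw, rfl⟩ := hyz
    simp only [hjN]
    unfold Disc.op
    rw [h1, h2, hxz]
    refine ⟨w, ?_, rfl⟩
    rw [hxz] at h3
    exact ball_subset_ball h3.le hw
  · have hm := Nat.mod_lt m hNpos
    obtain ⟨h1, h2, h3, h4, _⟩ := hL _ hm
    exact hD _ (hxC _) _ h1 h2 h4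
  · have : Exc N (fun m => L (m % N)) ⊆ ⋃ m ∈ Finset.range N, ⋃ l ∈ Finset.range m,
        ((L l).cir ∩ (L m).cir) := by
      rintro y ⟨m, hm, l, hl, hml, hy1, hy2⟩
      simp only [Nat.mod_eq_of_lt hm, Nat.mod_eq_of_lt hl] at hy1 hy2
      rcases lt_or_gt_of_ne hml with h | h
      · exact mem_iUnion₂.2 ⟨l, Finset.mem_range.2 hl,
          mem_iUnion₂.2 ⟨m, Finset.mem_range.2 h, hy1, hy2⟩⟩
      · exact mem_iUnion₂.2 ⟨m, Finset.mem_range.2 hm,
          mem_iUnion₂.2 ⟨l, Finset.mem_range.2 h, hy2, hy1⟩⟩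
    refine Set.Finite.subset ?_ this
    refine Set.Finite.biUnion (Finset.finite_toSet _) fun m hm => ?_
    refine Set.Finite.biUnion (Finset.finite_toSet _) fun l hl => ?_
    exact (hL m (Finset.mem_range.1 (Finset.mem_coe.1 hm))).2.2.2.2 l
      (Finset.mem_range.1 (Finset.mem_coe.1 hl))

end Pool.Agent.HSC
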