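import Pool.Agent.HSC.Stmts2

/-!
# HSC, module FRESH: recent solutions near a point of the union of the discs
-/

set_option autoImplicit false

open scoped Matrix.Norms.Frobenius ContDiff Topology Manifold ComplexOrder ComplexConjugate
open Matrix Set Filter Metric

noncomputable section

namespace Pool.Agent.HSC

universe u v

namespace Fresh

theorem per_mod {α : Type*} {N : ℕ} {D : ℕ → α} (h : ∀ m, D (m + N) = D m) (m : ℕ) :
    D m = D (m % N) := by
  have key : ∀ q r : ℕ, D (r + N * q) = D r := by
    intro q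
    induction q with
    | zero => intro r; rw [Nat.mul_zero, Nat.add_zero]
    | succ q ih =>
      intro r
      rw [Nat.mul_succ, ← Nat.add_assoc, h, ih]
  conv_lhs => rw [← Nat.mod_add_div m N]
  exact key _ _

end Fresh

open Fresh in
theorem fresh_proof (X : Type u) [TopologicalSpace X] [T2Space X] [ChartedSpace ℂ X]
    [IsManifold 𝓘(ℂ) ω X] (r : ℕ) (E : HiggsBundle.{u, v} X r) : FreshAt X r E := by
  classical
  intro q b P N D H hS x hx
  obtain ⟨k₀, hk₀⟩ := mem_iUnion.1 hx
  have hN := hS.pos
  have hper := per_mod hS.per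
  let T : Finset ℕ := (Finset.range N).filter fun k => x ∈ (D k).op
  refine ⟨⋂ k ∈ T, (D k).op, ?_, ?_, ?_⟩
  · exact isOpen_biInter_finset fun k _ => (D k).isOpen_op
  · rw [mem_iInter₂]
    intro k hk
    exact (Finset.mem_filter.1 hk).2
  intro m hm
  -- the last disc containing the point
  have hr : k₀ % N < N := Nat.mod_lt _ hN
  have hj : (m - 1 - k₀ % N) % N < N := Nat.mod_lt _ hN
  have ht₀ : x ∈ (D (m - 1 - (m - 1 - k₀ % N) % N)).op := by
    have h1 : (m - 1 - (m - 1 - k₀ % N) % N) % N = k₀ % N := by
      have h2 := Nat.mod_add_div (m - 1 - k₀ % N) N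
      have h3 : m - 1 - (m - 1 - k₀ % N) % N = k₀ % N + N * ((m - 1 - k₀ % N) / N) := by
        omega
      rw [h3, Nat.add_mul_mod_self_left, Nat.mod_mod]
    rw [hper, h1, ← hper]
    exact hk₀
  set Q : ℕ → Prop := fun t => x ∈ (D t).op with hQ
  set t : ℕ := Nat.findGreatest Q (m - 1) with ht
  have htQ : Q t := Nat.findGreatest_spec (P := Q) (Nat.sub_le _ _) ht₀
  have htge : m - 1 - (m - 1 - k₀ % N) % N ≤ t :=
    Nat.le_findGreatest (Nat.sub_le _ _) ht₀
  have htle : t ≤ m - 1 := Nat.findGreatest_le _
  refine ⟨t + 1, by omega, by omega, ?_, ?_⟩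
  · refine (hS.sol t).mono ?_
    intro y hy
    have hmem : t % N ∈ T := by
      refine Finset.mem_filter.2 ⟨Finset.mem_range.2 (Nat.mod_lt _ hN), ?_⟩
      rw [← hper]
      exact htQ
    have := mem_iInter₂.1 hy (t % N) hmem
    rw [← hper] at this
    exact this
  · intro i
    have key : ∀ s : ℕ, t + 1 + s ≤ m → H (t + 1 + s) i x = H (t + 1) i x := by
      intro s
      induction s with
      | zero => intro _; rfl
      | succ s ih =>
        intro hs
        rw [← Nat.add_assoc, hS.off (t + 1 + s) x ?_ i]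
        · exact ih (by omega)
        · exact Nat.findGreatest_is_greatest (P := Q) (n := m - 1) (k := t + 1 + s)
            (by omega) (by omega)
    have h1 := key (m - (t + 1)) (by omega)
    have h2 : t + 1 + (m - (t + 1)) = m := by omega
    rw [h2] at h1
    exact h1.symm

end Pool.Agent.HSC
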