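import Pool.Agent.HSC.Stmts2

/-!
# Convergence of the sweeping sequence
-/

set_option autoImplicit false

open scoped Matrix.Norms.Frobenius ContDiff Topology Manifold ComplexOrder ComplexConjugate
open Matrix Set Filter MeasureTheory Metric

noncomputable section

namespace Pool.Agent.HSC

universe u v

namespace GLUEX

variable {X : Type u} [TopologicalSpace X] [ChartedSpace ℂ X]
  {r : ℕ} {E : HiggsBundle.{u, v} X r} {q : ℝ} {b : ℕ → ℝ} {P : E.ι → X → M r} {N : ℕ}
  {D : ℕ → Disc E} {H : ℕ → E.ι → X → M r}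

theorem per_mul (hS : Sweep E q b P N D H) (n k : ℕ) : D (n * N + k) = D k := by
  induction n with
  | zero => simp
  | succ n ih =>
    have : (n + 1) * N + k = (n * N + k) + N := by ring
    rw [this, hS.per, ih]

theorem metP (hS : Sweep E q b P N D H) : MetX E univ P := hS.zero ▸ hS.met 0

theorem posP (hS : Sweep E q b P N D H) {i : E.ι} {x : X} (hx : x ∈ (E.φ i).source) :
    (P i x).PosDef := (metP hS).pos i x ⟨hx, trivial⟩

theorem posH (hS : Sweep E q b P N D H) (m : ℕ) {i : E.ι} {x : X} (hx : x ∈ (E.φ i).source) :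
    (H m i x).PosDef := (hS.met m).pos i x ⟨hx, trivial⟩

/-- the constant -/
def cc (b : ℕ → ℝ) (r : ℕ) : ℝ := max (b 1) (b (r - 1))

theorem cc_nonneg (hb : ∀ j ≤ r, 0 ≤ b j) : 0 ≤ cc b r :=
  (hb (r - 1) (Nat.sub_le _ _)).trans (le_max_right _ _)

theorem thmP (hBd : Stmt_BdApi) (hb : ∀ j ≤ r, 0 ≤ b j) (hS : Sweep E q b P N D H) (m : ℕ)
    {i : E.ι} {x : X} (hx : x ∈ (E.φ i).source) : Thm (cc b r) (H m i x) (P i x) :=
  hBd.thm r b (P i x) (H m i x) (posP hS hx) (posH hS m hx) hb (hS.bd m i x hx)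

theorem dT_le (hDT : Stmt_DT) (hBd : Stmt_BdApi) (hb : ∀ j ≤ r, 0 ≤ b j)
    (hS : Sweep E q b P N D H) (m l : ℕ) {i : E.ι} {x : X} (hx : x ∈ (E.φ i).source) :
    dT (H m i x) (H l i x) ≤ cc b r + cc b r := by
  have h1 := hDT.tri r (H m i x) (P i x) (H l i x) (posH hS m hx) (posP hS hx) (posH hS l hx)
  have h2 := hDT.le r _ _ _ (cc_nonneg hb) (thmP hBd hb hS m hx)
  have h3 := hDT.le r _ _ _ (cc_nonneg hb) (thmP hBd hb hS l hx)
  rw [hDT.comm r (P i x)] at h1
  linarith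

theorem small (hDT : Stmt_DT) (hBd : Stmt_BdApi) (hb : ∀ j ≤ r, 0 ≤ b j)
    (hS : Sweep E q b P N D H) {x : X} (hf : fX E H x = 0) {ε : ℝ} (hε : 0 < ε) :
    ∃ n, ∀ m ≥ n, ∀ l ≥ n, dX E (H m) (H l) x < ε := by
  unfold fX at hf
  have h1 : (⨅ n : ℕ, ⨆ p : {p : ℕ × ℕ // n ≤ p.1 ∧ n ≤ p.2}, dX E (H p.1.1) (H p.1.2) x) < ε := by
    rw [hf]; exact hε
  obtain ⟨n, hn⟩ := exists_lt_of_ciInf_lt h1
  refine ⟨n, fun m hm l hl => lt_of_le_of_lt ?_ hn⟩
  have hbdd : BddAbove (range fun p : {p : ℕ × ℕ // n ≤ p.1 ∧ n ≤ p.2} =>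
      dX E (H p.1.1) (H p.1.2) x) := by
    refine ⟨cc b r + cc b r, ?_⟩
    rintro _ ⟨p, rfl⟩
    exact dT_le hDT hBd hb hS _ _ (E.mem_ix x)
  exact le_ciSup hbdd (⟨(m, l), hm, hl⟩ : {p : ℕ × ℕ // n ≤ p.1 ∧ n ≤ p.2})

/-- continuity of the Thompson distance along limits -/
theorem tendsto_dT (hDT : Stmt_DT) {ι : Type} {l : Filter ι} {A B : ι → M r} {A' B' : M r}
    (hA : Tendsto A l (𝓝 A')) (hB : Tendsto B l (𝓝 B')) (hA' : A'.PosDef) (hB' : B'.PosDef)
    (h : ∀ᶠ n in l, (A n).PosDef ∧ (B n).PosDef) :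
    Tendsto (fun n => dT (A n) (B n)) l (𝓝 (dT A' B')) := by
  have h1 : Tendsto (fun p : M r × M r => dT p.1 p.2)
      (𝓝[{p : M r × M r | p.1.PosDef ∧ p.2.PosDef}] (A', B')) (𝓝 (dT A' B')) :=
    hDT.cont r (A', B') ⟨hA', hB'⟩
  have h2 : Tendsto (fun n => (A n, B n)) l
      (𝓝[{p : M r × M r | p.1.PosDef ∧ p.2.PosDef}] (A', B')) :=
    tendsto_nhdsWithin_iff.2 ⟨hA.prodMk_nhds hB, h⟩
  exact Tendsto.comp (g := fun p : M r × M r => dT p.1 p.2) (f := fun n => (A n, B n)) h1 h2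

theorem cont_loc {h : E.ι → X → M r} (hm : MetX E univ h) (i : E.ι) {z : ℂ}
    (hz : z ∈ (E.φ i).target) : ContinuousAt (E.loc h i) z := by
  have h1 : ContinuousAt (h i) ((E.φ i).symm z) := by
    refine (hm.cont i).continuousAt ?_
    rw [inter_univ]
    exact (E.φ i).open_source.mem_nhds ((E.φ i).map_target hz)
  exact ContinuousAt.comp h1 ((E.φ i).symm.continuousAt hz)

/-- uniform bound near a point -/
theorem bound_near (hDT : Stmt_DT) (hS : Sweep E q b P N D H) (i : E.ι) {z : ℂ}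
    (hz : z ∈ (E.φ i).target) : ∃ c : ℝ, 0 ≤ c ∧ ∀ᶠ w in 𝓝 z, dT (E.loc P i w) 1 < c := by
  have h1 : Tendsto (fun w => dT (E.loc P i w) 1) (𝓝 z) (𝓝 (dT (E.loc P i z) 1)) := by
    refine tendsto_dT hDT (cont_loc (metP hS) i hz) tendsto_const_nhds
      (posP hS ((E.φ i).map_target hz)) Matrix.PosDef.one ?_
    filter_upwards [(E.φ i).open_target.mem_nhds hz] with w hw
    exact ⟨posP hS ((E.φ i).map_target hw), Matrix.PosDef.one⟩
  refine ⟨dT (E.loc P i z) 1 + 1, by have := hDT.nonneg r (E.loc P i z) 1; linarith, ?_⟩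
  exact h1.eventually_lt_const (by linarith)

end GLUEX

open GLUEX in
theorem glue_proof (X : Type u) [TopologicalSpace X] [T2Space X] [ChartedSpace ℂ X]
    [IsManifold 𝓘(ℂ) ω X] (r : ℕ) (E : HiggsBundle.{u, v} X r) (hLim : Stmt_Lim) (hDT : Stmt_DT)
    (hBd : Stmt_BdApi) : GlueAt X r E := by
  intro q b P N D H hq hb hS hfin hzero
  classical
  -- the limits along an ultrafilter
  let U : Ultrafilter ℕ := Ultrafilter.of atTop
  have hU : (U : Filter ℕ) ≤ atTop := Ultrafilter.of_le atTop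
  have hex : ∀ (k : ℕ) (i : E.ι) (x : X), ∃ A : M r, x ∈ (E.φ i).source →
      (A.PosDef ∧ Thm (cc b r) A (P i x)) ∧
        Tendsto (fun n => H (n * N + k + 1) i x) (U : Filter ℕ) (𝓝 A) := by
    intro k i x
    by_cases hx : x ∈ (E.φ i).source
    · have hc := hDT.compact r (P i x) (cc b r) (posP hS hx)
      obtain ⟨A, hA, hA2⟩ := hc.ultrafilter_le_nhds (U.map fun n => H (n * N + k + 1) i x) (by
        rw [le_principal_iff, Ultrafilter.coe_map, mem_map]
        exact Filter.univ_mem' fun n => ⟨posH hS _ hx, thmP hBd hb hS _ hx⟩)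
      exact ⟨A, fun _ => ⟨hA, hA2⟩⟩
    · exact ⟨0, fun h => absurd h hx⟩
  choose L0 hL0 using hex
  let L : ℕ → E.ι → X → M r := fun k i x => if x ∈ (E.φ i).source then L0 k i x else 0
  have hL : ∀ k i x, x ∈ (E.φ i).source → L k i x = L0 k i x := fun k i x hx => if_pos hx
  have hLn : ∀ k i x, x ∉ (E.φ i).source → L k i x = 0 := fun k i x hx => if_neg hx
  have hLpos : ∀ k i x, x ∈ (E.φ i).source → (L k i x).PosDef := fun k i x hx => by
    rw [hL k i x hx]; exact (hL0 k i x hx).1.1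
  have hLt : ∀ k i x, x ∈ (E.φ i).source →
      Tendsto (fun n => H (n * N + k + 1) i x) (U : Filter ℕ) (𝓝 (L k i x)) := fun k i x hx => by
    rw [hL k i x hx]; exact (hL0 k i x hx).2
  have hLb : ∀ k i x, x ∈ (E.φ i).source → Bd b (P i x) (L k i x) := fun k i x hx =>
    (hBd.closed r b (P i x)).mem_of_tendsto (hLt k i x hx)
      (Eventually.of_forall fun n => hS.bd _ i x hx)
  have hLtr : ∀ k i j, ∀ x ∈ (E.φ i).source ∩ (E.φ j).source,
      L k j x = (E.g i j x)ᴴ * L k i x * E.g i j x := by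
    intro k i j x hx
    have h1 := hLt k j x hx.2
    have h2 : Tendsto (fun n => (E.g i j x)ᴴ * H (n * N + k + 1) i x * E.g i j x) (U : Filter ℕ)
        (𝓝 ((E.g i j x)ᴴ * L k i x * E.g i j x)) :=
      ((tendsto_const_nhds.mul (hLt k i x hx.1)).mul tendsto_const_nhds)
    refine tendsto_nhds_unique h1 (h2.congr fun n => ?_)
    exact ((hS.met _).trans i j x ⟨hx, trivial⟩).symm
  -- the limits are solutions
  have hLs : ∀ k, SolX E q (D k).op (L k) := by
    intro k i
    refine hLim r (E.dom i (D k).op) q (E.θ i) ℕ (U : Filter ℕ)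
      (fun n => E.loc (H (n * N + k + 1)) i) (E.loc (L k) i) U.neBot
      (isOpen_dom E i (D k).isOpen_op) hq ((E.θ_holo i).mono fun z hz => hz.1) ?_ ?_
    · intro z hz
      obtain ⟨c, hc0, hc⟩ := bound_near hDT hS i hz.1
      obtain ⟨ρ, hρ, hρs⟩ := Metric.mem_nhds_iff.1
        (Filter.inter_mem hc ((isOpen_dom E i (D k).isOpen_op).mem_nhds hz))
      refine ⟨ρ, hρ, cc b r + c, Eventually.of_forall fun n => ⟨?_, ?_⟩⟩
      · have h1 := hS.sol (n * N + k)
        rw [per_mul hS] at h1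
        exact (h1 i).mono fun w hw => (hρs hw).2
      · intro w hw
        have hw1 := (hρs hw).1
        have hw2 := (hρs hw).2
        have hsrc : (E.φ i).symm w ∈ (E.φ i).source := (E.φ i).map_target hw2.1
        have h2 := hDT.tri r (H (n * N + k + 1) i ((E.φ i).symm w)) (P i ((E.φ i).symm w)) 1
          (posH hS _ hsrc) (posP hS hsrc) Matrix.PosDef.one
        have h3 := hDT.le r _ _ _ (cc_nonneg hb) (thmP hBd hb hS (n * N + k + 1) hsrc)
        have h4 : dT (P i ((E.φ i).symm w)) 1 < c := hw1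
        have h5 : dT (H (n * N + k + 1) i ((E.φ i).symm w)) 1 ≤ cc b r + c := by linarith
        exact hDT.mono r (H (n * N + k + 1) i ((E.φ i).symm w)) 1 _ _ (posH hS _ hsrc)
          Matrix.PosDef.one h5 (hDT.thm r _ _ (posH hS _ hsrc) Matrix.PosDef.one)
    · intro z hz
      exact hLt k i _ ((E.φ i).map_target hz.1)
  -- off the exceptional set all limits agree
  have hag : ∀ k k' i x, x ∉ Exc N D → x ∈ (E.φ i).source → L k i x = L k' i x := by
    intro k k' i x hx hxi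
    have hi0 := E.mem_ix x
    have h0 : L k (E.ix x) x = L k' (E.ix x) x := by
      refine hDT.eq r _ _ (hLpos k _ x hi0) (hLpos k' _ x hi0) ?_
      refine le_antisymm (le_of_forall_pos_le_add fun ε hε => ?_) (hDT.nonneg r _ _)
      rw [zero_add]
      obtain ⟨n0, hn0⟩ := small hDT hBd hb hS (hzero x hx) hε
      have h1 := tendsto_dT hDT (hLt k _ x hi0) (hLt k' _ x hi0) (hLpos k _ x hi0)
        (hLpos k' _ x hi0) (Eventually.of_forall fun n => ⟨posH hS _ hi0, posH hS _ hi0⟩)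
      refine le_of_tendsto h1 ?_
      filter_upwards [hU (eventually_ge_atTop n0)] with n hn
      have hN : n ≤ n * N := Nat.le_mul_of_pos_right n hS.pos
      exact (hn0 _ (by omega) _ (by omega)).le
    rw [hLtr k (E.ix x) i x ⟨hi0, hxi⟩, hLtr k' (E.ix x) i x ⟨hi0, hxi⟩, h0]
  -- continuity
  have hcz : ∀ k i z, z ∈ E.dom i (D k).op → ContinuousAt (E.loc (L k) i) z := by
    intro k i z hz
    exact (((hLs k i).smooth).contDiffAt
      ((isOpen_dom E i (D k).isOpen_op).mem_nhds hz)).continuousAt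
  have hcx : ∀ k i x, x ∈ (E.φ i).source → x ∈ (D k).op → ContinuousAt (L k i) x := by
    intro k i x hxi hxk
    have h1 : ContinuousAt (fun y => E.loc (L k) i (E.φ i y)) x :=
      ContinuousAt.comp (g := E.loc (L k) i) (f := E.φ i) (hcz k i _ (map_mem_dom hxi hxk))
        ((E.φ i).continuousAt hxi)
    refine h1.congr ?_
    filter_upwards [(E.φ i).open_source.mem_nhds hxi] with y hy
    change L k i ((E.φ i).symm (E.φ i y)) = _
    rw [(E.φ i).left_inv hy]
  -- agreement on the overlaps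
  have hov : ∀ k k' i x, x ∈ (D k).op → x ∈ (D k').op → L k i x = L k' i x := by
    intro k k' i x hk hk'
    by_cases hxi : x ∈ (E.φ i).source
    swap
    · rw [hLn k i x hxi, hLn k' i x hxi]
    have h1 := hcz k i _ (map_mem_dom hxi hk)
    have h2 := hcz k' i _ (map_mem_dom hxi hk')
    have h3 : ∀ᶠ z in 𝓝[≠] (E.φ i x), E.loc (L k) i z = E.loc (L k') i z := by
      have hF : (E.φ i '' Exc N D).Finite := hfin.image _
      have h4 : ∀ᶠ z in 𝓝[≠] (E.φ i x), z ∉ E.φ i '' Exc N D := by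
        have h5 : IsOpen (E.φ i '' Exc N D \ {E.φ i x})ᶜ := (hF.subset sdiff_subset).isClosed.isOpen_compl
        have h6 : E.φ i x ∈ (E.φ i '' Exc N D \ {E.φ i x})ᶜ := fun h => h.2 rfl
        filter_upwards [nhdsWithin_le_nhds (h5.mem_nhds h6), self_mem_nhdsWithin] with z hz hz2 hz3
        exact hz ⟨hz3, hz2⟩
      filter_upwards [h4, nhdsWithin_le_nhds
        ((E.φ i).open_target.mem_nhds ((E.φ i).map_source hxi))] with z hz hzt
      refine hag k k' i _ ?_ ((E.φ i).map_target hzt)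
      intro h
      exact hz ⟨_, h, (E.φ i).right_inv hzt⟩
    have h4 := tendsto_nhds_unique_of_eventuallyEq
      (h1.tendsto.mono_left nhdsWithin_le_nhds) (h2.tendsto.mono_left nhdsWithin_le_nhds) h3
    change L k i ((E.φ i).symm (E.φ i x)) = L k' i ((E.φ i).symm (E.φ i x)) at h4
    rwa [(E.φ i).left_inv hxi] at h4
  -- the metric on the union
  let kk : X → ℕ := fun x => if h : ∃ m, x ∈ (D m).op then Classical.choose h else 0
  have hkk : ∀ x ∈ (⋃ m, (D m).op), x ∈ (D (kk x)).op := by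
    intro x hx
    have h : ∃ m, x ∈ (D m).op := mem_iUnion.1 hx
    change x ∈ (D (if h : ∃ m, x ∈ (D m).op then Classical.choose h else 0)).op
    rw [dif_pos h]
    exact Classical.choose_spec h
  let K : E.ι → X → M r := fun i x => L (kk x) i x
  have hK : ∀ k, ∀ x ∈ (D k).op, ∀ i, K i x = L k i x := by
    intro k x hx i
    exact hov _ _ i x (hkk x (mem_iUnion.2 ⟨k, hx⟩)) hx
  refine ⟨K, ⟨?_, ?_, ?_⟩, ?_, ?_⟩
  · intro i x hx
    exact hLpos _ i x hx.1
  · intro i j x hx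
    exact hLtr _ i j x hx.1
  · intro i x hx
    obtain ⟨k, hk⟩ := mem_iUnion.1 hx.2
    refine ContinuousAt.continuousWithinAt ?_
    refine (hcx k i x hx.1 hk).congr ?_
    filter_upwards [(D k).isOpen_op.mem_nhds hk] with y hy
    exact (hK k y hy i).symm
  · refine SolX.of_local fun x hx => ?_
    obtain ⟨k, hk⟩ := mem_iUnion.1 hx
    exact ⟨(D k).op, (D k).isOpen_op, hk, (hLs k).congr (D k).isOpen_op fun i y hy => hK k y hy i⟩
  · intro i x hx
    exact hLb _ i x hx.1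

end Pool.Agent.HSC
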