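import Pool.Agent.HSC.Stmts

/-!
# The algebra of the a priori bound (module GAP)
-/

set_option autoImplicit false

open scoped Matrix.Norms.Frobenius ContDiff Topology Manifold ComplexOrder ComplexConjugate
open Matrix Set Filter MeasureTheory Metric

noncomputable section

namespace Pool.Agent.HSC

namespace Gap

theorem En_star_mul (r j : ℕ) (hj : j ≤ r) : (En r j)ᴴ * En r j = 1 := by
  ext a b
  rw [Matrix.mul_apply]
  simp only [En, Matrix.conjTranspose_apply, Matrix.of_apply]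
  rw [Finset.sum_eq_single (Fin.castLE hj a)]
  · by_cases h : a = b
    · subst h; simp
    · rw [Matrix.one_apply_ne h]
      have : ¬ ((Fin.castLE hj a : ℕ) = (b : ℕ)) := by
        intro hc
        exact h (Fin.ext hc)
      simp [this]
      intro hc
      exact h (Fin.ext hc)
  · intro i _ hi
    have : ¬ ((i : ℕ) = (a : ℕ)) := by
      intro hc
      exact hi (Fin.ext hc)
    simp [this]
  · simp

/-- the projection -/
def Pi (r j : ℕ) : M r := Matrix.diagonal (fun i => if (i : ℕ) < j then 1 else 0)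

theorem En_mul_star (r j : ℕ) : En r j * (En r j)ᴴ = Pi r j := by
  ext a b
  rw [Matrix.mul_apply]
  simp only [En, Matrix.conjTranspose_apply, Matrix.of_apply, Pi]
  by_cases hab : a = b
  · subst hab
    rw [Matrix.diagonal_apply_eq]
    by_cases ha : (a : ℕ) < j
    · rw [if_pos ha, Finset.sum_eq_single (⟨a, ha⟩ : Fin j)]
      · simp
      · intro k _ hk
        have : ¬ ((a : ℕ) = (k : ℕ)) := by
          intro hc
          exact hk (Fin.ext hc.symm)
        simp [this]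
      · simp
    · rw [if_neg ha]
      refine Finset.sum_eq_zero fun k _ => ?_
      have : ¬ ((a : ℕ) = (k : ℕ)) := by
        intro hc
        exact ha (hc ▸ k.2)
      simp [this]
  · rw [Matrix.diagonal_apply_ne _ hab]
    refine Finset.sum_eq_zero fun k _ => ?_
    by_cases h1 : (a : ℕ) = (k : ℕ)
    · have : ¬ ((b : ℕ) = (k : ℕ)) := by
        intro hc
        exact hab (Fin.ext (h1.trans hc.symm))
      simp [this]
    · simp [h1]

/-- the antisymmetric kernel -/
def gk {r : ℕ} (T : M r) (κ : Fin r → ℝ) (i m : Fin r) : ℝ :=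
  Complex.normSq (T i m) * (κ i / κ m) - Complex.normSq (T m i) * (κ m / κ i)

theorem trq_formula {r j : ℕ} (hj : j ≤ r) (K Θ B : M r) (κ : Fin r → ℝ) (q : ℝ)
    (hB : IsUnit B) (hK : Bᴴ * K * B = Matrix.diagonal (fun i => (κ i : ℂ)))
    (hκ : ∀ i, 0 < κ i) :
    trq K ((q : ℂ) • brk Θ K) (B * En r j) =
      q * ∑ i ∈ Finset.univ.filter (fun i : Fin r => (i : ℕ) < j),
        ∑ m, gk (B⁻¹ * Θ * B) κ i m := by
  set C := B⁻¹ with hC
  set T := C * Θ * B with hT
  set L : M r := Matrix.diagonal (fun i => (κ i : ℂ)) with hL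
  set L' : M r := Matrix.diagonal (fun i => ((κ i : ℂ))⁻¹) with hL'
  set E := En r j with hE
  have hBdet : IsUnit B.det := (Matrix.isUnit_iff_isUnit_det _).1 hB
  have hCB : C * B = 1 := Matrix.nonsing_inv_mul _ hBdet
  have hBC : B * C = 1 := Matrix.mul_nonsing_inv _ hBdet
  have hCB' : Bᴴ * Cᴴ = 1 := by rw [← Matrix.conjTranspose_mul, hCB, Matrix.conjTranspose_one]
  have hBC' : Cᴴ * Bᴴ = 1 := by rw [← Matrix.conjTranspose_mul, hBC, Matrix.conjTranspose_one]
  have hκ' : ∀ i, (κ i : ℂ) ≠ 0 := fun i => by exact_mod_cast (hκ i).ne'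
  have hLL : L * L' = 1 := by
    rw [hL, hL', Matrix.diagonal_mul_diagonal, ← Matrix.diagonal_one]
    congr 1
    funext i
    exact mul_inv_cancel₀ (hκ' i)
  have hKinv : K⁻¹ = B * L' * Bᴴ := by
    apply Matrix.inv_eq_right_inv
    have h1 : Bᴴ * (K * B * L') = 1 := by
      rw [← hLL, ← hK]
      simp only [Matrix.mul_assoc]
    calc K * (B * L' * Bᴴ) = (Cᴴ * Bᴴ) * (K * B * L') * Bᴴ := by
          rw [hBC', Matrix.one_mul]; simp only [Matrix.mul_assoc]
      _ = Cᴴ * (Bᴴ * (K * B * L')) * Bᴴ := by simp only [Matrix.mul_assoc]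
      _ = 1 := by rw [h1, Matrix.mul_one, hBC']
  have hadj : C * adj K Θ * B = L' * Tᴴ * L := by
    have hTh : Tᴴ = Bᴴ * Θᴴ * Cᴴ := by
      rw [hT, Matrix.conjTranspose_mul, Matrix.conjTranspose_mul, Matrix.mul_assoc]
    rw [adj, hKinv, hTh, ← hK]
    calc C * (B * L' * Bᴴ * Θᴴ * K) * B = (C * B) * L' * Bᴴ * Θᴴ * (Cᴴ * Bᴴ) * K * B := by
          rw [hBC', Matrix.mul_one]; simp only [Matrix.mul_assoc]
      _ = _ := by rw [hCB, Matrix.one_mul]; simp only [Matrix.mul_assoc]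
  have hY : C * ((q : ℂ) • brk Θ K) * B =
      (q : ℂ) • (T * (L' * Tᴴ * L) - (L' * Tᴴ * L) * T) := by
    rw [Matrix.mul_smul, Matrix.smul_mul]
    congr 1
    rw [brk, ← hadj, hT, Matrix.mul_sub, Matrix.sub_mul]
    congr 1
    · calc C * (Θ * adj K Θ) * B = C * Θ * (B * C) * (adj K Θ) * B := by
            rw [hBC, Matrix.mul_one]; simp only [Matrix.mul_assoc]
        _ = _ := by simp only [Matrix.mul_assoc]
    · calc C * (adj K Θ * Θ) * B = C * adj K Θ * (B * C) * Θ * B := by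
            rw [hBC, Matrix.mul_one]; simp only [Matrix.mul_assoc]
        _ = _ := by simp only [Matrix.mul_assoc]
  set Y := C * ((q : ℂ) • brk Θ K) * B with hYdef
  have hEE : Eᴴ * E = 1 := En_star_mul r j hj
  have hEP : E * Eᴴ = Pi r j := En_mul_star r j
  have hPL : Pi r j * L = L * Pi r j := by
    rw [Pi, hL, Matrix.diagonal_mul_diagonal, Matrix.diagonal_mul_diagonal]
    congr 1
    funext i
    exact mul_comm _ _
  have h1 : (B * E)ᴴ * K * (B * E) = Eᴴ * L * E := by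
    rw [Matrix.conjTranspose_mul, ← hK]
    simp only [Matrix.mul_assoc]
  have h2 : (B * E)ᴴ * K * ((q : ℂ) • brk Θ K) * (B * E) = (Eᴴ * L * E) * (Eᴴ * Y * E) := by
    have e1 : (B * E)ᴴ * K * ((q : ℂ) • brk Θ K) * (B * E) = Eᴴ * L * Y * E := by
      rw [Matrix.conjTranspose_mul, ← hK, hYdef]
      calc Eᴴ * Bᴴ * K * ((q : ℂ) • brk Θ K) * (B * E)
          = Eᴴ * Bᴴ * K * (B * C) * ((q : ℂ) • brk Θ K) * (B * E) := by
            rw [hBC, Matrix.mul_one]
        _ = _ := by simp only [Matrix.mul_assoc]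
    have e2 : Eᴴ * L = (Eᴴ * L * E) * Eᴴ := by
      calc Eᴴ * L = (Eᴴ * E) * Eᴴ * L := by rw [hEE, Matrix.one_mul]
        _ = Eᴴ * ((E * Eᴴ) * L) := by simp only [Matrix.mul_assoc]
        _ = Eᴴ * (L * (E * Eᴴ)) := by rw [hEP, hPL]
        _ = _ := by simp only [Matrix.mul_assoc]
    rw [e1]
    calc Eᴴ * L * Y * E = (Eᴴ * L) * (Y * E) := by simp only [Matrix.mul_assoc]
      _ = ((Eᴴ * L * E) * Eᴴ) * (Y * E) := by rw [← e2]
      _ = _ := by simp only [Matrix.mul_assoc]
  have h3 : IsUnit (Eᴴ * L * E).det := by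
    have e : (Eᴴ * L * E) * (Eᴴ * L' * E) = 1 := by
      calc (Eᴴ * L * E) * (Eᴴ * L' * E) = Eᴴ * (L * (E * Eᴴ)) * L' * E := by
            simp only [Matrix.mul_assoc]
        _ = Eᴴ * ((E * Eᴴ) * L) * L' * E := by rw [hEP, hPL]
        _ = (Eᴴ * E) * Eᴴ * (L * L') * E := by simp only [Matrix.mul_assoc]
        _ = 1 := by rw [hEE, hLL, Matrix.one_mul, Matrix.mul_one, hEE]
    exact IsUnit.of_mul_eq_one _ (by rw [← Matrix.det_mul, e, Matrix.det_one])
  have h4 : trq K ((q : ℂ) • brk Θ K) (B * E) = (Eᴴ * Y * E).trace.re := by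
    have e : ((B * E)ᴴ * K * (B * E))⁻¹ * ((B * E)ᴴ * K * ((q : ℂ) • brk Θ K) * (B * E)) =
        Eᴴ * Y * E := by
      rw [h1, h2, ← Matrix.mul_assoc, Matrix.nonsing_inv_mul _ h3, Matrix.one_mul]
    rw [trq, e]
  have h5 : (Eᴴ * Y * E).trace = ∑ i ∈ Finset.univ.filter (fun i : Fin r => (i : ℕ) < j), Y i i := by
    rw [Matrix.mul_assoc, Matrix.trace_mul_comm, Matrix.mul_assoc, hEP, Pi, Matrix.trace]
    simp only [Matrix.diag_apply, Matrix.mul_diagonal]
    rw [Finset.sum_filter]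
    refine Finset.sum_congr rfl fun i _ => ?_
    split_ifs <;> simp
  rw [h4, h5, Complex.re_sum, Finset.mul_sum]
  refine Finset.sum_congr rfl fun i _ => ?_
  have h6 : Y i i = ((q * ∑ m, gk T κ i m : ℝ) : ℂ) := by
    rw [hY, Matrix.smul_apply, Matrix.sub_apply, Matrix.mul_apply, Matrix.mul_apply,
      ← Finset.sum_sub_distrib, smul_eq_mul]
    push_cast
    congr 1
    refine Finset.sum_congr rfl fun m _ => ?_
    rw [hL, hL', Matrix.mul_diagonal, Matrix.diagonal_mul, Matrix.mul_diagonal,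
      Matrix.diagonal_mul, Matrix.conjTranspose_apply, Matrix.conjTranspose_apply, gk]
    push_cast
    rw [Complex.normSq_eq_conj_mul_self, Complex.normSq_eq_conj_mul_self, Complex.star_def]
    field_simp
  rw [h6, Complex.ofReal_re]

theorem sum_gk {r : ℕ} (T : M r) (κ : Fin r → ℝ) (j : ℕ) :
    ∑ i ∈ Finset.univ.filter (fun i : Fin r => (i : ℕ) < j), ∑ m, gk T κ i m =
      ∑ i ∈ Finset.univ.filter (fun i : Fin r => (i : ℕ) < j),
        ∑ m ∈ Finset.univ.filter (fun m : Fin r => ¬ (m : ℕ) < j), gk T κ i m := by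
  have h0 : ∑ i ∈ Finset.univ.filter (fun i : Fin r => (i : ℕ) < j),
      ∑ m ∈ Finset.univ.filter (fun m : Fin r => (m : ℕ) < j), gk T κ i m = 0 := by
    set S := ∑ i ∈ Finset.univ.filter (fun i : Fin r => (i : ℕ) < j),
      ∑ m ∈ Finset.univ.filter (fun m : Fin r => (m : ℕ) < j), gk T κ i m with hS
    have h1 : S = - S := by
      conv_lhs => rw [hS, Finset.sum_comm]
      rw [hS, ← Finset.sum_neg_distrib]
      refine Finset.sum_congr rfl fun i _ => ?_
      rw [← Finset.sum_neg_distrib]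
      refine Finset.sum_congr rfl fun m _ => ?_
      unfold gk
      ring
    linarith
  have h1 : ∀ i : Fin r, ∑ m, gk T κ i m =
      ∑ m ∈ Finset.univ.filter (fun m : Fin r => (m : ℕ) < j), gk T κ i m +
      ∑ m ∈ Finset.univ.filter (fun m : Fin r => ¬ (m : ℕ) < j), gk T κ i m := fun i =>
    (Finset.sum_filter_add_sum_filter_not _ _ _).symm
  simp only [h1, Finset.sum_add_distrib, h0, zero_add]

end Gap

open Gap in
theorem gap_proof : Stmt_Gap := by
  intro r j P K Θ B κ p q hj hP hK hB hBP hBK hκ hp hq hgap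
  have e1 := trq_formula hj P Θ B (fun _ => 1) p hB (by rw [hBP]; simp) (fun _ => one_pos)
  have e2 := trq_formula hj K Θ B κ q hB hBK hκ
  rw [e1, e2, sum_gk, sum_gk, Finset.mul_sum, Finset.mul_sum]
  refine Finset.sum_le_sum fun i hi => ?_
  rw [Finset.mul_sum, Finset.mul_sum]
  refine Finset.sum_le_sum fun m hm => ?_
  have hi' : (i : ℕ) < j := (Finset.mem_filter.1 hi).2
  have hm' : j ≤ (m : ℕ) := not_lt.1 (Finset.mem_filter.1 hm).2
  obtain ⟨g1, g2⟩ := hgap i m hi' hm'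
  unfold gk
  set a := Complex.normSq ((B⁻¹ * Θ * B) i m) with ha
  set b := Complex.normSq ((B⁻¹ * Θ * B) m i) with hb
  have ha0 : 0 ≤ a := Complex.normSq_nonneg _
  have hb0 : 0 ≤ b := Complex.normSq_nonneg _
  have h1 : p ≤ q * (κ i / κ m) := by
    rw [← mul_div_assoc, le_div_iff₀ (hκ m)]
    exact g1
  have h2 : q * (κ m / κ i) ≤ p := by
    rw [← mul_div_assoc, div_le_iff₀ (hκ i)]
    exact g2
  have h3 : a * p ≤ a * (q * (κ i / κ m)) := mul_le_mul_of_nonneg_left h1 ha0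
  have h4 : b * (q * (κ m / κ i)) ≤ b * p := mul_le_mul_of_nonneg_left h2 hb0
  have h5 : (1 : ℝ) / 1 = 1 := one_div_one
  rw [h5]
  nlinarith

end Pool.Agent.HSC
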