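import Pool.Agent.HSC.Stmts

/-!
# HSC, module GAUGE: pull back by holomorphic maps and holomorphic gauge transformations
-/

set_option autoImplicit false

open scoped Matrix.Norms.Frobenius ContDiff Topology ComplexOrder ComplexConjugate
open Set Filter Metric Matrix

noncomputable section

namespace Pool.Agent.HSC

namespace Gauge

variable {r : ℕ}

theorem inv_mul_self {A : M r} (h : IsUnit A) : A⁻¹ * A = 1 :=
  Matrix.nonsing_inv_mul _ ((Matrix.isUnit_iff_isUnit_det _).1 h)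

theorem mul_inv_self {A : M r} (h : IsUnit A) : A * A⁻¹ = 1 :=
  Matrix.mul_nonsing_inv _ ((Matrix.isUnit_iff_isUnit_det _).1 h)

theorem isUnit_conjTranspose {A : M r} (h : IsUnit A) : IsUnit Aᴴ := h.star

theorem holo_inv {G : ℂ → M r} {z : ℂ} (hG : DifferentiableAt ℂ G z) (hu : IsUnit (G z)) :
    DifferentiableAt ℂ (fun w => (G w)⁻¹) z := by
  have hR : DifferentiableAt ℝ G z := hG.restrictScalars ℝ
  apply differentiableAt_of_db_eq_zero (differentiableAt_inv hR hu)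
  rw [db_inv hR hu, db_holo hG]
  simp

theorem brk_gauge (Θ K G : M r) (c : ℂ) (hG : IsUnit G) (hK : IsUnit K) :
    brk (c • (G⁻¹ * Θ * G)) (Gᴴ * K * G) = (c * conj c) • (G⁻¹ * brk Θ K * G) := by
  have e1 := inv_mul_self hG
  have e2 := mul_inv_self hG
  have hGH := isUnit_conjTranspose hG
  have e3 := inv_mul_self hGH
  have e4 := mul_inv_self hGH
  have e5 := inv_mul_self hK
  have hadj : adj (Gᴴ * K * G) (c • (G⁻¹ * Θ * G)) = conj c • (G⁻¹ * adj K Θ * G) := by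
    unfold adj
    have h1 : (Gᴴ * K * G)⁻¹ = G⁻¹ * K⁻¹ * (Gᴴ)⁻¹ := by
      rw [Matrix.mul_inv_rev, Matrix.mul_inv_rev, Matrix.mul_assoc]
    have h2 : (c • (G⁻¹ * Θ * G))ᴴ = conj c • (Gᴴ * Θᴴ * (Gᴴ)⁻¹) := by
      rw [Matrix.conjTranspose_smul, Matrix.conjTranspose_mul, Matrix.conjTranspose_mul,
        Matrix.conjTranspose_nonsing_inv, Matrix.mul_assoc]
      rfl
    rw [h1, h2]
    simp only [Matrix.mul_smul, Matrix.smul_mul]
    congr 1
    calc G⁻¹ * K⁻¹ * (Gᴴ)⁻¹ * (Gᴴ * Θᴴ * (Gᴴ)⁻¹) * (Gᴴ * K * G)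
        = G⁻¹ * K⁻¹ * ((Gᴴ)⁻¹ * Gᴴ) * Θᴴ * ((Gᴴ)⁻¹ * Gᴴ) * K * G := by
          simp only [Matrix.mul_assoc]
      _ = G⁻¹ * (K⁻¹ * Θᴴ * K) * G := by
          rw [e3]
          simp only [Matrix.mul_one, Matrix.mul_assoc]
  unfold brk
  rw [hadj]
  simp only [Matrix.mul_smul, Matrix.smul_mul, smul_smul]
  rw [mul_comm (conj c) c, ← smul_sub]
  congr 1
  have h1 : G⁻¹ * Θ * G * (G⁻¹ * adj K Θ * G) = G⁻¹ * (Θ * adj K Θ) * G := by
    calc G⁻¹ * Θ * G * (G⁻¹ * adj K Θ * G) = G⁻¹ * Θ * (G * G⁻¹) * adj K Θ * G := by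
          simp only [Matrix.mul_assoc]
      _ = _ := by rw [e2]; simp only [Matrix.mul_one, Matrix.mul_assoc]
  have h2 : G⁻¹ * adj K Θ * G * (G⁻¹ * Θ * G) = G⁻¹ * (adj K Θ * Θ) * G := by
    calc G⁻¹ * adj K Θ * G * (G⁻¹ * Θ * G) = G⁻¹ * adj K Θ * (G * G⁻¹) * Θ * G := by
          simp only [Matrix.mul_assoc]
      _ = _ := by rw [e2]; simp only [Matrix.mul_one, Matrix.mul_assoc]
  rw [h1, h2, Matrix.mul_sub, Matrix.sub_mul]

/-- The connection form of the transformed metric. -/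
theorem conn_gauge {K G : ℂ → M r} {f : ℂ → ℂ} {z : ℂ} (hG : DifferentiableAt ℂ G z)
    (hGu : IsUnit (G z)) (hf : DifferentiableAt ℂ f z) (hK : DifferentiableAt ℝ K (f z))
    (hKu : IsUnit (K (f z))) :
    ((G z)ᴴ * K (f z) * G z)⁻¹ * dz (fun w => (G w)ᴴ * K (f w) * G w) z =
      deriv f z • ((G z)⁻¹ * ((K (f z))⁻¹ * dz K (f z)) * G z) + (G z)⁻¹ * deriv G z := by
  have hGR : DifferentiableAt ℝ G z := hG.restrictScalars ℝ
  have hGH := differentiableAt_conjTranspose hGR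
  have hKf : DifferentiableAt ℝ (fun w => K (f w)) z :=
    DifferentiableAt.comp (f := f) z hK (hf.restrictScalars ℝ)
  have h1 : dz (fun w => (G w)ᴴ * K (f w) * G w) z =
      (G z)ᴴ * (deriv f z • dz K (f z)) * G z + (G z)ᴴ * K (f z) * deriv G z := by
    rw [dz_mul (differentiableAt_mul hGH hKf) hGR, dz_mul hGH hKf, dz_conjTranspose hGR,
      db_holo hG, dz_comp hf hK, dz_holo hG]
    simp
    rfl
  have e1 := inv_mul_self hGu
  have e3 := inv_mul_self (isUnit_conjTranspose hGu)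
  have e5 := inv_mul_self hKu
  have h2 : ((G z)ᴴ * K (f z) * G z)⁻¹ = (G z)⁻¹ * (K (f z))⁻¹ * ((G z)ᴴ)⁻¹ := by
    rw [Matrix.mul_inv_rev, Matrix.mul_inv_rev, Matrix.mul_assoc]
  rw [h1, h2, Matrix.mul_add]
  congr 1
  · simp only [Matrix.mul_smul, Matrix.smul_mul]
    congr 1
    calc (G z)⁻¹ * (K (f z))⁻¹ * ((G z)ᴴ)⁻¹ * ((G z)ᴴ * dz K (f z) * G z)
        = (G z)⁻¹ * (K (f z))⁻¹ * (((G z)ᴴ)⁻¹ * (G z)ᴴ) * dz K (f z) * G z := by
          simp only [Matrix.mul_assoc]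
      _ = _ := by rw [e3]; simp only [Matrix.mul_one, Matrix.mul_assoc]
  · calc (G z)⁻¹ * (K (f z))⁻¹ * ((G z)ᴴ)⁻¹ * ((G z)ᴴ * K (f z) * deriv G z)
        = (G z)⁻¹ * ((K (f z))⁻¹ * (((G z)ᴴ)⁻¹ * (G z)ᴴ) * K (f z)) * deriv G z := by
          simp only [Matrix.mul_assoc]
      _ = _ := by rw [e3, Matrix.mul_one, e5, Matrix.mul_one]

end Gauge

open Gauge in
theorem gauge_proof : Stmt_Gauge := by
  intro r U U' q Θ K G f hU hU' hS hf hmaps hG hGu
  have hfa : ∀ z ∈ U', DifferentiableAt ℂ f z := fun z hz => hf.differentiableAt (hU'.mem_nhds hz)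
  have hGa : ∀ z ∈ U', DifferentiableAt ℂ G z := fun z hz => hG.differentiableAt (hU'.mem_nhds hz)
  have hKs : ∀ z ∈ U, ContDiffAt ℝ ∞ K z := fun z hz => hS.smooth.contDiffAt (hU.mem_nhds hz)
  have hKu : ∀ z ∈ U, IsUnit (K z) := fun z hz => (hS.pos z hz).isUnit
  have hfC : ContDiffOn ℝ ∞ f U' := (hf.contDiffOn hU').restrict_scalars ℝ
  have hGC : ContDiffOn ℝ ∞ G U' := (hG.contDiffOn hU').restrict_scalars ℝ
  refine ⟨?_, ?_, ?_⟩
  · have h1 : ContDiffOn ℝ ∞ (fun z => K (f z)) U' := hS.smooth.comp hfC hmaps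
    exact ((contDiffOn_conjTranspose hGC).mul h1).mul hGC
  · intro z hz
    refine (hS.pos (f z) (hmaps hz)).conjTranspose_mul_mul_same ?_
    exact Matrix.mulVec_injective_of_isUnit (hGu z hz)
  · intro z hz
    -- the connection form near `z`
    have hev : (fun w => ((G w)ᴴ * K (f w) * G w)⁻¹ * dz (fun y => (G y)ᴴ * K (f y) * G y) w)
        =ᶠ[𝓝 z] fun w => deriv f w • ((G w)⁻¹ * ((K (f w))⁻¹ * dz K (f w)) * G w) +
          (G w)⁻¹ * deriv G w := by
      filter_upwards [hU'.mem_nhds hz] with w hw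
      exact conn_gauge (hGa w hw) (hGu w hw) (hfa w hw)
        ((hKs _ (hmaps hw)).differentiableAt (by simp)) (hKu _ (hmaps hw))
    unfold Qc
    rw [db_congr hev]
    have hGz := hGa z hz
    have hGzR : DifferentiableAt ℝ G z := hGz.restrictScalars ℝ
    have hGi := holo_inv hGz (hGu z hz)
    have hGiR : DifferentiableAt ℝ (fun w => (G w)⁻¹) z := hGi.restrictScalars ℝ
    have hdf : DifferentiableAt ℂ (deriv f) z :=
      (hf.deriv hU').differentiableAt (hU'.mem_nhds hz)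
    have hdG : DifferentiableAt ℂ (deriv G) z :=
      (hG.deriv hU').differentiableAt (hU'.mem_nhds hz)
    have hA : DifferentiableAt ℝ (fun w => (K w)⁻¹ * dz K w) (f z) := by
      have h1 : DifferentiableAt ℝ K (f z) := (hKs _ (hmaps hz)).differentiableAt (by simp)
      have h2 : DifferentiableAt ℝ (dz K) (f z) :=
        (contDiffAt_dz_infty (hKs _ (hmaps hz))).differentiableAt (by simp)
      exact differentiableAt_mul (differentiableAt_inv h1 (hKu _ (hmaps hz))) h2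
    have hAf : DifferentiableAt ℝ (fun w => (K (f w))⁻¹ * dz K (f w)) z :=
      DifferentiableAt.comp (f := f) (g := fun w => (K w)⁻¹ * dz K w) z hA
        ((hfa z hz).restrictScalars ℝ)
    have hB : DifferentiableAt ℝ (fun w => (G w)⁻¹ * ((K (f w))⁻¹ * dz K (f w)) * G w) z :=
      differentiableAt_mul (differentiableAt_mul hGiR hAf) hGzR
    have hC : DifferentiableAt ℂ (fun w => (G w)⁻¹ * deriv G w) z := hGi.mul hdG
    have hD : DifferentiableAt ℝ (fun w => deriv f w •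
        ((G w)⁻¹ * ((K (f w))⁻¹ * dz K (f w)) * G w)) z :=
      (hdf.restrictScalars ℝ).smul hB
    rw [db_add hD (hC.restrictScalars ℝ), db_holo hC, add_zero,
      db_smul (hdf.restrictScalars ℝ) hB, db_holo hdf, zero_smul, zero_add,
      db_mul (differentiableAt_mul hGiR hAf) hGzR, db_holo hGz, Matrix.mul_zero, add_zero,
      db_mul hGiR hAf, db_holo hGi, Matrix.zero_mul, zero_add,
      db_comp (F := fun w => (K w)⁻¹ * dz K w) (hfa z hz) hA]
    have hq : db (fun w => (K w)⁻¹ * dz K w) (f z) = (q : ℂ) • brk (Θ (f z)) (K (f z)) :=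
      hS.eqn (f z) (hmaps hz)
    rw [hq, brk_gauge _ _ _ _ (hGu z hz) (hKu _ (hmaps hz))]
    simp only [Matrix.mul_smul, Matrix.smul_mul, smul_smul]
    congr 1
    ring

end Pool.Agent.HSC
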