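import Pool.Agent.HSC.Basic

/-!
# Statements of the modules of part one (local analysis)
-/

set_option autoImplicit false

open scoped Matrix.Norms.Frobenius ContDiff Topology Manifold ComplexOrder ComplexConjugate
open Matrix Set Filter MeasureTheory Metric

noncomputable section

namespace Pool.Agent.HSC

/-! ## Further definitions -/

/-- `A ≤ e^c B` and `B ≤ e^c A` in the Loewner order -/
def Thm {r : ℕ} (c : ℝ) (A B : M r) : Prop :=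
  ((Real.exp c : ℂ) • B - A).PosSemidef ∧ ((Real.exp c : ℂ) • A - B).PosSemidef

/-- the Thompson distance of two positive definite matrices -/
def dT {r : ℕ} (A B : M r) : ℝ := sInf {c : ℝ | 0 ≤ c ∧ Thm c A B}

/-- `u` satisfies `∂̄∂u ≥ -C` at `z` in the viscosity sense -/
def VSub (C : ℝ) (u : ℂ → ℝ) (z : ℂ) : Prop :=
  ∀ ψ : ℂ → ℝ, ContDiffAt ℝ 2 ψ z → (∀ᶠ w in 𝓝 z, u w - ψ w ≤ u z - ψ z) → -C ≤ ddb ψ z

/-- the columns of `V` are linearly independent -/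
def Inj {r j : ℕ} (V : Matrix (Fin r) (Fin j) ℂ) : Prop := Function.Injective V.mulVec

/-- `log det (Vᴴ K V)` -/
def ldet {r j : ℕ} (K : M r) (V : Matrix (Fin r) (Fin j) ℂ) : ℝ :=
  Real.log (Vᴴ * K * V).det.re

/-- the trace of the compression of the endomorphism `Q` to the span of the columns of `V`,
orthogonality with respect to `K` -/
def trq {r j : ℕ} (K Q : M r) (V : Matrix (Fin r) (Fin j) ℂ) : ℝ :=
  (((Vᴴ * K * V)⁻¹ * (Vᴴ * K * Q * V)).trace).re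

/-- the first `j` basis vectors -/
def En (r j : ℕ) : Matrix (Fin r) (Fin j) ℂ :=
  Matrix.of fun i k => if (i : ℕ) = (k : ℕ) then 1 else 0

/-- the a priori bound of `K` relative to `P`: equal determinants, and
`det (Vᴴ K V) ≤ e^{b j} det (Vᴴ P V)` for every `r × j` matrix `V` -/
def Bd {r : ℕ} (b : ℕ → ℝ) (P K : M r) : Prop :=
  K.det = P.det ∧ ∀ j ≤ r, ∀ V : Matrix (Fin r) (Fin j) ℂ,
    (Vᴴ * K * V).det.re ≤ Real.exp (b j) * (Vᴴ * P * V).det.re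

/-- `∂A/∂z̄ = Q` on `U` in the weak sense -/
def WeakDb {E : Type*} [NormedAddCommGroup E] [NormedSpace ℂ E] (U : Set ℂ) (A Q : ℂ → E) :
    Prop :=
  ∀ ψ : ℂ → ℂ, ContDiff ℝ 1 ψ → HasCompactSupport ψ → tsupport ψ ⊆ U →
    ∫ z, db ψ z • A z = - ∫ z, ψ z • Q z

/-- the Cauchy transform -/
def CT {E : Type*} [NormedAddCommGroup E] [NormedSpace ℂ E] (f : ℂ → E) (z : ℂ) : E :=
  (-(1 / (Real.pi : ℂ))) • ∫ w, (w - z)⁻¹ • f w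

/-! ## Linear algebra -/

/-- derivative of the determinant -/
def Stmt_Jac : Prop := ∀ (j : ℕ) (F : ℂ → M j) (z : ℂ), DifferentiableAt ℝ F z →
  DifferentiableAt ℝ (fun w => (F w).det) z ∧
  dz (fun w => (F w).det) z = (adjugate (F z) * dz F z).trace ∧
  db (fun w => (F w).det) z = (adjugate (F z) * db F z).trace

/-- simultaneous diagonalisation -/
def Stmt_Simd : Prop := ∀ (r : ℕ) (P K : M r), P.PosDef → K.IsHermitian →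
  ∃ (B : M r) (κ : Fin r → ℝ), IsUnit B ∧ Antitone κ ∧ Bᴴ * P * B = 1 ∧
    Bᴴ * K * B = Matrix.diagonal (fun i => (κ i : ℂ))

/-- Ky Fan -/
def Stmt_KyFan : Prop := ∀ (r j : ℕ) (κ : Fin r → ℝ), j ≤ r → Antitone κ → (∀ i, 0 < κ i) →
  ∀ V : Matrix (Fin r) (Fin j) ℂ,
    (Vᴴ * Matrix.diagonal (fun i => (κ i : ℂ)) * V).det.re ≤
      (∏ i ∈ Finset.univ.filter (fun i : Fin r => (i : ℕ) < j), κ i) * (Vᴴ * V).det.re

/-- the algebra of the a priori bound -/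
def Stmt_Gap : Prop := ∀ (r j : ℕ) (P K Θ B : M r) (κ : Fin r → ℝ) (p q : ℝ), j ≤ r →
  P.PosDef → K.PosDef → IsUnit B → Bᴴ * P * B = 1 →
  Bᴴ * K * B = Matrix.diagonal (fun i => (κ i : ℂ)) → (∀ i, 0 < κ i) → 0 < p → 0 < q →
  (∀ i m : Fin r, (i : ℕ) < j → j ≤ (m : ℕ) → p * κ m ≤ q * κ i ∧ q * κ m ≤ p * κ i) →
  trq P ((p : ℂ) • brk Θ P) (B * En r j) ≤ trq K ((q : ℂ) • brk Θ K) (B * En r j)

/-- API of the Thompson distance -/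
structure Stmt_DT : Prop where
  nonneg : ∀ (r : ℕ) (A B : M r), 0 ≤ dT A B
  comm : ∀ (r : ℕ) (A B : M r), dT A B = dT B A
  self : ∀ (r : ℕ) (A : M r), A.PosDef → dT A A = 0
  /-- the infimum is attained -/
  thm : ∀ (r : ℕ) (A B : M r), A.PosDef → B.PosDef → Thm (dT A B) A B
  le : ∀ (r : ℕ) (A B : M r) (c : ℝ), 0 ≤ c → Thm c A B → dT A B ≤ c
  /-- the relation `Thm c` is monotone in `c` -/
  mono : ∀ (r : ℕ) (A B : M r) (c c' : ℝ), A.PosDef → B.PosDef → c ≤ c' → Thm c A B → Thm c' A B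
  tri : ∀ (r : ℕ) (A B C : M r), A.PosDef → B.PosDef → C.PosDef →
    dT A C ≤ dT A B + dT B C
  congr : ∀ (r : ℕ) (A B G : M r), IsUnit G → dT (Gᴴ * A * G) (Gᴴ * B * G) = dT A B
  eq : ∀ (r : ℕ) (A B : M r), A.PosDef → B.PosDef → dT A B = 0 → A = B
  inv : ∀ (r : ℕ) (A B : M r) (c : ℝ), A.PosDef → B.PosDef → Thm c A B → Thm c A⁻¹ B⁻¹
  /-- a positive distance is attained at a generalized eigenvector -/
  att : ∀ (r : ℕ) (A B : M r), A.PosDef → B.PosDef → 0 < dT A B →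
    ∃ v : Fin r → ℂ, v ≠ 0 ∧ (A *ᵥ v = (Real.exp (dT A B) : ℂ) • (B *ᵥ v) ∨
      B *ᵥ v = (Real.exp (dT A B) : ℂ) • (A *ᵥ v))
  cont : ∀ r : ℕ, ContinuousOn (fun p : M r × M r => dT p.1 p.2)
    {p | p.1.PosDef ∧ p.2.PosDef}
  /-- norm bounds -/
  norm_le : ∀ (r : ℕ) (A : M r) (c : ℝ), A.PosDef → Thm c A 1 →
    ‖A‖ ≤ Real.sqrt r * Real.exp c ∧ ‖A⁻¹‖ ≤ Real.sqrt r * Real.exp c
  /-- matrices near `1` -/
  near : ∀ (r : ℕ) (ε : ℝ), 0 < ε → ∃ δ > 0, ∀ A : M r, A.IsHermitian → ‖A - 1‖ ≤ δ →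
    A.PosDef ∧ Thm ε A 1
  /-- the set of positive definite matrices with `Thm c · B` is compact -/
  compact : ∀ (r : ℕ) (B : M r) (c : ℝ), B.PosDef → IsCompact {A : M r | A.PosDef ∧ Thm c A B}

/-- API of the bound `Bd` -/
structure Stmt_BdApi : Prop where
  refl : ∀ (r : ℕ) (b : ℕ → ℝ) (P : M r), P.PosDef → (∀ j ≤ r, 0 ≤ b j) → Bd b P P
  congr : ∀ (r : ℕ) (b : ℕ → ℝ) (P K G : M r), Bd b P K → Bd b (Gᴴ * P * G) (Gᴴ * K * G)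
  closed : ∀ (r : ℕ) (b : ℕ → ℝ) (P : M r), IsClosed {K : M r | Bd b P K}
  thm : ∀ (r : ℕ) (b : ℕ → ℝ) (P K : M r), P.PosDef → K.PosDef → (∀ j ≤ r, 0 ≤ b j) →
    Bd b P K → Thm (max (b 1) (b (r - 1))) K P

/-! ## Maximum principles -/

/-- second derivative test -/
def Stmt_LocMax : Prop := ∀ (ψ : ℂ → ℝ) (z : ℂ), ContDiffAt ℝ 2 ψ z → IsLocalMax ψ z → ddb ψ z ≤ 0

/-- comparison with a smooth supersolution on a disc -/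
def Stmt_VCmp : Prop := ∀ (u w : ℂ → ℝ) (a : ℂ) (ρ C : ℝ), 0 < ρ →
  ContinuousOn u (closedBall a ρ) → ContinuousOn w (closedBall a ρ) →
  (∀ z ∈ ball a ρ, ContDiffAt ℝ 2 w z ∧ ddb w z ≤ -C) → (∀ z ∈ ball a ρ, VSub C u z) →
  (∀ z ∈ sphere a ρ, u z ≤ w z) → ∀ z ∈ closedBall a ρ, u z ≤ w z

/-- the touching lemma -/
def Stmt_Touch : Prop := ∀ (r j : ℕ) (K P : ℂ → M r) (z₀ : ℂ) (V₀ : Matrix (Fin r) (Fin j) ℂ)
  (ψ : ℂ → ℝ), ContDiffAt ℝ ∞ K z₀ → ContDiffAt ℝ ∞ P z₀ →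
  (∀ᶠ z in 𝓝 z₀, (K z).PosDef) → (∀ᶠ z in 𝓝 z₀, (P z).PosDef) → Inj V₀ →
  ContDiffAt ℝ 2 ψ z₀ →
  (∀ᶠ z in 𝓝 z₀, ∀ V : Matrix (Fin r) (Fin j) ℂ, Inj V →
    ldet (K z) V - ldet (P z) V - ψ z ≤ ldet (K z₀) V₀ - ldet (P z₀) V₀ - ψ z₀) →
  trq (K z₀) (Qc K z₀) V₀ - trq (P z₀) (Qc P z₀) V₀ ≤ ddb ψ z₀

/-- the a priori bound: comparison of a solution for `p` and a solution for `q` -/
def Stmt_Cmp : Prop := ∀ (r : ℕ) (p q : ℝ) (b : ℕ → ℝ) (Θ P K : ℂ → M r) (a : ℂ) (ρ : ℝ),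
  0 < p → 0 < q → 0 < ρ → b 0 = 0 → b r = 0 →
  (∀ j, 1 ≤ j → j < r → |Real.log (q / p)| ≤ 2 * b j - b (j - 1) - b (j + 1)) →
  ContinuousOn P (closedBall a ρ) → ContinuousOn K (closedBall a ρ) →
  (∀ z ∈ closedBall a ρ, (P z).PosDef ∧ (K z).PosDef) →
  Sol (ball a ρ) p Θ P → Sol (ball a ρ) q Θ K →
  (∀ z ∈ sphere a ρ, Bd b (P z) (K z)) → ∀ z ∈ closedBall a ρ, Bd b (P z) (K z)

/-- the Thompson distance of two solutions is subharmonic -/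
def Stmt_TP : Prop := ∀ (r : ℕ) (U : Set ℂ) (q : ℝ) (Θ K L : ℂ → M r), IsOpen U → 0 ≤ q →
  Sol U q Θ K → Sol U q Θ L → ∀ z ∈ U, VSub 0 (fun w => dT (K w) (L w)) z

/-- the Thompson distance of a solution to a constant matrix is almost subharmonic -/
def Stmt_TPC : Prop := ∀ (r : ℕ) (q B c : ℝ), 0 ≤ q → 0 ≤ c → ∃ C : ℝ, 0 ≤ C ∧
  ∀ (U : Set ℂ) (Θ K : ℂ → M r) (P₀ : M r), IsOpen U → Sol U q Θ K → (∀ z ∈ U, ‖Θ z‖ ≤ B) →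
    P₀.PosDef → Thm c P₀ 1 → ∀ z ∈ U, VSub C (fun w => dT (K w) P₀) z

/-- comparison principle for two solutions -/
def Stmt_DMax : Prop := ∀ (r : ℕ) (q : ℝ) (Θ K L : ℂ → M r) (a : ℂ) (ρ c : ℝ), 0 ≤ q → 0 < ρ →
  ContinuousOn K (closedBall a ρ) → ContinuousOn L (closedBall a ρ) →
  (∀ z ∈ closedBall a ρ, (K z).PosDef ∧ (L z).PosDef) →
  Sol (ball a ρ) q Θ K → Sol (ball a ρ) q Θ L →
  (∀ z ∈ sphere a ρ, dT (K z) (L z) ≤ c) → ∀ z ∈ closedBall a ρ, dT (K z) (L z) ≤ c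

/-- boundary modulus of continuity -/
def Stmt_BMod : Prop := ∀ (r : ℕ) (q B c ρ η σ : ℝ), 0 ≤ q → 0 ≤ c → 0 < ρ → 0 < η → 0 < σ →
  ∃ δ > 0, ∀ (Θ K : ℂ → M r) (a x₀ : ℂ), ContinuousOn K (closedBall a ρ) →
    (∀ z ∈ closedBall a ρ, (K z).PosDef ∧ Thm c (K z) 1) → Sol (ball a ρ) q Θ K →
    (∀ z ∈ ball a ρ, ‖Θ z‖ ≤ B) → x₀ ∈ sphere a ρ →
    (∀ z ∈ sphere a ρ, ‖z - x₀‖ < σ → dT (K z) (K x₀) ≤ η) →
    ∀ z ∈ closedBall a ρ, ‖z - x₀‖ < δ → dT (K z) (K x₀) ≤ 2 * η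

/-! ## Gauge transformations -/

/-- pull back of solutions by holomorphic maps and holomorphic gauge transformations -/
def Stmt_Gauge : Prop := ∀ (r : ℕ) (U U' : Set ℂ) (q : ℝ) (Θ K G : ℂ → M r) (f : ℂ → ℂ),
  IsOpen U → IsOpen U' → Sol U q Θ K → DifferentiableOn ℂ f U' → MapsTo f U' U →
  DifferentiableOn ℂ G U' → (∀ z ∈ U', IsUnit (G z)) →
  Sol U' q (fun z => deriv f z • ((G z)⁻¹ * Θ (f z) * G z)) (fun z => (G z)ᴴ * K (f z) * G z)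

/-! ## The Cauchy transform and regularity -/

/-- the Cauchy transform of smooth functions -/
structure Stmt_CT : Prop where
  smooth : ∀ (r n : ℕ) (f : ℂ → M r), 1 ≤ n → ContDiff ℝ n f → HasCompactSupport f →
    ContDiff ℝ n (CT f)
  inv1 : ∀ (r : ℕ) (f : ℂ → M r), ContDiff ℝ 1 f → HasCompactSupport f → ∀ z, db (CT f) z = f z
  inv2 : ∀ (r : ℕ) (f : ℂ → M r), ContDiff ℝ 1 f → HasCompactSupport f → ∀ z, CT (db f) z = f z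
  /-- the scalar version of `inv2` -/
  inv2' : ∀ f : ℂ → ℂ, ContDiff ℝ 1 f → HasCompactSupport f → ∀ z, CT (db f) z = f z

/-- bounds of the Cauchy transform -/
def Stmt_CTB : Prop := ∀ (r : ℕ) (R : ℝ), 0 < R → ∃ C > 0, ∀ (f : ℂ → M r) (a : ℂ) (m : ℝ),
  AEStronglyMeasurable f volume → (∀ w, ‖f w‖ ≤ m) → (∀ w ∉ closedBall a R, f w = 0) →
    (∀ z, ‖CT f z‖ ≤ C * m) ∧ (∀ z z', ‖CT f z - CT f z'‖ ≤ C * m * Real.sqrt ‖z - z'‖)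

/-- weak `∂̄` of the Cauchy transform of a bounded function -/
def Stmt_CTW : Prop := ∀ (r : ℕ) (R m : ℝ) (f : ℂ → M r), AEStronglyMeasurable f volume →
  (∀ w, ‖f w‖ ≤ m) → (∀ w ∉ closedBall (0 : ℂ) R, f w = 0) → WeakDb univ (CT f) f

/-- weak `∂̄` -/
structure Stmt_Weak : Prop where
  of_c1 : ∀ (r : ℕ) (U : Set ℂ) (A : ℂ → M r), IsOpen U → ContDiffOn ℝ 1 A U →
    WeakDb U A (db A)
  weyl : ∀ (r : ℕ) (U : Set ℂ) (A : ℂ → M r), IsOpen U → ContinuousOn A U →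
    WeakDb U A (fun _ => 0) → DifferentiableOn ℂ A U
  /-- product with a `C¹` matrix from the left -/
  mul : ∀ (r : ℕ) (U : Set ℂ) (G A Q : ℂ → M r), IsOpen U → ContDiffOn ℝ 1 G U →
    ContinuousOn A U → ContinuousOn Q U → WeakDb U A Q →
    WeakDb U (fun z => G z * A z) (fun z => db G z * A z + G z * Q z)
  /-- locally uniform limits -/
  lim : ∀ (r : ℕ) (U : Set ℂ) (ι : Type) (l : Filter ι) (A Q : ι → ℂ → M r) (A' Q' : ℂ → M r),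
    l.NeBot → IsOpen U →
    (∀ᶠ n in l, ContinuousOn (A n) U ∧ ContinuousOn (Q n) U ∧ WeakDb U (A n) (Q n)) →
    TendstoLocallyUniformlyOn A A' l U → TendstoLocallyUniformlyOn Q Q' l U → WeakDb U A' Q'

/-- regularity: weak solutions are smooth -/
def Stmt_Reg : Prop := ∀ (r : ℕ) (U : Set ℂ) (q : ℝ) (Θ K : ℂ → M r), IsOpen U →
  DifferentiableOn ℂ Θ U → ContDiffOn ℝ 1 K U → (∀ z ∈ U, (K z).PosDef) →
  WeakDb U (fun z => (K z)⁻¹ * dz K z) (fun z => (q : ℂ) • brk (Θ z) (K z)) → Sol U q Θ K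

/-- interior estimates -/
def Stmt_Grad : Prop := ∀ (r : ℕ) (q B c R ρ : ℝ), 0 ≤ q → 0 ≤ c → 0 < ρ → ρ < R →
  ∃ C > 0, ∀ (Θ K : ℂ → M r) (a : ℂ), ContinuousOn Θ (ball a R) → Sol (ball a R) q Θ K →
    (∀ z ∈ ball a R, ‖Θ z‖ ≤ B) → (∀ z ∈ ball a R, Thm c (K z) 1) →
    (∀ z ∈ ball a ρ, ‖dz K z‖ ≤ C) ∧
    ∀ z ∈ ball a ρ, ∀ z' ∈ ball a ρ,
      ‖(K z)⁻¹ * dz K z - (K z')⁻¹ * dz K z'‖ ≤ C * Real.sqrt ‖z - z'‖

/-- interior equicontinuity -/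
def Stmt_IntEq : Prop := ∀ (r : ℕ) (q c : ℝ) (U : Set ℂ) (Θ : ℂ → M r) (z₀ : ℂ), 0 ≤ q → 0 ≤ c →
  IsOpen U → z₀ ∈ U → ContinuousOn Θ U → ∀ ε > 0, ∃ δ > 0, ball z₀ δ ⊆ U ∧
    ∀ K : ℂ → M r, Sol U q Θ K → (∀ z ∈ U, Thm c (K z) 1) →
      ∀ z ∈ ball z₀ δ, dT (K z) (K z₀) ≤ ε

/-- pointwise limits of locally bounded solutions are solutions -/
def Stmt_Lim : Prop := ∀ (r : ℕ) (U : Set ℂ) (q : ℝ) (Θ : ℂ → M r) (ι : Type) (l : Filter ι)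
  (K : ι → ℂ → M r) (L : ℂ → M r), l.NeBot → IsOpen U → 0 ≤ q → DifferentiableOn ℂ Θ U →
  (∀ z ∈ U, ∃ ρ > 0, ∃ c : ℝ, ∀ᶠ n in l, Sol (ball z ρ) q Θ (K n) ∧
    ∀ w ∈ ball z ρ, Thm c (K n w) 1) →
  (∀ z ∈ U, Tendsto (fun n => K n z) l (𝓝 (L z))) → Sol U q Θ L

/-! ## The Dirichlet problem on small discs -/

/-- logarithmic potentials of bounded functions -/
def Stmt_LogP : Prop := ∀ (r : ℕ) (R m : ℝ) (f : ℂ → M r), AEStronglyMeasurable f volume →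
  (∀ w, ‖f w‖ ≤ m) → (∀ w ∉ closedBall (0 : ℂ) R, f w = 0) →
  ContDiff ℝ 1 (fun z => ((1 / Real.pi : ℝ) : ℂ) • ∫ w, ((Real.log (‖z - w‖ ^ 2) : ℝ) : ℂ) • f w) ∧
  ∀ z, dz (fun z => ((1 / Real.pi : ℝ) : ℂ) • ∫ w, ((Real.log (‖z - w‖ ^ 2) : ℝ) : ℂ) • f w) z
    = CT f z

/-- the Dirichlet problem for `∂̄∂V = f`, `f` bounded, on the unit disc -/
def Stmt_Pois : Prop := ∀ r : ℕ, ∃ C > 0, ∃ S : (ℂ → M r) → (ℂ → M r),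
  (∀ (f : ℂ → M r) (m : ℝ), ContinuousOn f (ball 0 1) → (∀ z ∈ ball (0 : ℂ) 1, ‖f z‖ ≤ m) →
    ContDiffOn ℝ 1 (S f) (ball 0 1) ∧
    (∀ z ∈ ball (0 : ℂ) 1, ‖S f z‖ ≤ C * m * Real.sqrt (1 - ‖z‖)) ∧
    (∀ z ∈ ball (0 : ℂ) 1, ‖dz (S f) z‖ ≤ C * m) ∧
    WeakDb (ball 0 1) (dz (S f)) f ∧
    ((∀ z ∈ ball (0 : ℂ) 1, (f z).IsHermitian) → ∀ z ∈ ball (0 : ℂ) 1, (S f z).IsHermitian)) ∧
  (∀ (f g : ℂ → M r) (m : ℝ), ContinuousOn f (ball 0 1) → ContinuousOn g (ball 0 1) →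
    (∀ z ∈ ball (0 : ℂ) 1, ‖f z‖ ≤ m ∧ ‖g z‖ ≤ m) →
    ∀ z ∈ ball (0 : ℂ) 1, S (fun w => f w - g w) z = S f z - S g z)

/-- the Dirichlet problem with boundary data `1` and small Higgs field -/
def Stmt_Small : Prop := ∀ r : ℕ, ∃ ε > 0, ∀ Θ : ℂ → M r, DifferentiableOn ℂ Θ (ball 0 1) →
  (∀ z ∈ ball (0 : ℂ) 1, ‖Θ z‖ ≤ ε) → ∃ K : ℂ → M r, ContinuousOn K (closedBall 0 1) ∧
    (∀ z ∈ closedBall (0 : ℂ) 1, (K z).PosDef) ∧ (∀ z ∈ sphere (0 : ℂ) 1, K z = 1) ∧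
    Sol (ball 0 1) 1 Θ K

/-- Laurent polynomials with matrix coefficients -/
def Lp {r : ℕ} (d : ℕ) (c : ℤ → M r) (z : ℂ) : M r :=
  ∑ k ∈ Finset.Icc (-(d : ℤ)) d, z ^ k • c k

/-- matrix spectral factorization (Fejér-Riesz) in the strictly positive case -/
def Stmt_Fact : Prop := ∀ (r d : ℕ) (c : ℤ → M r),
  (∀ z ∈ sphere (0 : ℂ) 1, (Lp d c z).PosDef) →
  ∃ H : ℂ → M r, Differentiable ℂ H ∧ (∀ z ∈ closedBall (0 : ℂ) 1, IsUnit (H z)) ∧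
    ∀ z ∈ sphere (0 : ℂ) 1, (H z)ᴴ * H z = Lp d c z

/-- density of Laurent polynomials -/
def Stmt_Dens : Prop := ∀ (r : ℕ) (f : ℂ → M r), ContinuousOn f (sphere 0 1) →
  (∀ z ∈ sphere (0 : ℂ) 1, (f z).PosDef) → ∀ ε > 0, ∃ (d : ℕ) (c : ℤ → M r),
    ∀ z ∈ sphere (0 : ℂ) 1, (Lp d c z).PosDef ∧ dT (f z) (Lp d c z) ≤ ε

/-- the Dirichlet problem on the unit disc with Laurent polynomial boundary values -/
def Stmt_Solve : Prop := ∀ (r : ℕ) (B : ℝ), ∃ ε > 0, ∀ Θ : ℂ → M r,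
  DifferentiableOn ℂ Θ (ball 0 1) → (∀ z ∈ ball (0 : ℂ) 1, ‖Θ z‖ ≤ ε) →
  ∀ (d : ℕ) (c : ℤ → M r), (∀ z ∈ sphere (0 : ℂ) 1, (Lp d c z).PosDef ∧ Thm B (Lp d c z) 1) →
  ∃ K : ℂ → M r, ContinuousOn K (closedBall 0 1) ∧
    (∀ z ∈ closedBall (0 : ℂ) 1, (K z).PosDef) ∧ (∀ z ∈ sphere (0 : ℂ) 1, K z = Lp d c z) ∧
    Sol (ball 0 1) 1 Θ K

/-- the Dirichlet problem on the unit disc -/
def Stmt_Dir : Prop := ∀ (r : ℕ) (B : ℝ), ∃ ε > 0, ∀ Θ : ℂ → M r,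
  DifferentiableOn ℂ Θ (ball 0 1) → (∀ z ∈ ball (0 : ℂ) 1, ‖Θ z‖ ≤ ε) →
  ∀ f : ℂ → M r, ContinuousOn f (sphere 0 1) →
    (∀ z ∈ sphere (0 : ℂ) 1, (f z).PosDef ∧ Thm B (f z) 1) →
  ∃ K : ℂ → M r, ContinuousOn K (closedBall 0 1) ∧
    (∀ z ∈ closedBall (0 : ℂ) 1, (K z).PosDef) ∧ (∀ z ∈ sphere (0 : ℂ) 1, K z = f z) ∧
    Sol (ball 0 1) 1 Θ K

/-- the Dirichlet problem on small discs -/
def Stmt_LDir : Prop := ∀ (r : ℕ) (q B : ℝ) (U : Set ℂ) (Θ : ℂ → M r) (a : ℂ), 0 < q →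
  IsOpen U → a ∈ U → DifferentiableOn ℂ Θ U → ∃ R > 0, closedBall a R ⊆ U ∧
  ∀ ρ, 0 < ρ → ρ ≤ R → ∀ f : ℂ → M r, ContinuousOn f (sphere a ρ) →
    (∀ z ∈ sphere a ρ, (f z).PosDef ∧ Thm B (f z) 1) →
  ∃ K : ℂ → M r, ContinuousOn K (closedBall a ρ) ∧
    (∀ z ∈ closedBall a ρ, (K z).PosDef) ∧ (∀ z ∈ sphere a ρ, K z = f z) ∧
    Sol (ball a ρ) q Θ K

end Pool.Agent.HSC
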