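import Pool.Agent.HSC.Bundle
import Pool.Agent.HSC.Stmts

/-!
# Global objects: metrics on Higgs bundles, discs, sweeping
-/

set_option autoImplicit false

open scoped Matrix.Norms.Frobenius ContDiff Topology Manifold ComplexOrder
open Matrix Set Filter Metric

noncomputable section

namespace Pool.Agent.HSC

universe u v

variable {X : Type u} [TopologicalSpace X] [ChartedSpace ℂ X] {r : ℕ}

/-- the Gram matrix in the frame `i` as a function of the coordinate -/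
def HiggsBundle.loc (E : HiggsBundle.{u, v} X r) (h : E.ι → X → M r) (i : E.ι) : ℂ → M r :=
  fun z => h i ((E.φ i).symm z)

/-- the part of the coordinate domain `i` corresponding to `Ω` -/
def HiggsBundle.dom (E : HiggsBundle.{u, v} X r) (i : E.ι) (Ω : Set X) : Set ℂ :=
  (E.φ i).target ∩ (E.φ i).symm ⁻¹' Ω

/-- `h` is a continuous Hermitian metric on `E` over `Ω` -/
structure MetX (E : HiggsBundle.{u, v} X r) (Ω : Set X) (h : E.ι → X → M r) : Prop where
  pos : ∀ i, ∀ x ∈ (E.φ i).source ∩ Ω, (h i x).PosDef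
  trans : ∀ i j, ∀ x ∈ (E.φ i).source ∩ (E.φ j).source ∩ Ω,
    h j x = (E.g i j x)ᴴ * h i x * E.g i j x
  cont : ∀ i, ContinuousOn (h i) ((E.φ i).source ∩ Ω)

/-- `h` solves the Hitchin equation with Higgs field `√q θ` over `Ω` -/
def SolX (E : HiggsBundle.{u, v} X r) (q : ℝ) (Ω : Set X) (h : E.ι → X → M r) : Prop :=
  ∀ i, Sol (E.dom i Ω) q (E.θ i) (E.loc h i)

/-- a closed coordinate disc -/
structure Disc (E : HiggsBundle.{u, v} X r) where
  i : E.ι
  a : ℂ
  ρ : ℝ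
  pos : 0 < ρ
  sub : closedBall a ρ ⊆ (E.φ i).target

variable {E : HiggsBundle.{u, v} X r}

/-- the open disc, as a subset of `X` -/
def Disc.op (D : Disc E) : Set X := (E.φ D.i).symm '' ball D.a D.ρ
/-- the closed disc -/
def Disc.cl (D : Disc E) : Set X := (E.φ D.i).symm '' closedBall D.a D.ρ
/-- the boundary circle -/
def Disc.cir (D : Disc E) : Set X := (E.φ D.i).symm '' sphere D.a D.ρ

/-- the Dirichlet problem is solvable on the disc `D` for continuous boundary values at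
Thompson distance `≤ c` from `P` -/
def Disc.Solv (D : Disc E) (q c : ℝ) (P : E.ι → X → M r) : Prop :=
  ∀ f : ℂ → M r, ContinuousOn f (sphere D.a D.ρ) →
    (∀ z ∈ sphere D.a D.ρ, (f z).PosDef ∧ Thm c (f z) (E.loc P D.i z)) →
    ∃ K : ℂ → M r, ContinuousOn K (closedBall D.a D.ρ) ∧
      (∀ z ∈ closedBall D.a D.ρ, (K z).PosDef) ∧ (∀ z ∈ sphere D.a D.ρ, K z = f z) ∧
      Sol (ball D.a D.ρ) q (E.θ D.i) K

/-- a sweeping sequence: `H (m+1)` is obtained from `H m` by solving the Dirichlet problem on the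
disc `D m`; the sequence of discs is periodic of period `N` -/
structure Sweep (E : HiggsBundle.{u, v} X r) (q : ℝ) (b : ℕ → ℝ) (P : E.ι → X → M r) (N : ℕ)
    (D : ℕ → Disc E) (H : ℕ → E.ι → X → M r) : Prop where
  pos : 0 < N
  per : ∀ m, D (m + N) = D m
  zero : H 0 = P
  met : ∀ m, MetX E univ (H m)
  bd : ∀ m i, ∀ x ∈ (E.φ i).source, Bd b (P i x) (H m i x)
  off : ∀ m, ∀ x ∉ (D m).op, ∀ i, H (m + 1) i x = H m i x
  sol : ∀ m, SolX E q (D m).op (H (m + 1))

/-- the exceptional set: points lying on two of the circles -/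
def Exc (N : ℕ) (D : ℕ → Disc E) : Set X :=
  {x | ∃ m < N, ∃ l < N, m ≠ l ∧ x ∈ (D m).cir ∧ x ∈ (D l).cir}

/-- a chart containing `x` -/
def HiggsBundle.ix (E : HiggsBundle.{u, v} X r) (x : X) : E.ι := Classical.choose (E.cover x)

theorem HiggsBundle.mem_ix (E : HiggsBundle.{u, v} X r) (x : X) : x ∈ (E.φ (E.ix x)).source :=
  Classical.choose_spec (E.cover x)

/-- the Thompson distance of two metrics at the point `x` -/
def dX (E : HiggsBundle.{u, v} X r) (h h' : E.ι → X → M r) (x : X) : ℝ :=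
  dT (h (E.ix x) x) (h' (E.ix x) x)

/-- the oscillation at infinity of a sequence of metrics -/
def fX (E : HiggsBundle.{u, v} X r) (H : ℕ → E.ι → X → M r) (x : X) : ℝ :=
  ⨅ n : ℕ, ⨆ p : {p : ℕ × ℕ // n ≤ p.1 ∧ n ≤ p.2}, dX E (H p.1.1) (H p.1.2) x

/-! ## Basic facts -/

theorem isOpen_dom (E : HiggsBundle.{u, v} X r) (i : E.ι) {Ω : Set X} (hΩ : IsOpen Ω) :
    IsOpen (E.dom i Ω) := (E.φ i).isOpen_inter_preimage_symm hΩ

theorem dom_mono (E : HiggsBundle.{u, v} X r) (i : E.ι) {Ω Ω' : Set X} (h : Ω ⊆ Ω') :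
    E.dom i Ω ⊆ E.dom i Ω' := inter_subset_inter_right _ (preimage_mono h)

theorem mem_dom {i : E.ι} {Ω : Set X} {z : ℂ} :
    z ∈ E.dom i Ω ↔ z ∈ (E.φ i).target ∧ (E.φ i).symm z ∈ Ω := Iff.rfl

theorem map_mem_dom {i : E.ι} {Ω : Set X} {x : X} (hx : x ∈ (E.φ i).source) (hx' : x ∈ Ω) :
    E.φ i x ∈ E.dom i Ω := ⟨(E.φ i).map_source hx, by simpa [(E.φ i).left_inv hx] using hx'⟩

/-- the coordinate changes are holomorphic -/
theorem transition_holo [IsManifold 𝓘(ℂ) ω X] (E : HiggsBundle.{u, v} X r) (i j : E.ι) :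
    DifferentiableOn ℂ (fun z => E.φ j ((E.φ i).symm z))
      ((E.φ i).target ∩ (E.φ i).symm ⁻¹' (E.φ j).source) := by
  have h := StructureGroupoid.compatible_of_mem_maximalAtlas (E.chart i) (E.chart j)
  rw [contDiffGroupoid, mem_groupoid_of_pregroupoid] at h
  have h1 := h.1
  simp only [contDiffPregroupoid] at h1
  have h2 : ContDiffOn ℂ ω (fun z => E.φ j ((E.φ i).symm z))
      ((E.φ i).target ∩ (E.φ i).symm ⁻¹' (E.φ j).source) := by
    have h3 : ContDiffOn ℂ ω ((E.φ i).symm.trans (E.φ j))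
        ((E.φ i).symm.trans (E.φ j)).source := by
      simpa [contDiffPregroupoid] using h1
    simp only [OpenPartialHomeomorph.trans_source, OpenPartialHomeomorph.symm_source] at h3
    exact h3
  exact h2.differentiableOn (by simp)

theorem g_mul_inv (E : HiggsBundle.{u, v} X r) (i j : E.ι) {x : X} (hi : x ∈ (E.φ i).source)
    (hj : x ∈ (E.φ j).source) : E.g i j x * E.g j i x = 1 := by
  rw [E.g_mul i j i x ⟨⟨hi, hj⟩, hi⟩, E.g_self i x hi]

theorem g_isUnit (E : HiggsBundle.{u, v} X r) (i j : E.ι) {x : X} (hi : x ∈ (E.φ i).source)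
    (hj : x ∈ (E.φ j).source) : IsUnit (E.g i j x) :=
  IsUnit.of_mul_eq_one _ (g_mul_inv E i j hi hj)

theorem g_inv (E : HiggsBundle.{u, v} X r) (i j : E.ι) {x : X} (hi : x ∈ (E.φ i).source)
    (hj : x ∈ (E.φ j).source) : (E.g i j x)⁻¹ = E.g j i x :=
  Matrix.inv_eq_right_inv (g_mul_inv E i j hi hj)

theorem g_continuousOn (E : HiggsBundle.{u, v} X r) (i j : E.ι) :
    ContinuousOn (E.g i j) ((E.φ i).source ∩ (E.φ j).source) := by
  have h1 := (E.g_holo i j).continuousOn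
  have h2 : ContinuousOn (E.φ i) ((E.φ i).source ∩ (E.φ j).source) :=
    (E.φ i).continuousOn.mono inter_subset_left
  have h3 : ContinuousOn (fun x => E.g i j ((E.φ i).symm (E.φ i x)))
      ((E.φ i).source ∩ (E.φ j).source) := by
    apply h1.comp h2
    intro x hx
    refine ⟨(E.φ i).map_source hx.1, ?_⟩
    simpa [(E.φ i).left_inv hx.1] using hx.2
  apply h3.congr
  intro x hx
  simp [(E.φ i).left_inv hx.1]

theorem MetX.mono {Ω Ω' : Set X} {h : E.ι → X → M r} (hm : MetX E Ω' h) (hs : Ω ⊆ Ω') :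
    MetX E Ω h where
  pos i x hx := hm.pos i x ⟨hx.1, hs hx.2⟩
  trans i j x hx := hm.trans i j x ⟨hx.1, hs hx.2⟩
  cont i := (hm.cont i).mono (inter_subset_inter_right _ hs)

theorem Sol.mono {U V : Set ℂ} {q : ℝ} {Θ K : ℂ → M r} (h : Sol V q Θ K) (hs : U ⊆ V) :
    Sol U q Θ K := ⟨h.smooth.mono hs, fun z hz => h.pos z (hs hz), fun z hz => h.eqn z (hs hz)⟩

theorem SolX.mono {Ω Ω' : Set X} {q : ℝ} {h : E.ι → X → M r} (hm : SolX E q Ω' h)
    (hs : Ω ⊆ Ω') : SolX E q Ω h := fun i => (hm i).mono (dom_mono E i hs)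

/-- congruent local functions -/
theorem Sol.congr {U : Set ℂ} {q : ℝ} {Θ K L : ℂ → M r} (h : Sol U q Θ K) (hU : IsOpen U)
    (e : ∀ z ∈ U, L z = K z) : Sol U q Θ L := by
  refine ⟨h.smooth.congr e, fun z hz => by rw [e z hz]; exact h.pos z hz, fun z hz => ?_⟩
  have he : L =ᶠ[𝓝 z] K := by
    filter_upwards [hU.mem_nhds hz] with w hw using e w hw
  have h2 : ∀ᶠ w in 𝓝 z, L =ᶠ[𝓝 w] K := eventually_eventually_nhds.2 he
  rw [e z hz, ← h.eqn z hz, Qc, Qc]
  apply db_congr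
  filter_upwards [he, h2] with w h1 h2
  rw [h1, dz_congr h2]

/-- being a solution is a local property -/
theorem Sol.of_local {U : Set ℂ} {q : ℝ} {Θ K : ℂ → M r}
    (h : ∀ z ∈ U, ∃ V, IsOpen V ∧ z ∈ V ∧ Sol V q Θ K) : Sol U q Θ K := by
  refine ⟨fun z hz => ?_, fun z hz => ?_, fun z hz => ?_⟩
  · obtain ⟨V, hV, hzV, hS⟩ := h z hz
    exact (hS.smooth.contDiffAt (hV.mem_nhds hzV)).contDiffWithinAt
  · obtain ⟨V, hV, hzV, hS⟩ := h z hz
    exact hS.pos z hzV
  · obtain ⟨V, hV, hzV, hS⟩ := h z hz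
    exact hS.eqn z hzV

theorem SolX.of_local {Ω : Set X} {q : ℝ} {h : E.ι → X → M r}
    (hl : ∀ x ∈ Ω, ∃ W, IsOpen W ∧ x ∈ W ∧ SolX E q W h) : SolX E q Ω h := by
  intro i
  apply Sol.of_local
  intro z hz
  obtain ⟨W, hW, hxW, hS⟩ := hl _ hz.2
  exact ⟨E.dom i W, isOpen_dom E i hW, ⟨hz.1, hxW⟩, hS i⟩

theorem SolX.congr {Ω : Set X} {q : ℝ} {h h' : E.ι → X → M r} (hΩ : IsOpen Ω)
    (hS : SolX E q Ω h) (e : ∀ i, ∀ x ∈ Ω, h' i x = h i x) : SolX E q Ω h' := fun i =>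
  (hS i).congr (isOpen_dom E i hΩ) fun _ hz => e i _ hz.2

/-! ## Discs -/

theorem Disc.ball_sub (D : Disc E) : ball D.a D.ρ ⊆ (E.φ D.i).target :=
  ball_subset_closedBall.trans D.sub

theorem Disc.mem_op {D : Disc E} {x : X} :
    x ∈ D.op ↔ x ∈ (E.φ D.i).source ∧ E.φ D.i x ∈ ball D.a D.ρ := by
  constructor
  · rintro ⟨z, hz, rfl⟩
    have := D.ball_sub hz
    exact ⟨(E.φ D.i).map_target this, by rwa [(E.φ D.i).right_inv this]⟩
  · rintro ⟨h1, h2⟩
    exact ⟨_, h2, (E.φ D.i).left_inv h1⟩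

theorem Disc.mem_cl {D : Disc E} {x : X} :
    x ∈ D.cl ↔ x ∈ (E.φ D.i).source ∧ E.φ D.i x ∈ closedBall D.a D.ρ := by
  constructor
  · rintro ⟨z, hz, rfl⟩
    have := D.sub hz
    exact ⟨(E.φ D.i).map_target this, by rwa [(E.φ D.i).right_inv this]⟩
  · rintro ⟨h1, h2⟩
    exact ⟨_, h2, (E.φ D.i).left_inv h1⟩

theorem Disc.mem_cir {D : Disc E} {x : X} :
    x ∈ D.cir ↔ x ∈ (E.φ D.i).source ∧ E.φ D.i x ∈ sphere D.a D.ρ := by
  constructor
  · rintro ⟨z, hz, rfl⟩
    have := D.sub (sphere_subset_closedBall hz)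
    exact ⟨(E.φ D.i).map_target this, by rwa [(E.φ D.i).right_inv this]⟩
  · rintro ⟨h1, h2⟩
    exact ⟨_, h2, (E.φ D.i).left_inv h1⟩

theorem Disc.isOpen_op (D : Disc E) : IsOpen D.op :=
  (E.φ D.i).isOpen_image_symm_of_subset_target isOpen_ball D.ball_sub

theorem Disc.isCompact_cl (D : Disc E) : IsCompact D.cl :=
  (isCompact_closedBall D.a D.ρ).image_of_continuousOn ((E.φ D.i).continuousOn_symm.mono D.sub)

theorem Disc.isCompact_cir (D : Disc E) : IsCompact D.cir :=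
  (isCompact_sphere D.a D.ρ).image_of_continuousOn
    ((E.φ D.i).continuousOn_symm.mono (sphere_subset_closedBall.trans D.sub))

theorem Disc.isClosed_cl [T2Space X] (D : Disc E) : IsClosed D.cl := D.isCompact_cl.isClosed

theorem Disc.isClosed_cir [T2Space X] (D : Disc E) : IsClosed D.cir := D.isCompact_cir.isClosed

theorem Disc.op_sub_cl (D : Disc E) : D.op ⊆ D.cl := image_mono ball_subset_closedBall

theorem Disc.cir_sub_cl (D : Disc E) : D.cir ⊆ D.cl := image_mono sphere_subset_closedBall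

theorem Disc.cl_eq (D : Disc E) : D.cl = D.op ∪ D.cir := by
  unfold Disc.cl Disc.op Disc.cir
  rw [← image_union, ball_union_sphere]

theorem Disc.cl_sub_source (D : Disc E) : D.cl ⊆ (E.φ D.i).source := fun _ hx => (mem_cl.1 hx).1

theorem Disc.op_disjoint_cir (D : Disc E) {x : X} (hx : x ∈ D.op) : x ∉ D.cir := by
  intro h
  have h1 := (mem_op.1 hx).2
  have h2 := (mem_cir.1 h).2
  rw [mem_ball] at h1
  rw [mem_sphere] at h2
  linarith

end Pool.Agent.HSC
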