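import Pool.Agent.HSC.Stmts2

/-!
# Module GOOD: every point has discs on which the Dirichlet problem is solvable
-/

set_option autoImplicit false

open scoped Matrix.Norms.Frobenius ContDiff Topology Manifold ComplexOrder ComplexConjugate
open Matrix Set Filter MeasureTheory Metric

noncomputable section

namespace Pool.Agent.HSC

universe u v

theorem good_proof (hLDir : Stmt_LDir) (hDT : Stmt_DT) (X : Type u) [TopologicalSpace X]
    [T2Space X] [ChartedSpace ℂ X] [IsManifold 𝓘(ℂ) ω X] (r : ℕ) (E : HiggsBundle.{u, v} X r) :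
    GoodAt X r E := by
  intro q c P hq hP x
  set i := E.ix x with hi
  have hx : x ∈ (E.φ i).source := E.mem_ix x
  set a := E.φ i x with ha
  have haT : a ∈ (E.φ i).target := (E.φ i).map_source hx
  have hUo : IsOpen (E.φ i).target := (E.φ i).open_target
  -- continuity of the Thompson distance to `1`
  have hcontP : ContinuousOn (E.loc P i) (E.φ i).target := by
    have h1 : ContinuousOn (P i) (E.φ i).source := by
      have := hP.cont i
      rwa [inter_univ] at this
    exact h1.comp (E.φ i).continuousOn_symm (fun z hz => (E.φ i).map_target hz)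
  have hposP : ∀ z ∈ (E.φ i).target, (E.loc P i z).PosDef := fun z hz =>
    hP.pos i _ ⟨(E.φ i).map_target hz, mem_univ _⟩
  have hcont : ContinuousOn (fun z => dT (E.loc P i z) 1) (E.φ i).target := by
    have h2 : ContinuousOn (fun z => (E.loc P i z, (1 : M r))) (E.φ i).target :=
      hcontP.prodMk continuousOn_const
    have h2m : MapsTo (fun z => (E.loc P i z, (1 : M r))) (E.φ i).target
        {p : M r × M r | p.1.PosDef ∧ p.2.PosDef} := by
      intro z hz
      change (E.loc P i z).PosDef ∧ (1 : M r).PosDef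
      exact ⟨hposP z hz, Matrix.PosDef.one⟩
    have h2c := ContinuousOn.comp (hDT.cont r) h2 h2m
    simpa only [Function.comp_def] using h2c
  set B' := dT (E.loc P i a) 1 + 1 with hB'
  have hev : ∀ᶠ z in 𝓝 a, z ∈ (E.φ i).target ∧ dT (E.loc P i z) 1 < B' := by
    have h3 : ContinuousAt (fun z => dT (E.loc P i z) 1) a := hcont.continuousAt (hUo.mem_nhds haT)
    have h4 : ∀ᶠ z in 𝓝 a, dT (E.loc P i z) 1 < B' :=
      h3.eventually_lt_const (by rw [hB']; linarith)
    have h5 : ∀ᶠ z in 𝓝 a, z ∈ (E.φ i).target := hUo.mem_nhds haT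
    exact h5.and h4
  obtain ⟨R₀, hR₀, hsub⟩ := Metric.nhds_basis_closedBall.mem_iff.1 hev
  set c' := max c 0 with hc'
  obtain ⟨R₁, hR₁, hsub1, hD⟩ := hLDir r q (c' + B') (E.φ i).target (E.θ i) a hq hUo haT (E.θ_holo i)
  refine ⟨i, hx, min R₀ R₁, lt_min hR₀ hR₁, fun z hz => ?_, ?_⟩
  · exact (hsub (closedBall_subset_closedBall (min_le_left _ _) hz)).1
  · rintro ⟨j, b, ρ, hρ, hs⟩ hji hba hρR
    simp only at hji hba hρR
    subst hji
    subst hba
    intro f hf hfP
    refine hD ρ hρ (hρR.trans (min_le_right _ _)) f hf (fun z hz => ?_)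
    obtain ⟨hpos, hthm⟩ := hfP z hz
    refine ⟨hpos, ?_⟩
    simp only at hthm hz
    have hz' : z ∈ closedBall (E.φ i x) R₀ :=
      closedBall_subset_closedBall (hρR.trans (min_le_left _ _)) (sphere_subset_closedBall hz)
    obtain ⟨hzT, hlt⟩ := hsub hz'
    have h5 : dT (f z) (E.loc P i z) ≤ c' :=
      hDT.le r _ _ c' (le_max_right _ _)
        (hDT.mono r _ _ c c' hpos (hposP z hzT) (le_max_left _ _) hthm)
    have h6 : dT (f z) 1 ≤ c' + B' :=
      (hDT.tri r _ _ _ hpos (hposP z hzT) Matrix.PosDef.one).trans (add_le_add h5 hlt.le)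
    exact hDT.mono r _ _ _ _ hpos Matrix.PosDef.one h6
      (hDT.thm r _ _ hpos Matrix.PosDef.one)

end Pool.Agent.HSC
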