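import Pool.Agent.HSC.Stmts

/-!
# Interior estimates
-/

set_option autoImplicit false

open scoped Matrix.Norms.Frobenius ContDiff Topology Manifold ComplexOrder ComplexConjugate
open Matrix Set Filter MeasureTheory Metric

noncomputable section

namespace Pool.Agent.HSC
namespace Grad

section gen

variable {E : Type*} [NormedAddCommGroup E] [NormedSpace ℂ E]

theorem dz_shift (F : ℂ → E) (a z : ℂ) : dz (fun w => F (w + a)) z = dz F (z + a) := by
  unfold dz; rw [fderiv_comp_add_right]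

theorem db_shift (F : ℂ → E) (a z : ℂ) : db (fun w => F (w + a)) z = db F (z + a) := by
  unfold db; rw [fderiv_comp_add_right]

theorem smul_cont {φ : ℂ → ℂ} {h : ℂ → E} {O : Set ℂ} (hO : IsOpen O)
    (hφ : Continuous φ) (hs : tsupport φ ⊆ O) (hh : ContinuousOn h O) :
    Continuous (fun z => φ z • h z) := by
  apply continuous_of_tsupport
  intro z hz
  have hz' : z ∈ O := hs (tsupport_smul_subset_left φ h hz)
  exact hφ.continuousAt.smul (hh.continuousAt (hO.mem_nhds hz'))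

theorem smul_integrable {φ : ℂ → ℂ} {h : ℂ → E} {O : Set ℂ} (hO : IsOpen O)
    (hφ : Continuous φ) (hc : HasCompactSupport φ) (hs : tsupport φ ⊆ O)
    (hh : ContinuousOn h O) : Integrable (fun z => φ z • h z) :=
  (smul_cont hO hφ hs hh).integrable_of_hasCompactSupport hc.smul_right

theorem smul_contDiff {φ : ℂ → ℂ} {h : ℂ → E} {O : Set ℂ} (hO : IsOpen O)
    (hφ : ContDiff ℝ 1 φ) (hs : tsupport φ ⊆ O) (hh : ContDiffOn ℝ 1 h O) :
    ContDiff ℝ 1 (fun z => φ z • h z) := by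
  rw [contDiff_iff_contDiffAt]
  intro z
  by_cases hz : z ∈ tsupport φ
  · exact hφ.contDiffAt.smul (hh.contDiffAt (hO.mem_nhds (hs hz)))
  · have h1 : (fun z => φ z • h z) =ᶠ[𝓝 z] fun _ => 0 := by
      filter_upwards [notMem_tsupport_iff_eventuallyEq.mp hz] with w hw
      rw [hw]; simp
    exact contDiffAt_const.congr_of_eventuallyEq h1

/-- integration by parts -/
theorem int_fderiv {η : ℂ → ℂ} {g : ℂ → E} {U : Set ℂ} (hU : IsOpen U) (hη : ContDiff ℝ 1 η)
    (hc : HasCompactSupport η) (hs : tsupport η ⊆ U) (hg : ContDiffOn ℝ 1 g U) (v : ℂ) :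
    Integrable (fun z => η z • fderiv ℝ g z v) ∧ Integrable (fun z => fderiv ℝ η z v • g z) ∧
    ∫ z, η z • fderiv ℝ g z v = - ∫ z, fderiv ℝ η z v • g z := by
  have hcf : Continuous (fderiv ℝ η) := hη.continuous_fderiv one_ne_zero
  have hcv : Continuous (fun z => fderiv ℝ η z v) := by fun_prop
  have hgc : ContinuousOn (fun z => fderiv ℝ g z v) U := by
    have := hg.continuousOn_fderiv_of_isOpen hU le_rfl
    exact this.clm_apply continuousOn_const
  have i1 : Integrable (fun z => fderiv ℝ η z v • g z) :=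
    smul_integrable hU hcv (hc.fderiv_apply ℝ v) ((tsupport_fderiv_apply_subset ℝ v).trans hs)
      hg.continuousOn
  have i2 : Integrable (fun z => η z • fderiv ℝ g z v) :=
    smul_integrable hU hη.continuous hc hs hgc
  have i3 : Integrable (fun z => η z • g z) :=
    smul_integrable hU hη.continuous hc hs hg.continuousOn
  refine ⟨i2, i1, ?_⟩
  exact integral_smul_fderiv_eq_neg_fderiv_smul_of_integrable (μ := volume) i1 i2 i3
      (fun x _ => hη.differentiable one_ne_zero x)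
      (fun x hx => (hg.differentiableOn one_ne_zero).differentiableAt (hU.mem_nhds (hs hx)))

theorem int_db {η : ℂ → ℂ} {g : ℂ → E} {U : Set ℂ} (hU : IsOpen U) (hη : ContDiff ℝ 1 η)
    (hc : HasCompactSupport η) (hs : tsupport η ⊆ U) (hg : ContDiffOn ℝ 1 g U) :
    ∫ z, η z • db g z = - ∫ z, db η z • g z := by
  obtain ⟨a1, a2, a3⟩ := int_fderiv hU hη hc hs hg 1
  obtain ⟨b1, b2, b3⟩ := int_fderiv hU hη hc hs hg Complex.I
  have e1 : (fun z => η z • db g z) = fun z => (1 / 2 : ℂ) • (η z • fderiv ℝ g z 1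
      + Complex.I • (η z • fderiv ℝ g z Complex.I)) := by
    funext z
    simp only [db]
    module
  have e2 : (fun z => db η z • g z) = fun z => (1 / 2 : ℂ) • (fderiv ℝ η z 1 • g z
      + Complex.I • (fderiv ℝ η z Complex.I • g z)) := by
    funext z
    simp only [db, smul_eq_mul]
    module
  rw [e1, e2, integral_smul, integral_smul,
    integral_add a1 (b1.smul Complex.I : Integrable (fun z => Complex.I • (η z • fderiv ℝ g z Complex.I))),
    integral_add a2 (b2.smul Complex.I : Integrable (fun z => Complex.I • (fderiv ℝ η z Complex.I • g z))),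
    integral_smul, integral_smul, a3, b3]
  module

theorem int_dz {η : ℂ → ℂ} {g : ℂ → E} {U : Set ℂ} (hU : IsOpen U) (hη : ContDiff ℝ 1 η)
    (hc : HasCompactSupport η) (hs : tsupport η ⊆ U) (hg : ContDiffOn ℝ 1 g U) :
    ∫ z, η z • dz g z = - ∫ z, dz η z • g z := by
  obtain ⟨a1, a2, a3⟩ := int_fderiv hU hη hc hs hg 1
  obtain ⟨b1, b2, b3⟩ := int_fderiv hU hη hc hs hg Complex.I
  have e1 : (fun z => η z • dz g z) = fun z => (1 / 2 : ℂ) • (η z • fderiv ℝ g z 1
      + (-Complex.I) • (η z • fderiv ℝ g z Complex.I)) := by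
    funext z
    simp only [dz]
    module
  have e2 : (fun z => dz η z • g z) = fun z => (1 / 2 : ℂ) • (fderiv ℝ η z 1 • g z
      + (-Complex.I) • (fderiv ℝ η z Complex.I • g z)) := by
    funext z
    simp only [dz, smul_eq_mul]
    module
  rw [e1, e2, integral_smul, integral_smul,
    integral_add a1 (b1.smul (-Complex.I) : Integrable (fun z => (-Complex.I) • (η z • fderiv ℝ g z Complex.I))),
    integral_add a2 (b2.smul (-Complex.I) : Integrable (fun z => (-Complex.I) • (fderiv ℝ η z Complex.I • g z))),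
    integral_smul, integral_smul, a3, b3]
  module

theorem continuous_db {η : ℂ → E} (hη : ContDiff ℝ 1 η) : Continuous (db η) := by
  have h : Continuous (fderiv ℝ η) := hη.continuous_fderiv one_ne_zero
  unfold db
  fun_prop

theorem continuous_dz {η : ℂ → E} (hη : ContDiff ℝ 1 η) : Continuous (dz η) := by
  have h : Continuous (fderiv ℝ η) := hη.continuous_fderiv one_ne_zero
  unfold dz
  fun_prop

theorem db_eq_zero {η : ℂ → E} {z : ℂ} {c : E} (h : η =ᶠ[𝓝 z] fun _ => c) : db η z = 0 := by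
  rw [db_congr h, db_const]

theorem dz_eq_zero {η : ℂ → E} {z : ℂ} {c : E} (h : η =ᶠ[𝓝 z] fun _ => c) : dz η z = 0 := by
  rw [dz_congr h, dz_const]

theorem tsupport_db {η : ℂ → E} : tsupport (db η) ⊆ tsupport η := by
  apply closure_minimal _ (isClosed_tsupport _)
  intro z hz
  by_contra h
  exact hz (db_eq_zero (notMem_tsupport_iff_eventuallyEq.mp h))

theorem tsupport_dz {η : ℂ → E} : tsupport (dz η) ⊆ tsupport η := by
  apply closure_minimal _ (isClosed_tsupport _)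
  intro z hz
  by_contra h
  exact hz (dz_eq_zero (notMem_tsupport_iff_eventuallyEq.mp h))

theorem hcs_db {η : ℂ → E} (h : HasCompactSupport η) : HasCompactSupport (db η) :=
  IsCompact.of_isClosed_subset h (isClosed_tsupport _) tsupport_db

theorem hcs_dz {η : ℂ → E} (h : HasCompactSupport η) : HasCompactSupport (dz η) :=
  IsCompact.of_isClosed_subset h (isClosed_tsupport _) tsupport_dz

/-- cutoff functions -/
theorem cutoff {s t : ℝ} (hs : 0 < s) (hst : s < t) : ∃ χ : ℂ → ℝ,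
    ContDiff ℝ ∞ (fun z => (χ z : ℂ)) ∧ HasCompactSupport (fun z => (χ z : ℂ)) ∧
    tsupport (fun z => (χ z : ℂ)) ⊆ closedBall 0 t ∧ (∀ z ∈ closedBall (0 : ℂ) s, χ z = 1) ∧
    (∀ z, 0 ≤ χ z) ∧ (∀ z, χ z ≤ 1) := by
  let f : ContDiffBump (0 : ℂ) := ⟨s, t, hs, hst⟩
  have h1 : ContDiff ℝ ∞ (fun z => f z) := f.contDiff
  have h2 : tsupport (fun z => (f z : ℂ)) ⊆ closedBall 0 t := by
    have : tsupport (fun z => f z) = closedBall 0 t := f.tsupport_eq
    rw [← this]
    apply closure_mono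
    intro z hz
    simp only [Function.mem_support, ne_eq, Complex.ofReal_eq_zero] at hz ⊢
    exact hz
  refine ⟨fun z => f z, Complex.ofRealCLM.contDiff.comp h1, ?_, h2, ?_, fun z => f.nonneg,
    fun z => f.le_one⟩
  · exact IsCompact.of_isClosed_subset (isCompact_closedBall 0 t) (isClosed_tsupport _) h2
  · intro z hz
    exact f.one_of_mem_closedBall hz

/-- local integrability of the Cauchy kernel -/
theorem locInt (z : ℂ) : LocallyIntegrable (fun w : ℂ => (w - z)⁻¹) := by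
  have h0 : ∀ ρ : ℝ, IntegrableOn (fun w : ℂ => w⁻¹) (ball 0 ρ) := by
    intro ρ
    have h1 : IntegrableOn (fun x : ℂ => (fun y : ℝ => y⁻¹) ‖x‖) (ball (0 : ℂ) ρ) volume := by
      rw [integrableOn_fun_norm_addHaar]
      have h2 : IntegrableOn (fun _ : ℝ => (1 : ℝ)) (Ioo 0 ρ) volume :=
        (continuous_const.integrableOn_Icc (a := (0 : ℝ)) (b := ρ)).mono_set Ioo_subset_Icc_self
      refine h2.congr_fun ?_ measurableSet_Ioo
      intro y hy
      have : y ≠ 0 := hy.1.ne'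
      simp only [Complex.finrank_real_complex]
      simp [this]
    refine Integrable.mono h1 ?_ ?_
    · exact (measurable_inv : Measurable (fun w : ℂ => w⁻¹)).aestronglyMeasurable
    · filter_upwards with w
      simp
  have h3 : LocallyIntegrable (fun w : ℂ => w⁻¹) := by
    rw [locallyIntegrable_iff]
    intro k hk
    obtain ⟨ρ, hρ⟩ := hk.isBounded.subset_ball 0
    exact (h0 ρ).mono_set hρ
  rw [locallyIntegrable_iff]
  intro k hk
  obtain ⟨ρ, hρ⟩ := hk.isBounded.subset_ball z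
  refine IntegrableOn.mono_set ?_ hρ
  have h4 : MeasurePreserving (fun w : ℂ => w - z) volume volume := measurePreserving_sub_right _ z
  have h5 : MeasurableEmbedding (fun w : ℂ => w - z) :=
    (Homeomorph.subRight z).measurableEmbedding
  have h6 := (h4.integrableOn_comp_preimage h5 (f := fun w : ℂ => w⁻¹) (s := ball 0 ρ)).2 (h0 ρ)
  have h7 : (fun w : ℂ => w - z) ⁻¹' ball 0 ρ = ball z ρ := by
    ext w; simp [dist_eq_norm]
  rw [h7] at h6
  exact h6

theorem kernel_integrable {f : ℂ → E} (hf : Continuous f) (hc : HasCompactSupport f) (z : ℂ) :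
    Integrable (fun w => (w - z)⁻¹ • f w) :=
  (locInt z).integrable_smul_right_of_hasCompactSupport hf hc

end gen

section mat

variable {r : ℕ}

/-- hypotheses on a disc centred at `0` -/
structure Hyp (r : ℕ) (q B c R : ℝ) (Θ K : ℂ → M r) : Prop where
  sol : Sol (ball 0 R) q Θ K
  th : ∀ z ∈ ball (0 : ℂ) R, ‖Θ z‖ ≤ B
  thm : ∀ z ∈ ball (0 : ℂ) R, Thm c (K z) 1

theorem norm_entry_le (A : M r) (i j : Fin r) : ‖A i j‖ ≤ ‖A‖ := by
  rw [Matrix.frobenius_norm_def, ← Real.sqrt_eq_rpow]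
  apply Real.le_sqrt_of_sq_le
  have h1 : ‖A i j‖ ^ (2 : ℝ) ≤ ∑ j, ‖A i j‖ ^ (2 : ℝ) :=
    Finset.single_le_sum (f := fun j => ‖A i j‖ ^ (2 : ℝ)) (fun _ _ => by positivity)
      (Finset.mem_univ j)
  have h2 : ∑ j, ‖A i j‖ ^ (2 : ℝ) ≤ ∑ i, ∑ j, ‖A i j‖ ^ (2 : ℝ) :=
    Finset.single_le_sum (f := fun i => ∑ j, ‖A i j‖ ^ (2 : ℝ))
      (fun _ _ => Finset.sum_nonneg fun _ _ => by positivity) (Finset.mem_univ i)
  have h3 := h1.trans h2
  rwa [Real.rpow_two] at h3

theorem norm_trace_le (A : M r) : ‖A.trace‖ ≤ (r : ℝ) * ‖A‖ := by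
  unfold Matrix.trace
  calc ‖∑ i, A.diag i‖ ≤ ∑ i, ‖A.diag i‖ := norm_sum_le _ _
    _ ≤ ∑ _i : Fin r, ‖A‖ := Finset.sum_le_sum fun i _ => norm_entry_le A i i
    _ = (r : ℝ) * ‖A‖ := by simp

/-- norm bound for `K` and its inverse -/
def Nc (r : ℕ) (c : ℝ) : ℝ := Real.sqrt r * Real.exp c

theorem Nc_nonneg (r : ℕ) (c : ℝ) : 0 ≤ Nc r c := by unfold Nc; positivity

theorem frob_sq (A : M r) : ((Aᴴ * A).trace).re = ‖A‖ ^ 2 := by
  rw [Matrix.frobenius_norm_def, ← Real.sqrt_eq_rpow, Real.sq_sqrt (by positivity)]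
  simp only [Matrix.trace, Matrix.diag_apply, Matrix.mul_apply, Matrix.conjTranspose_apply,
    Complex.re_sum]
  rw [Finset.sum_comm]
  refine Finset.sum_congr rfl fun i _ => Finset.sum_congr rfl fun j _ => ?_
  rw [Complex.star_def, ← Complex.normSq_eq_conj_mul_self, Complex.ofReal_re,
    Complex.normSq_eq_norm_sq]
  norm_num

theorem lower {c : ℝ} {K D : M r} (hK : K.PosDef) (hDT : Stmt_DT) (h : Thm c K 1) :
    Real.exp (-c) * ‖D‖ ^ 2 ≤ ((Dᴴ * K⁻¹ * D).trace).re := by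
  have h1 := hDT.inv r K 1 c hK Matrix.PosDef.one h
  have h2 : ((Real.exp c : ℂ) • K⁻¹ - (1 : M r)⁻¹).PosSemidef := h1.2
  have h3 := (h2.conjTranspose_mul_mul_same D).trace_nonneg
  have h4 : (Dᴴ * ((Real.exp c : ℂ) • K⁻¹ - (1 : M r)⁻¹) * D).trace
      = (Real.exp c : ℂ) * (Dᴴ * K⁻¹ * D).trace - (Dᴴ * D).trace := by
    rw [inv_one, Matrix.mul_sub, Matrix.sub_mul, Matrix.trace_sub, Matrix.mul_one,
      Matrix.mul_smul, Matrix.smul_mul, Matrix.trace_smul, smul_eq_mul]
  rw [h4] at h3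
  have h5 := (Complex.le_def.1 h3).1
  rw [Complex.sub_re, Complex.re_ofReal_mul, frob_sq, Complex.zero_re] at h5
  have h6 : Real.exp (-c) * Real.exp c = 1 := by rw [← Real.exp_add]; simp
  have h7 : 0 < Real.exp (-c) := Real.exp_pos _
  calc Real.exp (-c) * ‖D‖ ^ 2 ≤ Real.exp (-c) * (Real.exp c * ((Dᴴ * K⁻¹ * D).trace).re) := by
        gcongr; linarith
    _ = ((Dᴴ * K⁻¹ * D).trace).re := by rw [← mul_assoc, h6, one_mul]

/-- the bound of the curvature -/
def Mq (r : ℕ) (q B c : ℝ) : ℝ := q * (2 * (|B| ^ 2 * Nc r c ^ 2))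

theorem Mq_nonneg {q : ℝ} (hq : 0 ≤ q) (B c : ℝ) : 0 ≤ Mq r q B c := by
  unfold Mq; positivity

theorem norm_adj_le {N B : ℝ} {K Θ : M r} (hK : ‖K‖ ≤ N) (hK' : ‖K⁻¹‖ ≤ N) (hΘ : ‖Θ‖ ≤ B) :
    ‖adj K Θ‖ ≤ N * B * N := by
  have hN : 0 ≤ N := (norm_nonneg _).trans hK
  have hB : 0 ≤ B := (norm_nonneg _).trans hΘ
  unfold adj
  have h1 : ‖Θᴴ‖ = ‖Θ‖ := Matrix.frobenius_norm_conjTranspose Θ
  calc ‖K⁻¹ * Θᴴ * K‖ ≤ ‖K⁻¹ * Θᴴ‖ * ‖K‖ := norm_mul_le _ _
    _ ≤ ‖K⁻¹‖ * ‖Θᴴ‖ * ‖K‖ := by gcongr; exact norm_mul_le _ _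
    _ ≤ N * B * N := by rw [h1]; gcongr

theorem norm_brk_le {N B : ℝ} {K Θ : M r} (hK : ‖K‖ ≤ N) (hK' : ‖K⁻¹‖ ≤ N) (hΘ : ‖Θ‖ ≤ B) :
    ‖brk Θ K‖ ≤ 2 * (B ^ 2 * N ^ 2) := by
  have hN : 0 ≤ N := (norm_nonneg _).trans hK
  have hB : 0 ≤ B := (norm_nonneg _).trans hΘ
  have ha := norm_adj_le hK hK' hΘ
  unfold brk
  calc ‖Θ * adj K Θ - adj K Θ * Θ‖ ≤ ‖Θ * adj K Θ‖ + ‖adj K Θ * Θ‖ := norm_sub_le _ _
    _ ≤ ‖Θ‖ * ‖adj K Θ‖ + ‖adj K Θ‖ * ‖Θ‖ := add_le_add (norm_mul_le _ _) (norm_mul_le _ _)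
    _ ≤ B * (N * B * N) + (N * B * N) * B := by gcongr
    _ = 2 * (B ^ 2 * N ^ 2) := by ring

variable {q B c R : ℝ} {Θ K : ℂ → M r} {z : ℂ}

theorem Hyp.nK (h : Hyp r q B c R Θ K) (hDT : Stmt_DT) (hz : z ∈ ball (0 : ℂ) R) :
    ‖K z‖ ≤ Nc r c ∧ ‖(K z)⁻¹‖ ≤ Nc r c :=
  hDT.norm_le r (K z) c (h.sol.pos z hz) (h.thm z hz)

theorem Hyp.nQ (h : Hyp r q B c R Θ K) (hDT : Stmt_DT) (hq : 0 ≤ q)
    (hz : z ∈ ball (0 : ℂ) R) : ‖Qc K z‖ ≤ Mq r q B c := by
  rw [h.sol.eqn z hz, norm_smul, Complex.norm_real, Real.norm_of_nonneg hq]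
  unfold Mq
  gcongr
  exact norm_brk_le (h.nK hDT hz).1 (h.nK hDT hz).2 ((h.th z hz).trans (le_abs_self B))

theorem Hyp.smoothAt (h : Hyp r q B c R Θ K) (hz : z ∈ ball (0 : ℂ) R) : ContDiffAt ℝ ∞ K z :=
  h.sol.smooth.contDiffAt (isOpen_ball.mem_nhds hz)

theorem Hyp.unit (h : Hyp r q B c R Θ K) (hz : z ∈ ball (0 : ℂ) R) : IsUnit (K z) :=
  (h.sol.pos z hz).isUnit

theorem Hyp.cA (h : Hyp r q B c R Θ K) :
    ContDiffOn ℝ ∞ (fun w => (K w)⁻¹ * dz K w) (ball 0 R) :=
  (contDiffOn_inv h.sol.smooth fun _ hz => h.unit hz).mul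
    (contDiffOn_dz_infty isOpen_ball h.sol.smooth)

theorem Hyp.cQ (h : Hyp r q B c R Θ K) : ContinuousOn (Qc K) (ball 0 R) :=
  (contDiffOn_db_infty isOpen_ball h.cA).continuousOn

theorem Hyp.key (h : Hyp r q B c R Θ K) (hDT : Stmt_DT) (hq : 0 ≤ q)
    (hz : z ∈ ball (0 : ℂ) R) :
    Real.exp (-c) * ‖dz K z‖ ^ 2 - (r : ℝ) * (Nc r c * Mq r q B c)
      ≤ (db (dz (fun w => (K w).trace)) z).re := by
  have hev : ∀ᶠ w in 𝓝 z, w ∈ ball (0 : ℂ) R := isOpen_ball.mem_nhds hz
  have e1 : dz (fun w => (K w).trace) =ᶠ[𝓝 z] fun w => (dz K w).trace := by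
    filter_upwards [hev] with w hw
    exact dz_trace ((h.smoothAt hw).differentiableAt (by simp))
  have hs := h.smoothAt hz
  have hd : DifferentiableAt ℝ K z := hs.differentiableAt (by simp)
  have hd2 : DifferentiableAt ℝ (dz K) z := (contDiffAt_dz_infty hs).differentiableAt (by simp)
  have e2 : db (dz (fun w => (K w).trace)) z = (db (dz K) z).trace := by
    rw [db_congr e1, db_trace hd2]
  have e3 : db K z = (dz K z)ᴴ :=
    db_eq_of_hermitian hd (hev.mono fun w hw => (h.sol.pos w hw).isHermitian)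
  have hs2 : ContDiffAt ℝ 2 K z := hs.of_le (by norm_cast)
  rw [e2, db_dz_eq hs2 (h.unit hz), e3, Matrix.trace_add, Complex.add_re]
  have h1 := lower (D := dz K z) (h.sol.pos z hz) hDT (h.thm z hz)
  have h2 : |((K z * Qc K z).trace).re| ≤ (r : ℝ) * (Nc r c * Mq r q B c) := by
    calc |((K z * Qc K z).trace).re| ≤ ‖(K z * Qc K z).trace‖ := Complex.abs_re_le_norm _
      _ ≤ (r : ℝ) * ‖K z * Qc K z‖ := norm_trace_le _
      _ ≤ (r : ℝ) * (‖K z‖ * ‖Qc K z‖) := by gcongr; exact norm_mul_le _ _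
      _ ≤ (r : ℝ) * (Nc r c * Mq r q B c) := by
          have := (h.nK hDT hz).1
          have := h.nQ hDT hq hz
          have := Nc_nonneg r c
          gcongr
  have h3 := (abs_le.1 h2).1
  linarith

end mat


section est

variable {r : ℕ}

theorem pm (r : ℕ) : TopologicalSpace.PseudoMetrizableSpace (M r) :=
  inferInstanceAs (TopologicalSpace.PseudoMetrizableSpace (Fin r → Fin r → ℂ))

/-- the `L²` bound of `∂K` -/
theorem energy (hDT : Stmt_DT) (r : ℕ) (q B c R s : ℝ) (hq : 0 ≤ q) (hs : 0 < s)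
    (hsR : s < R) : ∃ C : ℝ, 0 ≤ C ∧ ∀ Θ K : ℂ → M r, Hyp r q B c R Θ K →
      IntegrableOn (fun z => ‖dz K z‖ ^ 2) (ball 0 s) ∧ ∫ z in ball 0 s, ‖dz K z‖ ^ 2 ≤ C := by
  obtain ⟨χ, hχ, hcs, hts, h1, h0, h1'⟩ := cutoff hs (show s < (s + R) / 2 by linarith)
  have hχ1 : ContDiff ℝ 1 (fun z => (χ z : ℂ)) := hχ.of_le (by norm_cast)
  have hχ2 : ContDiff ℝ 2 (fun z => (χ z : ℂ)) := hχ.of_le (by norm_cast)
  have hdbχ : ContDiff ℝ 1 (db (fun z => (χ z : ℂ))) := by
    rw [contDiff_iff_contDiffAt]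
    intro z
    exact contDiffAt_db (n := 1) (by norm_num; exact hχ2.contDiffAt)
  have htsU : tsupport (fun z => (χ z : ℂ)) ⊆ ball 0 R :=
    hts.trans (closedBall_subset_ball (by linarith))
  have hχr : Continuous χ := by
    have : χ = fun z => ((χ z : ℂ)).re := by funext z; simp
    rw [this]
    exact Complex.continuous_re.comp hχ.continuous
  have hχi : Integrable (fun z => χ z) := by
    have : Integrable (fun z => (χ z : ℂ)) :=
      hχ.continuous.integrable_of_hasCompactSupport hcs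
    exact this.re
  set C2 : ℝ := (r : ℝ) * (Nc r c * Mq r q B c) with hC2
  have hC2n : 0 ≤ C2 := by
    have := Nc_nonneg r c
    have := Mq_nonneg (r := r) hq B c
    positivity
  set G : ℝ := ∫ z, ‖dz (db (fun z => (χ z : ℂ))) z‖ * ((r : ℝ) * Nc r c) with hG
  have hGn : 0 ≤ G := integral_nonneg fun z => by
    have := Nc_nonneg r c
    positivity
  refine ⟨Real.exp c * (G + C2 * ∫ z, χ z), ?_, ?_⟩
  · have : 0 ≤ ∫ z, χ z := integral_nonneg h0
    positivity
  intro Θ K h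
  have hcK : ContDiffOn ℝ ∞ (dz K) (ball 0 R) := contDiffOn_dz_infty isOpen_ball h.sol.smooth
  have hK1 : ContDiffOn ℝ 1 (fun w => (K w).trace) (ball 0 R) := by
    intro w hw
    have : ContDiffAt ℝ 1 (fun w => (K w).trace) w := by
      have hw2 : ContDiffAt ℝ 1 K w := (h.smoothAt hw).of_le (by norm_cast)
      exact ((LinearMap.toContinuousLinearMap
        (Matrix.traceLinearMap (Fin r) ℂ ℂ)).restrictScalars ℝ).contDiff.contDiffAt.comp w hw2
    exact this.contDiffWithinAt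
  have hT1 : ContDiffOn ℝ ∞ (dz (fun w => (K w).trace)) (ball 0 R) := by
    apply contDiffOn_dz_infty isOpen_ball
    intro w hw
    have : ContDiffAt ℝ ∞ (fun w => (K w).trace) w :=
      ((LinearMap.toContinuousLinearMap
        (Matrix.traceLinearMap (Fin r) ℂ ℂ)).restrictScalars ℝ).contDiff.contDiffAt.comp w
        (h.smoothAt hw)
    exact this.contDiffWithinAt
  have hT2 : ContinuousOn (db (dz (fun w => (K w).trace))) (ball 0 R) :=
    (contDiffOn_db_infty isOpen_ball hT1).continuousOn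
  have i1 : ∫ z, (χ z : ℂ) • db (dz (fun w => (K w).trace)) z
      = ∫ z, dz (db (fun z => (χ z : ℂ))) z • (K z).trace := by
    rw [int_db isOpen_ball hχ1 hcs htsU (hT1.of_le (by norm_cast)),
      int_dz isOpen_ball hdbχ (hcs_db hcs) (tsupport_db.trans htsU) hK1, neg_neg]
  have hI1 : Integrable (fun z => (χ z : ℂ) • db (dz (fun w => (K w).trace)) z) :=
    smul_integrable isOpen_ball hχ.continuous hcs htsU hT2
  have b1 : ‖∫ z, dz (db (fun z => (χ z : ℂ))) z • (K z).trace‖ ≤ G := by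
    apply norm_integral_le_of_norm_le
    · apply Integrable.mul_const
      exact ((continuous_dz hdbχ).integrable_of_hasCompactSupport (hcs_dz (hcs_db hcs))).norm
    · filter_upwards with z
      rw [norm_smul]
      by_cases hz : z ∈ ball (0 : ℂ) R
      · have hn := (h.nK hDT hz).1
        have := norm_trace_le (K z)
        gcongr
        exact this.trans (by gcongr)
      · have : z ∉ tsupport (dz (db (fun z => (χ z : ℂ)))) := fun hh =>
          hz (htsU (tsupport_db (tsupport_dz hh)))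
        rw [image_eq_zero_of_notMem_tsupport this]
        simp
  have i3 : Integrable (fun z => χ z * ‖dz K z‖ ^ 2) := by
    have := smul_integrable (h := fun z => ((‖dz K z‖ ^ 2 : ℝ) : ℂ)) isOpen_ball hχ.continuous
      hcs htsU (by
        apply Complex.continuous_ofReal.comp_continuousOn
        exact (hcK.continuousOn.norm).pow 2)
    have h2 := this.re
    refine h2.congr ?_
    filter_upwards with z
    change ((χ z : ℂ) • ((‖dz K z‖ ^ 2 : ℝ) : ℂ)).re = _
    rw [smul_eq_mul, Complex.re_ofReal_mul, Complex.ofReal_re]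
  have b2 : ∫ z, (Real.exp (-c) * (χ z * ‖dz K z‖ ^ 2) - C2 * χ z)
      ≤ ∫ z, ((χ z : ℂ) • db (dz (fun w => (K w).trace)) z).re := by
    apply integral_mono
    · exact (i3.const_mul _).sub (hχi.const_mul _)
    · exact hI1.re
    · intro z
      simp only [smul_eq_mul, Complex.re_ofReal_mul]
      by_cases hz : z ∈ ball (0 : ℂ) R
      · have := h.key hDT hq hz
        have h2 := mul_le_mul_of_nonneg_left this (h0 z)
        calc _ = χ z * (Real.exp (-c) * ‖dz K z‖ ^ 2 - (r : ℝ) * (Nc r c * Mq r q B c)) := by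
              rw [hC2]; ring
          _ ≤ _ := h2
      · have : z ∉ tsupport (fun z => (χ z : ℂ)) := fun hh => hz (htsU hh)
        have h3 := image_eq_zero_of_notMem_tsupport this
        have h4 : χ z = 0 := by exact_mod_cast h3
        simp [h4]
  rw [integral_sub (i3.const_mul _) (hχi.const_mul _), integral_const_mul, integral_const_mul]
    at b2
  have b3 : ∫ z, ((χ z : ℂ) • db (dz (fun w => (K w).trace)) z).re ≤ G := by
    have : ∫ z, ((χ z : ℂ) • db (dz (fun w => (K w).trace)) z).re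
        = (∫ z, (χ z : ℂ) • db (dz (fun w => (K w).trace)) z).re :=
      integral_re hI1
    rw [this, i1]
    exact (Complex.re_le_norm _).trans b1
  have b4 : Real.exp (-c) * ∫ z, χ z * ‖dz K z‖ ^ 2 ≤ G + C2 * ∫ z, χ z := by linarith
  have b5 : ∫ z, χ z * ‖dz K z‖ ^ 2 ≤ Real.exp c * (G + C2 * ∫ z, χ z) := by
    have h6 : Real.exp c * Real.exp (-c) = 1 := by rw [← Real.exp_add]; simp
    calc ∫ z, χ z * ‖dz K z‖ ^ 2 = Real.exp c * (Real.exp (-c) * ∫ z, χ z * ‖dz K z‖ ^ 2) := by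
          rw [← mul_assoc, h6, one_mul]
      _ ≤ _ := by gcongr
  have e5 : EqOn (fun z => χ z * ‖dz K z‖ ^ 2) (fun z => ‖dz K z‖ ^ 2) (ball 0 s) := by
    intro z hz
    simp only
    rw [h1 z (ball_subset_closedBall hz), one_mul]
  constructor
  · exact (i3.integrableOn (s := ball 0 s)).congr_fun e5 measurableSet_ball
  · rw [← setIntegral_congr_fun measurableSet_ball e5]
    refine (setIntegral_le_integral i3 ?_).trans b5
    filter_upwards with z
    have := h0 z
    simp only [Pi.zero_apply]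
    positivity

/-- the product rule for the cut off connection form -/
theorem db_cut {χ : ℂ → ℂ} {q B c R : ℝ} {Θ K : ℂ → M r} (h : Hyp r q B c R Θ K)
    (hχ : ContDiff ℝ 1 χ) (hts : tsupport χ ⊆ ball 0 R) :
    db (fun w => χ w • ((K w)⁻¹ * dz K w))
      = fun w => db χ w • ((K w)⁻¹ * dz K w) + χ w • Qc K w := by
  funext z
  by_cases hz : z ∈ ball (0 : ℂ) R
  · rw [db_smul (hχ.differentiable one_ne_zero z)
      ((h.cA.contDiffAt (isOpen_ball.mem_nhds hz)).differentiableAt (by simp))]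
    rfl
  · have h1 : z ∉ tsupport χ := fun hh => hz (hts hh)
    have h2 := notMem_tsupport_iff_eventuallyEq.mp h1
    have h3 : (fun w => χ w • ((K w)⁻¹ * dz K w)) =ᶠ[𝓝 z] fun _ => 0 := by
      filter_upwards [h2] with w hw
      rw [hw]; simp
    rw [db_eq_zero h3, db_eq_zero (c := 0) h2, h2.eq_of_nhds]
    simp

/-- the sup bound of the connection form -/
theorem bdd (hCT : Stmt_CT) (hCTB : Stmt_CTB) (hDT : Stmt_DT) (r : ℕ) (q B c R s : ℝ)
    (hq : 0 ≤ q) (hs : 0 < s) (hsR : s < R) : ∃ C : ℝ, 0 ≤ C ∧ ∀ Θ K : ℂ → M r,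
      Hyp r q B c R Θ K → ∀ z ∈ ball (0 : ℂ) s, ‖(K z)⁻¹ * dz K z‖ ≤ C := by
  set s2 := s + (R - s) / 4 with hs2
  set t := s + (R - s) / 2 with ht
  set s1 := s + 3 * (R - s) / 4 with hs1
  have hss2 : s < s2 := by rw [hs2]; linarith
  have hs2t : s2 < t := by rw [hs2, ht]; linarith
  have hts1 : t < s1 := by rw [ht, hs1]; linarith
  have hs1R : s1 < R := by rw [hs1]; linarith
  obtain ⟨χ, hχ, hcs, hts, h1, h0, h1'⟩ := cutoff (hs.trans hss2) hs2t
  have hχ1 : ContDiff ℝ 1 (fun z => (χ z : ℂ)) := hχ.of_le (by norm_cast)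
  have htsU : tsupport (fun z => (χ z : ℂ)) ⊆ ball 0 R :=
    hts.trans (closedBall_subset_ball (by linarith))
  obtain ⟨CE, hCE, hE⟩ := energy hDT r q B c R s1 hq (by linarith) hs1R
  obtain ⟨CB, hCB, hB⟩ := hCTB r t (by linarith)
  obtain ⟨D, hD⟩ : ∃ D : ℝ, ∀ w, ‖db (fun z => (χ z : ℂ)) w‖ ≤ D :=
    (continuous_db hχ1).bounded_above_of_compact_support (hcs_db hcs)
  have hDn : 0 ≤ D := (norm_nonneg _).trans (hD 0)
  have hN := Nc_nonneg r c
  have hM := Mq_nonneg (r := r) hq B c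
  have := pm r
  set V : ℝ := volume.real (ball (0 : ℂ) s1) with hV
  set C1 : ℝ := (s2 - s)⁻¹ * (D * Nc r c) * (V + CE) with hC1
  have hC1n : 0 ≤ C1 := by
    have : 0 ≤ (s2 - s)⁻¹ := inv_nonneg.2 (by linarith)
    have : 0 ≤ V := measureReal_nonneg
    positivity
  refine ⟨‖(-(1 / (Real.pi : ℂ)))‖ * C1 + CB * Mq r q B c, by positivity, ?_⟩
  intro Θ K h z hz
  obtain ⟨hE1, hE2⟩ := hE Θ K h
  have hzR : z ∈ ball (0 : ℂ) R := ball_subset_ball (by linarith) hz
  have hχz : χ z = 1 := h1 z (ball_subset_closedBall (ball_subset_ball hss2.le hz))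
  have hcA : ContinuousOn (fun w => (K w)⁻¹ * dz K w) (ball 0 R) := h.cA.continuousOn
  have hf1 : Continuous (fun w => db (fun z => (χ z : ℂ)) w • ((K w)⁻¹ * dz K w)) :=
    smul_cont isOpen_ball (continuous_db hχ1) (tsupport_db.trans htsU) hcA
  have hf1c : HasCompactSupport (fun w => db (fun z => (χ z : ℂ)) w • ((K w)⁻¹ * dz K w)) :=
    (hcs_db hcs).smul_right
  have hf2 : Continuous (fun w => (χ w : ℂ) • Qc K w) :=
    smul_cont isOpen_ball hχ.continuous htsU h.cQ
  have hf2c : HasCompactSupport (fun w => (χ w : ℂ) • Qc K w) := hcs.smul_right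
  have hf : ContDiff ℝ 1 (fun w => (χ w : ℂ) • ((K w)⁻¹ * dz K w)) :=
    smul_contDiff isOpen_ball hχ1 htsU (h.cA.of_le (by norm_cast))
  have e1 := hCT.inv2 r (fun w => (χ w : ℂ) • ((K w)⁻¹ * dz K w)) hf hcs.smul_right z
  rw [hχz, Complex.ofReal_one, one_smul, db_cut h hχ1 htsU] at e1
  have e2 : CT (fun w => db (fun z => (χ z : ℂ)) w • ((K w)⁻¹ * dz K w) + (χ w : ℂ) • Qc K w) z
      = CT (fun w => db (fun z => (χ z : ℂ)) w • ((K w)⁻¹ * dz K w)) z
        + CT (fun w => (χ w : ℂ) • Qc K w) z := by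
    unfold CT
    simp only [smul_add]
    rw [integral_add (kernel_integrable hf1 hf1c z) (kernel_integrable hf2 hf2c z), smul_add]
  have b2 : ‖CT (fun w => (χ w : ℂ) • Qc K w) z‖ ≤ CB * Mq r q B c := by
    refine (hB (fun w => (χ w : ℂ) • Qc K w) 0 (Mq r q B c) hf2.aestronglyMeasurable ?_ ?_).1 z
    · intro w
      rw [norm_smul, Complex.norm_real, Real.norm_of_nonneg (h0 w)]
      by_cases hw : w ∈ ball (0 : ℂ) R
      · have := h.nQ hDT hq hw
        calc χ w * ‖Qc K w‖ ≤ 1 * Mq r q B c := by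
              have := h1' w
              gcongr
          _ = _ := one_mul _
      · have : w ∉ tsupport (fun z => (χ z : ℂ)) := fun hh => hw (htsU hh)
        have h3 := image_eq_zero_of_notMem_tsupport this
        have h4 : χ w = 0 := by exact_mod_cast h3
        rw [h4, zero_mul]; exact hM
    · intro w hw
      have : w ∉ tsupport (fun z => (χ z : ℂ)) := fun hh => hw (hts hh)
      have h3 : ((χ w : ℝ) : ℂ) = 0 :=
        image_eq_zero_of_notMem_tsupport (f := fun z => (χ z : ℂ)) this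
      rw [h3, zero_smul]
  have b1 : ‖∫ w, (w - z)⁻¹ • (db (fun z => (χ z : ℂ)) w • ((K w)⁻¹ * dz K w))‖ ≤ C1 := by
    have hb : ∀ w, ‖(w - z)⁻¹ • (db (fun z => (χ z : ℂ)) w • ((K w)⁻¹ * dz K w))‖ ≤
        (ball (0 : ℂ) s1).indicator
          (fun w => (s2 - s)⁻¹ * (D * Nc r c) * (1 + ‖dz K w‖ ^ 2)) w := by
      intro w
      by_cases hw : w ∈ closedBall (0 : ℂ) t
      · have hw1 : w ∈ ball (0 : ℂ) s1 := closedBall_subset_ball hts1 hw
        have hwR : w ∈ ball (0 : ℂ) R := ball_subset_ball hs1R.le hw1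
        rw [indicator_of_mem hw1]
        by_cases hw2 : w ∈ ball (0 : ℂ) s2
        · have : db (fun z => (χ z : ℂ)) w = 0 := by
            apply db_eq_zero (c := 1)
            filter_upwards [isOpen_ball.mem_nhds hw2] with y hy
            rw [h1 y (ball_subset_closedBall hy), Complex.ofReal_one]
          rw [this, zero_smul, smul_zero, norm_zero]
          have : 0 ≤ (s2 - s)⁻¹ := inv_nonneg.2 (by linarith)
          positivity
        · have hd : s2 - s ≤ ‖w - z‖ := by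
            have h5 : s2 ≤ ‖w‖ := by simpa using hw2
            have h6 : ‖z‖ < s := by simpa using hz
            have := norm_sub_norm_le w z
            linarith
          have hdi : ‖(w - z)⁻¹‖ ≤ (s2 - s)⁻¹ := by
            rw [norm_inv]
            exact inv_anti₀ (by linarith) hd
          have hA : ‖(K w)⁻¹ * dz K w‖ ≤ Nc r c * (1 + ‖dz K w‖ ^ 2) := by
            calc ‖(K w)⁻¹ * dz K w‖ ≤ ‖(K w)⁻¹‖ * ‖dz K w‖ := norm_mul_le _ _
              _ ≤ Nc r c * (1 + ‖dz K w‖ ^ 2) := by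
                  have := (h.nK hDT hwR).2
                  gcongr
                  nlinarith [sq_nonneg (‖dz K w‖ - 1), norm_nonneg (dz K w)]
          rw [norm_smul, norm_smul]
          calc ‖(w - z)⁻¹‖ * (‖db (fun z => (χ z : ℂ)) w‖ * ‖(K w)⁻¹ * dz K w‖)
              ≤ (s2 - s)⁻¹ * (D * (Nc r c * (1 + ‖dz K w‖ ^ 2))) := by
                have := hD w
                have : 0 ≤ (s2 - s)⁻¹ := inv_nonneg.2 (by linarith)
                gcongr
            _ = _ := by ring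
      · have : db (fun z => (χ z : ℂ)) w = 0 :=
          image_eq_zero_of_notMem_tsupport fun hh => hw (hts (tsupport_db hh))
        rw [this, zero_smul, smul_zero, norm_zero]
        apply indicator_nonneg
        intro y _
        have : 0 ≤ (s2 - s)⁻¹ := inv_nonneg.2 (by linarith)
        positivity
    have hint : IntegrableOn (fun w => (s2 - s)⁻¹ * (D * Nc r c) * (1 + ‖dz K w‖ ^ 2))
        (ball (0 : ℂ) s1) := by
      apply Integrable.const_mul
      apply Integrable.add _ hE1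
      exact integrableOn_const measure_ball_lt_top.ne (by simp)
    refine (norm_integral_le_of_norm_le (hint.integrable_indicator measurableSet_ball)
      (Filter.Eventually.of_forall hb)).trans ?_
    have hone : IntegrableOn (fun _ : ℂ => (1 : ℝ)) (ball (0 : ℂ) s1) :=
      integrableOn_const measure_ball_lt_top.ne (by simp)
    rw [integral_indicator measurableSet_ball, integral_const_mul, integral_add
      hone hE1, setIntegral_const]
    rw [hC1]
    have : 0 ≤ (s2 - s)⁻¹ := inv_nonneg.2 (by linarith)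
    gcongr
    simp [hV]
  rw [← e1, e2]
  refine (norm_add_le _ _).trans (add_le_add ?_ b2)
  unfold CT
  rw [norm_smul]
  gcongr

/-- the modulus of continuity of the connection form -/
theorem modulus (hCT : Stmt_CT) (hCTB : Stmt_CTB) (hDT : Stmt_DT) (r : ℕ) (q B c R s : ℝ)
    (hq : 0 ≤ q) (hs : 0 < s) (hsR : s < R) : ∃ C : ℝ, 0 ≤ C ∧ ∀ Θ K : ℂ → M r,
      Hyp r q B c R Θ K → ∀ z ∈ ball (0 : ℂ) s, ∀ z' ∈ ball (0 : ℂ) s,
        ‖(K z)⁻¹ * dz K z - (K z')⁻¹ * dz K z'‖ ≤ C * Real.sqrt ‖z - z'‖ := by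
  set t := s + (R - s) / 2 with ht
  set s1 := s + 3 * (R - s) / 4 with hs1
  have hst : s < t := by rw [ht]; linarith
  have hts1 : t < s1 := by rw [ht, hs1]; linarith
  have hs1R : s1 < R := by rw [hs1]; linarith
  obtain ⟨χ, hχ, hcs, hts, h1, h0, h1'⟩ := cutoff hs hst
  have hχ1 : ContDiff ℝ 1 (fun z => (χ z : ℂ)) := hχ.of_le (by norm_cast)
  have htsU : tsupport (fun z => (χ z : ℂ)) ⊆ ball 0 R :=
    hts.trans (closedBall_subset_ball (by linarith))
  obtain ⟨CA, hCA, hA⟩ := bdd hCT hCTB hDT r q B c R s1 hq (by linarith) hs1R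
  obtain ⟨CB, hCB, hB⟩ := hCTB r t (by linarith)
  obtain ⟨D, hD⟩ : ∃ D : ℝ, ∀ w, ‖db (fun z => (χ z : ℂ)) w‖ ≤ D :=
    (continuous_db hχ1).bounded_above_of_compact_support (hcs_db hcs)
  have hDn : 0 ≤ D := (norm_nonneg _).trans (hD 0)
  have hM := Mq_nonneg (r := r) hq B c
  refine ⟨CB * (D * CA + Mq r q B c), by positivity, ?_⟩
  intro Θ K h z hz z' hz'
  have hcA : ContinuousOn (fun w => (K w)⁻¹ * dz K w) (ball 0 R) := h.cA.continuousOn
  have hf1 : Continuous (fun w => db (fun z => (χ z : ℂ)) w • ((K w)⁻¹ * dz K w)) :=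
    smul_cont isOpen_ball (continuous_db hχ1) (tsupport_db.trans htsU) hcA
  have hf2 : Continuous (fun w => (χ w : ℂ) • Qc K w) :=
    smul_cont isOpen_ball hχ.continuous htsU h.cQ
  have hf : ContDiff ℝ 1 (fun w => (χ w : ℂ) • ((K w)⁻¹ * dz K w)) :=
    smul_contDiff isOpen_ball hχ1 htsU (h.cA.of_le (by norm_cast))
  have e1 : ∀ y ∈ ball (0 : ℂ) s, CT (fun w => db (fun z => (χ z : ℂ)) w • ((K w)⁻¹ * dz K w)
      + (χ w : ℂ) • Qc K w) y = (K y)⁻¹ * dz K y := by
    intro y hy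
    have e1 := hCT.inv2 r (fun w => (χ w : ℂ) • ((K w)⁻¹ * dz K w)) hf hcs.smul_right y
    rwa [h1 y (ball_subset_closedBall hy), Complex.ofReal_one, one_smul, db_cut h hχ1 htsU] at e1
  rw [← e1 z hz, ← e1 z' hz']
  have := pm r
  have hf12 : Continuous (fun w => db (fun z => (χ z : ℂ)) w • ((K w)⁻¹ * dz K w)
      + (χ w : ℂ) • Qc K w) := hf1.add hf2
  refine (hB (fun w => db (fun z => (χ z : ℂ)) w • ((K w)⁻¹ * dz K w)
      + (χ w : ℂ) • Qc K w) 0 (D * CA + Mq r q B c) hf12.aestronglyMeasurable ?_ ?_).2 z z'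
  · intro w
    by_cases hw : w ∈ closedBall (0 : ℂ) t
    · have hw1 : w ∈ ball (0 : ℂ) s1 := closedBall_subset_ball hts1 hw
      have hwR : w ∈ ball (0 : ℂ) R := ball_subset_ball hs1R.le hw1
      refine (norm_add_le _ _).trans (add_le_add ?_ ?_)
      · rw [norm_smul]
        have := hD w
        have := hA Θ K h w hw1
        gcongr
      · rw [norm_smul, Complex.norm_real, Real.norm_of_nonneg (h0 w)]
        have := h.nQ hDT hq hwR
        have := h1' w
        calc χ w * ‖Qc K w‖ ≤ 1 * Mq r q B c := by gcongr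
          _ = _ := one_mul _
    · have h2 : db (fun z => (χ z : ℂ)) w = 0 :=
        image_eq_zero_of_notMem_tsupport fun hh => hw (hts (tsupport_db hh))
      have h3 : ((χ w : ℝ) : ℂ) = 0 :=
        image_eq_zero_of_notMem_tsupport (f := fun z => (χ z : ℂ)) fun hh => hw (hts hh)
      rw [h2, h3]
      simp only [zero_smul, add_zero, norm_zero]
      positivity
  · intro w hw
    have h2 : db (fun z => (χ z : ℂ)) w = 0 :=
      image_eq_zero_of_notMem_tsupport fun hh => hw (hts (tsupport_db hh))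
    have h3 : ((χ w : ℝ) : ℂ) = 0 :=
      image_eq_zero_of_notMem_tsupport (f := fun z => (χ z : ℂ)) fun hh => hw (hts hh)
    rw [h2, h3]
    simp

theorem hyp_shift {q B c R : ℝ} {Θ K : ℂ → M r} {a : ℂ} (h : Sol (ball a R) q Θ K)
    (h1 : ∀ z ∈ ball a R, ‖Θ z‖ ≤ B) (h2 : ∀ z ∈ ball a R, Thm c (K z) 1) :
    Hyp r q B c R (fun z => Θ (z + a)) (fun z => K (z + a)) := by
  have hm : ∀ z ∈ ball (0 : ℂ) R, z + a ∈ ball a R := by
    intro z hz
    simpa [dist_eq_norm] using hz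
  have e1 : dz (fun w => K (w + a)) = fun w => dz K (w + a) := by
    funext w; exact dz_shift K a w
  refine ⟨⟨?_, fun z hz => h.pos _ (hm z hz), ?_⟩, fun z hz => h1 _ (hm z hz),
    fun z hz => h2 _ (hm z hz)⟩
  · exact h.smooth.comp (contDiff_id.add contDiff_const).contDiffOn hm
  · intro z hz
    have e2 : Qc (fun z => K (z + a)) z = Qc K (z + a) := by
      unfold Qc
      rw [e1]
      exact db_shift (fun w => (K w)⁻¹ * dz K w) a z
    rw [e2]
    exact h.eqn _ (hm z hz)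

end est

end Grad

theorem grad_proof (hCT : Stmt_CT) (hCTB : Stmt_CTB) (hDT : Stmt_DT) : Stmt_Grad := by
  intro r q B c R ρ hq _hc hρ hρR
  obtain ⟨C1, hC1, h1⟩ := Grad.bdd hCT hCTB hDT r q B c R ρ hq hρ hρR
  obtain ⟨C2, hC2, h2⟩ := Grad.modulus hCT hCTB hDT r q B c R ρ hq hρ hρR
  have hN := Grad.Nc_nonneg r c
  refine ⟨Grad.Nc r c * C1 + C2 + 1, by positivity, ?_⟩
  intro Θ K a _hΘ hsol hB hT
  have hH := Grad.hyp_shift hsol hB hT
  have hm : ∀ z ∈ ball a ρ, z - a ∈ ball (0 : ℂ) ρ := by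
    intro z hz
    simpa [dist_eq_norm] using hz
  have e : ∀ z, dz (fun w => K (w + a)) (z - a) = dz K z := by
    intro z
    rw [Grad.dz_shift, sub_add_cancel]
  constructor
  · intro z hz
    have hzR : z - a ∈ ball (0 : ℂ) R := ball_subset_ball hρR.le (hm z hz)
    have b := h1 _ _ hH (z - a) (hm z hz)
    have n := (hH.nK hDT hzR).1
    have u := hH.unit hzR
    rw [e z, sub_add_cancel] at b
    rw [sub_add_cancel] at n u
    have e2 : dz K z = K z * ((K z)⁻¹ * dz K z) := by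
      rw [← Matrix.mul_assoc, Matrix.mul_nonsing_inv _ ((Matrix.isUnit_iff_isUnit_det _).1 u),
        Matrix.one_mul]
    rw [e2]
    calc ‖K z * ((K z)⁻¹ * dz K z)‖ ≤ ‖K z‖ * ‖(K z)⁻¹ * dz K z‖ := norm_mul_le _ _
      _ ≤ Grad.Nc r c * C1 := by gcongr
      _ ≤ _ := by linarith
  · intro z hz z' hz'
    have b := h2 _ _ hH (z - a) (hm z hz) (z' - a) (hm z' hz')
    rw [e z, e z', sub_add_cancel, sub_add_cancel, sub_sub_sub_cancel_right] at b
    refine b.trans ?_
    have : 0 ≤ Grad.Nc r c * C1 := by positivity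
    gcongr
    linarith

end Pool.Agent.HSC
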