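import Pool.Agent.HSC.Stmts

set_option autoImplicit false

open scoped Matrix.Norms.Frobenius ContDiff Topology Manifold ComplexOrder ComplexConjugate
open Matrix Set Filter MeasureTheory Metric

noncomputable section

namespace Pool.Agent.HSC

namespace IntEq

theorem sol_mono {r : ℕ} {U V : Set ℂ} {q : ℝ} {Θ K : ℂ → M r} (h : Sol U q Θ K) (hVU : V ⊆ U) :
    Sol V q Θ K where
  smooth := h.smooth.mono hVU
  pos := fun z hz => h.pos z (hVU hz)
  eqn := fun z hz => h.eqn z (hVU hz)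

theorem lip {E : Type*} [NormedAddCommGroup E] [NormedSpace ℂ E] (K : ℂ → E) (s : Set ℂ)
    (hs : Convex ℝ s) (C : ℝ) (hdiff : ∀ w ∈ s, DifferentiableAt ℝ K w)
    (h1 : ∀ w ∈ s, ‖dz K w‖ ≤ C) (h2 : ∀ w ∈ s, ‖db K w‖ ≤ C) :
    ∀ z ∈ s, ∀ w ∈ s, ‖K z - K w‖ ≤ 2 * C * ‖z - w‖ := by
  intro z hz w hw
  apply hs.norm_image_sub_le_of_norm_fderiv_le (𝕜 := ℝ) hdiff _ hw hz
  intro x hx
  have h3 := norm_fderiv_le_dz_db (hdiff x hx)
  have h4 := h1 x hx
  have h5 := h2 x hx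
  linarith

/-- uniform continuity of the Thompson distance on bounded sets -/
theorem uniform (hDT : Stmt_DT) (r : ℕ) (c ε : ℝ) (hε : 0 < ε) :
    ∃ η > 0, ∀ A B : M r, A.PosDef → Thm c A 1 → B.PosDef → Thm c B 1 → ‖A - B‖ < η →
      dT A B ≤ ε := by
  have hS : IsCompact {A : M r | A.PosDef ∧ Thm c A 1} := hDT.compact r 1 c Matrix.PosDef.one
  have hcont : ContinuousOn (fun p : M r × M r => dT p.1 p.2)
      ({A : M r | A.PosDef ∧ Thm c A 1} ×ˢ {A : M r | A.PosDef ∧ Thm c A 1}) :=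
    (hDT.cont r).mono (fun p hp => ⟨hp.1.1, hp.2.1⟩)
  have huc := (hS.prod hS).uniformContinuousOn_of_continuous hcont
  have huc' : @UniformContinuousOn (M r × M r) ℝ PseudoMetricSpace.toUniformSpace
      PseudoMetricSpace.toUniformSpace (fun p : M r × M r => dT p.1 p.2)
      ({A : M r | A.PosDef ∧ Thm c A 1} ×ˢ {A : M r | A.PosDef ∧ Thm c A 1}) := huc
  obtain ⟨η, hη, h⟩ := Metric.uniformContinuousOn_iff.1 huc' ε hε
  refine ⟨η, hη, fun A B hA hA1 hB hB1 hAB => ?_⟩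
  have h1 := h (A, B) ⟨⟨hA, hA1⟩, ⟨hB, hB1⟩⟩ (B, B) ⟨⟨hB, hB1⟩, ⟨hB, hB1⟩⟩ (by
    rw [Prod.dist_eq]
    simp only [dist_self]
    rw [max_eq_left dist_nonneg, dist_eq_norm]
    exact hAB)
  simp only at h1
  rw [hDT.self r B hB, Real.dist_eq, sub_zero, abs_of_nonneg (hDT.nonneg r A B)] at h1
  exact h1.le

end IntEq

theorem inteq_proof (hGrad : Stmt_Grad) (hDT : Stmt_DT) : Stmt_IntEq := by
  intro r q c U Θ z₀ hq hc hU hz₀ hΘ ε hε
  obtain ⟨R, hR, hRU⟩ := Metric.isOpen_iff.1 hU z₀ hz₀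
  have hR2 : (0 : ℝ) < R / 2 := by positivity
  have hcl : closedBall z₀ (R / 2) ⊆ U := (closedBall_subset_ball (by linarith)).trans hRU
  obtain ⟨B, hB⟩ := (isCompact_closedBall z₀ (R / 2)).exists_bound_of_continuousOn
    (hΘ.mono hcl)
  obtain ⟨C, hC, hgrad⟩ := hGrad r q B c (R / 2) (R / 4) hq hc (by positivity) (by linarith)
  obtain ⟨η, hη, hun⟩ := IntEq.uniform hDT r c ε hε
  have hsub : ball z₀ (R / 2) ⊆ U := ball_subset_closedBall.trans hcl
  have hsub4 : ball z₀ (R / 4) ⊆ ball z₀ (R / 2) := ball_subset_ball (by linarith)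
  refine ⟨min (R / 4) (η / (2 * C)), lt_min (by positivity) (by positivity),
    (ball_subset_ball (min_le_left _ _)).trans (hsub4.trans hsub), ?_⟩
  intro K hK hT z hz
  have hz4 : z ∈ ball z₀ (R / 4) := ball_subset_ball (min_le_left _ _) hz
  have hz0 : z₀ ∈ ball z₀ (R / 4) := mem_ball_self (by positivity)
  have h1 := (hgrad Θ K z₀ (hΘ.mono hsub) (IntEq.sol_mono hK hsub)
    (fun w hw => hB w (ball_subset_closedBall hw)) (fun w hw => hT w (hsub hw))).1
  have hdiff : ∀ w ∈ ball z₀ (R / 4), DifferentiableAt ℝ K w := by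
    intro w hw
    exact (hK.smooth.contDiffAt (hU.mem_nhds (hsub (hsub4 hw)))).differentiableAt (by simp)
  have hdb : ∀ w ∈ ball z₀ (R / 4), ‖db K w‖ ≤ C := by
    intro w hw
    have h3 : db K w = (dz K w)ᴴ := by
      apply db_eq_of_hermitian (hdiff w hw)
      filter_upwards [hU.mem_nhds (hsub (hsub4 hw))] with x hx
      exact (hK.pos x hx).isHermitian
    rw [h3, Matrix.frobenius_norm_conjTranspose]
    exact h1 w hw
  have hlip := IntEq.lip K _ (convex_ball z₀ (R / 4)) C hdiff h1 hdb z hz4 z₀ hz0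
  apply hun _ _ (hK.pos z (hsub (hsub4 hz4))) (hT z (hsub (hsub4 hz4))) (hK.pos z₀ hz₀) (hT z₀ hz₀)
  have h6 : ‖z - z₀‖ < η / (2 * C) := by
    rw [← dist_eq_norm]
    exact (mem_ball.1 hz).trans_le (min_le_right _ _)
  calc ‖K z - K z₀‖ ≤ 2 * C * ‖z - z₀‖ := hlip
    _ < 2 * C * (η / (2 * C)) := by
        apply mul_lt_mul_of_pos_left h6
        positivity
    _ = η := by field_simp

end Pool.Agent.HSC
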