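import Pool.Agent.HSC.Stmts

/-!
# The derivative of the determinant (Jacobi's formula)
-/

set_option autoImplicit false

open scoped Matrix.Norms.Frobenius ContDiff Topology Manifold ComplexOrder ComplexConjugate
open Matrix Set Filter

noncomputable section

namespace Pool.Agent.HSC

namespace Jac

/-- an entry, as a real linear map -/
def ent {j : ℕ} (a b : Fin j) : M j →L[ℝ] ℂ :=
  ((LinearMap.toContinuousLinearMap (Matrix.entryLinearMap ℂ ℂ a b) : M j →L[ℂ] ℂ)).restrictScalars ℝ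

theorem ent_apply {j : ℕ} (a b : Fin j) (X : M j) : ent a b X = X a b := rfl

/-- the derivative of the determinant, as a real linear map -/
def dd {j : ℕ} (A : M j) : M j →L[ℝ] ℂ :=
  ((LinearMap.toContinuousLinearMap ((Matrix.traceLinearMap (Fin j) ℂ ℂ) ∘ₗ
    (LinearMap.mulLeft ℂ (adjugate A))) : M j →L[ℂ] ℂ)).restrictScalars ℝ

theorem dd_apply {j : ℕ} (A X : M j) : dd A X = (adjugate A * X).trace := rfl

theorem prod_updateCol {j : ℕ} (A : M j) (σ : Equiv.Perm (Fin j)) (i : Fin j) (v : Fin j → ℂ) :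
    ∏ k, (A.updateCol i v) (σ k) k = (∏ k ∈ Finset.univ.erase i, A (σ k) k) * v (σ i) := by
  rw [← Finset.prod_erase_mul _ _ (Finset.mem_univ i)]
  congr 1
  · apply Finset.prod_congr rfl
    intro k hk
    rw [Matrix.updateCol_ne (Finset.ne_of_mem_erase hk)]
  · rw [Matrix.updateCol_self]

theorem alg {j : ℕ} (A X : M j) :
    ∑ σ : Equiv.Perm (Fin j), (Equiv.Perm.sign σ : ℂ) *
      (∑ i, (∏ k ∈ Finset.univ.erase i, A (σ k) k) * X (σ i) i) = (adjugate A * X).trace := by
  have h1 : (adjugate A * X).trace = ∑ i, (A.updateCol i (fun k => X k i)).det := by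
    unfold Matrix.trace
    apply Finset.sum_congr rfl
    intro i _
    rw [← Matrix.cramer_apply, Matrix.cramer_eq_adjugate_mulVec]
    rfl
  rw [h1]
  simp only [Matrix.det_apply', prod_updateCol, Finset.mul_sum]
  rw [Finset.sum_comm]

theorem hasFDerivAt_det {j : ℕ} (F : ℂ → M j) (z : ℂ) (hF : DifferentiableAt ℝ F z) :
    HasFDerivAt (fun w => (F w).det) ((dd (F z)).comp (fderiv ℝ F z)) z := by
  have h0 : ∀ a b : Fin j, HasFDerivAt (fun w => F w a b) ((ent a b).comp (fderiv ℝ F z)) z :=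
    fun a b => (ent a b).hasFDerivAt.comp z hF.hasFDerivAt
  have h1 : ∀ σ : Equiv.Perm (Fin j), HasFDerivAt
      (fun w => (Equiv.Perm.sign σ : ℂ) * ∏ i, F w (σ i) i)
      ((Equiv.Perm.sign σ : ℂ) • ∑ i, (∏ k ∈ Finset.univ.erase i, F z (σ k) k) •
        ((ent (σ i) i).comp (fderiv ℝ F z))) z := by
    intro σ
    have h2 := HasFDerivAt.finsetProd (u := Finset.univ) (fun i _ => h0 (σ i) i)
    exact h2.const_mul _
  have h3 := HasFDerivAt.fun_sum (u := Finset.univ) (fun σ _ => h1 σ)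
  have h4 : (fun w => (F w).det) = fun w => ∑ σ : Equiv.Perm (Fin j),
      (Equiv.Perm.sign σ : ℂ) * ∏ i, F w (σ i) i := by
    funext w; rw [Matrix.det_apply']
  rw [h4]
  refine h3.congr_fderiv ?_
  refine ContinuousLinearMap.ext fun v => ?_
  rw [ContinuousLinearMap.comp_apply, dd_apply, ← alg]
  simp only [_root_.sum_apply, _root_.smul_apply, ContinuousLinearMap.comp_apply, ent_apply,
    smul_eq_mul]

end Jac

theorem jac_proof : Stmt_Jac := by
  intro j F z hF
  have h := Jac.hasFDerivAt_det F z hF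
  have hL : ∀ (c : ℂ) (X : M j), Jac.dd (F z) (c • X) = c * Jac.dd (F z) X := by
    intro c X
    rw [Jac.dd_apply, Jac.dd_apply, Matrix.mul_smul, Matrix.trace_smul, smul_eq_mul]
  refine ⟨h.differentiableAt, ?_, ?_⟩
  · unfold dz
    rw [h.fderiv, ← Jac.dd_apply, hL, map_sub, hL]
    rfl
  · unfold db
    rw [h.fderiv, ← Jac.dd_apply, hL, map_add, hL]
    rfl

end Pool.Agent.HSC
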