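import Pool.Agent.HSC.Stmts

/-!
# Squad HSC, module KYFAN: a determinant inequality of Ky Fan type
-/

set_option autoImplicit false

open scoped Matrix.Norms.Frobenius ContDiff Topology Manifold ComplexOrder ComplexConjugate
open Matrix Set Filter MeasureTheory Metric

noncomputable section

namespace Pool.Agent.HSC

namespace KyFan

variable {r j : ℕ}

/-- expansion of the determinant of a product of rectangular matrices -/
theorem det_mul_expand (A : Matrix (Fin j) (Fin r) ℂ) (B : Matrix (Fin r) (Fin j) ℂ) :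
    (A * B).det = ∑ f : Fin j → Fin r, (A.submatrix id f).det * ∏ i, B (f i) i := by
  have h1 : ∀ σ : Equiv.Perm (Fin j), (∏ i, (A * B) (σ i) i) =
      ∑ f : Fin j → Fin r, ∏ i, A (σ i) (f i) * B (f i) i := by
    intro σ
    simp only [Matrix.mul_apply]
    rw [Finset.prod_univ_sum]
    simp only [Fintype.piFinset_univ]
  rw [Matrix.det_apply]
  simp only [h1, Finset.smul_sum]
  rw [Finset.sum_comm]
  refine Finset.sum_congr rfl fun f _ => ?_
  rw [Matrix.det_apply, Finset.sum_mul]
  refine Finset.sum_congr rfl fun σ _ => ?_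
  rw [Finset.prod_mul_distrib, smul_mul_assoc]
  rfl

theorem det_diag (κ : Fin r → ℝ) (V : Matrix (Fin r) (Fin j) ℂ) (f : Fin j → Fin r) :
    ((Vᴴ * Matrix.diagonal (fun i => (κ i : ℂ))).submatrix id f).det =
      (∏ i, (κ (f i) : ℂ)) * star (V.submatrix f id).det := by
  have h1 : (Vᴴ * Matrix.diagonal (fun i => (κ i : ℂ))).submatrix id f =
      (V.submatrix f id)ᴴ * Matrix.diagonal (fun i => (κ (f i) : ℂ)) := by
    ext a b
    simp only [Matrix.submatrix_apply, Matrix.mul_diagonal, Matrix.conjTranspose_apply, id]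
  rw [h1, Matrix.det_mul, Matrix.det_diagonal, Matrix.det_conjTranspose, mul_comm]

theorem det_expand (κ : Fin r → ℝ) (V : Matrix (Fin r) (Fin j) ℂ) :
    (Vᴴ * Matrix.diagonal (fun i => (κ i : ℂ)) * V).det =
      ∑ f : Fin j → Fin r, (∏ i, (κ (f i) : ℂ)) * star (V.submatrix f id).det *
        ∏ i, V (f i) i := by
  rw [det_mul_expand]
  refine Finset.sum_congr rfl fun f _ => ?_
  rw [det_diag]

theorem det_perm (V : Matrix (Fin r) (Fin j) ℂ) (f : Fin j → Fin r) (σ : Equiv.Perm (Fin j)) :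
    (V.submatrix (f ∘ σ) id).det = ((Equiv.Perm.sign σ : ℤ) : ℂ) * (V.submatrix f id).det := by
  have h := Matrix.det_permute σ (V.submatrix f id)
  rw [← h]
  rfl

/-- the symmetrised expansion -/
theorem det_symm (κ : Fin r → ℝ) (V : Matrix (Fin r) (Fin j) ℂ) :
    ((Fintype.card (Equiv.Perm (Fin j)) : ℕ) : ℂ) *
      (Vᴴ * Matrix.diagonal (fun i => (κ i : ℂ)) * V).det =
      ∑ f : Fin j → Fin r, (∏ i, (κ (f i) : ℂ)) *
        (star (V.submatrix f id).det * (V.submatrix f id).det) := by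
  have h1 : ∀ σ : Equiv.Perm (Fin j), (Vᴴ * Matrix.diagonal (fun i => (κ i : ℂ)) * V).det =
      ∑ f : Fin j → Fin r, (∏ i, (κ (f i) : ℂ)) * star (V.submatrix f id).det *
        (((Equiv.Perm.sign σ : ℤ) : ℂ) * ∏ i, V (f (σ i)) i) := by
    intro σ
    rw [det_expand]
    rw [← Equiv.sum_comp (Equiv.arrowCongr σ.symm (Equiv.refl (Fin r)))]
    refine Finset.sum_congr rfl fun f _ => ?_
    have e1 : (Equiv.arrowCongr σ.symm (Equiv.refl (Fin r))) f = f ∘ σ := by
      ext i
      simp [Equiv.arrowCongr]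
    rw [e1, det_perm]
    have e2 : ∏ i, (κ ((f ∘ σ) i) : ℂ) = ∏ i, (κ (f i) : ℂ) :=
      Equiv.prod_comp σ (fun i => (κ (f i) : ℂ))
    rw [e2, star_mul']
    have e3 : star (((Equiv.Perm.sign σ : ℤ) : ℂ)) = ((Equiv.Perm.sign σ : ℤ) : ℂ) := by
      simp
    rw [e3]
    simp only [Function.comp]
    ring
  have h2 : ((Fintype.card (Equiv.Perm (Fin j)) : ℕ) : ℂ) *
      (Vᴴ * Matrix.diagonal (fun i => (κ i : ℂ)) * V).det =
      ∑ σ : Equiv.Perm (Fin j), (Vᴴ * Matrix.diagonal (fun i => (κ i : ℂ)) * V).det := by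
    rw [Finset.sum_const, Finset.card_univ, nsmul_eq_mul]
  rw [h2, Finset.sum_congr rfl (fun σ _ => h1 σ), Finset.sum_comm]
  refine Finset.sum_congr rfl fun f _ => ?_
  rw [← Finset.mul_sum, mul_assoc]
  congr 2
  rw [Matrix.det_apply]
  refine Finset.sum_congr rfl fun σ _ => ?_
  rw [Units.smul_def, zsmul_eq_mul]
  rfl

theorem re_symm (κ : Fin r → ℝ) (V : Matrix (Fin r) (Fin j) ℂ) :
    (Fintype.card (Equiv.Perm (Fin j)) : ℝ) *
      (Vᴴ * Matrix.diagonal (fun i => (κ i : ℂ)) * V).det.re =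
      ∑ f : Fin j → Fin r, (∏ i, κ (f i)) * Complex.normSq (V.submatrix f id).det := by
  have h := congrArg Complex.re (det_symm κ V)
  have e1 : (((Fintype.card (Equiv.Perm (Fin j)) : ℕ) : ℂ) *
      (Vᴴ * Matrix.diagonal (fun i => (κ i : ℂ)) * V).det).re =
      (Fintype.card (Equiv.Perm (Fin j)) : ℝ) *
      (Vᴴ * Matrix.diagonal (fun i => (κ i : ℂ)) * V).det.re := by
    rw [Complex.mul_re]
    simp
  rw [e1] at h
  rw [h, Complex.re_sum]
  refine Finset.sum_congr rfl fun f _ => ?_
  have e2 : (∏ i, (κ (f i) : ℂ)) *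
        (star (V.submatrix f id).det * (V.submatrix f id).det) =
      (((∏ i, κ (f i)) * Complex.normSq (V.submatrix f id).det : ℝ) : ℂ) := by
    rw [Complex.ofReal_mul, Complex.ofReal_prod, Complex.normSq_eq_conj_mul_self]
    rfl
  rw [e2, Complex.ofReal_re]

theorem prod_le (κ : Fin r → ℝ) (hj : j ≤ r) (hκ : Antitone κ) (hpos : ∀ i, 0 < κ i)
    (f : Fin j → Fin r) (hf : Function.Injective f) :
    ∏ i, κ (f i) ≤ ∏ i ∈ Finset.univ.filter (fun i : Fin r => (i : ℕ) < j), κ i := by
  classical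
  -- the image of `f`, enumerated increasingly
  have hcard : (Finset.univ.image f).card = j := by
    rw [Finset.card_image_of_injective _ hf, Finset.card_univ, Fintype.card_fin]
  have h1 : ∏ i, κ (f i) = ∏ s ∈ Finset.univ.image f, κ s := by
    rw [Finset.prod_image (fun a _ b _ h => hf h)]
  have h2 : ∏ s ∈ Finset.univ.image f, κ s =
      ∏ i : Fin j, κ ((Finset.univ.image f).orderEmbOfFin hcard i) := by
    have e := Finset.prod_map Finset.univ
      ((Finset.univ.image f).orderEmbOfFin hcard).toEmbedding κ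
    rw [Finset.map_orderEmbOfFin_univ] at e
    exact e
  have h3 : ∏ i ∈ Finset.univ.filter (fun i : Fin r => (i : ℕ) < j), κ i =
      ∏ i : Fin j, κ (Fin.castLE hj i) := by
    have e := Finset.prod_map Finset.univ (Fin.castLEEmb hj) κ
    refine Eq.trans ?_ e
    congr 1
    ext i
    simp only [Finset.mem_filter, Finset.mem_univ, true_and, Finset.mem_map]
    constructor
    · intro hi
      exact ⟨⟨i, hi⟩, by ext; rfl⟩
    · rintro ⟨a, rfl⟩
      exact a.2
  rw [h1, h2, h3]
  refine Finset.prod_le_prod (fun i _ => (hpos _).le) fun i _ => hκ ?_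
  rw [Fin.le_def, Fin.val_castLE]
  -- a strictly increasing function satisfies `i ≤ e i`
  have hmono : StrictMono fun i : Fin j => (((Finset.univ.image f).orderEmbOfFin hcard i : Fin r) : ℕ) :=
    fun a b hab => ((Finset.univ.image f).orderEmbOfFin hcard).strictMono hab
  have key : ∀ (n : ℕ) (hn : n < j),
      n ≤ (((Finset.univ.image f).orderEmbOfFin hcard ⟨n, hn⟩ : Fin r) : ℕ) := by
    intro n
    induction n with
    | zero => intro hn; exact Nat.zero_le _
    | succ n ih =>
      intro hn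
      have a1 := ih (by omega)
      have a2 := hmono (show (⟨n, by omega⟩ : Fin j) < ⟨n + 1, hn⟩ from by
        rw [Fin.lt_def]; simp)
      simp only at a2
      omega
  exact key i.1 i.2

end KyFan

theorem kyfan_proof : Stmt_KyFan := by
  intro r j κ hj hκ hpos V
  have h1 := KyFan.re_symm κ V
  have h2 := KyFan.re_symm (fun _ : Fin r => (1 : ℝ)) V
  have e1 : (Vᴴ * Matrix.diagonal (fun _ : Fin r => ((1 : ℝ) : ℂ)) * V) = Vᴴ * V := by
    have : Matrix.diagonal (fun _ : Fin r => ((1 : ℝ) : ℂ)) = 1 := by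
      simp
    rw [this, Matrix.mul_one]
  rw [e1] at h2
  have hc : (0 : ℝ) < (Fintype.card (Equiv.Perm (Fin j)) : ℝ) := by
    exact_mod_cast Fintype.card_pos
  set P : ℝ := ∏ i ∈ Finset.univ.filter (fun i : Fin r => (i : ℕ) < j), κ i with hP
  have h3 : (Fintype.card (Equiv.Perm (Fin j)) : ℝ) *
      (Vᴴ * Matrix.diagonal (fun i => (κ i : ℂ)) * V).det.re ≤
      (Fintype.card (Equiv.Perm (Fin j)) : ℝ) * (P * (Vᴴ * V).det.re) := by
    have e2 : (Fintype.card (Equiv.Perm (Fin j)) : ℝ) * (P * (Vᴴ * V).det.re) =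
        P * ((Fintype.card (Equiv.Perm (Fin j)) : ℝ) * (Vᴴ * V).det.re) := by ring
    rw [e2, h1, h2, Finset.mul_sum]
    refine Finset.sum_le_sum fun f _ => ?_
    by_cases hf : Function.Injective f
    · have h4 := KyFan.prod_le κ hj hκ hpos f hf
      simp only [Finset.prod_const_one, one_mul]
      exact mul_le_mul_of_nonneg_right h4 (Complex.normSq_nonneg _)
    · have h5 : (V.submatrix f id).det = 0 := by
        rw [Function.Injective] at hf
        push Not at hf
        obtain ⟨a, b, hab, hne⟩ := hf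
        refine Matrix.det_zero_of_row_eq hne ?_
        ext c
        simp only [Matrix.submatrix_apply, hab]
      rw [h5]
      simp
  exact le_of_mul_le_mul_left h3 hc

end Pool.Agent.HSC
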