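import Pool.Agent.HSC.Stmts

/-!
# The Dirichlet problem on small discs
-/

set_option autoImplicit false

open scoped Matrix.Norms.Frobenius ContDiff Topology Manifold ComplexOrder ComplexConjugate
open Matrix Set Filter MeasureTheory Metric

noncomputable section

namespace Pool.Agent.HSC

namespace LDIRX

theorem brk_smul {r : ℕ} (c : ℂ) (Θ K : M r) : brk (c • Θ) K = (c * conj c) • brk Θ K := by
  unfold brk adj
  rw [conjTranspose_smul]
  simp only [Matrix.smul_mul, Matrix.mul_smul, smul_smul]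
  have h : star c * c = c * star c := mul_comm _ _
  rw [h, ← smul_sub]
  rfl

/-- scaling of the Higgs field -/
theorem sol_scale {r : ℕ} {U : Set ℂ} {p q : ℝ} {c : ℂ} {Θ K : ℂ → M r}
    (h : Sol U p (fun z => c • Θ z) K) (hc : (p : ℂ) * (c * conj c) = q) : Sol U q Θ K where
  smooth := h.smooth
  pos := h.pos
  eqn := by
    intro z hz
    rw [h.eqn z hz, brk_smul, smul_smul, hc]

/-- the affine map onto the unit disc -/
def aff (a : ℂ) (ρ : ℝ) (z : ℂ) : ℂ := ((ρ : ℂ))⁻¹ * (z - a)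

theorem norm_aff {a z : ℂ} {ρ : ℝ} (hρ : 0 < ρ) : ‖aff a ρ z‖ = ‖z - a‖ / ρ := by
  unfold aff
  rw [norm_mul, norm_inv, Complex.norm_real, Real.norm_eq_abs, abs_of_pos hρ]
  field_simp

theorem inv_aff {a z : ℂ} {ρ : ℝ} (hρ : 0 < ρ) : a + ρ * aff a ρ z = z := by
  unfold aff
  have : (ρ : ℂ) ≠ 0 := by exact_mod_cast hρ.ne'
  field_simp
  ring

theorem deriv_aff (a : ℂ) (ρ : ℝ) (z : ℂ) : deriv (aff a ρ) z = ((ρ : ℂ))⁻¹ := by
  have h : HasDerivAt (aff a ρ) (((ρ : ℂ))⁻¹ * 1) z :=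
    ((hasDerivAt_id z).sub_const a).const_mul _
  rw [h.deriv, mul_one]

theorem differentiable_aff (a : ℂ) (ρ : ℝ) : Differentiable ℂ (aff a ρ) := by
  unfold aff
  fun_prop

end LDIRX

open LDIRX in
theorem ldir_proof (hDir : Stmt_Dir) (hG : Stmt_Gauge) : Stmt_LDir := by
  intro r q B U Θ a hq hU ha hΘ
  obtain ⟨ε, hε, hdir⟩ := hDir r B
  -- the Higgs field is bounded near `a`
  obtain ⟨R0, hR0, hR0U⟩ : ∃ R0 > 0, closedBall a R0 ⊆ U :=
    Metric.nhds_basis_closedBall.mem_iff.1 (hU.mem_nhds ha)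
  obtain ⟨m, hm⟩ := (isCompact_closedBall a R0).exists_bound_of_continuousOn
    (hΘ.continuousOn.mono hR0U)
  have hm0 : 0 ≤ |m| := abs_nonneg m
  have hsq : 0 < Real.sqrt q := Real.sqrt_pos.2 hq
  let R := min R0 (ε / (Real.sqrt q * (|m| + 1)))
  have hR : 0 < R := lt_min hR0 (by positivity)
  have hRR0 : R ≤ R0 := min_le_left _ _
  refine ⟨R, hR, (closedBall_subset_closedBall hRR0).trans hR0U, ?_⟩
  intro ρ hρ hρR f hf hfp
  have hρR0 : ρ ≤ R0 := hρR.trans hRR0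
  have hρε : ρ * (Real.sqrt q * (|m| + 1)) ≤ ε := by
    have h1 : ρ ≤ ε / (Real.sqrt q * (|m| + 1)) := hρR.trans (min_le_right _ _)
    rwa [le_div_iff₀ (by positivity)] at h1
  let c : ℂ := ((ρ * Real.sqrt q : ℝ) : ℂ)
  have hmap : ∀ ζ : ℂ, ‖ζ‖ ≤ 1 → a + ρ * ζ ∈ closedBall a ρ := by
    intro ζ hζ
    rw [mem_closedBall, dist_eq_norm, add_sub_cancel_left, norm_mul, Complex.norm_real,
      Real.norm_eq_abs, abs_of_pos hρ]
    nlinarith
  have hmaps : ∀ ζ : ℂ, ‖ζ‖ = 1 → a + ρ * ζ ∈ sphere a ρ := by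
    intro ζ hζ
    rw [mem_sphere, dist_eq_norm, add_sub_cancel_left, norm_mul, Complex.norm_real,
      Real.norm_eq_abs, abs_of_pos hρ, hζ, mul_one]
  let Θ' : ℂ → M r := fun ζ => c • Θ (a + ρ * ζ)
  have hΘ' : DifferentiableOn ℂ Θ' (ball 0 1) := by
    refine DifferentiableOn.const_smul ?_ c
    refine DifferentiableOn.comp (t := U) hΘ ?_ ?_
    · exact Differentiable.differentiableOn (by fun_prop)
    · intro ζ hζ
      rw [mem_ball_zero_iff] at hζ
      exact hR0U (closedBall_subset_closedBall hρR0 (hmap ζ hζ.le))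
  have hΘ'b : ∀ ζ ∈ ball (0 : ℂ) 1, ‖Θ' ζ‖ ≤ ε := by
    intro ζ hζ
    rw [mem_ball_zero_iff] at hζ
    have h1 : ‖Θ (a + ρ * ζ)‖ ≤ |m| + 1 :=
      ((hm _ (closedBall_subset_closedBall hρR0 (hmap ζ hζ.le))).trans (le_abs_self m)).trans
        (by linarith)
    have h2 : ‖Θ' ζ‖ = ρ * Real.sqrt q * ‖Θ (a + ρ * ζ)‖ := by
      change ‖c • Θ (a + ρ * ζ)‖ = _
      rw [norm_smul, Complex.norm_real, Real.norm_eq_abs, abs_of_pos (by positivity)]
    rw [h2]
    calc ρ * Real.sqrt q * ‖Θ (a + ρ * ζ)‖ ≤ ρ * Real.sqrt q * (|m| + 1) :=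
          mul_le_mul_of_nonneg_left h1 (by positivity)
      _ = ρ * (Real.sqrt q * (|m| + 1)) := by ring
      _ ≤ ε := hρε
  obtain ⟨K, hKc, hKp, hKb, hKs⟩ := hdir Θ' hΘ' hΘ'b (fun ζ => f (a + ρ * ζ)) (by
      refine ContinuousOn.comp (t := sphere a ρ) hf ?_ ?_
      · exact Continuous.continuousOn (by fun_prop)
      · intro ζ hζ
        rw [mem_sphere_zero_iff_norm] at hζ
        exact hmaps ζ hζ) (by
      intro ζ hζ
      rw [mem_sphere_zero_iff_norm] at hζ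
      exact hfp _ (hmaps ζ hζ))
  have haffc : ∀ z ∈ closedBall a ρ, aff a ρ z ∈ closedBall (0 : ℂ) 1 := by
    intro z hz
    rw [mem_closedBall, dist_eq_norm] at hz
    rw [mem_closedBall_zero_iff, norm_aff hρ, div_le_one hρ]
    exact hz
  have haffs : ∀ z ∈ sphere a ρ, aff a ρ z ∈ sphere (0 : ℂ) 1 := by
    intro z hz
    rw [mem_sphere, dist_eq_norm] at hz
    rw [mem_sphere_zero_iff_norm, norm_aff hρ, hz, div_self hρ.ne']
  have haffb : MapsTo (aff a ρ) (ball a ρ) (ball 0 1) := by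
    intro z hz
    rw [mem_ball, dist_eq_norm] at hz
    rw [mem_ball_zero_iff, norm_aff hρ, div_lt_one hρ]
    exact hz
  refine ⟨fun z => K (aff a ρ z), ?_, ?_, ?_, ?_⟩
  · exact ContinuousOn.comp (t := closedBall 0 1) hKc
      (differentiable_aff a ρ).continuous.continuousOn haffc
  · intro z hz
    exact hKp _ (haffc z hz)
  · intro z hz
    have h1 := hKb _ (haffs z hz)
    change K (aff a ρ z) = f z
    rw [h1, inv_aff hρ]
  · have h1 := hG r (ball 0 1) (ball a ρ) 1 Θ' K (fun _ => 1) (aff a ρ) isOpen_ball isOpen_ball hKs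
      (differentiable_aff a ρ).differentiableOn haffb (differentiableOn_const _)
      (fun z _ => isUnit_one)
    have h2 : (fun z => deriv (aff a ρ) z • ((1 : M r)⁻¹ * Θ' (aff a ρ z) * 1)) =
        fun z => ((Real.sqrt q : ℝ) : ℂ) • Θ z := by
      funext z
      rw [deriv_aff, inv_one, one_mul, mul_one]
      change ((ρ : ℂ))⁻¹ • (c • Θ (a + ρ * aff a ρ z)) = _
      rw [inv_aff hρ, smul_smul]
      congr 1
      have : (ρ : ℂ) ≠ 0 := by exact_mod_cast hρ.ne'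
      change ((ρ : ℂ))⁻¹ * ((ρ * Real.sqrt q : ℝ) : ℂ) = _
      push_cast
      field_simp
    have h3 : (fun z => (1 : M r)ᴴ * K (aff a ρ z) * 1) = fun z => K (aff a ρ z) := by
      funext z
      rw [conjTranspose_one, one_mul, mul_one]
    rw [h2, h3] at h1
    refine sol_scale h1 ?_
    rw [Complex.conj_ofReal, ← Complex.ofReal_mul, Real.mul_self_sqrt hq.le]
    simp

end Pool.Agent.HSC
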