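import Pool.Agent.HSC.Stmts

/-!
# LOGP: logarithmic potentials of bounded functions
-/

set_option autoImplicit false

open scoped Matrix.Norms.Frobenius ContDiff Topology Manifold ComplexOrder ComplexConjugate
open Matrix Set Filter MeasureTheory Metric

noncomputable section

namespace Pool.Agent.HSC

namespace LOGP

variable {E : Type*} [NormedAddCommGroup E] [NormedSpace ℂ E]

/-- the majorant `‖u‖^(-3/2)` near `0` -/
def hh (u : ℂ) : ℝ := (ball (0 : ℂ) 1).indicator (fun u => ‖u‖ ^ (-(3 / 2) : ℝ)) u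

theorem hh_nonneg (u : ℂ) : 0 ≤ hh u := by
  unfold hh
  exact Set.indicator_nonneg (fun _ _ => by positivity) u

theorem le_hh (u : ℂ) : ‖u‖ ^ (-(3 / 2) : ℝ) ≤ hh u + 1 := by
  by_cases h : u ∈ ball (0 : ℂ) 1
  · unfold hh
    rw [Set.indicator_of_mem h]
    linarith
  · have h0 := hh_nonneg u
    rw [mem_ball_zero_iff, not_lt] at h
    have : ‖u‖ ^ (-(3 / 2) : ℝ) ≤ 1 := Real.rpow_le_one_of_one_le_of_nonpos h (by norm_num)
    linarith

theorem hh_int : Integrable hh volume := by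
  have h1 : IntegrableOn (fun u : ℂ => ‖u‖ ^ (-(3 / 2) : ℝ)) (ball 0 1) volume := by
    refine integrableOn_ball_of_norm_le_rpow (C := 1) (α := 3 / 2) (by simp) (by simp; norm_num) ?_
      ?_
    · refine Eventually.of_forall fun u => ?_
      rw [Real.norm_of_nonneg (by positivity), one_mul]
    · exact (measurable_norm.pow_const _).aestronglyMeasurable
  exact (integrable_indicator_iff measurableSet_ball).2 h1

/-- the majorant for the integrand -/
def HH (R : ℝ) (z w : ℂ) : ℝ := hh (z - w) + (closedBall (0 : ℂ) R).indicator (fun _ => (1 : ℝ)) w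

theorem HH_nonneg (R : ℝ) (z w : ℂ) : 0 ≤ HH R z w := by
  unfold HH
  exact add_nonneg (hh_nonneg _) (Set.indicator_nonneg (fun _ _ => zero_le_one) w)

theorem HH_int (R : ℝ) (z : ℂ) : Integrable (HH R z) volume := by
  unfold HH
  refine Integrable.add (hh_int.comp_sub_left z) ?_
  rw [integrable_indicator_iff measurableSet_closedBall]
  exact integrableOn_const (by exact measure_closedBall_lt_top.ne)

theorem HH_integral (R : ℝ) (z : ℂ) : ∫ w, HH R z w =
    (∫ u, hh u) + ∫ w, (closedBall (0 : ℂ) R).indicator (fun _ => (1 : ℝ)) w := by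
  unfold HH
  rw [integral_add (hh_int.comp_sub_left z)]
  · rw [integral_sub_left_eq_self hh volume z]
  · rw [integrable_indicator_iff measurableSet_closedBall]
    exact integrableOn_const (by exact measure_closedBall_lt_top.ne)

/-- integrability of a product with a kernel -/
theorem ker_int {R m : ℝ} {f : ℂ → E} (hf : AEStronglyMeasurable f volume) (hm : ∀ w, ‖f w‖ ≤ m)
    (h0 : ∀ w ∉ closedBall (0 : ℂ) R, f w = 0) {κ : ℂ → ℂ} (hκ : Measurable κ) (z : ℂ) (K : ℝ)
    (hK : 0 ≤ K)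
    (hb : ∀ w ∈ closedBall (0 : ℂ) R, w ≠ z → ‖κ (z - w)‖ ≤ K * (hh (z - w) + 1)) :
    Integrable (fun w => κ (z - w) • f w) volume ∧
    ∀ᵐ w, ‖κ (z - w) • f w‖ ≤ K * m * HH R z w := by
  have hm0 : 0 ≤ m := (norm_nonneg _).trans (hm 0)
  have h1 : ∀ᵐ w, ‖κ (z - w) • f w‖ ≤ K * m * HH R z w := by
    filter_upwards [compl_mem_ae_iff.2 (measure_singleton (μ := (volume : Measure ℂ)) z)]
      with w hwz
    by_cases hw : w ∈ closedBall (0 : ℂ) R
    · rw [norm_smul]
      unfold HH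
      rw [Set.indicator_of_mem hw]
      calc ‖κ (z - w)‖ * ‖f w‖ ≤ K * (hh (z - w) + 1) * m := by
            have := hb w hw hwz
            have h2 := hh_nonneg (z - w)
            gcongr
            exact hm w
        _ = K * m * (hh (z - w) + 1) := by ring
    · rw [h0 w hw, smul_zero, norm_zero]
      exact mul_nonneg (mul_nonneg hK hm0) (HH_nonneg _ _ _)
  refine ⟨((HH_int R z).const_mul (K * m)).mono' ?_ h1, h1⟩
  exact ((hκ.comp (measurable_const.sub measurable_id)).aestronglyMeasurable).smul hf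

/-- the constant in the estimates -/
def cR (R : ℝ) : ℝ := (∫ u, hh u) + ∫ w, (closedBall (0 : ℂ) R).indicator (fun _ => (1 : ℝ)) w

theorem ker_norm {R m : ℝ} {f : ℂ → E} (hf : AEStronglyMeasurable f volume) (hm : ∀ w, ‖f w‖ ≤ m)
    (h0 : ∀ w ∉ closedBall (0 : ℂ) R, f w = 0) {κ : ℂ → ℂ} (hκ : Measurable κ) (z : ℂ) (K : ℝ)
    (hK : 0 ≤ K)
    (hb : ∀ w ∈ closedBall (0 : ℂ) R, w ≠ z → ‖κ (z - w)‖ ≤ K * (hh (z - w) + 1)) :
    ‖∫ w, κ (z - w) • f w‖ ≤ K * m * cR R := by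
  obtain ⟨h1, h2⟩ := ker_int hf hm h0 hκ z K hK hb
  refine (norm_integral_le_of_norm_le ((HH_int R z).const_mul (K * m)) h2).trans (le_of_eq ?_)
  rw [integral_const_mul, HH_integral, cR]

/-- the regularised kernel -/
def kep (ε : ℝ) (u : ℂ) : ℂ := conj u / ((‖u‖ ^ 2 + ε : ℝ) : ℂ)

theorem kep_meas (ε : ℝ) : Measurable (kep ε) := by
  unfold kep
  fun_prop

theorem kep_sub {ε : ℝ} (hε : 0 < ε) (u : ℂ) :
    ‖kep ε u - u⁻¹‖ ≤ ε ^ (1 / 4 : ℝ) * (hh u + 1) := by
  have h0 := le_hh u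
  refine le_trans ?_ (mul_le_mul_of_nonneg_left h0 (by positivity))
  by_cases hu : u = 0
  · subst hu
    simp [kep]
  have hn : 0 < ‖u‖ := norm_pos_iff.2 hu
  have e1 : kep ε u - u⁻¹ = -(((ε : ℝ) : ℂ) * u⁻¹ / ((‖u‖ ^ 2 + ε : ℝ) : ℂ)) := by
    unfold kep
    have h1 : conj u = ((‖u‖ ^ 2 : ℝ) : ℂ) * u⁻¹ := by
      have := Complex.conj_mul' u
      field_simp
      rw [this]
      push_cast
      ring
    have h2 : ((‖u‖ ^ 2 + ε : ℝ) : ℂ) ≠ 0 := by
      exact_mod_cast (by positivity : (‖u‖ ^ 2 + ε : ℝ) ≠ 0)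
    rw [h1]
    field_simp
    push_cast
    ring
  rw [e1, norm_neg, norm_div, norm_mul, norm_inv, Complex.norm_real, Complex.norm_real,
    Real.norm_of_nonneg hε.le, Real.norm_of_nonneg (by positivity)]
  have h3 : (‖u‖ ^ 2) ^ (1 / 4 : ℝ) * ε ^ (3 / 4 : ℝ) ≤ ‖u‖ ^ 2 + ε := by
    have := Real.geom_mean_le_arith_mean2_weighted (w₁ := 1 / 4) (w₂ := 3 / 4) (by norm_num)
      (by norm_num) (sq_nonneg ‖u‖) hε.le (by norm_num)
    have h4 := sq_nonneg ‖u‖
    linarith
  have h5 : (‖u‖ ^ 2) ^ (1 / 4 : ℝ) = ‖u‖ ^ (1 / 2 : ℝ) := by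
    rw [← Real.rpow_natCast, ← Real.rpow_mul hn.le]
    norm_num
  rw [h5] at h3
  have h6 : 0 < ‖u‖ ^ (1 / 2 : ℝ) * ε ^ (3 / 4 : ℝ) := by positivity
  calc ε * ‖u‖⁻¹ / (‖u‖ ^ 2 + ε) ≤ ε * ‖u‖⁻¹ / (‖u‖ ^ (1 / 2 : ℝ) * ε ^ (3 / 4 : ℝ)) := by
        gcongr
    _ = ε ^ (1 / 4 : ℝ) * ‖u‖ ^ (-(3 / 2) : ℝ) := by
        have e2 : ε = ε ^ (1 / 4 : ℝ) * ε ^ (3 / 4 : ℝ) := by
          rw [← Real.rpow_add hε]; norm_num
        have e3 : ‖u‖⁻¹ = ‖u‖ ^ (-(3 / 2) : ℝ) * ‖u‖ ^ (1 / 2 : ℝ) := by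
          rw [← Real.rpow_add hn, ← Real.rpow_neg_one]; norm_num
        rw [e3]
        nth_rewrite 1 [e2]
        field_simp

theorem inv_le (u : ℂ) : ‖u⁻¹‖ ≤ 1 * (hh u + 1) := by
  rw [norm_inv, one_mul]
  by_cases hu : u = 0
  · subst hu
    have := hh_nonneg 0
    simp
    linarith
  have hn : 0 < ‖u‖ := norm_pos_iff.2 hu
  by_cases h1 : 1 ≤ ‖u‖
  · have h2 : ‖u‖⁻¹ ≤ 1 := inv_le_one_of_one_le₀ h1
    have := hh_nonneg u
    linarith
  · rw [not_le] at h1
    have h3 := le_hh u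
    refine le_trans ?_ h3
    rw [← Real.rpow_neg_one]
    exact Real.rpow_le_rpow_of_exponent_ge hn h1.le (by norm_num)

theorem kep_le {ε : ℝ} (hε : 0 < ε) (u : ℂ) : ‖kep ε u‖ ≤ 1 + 1 / ε := by
  unfold kep
  rw [norm_div, RCLike.norm_conj, Complex.norm_real, Real.norm_of_nonneg (by positivity)]
  have h0 := norm_nonneg u
  by_cases h1 : 1 ≤ ‖u‖
  · have : ‖u‖ / (‖u‖ ^ 2 + ε) ≤ 1 := by
      rw [div_le_one (by positivity)]
      nlinarith
    have h2 : 0 < 1 / ε := by positivity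
    linarith
  · rw [not_le] at h1
    have : ‖u‖ / (‖u‖ ^ 2 + ε) ≤ 1 / ε := by
      rw [div_le_div_iff₀ (by positivity) hε]
      nlinarith [sq_nonneg ‖u‖]
    linarith

/-- the logarithmic kernel -/
def kl (ε : ℝ) (u : ℂ) : ℂ := ((Real.log (‖u‖ ^ 2 + ε) : ℝ) : ℂ)

theorem kl_meas (ε : ℝ) : Measurable (kl ε) := by
  unfold kl
  fun_prop

theorem kl_le {ε ρ : ℝ} (hε : 0 ≤ ε) (hε1 : ε ≤ 1) (u : ℂ) (hu : u ≠ 0) (hρ : ‖u‖ ≤ ρ) :
    ‖kl ε u‖ ≤ (ρ ^ 2 + 3) * (hh u + 1) := by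
  have hn : 0 < ‖u‖ := norm_pos_iff.2 hu
  have h0 := hh_nonneg u
  have h1 := le_hh u
  unfold kl
  rw [Complex.norm_real, Real.norm_eq_abs, abs_le]
  have hρ2 : ‖u‖ ^ 2 ≤ ρ ^ 2 := pow_le_pow_left₀ hn.le hρ 2
  have hρ3 : 0 ≤ ρ ^ 2 := sq_nonneg ρ
  constructor
  · have h2 : Real.log (‖u‖ ^ 2) ≤ Real.log (‖u‖ ^ 2 + ε) :=
      Real.log_le_log (by positivity) (by linarith)
    have h3 : -Real.log (‖u‖ ^ 2) ≤ 4 / 3 * ‖u‖ ^ (-(3 / 2) : ℝ) := by
      rw [← Real.log_inv]
      have := Real.log_le_rpow_div (x := (‖u‖ ^ 2)⁻¹) (by positivity) (ε := 3 / 4) (by norm_num)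
      refine this.trans (le_of_eq ?_)
      rw [← Real.rpow_natCast, ← Real.rpow_neg hn.le, ← Real.rpow_mul hn.le]
      norm_num
      ring
    nlinarith
  · have h2 : Real.log (‖u‖ ^ 2 + ε) ≤ ‖u‖ ^ 2 + ε - 1 := Real.log_le_sub_one_of_pos (by positivity)
    nlinarith

/-- `v ↦ v • a` -/
def P1 (E : Type*) [NormedAddCommGroup E] [NormedSpace ℂ E] : E →L[ℝ] (ℂ →L[ℝ] E) :=
  (ContinuousLinearMap.lsmul ℝ ℂ).flip

/-- `v ↦ conj v • b` -/
def P2 (E : Type*) [NormedAddCommGroup E] [NormedSpace ℂ E] : E →L[ℝ] (ℂ →L[ℝ] E) :=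
  ((ContinuousLinearMap.compL ℝ ℂ ℂ E).flip (Complex.conjCLE : ℂ →L[ℝ] ℂ)).comp (P1 E)

theorem P1_apply (a : E) (v : ℂ) : P1 E a v = v • a := by simp [P1]

theorem P2_apply (a : E) (v : ℂ) : P2 E a v = conj v • a := by
  simp [P2, P1]

theorem kl_deriv {ε : ℝ} (hε : 0 < ε) (c : E) (w z : ℂ) :
    HasFDerivAt (fun z => kl ε (z - w) • c)
      (P1 E (kep ε (z - w) • c) + P2 E (conj (kep ε (z - w)) • c)) z := by
  have h1 : HasFDerivAt (fun z : ℂ => ‖z - w‖ ^ 2) (2 • innerSL ℝ (z - w)) z := by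
    have hg : HasFDerivAt (fun z : ℂ => z - w) (ContinuousLinearMap.id ℝ ℂ) z :=
      (hasFDerivAt_id z).sub_const w
    have hs : HasFDerivAt (fun x : ℂ => ‖x‖ ^ 2) (2 • innerSL ℝ (z - w)) (z - w) :=
      (hasStrictFDerivAt_norm_sq (z - w)).hasFDerivAt
    have h0 := HasFDerivAt.comp (g := fun x : ℂ => ‖x‖ ^ 2) z hs hg
    rw [ContinuousLinearMap.comp_id] at h0
    exact h0
  have h2 : HasFDerivAt (fun z : ℂ => Real.log (‖z - w‖ ^ 2 + ε))
      ((‖z - w‖ ^ 2 + ε)⁻¹ • (2 • innerSL ℝ (z - w))) z :=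
    (h1.add_const ε).log (by positivity)
  have h3 := (Complex.ofRealCLM.hasFDerivAt.comp z h2).smul_const c
  refine h3.congr_fderiv ?_
  ext v
  simp only [ContinuousLinearMap.smulRight_apply, _root_.add_apply, P1_apply,
    P2_apply, ContinuousLinearMap.comp_apply, smul_smul, ← add_smul]
  congr 1
  simp only [Complex.ofRealCLM_apply, _root_.smul_apply, innerSL_apply_apply,
    Complex.inner, smul_eq_mul, nsmul_eq_mul]
  unfold kep
  have h4 : ((‖z - w‖ ^ 2 + ε : ℝ) : ℂ) ≠ 0 := by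
    exact_mod_cast (by positivity : (‖z - w‖ ^ 2 + ε : ℝ) ≠ 0)
  have h5 : (2 : ℂ) * (((v * conj (z - w)).re : ℝ) : ℂ) = v * conj (z - w) + conj v * (z - w) := by
    have := Complex.add_conj (v * conj (z - w))
    rw [map_mul, Complex.conj_conj] at this
    rw [← Complex.ofReal_ofNat, ← Complex.ofReal_mul, ← this]
  rw [map_div₀, Complex.conj_conj, Complex.conj_ofReal]
  push_cast
  rw [h5]
  push_cast at h4
  field_simp

variable [CompleteSpace E]

theorem conj_norm_sub (a b : ℂ) : ‖conj a - conj b‖ = ‖a - b‖ := by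
  rw [← map_sub, RCLike.norm_conj]

/-- derivative of the regularised potential -/
theorem J_deriv {R m : ℝ} {f : ℂ → E} (hf : AEStronglyMeasurable f volume) (hm : ∀ w, ‖f w‖ ≤ m)
    (h0 : ∀ w ∉ closedBall (0 : ℂ) R, f w = 0) {ε : ℝ} (hε : 0 < ε) (hε1 : ε ≤ 1) (z : ℂ) :
    HasFDerivAt (fun z => ∫ w, kl ε (z - w) • f w)
      (P1 E (∫ w, kep ε (z - w) • f w) + P2 E (∫ w, conj (kep ε (z - w)) • f w)) z := by
  have hm0 : 0 ≤ m := (norm_nonneg _).trans (hm 0)
  have hK : (0 : ℝ) ≤ 1 + 1 / ε := by positivity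
  have hh1 : ∀ u, (1 : ℝ) ≤ hh u + 1 := fun u => by linarith [hh_nonneg u]
  have hb1 : ∀ z w : ℂ, ‖kep ε (z - w)‖ ≤ (1 + 1 / ε) * (hh (z - w) + 1) := fun z w =>
    (kep_le hε _).trans (le_mul_of_one_le_right hK (hh1 _))
  have hi1 := (ker_int hf hm h0 (kep_meas ε) z (1 + 1 / ε) hK (fun w _ _ => hb1 z w)).1
  have hi2 := (ker_int hf hm h0 (κ := fun u => conj (kep ε u))
    (Complex.continuous_conj.measurable.comp (kep_meas ε)) z (1 + 1 / ε) hK
    (fun w _ _ => by rw [RCLike.norm_conj]; exact hb1 z w)).1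
  have key := hasFDerivAt_integral_of_dominated_of_fderiv_le (μ := (volume : Measure ℂ)) (𝕜 := ℝ)
    (F := fun z w => kl ε (z - w) • f w)
    (F' := fun z w => P1 E (kep ε (z - w) • f w) + P2 E (conj (kep ε (z - w)) • f w))
    (x₀ := z) (s := Set.univ)
    (bound := fun w => (‖P1 E‖ + ‖P2 E‖) * ((1 + 1 / ε) * m) *
      (closedBall (0 : ℂ) R).indicator (fun _ => (1 : ℝ)) w) Filter.univ_mem ?_ ?_ ?_ ?_ ?_ ?_
  · rw [integral_add ((P1 E).integrable_comp hi1) ((P2 E).integrable_comp hi2),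
      (P1 E).integral_comp_comm hi1, (P2 E).integral_comp_comm hi2] at key
    exact key
  · refine Eventually.of_forall fun x => ?_
    exact (((kl_meas ε).comp (measurable_const.sub measurable_id)).aestronglyMeasurable).smul hf
  · exact (ker_int hf hm h0 (kl_meas ε) z ((‖z‖ + R) ^ 2 + 3) (by positivity) (fun w hw hwz => by
      refine kl_le hε.le hε1 _ (sub_ne_zero.2 (Ne.symm hwz)) ?_
      rw [mem_closedBall_zero_iff] at hw
      exact (norm_sub_le _ _).trans (by linarith))).1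
  · exact (((P1 E).integrable_comp hi1).add ((P2 E).integrable_comp hi2)).aestronglyMeasurable
  · refine Eventually.of_forall fun w x _ => ?_
    by_cases hw : w ∈ closedBall (0 : ℂ) R
    · rw [Set.indicator_of_mem hw, mul_one]
      have h1 : ‖kep ε (x - w) • f w‖ ≤ (1 + 1 / ε) * m := by
        rw [norm_smul]
        have := kep_le hε (x - w)
        gcongr
        exact hm w
      have h2 : ‖conj (kep ε (x - w)) • f w‖ ≤ (1 + 1 / ε) * m := by
        rw [norm_smul, RCLike.norm_conj, ← norm_smul]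
        exact h1
      calc ‖P1 E (kep ε (x - w) • f w) + P2 E (conj (kep ε (x - w)) • f w)‖
          ≤ ‖P1 E (kep ε (x - w) • f w)‖ + ‖P2 E (conj (kep ε (x - w)) • f w)‖ := norm_add_le _ _
        _ ≤ ‖P1 E‖ * ‖kep ε (x - w) • f w‖ + ‖P2 E‖ * ‖conj (kep ε (x - w)) • f w‖ :=
            add_le_add ((P1 E).le_opNorm _) ((P2 E).le_opNorm _)
        _ ≤ ‖P1 E‖ * ((1 + 1 / ε) * m) + ‖P2 E‖ * ((1 + 1 / ε) * m) := by gcongr
        _ = (‖P1 E‖ + ‖P2 E‖) * ((1 + 1 / ε) * m) := by ring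
    · rw [h0 w hw, Set.indicator_of_notMem hw]
      simp
  · refine Integrable.const_mul ?_ _
    rw [integrable_indicator_iff measurableSet_closedBall]
    exact integrableOn_const (by exact measure_closedBall_lt_top.ne)
  · refine Eventually.of_forall fun w x _ => ?_
    exact kl_deriv hε (f w) w x

omit [CompleteSpace E] in
/-- continuity of the regularised transforms -/
theorem A_cont {R m : ℝ} {f : ℂ → E} (hf : AEStronglyMeasurable f volume) (hm : ∀ w, ‖f w‖ ≤ m)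
    (h0 : ∀ w ∉ closedBall (0 : ℂ) R, f w = 0) {κ : ℂ → ℂ} (hκ : Continuous κ) (K : ℝ)
    (hK : 0 ≤ K) (hb : ∀ u, ‖κ u‖ ≤ K) : Continuous (fun z => ∫ w, κ (z - w) • f w) := by
  have hm0 : 0 ≤ m := (norm_nonneg _).trans (hm 0)
  refine continuous_of_dominated (bound := fun w => K * m *
      (closedBall (0 : ℂ) R).indicator (fun _ => (1 : ℝ)) w) ?_ ?_ ?_ ?_
  · intro z
    exact ((hκ.comp (continuous_const.sub continuous_id)).aestronglyMeasurable).smul hf
  · intro z
    refine Eventually.of_forall fun w => ?_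
    by_cases hw : w ∈ closedBall (0 : ℂ) R
    · rw [Set.indicator_of_mem hw, mul_one, norm_smul]
      have := hb (z - w)
      gcongr
      exact hm w
    · rw [h0 w hw, Set.indicator_of_notMem hw]
      simp
  · refine Integrable.const_mul ?_ _
    rw [integrable_indicator_iff measurableSet_closedBall]
    exact integrableOn_const (by exact measure_closedBall_lt_top.ne)
  · refine Eventually.of_forall fun w => ?_
    exact (hκ.comp (continuous_id.sub continuous_const)).smul continuous_const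

theorem kep_cont {ε : ℝ} (hε : 0 < ε) : Continuous (kep ε) := by
  unfold kep
  refine Continuous.div (by fun_prop) (by fun_prop) fun u => ?_
  exact_mod_cast (by positivity : (‖u‖ ^ 2 + ε : ℝ) ≠ 0)

/-- the sequence of parameters -/
def en (n : ℕ) : ℝ := 1 / ((n : ℝ) + 1)

theorem en_pos (n : ℕ) : 0 < en n := by unfold en; positivity

theorem en_le (n : ℕ) : en n ≤ 1 := by
  unfold en
  rw [div_le_one (by positivity)]
  have : (0 : ℝ) ≤ n := Nat.cast_nonneg n
  linarith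

theorem en_tendsto : Tendsto en atTop (𝓝 0) := tendsto_one_div_add_atTop_nhds_zero_nat

theorem J_fderiv {R m : ℝ} {f : ℂ → E} (hf : AEStronglyMeasurable f volume) (hm : ∀ w, ‖f w‖ ≤ m)
    (h0 : ∀ w ∉ closedBall (0 : ℂ) R, f w = 0) :
    (∀ z, HasFDerivAt (fun z => ∫ w, kl 0 (z - w) • f w)
      (P1 E (∫ w, (z - w)⁻¹ • f w) + P2 E (∫ w, conj ((z - w)⁻¹) • f w)) z) ∧
    Continuous (fun z => P1 E (∫ w, (z - w)⁻¹ • f w) + P2 E (∫ w, conj ((z - w)⁻¹) • f w)) := by
  have hm0 : 0 ≤ m := (norm_nonneg _).trans (hm 0)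
  have hmi : Measurable (fun u : ℂ => u⁻¹) := measurable_inv
  have hconj : Measurable (fun u : ℂ => conj u) := Complex.continuous_conj.measurable
  -- differences of the transforms
  have hd : ∀ (n : ℕ) (z : ℂ),
      ‖(∫ w, kep (en n) (z - w) • f w) - ∫ w, (z - w)⁻¹ • f w‖
        ≤ en n ^ (1 / 4 : ℝ) * m * cR R ∧
      ‖(∫ w, conj (kep (en n) (z - w)) • f w) - ∫ w, conj ((z - w)⁻¹) • f w‖
        ≤ en n ^ (1 / 4 : ℝ) * m * cR R := by
    intro n z
    have hε := en_pos n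
    have hK : (0 : ℝ) ≤ 1 + 1 / en n := by positivity
    have hh1 : ∀ u, (1 : ℝ) ≤ hh u + 1 := fun u => by linarith [hh_nonneg u]
    have hb1 : ∀ w : ℂ, ‖kep (en n) (z - w)‖ ≤ (1 + 1 / en n) * (hh (z - w) + 1) := fun w =>
      (kep_le hε _).trans (le_mul_of_one_le_right hK (hh1 _))
    have i1 := (ker_int hf hm h0 (kep_meas (en n)) z (1 + 1 / en n) hK (fun w _ _ => hb1 w)).1
    have i2 := (ker_int hf hm h0 (κ := fun u => conj (kep (en n) u))
      (hconj.comp (kep_meas (en n))) z (1 + 1 / en n) hK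
      (fun w _ _ => by rw [RCLike.norm_conj]; exact hb1 w)).1
    have i3 := (ker_int hf hm h0 hmi z 1 zero_le_one (fun w _ _ => inv_le (z - w))).1
    have i4 := (ker_int hf hm h0 (κ := fun u => conj (u⁻¹)) (hconj.comp hmi) z 1 zero_le_one
      (fun w _ _ => by rw [RCLike.norm_conj]; exact inv_le (z - w))).1
    constructor
    · rw [← integral_sub i1 i3]
      have := ker_norm hf hm h0 (κ := fun u => kep (en n) u - u⁻¹) ((kep_meas (en n)).sub hmi) z
        (en n ^ (1 / 4 : ℝ)) (by positivity) (fun w _ _ => kep_sub hε (z - w))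
      simpa only [sub_smul] using this
    · rw [← integral_sub i2 i4]
      have := ker_norm hf hm h0 (κ := fun u => conj (kep (en n) u) - conj (u⁻¹))
        ((hconj.comp (kep_meas (en n))).sub (hconj.comp hmi)) z
        (en n ^ (1 / 4 : ℝ)) (by positivity) (fun w _ _ => by
          rw [conj_norm_sub]; exact kep_sub hε (z - w))
      simpa only [sub_smul] using this
  have hlim : Tendsto (fun n => (‖P1 E‖ + ‖P2 E‖) * (en n ^ (1 / 4 : ℝ) * m * cR R)) atTop (𝓝 0) := by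
    have h1 : Tendsto (fun n => en n ^ (1 / 4 : ℝ)) atTop (𝓝 0) := by
      have := en_tendsto.rpow_const (p := 1 / 4) (Or.inr (by norm_num))
      rwa [Real.zero_rpow (by norm_num)] at this
    have h2 := ((h1.mul_const m).mul_const (cR R)).const_mul (‖P1 E‖ + ‖P2 E‖)
    simpa using h2
  have hunif : TendstoUniformly
      (fun (n : ℕ) z => P1 E (∫ w, kep (en n) (z - w) • f w)
        + P2 E (∫ w, conj (kep (en n) (z - w)) • f w))
      (fun z => P1 E (∫ w, (z - w)⁻¹ • f w) + P2 E (∫ w, conj ((z - w)⁻¹) • f w)) atTop := by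
    rw [Metric.tendstoUniformly_iff]
    intro δ hδ
    filter_upwards [(tendsto_order.1 hlim).2 δ hδ] with n hn z
    refine lt_of_le_of_lt ?_ hn
    rw [dist_comm, dist_eq_norm]
    have e : P1 E (∫ w, kep (en n) (z - w) • f w) + P2 E (∫ w, conj (kep (en n) (z - w)) • f w)
        - (P1 E (∫ w, (z - w)⁻¹ • f w) + P2 E (∫ w, conj ((z - w)⁻¹) • f w))
        = P1 E ((∫ w, kep (en n) (z - w) • f w) - ∫ w, (z - w)⁻¹ • f w)
          + P2 E ((∫ w, conj (kep (en n) (z - w)) • f w) - ∫ w, conj ((z - w)⁻¹) • f w) := by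
      rw [map_sub, map_sub]; abel
    rw [e]
    refine (norm_add_le _ _).trans ?_
    rw [add_mul]
    refine add_le_add (((P1 E).le_opNorm _).trans ?_) (((P2 E).le_opNorm _).trans ?_)
    · exact mul_le_mul_of_nonneg_left (hd n z).1 (norm_nonneg _)
    · exact mul_le_mul_of_nonneg_left (hd n z).2 (norm_nonneg _)
  refine ⟨fun z => ?_, ?_⟩
  · refine hasFDerivAt_of_tendstoUniformly hunif
      (f := fun (n : ℕ) z => ∫ w, kl (en n) (z - w) • f w)
      (fun n x => J_deriv hf hm h0 (en_pos n) (en_le n) x) (fun x => ?_) z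
    refine tendsto_integral_of_dominated_convergence
      (fun w => ((‖x‖ + R) ^ 2 + 3) * m * HH R x w) (fun n => ?_) ?_ (fun n => ?_) ?_
    · exact (((kl_meas (en n)).comp (measurable_const.sub measurable_id)).aestronglyMeasurable).smul
        hf
    · exact (HH_int R x).const_mul _
    · exact (ker_int hf hm h0 (kl_meas (en n)) x ((‖x‖ + R) ^ 2 + 3) (by positivity)
        (fun w hw hwz => by
          refine kl_le (en_pos n).le (en_le n) _ (sub_ne_zero.2 (Ne.symm hwz)) ?_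
          rw [mem_closedBall_zero_iff] at hw
          exact (norm_sub_le _ _).trans (by linarith))).2
    · filter_upwards [compl_mem_ae_iff.2 (measure_singleton (μ := (volume : Measure ℂ)) x)]
        with w hwx
      have hne : x - w ≠ 0 := sub_ne_zero.2 (Ne.symm hwx)
      have hpos : 0 < ‖x - w‖ ^ 2 := by positivity
      refine Tendsto.smul_const ?_ _
      unfold kl
      refine (Complex.continuous_ofReal.tendsto _).comp ?_
      refine (Real.continuousAt_log (by rw [add_zero]; exact hpos.ne')).tendsto.comp ?_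
      exact tendsto_const_nhds.add en_tendsto
  · refine hunif.continuous (Frequently.of_forall fun n => ?_)
    have hε := en_pos n
    have hK : (0 : ℝ) ≤ 1 + 1 / en n := by positivity
    refine ((P1 E).continuous.comp ?_).add ((P2 E).continuous.comp ?_)
    · exact A_cont hf hm h0 (kep_cont hε) (1 + 1 / en n) hK (kep_le hε)
    · exact A_cont hf hm h0 (κ := fun u => conj (kep (en n) u))
        (Complex.continuous_conj.comp (kep_cont hε)) (1 + 1 / en n) hK
        (fun u => by rw [RCLike.norm_conj]; exact kep_le hε u)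

end LOGP

open LOGP

theorem half_eq {E : Type*} [NormedAddCommGroup E] [NormedSpace ℂ E] (a b : E) :
    (1 / 2 : ℂ) • (a + b - Complex.I • (Complex.I • a + -Complex.I • b)) = a := by
  have e : Complex.I • (Complex.I • a + -Complex.I • b) = -a + b := by
    rw [smul_add, smul_smul, smul_smul, mul_neg, Complex.I_mul_I]
    simp
  rw [e]
  module

theorem logp_proof : Stmt_LogP := by
  intro r R m f hf hm h0
  obtain ⟨h1, h2⟩ := J_fderiv (E := M r) hf hm h0
  have hJ : (fun z => ∫ w, ((Real.log (‖z - w‖ ^ 2) : ℝ) : ℂ) • f w)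
      = fun z => ∫ w, kl 0 (z - w) • f w := by
    funext z
    simp only [kl, add_zero]
  have hc : ContDiff ℝ 1 (fun z => ∫ w, kl 0 (z - w) • f w) := by
    rw [contDiff_one_iff_fderiv]
    refine ⟨fun z => (h1 z).differentiableAt, ?_⟩
    exact h2.congr fun z => ((h1 z).fderiv).symm
  have hg : (fun z => ((1 / Real.pi : ℝ) : ℂ) • ∫ w, ((Real.log (‖z - w‖ ^ 2) : ℝ) : ℂ) • f w)
      = fun z => ((1 / Real.pi : ℝ) : ℂ) • (fun z => ∫ w, kl 0 (z - w) • f w) z := by
    rw [← hJ]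
  rw [hg]
  refine ⟨hc.const_smul ((1 / Real.pi : ℝ) : ℂ), fun z => ?_⟩
  rw [dz_const_smul _ (h1 z).differentiableAt]
  have e2 : dz (fun z => ∫ w, kl 0 (z - w) • f w) z = ∫ w, (z - w)⁻¹ • f w := by
    unfold dz
    rw [(h1 z).fderiv]
    simp only [_root_.add_apply, P1_apply, P2_apply, Complex.conj_I, map_one, one_smul]
    exact half_eq _ _
  rw [e2]
  unfold CT
  have e3 : ∀ w, (w - z)⁻¹ • f w = -((z - w)⁻¹ • f w) := by
    intro w
    rw [← neg_sub, inv_neg, neg_smul]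
  simp only [e3]
  rw [integral_neg]
  push_cast
  rw [smul_neg, neg_smul, neg_neg]

end Pool.Agent.HSC
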