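import Pool.Agent.HSC.Stmts

/-!
# LIM: pointwise limits of locally bounded solutions are solutions
-/

set_option autoImplicit false

open scoped Matrix.Norms.Frobenius ContDiff Topology Manifold ComplexOrder ComplexConjugate
open Matrix Set Filter MeasureTheory Metric

noncomputable section

namespace Pool.Agent.HSC

namespace Lim

/-- continuous convergence to a continuous function is locally uniform convergence -/
theorem locUnif_of_cc {ι α β : Type*} [TopologicalSpace α] [UniformSpace β] {F : ι → α → β}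
    {f : α → β} {l : Filter ι} {s : Set α} (hf : ContinuousOn f s)
    (h : ∀ x ∈ s, Tendsto (fun y : ι × α => F y.1 y.2) (l ×ˢ 𝓝[s] x) (𝓝 (f x))) :
    TendstoLocallyUniformlyOn F f l s := by
  rw [tendstoLocallyUniformlyOn_iff_forall_tendsto]
  intro x hx
  have h1 : Tendsto (fun y : ι × α => f y.2) (l ×ˢ 𝓝[s] x) (𝓝 (f x)) :=
    Tendsto.comp (hf x hx) tendsto_snd
  exact (h1.prodMk_nhds (h x hx)).mono_right (nhds_le_uniformity _)

/-- pointwise convergence and equicontinuity give continuous convergence -/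
theorem cc_of_pointwise {ι E : Type*} [NormedAddCommGroup E] {F : ι → ℂ → E}
    {f : ℂ → E} {l : Filter ι} {s : Set ℂ} (m : ℝ → ℝ) (hm : Tendsto m (𝓝 0) (𝓝 0))
    (hF : ∀ n, ∀ x ∈ s, ∀ y ∈ s, ‖F n x - F n y‖ ≤ m ‖x - y‖)
    (hp : ∀ x ∈ s, Tendsto (fun n => F n x) l (𝓝 (f x))) {x : ℂ} (hx : x ∈ s) :
    Tendsto (fun y : ι × ℂ => F y.1 y.2) (l ×ˢ 𝓝[s] x) (𝓝 (f x)) := by
  have h1 : Tendsto (fun y : ι × ℂ => F y.1 x) (l ×ˢ 𝓝[s] x) (𝓝 (f x)) :=
    (hp x hx).comp tendsto_fst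
  have h2 : Tendsto (fun y : ι × ℂ => F y.1 y.2 - F y.1 x) (l ×ˢ 𝓝[s] x) (𝓝 0) := by
    rw [tendsto_zero_iff_norm_tendsto_zero]
    have h3 : Tendsto (fun y : ι × ℂ => m ‖y.2 - x‖) (l ×ˢ 𝓝[s] x) (𝓝 0) := by
      apply hm.comp
      have h4 : Tendsto (fun y : ι × ℂ => y.2) (l ×ˢ 𝓝[s] x) (𝓝 x) :=
        tendsto_snd.mono_right nhdsWithin_le_nhds
      have h5 := (h4.sub_const x).norm
      simpa using h5
    refine tendsto_of_tendsto_of_tendsto_of_le_of_le' tendsto_const_nhds h3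
      (Eventually.of_forall fun _ => norm_nonneg _) ?_
    have h6 : ∀ᶠ y : ι × ℂ in l ×ˢ 𝓝[s] x, y.2 ∈ s :=
      tendsto_snd.eventually self_mem_nhdsWithin
    filter_upwards [h6] with y hy
    exact hF y.1 y.2 hy x hx
  have h7 := h2.add h1
  simpa using h7

/-- the limit has the same modulus of continuity -/
theorem modulus_limit {ι E : Type*} [NormedAddCommGroup E] {F : ι → ℂ → E}
    {f : ℂ → E} {l : Filter ι} [NeBot l] {s : Set ℂ} (m : ℝ → ℝ)
    (hF : ∀ n, ∀ x ∈ s, ∀ y ∈ s, ‖F n x - F n y‖ ≤ m ‖x - y‖)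
    (hp : ∀ x ∈ s, Tendsto (fun n => F n x) l (𝓝 (f x))) :
    ∀ x ∈ s, ∀ y ∈ s, ‖f x - f y‖ ≤ m ‖x - y‖ := by
  intro x hx y hy
  exact le_of_tendsto (((hp x hx).sub (hp y hy)).norm) (Eventually.of_forall fun n => hF n x hx y hy)

theorem continuousOn_of_modulus {E : Type*} [NormedAddCommGroup E] {f : ℂ → E} {s : Set ℂ}
    (m : ℝ → ℝ) (hm : Tendsto m (𝓝 0) (𝓝 0))
    (hf : ∀ x ∈ s, ∀ y ∈ s, ‖f x - f y‖ ≤ m ‖x - y‖) : ContinuousOn f s := by
  intro x hx
  have h3 : Tendsto (fun y : ℂ => m ‖y - x‖) (𝓝[s] x) (𝓝 0) := by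
    apply hm.comp
    have h4 : Tendsto (fun y : ℂ => y) (𝓝[s] x) (𝓝 x) := nhdsWithin_le_nhds
    have h5 := (h4.sub_const x).norm
    simpa using h5
  have h2 : Tendsto (fun y : ℂ => f y - f x) (𝓝[s] x) (𝓝 0) := by
    rw [tendsto_zero_iff_norm_tendsto_zero]
    refine tendsto_of_tendsto_of_tendsto_of_le_of_le' tendsto_const_nhds h3
      (Eventually.of_forall fun _ => norm_nonneg _) ?_
    filter_upwards [self_mem_nhdsWithin] with y hy
    exact hf y hy x hx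
  have h7 := h2.add_const (f x)
  simpa [ContinuousWithinAt] using h7

/-- `WeakDb` depends only on the values on `U` -/
theorem weakDb_congr {E : Type*} [NormedAddCommGroup E] [NormedSpace ℂ E] {U : Set ℂ}
    {A A' Q Q' : ℂ → E} (hA : ∀ z ∈ U, A z = A' z) (hQ : ∀ z ∈ U, Q z = Q' z)
    (h : WeakDb U A Q) : WeakDb U A' Q' := by
  intro ψ h1 h2 h3
  have e1 : (fun z => db ψ z • A' z) = fun z => db ψ z • A z := by
    funext z
    by_cases hz : z ∈ tsupport ψ
    · rw [hA z (h3 hz)]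
    · have hz' : fderiv ℝ ψ z = 0 := by
        by_contra hne
        exact hz (support_fderiv_subset ℝ (by simpa [Function.mem_support] using hne))
      have : db ψ z = 0 := by simp [db, hz']
      rw [this, zero_smul, zero_smul]
  have e2 : (fun z => ψ z • Q' z) = fun z => ψ z • Q z := by
    funext z
    by_cases hz : z ∈ tsupport ψ
    · rw [hQ z (h3 hz)]
    · rw [image_eq_zero_of_notMem_tsupport hz, zero_smul, zero_smul]
  rw [e1, e2]
  exact h ψ h1 h2 h3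

theorem sol_mono {r : ℕ} {U V : Set ℂ} {q : ℝ} {Θ K : ℂ → M r} (h : Sol U q Θ K) (hV : V ⊆ U) :
    Sol V q Θ K :=
  ⟨h.smooth.mono hV, fun z hz => h.pos z (hV hz), fun z hz => h.eqn z (hV hz)⟩

/-- locality of the notion of solution -/
theorem sol_of_local {r : ℕ} {U : Set ℂ} {q : ℝ} {Θ K : ℂ → M r}
    (h : ∀ z ∈ U, ∃ ε > 0, Sol (ball z ε) q Θ K) : Sol U q Θ K := by
  refine ⟨?_, ?_, ?_⟩
  · intro z hz
    obtain ⟨ε, hε, hS⟩ := h z hz
    exact (hS.smooth.contDiffAt (ball_mem_nhds z hε)).contDiffWithinAt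
  · intro z hz
    obtain ⟨ε, hε, hS⟩ := h z hz
    exact hS.pos z (mem_ball_self hε)
  · intro z hz
    obtain ⟨ε, hε, hS⟩ := h z hz
    exact hS.eqn z (mem_ball_self hε)

theorem posSemidef_closed (r : ℕ) : IsClosed {A : M r | A.PosSemidef} := by
  have h : {A : M r | A.PosSemidef} = {A : M r | Aᴴ = A} ∩
      ⋂ x : Fin r → ℂ, {A : M r | 0 ≤ star x ⬝ᵥ (A *ᵥ x)} := by
    ext A
    simp only [mem_setOf_eq, mem_inter_iff, mem_iInter]
    rw [Matrix.posSemidef_iff_dotProduct_mulVec]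
    rfl
  rw [h]
  apply IsClosed.inter
  · exact isClosed_eq (continuous_id.matrix_conjTranspose) continuous_id
  · apply isClosed_iInter
    intro x
    apply isClosed_le continuous_const
    fun_prop

theorem thm_limit {r : ℕ} {ι : Type*} {l : Filter ι} [NeBot l] {K : ι → M r} {L : M r} {c : ℝ}
    (h : ∀ n, Thm c (K n) 1) (hL : Tendsto K l (𝓝 L)) : Thm c L 1 := by
  constructor
  · have h1 : Tendsto (fun n => (Real.exp c : ℂ) • (1 : M r) - K n) l
        (𝓝 ((Real.exp c : ℂ) • (1 : M r) - L)) := tendsto_const_nhds.sub hL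
    exact (posSemidef_closed r).mem_of_tendsto h1 (Eventually.of_forall fun n => (h n).1)
  · have h1 : Tendsto (fun n => (Real.exp c : ℂ) • K n - 1) l
        (𝓝 ((Real.exp c : ℂ) • L - 1)) := (hL.const_smul _).sub_const _
    exact (posSemidef_closed r).mem_of_tendsto h1 (Eventually.of_forall fun n => (h n).2)

theorem posDef_of_thm {r : ℕ} {L : M r} {c : ℝ} (h : Thm c L 1) : L.PosDef := by
  have h1 : ((Real.exp c : ℂ) • L).PosDef := by
    have := Matrix.PosDef.one.add_posSemidef h.2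
    simpa using this
  have h2 : (0 : ℂ) < (Real.exp (-c) : ℂ) := by
    exact_mod_cast Real.exp_pos (-c)
  have h3 := h1.smul h2
  rw [smul_smul] at h3
  have h4 : (Real.exp (-c) : ℂ) * (Real.exp c : ℂ) = 1 := by
    rw [← Complex.ofReal_mul, ← Real.exp_add]; simp
  rwa [h4, one_smul] at h3

section gen

variable {E : Type*} [NormedAddCommGroup E] [NormedSpace ℂ E] [StarAddMonoid E]
  [NormedStarGroup E] [StarModule ℂ E]

/-- the real derivative of a Hermitian valued function with given `∂` -/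
def T (D : E) : ℂ →L[ℝ] E :=
  (ContinuousLinearMap.toSpanSingleton ℂ D).restrictScalars ℝ +
    ((ContinuousLinearMap.toSpanSingleton ℂ (star D)).restrictScalars ℝ).comp
      (Complex.conjCLE : ℂ →L[ℝ] ℂ)

theorem T_apply (D : E) (v : ℂ) : T D v = v • D + conj v • star D := by
  simp [T]

theorem norm_T_sub_le (D D' : E) : ‖T D - T D'‖ ≤ 2 * ‖D - D'‖ := by
  apply ContinuousLinearMap.opNorm_le_bound _ (by positivity)
  intro v
  have e : (T D - T D') v = v • (D - D') + conj v • star (D - D') := by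
    rw [_root_.sub_apply, T_apply, T_apply, star_sub, smul_sub, smul_sub]
    abel
  rw [e]
  calc ‖v • (D - D') + conj v • star (D - D')‖ ≤ ‖v • (D - D')‖ + ‖conj v • star (D - D')‖ :=
        norm_add_le _ _
    _ = 2 * ‖D - D'‖ * ‖v‖ := by
        rw [norm_smul, norm_smul, RCLike.norm_conj, norm_star]; ring

theorem fderiv_eq_T {K : ℂ → E} {z : ℂ} (hd : DifferentiableAt ℝ K z)
    (hh : db K z = star (dz K z)) : fderiv ℝ K z = T (dz K z) := by
  ext1 v
  rw [fderiv_eq_dz_db hd, T_apply, hh]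

theorem continuous_T : Continuous (T (E := E)) := by
  rw [Metric.continuous_iff]
  intro D ε hε
  refine ⟨ε / 4, by positivity, fun D' hD' => ?_⟩
  rw [dist_eq_norm] at hD' ⊢
  have := norm_T_sub_le D' D
  linarith

theorem dz_of_fderiv_T {K : ℂ → E} {z : ℂ} {D : E} (h : fderiv ℝ K z = T D) :
    dz K z = D := by
  unfold dz
  rw [h, T_apply, T_apply, Complex.conj_I]
  simp only [map_one, one_smul]
  match_scalars
  · linear_combination (-(1/2 : ℂ)) * Complex.I_sq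
  · linear_combination ((1/2 : ℂ)) * Complex.I_sq

/-- Lipschitz bound -/
theorem lip_of_dz {K : ℂ → E} {S : Set ℂ} {C : ℝ} (hS : Convex ℝ S)
    (hd : ∀ z ∈ S, DifferentiableAt ℝ K z) (hh : ∀ z ∈ S, db K z = star (dz K z))
    (hC : ∀ z ∈ S, ‖dz K z‖ ≤ C) : ∀ x ∈ S, ∀ y ∈ S, ‖K x - K y‖ ≤ 2 * C * ‖x - y‖ := by
  intro x hx y hy
  refine Convex.norm_image_sub_le_of_norm_fderiv_le (𝕜 := ℝ) hd ?_ hS hy hx
  intro z hz
  have h1 := norm_fderiv_le_dz_db (hd z hz)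
  rw [hh z hz, norm_star] at h1
  have := hC z hz
  linarith

/-- limits of functions with converging `∂` -/
theorem limit_deriv {ι : Type*} {u : Filter ι} [NeBot u] {S : Set ℂ} (hS : IsOpen S)
    {K : ι → ℂ → E} {L D : ℂ → E} (hd : ∀ n, ∀ z ∈ S, DifferentiableAt ℝ (K n) z)
    (hh : ∀ n, ∀ z ∈ S, db (K n) z = star (dz (K n) z))
    (hL : ∀ z ∈ S, Tendsto (fun n => K n z) u (𝓝 (L z))) (hDc : ContinuousOn D S)
    (ccD : ∀ x ∈ S, Tendsto (fun y : ι × ℂ => dz (K y.1) y.2) (u ×ˢ 𝓝[S] x) (𝓝 (D x))) :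
    ContDiffOn ℝ 1 L S ∧ ∀ z ∈ S, dz L z = D z := by
  have hev : ∀ x ∈ S, ∀ᶠ y : ι × ℂ in u ×ˢ 𝓝[S] x, y.2 ∈ S := fun x hx =>
    tendsto_snd.eventually self_mem_nhdsWithin
  have ccF : ∀ x ∈ S, Tendsto (fun y : ι × ℂ => fderiv ℝ (K y.1) y.2)
      (u ×ˢ 𝓝[S] x) (𝓝 (T (D x))) := by
    intro x hx
    refine ((continuous_T.tendsto _).comp (ccD x hx)).congr' ?_
    filter_upwards [hev x hx] with y hy
    exact (fderiv_eq_T (hd y.1 y.2 hy) (hh y.1 y.2 hy)).symm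
  have hTc : ContinuousOn (fun z => T (D z)) S := continuous_T.comp_continuousOn hDc
  have luF : TendstoLocallyUniformlyOn (fun n => fderiv ℝ (K n)) (fun z => T (D z)) u S :=
    locUnif_of_cc hTc ccF
  have hLd : ∀ z ∈ S, HasFDerivAt L (T (D z)) z := fun z hz =>
    hasFDerivAt_of_tendstoLocallyUniformlyOn hS luF
      (fun n x hx => (hd n x hx).hasFDerivAt) hL hz
  refine ⟨?_, fun z hz => dz_of_fderiv_T (hLd z hz).fderiv⟩
  rw [show (1 : WithTop ℕ∞) = 0 + 1 by norm_num, contDiffOn_succ_iff_fderiv_of_isOpen hS]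
  refine ⟨fun z hz => (hLd z hz).differentiableAt.differentiableWithinAt, by simp, ?_⟩
  rw [contDiffOn_zero]
  exact hTc.congr fun z hz => (hLd z hz).fderiv

end gen

end Lim

open Lim

/-- the local version with all the bounds for every index -/
theorem Lim.local_lim (hDT : Stmt_DT) (hGrad : Stmt_Grad) (hWeak : Stmt_Weak) (hReg : Stmt_Reg)
    (r : ℕ) (z₀ : ℂ) (R : ℝ) (hR : 0 < R) (q : ℝ) (hq : 0 ≤ q) (Θ : ℂ → M r)
    (hΘ : DifferentiableOn ℂ Θ (ball z₀ R)) (B : ℝ) (hB : ∀ z ∈ ball z₀ R, ‖Θ z‖ ≤ B)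
    (ι : Type) (l : Filter ι) [NeBot l] (K : ι → ℂ → M r) (L : ℂ → M r) (c : ℝ) (hc : 0 ≤ c)
    (hS : ∀ n, Sol (ball z₀ R) q Θ (K n)) (hT : ∀ n, ∀ z ∈ ball z₀ R, Thm c (K n z) 1)
    (hL : ∀ z ∈ ball z₀ R, Tendsto (fun n => K n z) l (𝓝 (L z))) :
    Sol (ball z₀ (R / 2)) q Θ L := by
  set S : Set ℂ := ball z₀ (R / 2) with hSdef
  have hSopen : IsOpen S := isOpen_ball
  have hSsub : S ⊆ ball z₀ R := ball_subset_ball (by linarith)
  obtain ⟨C, hC, hG⟩ := hGrad r q B c R (R / 2) hq hc (half_pos hR) (half_lt_self hR)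
  have hG' := fun n => hG Θ (K n) z₀ hΘ.continuousOn (hS n) hB (hT n)
  -- ultrafilter
  let u : Ultrafilter ι := Ultrafilter.of l
  have hu : (u : Filter ι) ≤ l := Ultrafilter.of_le l
  have hLu : ∀ z ∈ S, Tendsto (fun n => K n z) u (𝓝 (L z)) := fun z hz =>
    (hL z (hSsub hz)).mono_left hu
  -- differentiability and Hermitian
  have hKat : ∀ n, ∀ z ∈ S, ContDiffAt ℝ ∞ (K n) z := fun n z hz =>
    (hS n).smooth.contDiffAt (isOpen_ball.mem_nhds (hSsub hz))
  have hKd : ∀ n, ∀ z ∈ S, DifferentiableAt ℝ (K n) z := fun n z hz =>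
    (hKat n z hz).differentiableAt (by simp)
  have hKh : ∀ n, ∀ z ∈ S, db (K n) z = star (dz (K n) z) := by
    intro n z hz
    refine db_eq_of_hermitian (hKd n z hz) ?_
    filter_upwards [hSopen.mem_nhds hz] with w hw
    exact ((hS n).pos w (hSsub hw)).isHermitian
  have hKu : ∀ n, ∀ z ∈ S, IsUnit (K n z) := fun n z hz => ((hS n).pos z (hSsub hz)).isUnit
  -- equicontinuity
  have hLip : ∀ n, ∀ x ∈ S, ∀ y ∈ S, ‖K n x - K n y‖ ≤ (fun t => 2 * C * t) ‖x - y‖ := by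
    intro n x hx y hy
    exact lip_of_dz (convex_ball z₀ (R / 2)) (hKd n) (hKh n) (hG' n).1 x hx y hy
  have hm1 : Tendsto (fun t : ℝ => 2 * C * t) (𝓝 0) (𝓝 0) := by
    have : Continuous (fun t : ℝ => 2 * C * t) := by fun_prop
    simpa using this.tendsto 0
  have hm2 : Tendsto (fun t : ℝ => C * Real.sqrt t) (𝓝 0) (𝓝 0) := by
    have : Continuous (fun t : ℝ => C * Real.sqrt t) := by fun_prop
    simpa using this.tendsto 0
  have hHol : ∀ n, ∀ x ∈ S, ∀ y ∈ S,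
      ‖(fun w => (K n w)⁻¹ * dz (K n) w) x - (fun w => (K n w)⁻¹ * dz (K n) w) y‖ ≤
        (fun t => C * Real.sqrt t) ‖x - y‖ := fun n x hx y hy => (hG' n).2 x hx y hy
  -- limits of A_n
  have hAlim : ∀ z, z ∈ S → ∃ a : M r, Tendsto (fun n => (K n z)⁻¹ * dz (K n) z) u (𝓝 a) := by
    intro z hz
    have hcomp : IsCompact (closedBall (0 : M r) (Real.sqrt r * Real.exp c * C)) := by
      haveI : ProperSpace (M r) := FiniteDimensional.proper ℂ (M r)
      exact isCompact_closedBall _ _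
    have hmem : ∀ n, (K n z)⁻¹ * dz (K n) z ∈ closedBall (0 : M r) (Real.sqrt r * Real.exp c * C) := by
      intro n
      rw [mem_closedBall_zero_iff]
      have h1 := (hDT.norm_le r (K n z) c ((hS n).pos z (hSsub hz)) (hT n z (hSsub hz))).2
      calc ‖(K n z)⁻¹ * dz (K n) z‖ ≤ ‖(K n z)⁻¹‖ * ‖dz (K n) z‖ := norm_mul_le _ _
        _ ≤ (Real.sqrt r * Real.exp c) * C := by
            apply mul_le_mul h1 ((hG' n).1 z hz) (norm_nonneg _) (by positivity)
    have h2 : ((u.map (fun n => (K n z)⁻¹ * dz (K n) z) : Ultrafilter (M r)) : Filter (M r)) ≤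
        𝓟 (closedBall (0 : M r) (Real.sqrt r * Real.exp c * C)) := by
      rw [le_principal_iff]
      exact Filter.mem_map.2 (Filter.univ_mem' hmem)
    obtain ⟨a, _, ha⟩ := hcomp.ultrafilter_le_nhds _ h2
    exact ⟨a, ha⟩
  choose! A hA using hAlim
  -- continuity of the limits
  have hLc : ContinuousOn L S := continuousOn_of_modulus _ hm1 (modulus_limit _ hLip hLu)
  have hAc : ContinuousOn A S := continuousOn_of_modulus (fun t => C * Real.sqrt t) hm2
    (modulus_limit (F := fun n w => (K n w)⁻¹ * dz (K n) w) (fun t => C * Real.sqrt t) hHol hA)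
  have ccK : ∀ x ∈ S, Tendsto (fun y : ι × ℂ => K y.1 y.2) ((u : Filter ι) ×ˢ 𝓝[S] x)
      (𝓝 (L x)) := fun x hx => cc_of_pointwise _ hm1 hLip hLu hx
  have ccA : ∀ x ∈ S, Tendsto (fun y : ι × ℂ => (K y.1 y.2)⁻¹ * dz (K y.1) y.2)
      ((u : Filter ι) ×ˢ 𝓝[S] x) (𝓝 (A x)) := fun x hx =>
    cc_of_pointwise (F := fun n w => (K n w)⁻¹ * dz (K n) w) _ hm2 hHol hA hx
  have hLT : ∀ z ∈ S, Thm c (L z) 1 := fun z hz =>
    thm_limit (fun n => hT n z (hSsub hz)) (hLu z hz)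
  have hLpos : ∀ z ∈ S, (L z).PosDef := fun z hz => posDef_of_thm (hLT z hz)
  have hLunit : ∀ z ∈ S, IsUnit (L z) := fun z hz => (hLpos z hz).isUnit
  have hev : ∀ x ∈ S, ∀ᶠ y : ι × ℂ in (u : Filter ι) ×ˢ 𝓝[S] x, y.2 ∈ S := fun x hx =>
    tendsto_snd.eventually self_mem_nhdsWithin
  -- dz K_n
  have ccD : ∀ x ∈ S, Tendsto (fun y : ι × ℂ => dz (K y.1) y.2) ((u : Filter ι) ×ˢ 𝓝[S] x)
      (𝓝 (L x * A x)) := by
    intro x hx
    refine ((ccK x hx).mul (ccA x hx)).congr' ?_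
    filter_upwards [hev x hx] with y hy
    rw [← Matrix.mul_assoc, Matrix.mul_nonsing_inv _
      ((Matrix.isUnit_iff_isUnit_det _).1 (hKu y.1 y.2 hy)), Matrix.one_mul]
  have hLA : ContinuousOn (fun z => L z * A z) S := hLc.mul hAc
  obtain ⟨hLC1, hLdz⟩ := limit_deriv hSopen hKd hKh hLu hLA ccD
  -- the weak equation
  have hAeq : ∀ z ∈ S, A z = (L z)⁻¹ * dz L z := by
    intro z hz
    rw [hLdz z hz, ← Matrix.mul_assoc, Matrix.nonsing_inv_mul _
      ((Matrix.isUnit_iff_isUnit_det _).1 (hLunit z hz)), Matrix.one_mul]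
  have luA : TendstoLocallyUniformlyOn (fun n w => (K n w)⁻¹ * dz (K n) w) A
      (u : Filter ι) S := locUnif_of_cc hAc ccA
  have ccI : ∀ x ∈ S, Tendsto (fun y : ι × ℂ => (K y.1 y.2)⁻¹) ((u : Filter ι) ×ˢ 𝓝[S] x)
      (𝓝 (L x)⁻¹) := by
    intro x hx
    obtain ⟨v, hv⟩ := hLunit x hx
    have h1 : ContinuousAt Ring.inverse (v : M r) := NormedRing.inverse_continuousAt v
    rw [hv] at h1
    have h2 := h1.tendsto.comp (ccK x hx)
    rw [Matrix.nonsing_inv_eq_ringInverse]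
    refine h2.congr fun y => ?_
    rw [Matrix.nonsing_inv_eq_ringInverse]; rfl
  have hΘc : ContinuousOn Θ S := hΘ.continuousOn.mono hSsub
  have ccΘ : ∀ x ∈ S, Tendsto (fun y : ι × ℂ => Θ y.2) ((u : Filter ι) ×ˢ 𝓝[S] x)
      (𝓝 (Θ x)) := fun x hx => Tendsto.comp (hΘc x hx) tendsto_snd
  have ccΘH : ∀ x ∈ S, Tendsto (fun y : ι × ℂ => (Θ y.2)ᴴ) ((u : Filter ι) ×ˢ 𝓝[S] x)
      (𝓝 (Θ x)ᴴ) := fun x hx =>
    ((continuous_id.matrix_conjTranspose : Continuous fun A : M r => Aᴴ).tendsto _).comp (ccΘ x hx)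
  have ccQ : ∀ x ∈ S, Tendsto (fun y : ι × ℂ => (q : ℂ) • brk (Θ y.2) (K y.1 y.2))
      ((u : Filter ι) ×ˢ 𝓝[S] x) (𝓝 ((q : ℂ) • brk (Θ x) (L x))) := by
    intro x hx
    have h1 : Tendsto (fun y : ι × ℂ => (K y.1 y.2)⁻¹ * (Θ y.2)ᴴ * K y.1 y.2)
        ((u : Filter ι) ×ˢ 𝓝[S] x) (𝓝 ((L x)⁻¹ * (Θ x)ᴴ * L x)) :=
      ((ccI x hx).mul (ccΘH x hx)).mul (ccK x hx)
    exact (((ccΘ x hx).mul h1).sub (h1.mul (ccΘ x hx))).const_smul (q : ℂ)
  have hLI : ContinuousOn (fun z => (L z)⁻¹) S := continuousOn_inv hLc hLunit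
  have hΘH : ContinuousOn (fun z => (Θ z)ᴴ) S :=
    (continuous_id.matrix_conjTranspose : Continuous fun A : M r => Aᴴ).comp_continuousOn hΘc
  have hQc : ContinuousOn (fun z => (q : ℂ) • brk (Θ z) (L z)) S := by
    have h1 : ContinuousOn (fun z => (L z)⁻¹ * (Θ z)ᴴ * L z) S := (hLI.mul hΘH).mul hLc
    exact ((hΘc.mul h1).sub (h1.mul hΘc)).const_smul (q : ℂ)
  have luQ : TendstoLocallyUniformlyOn (fun n w => (q : ℂ) • brk (Θ w) (K n w))
      (fun z => (q : ℂ) • brk (Θ z) (L z)) (u : Filter ι) S := locUnif_of_cc hQc ccQ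
  have hAC1 : ∀ n, ContDiffOn ℝ 1 (fun w => (K n w)⁻¹ * dz (K n) w) S := by
    intro n
    have h1 : ContDiffOn ℝ ∞ (K n) S := (hS n).smooth.mono hSsub
    have h2 : ContDiffOn ℝ ∞ (dz (K n)) S := contDiffOn_dz_infty hSopen h1
    have h3 : ContDiffOn ℝ ∞ (fun w => (K n w)⁻¹) S := contDiffOn_inv h1 (hKu n)
    exact ((h3.mul h2).of_le (by norm_cast))
  have hQn : ∀ n, ContinuousOn (fun w => (q : ℂ) • brk (Θ w) (K n w)) S := by
    intro n
    have hKc : ContinuousOn (K n) S := ((hS n).smooth.mono hSsub).continuousOn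
    have hKI : ContinuousOn (fun z => (K n z)⁻¹) S := continuousOn_inv hKc (hKu n)
    have h1 : ContinuousOn (fun z => (K n z)⁻¹ * (Θ z)ᴴ * K n z) S := (hKI.mul hΘH).mul hKc
    exact ((hΘc.mul h1).sub (h1.mul hΘc)).const_smul (q : ℂ)
  have hweak : WeakDb S A (fun z => (q : ℂ) • brk (Θ z) (L z)) := by
    refine hWeak.lim r S ι (u : Filter ι) (fun n w => (K n w)⁻¹ * dz (K n) w)
      (fun n w => (q : ℂ) • brk (Θ w) (K n w)) A _ inferInstance hSopen ?_ luA luQ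
    refine Eventually.of_forall fun n => ⟨(hAC1 n).continuousOn, hQn n, ?_⟩
    refine weakDb_congr (fun z _ => rfl) (fun z hz => ?_) (hWeak.of_c1 r S _ hSopen (hAC1 n))
    exact (hS n).eqn z (hSsub hz)
  refine hReg r S q Θ L hSopen (hΘ.mono hSsub) hLC1 hLpos ?_
  exact weakDb_congr hAeq (fun z _ => rfl) hweak

theorem lim_proof (hDT : Stmt_DT) (hGrad : Stmt_Grad) (hWeak : Stmt_Weak) (hReg : Stmt_Reg) :
    Stmt_Lim := by
  intro r U q Θ ι l K L hl hU hq hΘ hloc hL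
  apply sol_of_local
  intro z hz
  obtain ⟨ρ, hρ, c, hc⟩ := hloc z hz
  obtain ⟨ε, hε, hεU⟩ := Metric.nhds_basis_closedBall.mem_iff.1 (hU.mem_nhds hz)
  set R := min ρ ε with hRdef
  have hR : 0 < R := lt_min hρ hε
  have hRU : closedBall z R ⊆ U := (closedBall_subset_closedBall (min_le_right _ _)).trans hεU
  have hRρ : ball z R ⊆ ball z ρ := ball_subset_ball (min_le_left _ _)
  obtain ⟨B, hB⟩ := (isCompact_closedBall z R).exists_bound_of_continuousOn
    (hΘ.continuousOn.mono hRU)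
  obtain ⟨n₀, hn₀⟩ := hc.exists
  classical
  let P : ι → Prop := fun n => Sol (ball z ρ) q Θ (K n) ∧ ∀ w ∈ ball z ρ, Thm c (K n w) 1
  let K' : ι → ℂ → M r := fun n => if P n then K n else K n₀
  have hP : ∀ n, Sol (ball z ρ) q Θ (K' n) ∧ ∀ w ∈ ball z ρ, Thm c (K' n w) 1 := by
    intro n
    by_cases h : P n
    · simp only [K', if_pos h]; exact h
    · simp only [K', if_neg h]; exact hn₀
  have hKK : ∀ᶠ n in l, K' n = K n := by
    filter_upwards [hc] with n hn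
    have : P n := hn
    simp only [K', if_pos this]
  refine ⟨R / 2, half_pos hR, ?_⟩
  refine Lim.local_lim hDT hGrad hWeak hReg r z R hR q hq Θ
    (hΘ.mono (ball_subset_closedBall.trans hRU)) B
    (fun w hw => hB w (ball_subset_closedBall hw)) ι l K' L (max c 0) (le_max_right _ _)
    (fun n => sol_mono (hP n).1 hRρ) ?_ ?_
  · intro n w hw
    exact hDT.mono r _ _ c _ ((hP n).1.pos w (hRρ hw)) Matrix.PosDef.one (le_max_left _ _)
      ((hP n).2 w (hRρ hw))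
  · intro w hw
    refine (hL w (hRU (ball_subset_closedBall hw))).congr' ?_
    filter_upwards [hKK] with n hn
    rw [hn]

end Pool.Agent.HSC
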