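import Pool.Agent.HSC.Stmts2

set_option autoImplicit false

open scoped Matrix.Norms.Frobenius ContDiff Topology Manifold ComplexOrder ComplexConjugate
open Matrix Set Filter Metric

noncomputable section

namespace Pool.Agent.HSC

universe u v

theorem loc_proof (hGauge : Stmt_Gauge) (X : Type u) [TopologicalSpace X] [T2Space X]
    [ChartedSpace ℂ X] [IsManifold 𝓘(ℂ) ω X] (r : ℕ) (E : HiggsBundle.{u, v} X r) :
    LocAt X r E := by
  intro q i Ω h hΩ hsub hM hS j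
  have hU : IsOpen (E.dom i Ω) := isOpen_dom E i hΩ
  have hU' : IsOpen (E.dom j Ω) := isOpen_dom E j hΩ
  have hx : ∀ z ∈ E.dom j Ω, (E.φ j).symm z ∈ (E.φ j).source ∧ (E.φ j).symm z ∈ (E.φ i).source ∧
      (E.φ j).symm z ∈ Ω := fun z hz => ⟨(E.φ j).map_target hz.1, hsub hz.2, hz.2⟩
  have hf : DifferentiableOn ℂ (fun z => E.φ i ((E.φ j).symm z)) (E.dom j Ω) :=
    (transition_holo E j i).mono fun z hz => ⟨hz.1, (hx z hz).2.1⟩
  have hmap : MapsTo (fun z => E.φ i ((E.φ j).symm z)) (E.dom j Ω) (E.dom i Ω) := by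
    intro z hz
    exact map_mem_dom (hx z hz).2.1 (hx z hz).2.2
  have hinv : ∀ z ∈ E.dom j Ω, (E.φ i).symm (E.φ i ((E.φ j).symm z)) = (E.φ j).symm z :=
    fun z hz => (E.φ i).left_inv (hx z hz).2.1
  have hG : DifferentiableOn ℂ (fun z => E.g i j ((E.φ j).symm z)) (E.dom j Ω) := by
    have h1 : DifferentiableOn ℂ
        (fun z => E.g i j ((E.φ i).symm (E.φ i ((E.φ j).symm z)))) (E.dom j Ω) := by
      refine DifferentiableOn.comp (g := fun z => E.g i j ((E.φ i).symm z)) (E.g_holo i j) hf ?_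
      intro z hz
      refine ⟨(hmap hz).1, ?_⟩
      simp only [mem_preimage]
      rw [hinv z hz]
      exact (hx z hz).1
    refine h1.congr fun z hz => ?_
    rw [hinv z hz]
  have hUnit : ∀ z ∈ E.dom j Ω, IsUnit (E.g i j ((E.φ j).symm z)) := fun z hz =>
    g_isUnit E i j (hx z hz).2.1 (hx z hz).1
  have hmain := hGauge r (E.dom i Ω) (E.dom j Ω) q (E.θ i) (E.loc h i)
    (fun z => E.g i j ((E.φ j).symm z)) (fun z => E.φ i ((E.φ j).symm z)) hU hU' hS hf hmap hG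
    hUnit
  have hmain2 : Sol (E.dom j Ω) q (fun z => deriv (fun z => E.φ i ((E.φ j).symm z)) z •
      ((E.g i j ((E.φ j).symm z))⁻¹ * E.θ i (E.φ i ((E.φ j).symm z)) *
        E.g i j ((E.φ j).symm z))) (E.loc h j) := by
    refine hmain.congr hU' fun z hz => ?_
    have h1 := hM.trans i j ((E.φ j).symm z) ⟨⟨(hx z hz).2.1, (hx z hz).1⟩, (hx z hz).2.2⟩
    simp only [HiggsBundle.loc]
    rw [h1, hinv z hz]
  refine ⟨hmain2.smooth, hmain2.pos, fun z hz => ?_⟩
  rw [hmain2.eqn z hz]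
  congr 2
  have h2 := E.θ_trans j i ((E.φ j).symm z) ⟨(hx z hz).1, (hx z hz).2.1⟩
  rw [(E.φ j).right_inv hz.1] at h2
  rw [h2, g_inv E i j (hx z hz).2.1 (hx z hz).1]

end Pool.Agent.HSC
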