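import Pool.Agent.HSC.Stmts

/-!
# HSC, module LOCMAX: second derivative test
-/

set_option autoImplicit false

open scoped Topology
open Set Filter

noncomputable section

namespace Pool.Agent.HSC

namespace LocMax

theorem deriv_deriv_nonpos_of_isLocalMax {f : ℝ → ℝ} {x : ℝ} (hf : IsLocalMax f x)
    (hc : ContinuousAt f x) : deriv (deriv f) x ≤ 0 := by
  by_contra hpos
  push Not at hpos
  have hd : deriv f x = 0 := hf.deriv_eq_zero
  have hmin : IsLocalMin f x := isLocalMin_of_deriv_deriv_pos hpos hd hc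
  have heq : f =ᶠ[𝓝 x] fun _ => f x := by
    filter_upwards [hf, hmin] with y h1 h2
    exact le_antisymm h1 h2
  have h1 : deriv f =ᶠ[𝓝 x] deriv (fun _ => f x) := heq.deriv
  have h2 : deriv (deriv f) x = 0 := by
    rw [h1.deriv_eq]
    simp
  linarith

/-- The second derivative in direction `v` is nonpositive at a local maximum. -/
theorem second_nonpos {ψ : ℂ → ℝ} {z : ℂ} (hψ : ContDiffAt ℝ 2 ψ z) (hmax : IsLocalMax ψ z)
    (v : ℂ) : fderiv ℝ (fun w => fderiv ℝ ψ w v) z v ≤ 0 := by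
  have hline : ∀ t : ℝ, HasDerivAt (fun t : ℝ => z + t • v) v t := by
    intro t
    have := ((hasDerivAt_id t).smul_const v).const_add z
    simpa using this
  have hev : ∀ᶠ w in 𝓝 z, DifferentiableAt ℝ ψ w := by
    have := hψ.eventually (by simp)
    filter_upwards [this] with w hw
    exact hw.differentiableAt (by norm_num)
  have hc : Continuous (fun t : ℝ => z + t • v) := by fun_prop
  have hc0 : Tendsto (fun t : ℝ => z + t • v) (𝓝 0) (𝓝 z) := by simpa using hc.tendsto 0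
  have hd1 : deriv (fun t : ℝ => ψ (z + t • v)) =ᶠ[𝓝 0] fun t => fderiv ℝ ψ (z + t • v) v := by
    filter_upwards [hc0.eventually hev] with t ht
    exact (ht.hasFDerivAt.comp_hasDerivAt t (hline t)).deriv
  have hdd : DifferentiableAt ℝ (fun w => fderiv ℝ ψ w v) z := by
    have h1 : ContDiffAt ℝ 1 (fderiv ℝ ψ) z := hψ.fderiv_right (by norm_num)
    have h2 : DifferentiableAt ℝ (fderiv ℝ ψ) z := h1.differentiableAt one_ne_zero
    exact h2.clm_apply (differentiableAt_const v)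
  have hd2 : deriv (deriv (fun t : ℝ => ψ (z + t • v))) 0 =
      fderiv ℝ (fun w => fderiv ℝ ψ w v) z v := by
    rw [hd1.deriv_eq]
    have h3 : HasFDerivAt (fun w => fderiv ℝ ψ w v) (fderiv ℝ (fun w => fderiv ℝ ψ w v) z)
        (z + (0 : ℝ) • v) := by
      simpa using hdd.hasFDerivAt
    exact (h3.comp_hasDerivAt 0 (hline 0)).deriv
  rw [← hd2]
  refine deriv_deriv_nonpos_of_isLocalMax ?_ ?_
  · have h1 : ∀ᶠ t in 𝓝 (0:ℝ), ψ (z + t • v) ≤ ψ z := hc0.eventually hmax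
    simpa [IsLocalMax, IsMaxFilter] using h1
  · have h2 : ContinuousAt ψ (z + (0:ℝ) • v) := by simpa using hψ.continuousAt
    exact ContinuousAt.comp (f := fun t : ℝ => z + t • v) (g := ψ) h2 hc.continuousAt

/-- `ddb ψ = (ψ_xx + ψ_yy) / 4`. -/
theorem ddb_eq {ψ : ℂ → ℝ} {z : ℂ} (hψ : ContDiffAt ℝ 2 ψ z) :
    ddb ψ z = (fderiv ℝ (fun w => fderiv ℝ ψ w 1) z 1 +
      fderiv ℝ (fun w => fderiv ℝ ψ w Complex.I) z Complex.I) / 4 := by
  have hev : ∀ᶠ w in 𝓝 z, DifferentiableAt ℝ ψ w := by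
    have := hψ.eventually (by simp)
    filter_upwards [this] with w hw
    exact hw.differentiableAt (by norm_num)
  have hdd : ∀ v : ℂ, DifferentiableAt ℝ (fun w => fderiv ℝ ψ w v) z := by
    intro v
    have h1 : ContDiffAt ℝ 1 (fderiv ℝ ψ) z := hψ.fderiv_right (by norm_num)
    have h2 : DifferentiableAt ℝ (fderiv ℝ ψ) z := h1.differentiableAt one_ne_zero
    exact h2.clm_apply (differentiableAt_const v)
  have hreal : ∀ (φ : ℂ → ℝ) (w v : ℂ), DifferentiableAt ℝ φ w →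
      fderiv ℝ (fun y => ((φ y : ℝ) : ℂ)) w v = ((fderiv ℝ φ w v : ℝ) : ℂ) := by
    intro φ w v hφ
    have h1 : HasFDerivAt (fun y => ((φ y : ℝ) : ℂ)) (Complex.ofRealCLM.comp (fderiv ℝ φ w)) w :=
      Complex.ofRealCLM.hasFDerivAt.comp w hφ.hasFDerivAt
    rw [h1.fderiv]
    rfl
  have hdz : dz (fun w => (ψ w : ℂ)) =ᶠ[𝓝 z] fun w => (1 / 2 : ℂ) •
      (((fderiv ℝ ψ w 1 : ℝ) : ℂ) - Complex.I • ((fderiv ℝ ψ w Complex.I : ℝ) : ℂ)) := by
    filter_upwards [hev] with w hw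
    unfold dz
    rw [hreal ψ w 1 hw, hreal ψ w Complex.I hw]
  unfold ddb
  rw [db_congr hdz]
  have hF : HasFDerivAt (fun w => (1 / 2 : ℂ) •
      (((fderiv ℝ ψ w 1 : ℝ) : ℂ) - Complex.I • ((fderiv ℝ ψ w Complex.I : ℝ) : ℂ)))
      ((1 / 2 : ℂ) • ((Complex.ofRealCLM.comp (fderiv ℝ (fun w => fderiv ℝ ψ w 1) z)) -
        Complex.I • (Complex.ofRealCLM.comp
          (fderiv ℝ (fun w => fderiv ℝ ψ w Complex.I) z)))) z := by
    have h1 := Complex.ofRealCLM.hasFDerivAt.comp z (hdd 1).hasFDerivAt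
    have h2 := Complex.ofRealCLM.hasFDerivAt.comp z (hdd Complex.I).hasFDerivAt
    exact (h1.sub (h2.const_smul Complex.I)).const_smul (1 / 2 : ℂ)
  unfold db
  rw [hF.fderiv]
  simp only [_root_.smul_apply, _root_.sub_apply, ContinuousLinearMap.comp_apply,
    Complex.ofRealCLM_apply, smul_eq_mul]
  simp
  ring

end LocMax

open LocMax in
theorem locmax_proof : Stmt_LocMax := by
  intro ψ z hψ hmax
  rw [ddb_eq hψ]
  have h1 := second_nonpos hψ hmax 1
  have h2 := second_nonpos hψ hmax Complex.I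
  linarith

end Pool.Agent.HSC
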