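import Pool.Agent.HSC.Stmts2

/-!
# Module MAXP: the maximum principle on a connected non-compact surface
-/

set_option autoImplicit false

open scoped Matrix.Norms.Frobenius ContDiff Topology Manifold ComplexOrder ComplexConjugate
open Matrix Set Filter MeasureTheory Metric

noncomputable section

namespace Pool.Agent.HSC

universe u v

namespace MAXP

/-- punctured balls in the plane are preconnected -/
theorem punctured (a : ℂ) (R : ℝ) : IsPreconnected (ball a R \ {a}) := by
  have h : ball a R \ {a} =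
      (fun p : ℝ × ℝ => a + (p.1 : ℂ) * Complex.exp ((p.2 : ℂ) * Complex.I)) ''
        (Ioo 0 R ×ˢ univ) := by
    ext z
    constructor
    · rintro ⟨hz, hne⟩
      refine ⟨(‖z - a‖, Complex.arg (z - a)), ⟨⟨?_, ?_⟩, mem_univ _⟩, ?_⟩
      · exact norm_pos_iff.mpr (sub_ne_zero.mpr hne)
      · simpa [dist_eq_norm] using hz
      · simp only
        rw [Complex.norm_mul_exp_arg_mul_I]
        ring
    · rintro ⟨⟨s, t⟩, ⟨⟨hs, hs'⟩, -⟩, rfl⟩
      simp only at hs hs' ⊢
      have hn : ‖(s : ℂ) * Complex.exp ((t : ℂ) * Complex.I)‖ = s := by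
        rw [norm_mul, Complex.norm_exp_ofReal_mul_I, mul_one, Complex.norm_real,
          Real.norm_of_nonneg hs.le]
      constructor
      · rw [mem_ball, dist_eq_norm, add_sub_cancel_left, hn]
        exact hs'
      · intro hc
        rw [mem_singleton_iff, add_eq_left] at hc
        rw [hc, norm_zero] at hn
        exact hs.ne hn
  rw [h]
  refine IsPreconnected.image (isPreconnected_Ioo.prod isPreconnected_univ) _ ?_
  fun_prop

/-- no isolated points -/
theorem ne_neBot {X : Type u} [TopologicalSpace X] (e : OpenPartialHomeomorph X ℂ) {y : X}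
    (hi : y ∈ e.source) : (𝓝[≠] y).NeBot := by
  have hc1 : Tendsto e.symm (𝓝 (e y)) (𝓝 y) := by
    have := e.continuousAt_symm (e.map_source hi)
    rw [ContinuousAt, e.left_inv hi] at this
    exact this
  have hm : Tendsto e.symm (𝓝[≠] (e y)) (𝓝[≠] y) := by
    rw [tendsto_nhdsWithin_iff]
    refine ⟨hc1.mono_left nhdsWithin_le_nhds, ?_⟩
    rw [eventually_nhdsWithin_iff]
    filter_upwards [e.open_target.mem_nhds (e.map_source hi)] with z hz hz'
    intro hzy
    apply hz'
    rw [mem_singleton_iff] at hzy ⊢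
    rw [← hzy, e.right_inv hz]
  exact hm.neBot

section

variable {X : Type u} [TopologicalSpace X] [T2Space X] {ι : Type v}
  (φ : ι → OpenPartialHomeomorph X ℂ) (F : Set X)

/-- a good chart ball -/
theorem chart (hcov : ∀ x, ∃ i, x ∈ (φ i).source) (hF : F.Finite) (x : X) :
    ∃ i, x ∈ (φ i).source ∧ ∃ R > 0, closedBall (φ i x) R ⊆ (φ i).target ∧
      ∀ z ∈ closedBall (φ i x) R, z ≠ φ i x → (φ i).symm z ∉ F := by
  obtain ⟨i, hi⟩ := hcov x
  refine ⟨i, hi, ?_⟩
  have hT : (F \ {x})ᶜ ∈ 𝓝 x := by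
    apply IsOpen.mem_nhds
    · exact (hF.subset sdiff_subset).isClosed.isOpen_compl
    · simp
  have h1 : ∀ᶠ z in 𝓝 (φ i x), z ∈ (φ i).target := (φ i).open_target.mem_nhds
    ((φ i).map_source hi)
  have h2 : ∀ᶠ z in 𝓝 (φ i x), (φ i).symm z ∈ (F \ {x})ᶜ := by
    have hc := (φ i).continuousAt_symm ((φ i).map_source hi)
    apply hc
    rw [(φ i).left_inv hi]
    exact hT
  obtain ⟨R, hR, hRs⟩ := nhds_basis_closedBall.mem_iff.1 (h1.and h2)
  refine ⟨R, hR, fun z hz => (hRs hz).1, fun z hz hne hzF => ?_⟩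
  have h3 := (hRs hz).2
  apply h3
  refine ⟨hzF, fun hzx => hne ?_⟩
  rw [mem_singleton_iff] at hzx
  rw [← hzx, (φ i).right_inv (hRs hz).1]

end

section

variable {X : Type u} [TopologicalSpace X] {ι : Type v}
  {φ : ι → OpenPartialHomeomorph X ℂ} {F : Set X} {f : X → ℝ}

theorem g_cont (hc : ∀ x ∉ F, ContinuousAt f x) (i : ι) {z : ℂ} (hz : z ∈ (φ i).target)
    (hF : (φ i).symm z ∉ F) : ContinuousAt (fun z => f ((φ i).symm z)) z :=
  ContinuousAt.comp (f := (φ i).symm) (hc _ hF) ((φ i).continuousAt_symm hz)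

theorem g_vsub (hv : ∀ i, ∀ x ∈ (φ i).source, x ∉ F →
      VSub 0 (fun z => f ((φ i).symm z)) (φ i x)) (i : ι) {z : ℂ} (hz : z ∈ (φ i).target)
    (hF : (φ i).symm z ∉ F) : VSub 0 (fun z => f ((φ i).symm z)) z := by
  have := hv i _ ((φ i).map_target hz) hF
  rwa [(φ i).right_inv hz] at this

/-- the set where the maximum is attained is open -/
theorem open_max [T2Space X] (hSmp : Stmt_Smp) (hcov : ∀ x, ∃ i, x ∈ (φ i).source) (hF : F.Finite)
    (hc : ∀ x ∉ F, ContinuousAt f x)
    (hv : ∀ i, ∀ x ∈ (φ i).source, x ∉ F → VSub 0 (fun z => f ((φ i).symm z)) (φ i x))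
    (S : ℝ) (hS : ∀ x ∉ F, f x ≤ S) (x : X) (hx : x ∉ F) (hfx : f x = S) :
    ∀ᶠ y in 𝓝 x, f y = S := by
  obtain ⟨i, hi, R, hR, hRt, hRF⟩ := chart φ F hcov hF x
  have hall : ∀ z ∈ closedBall (φ i x) R, (φ i).symm z ∉ F := by
    intro z hz
    by_cases hzx : z = φ i x
    · rw [hzx, (φ i).left_inv hi]
      exact hx
    · exact hRF z hz hzx
  have hsub : ball (φ i x) (3 * (R / 3)) ⊆ closedBall (φ i x) R := by
    rw [show 3 * (R / 3) = R by ring]
    exact ball_subset_closedBall
  have key := hSmp (fun z => f ((φ i).symm z)) (φ i x) (R / 3) S (by positivity)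
    (fun z hz => (g_cont hc i (hRt (hsub hz)) (hall z (hsub hz))).continuousWithinAt)
    (fun z hz => g_vsub hv i (hRt (hsub hz)) (hall z (hsub hz)))
    (fun z hz => hS _ (hall z (hsub hz)))
    (by simp only [(φ i).left_inv hi, hfx])
  have h1 : ∀ᶠ y in 𝓝 x, y ∈ (φ i).source := (φ i).open_source.mem_nhds hi
  have h2 : ∀ᶠ y in 𝓝 x, φ i y ∈ ball (φ i x) (R / 3) :=
    ((φ i).continuousAt hi) (ball_mem_nhds _ (by positivity))
  filter_upwards [h1, h2] with y hy1 hy2
  have := key _ hy2
  simpa only [(φ i).left_inv hy1] using this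

end

end MAXP

open MAXP in
theorem maxp_proof (hSmp : Stmt_Smp) (hRem : Stmt_Rem) : Stmt_MaxP.{u, v} := by
  intro X _ _ _ _ ι φ F C f B hcov hF hC hfC hf0 hfB hc hv x₀ hx₀
  by_contra hne
  have hpos : 0 < f x₀ := lt_of_le_of_ne (hf0 x₀) (Ne.symm hne)
  -- the supremum
  set A : Set ℝ := f '' Fᶜ with hA
  have hAne : A.Nonempty := ⟨f x₀, x₀, hx₀, rfl⟩
  have hAbd : BddAbove A := ⟨B, by rintro _ ⟨y, -, rfl⟩; exact hfB y⟩
  set S : ℝ := sSup A with hSdef
  have hS : ∀ x ∉ F, f x ≤ S := fun x hx => le_csSup hAbd ⟨x, hx, rfl⟩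
  have hS0 : 0 < S := hpos.trans_le (hS x₀ hx₀)
  -- a maximizing sequence
  have hseq : ∀ n : ℕ, ∃ x ∉ F, max (S - 1 / ((n : ℝ) + 1)) (S / 2) < f x := by
    intro n
    have hlt : max (S - 1 / ((n : ℝ) + 1)) (S / 2) < S := by
      apply max_lt
      · have : (0 : ℝ) < 1 / ((n : ℝ) + 1) := by positivity
        linarith
      · linarith
    obtain ⟨_, ⟨y, hy, rfl⟩, hlt'⟩ := exists_lt_of_lt_csSup hAne hlt
    exact ⟨y, hy, hlt'⟩
  choose x hxF hxS using hseq
  have hxC : ∀ n, x n ∈ C := by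
    intro n
    by_contra h
    have h1 := hxS n
    rw [hfC _ h] at h1
    have h2 := (le_max_right _ _).trans_lt h1
    linarith
  obtain ⟨p, hpC, hp⟩ := hC.exists_mapClusterPt (f := atTop) (u := x)
    (le_principal_iff.2 (Filter.mem_map.2 (Filter.Eventually.of_forall hxC)))
  -- values near `S` are frequent near `p`
  have hfreq : ∀ s < S, ∀ U ∈ 𝓝 p, ∃ n, x n ∈ U ∧ s < f (x n) := by
    intro s hs U hU
    have h1 : ∃ᶠ n in atTop, x n ∈ U := hp.frequently hU
    have h2 : ∀ᶠ n : ℕ in atTop, s < f (x n) := by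
      have h3 : Tendsto (fun n : ℕ => S - 1 / ((n : ℝ) + 1)) atTop (𝓝 (S - 0)) :=
        tendsto_const_nhds.sub tendsto_one_div_add_atTop_nhds_zero_nat
      rw [sub_zero] at h3
      filter_upwards [h3.eventually (lt_mem_nhds hs)] with n hn
      exact hn.trans ((le_max_left _ _).trans_lt (hxS n))
    obtain ⟨n, hn1, hn2⟩ := (h1.and_eventually h2).exists
    exact ⟨n, hn1, hn2⟩
  -- (1) the supremum is attained
  have hatt : ∃ y ∉ F, f y = S := by
    by_cases hpF : p ∈ F
    · obtain ⟨i, hi, R, hR, hRt, hRF⟩ := chart φ F hcov hF p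
      set a := φ i p with ha
      have hsph : ∀ z ∈ sphere a R, (φ i).symm z ∉ F := by
        intro z hz
        refine hRF z (sphere_subset_closedBall hz) ?_
        rintro rfl
        rw [mem_sphere, dist_self] at hz
        exact hR.ne hz
      obtain ⟨z, hz, hzmax⟩ := (isCompact_sphere a R).exists_isMaxOn
        (NormedSpace.sphere_nonempty.2 hR.le)
        (f := fun z => f ((φ i).symm z))
        (fun z hz => (g_cont hc i (hRt (sphere_subset_closedBall hz))
          (hsph z hz)).continuousWithinAt)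
      by_cases hzS : f ((φ i).symm z) = S
      · exact ⟨_, hsph z hz, hzS⟩
      · exfalso
        have hlt : f ((φ i).symm z) < S := lt_of_le_of_ne (hS _ (hsph z hz)) hzS
        have hrem := hRem (fun z => f ((φ i).symm z)) a R (f ((φ i).symm z)) B hR
          (fun w hw => (g_cont hc i (hRt hw.1) (hRF w hw.1 hw.2)).continuousWithinAt)
          (fun w hw hwa => g_vsub hv i (hRt (ball_subset_closedBall hw))
            (hRF w (ball_subset_closedBall hw) hwa))
          (fun w _ => hfB _)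
          (fun w hw => hzmax hw)
        have hU : (φ i).source ∩ (φ i) ⁻¹' (ball a R) ∈ 𝓝 p := by
          apply Filter.inter_mem ((φ i).open_source.mem_nhds hi)
          exact ((φ i).continuousAt hi) (ball_mem_nhds _ hR)
        obtain ⟨n, ⟨hn1, hn2⟩, hn3⟩ := hfreq _ hlt _ hU
        have hna : φ i (x n) ≠ a := by
          intro h
          apply hxF n
          have : x n = p := by
            rw [← (φ i).left_inv hn1, h, ha, (φ i).left_inv hi]
          rw [this]
          exact hpF
        have := hrem (φ i (x n)) (ball_subset_closedBall hn2) hna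
        simp only [(φ i).left_inv hn1] at this
        linarith
    · refine ⟨p, hpF, le_antisymm (hS p hpF) ?_⟩
      by_contra hlt
      push Not at hlt
      obtain ⟨s, hs1, hs2⟩ := exists_between hlt
      have hU : ∀ᶠ y in 𝓝 p, f y < s := (hc p hpF).eventually (gt_mem_nhds hs1)
      obtain ⟨n, hn1, hn2⟩ := hfreq s hs2 _ hU
      exact lt_asymm hn1 hn2
  -- (2) the set of points with a punctured neighbourhood in `{f = S}`
  set M' : Set X := {y | ∀ᶠ w in 𝓝[≠] y, f w = S} with hM'
  have hM1 : ∀ y ∉ F, f y = S → y ∈ M' := by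
    intro y hy hfy
    exact (open_max hSmp hcov hF hc hv S hS y hy hfy).filter_mono nhdsWithin_le_nhds
  have hopen : IsOpen M' := by
    rw [isOpen_iff_eventually]
    intro y hy
    rw [hM', mem_ofPred_eq, eventually_nhdsWithin_iff, ← eventually_eventually_nhds] at hy
    filter_upwards [hy] with w hw
    by_cases hwy : w = y
    · rw [hM', mem_ofPred_eq, eventually_nhdsWithin_iff, hwy]
      rw [hwy] at hw
      exact hw
    · rw [hM', mem_ofPred_eq]
      apply Filter.Eventually.filter_mono nhdsWithin_le_nhds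
      filter_upwards [hw, isOpen_ne.mem_nhds hwy] with t ht1 ht2
      exact ht1 ht2
  have hclosed : IsClosed M' := by
    rw [← closure_subset_iff_isClosed]
    intro y hy
    obtain ⟨i, hi, R, hR, hRt, hRF⟩ := chart φ F hcov hF y
    set a := φ i y with ha
    set P : Set X := (φ i).symm '' (ball a R \ {a}) with hP
    have hPsub : ball a R \ {a} ⊆ (φ i).target := fun z hz =>
      hRt (ball_subset_closedBall hz.1)
    have hPF : ∀ w ∈ P, w ∉ F := by
      rintro _ ⟨z, hz, rfl⟩
      exact hRF z (ball_subset_closedBall hz.1) hz.2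
    have hPo : IsOpen P :=
      (φ i).isOpen_image_symm_of_subset_target (isOpen_ball.sdiff isClosed_singleton) hPsub
    have hPc : IsPreconnected P :=
      (punctured a R).image _ ((φ i).continuousOn_symm.mono hPsub)
    have hPn : ∀ᶠ w in 𝓝[≠] y, w ∈ P := by
      rw [eventually_nhdsWithin_iff]
      have h1 : ∀ᶠ w in 𝓝 y, w ∈ (φ i).source := (φ i).open_source.mem_nhds hi
      have h2 : ∀ᶠ w in 𝓝 y, φ i w ∈ ball a R :=
        ((φ i).continuousAt hi) (ball_mem_nhds _ hR)
      filter_upwards [h1, h2] with w hw1 hw2 hne'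
      refine ⟨φ i w, ⟨hw2, ?_⟩, (φ i).left_inv hw1⟩
      intro hc'
      rw [mem_singleton_iff] at hc'
      apply hne'
      rw [mem_singleton_iff, ← (φ i).left_inv hw1, hc', ha, (φ i).left_inv hi]
    -- the two open sets
    set U : Set X := {w | ∀ᶠ t in 𝓝 w, f t = S} with hU
    have hUo : IsOpen U := by
      rw [isOpen_iff_eventually]
      intro w hw
      exact eventually_eventually_nhds.2 hw
    set V : Set X := {w | w ∉ F ∧ f w ≠ S} with hV
    have hVo : IsOpen V := by
      rw [isOpen_iff_eventually]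
      rintro w ⟨hw1, hw2⟩
      have h1 : ∀ᶠ t in 𝓝 w, t ∉ F := hF.isClosed.isOpen_compl.mem_nhds hw1
      have h2 : ∀ᶠ t in 𝓝 w, f t ≠ S := (hc w hw1).eventually_ne hw2
      filter_upwards [h1, h2] with t ht1 ht2 using ⟨ht1, ht2⟩
    have hcovP : P ⊆ U ∪ V := by
      intro w hw
      by_cases hfw : f w = S
      · left
        exact open_max hSmp hcov hF hc hv S hS w (hPF w hw) hfw
      · right
        exact ⟨hPF w hw, hfw⟩
    have hdisj : P ∩ (U ∩ V) = ∅ := by
      ext w
      simp only [mem_inter_iff, mem_empty_iff_false, iff_false, not_and]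
      intro _ hw1 hw2
      exact hw2.2 hw1.self_of_nhds
    -- `P` meets `U`
    have hmeet : (P ∩ U).Nonempty := by
      have hW : (φ i).source ∩ (φ i) ⁻¹' (ball a R) ∈ 𝓝 y := by
        apply Filter.inter_mem ((φ i).open_source.mem_nhds hi)
        exact ((φ i).continuousAt hi) (ball_mem_nhds _ hR)
      obtain ⟨w, ⟨hw1, hw2⟩, hw3⟩ := mem_closure_iff_nhds.1 hy _ hW
      by_cases hwy : w = y
      · -- `y` itself is in `M'`
        rw [hwy] at hw3
        have hne'' : (𝓝[≠] y).NeBot := ne_neBot (φ i) hi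
        obtain ⟨t, ht1, ht2⟩ := (hPn.and hw3).exists
        exact ⟨t, ht1, open_max hSmp hcov hF hc hv S hS t (hPF t ht1) ht2⟩
      · -- a point of `M'` different from `y`
        have hwP : w ∈ P := by
          refine ⟨φ i w, ⟨hw2, ?_⟩, (φ i).left_inv hw1⟩
          intro hc'
          rw [mem_singleton_iff] at hc'
          apply hwy
          rw [← (φ i).left_inv hw1, hc', ha, (φ i).left_inv hi]
        have hne'' : (𝓝[≠] w).NeBot := ne_neBot (φ i) hw1
        have hwP' : ∀ᶠ t in 𝓝[≠] w, t ∈ P :=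
          Filter.Eventually.filter_mono nhdsWithin_le_nhds (hPo.mem_nhds hwP)
        obtain ⟨t, ht1, ht2⟩ := (hwP'.and hw3).exists
        exact ⟨t, ht1, open_max hSmp hcov hF hc hv S hS t (hPF t ht1) ht2⟩
    have hPU : P ⊆ U := by
      rcases (isPreconnected_iff_subset_of_disjoint.1 hPc) U V hUo hVo hcovP hdisj with h | h
      · exact h
      · exfalso
        obtain ⟨t, ht1, ht2⟩ := hmeet
        have : t ∈ P ∩ (U ∩ V) := ⟨ht1, ht2, h ht1⟩
        rw [hdisj] at this
        exact this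
    rw [hM', mem_ofPred_eq]
    filter_upwards [hPn] with w hw
    exact (hPU hw).self_of_nhds
  have huniv : M' = univ := by
    apply IsClopen.eq_univ ⟨hclosed, hopen⟩
    obtain ⟨y, hy1, hy2⟩ := hatt
    exact ⟨y, hM1 y hy1 hy2⟩
  -- (3) a point outside of `C`
  have hCne : C ≠ univ := by
    intro h
    rw [h] at hC
    exact noncompact_univ X hC
  obtain ⟨y, hy⟩ := (ne_univ_iff_exists_notMem C).1 hCne
  have hyM : y ∈ M' := by rw [huniv]; exact mem_univ y
  obtain ⟨i, hi⟩ := hcov y
  have hne'' : (𝓝[≠] y).NeBot := ne_neBot (φ i) hi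
  have hyC : ∀ᶠ t in 𝓝[≠] y, t ∉ C :=
    Filter.Eventually.filter_mono nhdsWithin_le_nhds (hC.isClosed.isOpen_compl.mem_nhds hy)
  obtain ⟨t, ht1, ht2⟩ := (hyC.and hyM).exists
  rw [hfC t ht1] at ht2
  exact hS0.ne ht2

end Pool.Agent.HSC
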