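import Pool.Agent.HSC.Stmts

/-!
# Module POIS: the Dirichlet problem for the inhomogeneous equation on the unit disc
-/

set_option autoImplicit false

open scoped Matrix.Norms.Frobenius ContDiff Topology Manifold ComplexOrder ComplexConjugate
open Matrix Set Filter MeasureTheory Metric

noncomputable section

namespace Pool.Agent.HSC.POIS

/-! ### the kernel `1 / |w - z|` -/

theorem integrableOn_inv_norm (R : ℝ) : IntegrableOn (fun w : ℂ => ‖w‖⁻¹) (ball 0 R) volume := by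
  have h := (integrableOn_fun_norm_addHaar (volume : Measure ℂ) (f := fun t : ℝ => t⁻¹)
    (r := R)).2
  apply h
  rw [Complex.finrank_real_complex]
  have h1 : IntegrableOn (fun _ : ℝ => (1 : ℝ)) (Ioo 0 R) volume := by
    apply integrableOn_const (by simp)
  refine h1.congr_fun ?_ measurableSet_Ioo
  intro t ht
  have : t ≠ 0 := ne_of_gt ht.1
  simp [this]

theorem integrableOn_inv_norm_sub (z : ℂ) (R : ℝ) :
    IntegrableOn (fun w : ℂ => ‖w - z‖⁻¹) (ball z R) volume := by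
  have h := integrableOn_inv_norm R
  rw [← integrable_indicator_iff measurableSet_ball] at h ⊢
  have h2 := h.comp_sub_right z
  refine h2.congr (Eventually.of_forall fun w => ?_)
  simp only [indicator]
  have : w - z ∈ ball (0 : ℂ) R ↔ w ∈ ball z R := by
    simp [dist_eq_norm]
  by_cases hw : w ∈ ball z R
  · rw [if_pos hw, if_pos (this.2 hw)]
  · rw [if_neg hw, if_neg (fun h => hw (this.1 h))]

theorem integral_inv_norm_sub (z : ℂ) (R : ℝ) :
    ∫ w in ball z R, ‖w - z‖⁻¹ = ∫ w in ball (0 : ℂ) R, ‖w‖⁻¹ := by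
  rw [← integral_indicator measurableSet_ball, ← integral_indicator measurableSet_ball]
  rw [← integral_sub_right_eq_self ((ball (0 : ℂ) R).indicator fun w : ℂ => ‖w‖⁻¹) z]
  congr 1
  funext w
  simp only [indicator]
  have : w - z ∈ ball (0 : ℂ) R ↔ w ∈ ball z R := by
    simp [dist_eq_norm]
  by_cases hw : w ∈ ball z R
  · rw [if_pos hw, if_pos (this.2 hw)]
  · rw [if_neg hw, if_neg (fun h => hw (this.1 h))]

/-- the constant -/
def C0 : ℝ := ∫ w in ball (0 : ℂ) 2, ‖w‖⁻¹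

theorem C0_nonneg : 0 ≤ C0 := integral_nonneg fun _ => by positivity

theorem ball_sub {z : ℂ} (hz : z ∈ ball (0 : ℂ) 1) : ball (0 : ℂ) 1 ⊆ ball z 2 := by
  intro w hw
  rw [mem_ball, dist_eq_norm] at *
  rw [sub_zero] at *
  calc ‖w - z‖ ≤ ‖w‖ + ‖z‖ := norm_sub_le _ _
    _ < 2 := by linarith

theorem kern_int {z : ℂ} (hz : z ∈ ball (0 : ℂ) 1) :
    IntegrableOn (fun w : ℂ => ‖w - z‖⁻¹) (ball 0 1) volume :=
  (integrableOn_inv_norm_sub z 2).mono_set (ball_sub hz)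

theorem kern_le {z : ℂ} (hz : z ∈ ball (0 : ℂ) 1) :
    ∫ w in ball (0 : ℂ) 1, ‖w - z‖⁻¹ ≤ C0 := by
  rw [C0, ← integral_inv_norm_sub z 2]
  apply setIntegral_mono_set (integrableOn_inv_norm_sub z 2)
  · exact Eventually.of_forall fun w => by positivity
  · exact (ball_sub hz).eventuallyLE

/-! ### elementary inequalities -/

theorem id1 (w z : ℂ) : ‖1 - conj w * z‖ ^ 2 - ‖w - z‖ ^ 2 = (1 - ‖z‖ ^ 2) * (1 - ‖w‖ ^ 2) := by
  rw [← Complex.normSq_eq_norm_sq, ← Complex.normSq_eq_norm_sq, ← Complex.normSq_eq_norm_sq,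
    ← Complex.normSq_eq_norm_sq]
  simp only [Complex.normSq_apply, Complex.sub_re, Complex.sub_im, Complex.mul_re, Complex.mul_im,
    Complex.conj_re, Complex.conj_im, Complex.one_re, Complex.one_im]
  ring

theorem le1 {w z : ℂ} (hw : ‖w‖ < 1) (hz : ‖z‖ < 1) : ‖w - z‖ ≤ ‖1 - conj w * z‖ := by
  have h := id1 w z
  have h1 : 0 ≤ 1 - ‖z‖ ^ 2 := by nlinarith [norm_nonneg z]
  have h2 : 0 ≤ 1 - ‖w‖ ^ 2 := by nlinarith [norm_nonneg w]
  have h3 := mul_nonneg h1 h2
  apply le_of_sq_le_sq _ (norm_nonneg _)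
  linarith

theorem pos1 {w z : ℂ} (hw : ‖w‖ ≤ 1) : 1 - ‖z‖ ≤ ‖1 - conj w * z‖ := by
  have h := norm_sub_norm_le (1 : ℂ) (conj w * z)
  rw [norm_one, norm_mul, RCLike.norm_conj] at h
  nlinarith [norm_nonneg z, norm_nonneg w]

theorem log_bound {w z : ℂ} (hw : ‖w‖ < 1) (hz : ‖z‖ < 1) (hne : w ≠ z) :
    |Real.log (‖z - w‖ ^ 2) - Real.log (‖1 - conj w * z‖ ^ 2)| ≤
      4 * Real.sqrt (1 - ‖z‖) * ‖w - z‖⁻¹ := by
  have hp : 0 < ‖w - z‖ := norm_pos_iff.2 (sub_ne_zero.2 hne)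
  have hq : 0 < ‖1 - conj w * z‖ := lt_of_lt_of_le hp (le1 hw hz)
  rw [norm_sub_rev z w]
  have h1 : Real.log (‖w - z‖ ^ 2) ≤ Real.log (‖1 - conj w * z‖ ^ 2) :=
    Real.log_le_log (by positivity) (pow_le_pow_left₀ hp.le (le1 hw hz) 2)
  rw [abs_sub_comm, abs_of_nonneg (by linarith), ← Real.log_div (by positivity) (by positivity)]
  have hs0 : 0 ≤ 1 - ‖z‖ := by linarith
  set s := Real.sqrt (1 - ‖z‖) with hs
  have hss : s ^ 2 = 1 - ‖z‖ := Real.sq_sqrt hs0
  have hsn : 0 ≤ s := Real.sqrt_nonneg _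
  set t := s * ‖w - z‖⁻¹ with ht
  have htn : 0 ≤ t := by positivity
  have h2 : ‖1 - conj w * z‖ ^ 2 / ‖w - z‖ ^ 2 ≤ (1 + 2 * t) ^ 2 := by
    have h3 := id1 w z
    have h4 : ‖1 - conj w * z‖ ^ 2 / ‖w - z‖ ^ 2 =
        1 + (1 - ‖z‖ ^ 2) * (1 - ‖w‖ ^ 2) * (‖w - z‖⁻¹) ^ 2 := by
      rw [← h3]; field_simp; ring
    rw [h4]
    have h5 : (1 - ‖z‖ ^ 2) * (1 - ‖w‖ ^ 2) ≤ 2 * s ^ 2 := by
      rw [hss]
      have a1 : 1 - ‖z‖ ^ 2 ≤ 2 * (1 - ‖z‖) := by nlinarith [norm_nonneg z]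
      have a2 : 1 - ‖w‖ ^ 2 ≤ 1 := by nlinarith [norm_nonneg w]
      have a3 : 0 ≤ 1 - ‖w‖ ^ 2 := by nlinarith [norm_nonneg w]
      have a4 : 0 ≤ 1 - ‖z‖ ^ 2 := by nlinarith [norm_nonneg z]
      nlinarith
    have h6 : (1 - ‖z‖ ^ 2) * (1 - ‖w‖ ^ 2) * (‖w - z‖⁻¹) ^ 2 ≤ 2 * t ^ 2 := by
      rw [ht, mul_pow, ← mul_assoc]
      exact mul_le_mul_of_nonneg_right h5 (by positivity)
    nlinarith
  calc Real.log (‖1 - conj w * z‖ ^ 2 / ‖w - z‖ ^ 2) ≤ Real.log ((1 + 2 * t) ^ 2) :=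
        Real.log_le_log (by positivity) h2
    _ = 2 * Real.log (1 + 2 * t) := by rw [Real.log_pow]; norm_num
    _ ≤ 2 * (2 * t) := by
        have := Real.log_le_sub_one_of_pos (show (0 : ℝ) < 1 + 2 * t by positivity)
        linarith
    _ = 4 * s * ‖w - z‖⁻¹ := by rw [ht]; ring

/-! ### the holomorphic part -/

theorem slit {w z : ℂ} (hw : ‖w‖ ≤ 1) (hz : ‖z‖ < 1) : 1 - conj w * z ∈ Complex.slitPlane := by
  left
  have h1 : (conj w * z).re ≤ ‖conj w * z‖ := Complex.re_le_norm _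
  rw [norm_mul, RCLike.norm_conj] at h1
  rw [Complex.sub_re, Complex.one_re]
  nlinarith [norm_nonneg z, norm_nonneg w]

theorem ne1 {w z : ℂ} (hw : ‖w‖ ≤ 1) (hz : ‖z‖ < 1) : 1 - conj w * z ≠ 0 :=
  Complex.slitPlane_ne_zero (slit hw hz)

section gen

variable {E : Type*} [NormedAddCommGroup E] [NormedSpace ℂ E] [CompleteSpace E]

/-- the holomorphic part of the potential -/
def H1 (G : ℂ → E) (z : ℂ) : E :=
  ∫ w in ball (0 : ℂ) 1, Complex.log (1 - conj w * z) • G w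

theorem cont_log {z : ℂ} (hz : ‖z‖ < 1) :
    ContinuousOn (fun w : ℂ => Complex.log (1 - conj w * z)) (closedBall 0 1) := by
  apply ContinuousOn.clog
  · exact (continuous_const.sub (Complex.continuous_conj.mul continuous_const)).continuousOn
  · intro w hw
    rw [mem_closedBall, dist_eq_norm, sub_zero] at hw
    exact slit hw hz

theorem cont_inv {z : ℂ} (hz : ‖z‖ < 1) :
    ContinuousOn (fun w : ℂ => -conj w / (1 - conj w * z)) (closedBall 0 1) := by
  apply ContinuousOn.div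
  · exact Complex.continuous_conj.neg.continuousOn
  · exact (continuous_const.sub (Complex.continuous_conj.mul continuous_const)).continuousOn
  · intro w hw
    rw [mem_closedBall, dist_eq_norm, sub_zero] at hw
    exact ne1 hw hz

omit [CompleteSpace E] in
theorem int_of_cont {c : ℂ → ℂ} (hc : ContinuousOn c (closedBall 0 1)) {G : ℂ → E} {m : ℝ}
    (hG : ContinuousOn G (ball 0 1)) (hm : ∀ z ∈ ball (0 : ℂ) 1, ‖G z‖ ≤ m) :
    IntegrableOn (fun w => c w • G w) (ball 0 1) volume := by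
  obtain ⟨B, hB⟩ := (isCompact_closedBall (0 : ℂ) 1).exists_bound_of_continuousOn hc
  have hcG : ContinuousOn (fun w => c w • G w) (ball 0 1) :=
    (hc.mono ball_subset_closedBall).smul hG
  refine Integrable.mono' (g := fun _ => B * m) (integrableOn_const (C := B * m)
      measure_ball_lt_top.ne : IntegrableOn (fun _ : ℂ => B * m) (ball (0 : ℂ) 1) volume)
    (hcG.aestronglyMeasurable measurableSet_ball) ?_
  filter_upwards [ae_restrict_mem measurableSet_ball] with w hw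
  rw [norm_smul]
  have h1 := hB w (ball_subset_closedBall hw)
  exact mul_le_mul h1 (hm w hw) (norm_nonneg _) ((norm_nonneg _).trans h1)

omit [CompleteSpace E] in
theorem H1_hasDerivAt {G : ℂ → E} {m : ℝ}
    (hG : ContinuousOn G (ball 0 1)) (hm : ∀ z ∈ ball (0 : ℂ) 1, ‖G z‖ ≤ m) {z : ℂ}
    (hz : z ∈ ball (0 : ℂ) 1) :
    HasDerivAt (H1 G) (∫ w in ball (0 : ℂ) 1, (-conj w / (1 - conj w * z)) • G w) z := by
  have hz' : ‖z‖ < 1 := by simpa using hz
  set ε : ℝ := (1 - ‖z‖) / 2 with hε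
  have hεp : 0 < ε := by rw [hε]; linarith
  have hball : ∀ y ∈ ball z ε, ‖y‖ < 1 ∧ ε ≤ 1 - ‖y‖ := by
    intro y hy
    rw [mem_ball, dist_eq_norm] at hy
    have h1 : ‖y‖ ≤ ‖y - z‖ + ‖z‖ := by
      calc ‖y‖ = ‖(y - z) + z‖ := by rw [sub_add_cancel]
        _ ≤ _ := norm_add_le _ _
    constructor
    · rw [hε] at hy; linarith
    · rw [hε] at hy ⊢; linarith
  have h0 : 0 ≤ m := (norm_nonneg _).trans (hm 0 (by simp))
  refine (hasDerivAt_integral_of_dominated_loc_of_deriv_le (μ := volume.restrict (ball (0 : ℂ) 1))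
    (F := fun z w => Complex.log (1 - conj w * z) • G w)
    (F' := fun z w => (-conj w / (1 - conj w * z)) • G w) (bound := fun _ => ε⁻¹ * m)
    (ball_mem_nhds z hεp) ?_ ?_ ?_ ?_ ?_ ?_).2
  · filter_upwards [ball_mem_nhds z hεp] with y hy
    exact (int_of_cont (cont_log (hball y hy).1) hG hm).aestronglyMeasurable
  · exact int_of_cont (cont_log hz') hG hm
  · exact (int_of_cont (cont_inv hz') hG hm).aestronglyMeasurable
  · filter_upwards [ae_restrict_mem measurableSet_ball] with w hw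
    intro y hy
    have hw' : ‖w‖ < 1 := by simpa using hw
    rw [norm_smul, norm_div, norm_neg, RCLike.norm_conj]
    have h1 : ε ≤ ‖1 - conj w * y‖ := (hball y hy).2.trans (pos1 hw'.le)
    have h2 : ‖w‖ / ‖1 - conj w * y‖ ≤ ε⁻¹ := by
      rw [div_le_iff₀ (hεp.trans_le h1)]
      have : 1 ≤ ε⁻¹ * ‖1 - conj w * y‖ := by
        rw [← div_eq_inv_mul, one_le_div₀ hεp]; exact h1
      linarith
    exact mul_le_mul h2 (hm w hw) (norm_nonneg _) (by positivity)
  · exact (integrableOn_const (C := ε⁻¹ * m) measure_ball_lt_top.ne :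
      IntegrableOn (fun _ : ℂ => ε⁻¹ * m) (ball (0 : ℂ) 1) volume)
  · filter_upwards [ae_restrict_mem measurableSet_ball] with w hw
    intro y hy
    have hw' : ‖w‖ < 1 := by simpa using hw
    have h1 : HasDerivAt (fun y : ℂ => 1 - conj w * y) (- conj w) y := by
      simpa using ((hasDerivAt_id y).const_mul (conj w)).const_sub 1
    exact (h1.clog (slit hw'.le (hball y hy).1)).smul_const (G w)

theorem H1_diff {G : ℂ → E} {m : ℝ}
    (hG : ContinuousOn G (ball 0 1)) (hm : ∀ z ∈ ball (0 : ℂ) 1, ‖G z‖ ≤ m) :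
    DifferentiableOn ℂ (H1 G) (ball 0 1) := fun _ hz =>
  (H1_hasDerivAt hG hm hz).differentiableAt.differentiableWithinAt

theorem deriv_H1 {G : ℂ → E} {m : ℝ}
    (hG : ContinuousOn G (ball 0 1)) (hm : ∀ z ∈ ball (0 : ℂ) 1, ‖G z‖ ≤ m) {z : ℂ}
    (hz : z ∈ ball (0 : ℂ) 1) :
    deriv (H1 G) z = ∫ w in ball (0 : ℂ) 1, (-conj w / (1 - conj w * z)) • G w :=
  (H1_hasDerivAt hG hm hz).deriv

theorem ae_ne_pt (z : ℂ) : ∀ᵐ w ∂(volume.restrict (ball (0 : ℂ) 1)), w ≠ z := by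
  apply ae_restrict_of_ae
  rw [ae_iff]
  simp

theorem norm_deriv_H1_le {G : ℂ → E} {m : ℝ}
    (hG : ContinuousOn G (ball 0 1)) (hm : ∀ z ∈ ball (0 : ℂ) 1, ‖G z‖ ≤ m) {z : ℂ}
    (hz : z ∈ ball (0 : ℂ) 1) : ‖deriv (H1 G) z‖ ≤ C0 * m := by
  rw [deriv_H1 hG hm hz]
  have hz' : ‖z‖ < 1 := by simpa using hz
  have h0 : 0 ≤ m := (norm_nonneg _).trans (hm 0 (by simp))
  calc ‖∫ w in ball (0 : ℂ) 1, (-conj w / (1 - conj w * z)) • G w‖
      ≤ ∫ w in ball (0 : ℂ) 1, ‖w - z‖⁻¹ * m := by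
        apply norm_integral_le_of_norm_le ((kern_int hz).mul_const m)
        filter_upwards [ae_restrict_mem measurableSet_ball, ae_ne_pt z] with w hw hne
        have hw' : ‖w‖ < 1 := by simpa using hw
        rw [norm_smul, norm_div, norm_neg, RCLike.norm_conj]
        have hp : 0 < ‖w - z‖ := norm_pos_iff.2 (sub_ne_zero.2 hne)
        have h1 := le1 hw' hz'
        apply mul_le_mul _ (hm w hw) (norm_nonneg _) (by positivity)
        rw [div_le_iff₀ (hp.trans_le h1)]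
        have : 1 ≤ ‖w - z‖⁻¹ * ‖1 - conj w * z‖ := by
          rw [← div_eq_inv_mul, one_le_div₀ hp]; exact h1
        linarith
    _ = (∫ w in ball (0 : ℂ) 1, ‖w - z‖⁻¹) * m := integral_mul_const _ _
    _ ≤ C0 * m := mul_le_mul_of_nonneg_right (kern_le hz) h0

/-- the kernel -/
def ker (z w : ℂ) : ℝ := Real.log (‖z - w‖ ^ 2) - Real.log (‖1 - conj w * z‖ ^ 2)

theorem measurable_ker (z : ℂ) : Measurable (ker z) := by
  unfold ker
  apply Measurable.sub
  · exact Real.measurable_log.comp ((continuous_const.sub continuous_id).norm.pow 2).measurable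
  · exact Real.measurable_log.comp ((continuous_const.sub
      (Complex.continuous_conj.mul continuous_const)).norm.pow 2).measurable

omit [CompleteSpace E] in
theorem ker_bound {f : ℂ → E} {m : ℝ} (hm : ∀ z ∈ ball (0 : ℂ) 1, ‖f z‖ ≤ m) {z : ℂ}
    (hz : z ∈ ball (0 : ℂ) 1) :
    ∀ᵐ w ∂(volume.restrict (ball (0 : ℂ) 1)), ‖((ker z w : ℝ) : ℂ) • f w‖ ≤
      ‖w - z‖⁻¹ * (4 * Real.sqrt (1 - ‖z‖) * m) := by
  have hz' : ‖z‖ < 1 := by simpa using hz
  filter_upwards [ae_restrict_mem measurableSet_ball, ae_ne_pt z] with w hw hne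
  have hw' : ‖w‖ < 1 := by simpa using hw
  rw [norm_smul, Complex.norm_real, Real.norm_eq_abs]
  have h1 := log_bound hw' hz' hne
  calc |ker z w| * ‖f w‖ ≤ (4 * Real.sqrt (1 - ‖z‖) * ‖w - z‖⁻¹) * m :=
        mul_le_mul h1 (hm w hw) (norm_nonneg _) (by positivity)
    _ = _ := by ring

omit [CompleteSpace E] in
theorem ker_int {f : ℂ → E} {m : ℝ} (hf : ContinuousOn f (ball 0 1))
    (hm : ∀ z ∈ ball (0 : ℂ) 1, ‖f z‖ ≤ m) {z : ℂ} (hz : z ∈ ball (0 : ℂ) 1) :
    IntegrableOn (fun w => ((ker z w : ℝ) : ℂ) • f w) (ball 0 1) volume := by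
  have h1 : AEStronglyMeasurable (fun w => ((ker z w : ℝ) : ℂ)) (volume.restrict (ball (0 : ℂ) 1)) :=
    (Complex.measurable_ofReal.comp (measurable_ker z)).aestronglyMeasurable
  exact Integrable.mono' ((kern_int hz).mul_const (4 * Real.sqrt (1 - ‖z‖) * m))
    (h1.smul (hf.aestronglyMeasurable measurableSet_ball)) (ker_bound hm hz)

/-- the solution operator -/
def S (f : ℂ → E) (z : ℂ) : E :=
  ((1 / Real.pi : ℝ) : ℂ) • ∫ w in ball (0 : ℂ) 1, ((ker z w : ℝ) : ℂ) • f w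

theorem norm_pi_inv : ‖((1 / Real.pi : ℝ) : ℂ)‖ ≤ 1 := by
  rw [Complex.norm_real, Real.norm_eq_abs, abs_of_pos (by positivity)]
  rw [div_le_one Real.pi_pos]
  linarith [Real.pi_gt_three]

omit [CompleteSpace E] in
theorem norm_S_le {f : ℂ → E} {m : ℝ} (hf : ContinuousOn f (ball 0 1))
    (hm : ∀ z ∈ ball (0 : ℂ) 1, ‖f z‖ ≤ m) {z : ℂ} (hz : z ∈ ball (0 : ℂ) 1) :
    ‖S f z‖ ≤ 4 * C0 * m * Real.sqrt (1 - ‖z‖) := by
  have h0 : 0 ≤ m := (norm_nonneg _).trans (hm 0 (by simp))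
  rw [S, norm_smul]
  have h1 : ‖∫ w in ball (0 : ℂ) 1, ((ker z w : ℝ) : ℂ) • f w‖ ≤
      ∫ w in ball (0 : ℂ) 1, ‖w - z‖⁻¹ * (4 * Real.sqrt (1 - ‖z‖) * m) :=
    norm_integral_le_of_norm_le ((kern_int hz).mul_const _) (ker_bound hm hz)
  rw [integral_mul_const] at h1
  have h2 : (∫ w in ball (0 : ℂ) 1, ‖w - z‖⁻¹) * (4 * Real.sqrt (1 - ‖z‖) * m) ≤
      C0 * (4 * Real.sqrt (1 - ‖z‖) * m) :=
    mul_le_mul_of_nonneg_right (kern_le hz) (by positivity)
  calc _ ≤ 1 * (C0 * (4 * Real.sqrt (1 - ‖z‖) * m)) :=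
        mul_le_mul norm_pi_inv (h1.trans h2) (norm_nonneg _) zero_le_one
    _ = _ := by ring

omit [CompleteSpace E] in
theorem S_sub {f g : ℂ → E} {m : ℝ} (hf : ContinuousOn f (ball 0 1))
    (hg : ContinuousOn g (ball 0 1))
    (hm : ∀ z ∈ ball (0 : ℂ) 1, ‖f z‖ ≤ m) (hm' : ∀ z ∈ ball (0 : ℂ) 1, ‖g z‖ ≤ m) {z : ℂ}
    (hz : z ∈ ball (0 : ℂ) 1) : S (fun w => f w - g w) z = S f z - S g z := by
  unfold S
  rw [← smul_sub, ← integral_sub (ker_int hf hm hz) (ker_int hg hm' hz)]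
  simp only [smul_sub]

theorem log_sq (ζ : ℂ) : ((Real.log (‖ζ‖ ^ 2) : ℝ) : ℂ) = Complex.log ζ + conj (Complex.log ζ) := by
  rw [Complex.add_conj, Complex.log_re, Real.log_pow]
  push_cast
  rfl

end gen

section star

variable {E : Type*} [NormedAddCommGroup E] [NormedSpace ℂ E] [CompleteSpace E] [StarAddMonoid E]
  [NormedStarGroup E] [StarModule ℂ E]

omit [CompleteSpace E] in
theorem star_integral (μ : Measure ℂ) (F : ℂ → E) : star (∫ w, F w ∂μ) = ∫ w, star (F w) ∂μ :=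
  (((starL' ℝ : E ≃L[ℝ] E)).integral_comp_comm F).symm

omit [CompleteSpace E] in
theorem S_star {f : ℂ → E} (hf : ∀ z ∈ ball (0 : ℂ) 1, star (f z) = f z) (z : ℂ) :
    star (S f z) = S f z := by
  unfold S
  rw [star_smul, star_integral]
  congr 1
  · exact Complex.conj_ofReal _
  · apply setIntegral_congr_fun measurableSet_ball
    intro w hw
    simp only [star_smul, hf w hw]
    congr 1
    exact Complex.conj_ofReal _

omit [CompleteSpace E] in
/-- decomposition of the potential -/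
theorem S_eq {f : ℂ → E} {m : ℝ} (hf : ContinuousOn f (ball 0 1))
    (hm : ∀ z ∈ ball (0 : ℂ) 1, ‖f z‖ ≤ m) {z : ℂ} (hz : z ∈ ball (0 : ℂ) 1) :
    S f z = ((1 / Real.pi : ℝ) : ℂ) • (∫ w, ((Real.log (‖z - w‖ ^ 2) : ℝ) : ℂ) •
      (ball (0 : ℂ) 1).indicator f w) -
      ((1 / Real.pi : ℝ) : ℂ) • (H1 f z + star (H1 (fun w => star (f w)) z)) := by
  have hz' : ‖z‖ < 1 := by simpa using hz
  have hfs : ContinuousOn (fun w => star (f w)) (ball 0 1) := hf.star
  have hms : ∀ z ∈ ball (0 : ℂ) 1, ‖star (f z)‖ ≤ m := fun z hz => by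
    rw [norm_star]; exact hm z hz
  have i1 := int_of_cont (cont_log hz') hf hm
  have i2 := int_of_cont (cont_log hz') hfs hms
  have i3 : IntegrableOn (fun w => conj (Complex.log (1 - conj w * z)) • f w) (ball 0 1) volume :=
    int_of_cont (Complex.continuous_conj.comp_continuousOn (cont_log hz')) hf hm
  have e1 : star (H1 (fun w => star (f w)) z) =
      ∫ w in ball (0 : ℂ) 1, conj (Complex.log (1 - conj w * z)) • f w := by
    unfold H1
    rw [star_integral]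
    simp only [star_smul, star_star]
    rfl
  have e2 : H1 f z + star (H1 (fun w => star (f w)) z) =
      ∫ w in ball (0 : ℂ) 1, ((Real.log (‖1 - conj w * z‖ ^ 2) : ℝ) : ℂ) • f w := by
    rw [e1, H1, ← integral_add i1 i3]
    apply setIntegral_congr_fun measurableSet_ball
    intro w hw
    simp only [log_sq, add_smul]
  have i4 : IntegrableOn (fun w => ((Real.log (‖1 - conj w * z‖ ^ 2) : ℝ) : ℂ) • f w)
      (ball 0 1) volume := by
    refine (i1.add i3).congr_fun ?_ measurableSet_ball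
    intro w hw
    simp only [log_sq, add_smul]
    rfl
  have e3 : (fun w => ((Real.log (‖z - w‖ ^ 2) : ℝ) : ℂ) • (ball (0 : ℂ) 1).indicator f w) =
      (ball (0 : ℂ) 1).indicator (fun w => ((Real.log (‖z - w‖ ^ 2) : ℝ) : ℂ) • f w) := by
    funext w
    by_cases hw : w ∈ ball (0 : ℂ) 1
    · rw [indicator_of_mem hw, indicator_of_mem hw]
    · rw [indicator_of_notMem hw, indicator_of_notMem hw, smul_zero]
  have e4 : ∫ w in ball (0 : ℂ) 1, ((Real.log (‖z - w‖ ^ 2) : ℝ) : ℂ) • f w =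
      (∫ w in ball (0 : ℂ) 1, ((ker z w : ℝ) : ℂ) • f w) +
      ∫ w in ball (0 : ℂ) 1, ((Real.log (‖1 - conj w * z‖ ^ 2) : ℝ) : ℂ) • f w := by
    rw [← integral_add (ker_int hf hm hz) i4]
    apply setIntegral_congr_fun measurableSet_ball
    intro w hw
    simp only [ker, ← add_smul]
    congr 1
    push_cast
    ring
  rw [e2, e3, integral_indicator measurableSet_ball, e4, smul_add, S]
  abel

theorem P_contDiffOn {f : ℂ → E} {m : ℝ} (hf : ContinuousOn f (ball 0 1))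
    (hm : ∀ z ∈ ball (0 : ℂ) 1, ‖f z‖ ≤ m) :
    ContDiffOn ℝ 1 (fun z => ((1 / Real.pi : ℝ) : ℂ) •
      (H1 f z + star (H1 (fun w => star (f w)) z))) (ball 0 1) := by
  have hfs : ContinuousOn (fun w => star (f w)) (ball 0 1) := hf.star
  have hms : ∀ z ∈ ball (0 : ℂ) 1, ‖star (f z)‖ ≤ m := fun z hz => by
    rw [norm_star]; exact hm z hz
  have h1 : ContDiffOn ℂ 1 (H1 f) (ball 0 1) := (H1_diff hf hm).contDiffOn isOpen_ball
  have h2 : ContDiffOn ℂ 1 (H1 (fun w => star (f w))) (ball 0 1) :=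
    (H1_diff hfs hms).contDiffOn isOpen_ball
  have h3 : ContDiffOn ℝ 1 (fun z => star (H1 (fun w => star (f w)) z)) (ball 0 1) :=
    ((starL' ℝ : E ≃L[ℝ] E) : E →L[ℝ] E).contDiff.comp_contDiffOn (h2.restrict_scalars ℝ)
  exact ((h1.restrict_scalars ℝ).add h3).const_smul _

theorem dz_P {f : ℂ → E} {m : ℝ} (hf : ContinuousOn f (ball 0 1))
    (hm : ∀ z ∈ ball (0 : ℂ) 1, ‖f z‖ ≤ m) {z : ℂ} (hz : z ∈ ball (0 : ℂ) 1) :
    dz (fun z => ((1 / Real.pi : ℝ) : ℂ) • (H1 f z + star (H1 (fun w => star (f w)) z))) z =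
      ((1 / Real.pi : ℝ) : ℂ) • deriv (H1 f) z := by
  have hfs : ContinuousOn (fun w => star (f w)) (ball 0 1) := hf.star
  have hms : ∀ z ∈ ball (0 : ℂ) 1, ‖star (f z)‖ ≤ m := fun z hz => by
    rw [norm_star]; exact hm z hz
  have h1 : DifferentiableAt ℂ (H1 f) z := (H1_diff hf hm).differentiableAt
    (isOpen_ball.mem_nhds hz)
  have h2 : DifferentiableAt ℂ (H1 (fun w => star (f w))) z := (H1_diff hfs hms).differentiableAt
    (isOpen_ball.mem_nhds hz)
  have h1' : DifferentiableAt ℝ (H1 f) z := h1.restrictScalars ℝ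
  have h2' : DifferentiableAt ℝ (H1 (fun w => star (f w))) z := h2.restrictScalars ℝ
  have h3 : DifferentiableAt ℝ (fun w => star (H1 (fun w => star (f w)) w)) z := h2'.star
  have h4 : DifferentiableAt ℝ (fun w => H1 f w + star (H1 (fun w => star (f w)) w)) z :=
    h1'.add h3
  rw [dz_const_smul _ h4, dz_add h1' h3, dz_star h2', dz_holo h1, db_holo h2, star_zero,
    add_zero]

/-- the derivative of the solution operator -/
theorem dz_S {f : ℂ → E} {m : ℝ} (hf : ContinuousOn f (ball 0 1))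
    (hm : ∀ z ∈ ball (0 : ℂ) 1, ‖f z‖ ≤ m)
    (hU : ContDiff ℝ 1 (fun z => ((1 / Real.pi : ℝ) : ℂ) • ∫ w,
      ((Real.log (‖z - w‖ ^ 2) : ℝ) : ℂ) • (ball (0 : ℂ) 1).indicator f w))
    (hU2 : ∀ z, dz (fun z => ((1 / Real.pi : ℝ) : ℂ) • ∫ w,
      ((Real.log (‖z - w‖ ^ 2) : ℝ) : ℂ) • (ball (0 : ℂ) 1).indicator f w) z =
      CT ((ball (0 : ℂ) 1).indicator f) z) :
    ContDiffOn ℝ 1 (S f) (ball 0 1) ∧ ∀ z ∈ ball (0 : ℂ) 1,
      dz (S f) z = CT ((ball (0 : ℂ) 1).indicator f) z -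
        ((1 / Real.pi : ℝ) : ℂ) • deriv (H1 f) z := by
  have hP := P_contDiffOn hf hm
  constructor
  · exact (hU.contDiffOn.sub hP).congr fun z hz => S_eq hf hm hz
  · intro z hz
    rw [← hU2 z, ← dz_P hf hm hz]
    have e : S f =ᶠ[𝓝 z] fun z => (((1 / Real.pi : ℝ) : ℂ) • (∫ w,
        ((Real.log (‖z - w‖ ^ 2) : ℝ) : ℂ) • (ball (0 : ℂ) 1).indicator f w)) -
        ((1 / Real.pi : ℝ) : ℂ) • (H1 f z + star (H1 (fun w => star (f w)) z)) := by
      filter_upwards [isOpen_ball.mem_nhds hz] with w hw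
      exact S_eq hf hm hw
    rw [dz_congr e]
    exact dz_sub ((hU.differentiable one_ne_zero) z)
      ((hP.contDiffAt (isOpen_ball.mem_nhds hz)).differentiableAt one_ne_zero)

end star

section weak

variable {E : Type*} [NormedAddCommGroup E] [NormedSpace ℂ E] [CompleteSpace E]

omit [CompleteSpace E] in
theorem ext_meas {f : ℂ → E} (hf : ContinuousOn f (ball 0 1)) :
    AEStronglyMeasurable ((ball (0 : ℂ) 1).indicator f) volume :=
  (aestronglyMeasurable_indicator_iff measurableSet_ball).2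
    (hf.aestronglyMeasurable measurableSet_ball)

omit [CompleteSpace E] in
theorem cont_of_hoelder {A : ℂ → E} {K : ℝ}
    (h : ∀ z z', ‖A z - A z'‖ ≤ K * Real.sqrt ‖z - z'‖) : Continuous A := by
  rw [continuous_iff_continuousAt]
  intro z
  rw [ContinuousAt, tendsto_iff_norm_sub_tendsto_zero]
  have h2 : Tendsto (fun z' : ℂ => K * Real.sqrt ‖z' - z‖) (𝓝 z) (𝓝 0) := by
    have : Continuous (fun z' : ℂ => K * Real.sqrt ‖z' - z‖) :=
      continuous_const.mul (Real.continuous_sqrt.comp (continuous_id.sub continuous_const).norm)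
    have h3 := this.tendsto z
    simpa using h3
  exact squeeze_zero (fun _ => norm_nonneg _) (fun z' => h z' z) h2

theorem db_zero {ψ : ℂ → ℂ} {z : ℂ} (hz : z ∉ tsupport ψ) : db ψ z = 0 := by
  have h : ψ =ᶠ[𝓝 z] fun _ => (0 : ℂ) := notMem_tsupport_iff_eventuallyEq.1 hz
  rw [db_congr h, db_const]

theorem continuous_db {ψ : ℂ → ℂ} (hψ : ContDiff ℝ 1 ψ) : Continuous (db ψ) := by
  have h : Continuous (fderiv ℝ ψ) := hψ.continuous_fderiv one_ne_zero
  unfold db
  exact ((h.clm_apply continuous_const).add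
    ((h.clm_apply continuous_const).const_smul Complex.I)).const_smul (1 / 2 : ℂ)

omit [CompleteSpace E] in
theorem int_test {ψ : ℂ → ℂ} (hψ : ContDiff ℝ 1 ψ) (hc : HasCompactSupport ψ) {g : ℂ → E}
    (hs : tsupport ψ ⊆ ball 0 1) (hg : ContinuousOn g (ball 0 1)) :
    Integrable (fun z => db ψ z • g z) volume := by
  have h1 : Function.support (fun z => db ψ z • g z) ⊆ tsupport ψ := by
    intro z hz
    by_contra h
    apply hz
    simp only [db_zero h, zero_smul]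
  rw [← integrableOn_iff_integrable_of_support_subset h1]
  exact ((continuous_db hψ).continuousOn.smul (hg.mono hs)).integrableOn_compact hc

omit [CompleteSpace E] in
theorem weak_comb {U : Set ℂ} (hU : U = ball 0 1) {f F A B D : ℂ → E} {c : ℂ}
    (hF : ∀ z ∈ U, F z = f z)
    (hA : Continuous A) (hB : ContinuousOn B (ball 0 1))
    (hD : ∀ z ∈ U, D z = A z - c • B z)
    (h1 : WeakDb univ A F) (h2 : WeakDb U B (db B)) (h3 : ∀ z ∈ U, db B z = 0) :
    WeakDb U D f := by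
  intro ψ hψ hc hs
  have e1 : ∀ z, db ψ z • D z = db ψ z • A z - c • (db ψ z • B z) := by
    intro z
    by_cases hz : z ∈ tsupport ψ
    · rw [hD z (hs hz), smul_sub, smul_comm]
    · simp only [db_zero hz, zero_smul, smul_zero, sub_zero]
  have e2 : ∀ z, ψ z • F z = ψ z • f z := by
    intro z
    by_cases hz : z ∈ tsupport ψ
    · rw [hF z (hs hz)]
    · rw [image_eq_zero_of_notMem_tsupport hz, zero_smul, zero_smul]
  have e3 : ∀ z, ψ z • db B z = 0 := by
    intro z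
    by_cases hz : z ∈ tsupport ψ
    · rw [h3 z (hs hz), smul_zero]
    · rw [image_eq_zero_of_notMem_tsupport hz, zero_smul]
  have i1 := int_test hψ hc (hU ▸ hs) hA.continuousOn
  have i2 := int_test hψ hc (hU ▸ hs) hB
  have i3 : Integrable (fun z => c • (db ψ z • B z)) volume := i2.smul c
  simp_rw [e1]
  rw [integral_sub i1 i3, h1 ψ hψ hc (subset_univ _), integral_smul, h2 ψ hψ hc hs]
  simp_rw [e2, e3]
  simp

end weak

end Pool.Agent.HSC.POIS

namespace Pool.Agent.HSC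

open POIS in
theorem pois_proof (hLogP : Stmt_LogP) (hCTB : Stmt_CTB) (hCTW : Stmt_CTW) (hWeak : Stmt_Weak) :
    Stmt_Pois := by
  intro r
  obtain ⟨C1, hC1, hB⟩ := hCTB r 1 one_pos
  refine ⟨C1 + 4 * C0 + 1, by have := C0_nonneg; positivity, S, ?_, ?_⟩
  · intro f m hf hm
    have h0 : 0 ≤ m := (norm_nonneg _).trans (hm 0 (by simp))
    have hF1 : AEStronglyMeasurable ((ball (0 : ℂ) 1).indicator f) volume := ext_meas hf
    have hF2 : ∀ w, ‖(ball (0 : ℂ) 1).indicator f w‖ ≤ m := by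
      intro w
      by_cases hw : w ∈ ball (0 : ℂ) 1
      · rw [indicator_of_mem hw]; exact hm w hw
      · rw [indicator_of_notMem hw, norm_zero]; exact h0
    have hF3 : ∀ w ∉ closedBall (0 : ℂ) 1, (ball (0 : ℂ) 1).indicator f w = 0 := by
      intro w hw
      exact indicator_of_notMem (fun h => hw (ball_subset_closedBall h)) _
    obtain ⟨hU1, hU2⟩ := hLogP r 1 m _ hF1 hF2 hF3
    obtain ⟨hb1, hb2⟩ := hB _ 0 m hF1 hF2 hF3
    have hW := hCTW r 1 m _ hF1 hF2 hF3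
    obtain ⟨s1, s2⟩ := dz_S hf hm hU1 hU2
    refine ⟨s1, ?_, ?_, ?_, ?_⟩
    · intro z hz
      refine (norm_S_le hf hm hz).trans ?_
      have : 0 ≤ m * Real.sqrt (1 - ‖z‖) := by positivity
      nlinarith [C0_nonneg]
    · intro z hz
      rw [s2 z hz]
      have a2 := norm_deriv_H1_le hf hm hz
      have a3 : ‖((1 / Real.pi : ℝ) : ℂ) • deriv (H1 f) z‖ ≤ 1 * (C0 * m) := by
        rw [norm_smul]
        exact mul_le_mul norm_pi_inv a2 (norm_nonneg _) zero_le_one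
      have a5 : 0 ≤ C0 * m := mul_nonneg C0_nonneg h0
      refine (norm_sub_le _ _).trans ((add_le_add (hb1 z) a3).trans ?_)
      nlinarith
    · have hd : DifferentiableOn ℂ (deriv (H1 f)) (ball 0 1) :=
        (H1_diff hf hm).deriv isOpen_ball
      have hc1 : ContDiffOn ℝ 1 (deriv (H1 f)) (ball 0 1) :=
        (hd.contDiffOn isOpen_ball).restrict_scalars ℝ
      have hcont : Continuous (CT ((ball (0 : ℂ) 1).indicator f)) := cont_of_hoelder hb2
      exact weak_comb rfl (fun z hz => indicator_of_mem hz f) hcont hd.continuousOn s2 hW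
        (hWeak.of_c1 r _ _ isOpen_ball hc1)
        (fun z hz => db_holo (hd.differentiableAt (isOpen_ball.mem_nhds hz)))
    · intro hh z hz
      exact S_star hh z
  · intro f g m hf hg hm z hz
    exact S_sub hf hg (fun z hz => (hm z hz).1) (fun z hz => (hm z hz).2) hz

end Pool.Agent.HSC
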