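import Pool.Agent.HSC.Stmts

/-!
# REG: weak solutions are smooth
-/

set_option autoImplicit false

open scoped Matrix.Norms.Frobenius ContDiff Topology Manifold ComplexOrder ComplexConjugate
open Matrix Set Filter MeasureTheory Metric

noncomputable section

namespace Pool.Agent.HSC

namespace REG

section gen

variable {E : Type*} [NormedAddCommGroup E] [NormedSpace ℂ E]

/-- smoothness from the Wirtinger derivatives -/
theorem contDiffOn_of_dz_db {n : ℕ} {U : Set ℂ} (hU : IsOpen U) {F : ℂ → E}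
    (hF : DifferentiableOn ℝ F U) (h1 : ContDiffOn ℝ n (dz F) U) (h2 : ContDiffOn ℝ n (db F) U) :
    ContDiffOn ℝ (n + 1) F U := by
  rw [contDiffOn_succ_iff_fderiv_of_isOpen hU]
  refine ⟨hF, ?_, ?_⟩
  · intro h
    exact absurd h (by simp)
  · rw [contDiffOn_clm_apply]
    intro v
    have h3 : ContDiffOn ℝ n (fun z => v • dz F z + conj v • db F z) U :=
      (h1.const_smul v).add (h2.const_smul (conj v))
    apply h3.congr
    intro z hz
    exact fderiv_eq_dz_db (hF.differentiableAt (hU.mem_nhds hz)) v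

/-- extension by zero -/
theorem contDiff_ext {n : WithTop ℕ∞} {U : Set ℂ} (hU : IsOpen U) {c : ℂ → ℂ} {g : ℂ → E}
    (hc : ContDiff ℝ n c) (hs : tsupport c ⊆ U) (hg : ContDiffOn ℝ n g U) :
    ContDiff ℝ n (fun z => c z • g z) := by
  rw [contDiff_iff_contDiffAt]
  intro z
  by_cases hz : z ∈ tsupport c
  · exact hc.contDiffAt.smul (hg.contDiffAt (hU.mem_nhds (hs hz)))
  · have h1 : (fun z => c z • g z) =ᶠ[𝓝 z] fun _ => 0 := by
      filter_upwards [(isClosed_tsupport c).isOpen_compl.mem_nhds hz] with w hw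
      rw [image_eq_zero_of_notMem_tsupport hw, zero_smul]
    exact contDiffAt_const.congr_of_eventuallyEq h1

theorem continuous_ext {U : Set ℂ} (hU : IsOpen U) {c : ℂ → ℂ} {g : ℂ → E}
    (hc : Continuous c) (hs : tsupport c ⊆ U) (hg : ContinuousOn g U) :
    Continuous (fun z => c z • g z) := by
  rw [continuous_iff_continuousAt]
  intro z
  by_cases hz : z ∈ tsupport c
  · exact hc.continuousAt.smul (hg.continuousAt (hU.mem_nhds (hs hz)))
  · have h1 : (fun z => c z • g z) =ᶠ[𝓝 z] fun _ => 0 := by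
      filter_upwards [(isClosed_tsupport c).isOpen_compl.mem_nhds hz] with w hw
      rw [image_eq_zero_of_notMem_tsupport hw, zero_smul]
    exact continuousAt_const.congr h1.symm

theorem hasCompactSupport_ext {c : ℂ → ℂ} {g : ℂ → E} (hc : HasCompactSupport c) :
    HasCompactSupport (fun z => c z • g z) := hc.smul_right

theorem continuous_db {ψ : ℂ → ℂ} (hψ : ContDiff ℝ 1 ψ) : Continuous (db ψ) := by
  have h1 : Continuous (fderiv ℝ ψ) := hψ.continuous_fderiv one_ne_zero
  unfold db
  fun_prop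

theorem tsupport_db (ψ : ℂ → ℂ) : tsupport (db ψ) ⊆ tsupport ψ := by
  apply closure_minimal _ (isClosed_tsupport ψ)
  intro z hz
  by_contra hcon
  apply hz
  have h1 : ψ =ᶠ[𝓝 z] fun _ => 0 := by
    filter_upwards [(isClosed_tsupport ψ).isOpen_compl.mem_nhds hcon] with w hw
    exact image_eq_zero_of_notMem_tsupport hw
  rw [db_congr h1, db_const]

theorem integrable_ext {U : Set ℂ} (hU : IsOpen U) {c : ℂ → ℂ} {g : ℂ → E}
    (hc : Continuous c) (hcs : HasCompactSupport c) (hs : tsupport c ⊆ U)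
    (hg : ContinuousOn g U) : Integrable (fun z => c z • g z) :=
  (continuous_ext hU hc hs hg).integrable_of_hasCompactSupport (hasCompactSupport_ext hcs)

theorem weakDb_sub {U : Set ℂ} (hU : IsOpen U) {A B Q P : ℂ → E} (hA : ContinuousOn A U)
    (hB : ContinuousOn B U) (hQ : ContinuousOn Q U) (hP : ContinuousOn P U) (h1 : WeakDb U A Q)
    (h2 : WeakDb U B P) : WeakDb U (fun z => A z - B z) (fun z => Q z - P z) := by
  intro ψ hψ hψc hψs
  have hdb : HasCompactSupport (db ψ) :=
    hψc.mono' ((subset_tsupport _).trans (tsupport_db ψ))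
  have hdbs : tsupport (db ψ) ⊆ U := (tsupport_db ψ).trans hψs
  simp only [smul_sub]
  rw [integral_sub (integrable_ext hU (continuous_db hψ) hdb hdbs hA)
    (integrable_ext hU (continuous_db hψ) hdb hdbs hB),
    integral_sub (integrable_ext hU hψ.continuous hψc hψs hQ)
    (integrable_ext hU hψ.continuous hψc hψs hP), h1 ψ hψ hψc hψs, h2 ψ hψ hψc hψs]
  abel

theorem weakDb_mono {U V : Set ℂ} (hVU : V ⊆ U) {A Q : ℂ → E} (h : WeakDb U A Q) :
    WeakDb V A Q := fun ψ hψ hψc hψs => h ψ hψ hψc (hψs.trans hVU)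

theorem weakDb_congr {U : Set ℂ} {A Q Q' : ℂ → E} (h : WeakDb U A Q)
    (hQ : ∀ z ∈ U, Q z = Q' z) : WeakDb U A Q' := by
  intro ψ hψ hψc hψs
  rw [h ψ hψ hψc hψs]
  congr 1
  apply integral_congr_ae
  filter_upwards with z
  by_cases hz : z ∈ tsupport ψ
  · rw [hQ z (hψs hz)]
  · rw [image_eq_zero_of_notMem_tsupport hz, zero_smul, zero_smul]

end gen

/-- the main local step -/
theorem step (hCT : Stmt_CT) (hW : Stmt_Weak) {r : ℕ} {U : Set ℂ} (hU : IsOpen U)
    {A Q : ℂ → M r} (hA : ContinuousOn A U) (hw : WeakDb U A Q) {n : ℕ} (hn : 1 ≤ n)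
    (hQ : ContDiffOn ℝ n Q U) : ContDiffOn ℝ n A U ∧ ∀ z ∈ U, db A z = Q z := by
  have key : ∀ z₀ ∈ U, ContDiffAt ℝ n A z₀ ∧ db A z₀ = Q z₀ := by
    intro z₀ hz₀
    obtain ⟨ρ, hρ, hρU⟩ := Metric.isOpen_iff.mp hU z₀ hz₀
    let χ : ContDiffBump z₀ := ⟨ρ / 4, ρ / 2, by linarith, by linarith⟩
    let c : ℂ → ℂ := fun z => ((χ z : ℝ) : ℂ)
    have hcd : ContDiff ℝ n c := Complex.ofRealCLM.contDiff.comp χ.contDiff
    have hcsup : tsupport c ⊆ U := by
      have h1 : tsupport c ⊆ tsupport (χ : ℂ → ℝ) := by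
        apply closure_mono
        intro z hz
        rw [Function.mem_support] at hz ⊢
        intro h0
        apply hz
        simp [c, h0]
      refine h1.trans ?_
      rw [χ.tsupport_eq]
      refine (closedBall_subset_ball ?_).trans hρU
      change ρ / 2 < ρ
      linarith
    have hcc : HasCompactSupport c := by
      apply χ.hasCompactSupport.mono'
      refine (subset_trans ?_ subset_closure)
      intro z hz
      rw [Function.mem_support] at hz ⊢
      intro h0
      apply hz
      simp [c, h0]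
    let f : ℂ → M r := fun z => c z • Q z
    have hfd : ContDiff ℝ n f := contDiff_ext hU hcd hcsup hQ
    have hfc : HasCompactSupport f := hasCompactSupport_ext hcc
    have hf1 : ContDiff ℝ 1 f := hfd.of_le (by exact_mod_cast hn)
    have hB : ContDiff ℝ n (CT f) := hCT.smooth r n f hn hfd hfc
    have hBdb : ∀ z, db (CT f) z = f z := hCT.inv1 r f hf1 hfc
    set V : Set ℂ := ball z₀ (ρ / 4) with hV
    have hVo : IsOpen V := isOpen_ball
    have hVU : V ⊆ U := (ball_subset_ball (by linarith)).trans hρU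
    have hVf : ∀ z ∈ V, Q z - f z = 0 := by
      intro z hz
      have h1 : χ z = 1 := χ.one_of_mem_closedBall (ball_subset_closedBall hz)
      simp [f, c, h1]
    have hBw : WeakDb V (CT f) f := by
      have h1 := hW.of_c1 r V (CT f) hVo (hB.of_le (by exact_mod_cast hn)).contDiffOn
      exact weakDb_congr h1 fun z _ => hBdb z
    have hdiff : WeakDb V (fun z => A z - CT f z) (fun _ => 0) := by
      have h1 := weakDb_sub hVo (hA.mono hVU) hB.continuous.continuousOn
        (hQ.continuousOn.mono hVU) hfd.continuous.continuousOn (weakDb_mono hVU hw) hBw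
      exact weakDb_congr h1 hVf
    have hhol : DifferentiableOn ℂ (fun z => A z - CT f z) V :=
      hW.weyl r V _ hVo ((hA.mono hVU).sub hB.continuous.continuousOn) hdiff
    have hz₀V : z₀ ∈ V := mem_ball_self (by linarith)
    have hA' : A =ᶠ[𝓝 z₀] fun z => (A z - CT f z) + CT f z := by
      filter_upwards with z
      rw [sub_add_cancel]
    have hsm : ContDiffAt ℝ n (fun z => A z - CT f z) z₀ := by
      have h1 : ContDiffOn ℂ n (fun z => A z - CT f z) V := hhol.contDiffOn hVo
      exact (h1.contDiffAt (hVo.mem_nhds hz₀V)).restrict_scalars ℝ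
    have hdC : DifferentiableAt ℂ (fun z => A z - CT f z) z₀ :=
      hhol.differentiableAt (hVo.mem_nhds hz₀V)
    constructor
    · exact (hsm.add hB.contDiffAt).congr_of_eventuallyEq hA'
    · rw [db_congr hA', db_add (hdC.restrictScalars ℝ)
        ((hB.contDiffAt.differentiableAt (by exact_mod_cast (by omega : n ≠ 0)))), db_holo hdC,
        hBdb, zero_add]
      have := hVf z₀ hz₀V
      rw [sub_eq_zero] at this
      exact this.symm
  exact ⟨fun z hz => (key z hz).1.contDiffWithinAt, fun z hz => (key z hz).2⟩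

theorem contDiffOn_brk {r : ℕ} {U : Set ℂ} {n : WithTop ℕ∞} {Θ K : ℂ → M r}
    (hΘ : ContDiffOn ℝ n Θ U) (hK : ContDiffOn ℝ n K U) (hu : ∀ z ∈ U, IsUnit (K z)) :
    ContDiffOn ℝ n (fun z => brk (Θ z) (K z)) U := by
  have h1 : ContDiffOn ℝ n (fun z => adj (K z) (Θ z)) U := by
    unfold adj
    exact ((contDiffOn_inv hK hu).mul (contDiffOn_conjTranspose hΘ)).mul hK
  unfold brk
  exact (hΘ.mul h1).sub (h1.mul hΘ)

end REG

open REG in
theorem reg_proof (hCT : Stmt_CT) (hWeak : Stmt_Weak) : Stmt_Reg := by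
  intro r U q Θ K hU hΘ hK hpos hw
  have hu : ∀ z ∈ U, IsUnit (K z) := fun z hz => (hpos z hz).isUnit
  have hΘs : ∀ n : ℕ, ContDiffOn ℝ n Θ U := by
    intro n
    have h1 : ContDiffOn ℂ n Θ U := hΘ.contDiffOn hU
    exact h1.restrict_scalars ℝ
  have hherm : ∀ z ∈ U, (K z)ᴴ = K z := fun z hz => (hpos z hz).isHermitian.eq
  have hdb : ∀ z ∈ U, db K z = (dz K z)ᴴ := by
    intro z hz
    apply db_eq_of_hermitian ((hK.contDiffAt (hU.mem_nhds hz)).differentiableAt one_ne_zero)
    filter_upwards [hU.mem_nhds hz] with w hw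
    exact hherm w hw
  have hAc : ContinuousOn (fun z => (K z)⁻¹ * dz K z) U := by
    apply (continuousOn_inv hK.continuousOn hu).mul
    exact (contDiffOn_dz (n := 0) hU (by simpa using hK)).continuousOn
  have hind : ∀ n : ℕ, 1 ≤ n → ContDiffOn ℝ n K U := by
    intro n hn
    induction n, hn using Nat.le_induction with
    | base => exact_mod_cast hK
    | succ n hn ih =>
      have hQ : ContDiffOn ℝ n (fun z => (q : ℂ) • brk (Θ z) (K z)) U :=
        (contDiffOn_brk (hΘs n) ih hu).const_smul (q : ℂ)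
      obtain ⟨hA, -⟩ := step hCT hWeak hU hAc hw hn hQ
      have h1 : ContDiffOn ℝ n (dz K) U := by
        apply (ih.mul hA).congr
        intro z hz
        rw [← Matrix.mul_assoc, Matrix.mul_nonsing_inv _
          ((Matrix.isUnit_iff_isUnit_det _).1 (hu z hz)), Matrix.one_mul]
      have h2 : ContDiffOn ℝ n (db K) U := (contDiffOn_conjTranspose h1).congr hdb
      push_cast
      exact contDiffOn_of_dz_db hU (hK.differentiableOn one_ne_zero) h1 h2
  refine ⟨?_, hpos, ?_⟩
  · rw [contDiffOn_infty]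
    intro n
    rcases Nat.eq_zero_or_pos n with rfl | hn
    · exact (hind 1 le_rfl).of_le (by norm_num)
    · exact hind n hn
  · intro z hz
    have hQ : ContDiffOn ℝ (1 : ℕ) (fun z => (q : ℂ) • brk (Θ z) (K z)) U :=
      (contDiffOn_brk (hΘs 1) (hind 1 le_rfl) hu).const_smul (q : ℂ)
    obtain ⟨-, h⟩ := step hCT hWeak hU hAc hw le_rfl hQ
    exact h z hz

end Pool.Agent.HSC
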