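import Pool.Agent.HSC.Stmts2

set_option autoImplicit false

open scoped Matrix.Norms.Frobenius ContDiff Topology Manifold ComplexOrder ComplexConjugate
open Matrix Set Filter Metric

noncomputable section

namespace Pool.Agent.HSC

namespace Rem

/-- the real part of a holomorphic function is harmonic -/
theorem ddb_re {L : ℂ → ℂ} {z : ℂ} (hL : ∀ᶠ w in 𝓝 z, DifferentiableAt ℂ L w) :
    ContDiffAt ℝ 2 (fun w => (L w).re) z ∧ ddb (fun w => (L w).re) z = 0 := by
  have hLa : AnalyticAt ℂ L z := by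
    rw [Complex.analyticAt_iff_eventually_differentiableAt]
    exact hL
  have hLc : ContDiffAt ℝ 2 L z := (hLa.contDiffAt (n := 2)).restrict_scalars ℝ
  constructor
  · exact Complex.reCLM.contDiff.contDiffAt.comp z hLc
  · have h1 : ∀ᶠ w in 𝓝 z, dz (fun w => (((L w).re : ℝ) : ℂ)) w = (1 / 2 : ℂ) * deriv L w := by
      filter_upwards [hL] with w hw
      have hw' : DifferentiableAt ℝ L w := hw.restrictScalars ℝ
      have h2 : (fun w => (((L w).re : ℝ) : ℂ)) =
          fun w => (1 / 2 : ℂ) • (L w + star (L w)) := by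
        funext w
        rw [Complex.re_eq_add_conj, smul_eq_mul]
        simp only [Complex.star_def]
        ring
      have h3 : DifferentiableAt ℝ (fun w => star (L w)) w := differentiableAt_star hw'
      have h4 : DifferentiableAt ℝ (fun w => L w + star (L w)) w := hw'.add h3
      rw [h2, dz_const_smul _ h4, dz_add hw' h3, dz_star hw', dz_holo hw, db_holo hw]
      simp
    have h4 : AnalyticAt ℂ (deriv L) z := hLa.deriv
    rw [ddb, db_congr h1]
    have h5 : DifferentiableAt ℂ (fun w => (1 / 2 : ℂ) * deriv L w) z :=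
      h4.differentiableAt.const_mul _
    rw [db_holo h5]
    simp

theorem log_harm {a z : ℂ} (hz : z ≠ a) :
    ContDiffAt ℝ 2 (fun w => Real.log ‖w - a‖) z ∧ ddb (fun w => Real.log ‖w - a‖) z = 0 := by
  have hza : z - a ≠ 0 := sub_ne_zero.mpr hz
  set c : ℂ := (z - a)⁻¹ with hc
  have hc0 : c ≠ 0 := inv_ne_zero hza
  have hslit : ∀ᶠ w in 𝓝 z, c * (w - a) ∈ Complex.slitPlane := by
    have h1 : ContinuousAt (fun w : ℂ => c * (w - a)) z := by fun_prop
    have h2 : c * (z - a) ∈ Complex.slitPlane := by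
      rw [hc, inv_mul_cancel₀ hza]
      exact Complex.one_mem_slitPlane
    exact h1 (Complex.isOpen_slitPlane.mem_nhds h2)
  have hL : ∀ᶠ w in 𝓝 z, DifferentiableAt ℂ (fun w => Complex.log (c * (w - a))) w := by
    filter_upwards [hslit] with w hw
    exact DifferentiableAt.clog (by fun_prop) hw
  obtain ⟨h1, h2⟩ := ddb_re hL
  have he : (fun w => Real.log ‖w - a‖) =ᶠ[𝓝 z]
      fun w => (Complex.log (c * (w - a))).re + (- Real.log ‖c‖) := by
    have hne : ∀ᶠ w in 𝓝 z, w ≠ a := isOpen_ne.mem_nhds hz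
    filter_upwards [hne] with w hw
    have hwa : w - a ≠ 0 := sub_ne_zero.mpr hw
    rw [Complex.log_re, norm_mul, Real.log_mul (norm_ne_zero_iff.mpr hc0)
      (norm_ne_zero_iff.mpr hwa)]
    ring
  constructor
  · exact (h1.add contDiffAt_const).congr_of_eventuallyEq he
  · rw [ddb_congr he, ddb_add h1 contDiffAt_const, h2, ddb_const, add_zero]

end Rem

theorem rem_proof : Stmt_Rem := by
  intro f a ρ S B hρ hf hsub hB hS z hz hza
  have hza0 : 0 < ‖z - a‖ := norm_pos_iff.mpr (sub_ne_zero.mpr hza)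
  have hzρ : ‖z - a‖ ≤ ρ := by
    rw [mem_closedBall, dist_eq_norm] at hz
    exact hz
  -- the comparison for every positive eps
  have key : ∀ ε : ℝ, 0 < ε → f z ≤ (S + ε * Real.log ρ + ε * ρ ^ 2) -
      (ε * Real.log ‖z - a‖ + ε * ‖z - a‖ ^ 2) := by
    intro ε hε
    set ψ : ℂ → ℝ := fun w => (S + ε * Real.log ρ + ε * ρ ^ 2) -
      (ε * Real.log ‖w - a‖ + ε * ‖w - a‖ ^ 2) with hψ
    -- the inner radius
    obtain ⟨τ, hτ0, hτz, hτρ, hτB⟩ : ∃ τ : ℝ, 0 < τ ∧ τ < ‖z - a‖ ∧ τ < ρ ∧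
        B ≤ S + ε * (Real.log ρ - Real.log τ) := by
      have h1 : Tendsto Real.log (𝓝[>] 0) atBot := Real.tendsto_log_nhdsGT_zero
      have h2 : ∀ᶠ t in 𝓝[>] (0 : ℝ), Real.log t ≤ Real.log ρ - (B - S) / ε :=
        h1.eventually (eventually_le_atBot _)
      have h3 : ∀ᶠ t in 𝓝[>] (0 : ℝ), t ∈ Ioo 0 (min ‖z - a‖ ρ) :=
        Ioo_mem_nhdsGT (lt_min hza0 hρ)
      obtain ⟨t, ht1, ht2⟩ := (h2.and h3).exists
      refine ⟨t, ht2.1, lt_of_lt_of_le ht2.2 (min_le_left _ _),
        lt_of_lt_of_le ht2.2 (min_le_right _ _), ?_⟩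
      have h4 : (B - S) / ε ≤ Real.log ρ - Real.log t := by linarith
      rw [div_le_iff₀ hε] at h4
      linarith
    set A : Set ℂ := closedBall a ρ \ ball a τ with hA
    have hAc : IsCompact A := (isCompact_closedBall a ρ).diff isOpen_ball
    have hmemA : ∀ w, w ∈ A ↔ ‖w - a‖ ≤ ρ ∧ τ ≤ ‖w - a‖ := by
      intro w
      rw [hA, Set.mem_sdiff, mem_closedBall, mem_ball, dist_eq_norm, not_lt]
    have hAne : ∀ w ∈ A, w ≠ a := by
      intro w hw h
      have := ((hmemA w).mp hw).2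
      rw [h, sub_self, norm_zero] at this
      linarith
    have hzA : z ∈ A := (hmemA z).mpr ⟨hzρ, hτz.le⟩
    have hψc : ∀ w, w ≠ a → ContDiffAt ℝ 2 ψ w ∧ ddb ψ w = -ε := by
      intro w hw
      obtain ⟨h1, h2⟩ := Rem.log_harm hw
      have h3 : ContDiffAt ℝ 2 (fun w : ℂ => ‖w - a‖ ^ 2) w :=
        ((contDiff_norm_sq ℝ).comp (contDiff_id.sub contDiff_const)).contDiffAt
      have h4 : ContDiffAt ℝ 2 (fun w => ε * Real.log ‖w - a‖) w := contDiffAt_const.mul h1
      have h5 : ContDiffAt ℝ 2 (fun w => ε * ‖w - a‖ ^ 2) w := contDiffAt_const.mul h3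
      have h6 : ContDiffAt ℝ 2 (fun _ : ℂ => S + ε * Real.log ρ + ε * ρ ^ 2) w := contDiffAt_const
      refine ⟨h6.sub (h4.add h5), ?_⟩
      rw [hψ, ddb_sub h6 (h4.add h5), ddb_const, ddb_add h4 h5, ddb_const_mul ε h1,
        ddb_const_mul ε h3, h2, ddb_normSq]
      ring
    have hcont : ContinuousOn (fun w => f w - ψ w) A := by
      refine ContinuousOn.sub ?_ ?_
      · exact hf.mono fun w hw => ⟨hw.1, fun h => hAne w hw h⟩
      · intro w hw
        exact (hψc w (hAne w hw)).1.continuousAt.continuousWithinAt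
    obtain ⟨z₁, hz₁A, hmax⟩ := hAc.exists_isMaxOn ⟨z, hzA⟩ hcont
    have hmax' : ∀ w ∈ A, f w - ψ w ≤ f z₁ - ψ z₁ := fun w hw => hmax hw
    by_contra hcon
    push Not at hcon
    have hpos : 0 < f z₁ - ψ z₁ := by
      have := hmax' z hzA
      have h2 : 0 < f z - ψ z := by
        rw [hψ]
        simp only
        linarith
      linarith
    have h₁ := (hmemA z₁).mp hz₁A
    have hn1 : 0 < ‖z₁ - a‖ := lt_of_lt_of_le hτ0 h₁.2
    -- not on the outer circle
    have ho : ‖z₁ - a‖ < ρ := by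
      rcases lt_or_eq_of_le h₁.1 with h | h
      · exact h
      · exfalso
        have h3 := hS z₁ (by rw [mem_sphere, dist_eq_norm, h])
        rw [hψ] at hpos
        simp only [h] at hpos
        linarith
    -- not on the inner circle
    have hi : τ < ‖z₁ - a‖ := by
      rcases lt_or_eq_of_le h₁.2 with h | h
      · exact h
      · exfalso
        have h3 := hB z₁ (by rw [mem_closedBall, dist_eq_norm]; exact h₁.1)
        rw [hψ] at hpos
        simp only [← h] at hpos
        have h4 : τ ^ 2 ≤ ρ ^ 2 := pow_le_pow_left₀ hτ0.le hτρ.le 2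
        nlinarith
    have hne1 := hAne z₁ hz₁A
    have hV := hsub z₁ (by rw [mem_ball, dist_eq_norm]; exact ho) hne1 ψ (hψc z₁ hne1).1 (by
      have h5 : {w : ℂ | τ < ‖w - a‖ ∧ ‖w - a‖ < ρ} ∈ 𝓝 z₁ := by
        refine IsOpen.mem_nhds ?_ ⟨hi, ho⟩
        have hc1 : Continuous fun w : ℂ => ‖w - a‖ := by fun_prop
        exact (isOpen_lt continuous_const hc1).inter (isOpen_lt hc1 continuous_const)
      filter_upwards [h5] with w hw
      exact hmax' w ((hmemA w).mpr ⟨hw.2.le, hw.1.le⟩))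
    rw [(hψc z₁ hne1).2] at hV
    linarith
  -- eps to zero
  set D : ℝ := Real.log ρ + ρ ^ 2 - Real.log ‖z - a‖ - ‖z - a‖ ^ 2 with hD
  by_contra hcon
  push Not at hcon
  have h1 := key ((f z - S) / (2 * (|D| + 1))) (by
    have : 0 < f z - S := by linarith
    positivity)
  set e : ℝ := (f z - S) / (2 * (|D| + 1)) with he
  have hden : 0 < 2 * (|D| + 1) := by positivity
  have he0 : 0 < e := by
    have : 0 < f z - S := by linarith
    positivity
  have h2 : f z ≤ S + e * D := by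
    rw [hD]
    linarith
  have h3 : e * D ≤ e * (|D| + 1) := mul_le_mul_of_nonneg_left (by linarith [le_abs_self D]) he0.le
  have h4 : e * (|D| + 1) = (f z - S) / 2 := by
    rw [he]
    field_simp
  linarith

end Pool.Agent.HSC
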