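import Pool.Agent.HSC.Stmts2

/-!
# Module REPL: replacement of a metric on a disc
-/

set_option autoImplicit false

open scoped Matrix.Norms.Frobenius ContDiff Topology Manifold ComplexOrder ComplexConjugate
open Matrix Set Filter MeasureTheory Metric

noncomputable section

namespace Pool.Agent.HSC

universe u v

namespace Repl

theorem cont_sandwich {X : Type u} [TopologicalSpace X] {r : ℕ} {f g : X → M r} {s : Set X}
    (hf : ContinuousOn f s) (hg : ContinuousOn g s) :
    ContinuousOn (fun x => (f x)ᴴ * g x * f x) s := by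
  rw [continuousOn_iff_continuous_domRestrict] at hf hg ⊢
  exact (hf.matrix_conjTranspose.matrix_mul hg).matrix_mul hf

variable {X : Type u} [TopologicalSpace X] [ChartedSpace ℂ X] {r : ℕ} {E : HiggsBundle.{u, v} X r}

/-- the value on the closed disc -/
def form (D : Disc E) (K : ℂ → M r) (i : E.ι) (x : X) : M r :=
  (E.g D.i i x)ᴴ * K (E.φ D.i x) * E.g D.i i x

open Classical in
/-- the new metric -/
def new (D : Disc E) (h : E.ι → X → M r) (K : ℂ → M r) (i : E.ι) (x : X) : M r :=
  if x ∈ D.op then form D K i x else h i x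

theorem new_op {D : Disc E} {h : E.ι → X → M r} {K : ℂ → M r} {i : E.ι} {x : X} (hx : x ∈ D.op) :
    new D h K i x = form D K i x := if_pos hx

theorem new_off {D : Disc E} {h : E.ι → X → M r} {K : ℂ → M r} {i : E.ι} {x : X} (hx : x ∉ D.op) :
    new D h K i x = h i x := if_neg hx

theorem new_cl {D : Disc E} {h : E.ι → X → M r} {K : ℂ → M r} (hm : MetX E univ h)
    (hK : ∀ z ∈ sphere D.a D.ρ, K z = E.loc h D.i z) {i : E.ι} {x : X} (hx : x ∈ D.cl)
    (hi : x ∈ (E.φ i).source) : new D h K i x = form D K i x := by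
  by_cases h1 : x ∈ D.op
  · exact new_op h1
  · rw [new_off h1]
    have h2 : x ∈ D.cir := by
      rw [Disc.cl_eq] at hx
      exact hx.resolve_left h1
    have h3 := Disc.mem_cir.1 h2
    unfold form
    rw [hK _ h3.2]
    unfold HiggsBundle.loc
    rw [(E.φ D.i).left_inv h3.1]
    exact hm.trans D.i i x ⟨⟨h3.1, hi⟩, mem_univ _⟩

theorem form_pos {D : Disc E} {K : ℂ → M r} (hK : ∀ z ∈ closedBall D.a D.ρ, (K z).PosDef)
    {i : E.ι} {x : X} (hx : x ∈ D.cl) (hi : x ∈ (E.φ i).source) : (form D K i x).PosDef := by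
  have h1 := Disc.mem_cl.1 hx
  unfold form
  refine (hK _ h1.2).conjTranspose_mul_mul_same ?_
  exact Matrix.mulVec_injective_iff_isUnit.2 (g_isUnit E D.i i h1.1 hi)

theorem form_cont {D : Disc E} {K : ℂ → M r} (hK : ContinuousOn K (closedBall D.a D.ρ))
    (i : E.ι) : ContinuousOn (form D K i) ((E.φ i).source ∩ D.cl) := by
  have h1 : ContinuousOn (E.g D.i i) ((E.φ i).source ∩ D.cl) :=
    (g_continuousOn E D.i i).mono fun x hx => ⟨D.cl_sub_source hx.2, hx.1⟩
  have h2 : ContinuousOn (E.φ D.i) ((E.φ i).source ∩ D.cl) :=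
    (E.φ D.i).continuousOn.mono fun x hx => D.cl_sub_source hx.2
  have h3 : ContinuousOn (fun x => K (E.φ D.i x)) ((E.φ i).source ∩ D.cl) :=
    hK.comp h2 fun x hx => (Disc.mem_cl.1 hx.2).2
  exact cont_sandwich h1 h3

theorem new_cont [T2Space X] {D : Disc E} {h : E.ι → X → M r} {K : ℂ → M r} (hm : MetX E univ h)
    (hc : ContinuousOn K (closedBall D.a D.ρ))
    (hK : ∀ z ∈ sphere D.a D.ρ, K z = E.loc h D.i z) (i : E.ι) :
    ContinuousOn (new D h K i) ((E.φ i).source ∩ univ) := by
  rw [inter_univ]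
  have h1 : ContinuousOn (new D h K i) ((E.φ i).source ∩ D.cl) :=
    (form_cont hc i).congr fun x hx => new_cl hm hK hx.2 hx.1
  have h2 : ContinuousOn (new D h K i) ((E.φ i).source ∩ D.opᶜ) := by
    have h3 : ContinuousOn (h i) ((E.φ i).source ∩ D.opᶜ) :=
      (hm.cont i).mono (inter_subset_inter_right _ (subset_univ _))
    exact h3.congr fun x hx => new_off hx.2
  have e : (E.φ i).source = ((E.φ i).source ∩ D.cl) ∪ ((E.φ i).source ∩ D.opᶜ) := by
    rw [← inter_union_distrib_left]
    refine (inter_eq_left.2 ?_).symm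
    intro x _
    by_cases hx : x ∈ D.op
    · exact Or.inl (D.op_sub_cl hx)
    · exact Or.inr hx
  intro x hx
  rw [e]
  refine ContinuousWithinAt.union ?_ ?_
  · by_cases hx1 : x ∈ D.cl
    · exact h1 x ⟨hx, hx1⟩
    · refine continuousWithinAt_of_notMem_closure fun hc1 => hx1 ?_
      exact (closure_minimal inter_subset_right D.isClosed_cl) hc1
  · by_cases hx1 : x ∈ D.opᶜ
    · exact h2 x ⟨hx, hx1⟩
    · refine continuousWithinAt_of_notMem_closure fun hc1 => hx1 ?_
      exact (closure_minimal inter_subset_right D.isOpen_op.isClosed_compl) hc1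

theorem new_met [T2Space X] {D : Disc E} {h : E.ι → X → M r} {K : ℂ → M r} (hm : MetX E univ h)
    (hc : ContinuousOn K (closedBall D.a D.ρ))
    (hp : ∀ z ∈ closedBall D.a D.ρ, (K z).PosDef)
    (hK : ∀ z ∈ sphere D.a D.ρ, K z = E.loc h D.i z) : MetX E univ (new D h K) where
  pos i x hx := by
    by_cases h1 : x ∈ D.op
    · rw [new_op h1]
      exact form_pos hp (D.op_sub_cl h1) hx.1
    · rw [new_off h1]
      exact hm.pos i x hx
  trans i j x hx := by
    by_cases h1 : x ∈ D.op
    · rw [new_op h1, new_op h1]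
      have h2 := Disc.mem_op.1 h1
      unfold form
      rw [← E.g_mul D.i i j x ⟨⟨h2.1, hx.1.1⟩, hx.1.2⟩, conjTranspose_mul]
      simp only [Matrix.mul_assoc]
    · rw [new_off h1, new_off h1]
      exact hm.trans i j x hx
  cont i := new_cont hm hc hK i

theorem dom_op (D : Disc E) : E.dom D.i D.op = ball D.a D.ρ := by
  ext z
  rw [mem_dom, Disc.mem_op]
  constructor
  · rintro ⟨h1, _, h2⟩
    rwa [(E.φ D.i).right_inv h1] at h2
  · intro h1
    have h2 := D.ball_sub h1
    exact ⟨h2, (E.φ D.i).map_target h2, by rwa [(E.φ D.i).right_inv h2]⟩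

theorem new_loc {D : Disc E} {h : E.ι → X → M r} {K : ℂ → M r} (hm : MetX E univ h)
    (hK : ∀ z ∈ sphere D.a D.ρ, K z = E.loc h D.i z) (z : ℂ) (hz : z ∈ closedBall D.a D.ρ) :
    E.loc (new D h K) D.i z = K z := by
  have h2 := D.sub hz
  have h3 : (E.φ D.i).symm z ∈ D.cl := ⟨z, hz, rfl⟩
  have h4 : (E.φ D.i).symm z ∈ (E.φ D.i).source := (E.φ D.i).map_target h2
  unfold HiggsBundle.loc
  rw [new_cl hm hK h3 h4]
  unfold form
  rw [E.g_self D.i _ h4, (E.φ D.i).right_inv h2, conjTranspose_one, Matrix.one_mul, Matrix.mul_one]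

end Repl

theorem repl_proof (X : Type u) [TopologicalSpace X] [T2Space X] [ChartedSpace ℂ X]
    [IsManifold 𝓘(ℂ) ω X] (r : ℕ) (E : HiggsBundle.{u, v} X r) (hLoc : LocAt X r E) :
    ReplAt X r E := by
  intro q D h K hm hc hp hK hS
  have h1 := Repl.new_met hm hc hp hK
  refine ⟨Repl.new D h K, h1, fun x hx i => Repl.new_off hx, Repl.new_loc hm hK, ?_⟩
  refine hLoc q D.i D.op _ D.isOpen_op (D.op_sub_cl.trans D.cl_sub_source)
    (h1.mono (subset_univ _)) ?_
  rw [Repl.dom_op]
  exact hS.congr isOpen_ball fun z hz => Repl.new_loc hm hK z (ball_subset_closedBall hz)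

end Pool.Agent.HSC
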