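import Pool.Agent.HSC.Stmts2

/-!
# SEQ: existence of the sweeping sequence (helper92)
-/

set_option autoImplicit false

open scoped Matrix.Norms.Frobenius ContDiff Topology Manifold ComplexOrder ComplexConjugate
open Matrix Set Filter Metric

noncomputable section

namespace Pool.Agent.HSC

universe u v

namespace SEQ

variable {X : Type u} [TopologicalSpace X] [ChartedSpace ℂ X] {r : ℕ} {E : HiggsBundle.{u, v} X r}

theorem loc_cont {h : E.ι → X → M r} (hm : MetX E univ h) (i : E.ι) {S : Set ℂ}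
    (hS : S ⊆ (E.φ i).target) : ContinuousOn (E.loc h i) S := by
  have h1 := hm.cont i
  have h2 : ContinuousOn (E.φ i).symm S := (E.φ i).continuousOn_symm.mono hS
  refine h1.comp h2 ?_
  intro z hz
  exact ⟨(E.φ i).map_target (hS hz), mem_univ _⟩

/-- the invariant -/
def Inv (E : HiggsBundle.{u, v} X r) (b : ℕ → ℝ) (P h : E.ι → X → M r) : Prop :=
  MetX E univ h ∧ ∀ i, ∀ x ∈ (E.φ i).source, Bd b (P i x) (h i x)

end SEQ

open SEQ in
theorem seq_proof (X : Type u) [TopologicalSpace X] [T2Space X] [ChartedSpace ℂ X]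
    [IsManifold 𝓘(ℂ) ω X] (r : ℕ) (E : HiggsBundle.{u, v} X r) (hRepl : ReplAt X r E)
    (hCmp : Stmt_Cmp) (hBd : Stmt_BdApi) : SeqAt X r E := by
  intro p q b P N D hp hq hb0 hbr hb hlog hPm hPs hN hper hsolv
  have step : ∀ (m : ℕ) (h : {h : E.ι → X → M r // Inv E b P h}),
      ∃ h' : {h : E.ι → X → M r // Inv E b P h},
        (∀ x ∉ (D m).op, ∀ i, h'.1 i x = h.1 i x) ∧ SolX E q (D m).op h'.1 := by
    rintro m ⟨h, hm, hbd⟩
    have hsph : sphere (D m).a (D m).ρ ⊆ (E.φ (D m).i).target :=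
      sphere_subset_closedBall.trans (D m).sub
    obtain ⟨K, hKc, hKp, hKb, hKs⟩ := hsolv m (E.loc h (D m).i) (loc_cont hm _ hsph) (by
      intro z hz
      have hx : (E.φ (D m).i).symm z ∈ (E.φ (D m).i).source := (E.φ (D m).i).map_target (hsph hz)
      have h1 := hm.pos (D m).i _ ⟨hx, mem_univ _⟩
      have h2 := hPm.pos (D m).i _ ⟨hx, mem_univ _⟩
      exact ⟨h1, hBd.thm r b _ _ h2 h1 hb (hbd (D m).i _ hx)⟩)
    obtain ⟨h', hm', hoff, hloc, hsol⟩ := hRepl q (D m) h K hm hKc hKp hKb hKs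
    have hball : ball (D m).a (D m).ρ ⊆ E.dom (D m).i univ := by
      intro z hz
      exact ⟨(D m).ball_sub hz, mem_univ _⟩
    have hcmp := hCmp r p q b (E.θ (D m).i) (E.loc P (D m).i) K (D m).a (D m).ρ hp hq (D m).pos
      hb0 hbr hlog (loc_cont hPm _ (D m).sub) hKc (by
        intro z hz
        have hx : (E.φ (D m).i).symm z ∈ (E.φ (D m).i).source :=
          (E.φ (D m).i).map_target ((D m).sub hz)
        exact ⟨hPm.pos (D m).i _ ⟨hx, mem_univ _⟩, hKp z hz⟩)
      ((hPs (D m).i).mono hball) hKs (by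
        intro z hz
        have hx : (E.φ (D m).i).symm z ∈ (E.φ (D m).i).source := (E.φ (D m).i).map_target (hsph hz)
        rw [hKb z hz]
        exact hbd (D m).i _ hx)
    refine ⟨⟨h', hm', ?_⟩, hoff, hsol⟩
    intro i x hxi
    by_cases hx : x ∈ (D m).op
    · obtain ⟨hxs, hxb⟩ := Disc.mem_op.1 hx
      have h1 := hcmp _ (ball_subset_closedBall hxb)
      have h2 := hloc _ (ball_subset_closedBall hxb)
      simp only [HiggsBundle.loc, (E.φ (D m).i).left_inv hxs] at h1 h2
      rw [← h2] at h1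
      have h3 := hBd.congr r b _ _ (E.g (D m).i i x) h1
      rw [hPm.trans (D m).i i x ⟨⟨hxs, hxi⟩, mem_univ _⟩,
        hm'.trans (D m).i i x ⟨⟨hxs, hxi⟩, mem_univ _⟩]
      exact h3
    · rw [hoff x hx i]
      exact hbd i x hxi
  choose F hF1 hF2 using step
  have h0 : Inv E b P P := by
    refine ⟨hPm, fun i x hx => ?_⟩
    exact hBd.refl r b _ (hPm.pos i x ⟨hx, mem_univ _⟩) hb
  let G : ℕ → {h : E.ι → X → M r // Inv E b P h} := fun n => Nat.rec ⟨P, h0⟩ (fun m h => F m h) n
  have hG0 : (G 0).1 = P := rfl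
  have hGs : ∀ m, G (m + 1) = F m (G m) := fun m => rfl
  refine ⟨fun m => (G m).1, ?_⟩
  exact
    { pos := hN
      per := hper
      zero := hG0
      met := fun m => (G m).2.1
      bd := fun m i x hx => (G m).2.2 i x hx
      off := fun m x hx i => by
        rw [hGs m]
        exact hF1 m (G m) x hx i
      sol := fun m => by
        rw [hGs m]
        exact hF2 m (G m) }

end Pool.Agent.HSC
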