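import Pool.Agent.HSC.Stmts2

/-!
# Stability of viscosity subsolutions
-/

set_option autoImplicit false

open scoped Matrix.Norms.Frobenius ContDiff Topology Manifold ComplexOrder ComplexConjugate
open Matrix Set Filter MeasureTheory Metric

noncomputable section

namespace Pool.Agent.HSC

namespace STAB

theorem continuousAt_ddb {ψ : ℂ → ℝ} {x : ℂ} (h : ContDiffAt ℝ 2 ψ x) :
    ContinuousAt (ddb ψ) x := by
  have h1 := contDiffAt_ofReal h
  have h2 : ContDiffAt ℝ 1 (dz (fun w => (ψ w : ℂ))) x := contDiffAt_dz (n := 1) h1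
  have h3 : ContDiffAt ℝ 0 (db (dz (fun w => (ψ w : ℂ)))) x := contDiffAt_db (n := 0) (by simpa using h2)
  have h4 := h3.continuousAt
  exact Complex.continuous_re.continuousAt.comp h4

theorem contDiffAt_sq (x z : ℂ) : ContDiffAt ℝ 2 (fun w : ℂ => ‖w - x‖ ^ 2) z := by
  have : ContDiff ℝ 2 (fun w : ℂ => ‖w - x‖ ^ 2) := (contDiff_id.sub contDiff_const).norm_sq ℝ
  exact this.contDiffAt

theorem aux (f : ℂ → ℝ) (d : ℕ → ℂ → ℝ) (x : ℂ) (R : ℝ)
    (hv : ∀ k, ∀ y ∈ ball x R, VSub 0 (d k) y) (hc : ∀ k, ContinuousOn (d k) (closedBall x R))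
    (hls : ∀ y ∈ closedBall x R, ∀ ε > 0, ∀ᶠ k in atTop, d k y ≤ f y + ε)
    (heq : ∀ y ∈ closedBall x R, ∀ ε > 0, ∃ δ > 0, ∀ᶠ k in atTop, ∀ z ∈ closedBall x R,
      ‖z - y‖ < δ → d k z ≤ d k y + ε)
    (hx : Tendsto (fun k => d k x) atTop (𝓝 (f x)))
    (ψ : ℂ → ℝ) (hψ : ContDiffAt ℝ 2 ψ x) (hm : ∀ᶠ w in 𝓝 x, f w - ψ w ≤ f x - ψ x)
    (e : ℝ) (he : 0 < e) (ρ : ℝ) (hρ : 0 < ρ) (hρR : ρ < R)
    (h1 : ∀ w ∈ closedBall x ρ, ContDiffAt ℝ 2 ψ w)
    (h2 : ∀ w ∈ closedBall x ρ, f w - ψ w ≤ f x - ψ x) (τ : ℝ) (hτ : 0 < τ) (hτρ : τ < ρ) :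
    ∃ y ∈ ball x τ, 0 ≤ ddb ψ y + e := by
  set φ : ℂ → ℝ := fun w => ψ w + e * ‖w - x‖ ^ 2 with hφ
  have hφc : ContinuousOn φ (closedBall x ρ) := by
    intro w hw
    exact ((h1 w hw).continuousAt.add (continuousAt_const.mul
      (contDiffAt_sq x w).continuousAt)).continuousWithinAt
  have hsub : closedBall x ρ ⊆ closedBall x R := closedBall_subset_closedBall hρR.le
  set η : ℝ := e * τ ^ 2 / 8 with hη
  have hη0 : 0 < η := by positivity
  have key : ∀ᶠ k in atTop, ∀ z ∈ closedBall x ρ \ ball x τ,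
      d k z - φ z < d k x - φ x := by
    have hA : IsCompact (closedBall x ρ \ ball x τ) :=
      (isCompact_closedBall x ρ).diff isOpen_ball
    have hxk : ∀ᶠ k in atTop, f x - η < d k x := hx.eventually (lt_mem_nhds (by linarith))
    have : ∀ᶠ k in atTop, ∀ z ∈ closedBall x ρ \ ball x τ, d k z - φ z ≤ f x - φ x - 4 * η := by
      refine hA.induction_on (p := fun s => ∀ᶠ k in atTop, ∀ z ∈ s, z ∈ closedBall x ρ → d k z - φ z ≤ f x - φ x - 4 * η) ?_ ?_ ?_ ?_ |>.mono (fun k hk z hz => hk z hz hz.1)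
      · simp
      · intro s t hst ht
        exact ht.mono fun k hk z hz => hk z (hst hz)
      · intro s t hs ht
        filter_upwards [hs, ht] with k h1 h2 z hz
        exact hz.elim (h1 z) (h2 z)
      · intro y hy
        obtain ⟨δ, hδ, hk⟩ := heq y (hsub hy.1) η hη0
        have hk2 := hls y (hsub hy.1) η hη0
        obtain ⟨δ', hδ', hφ'⟩ := Metric.continuousWithinAt_iff.1 (hφc y hy.1) η hη0
        refine ⟨ball y (min δ δ'), mem_nhdsWithin_of_mem_nhds (ball_mem_nhds _ (lt_min hδ hδ')), ?_⟩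
        filter_upwards [hk, hk2] with k h3 h4 z hz hz2
        have hz1 : dist z y < δ := lt_of_lt_of_le hz (min_le_left _ _)
        have hz1' : dist z y < δ' := lt_of_lt_of_le hz (min_le_right _ _)
        have h5 := h3 z (hsub hz2) (by rwa [← dist_eq_norm])
        have h6 := hφ' hz2 hz1'
        rw [Real.dist_eq] at h6
        have h7 := (abs_lt.1 h6).1
        have h8 := h2 y hy.1
        have h9 : τ ≤ ‖y - x‖ := by
          have := hy.2
          rw [mem_ball, not_lt, dist_eq_norm] at this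
          exact this
        have h10 : e * τ ^ 2 ≤ e * ‖y - x‖ ^ 2 := by gcongr
        have h11 : φ x = ψ x := by simp [hφ]
        have h12 : φ y = ψ y + e * ‖y - x‖ ^ 2 := rfl
        have h13 : e * τ ^ 2 = 8 * η := by rw [hη]; ring
        linarith
    filter_upwards [this, hxk] with k hk hk2 z hz
    have := hk z hz
    linarith
  obtain ⟨k, hk⟩ := key.exists
  have hxin : x ∈ closedBall x ρ := mem_closedBall_self hρ.le
  obtain ⟨y, hy, hymax⟩ := (isCompact_closedBall x ρ).exists_isMaxOn ⟨x, hxin⟩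
    (((hc k).mono hsub).sub hφc)
  have hyτ : y ∈ ball x τ := by
    by_contra hcon
    have h3 := hk y ⟨hy, hcon⟩
    have h4 := hymax hxin
    simp only [mem_setOf_eq, Pi.sub_apply] at h4
    linarith
  refine ⟨y, hyτ, ?_⟩
  have hyR : y ∈ ball x R := ball_subset_ball (by linarith) hyτ
  have h3 := hv k y hyR φ ((h1 y hy).add (contDiffAt_const.mul (contDiffAt_sq x y))) (by
    filter_upwards [isOpen_ball.mem_nhds hyτ] with w hw
    have := hymax (ball_subset_closedBall (ball_subset_ball hτρ.le hw))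
    simpa using this)
  rw [hφ, ddb_add (h1 y hy) (contDiffAt_const.mul (contDiffAt_sq x y)),
    ddb_const_mul e (contDiffAt_sq x y), ddb_normSq] at h3
  linarith

end STAB

theorem stab_proof : Stmt_Stab := by
  intro f d x R hR hv hc hls heq hx ψ hψ hm
  rw [neg_zero]
  apply le_of_forall_pos_le_add
  intro e he
  by_contra hcon
  push_neg at hcon
  have hev : ∀ᶠ w in 𝓝 x, ddb ψ w + e < 0 :=
    ((STAB.continuousAt_ddb hψ).add continuousAt_const).eventually (gt_mem_nhds hcon)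
  have h1 : ∀ᶠ w in 𝓝 x, ContDiffAt ℝ 2 ψ w := hψ.eventually (by simp)
  obtain ⟨δ, hδ, hball⟩ := Metric.eventually_nhds_iff_ball.1 (hev.and (h1.and hm))
  set ρ := min (δ / 2) (R / 2) with hρd
  have hρ : 0 < ρ := lt_min (by linarith) (by linarith)
  have hρδ : ρ < δ := lt_of_le_of_lt (min_le_left _ _) (by linarith)
  have hρR : ρ < R := lt_of_le_of_lt (min_le_right _ _) (by linarith)
  have hin : ∀ w ∈ closedBall x ρ, w ∈ ball x δ := fun w hw =>
    lt_of_le_of_lt hw hρδ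
  obtain ⟨y, hy, hy2⟩ := STAB.aux f d x R hv hc hls heq hx ψ hψ hm e he ρ hρ hρR
    (fun w hw => (hball w (hin w hw)).2.1) (fun w hw => (hball w (hin w hw)).2.2) (ρ / 2)
    (by linarith) (by linarith)
  have := (hball y (ball_subset_ball (by linarith) hy)).1
  linarith

end Pool.Agent.HSC
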