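import Pool.Agent.HSC.Stmts

/-!
# SMALL: the Dirichlet problem with boundary data `1` and small Higgs field
-/

set_option autoImplicit false

open scoped Matrix.Norms.Frobenius ContDiff Topology Manifold ComplexOrder ComplexConjugate
open Matrix Set Filter MeasureTheory Metric

noncomputable section

namespace Pool.Agent.HSC

namespace Small

variable {r : ℕ}

theorem tends {E : Type*} [NormedAddCommGroup E] {ι : Type*} {l : Filter ι} {f : ι → E} {a : E}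
    (h : Tendsto (fun n => ‖f n - a‖) l (𝓝 0)) : Tendsto f l (𝓝 a) :=
  tendsto_iff_norm_sub_tendsto_zero.mpr h

theorem unif {E : Type*} [NormedAddCommGroup E] {F : ℕ → ℂ → E} {g : ℂ → E} {s : Set ℂ}
    {u : ℕ → ℝ} (hu : Tendsto u atTop (𝓝 0)) (h : ∀ n, ∀ z ∈ s, ‖F n z - g z‖ ≤ u n)
    (hc : ∀ n, ContinuousOn (F n) s) : ContinuousOn g s := by
  have h1 : TendstoUniformlyOn F g atTop s := by
    rw [Metric.tendstoUniformlyOn_iff]
    intro e he
    filter_upwards [hu.eventually (gt_mem_nhds he)] with n hn z hz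
    rw [dist_eq_norm, norm_sub_rev]
    exact (h n z hz).trans_lt hn
  exact h1.continuousOn (Filter.Frequently.of_forall hc)

/-- the nonlinearity -/
def FF (T V A : M r) : M r :=
  Aᴴ * (1 + V)⁻¹ * A + (1 + V) * T * (1 + V)⁻¹ * Tᴴ * (1 + V) - Tᴴ * (1 + V) * T

theorem norm_H (A : M r) : ‖Aᴴ‖ = ‖A‖ := Matrix.frobenius_norm_conjTranspose A

theorem norm_mul3 (A B C : M r) (a b c : ℝ) (ha : ‖A‖ ≤ a) (hb : ‖B‖ ≤ b) (hc : ‖C‖ ≤ c) :
    ‖A * B * C‖ ≤ a * b * c := by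
  have ha0 : 0 ≤ a := (norm_nonneg _).trans ha
  have hb0 : 0 ≤ b := (norm_nonneg _).trans hb
  calc ‖A * B * C‖ ≤ ‖A * B‖ * ‖C‖ := norm_mul_le _ _
    _ ≤ (‖A‖ * ‖B‖) * ‖C‖ := mul_le_mul_of_nonneg_right (norm_mul_le _ _) (norm_nonneg _)
    _ ≤ (a * b) * c := by
        apply mul_le_mul _ hc (norm_nonneg _) (mul_nonneg ha0 hb0)
        exact mul_le_mul ha hb (norm_nonneg _) ha0

theorem norm_mul5 (A B C D E : M r) (a b c d e : ℝ) (ha : ‖A‖ ≤ a) (hb : ‖B‖ ≤ b)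
    (hc : ‖C‖ ≤ c) (hd : ‖D‖ ≤ d) (he : ‖E‖ ≤ e) :
    ‖A * B * C * D * E‖ ≤ a * b * c * d * e :=
  norm_mul3 (A * B * C) D E (a * b * c) d e (norm_mul3 A B C a b c ha hb hc) hd he

theorem FF_norm (T V A : M r) (t a b : ℝ) (hT : ‖T‖ ≤ t) (hA : ‖A‖ ≤ a)
    (hK : ‖1 + V‖ ≤ b) (hI : ‖(1 + V)⁻¹‖ ≤ b) :
    ‖FF T V A‖ ≤ a * b * a + b * t * b * t * b + t * b * t := by
  unfold FF
  have h1 : ‖Aᴴ * (1 + V)⁻¹ * A‖ ≤ a * b * a :=
    norm_mul3 _ _ _ _ _ _ (by rw [norm_H]; exact hA) hI hA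
  have h2 : ‖(1 + V) * T * (1 + V)⁻¹ * Tᴴ * (1 + V)‖ ≤ b * t * b * t * b :=
    norm_mul5 _ _ _ _ _ _ _ _ _ _ hK hT hI (by rw [norm_H]; exact hT) hK
  have h3 : ‖Tᴴ * (1 + V) * T‖ ≤ t * b * t :=
    norm_mul3 _ _ _ _ _ _ (by rw [norm_H]; exact hT) hK hT
  calc _ ≤ ‖Aᴴ * (1 + V)⁻¹ * A + (1 + V) * T * (1 + V)⁻¹ * Tᴴ * (1 + V)‖ +
        ‖Tᴴ * (1 + V) * T‖ := norm_sub_le _ _
    _ ≤ ‖Aᴴ * (1 + V)⁻¹ * A‖ + ‖(1 + V) * T * (1 + V)⁻¹ * Tᴴ * (1 + V)‖ +
        ‖Tᴴ * (1 + V) * T‖ := by gcongr; exact norm_add_le _ _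
    _ ≤ _ := by gcongr

theorem inv_sub (K K' : M r) (h : IsUnit K) (h' : IsUnit K') :
    K⁻¹ - K'⁻¹ = K⁻¹ * (K' - K) * K'⁻¹ := by
  have e1 : K⁻¹ * K = 1 := Matrix.nonsing_inv_mul _ ((Matrix.isUnit_iff_isUnit_det _).1 h)
  have e2 : K' * K'⁻¹ = 1 := Matrix.mul_nonsing_inv _ ((Matrix.isUnit_iff_isUnit_det _).1 h')
  rw [Matrix.mul_sub, Matrix.sub_mul, Matrix.mul_assoc, e2, Matrix.mul_one, e1, Matrix.one_mul]

theorem FF_lip (T V A V' A' : M r) (t a b x : ℝ) (hT : ‖T‖ ≤ t) (hA : ‖A‖ ≤ a) (hA' : ‖A'‖ ≤ a)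
    (hu : IsUnit (1 + V)) (hu' : IsUnit (1 + V')) (hK : ‖1 + V‖ ≤ b) (hI : ‖(1 + V)⁻¹‖ ≤ b)
    (hK' : ‖1 + V'‖ ≤ b) (hI' : ‖(1 + V')⁻¹‖ ≤ b) (hV : ‖V - V'‖ ≤ x) (hAA : ‖A - A'‖ ≤ x) :
    ‖FF T V A - FF T V' A'‖ ≤
      (x * b * a + a * (b * x * b) * a + a * b * x) +
      (x * t * b * t * b + b * t * (b * x * b) * t * b + b * t * b * t * x) + t * x * t := by
  have hD : ‖(1 + V)⁻¹ - (1 + V')⁻¹‖ ≤ b * x * b := by
    rw [inv_sub _ _ hu hu']
    apply norm_mul3 _ _ _ _ _ _ hI _ hI'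
    have : (1 + V') - (1 + V) = -(V - V') := by abel
    rw [this, norm_neg]
    exact hV
  have hKK : ‖(1 + V) - (1 + V')‖ ≤ x := by
    have : (1 + V) - (1 + V') = V - V' := by abel
    rw [this]
    exact hV
  have hTH : ‖Tᴴ‖ ≤ t := by rw [norm_H]; exact hT
  have e : FF T V A - FF T V' A' =
      ((A - A')ᴴ * (1 + V)⁻¹ * A + A'ᴴ * ((1 + V)⁻¹ - (1 + V')⁻¹) * A +
        A'ᴴ * (1 + V')⁻¹ * (A - A')) +
      (((1 + V) - (1 + V')) * T * (1 + V)⁻¹ * Tᴴ * (1 + V) +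
        (1 + V') * T * ((1 + V)⁻¹ - (1 + V')⁻¹) * Tᴴ * (1 + V) +
        (1 + V') * T * (1 + V')⁻¹ * Tᴴ * ((1 + V) - (1 + V'))) -
      Tᴴ * ((1 + V) - (1 + V')) * T := by
    unfold FF
    rw [Matrix.conjTranspose_sub]
    generalize (1 + V) = K
    generalize (1 + V') = K'
    simp only [Matrix.sub_mul, Matrix.mul_sub]
    abel
  rw [e]
  have h1 : ‖(A - A')ᴴ * (1 + V)⁻¹ * A‖ ≤ x * b * a :=
    norm_mul3 _ _ _ _ _ _ (by rw [norm_H]; exact hAA) hI hA
  have h2 : ‖A'ᴴ * ((1 + V)⁻¹ - (1 + V')⁻¹) * A‖ ≤ a * (b * x * b) * a :=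
    norm_mul3 _ _ _ _ _ _ (by rw [norm_H]; exact hA') hD hA
  have h3 : ‖A'ᴴ * (1 + V')⁻¹ * (A - A')‖ ≤ a * b * x :=
    norm_mul3 _ _ _ _ _ _ (by rw [norm_H]; exact hA') hI' hAA
  have h4 : ‖((1 + V) - (1 + V')) * T * (1 + V)⁻¹ * Tᴴ * (1 + V)‖ ≤ x * t * b * t * b :=
    norm_mul5 _ _ _ _ _ _ _ _ _ _ hKK hT hI hTH hK
  have h5 : ‖(1 + V') * T * ((1 + V)⁻¹ - (1 + V')⁻¹) * Tᴴ * (1 + V)‖ ≤
      b * t * (b * x * b) * t * b := norm_mul5 _ _ _ _ _ _ _ _ _ _ hK' hT hD hTH hK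
  have h6 : ‖(1 + V') * T * (1 + V')⁻¹ * Tᴴ * ((1 + V) - (1 + V'))‖ ≤ b * t * b * t * x :=
    norm_mul5 _ _ _ _ _ _ _ _ _ _ hK' hT hI' hTH hKK
  have h7 : ‖Tᴴ * ((1 + V) - (1 + V')) * T‖ ≤ t * x * t :=
    norm_mul3 _ _ _ _ _ _ hTH hKK hT
  refine (norm_sub_le _ _).trans (add_le_add ((norm_add_le _ _).trans (add_le_add ?_ ?_)) h7)
  · refine (norm_add_le _ _).trans (add_le_add ((norm_add_le _ _).trans (add_le_add h1 h2)) h3)
  · refine (norm_add_le _ _).trans (add_le_add ((norm_add_le _ _).trans (add_le_add h4 h5)) h6)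

theorem FF_herm (T V A : M r) (hV : V.IsHermitian) : (FF T V A).IsHermitian := by
  have h1 : (1 + V)ᴴ = 1 + V := by
    rw [Matrix.conjTranspose_add, Matrix.conjTranspose_one, hV.eq]
  have h2 : ((1 + V)⁻¹)ᴴ = (1 + V)⁻¹ := by
    rw [Matrix.conjTranspose_nonsing_inv, h1]
  unfold FF Matrix.IsHermitian
  simp only [Matrix.conjTranspose_sub, Matrix.conjTranspose_add, Matrix.conjTranspose_mul,
    Matrix.conjTranspose_conjTranspose, hV.eq, Matrix.conjTranspose_one, h2]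
  simp only [Matrix.mul_assoc]

/-- the weak equation depends only on the values in `U` -/
theorem weak_congr {U : Set ℂ} {A A' Q Q' : ℂ → M r} (h : WeakDb U A Q)
    (hA : ∀ z ∈ U, A z = A' z) (hQ : ∀ z ∈ U, Q z = Q' z) : WeakDb U A' Q' := by
  intro ψ h1 h2 h3
  have h4 := h ψ h1 h2 h3
  have e1 : ∀ z, db ψ z • A z = db ψ z • A' z := by
    intro z
    by_cases hz : z ∈ U
    · rw [hA z hz]
    · have hz2 : z ∉ tsupport ψ := fun h => hz (h3 h)
      have h5 : ψ =ᶠ[𝓝 z] fun _ => 0 := notMem_tsupport_iff_eventuallyEq.mp hz2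
      rw [db_congr h5, db_const, zero_smul, zero_smul]
  have e2 : ∀ z, ψ z • Q z = ψ z • Q' z := by
    intro z
    by_cases hz : z ∈ U
    · rw [hQ z hz]
    · have hz2 : z ∉ tsupport ψ := fun h => hz (h3 h)
      rw [image_eq_zero_of_notMem_tsupport hz2, zero_smul, zero_smul]
  rw [← integral_congr_ae (Filter.Eventually.of_forall e1), h4,
    integral_congr_ae (Filter.Eventually.of_forall e2)]

/-- the data of the Poisson solver -/
structure PS (r : ℕ) (C : ℝ) (S : (ℂ → M r) → (ℂ → M r)) : Prop where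
  main : ∀ (f : ℂ → M r) (m : ℝ), ContinuousOn f (ball 0 1) → (∀ z ∈ ball (0 : ℂ) 1, ‖f z‖ ≤ m) →
    ContDiffOn ℝ 1 (S f) (ball 0 1) ∧
    (∀ z ∈ ball (0 : ℂ) 1, ‖S f z‖ ≤ C * m * Real.sqrt (1 - ‖z‖)) ∧
    (∀ z ∈ ball (0 : ℂ) 1, ‖dz (S f) z‖ ≤ C * m) ∧
    WeakDb (ball 0 1) (dz (S f)) f ∧
    ((∀ z ∈ ball (0 : ℂ) 1, (f z).IsHermitian) → ∀ z ∈ ball (0 : ℂ) 1, (S f z).IsHermitian)
  lin : ∀ (f g : ℂ → M r) (m : ℝ), ContinuousOn f (ball 0 1) → ContinuousOn g (ball 0 1) →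
    (∀ z ∈ ball (0 : ℂ) 1, ‖f z‖ ≤ m ∧ ‖g z‖ ≤ m) →
    ∀ z ∈ ball (0 : ℂ) 1, S (fun w => f w - g w) z = S f z - S g z

/-- admissible sources -/
structure Good (r : ℕ) (m : ℝ) (f : ℂ → M r) : Prop where
  cont : ContinuousOn f (ball 0 1)
  bd : ∀ z ∈ ball (0 : ℂ) 1, ‖f z‖ ≤ m
  herm : ∀ z ∈ ball (0 : ℂ) 1, (f z).IsHermitian

/-- numerical conditions -/
structure Num (r : ℕ) (C b m t δ : ℝ) : Prop where
  C0 : 0 < C
  b0 : 0 < b
  m0 : 0 < m
  t0 : 0 < t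
  hδ : C * m ≤ δ
  near : ∀ A : M r, A.IsHermitian → ‖A - 1‖ ≤ δ → A.PosDef ∧ ‖A‖ ≤ b ∧ ‖A⁻¹‖ ≤ b
  n1 : (C * m) * b * (C * m) + b * t * b * t * b + t * b * t ≤ m
  n2 : ∀ s : ℝ, 0 ≤ s → ((C * s) * b * (C * m) + (C * m) * (b * (C * s) * b) * (C * m) +
      (C * m) * b * (C * s)) +
      ((C * s) * t * b * t * b + b * t * (b * (C * s) * b) * t * b + b * t * b * t * (C * s)) +
      t * (C * s) * t ≤ s / 2

/-- the iteration map -/
def NN (S : (ℂ → M r) → (ℂ → M r)) (Θ : ℂ → M r) (f : ℂ → M r) : ℂ → M r :=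
  fun z => FF (Θ z) (S f z) (dz (S f) z)

theorem sqrt_le (z : ℂ) : Real.sqrt (1 - ‖z‖) ≤ 1 := by
  rw [← Real.sqrt_one]
  apply Real.sqrt_le_sqrt
  rw [Real.sqrt_one]
  linarith [norm_nonneg z]

theorem S_bd {C m : ℝ} {S : (ℂ → M r) → (ℂ → M r)} (hS : PS r C S) (hC : 0 < C) (hm : 0 ≤ m)
    {f : ℂ → M r} (hc : ContinuousOn f (ball 0 1)) (hb : ∀ z ∈ ball (0 : ℂ) 1, ‖f z‖ ≤ m)
    {z : ℂ} (hz : z ∈ ball (0 : ℂ) 1) : ‖S f z‖ ≤ C * m := by
  obtain ⟨-, h2, -⟩ := hS.main f m hc hb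
  calc ‖S f z‖ ≤ C * m * Real.sqrt (1 - ‖z‖) := h2 z hz
    _ ≤ C * m * 1 := mul_le_mul_of_nonneg_left (sqrt_le z) (by positivity)
    _ = C * m := mul_one _

theorem K_facts {C b m t δ : ℝ} {S : (ℂ → M r) → (ℂ → M r)} (hS : PS r C S)
    (hN : Num r C b m t δ) {f : ℂ → M r} (hf : Good r m f) {z : ℂ} (hz : z ∈ ball (0 : ℂ) 1) :
    (S f z).IsHermitian ∧ (1 + S f z).PosDef ∧ ‖1 + S f z‖ ≤ b ∧ ‖(1 + S f z)⁻¹‖ ≤ b ∧
      ‖dz (S f) z‖ ≤ C * m := by
  obtain ⟨-, -, h3, -, h5⟩ := hS.main f m hf.cont hf.bd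
  have h6 := h5 hf.herm z hz
  have h7 : (1 + S f z).IsHermitian := by
    unfold Matrix.IsHermitian
    rw [Matrix.conjTranspose_add, Matrix.conjTranspose_one, h6.eq]
  have h8 : ‖(1 + S f z) - 1‖ ≤ δ := by
    rw [add_sub_cancel_left]
    exact (S_bd hS hN.C0 hN.m0.le hf.cont hf.bd hz).trans hN.hδ
  obtain ⟨h9, h10, h11⟩ := hN.near _ h7 h8
  exact ⟨h6, h9, h10, h11, h3 z hz⟩

theorem NN_good {C b m t δ : ℝ} {S : (ℂ → M r) → (ℂ → M r)} (hS : PS r C S)
    (hN : Num r C b m t δ) {Θ : ℂ → M r} (hΘ : ContinuousOn Θ (ball 0 1))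
    (hΘt : ∀ z ∈ ball (0 : ℂ) 1, ‖Θ z‖ ≤ t) {f : ℂ → M r} (hf : Good r m f) :
    Good r m (NN S Θ f) := by
  obtain ⟨h1, -⟩ := hS.main f m hf.cont hf.bd
  refine ⟨?_, ?_, ?_⟩
  · have hV : ContinuousOn (S f) (ball 0 1) := h1.continuousOn
    have hA : ContinuousOn (dz (S f)) (ball 0 1) :=
      (contDiffOn_dz (n := 0) isOpen_ball h1).continuousOn
    have hK : ContinuousOn (fun z => 1 + S f z) (ball 0 1) := continuousOn_const.add hV
    have hI : ContinuousOn (fun z => (1 + S f z)⁻¹) (ball 0 1) :=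
      continuousOn_inv hK (fun z hz => (K_facts hS hN hf hz).2.1.isUnit)
    have hAH : ContinuousOn (fun z => (dz (S f) z)ᴴ) (ball 0 1) := hA.star
    have hTH : ContinuousOn (fun z => (Θ z)ᴴ) (ball 0 1) := hΘ.star
    exact (((hAH.mul hI).mul hA).add ((((hK.mul hΘ).mul hI).mul hTH).mul hK)).sub
      ((hTH.mul hK).mul hΘ)
  · intro z hz
    obtain ⟨-, -, h3, h4, h5⟩ := K_facts hS hN hf hz
    exact (FF_norm _ _ _ t (C * m) b (hΘt z hz) h5 h3 h4).trans hN.n1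
  · intro z hz
    exact FF_herm _ _ _ (K_facts hS hN hf hz).1

theorem NN_lip {C b m t δ : ℝ} {S : (ℂ → M r) → (ℂ → M r)} (hS : PS r C S)
    (hN : Num r C b m t δ) {Θ : ℂ → M r}
    (hΘt : ∀ z ∈ ball (0 : ℂ) 1, ‖Θ z‖ ≤ t) {f g : ℂ → M r} (hf : Good r m f) (hg : Good r m g)
    {s : ℝ} (hs : 0 ≤ s) (hfg : ∀ z ∈ ball (0 : ℂ) 1, ‖f z - g z‖ ≤ s) {z : ℂ}
    (hz : z ∈ ball (0 : ℂ) 1) : ‖NN S Θ f z - NN S Θ g z‖ ≤ s / 2 := by
  obtain ⟨-, f2, f3, f4, f5⟩ := K_facts hS hN hf hz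
  obtain ⟨-, g2, g3, g4, g5⟩ := K_facts hS hN hg hz
  have hh : ContinuousOn (fun w => f w - g w) (ball (0 : ℂ) 1) := hf.cont.sub hg.cont
  obtain ⟨-, -, h3, -⟩ := hS.main (fun w => f w - g w) s hh hfg
  have hl := hS.lin f g m hf.cont hg.cont (fun w hw => ⟨hf.bd w hw, hg.bd w hw⟩)
  have e1 : ‖S f z - S g z‖ ≤ C * s := by
    rw [← hl z hz]
    exact S_bd hS hN.C0 hs hh hfg hz
  have e2 : ‖dz (S f) z - dz (S g) z‖ ≤ C * s := by
    have d1 : DifferentiableAt ℝ (S f) z :=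
      ((hS.main f m hf.cont hf.bd).1.contDiffAt (isOpen_ball.mem_nhds hz)).differentiableAt
        one_ne_zero
    have d2 : DifferentiableAt ℝ (S g) z :=
      ((hS.main g m hg.cont hg.bd).1.contDiffAt (isOpen_ball.mem_nhds hz)).differentiableAt
        one_ne_zero
    have h4 : S (fun w => f w - g w) =ᶠ[𝓝 z] fun w => S f w - S g w := by
      filter_upwards [isOpen_ball.mem_nhds hz] with w hw
      exact hl w hw
    rw [← dz_sub d1 d2, ← dz_congr h4]
    exact h3 z hz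
  exact (FF_lip _ _ _ _ _ t (C * m) b (C * s) (hΘt z hz) f5 g5 f2.isUnit g2.isUnit f3 f4 g3 g4
    e1 e2).trans (hN.n2 s hs)

/-- the fixed point -/
theorem exists_fixed {C b m t δ : ℝ} {S : (ℂ → M r) → (ℂ → M r)} (hS : PS r C S)
    (hN : Num r C b m t δ) {Θ : ℂ → M r} (hΘ : ContinuousOn Θ (ball 0 1))
    (hΘt : ∀ z ∈ ball (0 : ℂ) 1, ‖Θ z‖ ≤ t) :
    ∃ g : ℂ → M r, Good r m g ∧ ∀ z ∈ ball (0 : ℂ) 1, NN S Θ g z = g z := by
  let f : ℕ → ℂ → M r := fun n => (NN S Θ)^[n] (fun _ => 0)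
  have f0 : f 0 = fun _ => 0 := rfl
  have fs : ∀ n, f (n + 1) = NN S Θ (f n) := fun n => Function.iterate_succ_apply' _ _ _
  have hgood : ∀ n, Good r m (f n) := by
    intro n
    induction n with
    | zero =>
      refine ⟨continuousOn_const, ?_, ?_⟩
      · intro z _
        show ‖(0 : M r)‖ ≤ m
        rw [norm_zero]
        exact hN.m0.le
      · intro z _
        exact Matrix.isHermitian_zero
    | succ n ih =>
      rw [fs]
      exact NN_good hS hN hΘ hΘt ih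
  have hdiff : ∀ n, ∀ z ∈ ball (0 : ℂ) 1, ‖f n z - f (n + 1) z‖ ≤ m * (1 / 2) ^ n := by
    intro n
    induction n with
    | zero =>
      intro z hz
      have : f 0 z = 0 := rfl
      rw [this, zero_sub, norm_neg, pow_zero, mul_one]
      exact (hgood 1).bd z hz
    | succ n ih =>
      intro z hz
      have h1 := NN_lip hS hN hΘt (hgood n) (hgood (n + 1))
        (mul_nonneg hN.m0.le (by positivity)) ih hz
      rw [fs n, fs (n + 1)]
      have h2 : m * (1 / 2 : ℝ) ^ (n + 1) = m * (1 / 2) ^ n / 2 := by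
        rw [pow_succ]
        ring
      rw [h2]
      rw [← fs n]
      rw [← fs n] at h1
      exact h1
  have hlim : ∀ z ∈ ball (0 : ℂ) 1, ∃ l : M r, Tendsto (fun n => f n z) atTop (𝓝 l) := by
    intro z hz
    apply cauchySeq_tendsto_of_complete
    apply cauchySeq_of_le_geometric (1 / 2) m (by norm_num)
    intro n
    rw [dist_eq_norm]
    exact hdiff n z hz
  choose! g hg using hlim
  have hfg : ∀ n, ∀ z ∈ ball (0 : ℂ) 1, ‖f n z - g z‖ ≤ 2 * m * (1 / 2) ^ n := by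
    intro n z hz
    have h1 := dist_le_of_le_geometric_of_tendsto (1 / 2) m (by norm_num)
      (fun n => by rw [dist_eq_norm]; exact hdiff n z hz) (hg z hz) n
    rw [dist_eq_norm] at h1
    refine h1.trans (le_of_eq ?_)
    norm_num
    ring
  have hpow : Tendsto (fun n : ℕ => 2 * m * (1 / 2 : ℝ) ^ n) atTop (𝓝 0) := by
    have := (tendsto_pow_atTop_nhds_zero_of_lt_one (show (0 : ℝ) ≤ 1 / 2 by norm_num)
      (by norm_num)).const_mul (2 * m)
    simpa using this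
  have hgg : Good r m g := by
    refine ⟨?_, ?_, ?_⟩
    · exact unif hpow hfg (fun n => (hgood n).cont)
    · intro z hz
      exact le_of_tendsto' (hg z hz).norm (fun n => (hgood n).bd z hz)
    · intro z hz
      have h1 : ‖(g z)ᴴ - g z‖ ≤ 0 := by
        apply ge_of_tendsto' (f := fun n : ℕ => 2 * (2 * m * (1 / 2 : ℝ) ^ n))
          (by simpa using hpow.const_mul 2)
        intro n
        have h2 : (g z)ᴴ - g z = (g z - f n z)ᴴ + (f n z - g z) := by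
          rw [Matrix.conjTranspose_sub, ((hgood n).herm z hz).eq]
          abel
        rw [h2]
        refine (norm_add_le _ _).trans ?_
        rw [norm_H, norm_sub_rev]
        have := hfg n z hz
        linarith
      have h3 : (g z)ᴴ - g z = 0 := norm_le_zero_iff.mp h1
      exact sub_eq_zero.mp h3
  refine ⟨g, hgg, ?_⟩
  intro z hz
  have h1 : Tendsto (fun n => f (n + 1) z) atTop (𝓝 (g z)) :=
    (tendsto_add_atTop_iff_nat 1).mpr (hg z hz)
  have h2 : Tendsto (fun n => f (n + 1) z) atTop (𝓝 (NN S Θ g z)) := by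
    apply tends
    apply squeeze_zero (fun n => norm_nonneg _) (g := fun n : ℕ => 2 * m * (1 / 2 : ℝ) ^ n / 2)
    · intro n
      rw [fs]
      exact NN_lip hS hN hΘt (hgood n) hgg
        (by have := hN.m0; positivity) (hfg n) hz
    · simpa using hpow.div_const 2
  exact tendsto_nhds_unique h2 h1

/-- the choice of the constants -/
theorem exists_num (hDT : Stmt_DT) (r : ℕ) (C : ℝ) (hC : 0 < C) :
    ∃ b m t δ : ℝ, Num r C b m t δ := by
  obtain ⟨δ, hδ, hnear⟩ := hDT.near r 1 one_pos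
  set b : ℝ := Real.sqrt r * Real.exp 1 + 1 with hb
  have hb1 : 1 ≤ b := by
    have : 0 ≤ Real.sqrt r * Real.exp 1 := by positivity
    linarith
  set L : ℝ := b + C + 1 with hL
  have hL1 : 1 ≤ L := by linarith
  have hL0 : 0 < L := by linarith
  have hbL : b ≤ L := by linarith
  have hCL : C ≤ L := by linarith
  have hb0 : 0 < b := by linarith
  set m : ℝ := min 1 (min (δ / C) (1 / (16 * L ^ 3))) with hm
  have hm0 : 0 < m := by positivity
  have hm1 : m ≤ 1 := min_le_left _ _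
  have hm2 : C * m ≤ δ := by
    have : m ≤ δ / C := (min_le_right _ _).trans (min_le_left _ _)
    rw [le_div_iff₀ hC] at this
    linarith
  have hm3 : L ^ 3 * m ≤ 1 / 16 := by
    have : m ≤ 1 / (16 * L ^ 3) := (min_le_right _ _).trans (min_le_right _ _)
    rw [le_div_iff₀ (by positivity)] at this
    linarith
  set t : ℝ := m / (16 * L ^ 5) with ht
  have ht0 : 0 < t := by positivity
  have htL : L ^ 5 * t = m / 16 := by
    rw [ht]
    field_simp
  have hL5 : 1 ≤ L ^ 5 := one_le_pow₀ hL1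
  have ht1 : t ≤ 1 := by
    have : t ≤ L ^ 5 * t := by nlinarith
    linarith
  have htt : t * t ≤ t := by nlinarith
  have hLtt : L ^ 5 * (t * t) ≤ m / 16 := by
    calc L ^ 5 * (t * t) ≤ L ^ 5 * t := by gcongr
      _ = m / 16 := htL
  -- monomials
  have q1 : C * C * b ≤ L ^ 3 := by
    calc C * C * b ≤ L * L * L := by gcongr
      _ = L ^ 3 := by ring
  have q2 : C * C * C * b * b ≤ L ^ 5 := by
    calc C * C * C * b * b ≤ L * L * L * L * L := by gcongr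
      _ = L ^ 5 := by ring
  have q3 : C * b * b ≤ L ^ 5 := by
    calc C * b * b = C * b * b * 1 * 1 := by ring
      _ ≤ L * L * L * L * L := by gcongr
      _ = L ^ 5 := by ring
  have q4 : C * b * b * b * b ≤ L ^ 5 := by
    calc C * b * b * b * b ≤ L * L * L * L * L := by gcongr
      _ = L ^ 5 := by ring
  have q5 : C ≤ L ^ 5 := by
    calc C = C * 1 * 1 * 1 * 1 := by ring
      _ ≤ L * L * L * L * L := by gcongr
      _ = L ^ 5 := by ring
  have q6 : b * b * b ≤ L ^ 5 := by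
    calc b * b * b = b * b * b * 1 * 1 := by ring
      _ ≤ L * L * L * L * L := by gcongr
      _ = L ^ 5 := by ring
  have q7 : b ≤ L ^ 5 := by
    calc b = b * 1 * 1 * 1 * 1 := by ring
      _ ≤ L * L * L * L * L := by gcongr
      _ = L ^ 5 := by ring
  have w1 : C * C * b * m ≤ 1 / 16 := (mul_le_mul_of_nonneg_right q1 hm0.le).trans hm3
  have htt0 : 0 ≤ t * t := by positivity
  have w3 : C * b * b * (t * t) ≤ 1 / 16 :=
    (mul_le_mul_of_nonneg_right q3 htt0).trans (by linarith)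
  have w4 : C * b * b * b * b * (t * t) ≤ 1 / 16 :=
    (mul_le_mul_of_nonneg_right q4 htt0).trans (by linarith)
  have w5 : C * (t * t) ≤ 1 / 16 := (mul_le_mul_of_nonneg_right q5 htt0).trans (by linarith)
  have w6 : b * b * b * (t * t) ≤ m / 16 := (mul_le_mul_of_nonneg_right q6 htt0).trans hLtt
  have w7 : b * (t * t) ≤ m / 16 := (mul_le_mul_of_nonneg_right q7 htt0).trans hLtt
  have w2 : C * C * C * b * b * (m * m) ≤ 1 / 16 := by
    have h1 : L ^ 5 * (m * m) ≤ 1 / 16 := by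
      have h2 : (L ^ 3 * m) * (L ^ 3 * m) ≤ 1 / 16 * (1 / 16) :=
        mul_le_mul hm3 hm3 (by positivity) (by norm_num)
      have h3 : L ^ 5 * (m * m) ≤ (L ^ 3 * m) * (L ^ 3 * m) := by
        have h4 : L ^ 5 ≤ L ^ 6 := pow_le_pow_right₀ hL1 (by norm_num)
        calc L ^ 5 * (m * m) ≤ L ^ 6 * (m * m) := by gcongr
          _ = _ := by ring
      linarith
    exact (mul_le_mul_of_nonneg_right q2 (by positivity)).trans h1
  refine ⟨b, m, t, δ, hC, hb0, hm0, ht0, hm2, ?_, ?_, ?_⟩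
  · intro A hA hA1
    obtain ⟨h1, h2⟩ := hnear A hA hA1
    obtain ⟨h3, h4⟩ := hDT.norm_le r A 1 h1 h2
    exact ⟨h1, by linarith, by linarith⟩
  · have e : (C * m) * b * (C * m) + b * t * b * t * b + t * b * t =
        (C * C * b * m) * m + b * b * b * (t * t) + b * (t * t) := by ring
    rw [e]
    have : (C * C * b * m) * m ≤ 1 / 16 * m := mul_le_mul_of_nonneg_right w1 hm0.le
    linarith
  · intro s hs
    have e : ((C * s) * b * (C * m) + (C * m) * (b * (C * s) * b) * (C * m) +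
      (C * m) * b * (C * s)) +
      ((C * s) * t * b * t * b + b * t * (b * (C * s) * b) * t * b + b * t * b * t * (C * s)) +
      t * (C * s) * t = (2 * (C * C * b * m) + C * C * C * b * b * (m * m) +
        2 * (C * b * b * (t * t)) + C * b * b * b * b * (t * t) + C * (t * t)) * s := by ring
    rw [e]
    have : 2 * (C * C * b * m) + C * C * C * b * b * (m * m) +
        2 * (C * b * b * (t * t)) + C * b * b * b * b * (t * t) + C * (t * t) ≤ 1 / 2 := by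
      linarith
    calc _ ≤ 1 / 2 * s := mul_le_mul_of_nonneg_right this hs
      _ = s / 2 := by ring

end Small

open Pool.Agent.HSC.Small in
theorem small_proof (hPois : Stmt_Pois) (hReg : Stmt_Reg) (hWeak : Stmt_Weak) (hDT : Stmt_DT) :
    Stmt_Small := by
  intro r
  obtain ⟨C, hC, S, hS1, hS2⟩ := hPois r
  have hS : PS r C S := ⟨hS1, hS2⟩
  obtain ⟨b, m, t, δ, hN⟩ := exists_num hDT r C hC
  refine ⟨t, hN.t0, ?_⟩
  intro Θ hΘ hΘt
  obtain ⟨g, hg, hfix⟩ := exists_fixed hS hN hΘ.continuousOn hΘt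
  obtain ⟨hV1, hV2, hV3, hV4, -⟩ := hS.main g m hg.cont hg.bd
  classical
  let K : ℂ → M r := fun z => if z ∈ ball (0 : ℂ) 1 then 1 + S g z else 1
  have hKb : ∀ z ∈ ball (0 : ℂ) 1, K z = 1 + S g z := fun z hz => if_pos hz
  have hKo : ∀ z ∉ ball (0 : ℂ) 1, K z = 1 := fun z hz => if_neg hz
  have hKev : ∀ z ∈ ball (0 : ℂ) 1, K =ᶠ[𝓝 z] fun w => 1 + S g w := by
    intro z hz
    filter_upwards [isOpen_ball.mem_nhds hz] with w hw
    exact hKb w hw
  have hKC1 : ContDiffOn ℝ 1 K (ball 0 1) := by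
    have h1 : ContDiffOn ℝ 1 (fun z => 1 + S g z) (ball 0 1) := contDiffOn_const.add hV1
    exact h1.congr hKb
  have hpos : ∀ z ∈ ball (0 : ℂ) 1, (K z).PosDef := by
    intro z hz
    rw [hKb z hz]
    exact (K_facts hS hN hg hz).2.1
  have hbound : ∀ z ∈ closedBall (0 : ℂ) 1, ‖K z - 1‖ ≤ C * m * Real.sqrt (1 - ‖z‖) := by
    intro z hz
    by_cases hz1 : z ∈ ball (0 : ℂ) 1
    · rw [hKb z hz1, add_sub_cancel_left]
      exact hV2 z hz1
    · rw [hKo z hz1, sub_self, norm_zero]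
      have := hN.m0
      positivity
  refine ⟨K, ?_, ?_, ?_, ?_⟩
  · intro z hz
    by_cases hz1 : z ∈ ball (0 : ℂ) 1
    · exact (hKC1.contDiffAt (isOpen_ball.mem_nhds hz1)).continuousAt.continuousWithinAt
    · have hz2 : ‖z‖ = 1 := by
        rw [mem_closedBall, dist_zero_right] at hz
        rw [mem_ball, dist_zero_right, not_lt] at hz1
        exact le_antisymm hz hz1
      show Tendsto K (𝓝[closedBall 0 1] z) (𝓝 (K z))
      rw [hKo z hz1]
      apply tends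
      have hlim : Tendsto (fun w : ℂ => C * m * Real.sqrt (1 - ‖w‖)) (𝓝[closedBall 0 1] z)
          (𝓝 0) := by
        have h1 : Continuous (fun w : ℂ => C * m * Real.sqrt (1 - ‖w‖)) := by fun_prop
        have h2 := h1.tendsto z
        rw [hz2, sub_self, Real.sqrt_zero, mul_zero] at h2
        exact h2.mono_left nhdsWithin_le_nhds
      apply tendsto_of_tendsto_of_tendsto_of_le_of_le' tendsto_const_nhds hlim
      · exact Filter.Eventually.of_forall fun w => norm_nonneg _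
      · filter_upwards [self_mem_nhdsWithin] with w hw
        exact hbound w hw
  · intro z hz
    by_cases hz1 : z ∈ ball (0 : ℂ) 1
    · exact hpos z hz1
    · rw [hKo z hz1]
      exact Matrix.PosDef.one
  · intro z hz
    apply hKo
    rw [mem_ball, not_lt]
    exact (mem_sphere.mp hz).ge
  · apply hReg r (ball 0 1) 1 Θ K isOpen_ball hΘ hKC1 hpos
    have hG : ContDiffOn ℝ 1 (fun z => (1 + S g z)⁻¹) (ball 0 1) :=
      contDiffOn_inv (contDiffOn_const.add hV1)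
        (fun z hz => (K_facts hS hN hg hz).2.1.isUnit)
    have hA : ContinuousOn (dz (S g)) (ball 0 1) :=
      (contDiffOn_dz (n := 0) isOpen_ball hV1).continuousOn
    have hw := hWeak.mul r (ball 0 1) (fun z => (1 + S g z)⁻¹) (dz (S g)) g isOpen_ball hG hA
      hg.cont hV4
    refine weak_congr hw ?_ ?_
    · intro z hz
      have d1 : DifferentiableAt ℝ (S g) z :=
        (hV1.contDiffAt (isOpen_ball.mem_nhds hz)).differentiableAt one_ne_zero
      have e1 : dz K z = dz (S g) z := by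
        rw [dz_congr (hKev z hz), dz_add (differentiableAt_const _) d1, dz_const, zero_add]
      rw [e1, hKb z hz]
    · intro z hz
      have d1 : DifferentiableAt ℝ (S g) z :=
        (hV1.contDiffAt (isOpen_ball.mem_nhds hz)).differentiableAt one_ne_zero
      have hu := (K_facts hS hN hg hz).2.1.isUnit
      have d2 : DifferentiableAt ℝ (fun w => 1 + S g w) z := (differentiableAt_const _).add d1
      have e1 : db (fun w => 1 + S g w) z = (dz (S g) z)ᴴ := by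
        have hh : ∀ᶠ w in 𝓝 z, (1 + S g w)ᴴ = 1 + S g w := by
          filter_upwards [isOpen_ball.mem_nhds hz] with w hw
          rw [Matrix.conjTranspose_add, Matrix.conjTranspose_one, (K_facts hS hN hg hw).1.eq]
        rw [db_eq_of_hermitian (F := fun w => 1 + S g w) d2 hh,
          dz_add (differentiableAt_const _) d1, dz_const, zero_add]
      have e2 : db (fun w => (1 + S g w)⁻¹) z =
          -((1 + S g z)⁻¹ * (dz (S g) z)ᴴ * (1 + S g z)⁻¹) := by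
        rw [db_inv (F := fun w => 1 + S g w) d2 hu, e1]
      have e3 : g z = FF (Θ z) (S g z) (dz (S g) z) := (hfix z hz).symm
      have e4 : (1 + S g z)⁻¹ * (1 + S g z) = 1 :=
        Matrix.nonsing_inv_mul _ ((Matrix.isUnit_iff_isUnit_det _).1 hu)
      rw [e2, hKb z hz]
      conv_lhs => rw [e3]
      unfold FF brk adj
      rw [Complex.ofReal_one, one_smul]
      generalize (1 + S g z) = X at *
      have e5 : X⁻¹ * (X * Θ z * X⁻¹ * (Θ z)ᴴ * X) = Θ z * (X⁻¹ * (Θ z)ᴴ * X) := by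
        calc X⁻¹ * (X * Θ z * X⁻¹ * (Θ z)ᴴ * X) = (X⁻¹ * X) * (Θ z * (X⁻¹ * (Θ z)ᴴ * X)) := by
              simp only [Matrix.mul_assoc]
          _ = _ := by rw [e4, Matrix.one_mul]
      rw [Matrix.mul_sub, Matrix.mul_add, e5]
      simp only [Matrix.neg_mul, Matrix.mul_assoc]
      abel

end Pool.Agent.HSC
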