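import Pool.Agent.HSC.Stmts

/-!
# The Dirichlet problem on the unit disc with Laurent polynomial boundary values
-/

set_option autoImplicit false

open scoped Matrix.Norms.Frobenius ContDiff Topology Manifold ComplexOrder
open Matrix Set Filter MeasureTheory Metric

noncomputable section

namespace Pool.Agent.HSC

namespace Solve

variable {r : ℕ}

theorem norm_sq_eq (A : M r) : ‖A‖ ^ 2 = (Aᴴ * A).trace.re := by
  rw [Matrix.frobenius_norm_def, ← Real.sqrt_eq_rpow, Real.sq_sqrt (by positivity)]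
  simp only [Matrix.trace, Matrix.diag, Matrix.mul_apply, Matrix.conjTranspose_apply,
    Complex.re_sum]
  rw [Finset.sum_comm]
  apply Finset.sum_congr rfl; intro i _
  apply Finset.sum_congr rfl; intro j _
  rw [Complex.star_def, Complex.conj_mul']
  norm_cast

theorem norm_entry_le (A : M r) (i j : Fin r) : ‖A i j‖ ≤ ‖A‖ := by
  rw [Matrix.frobenius_norm_def, ← Real.sqrt_eq_rpow]
  apply Real.le_sqrt_of_sq_le
  have h1 : ‖A i j‖ ^ (2 : ℝ) ≤ ∑ j', ‖A i j'‖ ^ (2 : ℝ) :=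
    Finset.single_le_sum (f := fun j' => ‖A i j'‖ ^ (2 : ℝ)) (fun _ _ => by positivity)
      (Finset.mem_univ j)
  have h2 : ∑ j', ‖A i j'‖ ^ (2 : ℝ) ≤ ∑ i', ∑ j', ‖A i' j'‖ ^ (2 : ℝ) :=
    Finset.single_le_sum (f := fun i' => ∑ j', ‖A i' j'‖ ^ (2 : ℝ)) (fun _ _ => by positivity)
      (Finset.mem_univ i)
  rw [← Real.rpow_natCast]
  push_cast
  exact h1.trans h2

theorem re_trace_le (A : M r) : A.trace.re ≤ r * ‖A‖ := by
  calc A.trace.re ≤ ‖A.trace‖ := Complex.re_le_norm _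
    _ ≤ ∑ i, ‖A i i‖ := norm_sum_le _ _
    _ ≤ ∑ _i : Fin r, ‖A‖ := Finset.sum_le_sum fun i _ => norm_entry_le A i i
    _ = r * ‖A‖ := by simp

theorem differentiableAt_inv_holo {F : ℂ → M r} {z : ℂ} (hF : DifferentiableAt ℂ F z)
    (hu : IsUnit (F z)) : DifferentiableAt ℂ (fun w => (F w)⁻¹) z := by
  rw [inv_eq]
  obtain ⟨u, hu⟩ := hu
  have h1 := hasFDerivAt_ringInverse (𝕜 := ℂ) u
  rw [hu] at h1
  exact (h1.comp z hF.hasFDerivAt).differentiableAt

end Solve

open Solve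

theorem solve_proof (hFact : Stmt_Fact) (hSmall : Stmt_Small) (hGauge : Stmt_Gauge)
    (hDT : Stmt_DT) : Stmt_Solve := by
  intro r B
  obtain ⟨ε₀, hε₀, hS⟩ := hSmall r
  set N : ℝ := r * (Real.sqrt r * Real.exp B) with hN
  have hN0 : 0 ≤ N := by positivity
  set D : ℝ := Real.sqrt N with hD
  have hD0 : 0 ≤ D := Real.sqrt_nonneg _
  refine ⟨ε₀ / (D * D + 1), by positivity, ?_⟩
  intro Θ hΘ hΘε d c hφ
  obtain ⟨H, hHd, hHu, hHφ⟩ := hFact r d c (fun z hz => (hφ z hz).1)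
  -- bounds on the circle
  have hb1 : ∀ z ∈ sphere (0 : ℂ) 1, ‖H z‖ ≤ D := by
    intro z hz
    apply Real.le_sqrt_of_sq_le
    rw [norm_sq_eq, hHφ z hz]
    refine (re_trace_le _).trans ?_
    exact mul_le_mul_of_nonneg_left (hDT.norm_le r _ B (hφ z hz).1 (hφ z hz).2).1 (by positivity)
  have hb2 : ∀ z ∈ sphere (0 : ℂ) 1, ‖(H z)⁻¹‖ ≤ D := by
    intro z hz
    apply Real.le_sqrt_of_sq_le
    have hinv : (Lp d c z)⁻¹ = (H z)⁻¹ * ((H z)⁻¹)ᴴ := by
      rw [← hHφ z hz, Matrix.mul_inv_rev, Matrix.conjTranspose_nonsing_inv]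
    rw [norm_sq_eq, Matrix.trace_mul_comm, ← hinv]
    refine (re_trace_le _).trans ?_
    exact mul_le_mul_of_nonneg_left (hDT.norm_le r _ B (hφ z hz).1 (hφ z hz).2).2 (by positivity)
  have hfr : frontier (ball (0 : ℂ) 1) = sphere 0 1 := frontier_ball 0 one_ne_zero
  have hcl : closure (ball (0 : ℂ) 1) = closedBall 0 1 := closure_ball 0 one_ne_zero
  -- bounds on the disc
  have hB1 : ∀ z ∈ closedBall (0 : ℂ) 1, ‖H z‖ ≤ D := by
    intro z hz
    refine Complex.norm_le_of_forall_mem_frontier_norm_le (U := ball (0 : ℂ) 1) isBounded_ball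
      hHd.diffContOnCl (fun w hw => ?_) (by rw [hcl]; exact hz)
    rw [hfr] at hw
    exact hb1 w hw
  have hHinvd : ∀ z ∈ closedBall (0 : ℂ) 1, DifferentiableAt ℂ (fun w => (H w)⁻¹) z :=
    fun z hz => differentiableAt_inv_holo (hHd z) (hHu z hz)
  have hB2 : ∀ z ∈ closedBall (0 : ℂ) 1, ‖(H z)⁻¹‖ ≤ D := by
    intro z hz
    refine Complex.norm_le_of_forall_mem_frontier_norm_le (f := fun w => (H w)⁻¹)
      (U := ball (0 : ℂ) 1) isBounded_ball
      ⟨fun w hw => (hHinvd w (ball_subset_closedBall hw)).differentiableWithinAt, ?_⟩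
      (fun w hw => ?_) (by rw [hcl]; exact hz)
    · rw [hcl]
      exact fun w hw => (hHinvd w hw).continuousAt.continuousWithinAt
    · rw [hfr] at hw
      exact hb2 w hw
  -- the transformed Higgs field
  have hΘ'd : DifferentiableOn ℂ (fun z => H z * Θ z * (H z)⁻¹) (ball 0 1) := by
    intro z hz
    have h1 : DifferentiableAt ℂ Θ z := hΘ.differentiableAt (isOpen_ball.mem_nhds hz)
    exact (((hHd z).mul h1).mul (hHinvd z (ball_subset_closedBall hz))).differentiableWithinAt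
  have hΘ'b : ∀ z ∈ ball (0 : ℂ) 1, ‖H z * Θ z * (H z)⁻¹‖ ≤ ε₀ := by
    intro z hz
    have hz' := ball_subset_closedBall hz
    calc ‖H z * Θ z * (H z)⁻¹‖ ≤ ‖H z * Θ z‖ * ‖(H z)⁻¹‖ := norm_mul_le _ _
      _ ≤ (‖H z‖ * ‖Θ z‖) * ‖(H z)⁻¹‖ := by gcongr; exact norm_mul_le _ _
      _ ≤ (D * (ε₀ / (D * D + 1))) * D := by
          gcongr
          · exact hB1 z hz'
          · exact hΘε z hz
          · exact hB2 z hz'
      _ = ε₀ * ((D * D) / (D * D + 1)) := by ring
      _ ≤ ε₀ * 1 := by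
          gcongr
          rw [div_le_one (by positivity)]
          linarith
      _ = ε₀ := mul_one _
  obtain ⟨K, hKc, hKp, hK1, hKS⟩ := hS _ hΘ'd hΘ'b
  refine ⟨fun z => (H z)ᴴ * K z * H z, ?_, ?_, ?_, ?_⟩
  · have h1 : ContinuousOn H (closedBall 0 1) := hHd.continuous.continuousOn
    have h2 : ContinuousOn (fun z => (H z)ᴴ) (closedBall 0 1) :=
      (continuous_star.comp hHd.continuous).continuousOn
    exact (h2.mul hKc).mul h1
  · intro z hz
    obtain ⟨u, hu⟩ := hHu z hz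
    have hinj : Function.Injective (H z).mulVec := by
      rw [Matrix.mulVec_injective_iff_isUnit]
      exact ⟨u, hu⟩
    exact (hKp z hz).conjTranspose_mul_mul_same hinj
  · intro z hz
    simp only
    rw [hK1 z hz, Matrix.mul_one, hHφ z hz]
  · have hG := hGauge r (ball 0 1) (ball 0 1) 1 _ K H (fun z => z) isOpen_ball isOpen_ball hKS
      differentiableOn_id (fun z hz => hz) hHd.differentiableOn
      (fun z hz => hHu z (ball_subset_closedBall hz))
    have heq : ∀ z ∈ ball (0 : ℂ) 1,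
        deriv (fun z : ℂ => z) z • ((H z)⁻¹ * (H z * Θ z * (H z)⁻¹) * H z) = Θ z := by
      intro z hz
      obtain ⟨u, hu⟩ := hHu z (ball_subset_closedBall hz)
      have hdet : IsUnit (H z).det := (Matrix.isUnit_iff_isUnit_det _).1 ⟨u, hu⟩
      rw [deriv_id'', one_smul]
      rw [← Matrix.mul_assoc, ← Matrix.mul_assoc, Matrix.nonsing_inv_mul _ hdet, Matrix.one_mul,
        Matrix.mul_assoc, Matrix.nonsing_inv_mul _ hdet, Matrix.mul_one]
    refine ⟨hG.smooth, hG.pos, fun z hz => ?_⟩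
    have h2 := hG.eqn z hz
    simp only [heq z hz] at h2
    exact h2

end Pool.Agent.HSC
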