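import Pool.Agent.HSC.Stmts

/-!
# Module TP: the Thompson distance of two solutions is subharmonic (viscosity sense)
-/

set_option autoImplicit false

open scoped Matrix.Norms.Frobenius ContDiff Topology Manifold ComplexOrder ComplexConjugate
open Matrix Set Filter MeasureTheory Metric

noncomputable section

namespace Pool.Agent.HSC

namespace TP

variable {r : ℕ}

/-- the quadratic form -/
def qf (A : M r) (x : Fin r → ℂ) : ℂ := star x ⬝ᵥ (A *ᵥ x)

lemma shift (B : M r) (x y : Fin r → ℂ) : star x ⬝ᵥ (B *ᵥ y) = star (Bᴴ *ᵥ x) ⬝ᵥ y := by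
  rw [Matrix.star_mulVec, Matrix.conjTranspose_conjTranspose, Matrix.dotProduct_mulVec]

lemma qf_add (A B : M r) (x : Fin r → ℂ) : qf (A + B) x = qf A x + qf B x := by
  unfold qf
  rw [Matrix.add_mulVec, dotProduct_add]

lemma qf_sub (A B : M r) (x : Fin r → ℂ) : qf (A - B) x = qf A x - qf B x := by
  unfold qf
  rw [Matrix.sub_mulVec, dotProduct_sub]

lemma qf_smul (c : ℂ) (A : M r) (x : Fin r → ℂ) : qf (c • A) x = c * qf A x := by
  unfold qf
  rw [Matrix.smul_mulVec, dotProduct_smul, smul_eq_mul]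

lemma qf_real_smul (c : ℝ) (A : M r) (x : Fin r → ℂ) :
    qf A ((c : ℂ) • x) = ((c ^ 2 : ℝ) : ℂ) * qf A x := by
  unfold qf
  rw [Matrix.mulVec_smul, star_smul, smul_dotProduct, dotProduct_smul]
  simp only [smul_eq_mul, Complex.star_def, Complex.conj_ofReal]
  push_cast
  ring

lemma qf_pos {A : M r} (hA : A.PosDef) {x : Fin r → ℂ} (hx : x ≠ 0) :
    0 < (qf A x).re ∧ qf A x = (((qf A x).re : ℝ) : ℂ) := by
  have h := hA.dotProduct_mulVec_pos hx
  have h1 : 0 < qf A x := h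
  rw [Complex.pos_iff] at h1
  exact ⟨h1.1, Complex.ext rfl (by simpa using h1.2.symm)⟩

lemma qf_nonneg {A : M r} (hA : A.PosSemidef) (x : Fin r → ℂ) : 0 ≤ (qf A x).re := by
  have h : 0 ≤ qf A x := hA.dotProduct_mulVec_nonneg x
  rw [Complex.nonneg_iff] at h
  exact h.1

lemma entry (A : M r) (V : Matrix (Fin r) (Fin 1) ℂ) :
    (Vᴴ * A * V) 0 0 = qf A (fun i => V i 0) := by
  rw [Matrix.mul_assoc]
  rfl

lemma ldet_one (A : M r) (V : Matrix (Fin r) (Fin 1) ℂ) :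
    ldet A V = Real.log (qf A (fun i => V i 0)).re := by
  unfold ldet
  rw [Matrix.det_fin_one, entry]

lemma trq_one (A Q : M r) (V : Matrix (Fin r) (Fin 1) ℂ)
    (_h : qf A (fun i => V i 0) ≠ 0) :
    trq A Q V = (qf (A * Q) (fun i => V i 0) / qf A (fun i => V i 0)).re := by
  unfold trq
  rw [Matrix.trace_fin_one, Matrix.mul_apply, Fin.sum_univ_one, Matrix.inv_def,
    Matrix.adjugate_fin_one, Matrix.det_fin_one, entry]
  have h1 : (Vᴴ * A * Q * V) 0 0 = qf (A * Q) (fun i => V i 0) := by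
    rw [Matrix.mul_assoc Vᴴ A Q, entry]
  rw [h1, Matrix.smul_apply, Matrix.one_apply_eq, smul_eq_mul, mul_one, Ring.inverse_eq_inv',
    div_eq_inv_mul]

/-- the quadratic form of the curvature -/
lemma qf_brk {K : M r} (hK : K.PosDef) (Θ : M r) (v : Fin r → ℂ) :
    qf (K * brk Θ K) v = qf K⁻¹ (Θᴴ *ᵥ (K *ᵥ v)) - qf K (Θ *ᵥ v) := by
  have hu : IsUnit K.det := (Matrix.isUnit_iff_isUnit_det K).mp hK.isUnit
  have hKh : Kᴴ = K := hK.isHermitian
  have e1 : K * brk Θ K = (K * Θ) * (K⁻¹ * (Θᴴ * K)) - Θᴴ * (K * Θ) := by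
    unfold brk adj
    rw [Matrix.mul_sub]
    congr 1
    · simp only [Matrix.mul_assoc]
    · simp only [Matrix.mul_assoc]
      rw [← Matrix.mul_assoc K K⁻¹, Matrix.mul_nonsing_inv K hu, Matrix.one_mul]
  rw [e1, qf_sub]
  congr 1
  · unfold qf
    rw [← Matrix.mulVec_mulVec, shift, Matrix.conjTranspose_mul, hKh, ← Matrix.mulVec_mulVec,
      ← Matrix.mulVec_mulVec, ← Matrix.mulVec_mulVec]
  · unfold qf
    rw [← Matrix.mulVec_mulVec, shift, Matrix.conjTranspose_conjTranspose,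
      ← Matrix.mulVec_mulVec]

/-- the algebra of the comparison at a generalized eigenvector -/
lemma alg {K L Θ : M r} {q lam : ℝ} (hq : 0 ≤ q) (hlam : 0 < lam) (hK : K.PosDef) (hL : L.PosDef)
    (V : Matrix (Fin r) (Fin 1) ℂ) (hv : (fun i => V i 0) ≠ (0 : Fin r → ℂ))
    (hKv : K *ᵥ (fun i => V i 0) = (lam : ℂ) • (L *ᵥ (fun i => V i 0)))
    (h1 : ((lam : ℂ) • L - K).PosSemidef) (h2 : ((lam : ℂ) • K⁻¹ - L⁻¹).PosSemidef) :
    0 ≤ trq K ((q : ℂ) • brk Θ K) V - trq L ((q : ℂ) • brk Θ L) V := by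
  set v : Fin r → ℂ := fun i => V i 0 with hvdef
  obtain ⟨kp, kr⟩ := qf_pos hK hv
  obtain ⟨lp, lr⟩ := qf_pos hL hv
  have hk0 : qf K v ≠ 0 := by rw [kr]; exact_mod_cast kp.ne'
  have hl0 : qf L v ≠ 0 := by rw [lr]; exact_mod_cast lp.ne'
  have hkl : qf K v = (lam : ℂ) * qf L v := by
    unfold qf
    rw [hKv, dotProduct_smul, smul_eq_mul]
  set n : ℝ := (qf L v).re with hn
  have hkl' : qf K v = ((lam * n : ℝ) : ℂ) := by
    rw [hkl, lr]; push_cast; rfl
  rw [trq_one K _ V hk0, trq_one L _ V hl0, Matrix.mul_smul, Matrix.mul_smul, qf_smul, qf_smul,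
    qf_brk hK, qf_brk hL, ← hvdef, hkl', lr, hKv, Matrix.mulVec_smul, qf_real_smul]
  set w : Fin r → ℂ := Θᴴ *ᵥ (L *ᵥ v) with hw
  set u : Fin r → ℂ := Θ *ᵥ v with hu
  have a1 := qf_nonneg h1 u
  have a2 := qf_nonneg h2 w
  rw [qf_sub, qf_smul, Complex.sub_re, Complex.re_ofReal_mul] at a1 a2
  rw [Complex.div_ofReal_re, Complex.div_ofReal_re, Complex.re_ofReal_mul,
    Complex.re_ofReal_mul, Complex.sub_re, Complex.sub_re, Complex.re_ofReal_mul]
  have e : q * (lam ^ 2 * (qf K⁻¹ w).re - (qf K u).re) / (lam * n)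
      - q * ((qf L⁻¹ w).re - (qf L u).re) / n
      = q / n * ((lam * (qf K⁻¹ w).re - (qf L⁻¹ w).re)
        + (lam * (qf L u).re - (qf K u).re) / lam) := by
    field_simp
    ring
  rw [e]
  have hn0 : 0 < n := lp
  have : 0 ≤ (lam * (qf L u).re - (qf K u).re) / lam := div_nonneg a1 hlam.le
  have : 0 ≤ q / n := div_nonneg hq hn0.le
  positivity

lemma col_ne {V : Matrix (Fin r) (Fin 1) ℂ} (hV : Inj V) : (fun i => V i 0) ≠ (0 : Fin r → ℂ) := by
  intro h
  have h1 : V *ᵥ (fun _ => 1) = V *ᵥ 0 := by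
    funext i
    rw [Matrix.mulVec_zero]
    simp only [Matrix.mulVec, dotProduct, Fin.sum_univ_one, mul_one, Pi.zero_apply]
    exact congrFun h i
  have h2 := congrFun (hV h1) 0
  simp at h2

lemma inj_of {v : Fin r → ℂ} (hv : v ≠ 0) : Inj (Matrix.of fun i (_ : Fin 1) => v i) := by
  obtain ⟨i, hi⟩ := Function.ne_iff.mp hv
  intro x y hxy
  funext k
  have h := congrFun hxy i
  simp only [Matrix.mulVec, dotProduct, Fin.sum_univ_one, Matrix.of_apply] at h
  rw [Subsingleton.elim k 0]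
  exact mul_left_cancel₀ hi h

theorem core (hDT : Stmt_DT) (hTouch : Stmt_Touch) {U : Set ℂ} {q : ℝ} {Θ K L : ℂ → M r}
    (hU : IsOpen U) (hq : 0 ≤ q) (hK : Sol U q Θ K) (hL : Sol U q Θ L) {z₀ : ℂ} (hz : z₀ ∈ U)
    {ψ : ℂ → ℝ} (hψ : ContDiffAt ℝ 2 ψ z₀)
    (hmax : ∀ᶠ w in 𝓝 z₀, dT (K w) (L w) - ψ w ≤ dT (K z₀) (L z₀) - ψ z₀)
    {v : Fin r → ℂ} (hv : v ≠ 0)
    (hKv : K z₀ *ᵥ v = (Real.exp (dT (K z₀) (L z₀)) : ℂ) • (L z₀ *ᵥ v)) : 0 ≤ ddb ψ z₀ := by
  set V₀ : Matrix (Fin r) (Fin 1) ℂ := Matrix.of fun i (_ : Fin 1) => v i with hV₀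
  have hcol : (fun i => V₀ i 0) = v := rfl
  have hUn : ∀ᶠ z in 𝓝 z₀, z ∈ U := hU.mem_nhds hz
  have hT0 := hDT.thm r (K z₀) (L z₀) (hK.pos z₀ hz) (hL.pos z₀ hz)
  have key := hTouch r 1 K L z₀ V₀ ψ (hK.smooth.contDiffAt (hU.mem_nhds hz))
    (hL.smooth.contDiffAt (hU.mem_nhds hz)) (hUn.mono fun z hz' => hK.pos z hz')
    (hUn.mono fun z hz' => hL.pos z hz') (inj_of hv) hψ (by
      filter_upwards [hmax, hUn] with w hw hwU
      intro V hV
      have hne := col_ne hV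
      have hkp := (qf_pos (hK.pos w hwU) hne).1
      have hlp := (qf_pos (hL.pos w hwU) hne).1
      have hT := hDT.thm r (K w) (L w) (hK.pos w hwU) (hL.pos w hwU)
      have h1 := qf_nonneg hT.1 (fun i => V i 0)
      rw [qf_sub, qf_smul, Complex.sub_re, Complex.re_ofReal_mul] at h1
      have h2 : ldet (K w) V ≤ dT (K w) (L w) + ldet (L w) V := by
        rw [ldet_one, ldet_one, ← Real.log_exp (dT (K w) (L w)),
          ← Real.log_mul (Real.exp_pos _).ne' hlp.ne']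
        exact Real.log_le_log hkp (by linarith)
      have h3 : ldet (K z₀) V₀ = dT (K z₀) (L z₀) + ldet (L z₀) V₀ := by
        have hlp0 := (qf_pos (hL.pos z₀ hz) hv).1
        rw [ldet_one, ldet_one, hcol, ← Real.log_exp (dT (K z₀) (L z₀)),
          ← Real.log_mul (Real.exp_pos _).ne' hlp0.ne']
        congr 1
        unfold qf
        rw [hKv, dotProduct_smul, smul_eq_mul, Complex.re_ofReal_mul]
      linarith)
  rw [hK.eqn z₀ hz, hL.eqn z₀ hz] at key
  have hinv := hDT.inv r (K z₀) (L z₀) _ (hK.pos z₀ hz) (hL.pos z₀ hz) hT0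
  have := alg (Θ := Θ z₀) hq (Real.exp_pos (dT (K z₀) (L z₀))) (hK.pos z₀ hz) (hL.pos z₀ hz) V₀
    (by rw [hcol]; exact hv) (by rw [hcol]; exact hKv) hT0.1 hinv.2
  exact this.trans key

end TP

open TP in
theorem tp_proof (hDT : Stmt_DT) (hTouch : Stmt_Touch) (hLM : Stmt_LocMax) : Stmt_TP := by
  intro r U q Θ K L hU hq hK hL z₀ hz ψ hψ hmax
  rw [neg_zero]
  rcases (hDT.nonneg r (K z₀) (L z₀)).eq_or_lt with h0 | hpos
  · have hlm : IsLocalMax (fun w => - ψ w) z₀ := by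
      filter_upwards [hmax] with w hw
      have h1 := hDT.nonneg r (K w) (L w)
      rw [← h0] at hw
      show - ψ w ≤ - ψ z₀
      linarith
    have h2 := hLM (fun w => - ψ w) z₀ hψ.neg hlm
    rw [ddb_neg hψ] at h2
    linarith
  · obtain ⟨v, hv, h | h⟩ := hDT.att r (K z₀) (L z₀) (hK.pos z₀ hz) (hL.pos z₀ hz) hpos
    · exact core hDT hTouch hU hq hK hL hz hψ hmax hv h
    · refine core hDT hTouch hU hq hL hK hz hψ ?_ hv ?_
      · filter_upwards [hmax] with w hw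
        rw [hDT.comm r (L w) (K w), hDT.comm r (L z₀) (K z₀)]
        exact hw
      · rw [hDT.comm r (L z₀) (K z₀)]
        exact h

end Pool.Agent.HSC
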