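import Pool.Agent.HSC.Stmts

/-!
# Squad HSC, module TPC: the Thompson distance of a solution to a constant matrix is almost
subharmonic
-/

set_option autoImplicit false

open scoped Matrix.Norms.Frobenius ContDiff Topology Manifold ComplexOrder ComplexConjugate
open Matrix Set Filter MeasureTheory Metric

noncomputable section

namespace Pool.Agent.HSC

namespace TPC

variable {r : ℕ}

/-- the value of a quadratic form -/
def qf (A : M r) (x : Fin r → ℂ) : ℝ := (star x ⬝ᵥ (A *ᵥ x)).re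

theorem qf_sub (A B : M r) (x : Fin r → ℂ) : qf (A - B) x = qf A x - qf B x := by
  simp [qf, Matrix.sub_mulVec, dotProduct_sub]

theorem qf_smul (c : ℝ) (A : M r) (x : Fin r → ℂ) : qf ((c : ℂ) • A) x = c * qf A x := by
  simp [qf, Matrix.smul_mulVec, dotProduct_smul]

theorem qf_nonneg {A : M r} (hA : A.PosSemidef) (x : Fin r → ℂ) : 0 ≤ qf A x := by
  have h := hA.dotProduct_mulVec_nonneg x
  exact (Complex.le_def.1 h).1

theorem qf_pos {A : M r} (hA : A.PosDef) {x : Fin r → ℂ} (hx : x ≠ 0) : 0 < qf A x := by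
  have h := hA.dotProduct_mulVec_pos hx
  exact (Complex.lt_def.1 h).1

theorem qf_im {A : M r} (hA : A.PosSemidef) (x : Fin r → ℂ) :
    (star x ⬝ᵥ (A *ᵥ x)) = (qf A x : ℂ) := by
  have h := hA.dotProduct_mulVec_nonneg x
  apply Complex.ext
  · simp [qf]
  · have := (Complex.le_def.1 h).2
    simp only [Complex.zero_im] at this
    rw [Complex.ofReal_im]
    exact this.symm

theorem qf_conj (A W : M r) (x : Fin r → ℂ) : qf (Wᴴ * A * W) x = qf A (W *ᵥ x) := by
  unfold qf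
  congr 1
  rw [Matrix.star_mulVec, ← Matrix.mulVec_mulVec, ← Matrix.mulVec_mulVec,
    Matrix.dotProduct_mulVec (star x) Wᴴ]

theorem thm_le {c : ℝ} {A B : M r} (h : Thm c A B) (x : Fin r → ℂ) :
    qf A x ≤ Real.exp c * qf B x ∧ qf B x ≤ Real.exp c * qf A x := by
  have h1 := qf_nonneg h.1 x
  have h2 := qf_nonneg h.2 x
  rw [qf_sub, qf_smul] at h1 h2
  constructor <;> linarith

theorem qf_smul_vec (A : M r) (c : ℝ) (x : Fin r → ℂ) :
    qf A ((c : ℂ) • x) = c ^ 2 * qf A x := by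
  unfold qf
  rw [Matrix.mulVec_smul, star_smul, smul_dotProduct, dotProduct_smul, smul_smul]
  simp only [Complex.star_def, Complex.conj_ofReal, smul_eq_mul]
  rw [← Complex.ofReal_mul, Complex.re_ofReal_mul]
  ring

theorem qf_one (x : Fin r → ℂ) : qf (1 : M r) x = ‖WithLp.toLp 2 x‖ ^ 2 := by
  unfold qf
  rw [Matrix.one_mulVec, EuclideanSpace.norm_sq_eq]
  simp only [dotProduct, Complex.re_sum, Pi.star_apply]
  refine Finset.sum_congr rfl fun i _ => ?_
  have : star (x i) * x i = ((Complex.normSq (x i) : ℝ) : ℂ) :=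
    Complex.normSq_eq_conj_mul_self.symm
  rw [this, Complex.ofReal_re, Complex.normSq_eq_norm_sq]

theorem qf_one_mulVec_le (A : M r) (x : Fin r → ℂ) :
    qf (1 : M r) (A *ᵥ x) ≤ ‖A‖ ^ 2 * qf (1 : M r) x := by
  rw [qf_one, qf_one]
  have h1 := Matrix.frobenius_norm_mul A (Matrix.replicateCol (Fin 1) x)
  rw [← Matrix.replicateCol_mulVec] at h1
  have e1 : ‖Matrix.replicateCol (Fin 1) (A *ᵥ x)‖ = ‖WithLp.toLp 2 (A *ᵥ x)‖ :=
    Matrix.frobenius_norm_replicateCol _
  have e2 : ‖Matrix.replicateCol (Fin 1) x‖ = ‖WithLp.toLp 2 x‖ :=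
    Matrix.frobenius_norm_replicateCol _
  rw [e1, e2] at h1
  calc ‖WithLp.toLp 2 (A *ᵥ x)‖ ^ 2 ≤ (‖A‖ * ‖WithLp.toLp 2 x‖) ^ 2 :=
        pow_le_pow_left₀ (norm_nonneg _) h1 2
    _ = ‖A‖ ^ 2 * ‖WithLp.toLp 2 x‖ ^ 2 := by ring

/-- the first column -/
def col (V : Matrix (Fin r) (Fin 1) ℂ) : Fin r → ℂ := fun i => V i 0

/-- a matrix with one column -/
def mk (v : Fin r → ℂ) : Matrix (Fin r) (Fin 1) ℂ := Matrix.of fun i _ => v i

theorem col_mk (v : Fin r → ℂ) : col (mk v) = v := rfl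

theorem entry (A : M r) (V : Matrix (Fin r) (Fin 1) ℂ) :
    (Vᴴ * A * V) 0 0 = star (col V) ⬝ᵥ (A *ᵥ col V) := by
  rw [Matrix.mul_assoc, Matrix.mul_apply]
  rfl

theorem col_ne {V : Matrix (Fin r) (Fin 1) ℂ} (h : Inj V) : col V ≠ 0 := by
  intro h0
  have h1 : V *ᵥ (fun _ => (1 : ℂ)) = V *ᵥ 0 := by
    rw [Matrix.mulVec_zero]
    ext i
    have := congrFun h0 i
    simp only [col, Pi.zero_apply] at this
    simp [Matrix.mulVec, dotProduct, this]
  have h2 := congrFun (h h1) 0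
  simp at h2

theorem inj_mk {v : Fin r → ℂ} (h : v ≠ 0) : Inj (mk v) := by
  intro a b hab
  obtain ⟨i, hi⟩ := Function.ne_iff.1 h
  have h1 := congrFun hab i
  simp only [mk, Matrix.mulVec, dotProduct, Fin.sum_univ_one, Matrix.of_apply] at h1
  have h2 := mul_left_cancel₀ hi h1
  ext k
  rw [Subsingleton.elim k 0]
  exact h2

theorem ldet_one (A : M r) (V : Matrix (Fin r) (Fin 1) ℂ) : ldet A V = Real.log (qf A (col V)) := by
  unfold ldet
  rw [Matrix.det_fin_one, entry]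
  rfl

theorem trq_one {K : M r} (hK : K.PosDef) (Q : M r) {V : Matrix (Fin r) (Fin 1) ℂ} :
    trq K Q V = qf (K * Q) (col V) / qf K (col V) := by
  unfold trq
  have h1 : (Vᴴ * K * V)⁻¹ = ((qf K (col V) : ℂ))⁻¹ • (1 : M 1) := by
    rw [Matrix.inv_def, Matrix.det_fin_one, entry, qf_im hK.posSemidef, Ring.inverse_eq_inv']
    congr 1
    exact Matrix.adjugate_fin_one _
  rw [h1, Matrix.smul_mul, Matrix.one_mul, Matrix.trace_smul, Matrix.trace_fin_one]
  have h2 : (Vᴴ * K * Q * V) 0 0 = star (col V) ⬝ᵥ ((K * Q) *ᵥ col V) := by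
    rw [Matrix.mul_assoc Vᴴ K Q, entry]
  rw [h2, smul_eq_mul, ← Complex.ofReal_inv, Complex.re_ofReal_mul]
  unfold qf
  rw [div_eq_inv_mul]

theorem mul_brk {K : M r} (hK : K.PosDef) (Θ : M r) (q : ℝ) (x : Fin r → ℂ) :
    qf (K * ((q : ℂ) • brk Θ K)) x =
      q * (qf K⁻¹ (Θᴴ *ᵥ (K *ᵥ x)) - qf K (Θ *ᵥ x)) := by
  have hdet : IsUnit K.det := (Matrix.isUnit_iff_isUnit_det _).1 hK.isUnit
  have hKH : Kᴴ = K := hK.isHermitian
  have h1 : K * brk Θ K = (Θᴴ * K)ᴴ * K⁻¹ * (Θᴴ * K) - Θᴴ * K * Θ := by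
    unfold brk adj
    rw [Matrix.conjTranspose_mul, Matrix.conjTranspose_conjTranspose, hKH, Matrix.mul_sub]
    congr 1
    · simp only [Matrix.mul_assoc]
    · have : K * (K⁻¹ * Θᴴ * K * Θ) = (K * K⁻¹) * (Θᴴ * K * Θ) := by
        simp only [Matrix.mul_assoc]
      rw [this, Matrix.mul_nonsing_inv _ hdet, Matrix.one_mul]
  rw [Matrix.mul_smul, qf_smul, h1, qf_sub, qf_conj, qf_conj, Matrix.mulVec_mulVec]

end TPC

open TPC in
theorem tpc_proof (hDT : Stmt_DT) (hTouch : Stmt_Touch) (hLocMax : Stmt_LocMax) : Stmt_TPC := by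
  intro r q B c hq hc
  refine ⟨q * B ^ 2 * Real.exp (2 * c), by positivity, ?_⟩
  intro U Θ K P₀ hU hS hB hP₀ hT z₀ hz₀ ψ hψ hmax
  have hC : 0 ≤ q * B ^ 2 * Real.exp (2 * c) := by positivity
  have hKz := hS.pos z₀ hz₀
  have hnhds : ∀ᶠ w in 𝓝 z₀, w ∈ U := hU.mem_nhds hz₀
  have hKs : ContDiffAt ℝ ∞ K z₀ := hS.smooth.contDiffAt (hU.mem_nhds hz₀)
  have hPs : ContDiffAt ℝ ∞ (fun _ : ℂ => P₀) z₀ := contDiffAt_const
  have hQP : Qc (fun _ : ℂ => P₀) z₀ = 0 := by
    unfold Qc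
    have : (fun w : ℂ => P₀⁻¹ * dz (fun _ : ℂ => P₀) w) = fun _ => 0 := by
      funext w
      rw [dz_const, Matrix.mul_zero]
    rw [this, db_const]
  have htrP : ∀ V : Matrix (Fin r) (Fin 1) ℂ, trq P₀ (Qc (fun _ : ℂ => P₀) z₀) V = 0 := by
    intro V
    rw [hQP, trq_one hP₀]
    simp [qf]
  have hΘ : ‖Θ z₀‖ ^ 2 ≤ B ^ 2 := pow_le_pow_left₀ (norm_nonneg _) (hB z₀ hz₀) 2
  have hexp : Real.exp (2 * c) = Real.exp c * Real.exp c := by
    rw [← Real.exp_add]
    congr 1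
    ring
  have hT' : Thm c P₀⁻¹ (1 : M r)⁻¹ := hDT.inv r P₀ 1 c hP₀ Matrix.PosDef.one hT
  rw [inv_one] at hT'
  by_cases hD : 0 < dT (K z₀) P₀
  · obtain ⟨v, hv, hatt⟩ := hDT.att r (K z₀) P₀ hKz hP₀ hD
    set D := dT (K z₀) P₀ with hDdef
    have hthm : ∀ w ∈ U, Thm (dT (K w) P₀) (K w) P₀ := fun w hw =>
      hDT.thm r (K w) P₀ (hS.pos w hw) hP₀
    have hKv : 0 < qf (K z₀) v := qf_pos hKz hv
    have hPv : 0 < qf P₀ v := qf_pos hP₀ hv
    rcases hatt with hatt | hatt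
    · -- `K v = e^D P₀ v`
      have e1 : qf (K z₀) v = Real.exp D * qf P₀ v := by
        unfold qf
        rw [hatt, dotProduct_smul, smul_eq_mul, Complex.re_ofReal_mul]
      have key := hTouch r 1 K (fun _ => P₀) z₀ (mk v) ψ hKs hPs
        (hnhds.mono fun w hw => hS.pos w hw) (Eventually.of_forall fun _ => hP₀) (inj_mk hv) hψ
        (by
          filter_upwards [hmax, hnhds] with w hw hwU V hV
          have hx := col_ne hV
          rw [ldet_one, ldet_one, ldet_one, ldet_one, col_mk, e1,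
            Real.log_mul (Real.exp_ne_zero _) hPv.ne', Real.log_exp]
          have h1 := (thm_le (hthm w hwU) (col V)).1
          have h2 := Real.log_le_log (qf_pos (hS.pos w hwU) hx) h1
          rw [Real.log_mul (Real.exp_ne_zero _) (qf_pos hP₀ hx).ne', Real.log_exp] at h2
          linarith)
      rw [htrP, sub_zero, hS.eqn z₀ hz₀, trq_one hKz, mul_brk hKz, col_mk] at key
      refine le_trans ?_ key
      rw [le_div_iff₀ hKv]
      have h1 : 0 ≤ qf (K z₀)⁻¹ ((Θ z₀)ᴴ *ᵥ (K z₀ *ᵥ v)) := qf_nonneg hKz.inv.posSemidef _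
      -- `qf K (Θ v) ≤ e^(2c) B² qf K v`
      have h2 : qf (K z₀) (Θ z₀ *ᵥ v) ≤ Real.exp (2 * c) * B ^ 2 * qf (K z₀) v := by
        have a1 := (thm_le (hthm z₀ hz₀) (Θ z₀ *ᵥ v)).1
        have a2 := (thm_le hT (Θ z₀ *ᵥ v)).1
        have a3 := qf_one_mulVec_le (Θ z₀) v
        have a4 := (thm_le hT v).2
        have a5 : 0 ≤ qf (1 : M r) v := qf_nonneg Matrix.PosSemidef.one v
        have a6 : qf (1 : M r) (Θ z₀ *ᵥ v) ≤ B ^ 2 * (Real.exp c * qf P₀ v) :=
          (a3.trans (mul_le_mul_of_nonneg_right hΘ a5)).trans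
            (mul_le_mul_of_nonneg_left a4 (sq_nonneg B))
        calc qf (K z₀) (Θ z₀ *ᵥ v) ≤ Real.exp D * qf P₀ (Θ z₀ *ᵥ v) := a1
          _ ≤ Real.exp D * (Real.exp c * (B ^ 2 * (Real.exp c * qf P₀ v))) := by
              refine mul_le_mul_of_nonneg_left ?_ (Real.exp_pos _).le
              exact a2.trans (mul_le_mul_of_nonneg_left a6 (Real.exp_pos _).le)
          _ = Real.exp (2 * c) * B ^ 2 * qf (K z₀) v := by
              rw [e1, hexp]
              ring
      have h3 := mul_le_mul_of_nonneg_left h2 hq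
      have h4 := mul_nonneg hq h1
      nlinarith [h3, h4]
    · -- `P₀ v = e^D K v`
      have e1 : qf P₀ v = Real.exp D * qf (K z₀) v := by
        unfold qf
        rw [hatt, dotProduct_smul, smul_eq_mul, Complex.re_ofReal_mul]
      have key := hTouch r 1 (fun _ => P₀) K z₀ (mk v) ψ hPs hKs
        (Eventually.of_forall fun _ => hP₀) (hnhds.mono fun w hw => hS.pos w hw) (inj_mk hv) hψ
        (by
          filter_upwards [hmax, hnhds] with w hw hwU V hV
          have hx := col_ne hV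
          rw [ldet_one, ldet_one, ldet_one, ldet_one, col_mk, e1,
            Real.log_mul (Real.exp_ne_zero _) hKv.ne', Real.log_exp]
          have h1 := (thm_le (hthm w hwU) (col V)).2
          have h2 := Real.log_le_log (qf_pos hP₀ hx) h1
          rw [Real.log_mul (Real.exp_ne_zero _) (qf_pos (hS.pos w hwU) hx).ne', Real.log_exp] at h2
          linarith)
      rw [htrP, zero_sub, hS.eqn z₀ hz₀, trq_one hKz, mul_brk hKz, col_mk] at key
      refine le_trans ?_ key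
      rw [neg_le_neg_iff, div_le_iff₀ hKv]
      have h1 : 0 ≤ qf (K z₀) (Θ z₀ *ᵥ v) := qf_nonneg hKz.posSemidef _
      have h2 : qf (K z₀)⁻¹ ((Θ z₀)ᴴ *ᵥ (K z₀ *ᵥ v)) ≤
          Real.exp (2 * c) * B ^ 2 * qf (K z₀) v := by
        set y := (Θ z₀)ᴴ *ᵥ (K z₀ *ᵥ v) with hy
        have a0 : Thm D (K z₀)⁻¹ P₀⁻¹ := hDT.inv r (K z₀) P₀ D hKz hP₀ (hthm z₀ hz₀)
        have a1 := (thm_le a0 y).1
        have a2 := (thm_le hT' y).1
        have a3 := qf_one_mulVec_le (Θ z₀)ᴴ (K z₀ *ᵥ v)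
        rw [Matrix.frobenius_norm_conjTranspose] at a3
        have a5 : 0 ≤ qf (1 : M r) (K z₀ *ᵥ v) := qf_nonneg Matrix.PosSemidef.one _
        -- `|P₀ v|² ≤ e^c qf P₀ v`
        have a6 : qf (1 : M r) (P₀ *ᵥ v) ≤ Real.exp c * qf P₀ v := by
          have b1 := (thm_le hT' (P₀ *ᵥ v)).2
          have b2 : qf P₀⁻¹ (P₀ *ᵥ v) = qf P₀ v := by
            rw [← qf_conj, hP₀.isHermitian.eq, Matrix.mul_nonsing_inv _
              ((Matrix.isUnit_iff_isUnit_det _).1 hP₀.isUnit), Matrix.one_mul]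
          rw [b2] at b1
          exact b1
        have a7 : qf (1 : M r) (K z₀ *ᵥ v) = Real.exp (-D) ^ 2 * qf (1 : M r) (P₀ *ᵥ v) := by
          have : K z₀ *ᵥ v = ((Real.exp (-D) : ℝ) : ℂ) • (P₀ *ᵥ v) := by
            rw [hatt, smul_smul, ← Complex.ofReal_mul, ← Real.exp_add, neg_add_cancel,
              Real.exp_zero, Complex.ofReal_one, one_smul]
          rw [this, qf_smul_vec]
        have hexpD : Real.exp D * Real.exp (-D) = 1 := by
          rw [← Real.exp_add, add_neg_cancel, Real.exp_zero]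
        calc qf (K z₀)⁻¹ y ≤ Real.exp D * qf P₀⁻¹ y := a1
          _ ≤ Real.exp D * (Real.exp c * (B ^ 2 * (Real.exp (-D) ^ 2 *
              (Real.exp c * qf P₀ v)))) := by
              refine mul_le_mul_of_nonneg_left ?_ (Real.exp_pos _).le
              refine a2.trans (mul_le_mul_of_nonneg_left ?_ (Real.exp_pos _).le)
              refine (a3.trans (mul_le_mul_of_nonneg_right hΘ a5)).trans
                (mul_le_mul_of_nonneg_left ?_ (sq_nonneg B))
              rw [a7]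
              exact mul_le_mul_of_nonneg_left a6 (sq_nonneg _)
          _ = (Real.exp D * Real.exp (-D)) ^ 2 * (Real.exp (2 * c) * B ^ 2 * qf (K z₀) v) := by
              rw [e1, hexp]
              ring
          _ = Real.exp (2 * c) * B ^ 2 * qf (K z₀) v := by
              rw [hexpD, one_pow, one_mul]
      have h3 := mul_le_mul_of_nonneg_left h2 hq
      have h4 := mul_nonneg hq h1
      nlinarith [h3, h4]
  · have hD0 : dT (K z₀) P₀ = 0 := le_antisymm (not_lt.1 hD) (hDT.nonneg _ _ _)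
    have h1 : IsLocalMax (fun w => - ψ w) z₀ := by
      filter_upwards [hmax] with w hw
      have h2 := hDT.nonneg r (K w) P₀
      rw [hD0] at hw
      linarith
    have h2 := hLocMax (fun w => - ψ w) z₀ hψ.neg h1
    rw [ddb_neg hψ] at h2
    linarith

end Pool.Agent.HSC
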