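import Pool.Agent.HSC.Stmts

/-!
# The touching lemma
-/

set_option autoImplicit false

open scoped Matrix.Norms.Frobenius ContDiff Topology Manifold ComplexOrder ComplexConjugate
open Matrix Set Filter MeasureTheory Metric

noncomputable section

namespace Pool.Agent.HSC

namespace Touch

theorem two_le : (2 : WithTop ℕ∞) ≤ ∞ := WithTop.coe_le_coe.2 le_top

/-! ### Algebra -/

section alg

open scoped MatrixOrder

theorem exists_factor {j : ℕ} {A : M j} (hA : A.PosSemidef) : ∃ Y : M j, A = Yᴴ * Y := by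
  obtain ⟨B, hB⟩ := CStarAlgebra.nonneg_iff_eq_star_mul_self.mp hA.nonneg
  exact ⟨B, hB⟩

end alg

theorem trace_mul_nonneg {j : ℕ} {A B : M j} (hA : A.PosSemidef) (hB : B.PosSemidef) :
    0 ≤ ((A * B).trace).re := by
  obtain ⟨Y, rfl⟩ := exists_factor hA
  have h1 : (Yᴴ * Y * B).trace = (Y * B * Yᴴ).trace := by
    rw [Matrix.mul_assoc, Matrix.trace_mul_comm]
  rw [h1]
  have h2 := (hB.mul_mul_conjTranspose_same Y).trace_nonneg
  exact (Complex.le_def.mp h2).1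

theorem isUnit_det_of_posDef {j : ℕ} {A : M j} (hA : A.PosDef) : IsUnit A.det :=
  (Matrix.isUnit_iff_isUnit_det _).1 hA.isUnit

theorem compl_psd {r j : ℕ} {K : M r} (hK : K.PosDef) (V : Matrix (Fin r) (Fin j) ℂ)
    (hV : Inj V) : (K⁻¹ - V * (Vᴴ * K * V)⁻¹ * Vᴴ).PosSemidef := by
  have hN : (Vᴴ * K * V).PosDef := hK.conjTranspose_mul_mul_same hV
  set N := Vᴴ * K * V with hNdef
  have hKu := isUnit_det_of_posDef hK
  have hNu := isUnit_det_of_posDef hN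
  set E := K⁻¹ - V * N⁻¹ * Vᴴ with hE
  have hNh : (N⁻¹)ᴴ = N⁻¹ := hN.inv.1
  have hKh : (K⁻¹)ᴴ = K⁻¹ := hK.inv.1
  have hEh : Eᴴ = E := by
    rw [hE, Matrix.conjTranspose_sub, hKh, Matrix.conjTranspose_mul, Matrix.conjTranspose_mul,
      Matrix.conjTranspose_conjTranspose, hNh, Matrix.mul_assoc]
  have h1 : K⁻¹ * K = 1 := Matrix.nonsing_inv_mul _ hKu
  have h2 : N * N⁻¹ = 1 := Matrix.mul_nonsing_inv _ hNu
  have hEKE : Eᴴ * K * E = E := by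
    rw [hEh]
    have h3 : E * K = 1 - V * N⁻¹ * Vᴴ * K := by
      rw [hE, Matrix.sub_mul, h1]
    have h4 : E * K * V = 0 := by
      rw [h3, Matrix.sub_mul, Matrix.one_mul]
      have h5 : V * N⁻¹ * Vᴴ * K * V = V * (N⁻¹ * N) := by
        rw [hNdef]
        simp only [Matrix.mul_assoc]
      rw [h5, Matrix.nonsing_inv_mul _ hNu, Matrix.mul_one, sub_self]
    have h6 : E * K * E = E * K * K⁻¹ - E * K * V * (N⁻¹ * Vᴴ) := by
      calc E * K * E = E * K * (K⁻¹ - V * N⁻¹ * Vᴴ) := rfl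
        _ = E * K * K⁻¹ - E * K * V * (N⁻¹ * Vᴴ) := by
          rw [Matrix.mul_sub]
          congr 1
          simp only [Matrix.mul_assoc]
    rw [h6, h4, Matrix.zero_mul, sub_zero, Matrix.mul_assoc, Matrix.mul_nonsing_inv _ hKu,
      Matrix.mul_one]
  rw [← hEKE]
  exact hK.posSemidef.conjTranspose_mul_mul_same E

/-- the second trace is nonnegative -/
theorem extra_nonneg {r j : ℕ} {K : M r} (hK : K.PosDef) (V : Matrix (Fin r) (Fin j) ℂ)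
    (hV : Inj V) (A : M r) :
    0 ≤ (((Vᴴ * K * V)⁻¹ * (Vᴴ * Aᴴ * (K⁻¹ - V * (Vᴴ * K * V)⁻¹ * Vᴴ) * A * V)).trace).re := by
  have hN : (Vᴴ * K * V).PosDef := hK.conjTranspose_mul_mul_same hV
  apply trace_mul_nonneg hN.inv.posSemidef
  have h1 := (compl_psd hK V hV).conjTranspose_mul_mul_same (A * V)
  have h2 : Vᴴ * Aᴴ * (K⁻¹ - V * (Vᴴ * K * V)⁻¹ * Vᴴ) * A * V =
      (A * V)ᴴ * (K⁻¹ - V * (Vᴴ * K * V)⁻¹ * Vᴴ) * (A * V) := by
    rw [Matrix.conjTranspose_mul]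
    simp only [Matrix.mul_assoc]
  rw [h2]
  exact h1

/-! ### Logarithm of the determinant -/

theorem dz_log {D : ℂ → ℂ} {w : ℂ} (hD : DifferentiableAt ℝ D w)
    (hre : ∀ᶠ y in 𝓝 w, (D y).im = 0 ∧ 0 < (D y).re) :
    dz (fun y => ((Real.log (D y).re : ℝ) : ℂ)) w = dz D w / D w := by
  have hw := hre.self_of_nhds
  have h1 : HasFDerivAt (fun y => (D y).re) (Complex.reCLM.comp (fderiv ℝ D w)) w :=
    Complex.reCLM.hasFDerivAt.comp w hD.hasFDerivAt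
  have h2 : HasFDerivAt (fun y => Real.log (D y).re)
      (((D w).re)⁻¹ • (Complex.reCLM.comp (fderiv ℝ D w))) w := h1.log hw.2.ne'
  have h3 : HasFDerivAt (fun y => ((Real.log (D y).re : ℝ) : ℂ))
      (Complex.ofRealCLM.comp (((D w).re)⁻¹ • (Complex.reCLM.comp (fderiv ℝ D w)))) w :=
    Complex.ofRealCLM.hasFDerivAt.comp w h2
  have h4 : ∀ v, (((fderiv ℝ D w v).re : ℝ) : ℂ) = fderiv ℝ D w v := by
    intro v
    have h5 : HasFDerivAt (fun y => (((D y).re : ℝ) : ℂ))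
        (Complex.ofRealCLM.comp (Complex.reCLM.comp (fderiv ℝ D w))) w :=
      Complex.ofRealCLM.hasFDerivAt.comp w h1
    have h6 : (fun y => (((D y).re : ℝ) : ℂ)) =ᶠ[𝓝 w] D := by
      filter_upwards [hre] with y hy
      apply Complex.ext
      · simp
      · simp [hy.1]
    have h7 := h5.congr_of_eventuallyEq h6.symm
    have h8 := h7.unique hD.hasFDerivAt
    have h9 := congrArg (fun L : ℂ →L[ℝ] ℂ => L v) h8
    simpa using h9
  have hDw : D w = (((D w).re : ℝ) : ℂ) := by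
    apply Complex.ext
    · simp
    · simp [hw.1]
  unfold dz
  rw [h3.fderiv]
  simp only [ContinuousLinearMap.comp_apply, _root_.smul_apply, Complex.ofRealCLM_apply,
    Complex.reCLM_apply, smul_eq_mul, Complex.ofReal_mul, h4, Complex.ofReal_inv]
  rw [← hDw]
  ring

theorem det_real {j : ℕ} {A : M j} (hA : A.PosDef) : A.det.im = 0 ∧ 0 < A.det.re := by
  have h := Complex.lt_def.mp hA.det_pos
  exact ⟨h.2.symm, h.1⟩

theorem contDiff_det (j : ℕ) : ContDiff ℝ ∞ (fun A : M j => A.det) := by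
  simp only [Matrix.det_apply]
  apply ContDiff.sum
  intro σ _
  have h1 : ContDiff ℝ ∞ (fun A : M j => ∏ i, A (σ i) i) := by
    apply contDiff_prod
    intro i _
    exact ((LinearMap.toContinuousLinearMap
      (Matrix.entryLinearMap ℂ ℂ (σ i) i) : M j →L[ℂ] ℂ).restrictScalars ℝ).contDiff
  exact h1.const_smul _

theorem dz_logdet (hJac : Stmt_Jac) {j : ℕ} {N : ℂ → M j} {w : ℂ} (hN : DifferentiableAt ℝ N w)
    (hp : ∀ᶠ y in 𝓝 w, (N y).PosDef) :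
    dz (fun y => ((Real.log (N y).det.re : ℝ) : ℂ)) w = ((N w)⁻¹ * dz N w).trace := by
  obtain ⟨h1, h2, -⟩ := hJac j N w hN
  rw [dz_log h1 (hp.mono fun y hy => det_real hy), h2]
  have hw := hp.self_of_nhds
  have hd : (N w).det ≠ 0 := (isUnit_det_of_posDef hw).ne_zero
  rw [Matrix.inv_def, Ring.inverse_eq_inv', Matrix.smul_mul, Matrix.trace_smul, smul_eq_mul]
  field_simp

theorem contDiffAt_logdet {j : ℕ} {n : ℕ∞} {N : ℂ → M j} {w : ℂ} (hN : ContDiffAt ℝ n N w)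
    (hp : (N w).PosDef) :
    ContDiffAt ℝ n (fun y => Real.log (N y).det.re) w := by
  have h1 : ContDiffAt ℝ n (fun y => (N y).det) w := by
    have h0 : ContDiff ℝ n (fun A : M j => A.det) := (contDiff_det j).of_le (by
      exact_mod_cast le_top)
    exact h0.contDiffAt.comp w hN
  have h2 : ContDiffAt ℝ n (fun y => (N y).det.re) w :=
    Complex.reCLM.contDiff.contDiffAt.comp w h1
  exact h2.log (det_real hp).2.ne'

theorem ddb_logdet (hJac : Stmt_Jac) {j : ℕ} {N : ℂ → M j} {w : ℂ} (hN : ContDiffAt ℝ 2 N w)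
    (hp : ∀ᶠ y in 𝓝 w, (N y).PosDef) :
    ddb (fun y => Real.log (N y).det.re) w = ((Qc N w).trace).re := by
  unfold ddb
  congr 1
  have hd : ∀ᶠ y in 𝓝 w, DifferentiableAt ℝ N y := by
    filter_upwards [hN.eventually (by simp)] with y hy
    exact hy.differentiableAt (by norm_num)
  have h1 : dz (fun y => ((Real.log (N y).det.re : ℝ) : ℂ)) =ᶠ[𝓝 w]
      fun y => ((N y)⁻¹ * dz N y).trace := by
    filter_upwards [hd, eventually_eventually_nhds.2 hp] with y h2 h3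
    exact dz_logdet hJac h2 h3
  rw [db_congr h1, Qc]
  apply db_trace
  have h2 : DifferentiableAt ℝ (dz N) w :=
    (contDiffAt_dz (n := 1) hN).differentiableAt one_ne_zero
  exact (differentiableAt_inv (hN.differentiableAt (by norm_num))
    hp.self_of_nhds.isUnit).mul h2

/-! ### Compression -/

theorem trace_qc_compress {r j : ℕ} {L : ℂ → M r} {z₀ : ℂ} (V : Matrix (Fin r) (Fin j) ℂ)
    (hL : ContDiffAt ℝ ∞ L z₀) (hp : ∀ᶠ z in 𝓝 z₀, (L z).PosDef) (hV : Inj V) :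
    ((Qc (fun z => Vᴴ * L z * V) z₀).trace).re = trq (L z₀) (Qc L z₀) V +
      (((Vᴴ * L z₀ * V)⁻¹ * (Vᴴ * (dz L z₀)ᴴ * ((L z₀)⁻¹ -
        V * (Vᴴ * L z₀ * V)⁻¹ * Vᴴ) * (dz L z₀) * V)).trace).re := by
  have hL2 : ContDiffAt ℝ 2 L z₀ := hL.of_le two_le
  have hp0 := hp.self_of_nhds
  have hN0 : (Vᴴ * L z₀ * V).PosDef := hp0.conjTranspose_mul_mul_same hV
  have hN2 : ContDiffAt ℝ 2 (fun z => Vᴴ * L z * V) z₀ := contDiffAt_compress V Vᴴ hL2
  have hd : ∀ᶠ y in 𝓝 z₀, DifferentiableAt ℝ L y := by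
    filter_upwards [hL2.eventually (by simp)] with y hy
    exact hy.differentiableAt (by norm_num)
  have hd0 := hd.self_of_nhds
  have e1 : dz (fun z => Vᴴ * L z * V) =ᶠ[𝓝 z₀] fun z => Vᴴ * dz L z * V := by
    filter_upwards [hd] with y hy
    exact dz_compress V Vᴴ hy
  have hdz : DifferentiableAt ℝ (dz L) z₀ :=
    (contDiffAt_dz (n := 1) hL2).differentiableAt one_ne_zero
  have e2 : db (dz (fun z => Vᴴ * L z * V)) z₀ = Vᴴ * db (dz L) z₀ * V := by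
    rw [db_congr e1]
    exact db_compress V Vᴴ hdz
  have e3 : db (fun z => Vᴴ * L z * V) z₀ = Vᴴ * db L z₀ * V := db_compress V Vᴴ hd0
  have e4 : db L z₀ = (dz L z₀)ᴴ :=
    db_eq_of_hermitian hd0 (hp.mono fun w hw => hw.1)
  have e5 := db_dz_eq hL2 hp0.isUnit
  have e6 := db_dz_eq hN2 hN0.isUnit
  rw [e2, e3, e1.self_of_nhds, e5, e4] at e6
  set N := Vᴴ * L z₀ * V with hN
  set A := dz L z₀ with hA
  have hNu := isUnit_det_of_posDef hN0
  have e7 : Qc (fun z => Vᴴ * L z * V) z₀ =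
      N⁻¹ * (Vᴴ * (Aᴴ * (L z₀)⁻¹ * A + L z₀ * Qc L z₀) * V -
        Vᴴ * Aᴴ * V * N⁻¹ * (Vᴴ * A * V)) := by
    rw [e6, add_sub_cancel_left, ← Matrix.mul_assoc, Matrix.nonsing_inv_mul _ hNu,
      Matrix.one_mul]
  have e8 : N⁻¹ * (Vᴴ * (Aᴴ * (L z₀)⁻¹ * A + L z₀ * Qc L z₀) * V -
        Vᴴ * Aᴴ * V * N⁻¹ * (Vᴴ * A * V)) =
      N⁻¹ * (Vᴴ * L z₀ * Qc L z₀ * V) +
        N⁻¹ * (Vᴴ * Aᴴ * ((L z₀)⁻¹ - V * N⁻¹ * Vᴴ) * A * V) := by
    simp only [Matrix.mul_add, Matrix.add_mul, Matrix.mul_sub, Matrix.sub_mul,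
      Matrix.mul_assoc]
    abel
  rw [e7, e8, Matrix.trace_add, Complex.add_re]
  rfl

/-! ### The holomorphic gauge -/

/-- the holomorphic gauge transformation -/
def Gg {r : ℕ} (z₀ : ℂ) (C : M r) (z : ℂ) : M r := 1 + (z - z₀) • C

theorem Gg_self {r : ℕ} (z₀ : ℂ) (C : M r) : Gg z₀ C z₀ = 1 := by
  simp [Gg]

theorem Gg_diff {r : ℕ} (z₀ : ℂ) (C : M r) (z : ℂ) : DifferentiableAt ℂ (Gg z₀ C) z := by
  unfold Gg
  fun_prop

theorem Gg_diffR {r : ℕ} (z₀ : ℂ) (C : M r) (z : ℂ) : DifferentiableAt ℝ (Gg z₀ C) z :=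
  (Gg_diff z₀ C z).restrictScalars ℝ

theorem dz_Gg {r : ℕ} (z₀ : ℂ) (C : M r) (z : ℂ) : dz (Gg z₀ C) z = C := by
  rw [dz_holo (Gg_diff z₀ C z)]
  have h : HasDerivAt (Gg z₀ C) ((1 : ℂ) • C) z := by
    unfold Gg
    exact (((hasDerivAt_id z).sub_const z₀).smul_const C).const_add 1
  rw [h.deriv, one_smul]

theorem db_Gg {r : ℕ} (z₀ : ℂ) (C : M r) (z : ℂ) : db (Gg z₀ C) z = 0 :=
  db_holo (Gg_diff z₀ C z)

theorem Gg_contDiff {r : ℕ} (z₀ : ℂ) (C : M r) : ContDiff ℝ ∞ (Gg z₀ C) := by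
  unfold Gg
  have h1 : ContDiff ℝ ∞ (fun z : ℂ => z - z₀) := contDiff_id.sub contDiff_const
  exact contDiff_const.add (h1.smul contDiff_const)

theorem Gg_unit {r : ℕ} (z₀ : ℂ) (C : M r) : ∀ᶠ z in 𝓝 z₀, IsUnit (Gg z₀ C z) := by
  have h1 : ContinuousAt (Gg z₀ C) z₀ := (Gg_diff z₀ C z₀).continuousAt
  have h2 : IsUnit (Gg z₀ C z₀) := by rw [Gg_self]; exact isUnit_one
  exact h1.eventually (Units.isOpen.mem_nhds h2)

/-- the transformed metric -/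
def Kg {r : ℕ} (z₀ : ℂ) (C : M r) (K : ℂ → M r) (z : ℂ) : M r :=
  (Gg z₀ C z)ᴴ * K z * Gg z₀ C z

theorem Kg_self {r : ℕ} (z₀ : ℂ) (C : M r) (K : ℂ → M r) : Kg z₀ C K z₀ = K z₀ := by
  simp [Kg, Gg_self]

theorem Kg_smooth {r : ℕ} {z₀ : ℂ} (C : M r) {K : ℂ → M r} (hK : ContDiffAt ℝ ∞ K z₀) :
    ContDiffAt ℝ ∞ (Kg z₀ C K) z₀ := by
  have h1 : ContDiffAt ℝ ∞ (Gg z₀ C) z₀ := (Gg_contDiff z₀ C).contDiffAt
  exact ((contDiffAt_conjTranspose h1).mul hK).mul h1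

theorem Kg_pos {r : ℕ} {z₀ : ℂ} (C : M r) {K : ℂ → M r} (hp : ∀ᶠ z in 𝓝 z₀, (K z).PosDef) :
    ∀ᶠ z in 𝓝 z₀, (Kg z₀ C K z).PosDef := by
  filter_upwards [hp, Gg_unit z₀ C] with z h1 h2
  exact h1.conjTranspose_mul_mul_same (Matrix.mulVec_injective_of_isUnit h2)

theorem dz_Kg {r : ℕ} {z₀ : ℂ} (C : M r) {K : ℂ → M r} {z : ℂ} (hK : DifferentiableAt ℝ K z) :
    dz (Kg z₀ C K) z = (Gg z₀ C z)ᴴ * dz K z * Gg z₀ C z + (Gg z₀ C z)ᴴ * K z * C := by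
  have hG := Gg_diffR z₀ C z
  have hGh := differentiableAt_conjTranspose hG
  have h1 : dz (Kg z₀ C K) z =
      dz (fun w => (Gg z₀ C w)ᴴ * K w) z * Gg z₀ C z + (Gg z₀ C z)ᴴ * K z * dz (Gg z₀ C) z :=
    dz_mul (differentiableAt_mul hGh hK) hG
  rw [h1, dz_mul hGh hK, dz_conjTranspose hG, db_Gg, dz_Gg, Matrix.conjTranspose_zero,
    Matrix.zero_mul, zero_add]

theorem Qc_Kg {r : ℕ} {z₀ : ℂ} (C : M r) {K : ℂ → M r} (hK : ContDiffAt ℝ ∞ K z₀)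
    (hp : ∀ᶠ z in 𝓝 z₀, (K z).PosDef) : Qc (Kg z₀ C K) z₀ = Qc K z₀ := by
  have hK2 : ContDiffAt ℝ 2 K z₀ := hK.of_le two_le
  have hd : ∀ᶠ y in 𝓝 z₀, DifferentiableAt ℝ K y := by
    filter_upwards [hK2.eventually (by simp)] with y hy
    exact hy.differentiableAt (by norm_num)
  have e1 : (fun w => (Kg z₀ C K w)⁻¹ * dz (Kg z₀ C K) w) =ᶠ[𝓝 z₀]
      fun w => (Gg z₀ C w)⁻¹ * ((K w)⁻¹ * dz K w) * Gg z₀ C w + (Gg z₀ C w)⁻¹ * C := by
    filter_upwards [hd, hp, Gg_unit z₀ C] with w h1 h2 h3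
    rw [dz_Kg C h1]
    have hG : IsUnit (Gg z₀ C w).det := (Matrix.isUnit_iff_isUnit_det _).1 h3
    have hGh : IsUnit ((Gg z₀ C w)ᴴ).det := by
      rw [Matrix.det_conjTranspose]
      exact hG.star
    have hKu := isUnit_det_of_posDef h2
    have h4 : (Kg z₀ C K w)⁻¹ = (Gg z₀ C w)⁻¹ * ((K w)⁻¹ * ((Gg z₀ C w)ᴴ)⁻¹) := by
      rw [Kg, Matrix.mul_inv_rev, Matrix.mul_inv_rev]
    rw [h4, Matrix.mul_add]
    have h5 : ((Gg z₀ C w)ᴴ)⁻¹ * (Gg z₀ C w)ᴴ = 1 := Matrix.nonsing_inv_mul _ hGh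
    have h6 : (K w)⁻¹ * K w = 1 := Matrix.nonsing_inv_mul _ hKu
    have h7 : ∀ X : M r, (Gg z₀ C w)⁻¹ * ((K w)⁻¹ * ((Gg z₀ C w)ᴴ)⁻¹) * ((Gg z₀ C w)ᴴ * X) =
        (Gg z₀ C w)⁻¹ * ((K w)⁻¹ * X) := by
      intro X
      calc (Gg z₀ C w)⁻¹ * ((K w)⁻¹ * ((Gg z₀ C w)ᴴ)⁻¹) * ((Gg z₀ C w)ᴴ * X)
          = (Gg z₀ C w)⁻¹ * ((K w)⁻¹ * ((((Gg z₀ C w)ᴴ)⁻¹ * (Gg z₀ C w)ᴴ) * X)) := by
            simp only [Matrix.mul_assoc]
        _ = (Gg z₀ C w)⁻¹ * ((K w)⁻¹ * X) := by rw [h5, Matrix.one_mul]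
    rw [Matrix.mul_assoc ((Gg z₀ C w)ᴴ) (dz K w), h7, Matrix.mul_assoc ((Gg z₀ C w)ᴴ) (K w), h7,
      ← Matrix.mul_assoc (K w)⁻¹ (K w) C, h6, Matrix.one_mul]
    simp only [Matrix.mul_assoc]
  have hG := Gg_diffR z₀ C z₀
  have hGu : IsUnit (Gg z₀ C z₀) := by rw [Gg_self]; exact isUnit_one
  have hGi := differentiableAt_inv hG hGu
  have hB : DifferentiableAt ℝ (fun w => (K w)⁻¹ * dz K w) z₀ :=
    (differentiableAt_inv hd.self_of_nhds hp.self_of_nhds.isUnit).mul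
      ((contDiffAt_dz (n := 1) hK2).differentiableAt one_ne_zero)
  have hc : DifferentiableAt ℝ (fun _ : ℂ => C) z₀ := differentiableAt_const _
  have hGi0 : db (fun w => (Gg z₀ C w)⁻¹) z₀ = 0 := by
    rw [db_inv hG hGu, db_Gg, Matrix.mul_zero, Matrix.zero_mul, neg_zero]
  rw [Qc, db_congr e1, db_add (differentiableAt_mul (differentiableAt_mul hGi hB) hG)
    (differentiableAt_mul hGi hc), db_mul (differentiableAt_mul hGi hB) hG, db_mul hGi hB,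
    db_mul hGi hc, hGi0, db_Gg, Gg_self, db_const, inv_one]
  simp only [Matrix.zero_mul, Matrix.mul_zero, add_zero, zero_add, Matrix.one_mul,
    Matrix.mul_one]
  rfl

end Touch

open Touch in
theorem touch_proof (hJac : Stmt_Jac) (hLM : Stmt_LocMax) : Stmt_Touch := by
  intro r j K P z₀ V₀ ψ hK hP hKp hPp hV hψ hmax
  have hP2 : ContDiffAt ℝ 2 P z₀ := hP.of_le two_le
  have hPd : DifferentiableAt ℝ P z₀ := hP2.differentiableAt (by norm_num)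
  set C : M r := -((P z₀)⁻¹ * dz P z₀) with hC
  set K' := Kg z₀ C K with hK'
  set P' := Kg z₀ C P with hP'
  have hK's : ContDiffAt ℝ ∞ K' z₀ := Kg_smooth C hK
  have hP's : ContDiffAt ℝ ∞ P' z₀ := Kg_smooth C hP
  have hK'p := Kg_pos C hKp
  have hP'p := Kg_pos C hPp
  have hPu := isUnit_det_of_posDef hPp.self_of_nhds
  have hA0 : dz P' z₀ = 0 := by
    rw [hP', dz_Kg C hPd, Gg_self, Matrix.conjTranspose_one, Matrix.one_mul, Matrix.one_mul,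
      Matrix.mul_one, hC, Matrix.mul_neg, ← Matrix.mul_assoc, Matrix.mul_nonsing_inv _ hPu,
      Matrix.one_mul, add_neg_cancel]
  -- the functions
  set NK : ℂ → M j := fun z => V₀ᴴ * K' z * V₀ with hNK
  set NP : ℂ → M j := fun z => V₀ᴴ * P' z * V₀ with hNP
  have hNKs : ContDiffAt ℝ ∞ NK z₀ := contDiffAt_compress V₀ V₀ᴴ hK's
  have hNPs : ContDiffAt ℝ ∞ NP z₀ := contDiffAt_compress V₀ V₀ᴴ hP's
  have hNKp : ∀ᶠ z in 𝓝 z₀, (NK z).PosDef := by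
    filter_upwards [hK'p] with z hz
    exact hz.conjTranspose_mul_mul_same hV
  have hNPp : ∀ᶠ z in 𝓝 z₀, (NP z).PosDef := by
    filter_upwards [hP'p] with z hz
    exact hz.conjTranspose_mul_mul_same hV
  have hNK2 : ContDiffAt ℝ 2 NK z₀ := hNKs.of_le two_le
  have hNP2 : ContDiffAt ℝ 2 NP z₀ := hNPs.of_le two_le
  have hlK : ContDiffAt ℝ 2 (fun z => Real.log (NK z).det.re) z₀ :=
    contDiffAt_logdet (n := 2) hNK2 hNKp.self_of_nhds
  have hlP : ContDiffAt ℝ 2 (fun z => Real.log (NP z).det.re) z₀ :=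
    contDiffAt_logdet (n := 2) hNP2 hNPp.self_of_nhds
  -- the maximum
  have hld : ∀ (L : ℂ → M r) (z : ℂ), ldet (L z) (Gg z₀ C z * V₀) =
      Real.log (V₀ᴴ * Kg z₀ C L z * V₀).det.re := by
    intro L z
    unfold ldet Kg
    rw [Matrix.conjTranspose_mul]
    simp only [Matrix.mul_assoc]
  have hloc : IsLocalMax (fun z => (Real.log (NK z).det.re - Real.log (NP z).det.re) - ψ z)
      z₀ := by
    filter_upwards [hmax, Gg_unit z₀ C] with z h1 h2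
    have hinj : Inj (Gg z₀ C z * V₀) := by
      intro x y hxy
      apply hV
      apply Matrix.mulVec_injective_of_isUnit h2
      simpa [Matrix.mulVec_mulVec] using hxy
    have h3 := h1 _ hinj
    rw [hld K z, hld P z] at h3
    have h4 := hld K z₀
    have h5 := hld P z₀
    rw [Gg_self, Matrix.one_mul] at h4 h5
    rw [h4, h5] at h3
    exact h3
  have h6 := hLM _ z₀ ((hlK.sub hlP).sub hψ) hloc
  rw [ddb_sub (hlK.sub hlP) hψ, ddb_sub hlK hlP, ddb_logdet hJac hNK2 hNKp,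
    ddb_logdet hJac hNP2 hNPp, hNK, hNP, trace_qc_compress V₀ hK's hK'p hV,
    trace_qc_compress V₀ hP's hP'p hV, hA0] at h6
  have h7 := extra_nonneg hK'p.self_of_nhds V₀ hV (dz K' z₀)
  simp only [Matrix.conjTranspose_zero, Matrix.mul_zero, Matrix.zero_mul, Matrix.trace_zero,
    Complex.zero_re, add_zero] at h6
  rw [hP', Qc_Kg C hP hPp, Kg_self, hK', Qc_Kg C hK hKp] at h6
  rw [hK'] at h7
  rw [Kg_self] at h6 h7
  linarith

end Pool.Agent.HSC
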