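import Pool.Agent.HSC.Stmts

/-!
# HSC, module VCMP: comparison with a smooth supersolution on a disc
-/

set_option autoImplicit false

open scoped Topology
open Set Filter Metric

noncomputable section

namespace Pool.Agent.HSC

theorem vcmp_proof : Stmt_VCmp := by
  intro u w a ρ C hρ hu hw hw2 hV hS z hz
  have key : ∀ ε : ℝ, 0 < ε → u z ≤ w z + ε * (ρ ^ 2 - ‖z - a‖ ^ 2) := by
    intro ε hε
    set W : ℂ → ℝ := fun y => w y + ε * (ρ ^ 2 - ‖y - a‖ ^ 2) with hW
    have hWc : ContinuousOn W (closedBall a ρ) := by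
      refine hw.add ?_
      fun_prop
    obtain ⟨z0, hz0, hmax⟩ := (isCompact_closedBall a ρ).exists_isMaxOn
      ⟨z, hz⟩ (hu.sub hWc)
    have hle : u z - W z ≤ u z0 - W z0 := hmax hz
    suffices h : u z0 - W z0 ≤ 0 by
      have : u z - W z ≤ 0 := hle.trans h
      linarith
    rcases (mem_closedBall.1 hz0).lt_or_eq with h1 | h1
    · exfalso
      have hb : z0 ∈ ball a ρ := mem_ball.2 h1
      obtain ⟨hc2, hdd⟩ := hw2 z0 hb
      have hq : ContDiffAt ℝ 2 (fun y : ℂ => ‖y - a‖ ^ 2) z0 := by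
        have : ContDiff ℝ 2 (fun y : ℂ => ‖y - a‖ ^ 2) :=
          (contDiff_id.sub contDiff_const).norm_sq ℝ
        exact this.contDiffAt
      have hq2 : ContDiffAt ℝ 2 (fun y : ℂ => ρ ^ 2 - ‖y - a‖ ^ 2) z0 :=
        contDiffAt_const.sub hq
      have hWc2 : ContDiffAt ℝ 2 W z0 := hc2.add (contDiffAt_const.mul hq2)
      have hev : ∀ᶠ y in 𝓝 z0, u y - W y ≤ u z0 - W z0 := by
        filter_upwards [isOpen_ball.mem_nhds hb] with y hy
        exact hmax (ball_subset_closedBall hy)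
      have h2 := hV z0 hb W hWc2 hev
      have h3 : ddb W z0 = ddb w z0 - ε := by
        rw [hW, ddb_add hc2 (contDiffAt_const.mul hq2), ddb_const_mul ε hq2,
          ddb_sub contDiffAt_const hq, ddb_const, ddb_normSq]
        ring
      rw [h3] at h2
      linarith
    · have hs : z0 ∈ sphere a ρ := mem_sphere.2 h1
      have h4 := hS z0 hs
      have h5 : ‖z0 - a‖ = ρ := by rw [← dist_eq_norm]; exact h1
      have h6 : W z0 = w z0 := by
        simp [hW, h5]
      rw [h6]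
      linarith
  have h7 : 0 ≤ ρ ^ 2 - ‖z - a‖ ^ 2 := by
    have h8 : ‖z - a‖ ≤ ρ := by rw [← dist_eq_norm]; exact mem_closedBall.1 hz
    have h9 := norm_nonneg (z - a)
    nlinarith
  by_contra hcon
  push Not at hcon
  have h10 := key ((u z - w z) / (2 * (ρ ^ 2 - ‖z - a‖ ^ 2 + 1))) (by
    apply div_pos <;> linarith)
  have h11 : (u z - w z) / (2 * (ρ ^ 2 - ‖z - a‖ ^ 2 + 1)) * (ρ ^ 2 - ‖z - a‖ ^ 2) ≤
      (u z - w z) / 2 := by
    rw [div_mul_eq_mul_div, div_le_div_iff₀ (by linarith) (by norm_num)]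
    nlinarith
  linarith

end Pool.Agent.HSC
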