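import Pool.Agent.HSC.Stmts

/-!
# HSC / WEAK: weak `∂̄` derivatives
-/

set_option autoImplicit false

open scoped Matrix.Norms.Frobenius ContDiff Topology Manifold ComplexOrder ComplexConjugate
open Matrix Set Filter MeasureTheory Metric

noncomputable section

namespace Pool.Agent.HSC

namespace Weak

section gen

variable {E : Type*} [NormedAddCommGroup E] [NormedSpace ℂ E]

theorem continuous_smul_aux {φ : ℂ → ℂ} {h : ℂ → E} {O : Set ℂ} (hO : IsOpen O)
    (hφ : Continuous φ) (hs : tsupport φ ⊆ O) (hh : ContinuousOn h O) :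
    Continuous (fun z => φ z • h z) := by
  apply continuous_of_tsupport
  intro z hz
  have hz' : z ∈ O := hs (tsupport_smul_subset_left φ h hz)
  exact hφ.continuousAt.smul (hh.continuousAt (hO.mem_nhds hz'))

theorem integrable_smul_aux {φ : ℂ → ℂ} {h : ℂ → E} {O : Set ℂ} (hO : IsOpen O)
    (hφ : Continuous φ) (hc : HasCompactSupport φ) (hs : tsupport φ ⊆ O)
    (hh : ContinuousOn h O) : Integrable (fun z => φ z • h z) :=
  (continuous_smul_aux hO hφ hs hh).integrable_of_hasCompactSupport hc.smul_right

theorem continuous_db_aux {ψ : ℂ → ℂ} (hψ : ContDiff ℝ 1 ψ) : Continuous (db ψ) := by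
  have h1 : Continuous (fderiv ℝ ψ) := hψ.continuous_fderiv one_ne_zero
  unfold db
  fun_prop

theorem tsupport_db_aux {ψ : ℂ → ℂ} : tsupport (db ψ) ⊆ tsupport ψ := by
  apply closure_minimal _ (isClosed_tsupport ψ)
  intro z hz
  by_contra hcon
  apply hz
  have h1 : ψ =ᶠ[𝓝 z] fun _ => 0 := by
    have h2 := (isClosed_tsupport ψ).isOpen_compl.mem_nhds hcon
    filter_upwards [h2] with w hw
    exact image_eq_zero_of_notMem_tsupport hw
  rw [db_congr h1, db_const]

theorem hcs_db_aux {ψ : ℂ → ℂ} (h : HasCompactSupport ψ) : HasCompactSupport (db ψ) :=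
  h.mono' (subset_closure.trans tsupport_db_aux)

/-- Functions of class `C¹`. -/
theorem of_c1_aux {U : Set ℂ} {A : ℂ → E} (hU : IsOpen U) (hA : ContDiffOn ℝ 1 A U) :
    WeakDb U A (db A) := by
  intro ψ hψ hc hs
  have hcf : Continuous (fderiv ℝ ψ) := hψ.continuous_fderiv one_ne_zero
  have hcA : ContinuousOn (fderiv ℝ A) U := hA.continuousOn_fderiv_of_isOpen hU le_rfl
  have i1 : ∀ v : ℂ, Integrable (fun z => fderiv ℝ ψ z v • A z) := fun v =>
    integrable_smul_aux hU (by fun_prop) (hc.fderiv_apply ℝ v)
      ((tsupport_fderiv_apply_subset ℝ v).trans hs) hA.continuousOn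
  have i2 : ∀ v : ℂ, Integrable (fun z => ψ z • fderiv ℝ A z v) := fun v =>
    integrable_smul_aux hU hψ.continuous hc hs (hcA.clm_apply continuousOn_const)
  have key : ∀ v : ℂ, ∫ z, fderiv ℝ ψ z v • A z = - ∫ z, ψ z • fderiv ℝ A z v := by
    intro v
    have := integral_smul_fderiv_eq_neg_fderiv_smul_of_integrable (μ := volume) (f := ψ) (g := A)
      (v := v) (i1 v) (i2 v) (integrable_smul_aux hU hψ.continuous hc hs hA.continuousOn)
      (fun x _ => (hψ.differentiable one_ne_zero) x)
      (fun x hx => (hA.contDiffAt (hU.mem_nhds (hs hx))).differentiableAt one_ne_zero)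
    rw [this, neg_neg]
  have e1 : (fun z => db ψ z • A z) = fun z => (1 / 2 : ℂ) • (fderiv ℝ ψ z 1 • A z +
      Complex.I • (fderiv ℝ ψ z Complex.I • A z)) := by
    funext z
    simp only [db, smul_eq_mul, mul_smul, add_smul]
  have e2 : (fun z => ψ z • db A z) = fun z => (1 / 2 : ℂ) • (ψ z • fderiv ℝ A z 1 +
      Complex.I • (ψ z • fderiv ℝ A z Complex.I)) := by
    funext z
    simp only [db, smul_add, smul_smul]
    congr 1
    · congr 1
      ring
    · congr 1
      ring
  have j1 : Integrable (fun z => Complex.I • (fderiv ℝ ψ z Complex.I • A z)) :=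
    (i1 Complex.I).smul Complex.I
  have j2 : Integrable (fun z => Complex.I • (ψ z • fderiv ℝ A z Complex.I)) :=
    (i2 Complex.I).smul Complex.I
  rw [e1, e2, integral_smul, integral_smul, integral_add (i1 1) j1,
    integral_add (i2 1) j2, integral_smul, integral_smul, key, key,
    ← smul_neg, neg_add, smul_neg]

theorem tendsto_int {ι : Type} {l : Filter ι} {U : Set ℂ} (hU : IsOpen U) {φ : ℂ → ℂ}
    (hφ : Continuous φ) (hc : HasCompactSupport φ) (hs : tsupport φ ⊆ U) {F : ι → ℂ → E}
    {F' : ℂ → E} (hF : ∀ᶠ n in l, ContinuousOn (F n) U) (hF' : ContinuousOn F' U)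
    (h : TendstoLocallyUniformlyOn F F' l U) :
    Tendsto (fun n => ∫ z, φ z • F n z) l (𝓝 (∫ z, φ z • F' z)) := by
  have hK : TendstoUniformlyOn F F' l (tsupport φ) :=
    (tendstoLocallyUniformlyOn_iff_forall_isCompact hU).1 h _ hs hc
  have hφi : Integrable (fun z => ‖φ z‖) := (hφ.integrable_of_hasCompactSupport hc).norm
  set C := ∫ z, ‖φ z‖ with hC
  have hC0 : 0 ≤ C := integral_nonneg fun z => norm_nonneg _
  rw [Metric.tendsto_nhds]
  intro ε hε
  have hε' : 0 < ε / (C + 1) := by positivity
  filter_upwards [Metric.tendstoUniformlyOn_iff.1 hK _ hε', hF] with n hn hFn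
  rw [dist_eq_norm, ← integral_sub (integrable_smul_aux hU hφ hc hs hFn)
    (integrable_smul_aux hU hφ hc hs hF')]
  calc ‖∫ z, (φ z • F n z - φ z • F' z)‖ ≤ ∫ z, ‖φ z‖ * (ε / (C + 1)) := by
        apply norm_integral_le_of_norm_le (hφi.mul_const _)
        filter_upwards with z
        rw [← smul_sub, norm_smul]
        by_cases hz : z ∈ tsupport φ
        · apply mul_le_mul_of_nonneg_left _ (norm_nonneg _)
          have := hn z hz
          rw [dist_comm, dist_eq_norm] at this
          exact this.le
        · rw [image_eq_zero_of_notMem_tsupport hz]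
          simp
    _ = C * (ε / (C + 1)) := by rw [integral_mul_const]
    _ < ε := by
        rw [mul_div_assoc', div_lt_iff₀ (by positivity)]
        nlinarith

/-- Locally uniform limits. -/
theorem lim_aux {U : Set ℂ} {ι : Type} {l : Filter ι} {A Q : ι → ℂ → E} {A' Q' : ℂ → E}
    (hl : l.NeBot) (hU : IsOpen U)
    (h : ∀ᶠ n in l, ContinuousOn (A n) U ∧ ContinuousOn (Q n) U ∧ WeakDb U (A n) (Q n))
    (hA : TendstoLocallyUniformlyOn A A' l U) (hQ : TendstoLocallyUniformlyOn Q Q' l U) :
    WeakDb U A' Q' := by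
  intro ψ hψ hc hs
  have hA' : ContinuousOn A' U := hA.continuousOn (h.mono fun n hn => hn.1).frequently
  have hQ' : ContinuousOn Q' U := hQ.continuousOn (h.mono fun n hn => hn.2.1).frequently
  have t1 := tendsto_int hU (continuous_db_aux hψ) (hcs_db_aux hc) (tsupport_db_aux.trans hs)
    (h.mono fun n hn => hn.1) hA' hA
  have t2 := tendsto_int hU hψ.continuous hc hs (h.mono fun n hn => hn.2.1) hQ' hQ
  refine tendsto_nhds_unique t1 (t2.neg.congr' ?_)
  filter_upwards [h] with n hn
  exact (hn.2.2 ψ hψ hc hs).symm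

/-- Weyl's lemma. -/
theorem weyl_aux [CompleteSpace E] {U : Set ℂ} {A : ℂ → E} (hU : IsOpen U)
    (hA : ContinuousOn A U) (hw : WeakDb U A (fun _ => 0)) : DifferentiableOn ℂ A U := by
  intro z₀ hz₀
  obtain ⟨R, hR, hball⟩ := Metric.isOpen_iff.1 hU z₀ hz₀
  set ρ : ℝ := R / 3 with hρdef
  have hρ : 0 < ρ := by positivity
  have hsub : closedBall z₀ (2 * ρ) ⊆ U := by
    refine subset_trans ?_ hball
    apply closedBall_subset_ball
    rw [hρdef]
    linarith
  have hAc : ContinuousOn A (closedBall z₀ (2 * ρ)) := hA.mono hsub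
  set g : ℂ → E := (closedBall z₀ (2 * ρ)).indicator A with hg
  have hgi : Integrable g := by
    rw [hg, integrable_indicator_iff measurableSet_closedBall]
    exact hAc.integrableOn_compact (isCompact_closedBall _ _)
  have hgx : ∀ x ∈ closedBall z₀ (2 * ρ), g x = A x := fun x hx => indicator_of_mem hx A
  let φ : ℕ → ContDiffBump (0 : ℂ) := fun n =>
    ⟨ρ / (2 * (n + 1)), ρ / (n + 1), by positivity, by
      apply div_lt_div_of_pos_left hρ (by positivity)
      have : (0 : ℝ) < n + 1 := by positivity
      linarith⟩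
  have hφout : ∀ n, (φ n).rOut = ρ / (n + 1) := fun n => rfl
  have hφle : ∀ n, (φ n).rOut ≤ ρ := by
    intro n
    rw [hφout]
    apply div_le_self hρ.le
    have : (0 : ℝ) ≤ n := Nat.cast_nonneg n
    linarith
  set L : E →L[ℝ] ℝ →L[ℝ] E := (ContinuousLinearMap.lsmul ℝ ℝ : ℝ →L[ℝ] E →L[ℝ] E).flip with hL
  let F : ℕ → ℂ → E := fun n => MeasureTheory.convolution ((φ n).normed volume) g
    (ContinuousLinearMap.lsmul ℝ ℝ) volume
  have hFflip : ∀ n, F n = MeasureTheory.convolution g ((φ n).normed volume) L volume := by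
    intro n
    rw [hL, MeasureTheory.convolution_flip]
  -- derivatives
  have hφd : ∀ n, ContDiff ℝ 1 ((φ n).normed (volume : Measure ℂ)) := fun n =>
    (φ n).contDiff_normed
  have hφc : ∀ n, HasCompactSupport ((φ n).normed (volume : Measure ℂ)) := fun n =>
    (φ n).hasCompactSupport_normed
  have hder : ∀ n x, HasFDerivAt (F n) ((MeasureTheory.convolution g
      (fderiv ℝ ((φ n).normed volume)) (L.precompR ℂ) volume) x) x := by
    intro n x
    rw [hFflip]
    exact (hφc n).hasFDerivAt_convolution_right L hgi.locallyIntegrable (hφd n) x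
  have hderv : ∀ n x (v : ℂ), fderiv ℝ (F n) x v =
      ∫ t, (fderiv ℝ ((φ n).normed (volume : Measure ℂ)) (x - t) v) • g t := by
    intro n x v
    rw [(hder n x).fderiv]
    have h1 := MeasureTheory.convolution_precompR_apply (L := L) (μ := (volume : Measure ℂ))
      (f := g) (g := fderiv ℝ ((φ n).normed (volume : Measure ℂ))) hgi.locallyIntegrable
      ((hφc n).fderiv ℝ) ((hφd n).continuous_fderiv one_ne_zero) x v
    rw [h1]
    rfl
  have hhol : ∀ n, DifferentiableOn ℂ (F n) (ball z₀ ρ) := by
    intro n x hx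
    have hxb : dist x z₀ < ρ := hx
    apply DifferentiableAt.differentiableWithinAt
    apply differentiableAt_of_db_eq_zero (hder n x).differentiableAt
    set ψ : ℂ → ℂ := fun t => (((φ n).normed (volume : Measure ℂ) (x - t) : ℝ) : ℂ) with hψ
    have hψc : ContDiff ℝ 1 ψ := by
      rw [hψ]
      exact Complex.ofRealCLM.contDiff.comp ((hφd n).comp (contDiff_const.sub contDiff_id))
    have hψs : Function.support ψ ⊆ closedBall x (φ n).rOut := by
      intro t ht
      have h1 : x - t ∈ tsupport ((φ n).normed (volume : Measure ℂ)) := by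
        apply subset_tsupport
        intro h0
        apply ht
        rw [hψ]
        simp only
        rw [h0]
        simp
      rw [(φ n).tsupport_normed_eq] at h1
      rw [mem_closedBall, dist_comm, dist_eq_norm]
      simpa using h1
    have hψt : tsupport ψ ⊆ closedBall x (φ n).rOut :=
      closure_minimal hψs isClosed_closedBall
    have hψt2 : tsupport ψ ⊆ closedBall z₀ (2 * ρ) := by
      refine hψt.trans ?_
      intro t ht
      rw [mem_closedBall] at ht ⊢
      have := dist_triangle t x z₀
      have := hφle n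
      linarith
    have hψcs : HasCompactSupport ψ :=
      HasCompactSupport.of_support_subset_isCompact (isCompact_closedBall _ _) hψs
    have hψd : ∀ t v, fderiv ℝ ψ t v =
        -((fderiv ℝ ((φ n).normed (volume : Measure ℂ)) (x - t) v : ℝ) : ℂ) := by
      intro t v
      have h1 : HasFDerivAt (fun t : ℂ => x - t) (-(ContinuousLinearMap.id ℝ ℂ)) t :=
        (hasFDerivAt_id t).const_sub x
      have h2 : HasFDerivAt ((φ n).normed (volume : Measure ℂ))
          (fderiv ℝ ((φ n).normed (volume : Measure ℂ)) (x - t)) (x - t) :=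
        ((hφd n).differentiable one_ne_zero (x - t)).hasFDerivAt
      have h3 := h2.comp t h1
      have h4 := Complex.ofRealCLM.hasFDerivAt.comp t h3
      have h5 : fderiv ℝ ψ t = _ := h4.fderiv
      rw [h5]
      simp
    have hz := hw ψ hψc hψcs (hψt2.trans hsub)
    have e0 : (fun t => db ψ t • A t) = fun t => db ψ t • g t := by
      funext t
      by_cases ht : t ∈ tsupport ψ
      · rw [hgx t (hψt2 ht)]
      · have : db ψ t = 0 := by
          by_contra hne
          exact ht (tsupport_db_aux (subset_tsupport _ hne))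
        rw [this, zero_smul, zero_smul]
    rw [e0] at hz
    simp only [smul_zero, integral_zero, neg_zero] at hz
    have hdi : ∀ v : ℂ, Integrable (fun t =>
        (fderiv ℝ ((φ n).normed (volume : Measure ℂ)) (x - t) v) • g t) := by
      intro v
      have hcv : Continuous (fun t : ℂ =>
          fderiv ℝ ((φ n).normed (volume : Measure ℂ)) (x - t) v) := by
        have := (hφd n).continuous_fderiv one_ne_zero
        fun_prop
      obtain ⟨B, hB⟩ : ∃ B : ℝ, ∀ t : ℂ,
          ‖fderiv ℝ ((φ n).normed (volume : Measure ℂ)) (x - t) v‖ ≤ B := by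
        have hcs : HasCompactSupport (fun t : ℂ =>
            fderiv ℝ ((φ n).normed (volume : Measure ℂ)) t v) := (hφc n).fderiv_apply ℝ v
        have hcc : Continuous (fun t : ℂ =>
            fderiv ℝ ((φ n).normed (volume : Measure ℂ)) t v) := by
          have := (hφd n).continuous_fderiv one_ne_zero
          fun_prop
        obtain ⟨B, hB⟩ := hcs.exists_bound_of_continuous hcc
        exact ⟨B, fun t => hB (x - t)⟩
      exact Integrable.bdd_smul (𝕜 := ℝ) hgi B hcv.aestronglyMeasurable (ae_of_all _ hB)
    have e1 : (fun t => db ψ t • g t) = fun t => -((1 / 2 : ℂ) •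
        ((fderiv ℝ ((φ n).normed (volume : Measure ℂ)) (x - t) 1) • g t + Complex.I •
        ((fderiv ℝ ((φ n).normed (volume : Measure ℂ)) (x - t) Complex.I) • g t))) := by
      funext t
      unfold db
      rw [hψd, hψd]
      simp only [smul_eq_mul, mul_smul, add_smul, neg_smul, mul_neg, smul_neg, smul_add,
        Complex.coe_smul, neg_add]
    have hdI : Integrable (fun t => Complex.I •
        ((fderiv ℝ ((φ n).normed (volume : Measure ℂ)) (x - t) Complex.I) • g t)) :=
      (hdi Complex.I).smul Complex.I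
    rw [e1, integral_neg, integral_smul, integral_add (hdi 1) hdI,
      integral_smul, neg_eq_zero] at hz
    unfold db
    rw [hderv, hderv]
    exact hz
  -- convergence
  have hconv : TendstoLocallyUniformlyOn F A atTop (ball z₀ ρ) := by
    apply TendstoUniformlyOn.tendstoLocallyUniformlyOn
    rw [Metric.tendstoUniformlyOn_iff]
    intro ε hε
    have huc : UniformContinuousOn A (closedBall z₀ (2 * ρ)) :=
      (isCompact_closedBall _ _).uniformContinuousOn_of_continuous hAc
    rw [Metric.uniformContinuousOn_iff] at huc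
    obtain ⟨δ, hδ, hδ'⟩ := huc (ε / 2) (by positivity)
    have hn : ∀ᶠ n : ℕ in atTop, (φ n).rOut < δ := by
      have h1 : Tendsto (fun n : ℕ => ρ / ((n : ℝ) + 1)) atTop (𝓝 0) := by
        have := tendsto_one_div_add_atTop_nhds_zero_nat (𝕜 := ℝ)
        have h2 := this.const_mul ρ
        simpa [div_eq_mul_inv] using h2
      exact (tendsto_order.1 h1).2 δ hδ
    filter_upwards [hn] with n hn x hx
    have hxb : dist x z₀ < ρ := hx
    have hxc : x ∈ closedBall z₀ (2 * ρ) := by
      rw [mem_closedBall]
      linarith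
    have h1 : dist (F n x) (g x) ≤ ε / 2 := by
      apply (φ n).dist_normed_convolution_le hgi.aestronglyMeasurable
      intro y hy
      rw [mem_ball] at hy
      have hyc : y ∈ closedBall z₀ (2 * ρ) := by
        rw [mem_closedBall]
        have := dist_triangle y x z₀
        have := hφle n
        linarith
      rw [hgx y hyc, hgx x hxc]
      exact (hδ' y hyc x hxc (hy.trans hn)).le
    rw [hgx x hxc, dist_comm] at h1
    linarith
  have hfin : DifferentiableOn ℂ A (ball z₀ ρ) :=
    hconv.differentiableOn (Eventually.of_forall hhol) isOpen_ball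
  exact (hfin.differentiableAt (ball_mem_nhds z₀ hρ)).differentiableWithinAt

theorem int_clm [CompleteSpace E] (L : E →L[ℂ] ℂ) {φ : ℂ → ℂ} {h : ℂ → E} {O : Set ℂ}
    (hO : IsOpen O) (hφ : Continuous φ) (hc : HasCompactSupport φ) (hs : tsupport φ ⊆ O)
    (hh : ContinuousOn h O) : L (∫ z, φ z • h z) = ∫ z, φ z * L (h z) := by
  rw [← ContinuousLinearMap.integral_comp_comm L (integrable_smul_aux hO hφ hc hs hh)]
  simp

end gen

theorem entry_int {r : ℕ} {φ : ℂ → ℂ} {h : ℂ → M r} {O : Set ℂ}
    (hO : IsOpen O) (hφ : Continuous φ) (hc : HasCompactSupport φ) (hs : tsupport φ ⊆ O)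
    (hh : ContinuousOn h O) (i j : Fin r) :
    (∫ z, φ z • h z) i j = ∫ z, φ z * h z i j :=
  int_clm (LinearMap.toContinuousLinearMap (Matrix.entryLinearMap ℂ ℂ i j) : M r →L[ℂ] ℂ)
    hO hφ hc hs hh

theorem continuousOn_entry {r : ℕ} {F : ℂ → M r} {U : Set ℂ} (hF : ContinuousOn F U)
    (i j : Fin r) : ContinuousOn (fun z => F z i j) U :=
  (LinearMap.toContinuousLinearMap (Matrix.entryLinearMap ℂ ℂ i j) :
    M r →L[ℂ] ℂ).continuous.comp_continuousOn hF

theorem contDiffOn_entry {r : ℕ} {F : ℂ → M r} {U : Set ℂ} (hF : ContDiffOn ℝ 1 F U)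
    (i j : Fin r) : ContDiffOn ℝ 1 (fun z => F z i j) U :=
  ((LinearMap.toContinuousLinearMap (Matrix.entryLinearMap ℂ ℂ i j) :
    M r →L[ℂ] ℂ).restrictScalars ℝ).contDiff.comp_contDiffOn hF

/-- Products with `C¹` matrices. -/
theorem mul_aux {r : ℕ} {U : Set ℂ} {G A Q : ℂ → M r} (hU : IsOpen U)
    (hG : ContDiffOn ℝ 1 G U) (hA : ContinuousOn A U) (hQ : ContinuousOn Q U)
    (hw : WeakDb U A Q) :
    WeakDb U (fun z => G z * A z) (fun z => db G z * A z + G z * Q z) := by
  intro ψ hψ hc hs
  have hdbG : ContinuousOn (db G) U := by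
    have h1 : ContDiffOn ℝ ((0 : ℕ) + 1 : WithTop ℕ∞) G U := by simpa using hG
    exact (contDiffOn_db hU h1).continuousOn
  have hdψ := continuous_db_aux hψ
  have hcψ := hcs_db_aux hc
  have hsψ : tsupport (db ψ) ⊆ U := tsupport_db_aux.trans hs
  have cG := fun i k => continuousOn_entry hG.continuousOn i k
  have cA := fun k j => continuousOn_entry hA k j
  have cQ := fun k j => continuousOn_entry hQ k j
  have cD := fun i k => continuousOn_entry hdbG i k
  -- scalar identity
  have key : ∀ i j k : Fin r, ∫ z, db ψ z • (G z i k * A z k j) =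
      - (∫ z, ψ z • (db G z i k * A z k j)) - ∫ z, ψ z • (G z i k * Q z k j) := by
    intro i j k
    set φ : ℂ → ℂ := fun z => ψ z * G z i k with hφ
    have hφs : tsupport φ ⊆ tsupport ψ := tsupport_mul_subset_left
    have hφc : ContDiff ℝ 1 φ := by
      rw [contDiff_iff_contDiffAt]
      intro z
      by_cases hz : z ∈ tsupport ψ
      · exact hψ.contDiffAt.mul ((contDiffOn_entry hG i k).contDiffAt (hU.mem_nhds (hs hz)))
      · have h1 : φ =ᶠ[𝓝 z] fun _ => 0 := by
          filter_upwards [(isClosed_tsupport ψ).isOpen_compl.mem_nhds hz] with w hw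
          rw [hφ]
          simp only
          rw [image_eq_zero_of_notMem_tsupport hw, zero_mul]
        exact contDiffAt_const.congr_of_eventuallyEq h1
    have hφcs : HasCompactSupport φ := hc.mul_right
    have h1 := hw φ hφc hφcs (hφs.trans hs)
    have h2 := congrFun (congrFun h1 k) j
    rw [Matrix.neg_apply, entry_int hU (continuous_db_aux hφc) (hcs_db_aux hφcs)
        (tsupport_db_aux.trans (hφs.trans hs)) hA,
      entry_int hU hφc.continuous hφcs (hφs.trans hs) hQ] at h2
    have e1 : (fun z => db φ z * A z k j) = fun z => db ψ z • (G z i k * A z k j) +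
        ψ z • (db G z i k * A z k j) := by
      funext z
      by_cases hz : z ∈ tsupport ψ
      · have hGd : DifferentiableAt ℝ G z :=
          (hG.contDiffAt (hU.mem_nhds (hs hz))).differentiableAt one_ne_zero
        have hGe : DifferentiableAt ℝ (fun w => G w i k) z :=
          ((contDiffOn_entry hG i k).contDiffAt (hU.mem_nhds (hs hz))).differentiableAt
            one_ne_zero
        have h3 : db φ z = ψ z * db G z i k + db ψ z * G z i k := by
          have h4 := db_smul (hψ.differentiable one_ne_zero z) hGe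
          rw [db_entry hGd i k] at h4
          simp only [smul_eq_mul] at h4
          rw [← hφ] at h4
          rw [h4]
          ring
        rw [h3]
        simp only [smul_eq_mul]
        ring
      · have h3 : db φ z = 0 := by
          by_contra hne
          exact hz (hφs (tsupport_db_aux (subset_tsupport _ hne)))
        have h4 : db ψ z = 0 := by
          by_contra hne
          exact hz (tsupport_db_aux (subset_tsupport _ hne))
        rw [h3, h4, image_eq_zero_of_notMem_tsupport hz]
        simp
    have e2 : (fun z => φ z * Q z k j) = fun z => ψ z • (G z i k * Q z k j) := by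
      funext z
      rw [hφ]
      simp only [smul_eq_mul]
      ring
    have k1 : Integrable (fun z => db ψ z • (G z i k * A z k j)) :=
      integrable_smul_aux hU hdψ hcψ hsψ ((cG i k).mul (cA k j))
    have k2 : Integrable (fun z => ψ z • (db G z i k * A z k j)) :=
      integrable_smul_aux hU hψ.continuous hc hs ((cD i k).mul (cA k j))
    rw [e1, e2, integral_add k1 k2] at h2
    linear_combination h2
  have hGA : ContinuousOn (fun z => G z * A z) U := hG.continuousOn.mul hA
  have hGQ : ContinuousOn (fun z => db G z * A z + G z * Q z) U :=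
    (hdbG.mul hA).add (hG.continuousOn.mul hQ)
  ext i j
  rw [Matrix.neg_apply, entry_int hU hdψ hcψ hsψ hGA, entry_int hU hψ.continuous hc hs hGQ]
  have e1 : (fun z => db ψ z * (G z * A z) i j) =
      fun z => ∑ k, db ψ z • (G z i k * A z k j) := by
    funext z
    rw [Matrix.mul_apply, Finset.mul_sum]
    simp only [smul_eq_mul]
  have e2 : (fun z => ψ z * (db G z * A z + G z * Q z) i j) =
      fun z => ∑ k, (ψ z • (db G z i k * A z k j) + ψ z • (G z i k * Q z k j)) := by
    funext z
    rw [Matrix.add_apply, Matrix.mul_apply, Matrix.mul_apply,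
      ← Finset.sum_add_distrib, Finset.mul_sum]
    simp only [smul_eq_mul, mul_add]
  have k1 : ∀ k : Fin r, Integrable (fun z => db ψ z • (G z i k * A z k j)) := fun k =>
    integrable_smul_aux hU hdψ hcψ hsψ ((cG i k).mul (cA k j))
  have k2 : ∀ k : Fin r, Integrable (fun z => ψ z • (db G z i k * A z k j)) := fun k =>
    integrable_smul_aux hU hψ.continuous hc hs ((cD i k).mul (cA k j))
  have k3 : ∀ k : Fin r, Integrable (fun z => ψ z • (G z i k * Q z k j)) := fun k =>
    integrable_smul_aux hU hψ.continuous hc hs ((cG i k).mul (cQ k j))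
  have k4 : ∀ k : Fin r, Integrable (fun z => ψ z • (db G z i k * A z k j) +
      ψ z • (G z i k * Q z k j)) := fun k => (k2 k).add (k3 k)
  rw [e1, e2, integral_finsetSum _ fun k _ => k1 k, integral_finsetSum _ fun k _ => k4 k,
    ← Finset.sum_neg_distrib]
  refine Finset.sum_congr rfl fun k _ => ?_
  rw [key, integral_add (k2 k) (k3 k)]
  ring

end Weak

theorem weak_proof : Stmt_Weak where
  of_c1 := fun _ _ _ hU hA => Weak.of_c1_aux hU hA
  weyl := fun _ _ _ hU hA hw => Weak.weyl_aux hU hA hw
  mul := fun _ _ _ _ _ hU hG hA hQ hw => Weak.mul_aux hU hG hA hQ hw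
  lim := fun _ _ _ _ _ _ _ _ hl hU h hA hQ => Weak.lim_aux hl hU h hA hQ

end Pool.Agent.HSC
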