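import Pool.Agent.HSC.Stmts2

set_option autoImplicit false

open scoped Matrix.Norms.Frobenius ContDiff Topology Manifold ComplexOrder ComplexConjugate
open Matrix Set Filter Metric

noncomputable section

namespace Pool.Agent.HSC

universe u v

theorem XBd.dT_cont (hDT : Stmt_DT) {r : ℕ} {P : ℂ → M r} {s : Set ℂ} (hP : ContinuousOn P s)
    (hpos : ∀ z ∈ s, (P z).PosDef) : ContinuousOn (fun z => dT (P z) (1 : M r)) s := by
  have h1 : ContinuousOn (fun z => (P z, (1 : M r))) s := hP.prodMk continuousOn_const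
  have h2 : MapsTo (fun z => (P z, (1 : M r))) s {p : M r × M r | p.1.PosDef ∧ p.2.PosDef} :=
    fun z hz => ⟨hpos z hz, Matrix.PosDef.one⟩
  have h3 := ContinuousOn.comp (g := fun p : M r × M r => dT p.1 p.2) (hDT.cont r) h1 h2
  simpa only [Function.comp_def] using h3

theorem xbd_proof (hBMod : Stmt_BMod) (hDT : Stmt_DT) (X : Type u) [TopologicalSpace X]
    [T2Space X] [ChartedSpace ℂ X] [IsManifold 𝓘(ℂ) ω X] (r : ℕ) (E : HiggsBundle.{u, v} X r) :
    XBdAt X r E := by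
  intro q c P D x W hq hc hP hx hW ε hε
  have hxm := Disc.mem_cir.1 hx
  have hone : (1 : M r).PosDef := Matrix.PosDef.one
  -- bound of the Higgs field
  have hθc : ContinuousOn (E.θ D.i) (closedBall D.a D.ρ) := (E.θ_holo D.i).continuousOn.mono D.sub
  obtain ⟨B, hB⟩ := (isCompact_closedBall D.a D.ρ).exists_bound_of_continuousOn hθc
  -- bound of P
  have hPc : ContinuousOn (E.loc P D.i) (closedBall D.a D.ρ) := by
    have h1 := hP.cont D.i
    rw [inter_univ] at h1
    exact h1.comp ((E.φ D.i).continuousOn_symm.mono D.sub) fun z hz =>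
      (E.φ D.i).map_target (D.sub hz)
  have hPpos : ∀ z ∈ closedBall D.a D.ρ, (E.loc P D.i z).PosDef := fun z hz =>
    hP.pos D.i _ ⟨(E.φ D.i).map_target (D.sub hz), mem_univ _⟩
  have hdc : ContinuousOn (fun z => dT (E.loc P D.i z) (1 : M r)) (closedBall D.a D.ρ) :=
    XBd.dT_cont hDT hPc hPpos
  obtain ⟨B', hB'⟩ := (isCompact_closedBall D.a D.ρ).exists_bound_of_continuousOn hdc
  have hB'0 : 0 ≤ B' := (norm_nonneg _).trans (hB' D.a (mem_closedBall_self D.pos.le))
  -- the neighbourhood W in the chart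
  have hWs : (E.φ D.i).symm ⁻¹' W ∈ 𝓝 (E.φ D.i x) := by
    have h1 : ContinuousAt (E.φ D.i).symm (E.φ D.i x) :=
      (E.φ D.i).continuousAt_symm ((E.φ D.i).map_source hxm.1)
    apply h1
    rw [(E.φ D.i).left_inv hxm.1]
    exact hW
  obtain ⟨σ, hσ, hσW⟩ := Metric.mem_nhds_iff.mp hWs
  obtain ⟨δ, hδ, hmod⟩ := hBMod r q B (c + B') D.ρ ε σ hq (by linarith) D.pos hε hσ
  refine ⟨(E.φ D.i).source ∩ (E.φ D.i) ⁻¹' ball (E.φ D.i x) δ, ?_, ?_⟩
  · exact ((E.φ D.i).isOpen_inter_preimage isOpen_ball).mem_nhds ⟨hxm.1, mem_ball_self hδ⟩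
  · intro h hM hS hT hcir y hy
    have hyc := Disc.mem_cl.1 hy.2
    have hhc : ContinuousOn (E.loc h D.i) (closedBall D.a D.ρ) := by
      have h1 := hM.cont D.i
      rw [inter_univ] at h1
      exact h1.comp ((E.φ D.i).continuousOn_symm.mono D.sub) fun z hz =>
        (E.φ D.i).map_target (D.sub hz)
    have hhp : ∀ z ∈ closedBall D.a D.ρ, (E.loc h D.i z).PosDef := fun z hz =>
      hM.pos D.i _ ⟨(E.φ D.i).map_target (D.sub hz), mem_univ _⟩
    have hT1 : ∀ z ∈ closedBall D.a D.ρ, Thm (c + B') (E.loc h D.i z) 1 := by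
      intro z hz
      have h3 := hDT.le r _ _ c hc (hT _ ⟨z, hz, rfl⟩)
      have h4 : dT (E.loc P D.i z) 1 ≤ B' := (le_abs_self _).trans (hB' z hz)
      have h5 := hDT.tri r (E.loc h D.i z) (E.loc P D.i z) 1 (hhp z hz) (hPpos z hz) hone
      have h6 : dT (E.loc h D.i z) (E.loc P D.i z) ≤ c := h3
      exact hDT.mono r _ _ _ (c + B') (hhp z hz) hone (by linarith)
        (hDT.thm r _ _ (hhp z hz) hone)
    have hS1 : Sol (ball D.a D.ρ) q (E.θ D.i) (E.loc h D.i) := by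
      refine (hS D.i).mono fun z hz => ⟨D.ball_sub hz, ⟨z, hz, rfl⟩⟩
    have hlx : E.loc h D.i (E.φ D.i x) = h D.i x := by
      simp only [HiggsBundle.loc]
      rw [(E.φ D.i).left_inv hxm.1]
    have hly : E.loc h D.i (E.φ D.i y) = h D.i y := by
      simp only [HiggsBundle.loc]
      rw [(E.φ D.i).left_inv hyc.1]
    have hfin := hmod (E.θ D.i) (E.loc h D.i) D.a (E.φ D.i x) hhc
      (fun z hz => ⟨hhp z hz, hT1 z hz⟩) hS1 (fun z hz => hB z (ball_subset_closedBall hz)) hxm.2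
      (by
        intro z hz hzσ
        rw [hlx, hDT.comm]
        exact hcir _ ⟨hσW (mem_ball_iff_norm.mpr hzσ), ⟨z, hz, rfl⟩⟩)
      (E.φ D.i y) hyc.2 (mem_ball_iff_norm.mp hy.1.2)
    rw [hlx, hly, hDT.comm] at hfin
    exact hfin

end Pool.Agent.HSC
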