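import Pool.Agent.HSC.Stmts2

set_option autoImplicit false

open scoped Matrix.Norms.Frobenius ContDiff Topology Manifold ComplexOrder ComplexConjugate
open Matrix Set Filter Metric

noncomputable section

namespace Pool.Agent.HSC

universe u v

theorem XInt.thm_trans (hDT : Stmt_DT) {r : ℕ} {A B C : M r} {c c' : ℝ} (hA : A.PosDef)
    (hB : B.PosDef) (hC : C.PosDef) (hc : 0 ≤ c) (hc' : 0 ≤ c') (h1 : Thm c A B)
    (h2 : Thm c' B C) : Thm (c + c') A C := by
  have h3 := hDT.le r A B c hc h1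
  have h4 := hDT.le r B C c' hc' h2
  have h5 := hDT.tri r A B C hA hB hC
  exact hDT.mono r A C (dT A C) (c + c') hA hC (by linarith) (hDT.thm r A C hA hC)

theorem XInt.dT_cont (hDT : Stmt_DT) {r : ℕ} {P : ℂ → M r} {s : Set ℂ} (hP : ContinuousOn P s)
    (hpos : ∀ z ∈ s, (P z).PosDef) : ContinuousOn (fun z => dT (P z) (1 : M r)) s := by
  have h1 : ContinuousOn (fun z => (P z, (1 : M r))) s := hP.prodMk continuousOn_const
  have h2 : MapsTo (fun z => (P z, (1 : M r))) s {p : M r × M r | p.1.PosDef ∧ p.2.PosDef} :=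
    fun z hz => ⟨hpos z hz, Matrix.PosDef.one⟩
  have h3 := ContinuousOn.comp (g := fun p : M r × M r => dT p.1 p.2) (hDT.cont r) h1 h2
  simpa only [Function.comp_def] using h3

/-- near a point a continuous metric is `Thm B` to `1` -/
theorem XInt.near (hDT : Stmt_DT) {r : ℕ} {P : ℂ → M r} {U : Set ℂ} {z₀ : ℂ} (hU : IsOpen U)
    (hz : z₀ ∈ U) (hP : ContinuousOn P U) (hpos : ∀ z ∈ U, (P z).PosDef) :
    ∃ B : ℝ, 0 ≤ B ∧ ∃ V : Set ℂ, IsOpen V ∧ z₀ ∈ V ∧ V ⊆ U ∧ ∀ z ∈ V, Thm B (P z) 1 := by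
  have hone : (1 : M r).PosDef := Matrix.PosDef.one
  have hcont : ContinuousOn (fun z => dT (P z) (1 : M r)) U := XInt.dT_cont hDT hP hpos
  have hat : ContinuousAt (fun z => dT (P z) 1) z₀ := hcont.continuousAt (hU.mem_nhds hz)
  have hev : ∀ᶠ z in 𝓝 z₀, dT (P z) 1 < dT (P z₀) 1 + 1 :=
    hat.eventually_lt continuousAt_const (by simp)
  obtain ⟨V, hV1, hV2, hV3⟩ := _root_.mem_nhds_iff.mp (hev.and (hU.mem_nhds hz))
  refine ⟨dT (P z₀) 1 + 1, by have := hDT.nonneg r (P z₀) 1; linarith, V, hV2, hV3,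
    fun z hz => (hV1 hz).2, fun z hz => ?_⟩
  exact hDT.mono r _ _ _ _ (hpos z (hV1 hz).2) hone (hV1 hz).1.le
    (hDT.thm r _ _ (hpos z (hV1 hz).2) hone)

theorem xint_proof (hIntEq : Stmt_IntEq) (hDT : Stmt_DT) (X : Type u) [TopologicalSpace X]
    [T2Space X] [ChartedSpace ℂ X] [IsManifold 𝓘(ℂ) ω X] (r : ℕ) (E : HiggsBundle.{u, v} X r) :
    XIntAt X r E := by
  intro q c P W i x hq hc hP hW hxW hxi ε hε
  have hU : IsOpen (E.dom i W) := isOpen_dom E i hW
  have hz : E.φ i x ∈ E.dom i W := map_mem_dom hxi hxW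
  have hPc : ContinuousOn (E.loc P i) (E.dom i W) := by
    have h1 := hP.cont i
    rw [inter_univ] at h1
    have h2 : ContinuousOn (E.φ i).symm (E.dom i W) :=
      (E.φ i).continuousOn_symm.mono inter_subset_left
    exact h1.comp h2 fun z hz => (E.φ i).map_target hz.1
  have hPpos : ∀ z ∈ E.dom i W, (E.loc P i z).PosDef := fun z hz =>
    hP.pos i _ ⟨(E.φ i).map_target hz.1, mem_univ _⟩
  obtain ⟨B, hB, U, hUo, hzU, hUsub, hUB⟩ := XInt.near hDT hU hz hPc hPpos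
  obtain ⟨δ, hδ, hδU, hint⟩ := hIntEq r q (c + B) U (E.θ i) (E.φ i x) hq (by linarith) hUo hzU
    ((E.θ_holo i).continuousOn.mono (hUsub.trans inter_subset_left)) ε hε
  refine ⟨(E.φ i).source ∩ (E.φ i) ⁻¹' ball (E.φ i x) δ, ?_, inter_subset_left, ?_⟩
  · exact ((E.φ i).isOpen_inter_preimage isOpen_ball).mem_nhds
      ⟨hxi, mem_ball_self hδ⟩
  · intro h hM hS hT y hy
    have h1 : ∀ z ∈ U, Thm (c + B) (E.loc h i z) 1 := by
      intro z hz
      have hzd := hUsub hz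
      refine XInt.thm_trans hDT (B := E.loc P i z)
        (hM.pos i _ ⟨(E.φ i).map_target hzd.1, mem_univ _⟩) (hPpos z hzd)
        Matrix.PosDef.one hc hB (hT _ ⟨hzd.2, (E.φ i).map_target hzd.1⟩) (hUB z hz)
    have h2 := hint (E.loc h i) ((hS i).mono hUsub) h1 (E.φ i y) hy.2
    rw [hDT.comm]
    simp only [HiggsBundle.loc] at h2
    rw [(E.φ i).left_inv hy.1, (E.φ i).left_inv hxi] at h2
    exact h2

end Pool.Agent.HSC
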