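import Pool.Agent.HSC.Assembly
import Pool.Agent.HSC.BMod
import Pool.Agent.HSC.BdApi
import Pool.Agent.HSC.CT
import Pool.Agent.HSC.CTB
import Pool.Agent.HSC.CTW
import Pool.Agent.HSC.Cmp
import Pool.Agent.HSC.Dens
import Pool.Agent.HSC.DIR
import Pool.Agent.HSC.DMax
import Pool.Agent.HSC.DT
import Pool.Agent.HSC.EQC
import Pool.Agent.HSC.EXH
import Pool.Agent.HSC.FACT
import Pool.Agent.HSC.FSub
import Pool.Agent.HSC.Fin
import Pool.Agent.HSC.Fresh
import Pool.Agent.HSC.GLUE
import Pool.Agent.HSC.Gap
import Pool.Agent.HSC.Gauge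
import Pool.Agent.HSC.Good
import Pool.Agent.HSC.Grad
import Pool.Agent.HSC.IntEq
import Pool.Agent.HSC.Jac
import Pool.Agent.HSC.KyFan
import Pool.Agent.HSC.LDIR
import Pool.Agent.HSC.LOGP
import Pool.Agent.HSC.Lim
import Pool.Agent.HSC.Loc
import Pool.Agent.HSC.LocMax
import Pool.Agent.HSC.MAXP
import Pool.Agent.HSC.POIS
import Pool.Agent.HSC.Reg
import Pool.Agent.HSC.Rem
import Pool.Agent.HSC.Repl
import Pool.Agent.HSC.SEQ
import Pool.Agent.HSC.SIMD
import Pool.Agent.HSC.STAB
import Pool.Agent.HSC.Small
import Pool.Agent.HSC.Smp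
import Pool.Agent.HSC.Solve
import Pool.Agent.HSC.TP
import Pool.Agent.HSC.TPC
import Pool.Agent.HSC.Touch
import Pool.Agent.HSC.VCmp
import Pool.Agent.HSC.Weak
import Pool.Agent.HSC.XBd
import Pool.Agent.HSC.XInt

/-!
# The main theorem: scaling of the Higgs field preserves the existence of harmonic metrics
-/

set_option autoImplicit false

open scoped Matrix.Norms.Frobenius ContDiff Topology Manifold ComplexOrder ComplexConjugate
open Matrix Set Filter MeasureTheory Metric

noncomputable section

namespace Pool.Agent.HSC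

universe u v

/-- The main theorem: all the modules put together. -/
theorem main (X : Type u) [TopologicalSpace X] [T2Space X] [ChartedSpace ℂ X]
    [IsManifold 𝓘(ℂ) ω X] [ConnectedSpace X] [NoncompactSpace X] (r : ℕ)
    (E : HiggsBundle.{u, v} X r) (h : E.ι → X → M r) (hh : IsHarmonic E h) (t : ℂ) (ht : t ≠ 0) :
    ∃ K, IsHarmonic (E.scale t) K := by
  have hDT := dt_proof
  have hVCmp := vcmp_proof
  have hLM := locmax_proof
  have hTouch := touch_proof jac_proof hLM
  have hCmp := cmp_proof simd_proof kyfan_proof gap_proof hTouch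
  have hBdApi := bdapi_proof simd_proof
  have hTP := tp_proof hDT hTouch hLM
  have hTPC := tpc_proof hDT hTouch hLM
  have hBMod := bmod_proof hDT hVCmp hTPC
  have hDMax := dmax_proof hDT hVCmp hTP
  have hWeak := weak_proof
  have hCT := ct_proof
  have hCTB := ctb_proof
  have hCTW := ctw_proof hCT
  have hReg := reg_proof hCT hWeak
  have hPois := pois_proof logp_proof hCTB hCTW hWeak
  have hSmall := small_proof hPois hReg hWeak hDT
  have hSolve := solve_proof fact_proof hSmall gauge_proof hDT
  have hGrad := grad_proof hCT hCTB hDT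
  have hLim := lim_proof hDT hGrad hWeak hReg
  have hIntEq := inteq_proof hGrad hDT
  have hDens := dens_proof hDT
  have hDir := dir_proof hSolve hDens hDMax hLim hDT
  have hLDir := ldir_proof hDir gauge_proof
  have hMaxP : Stmt_MaxP.{u, v} := maxp_proof smp_proof rem_proof
  have hFin := fin_proof X r E
  have hGood := good_proof hLDir hDT X r E
  have hLoc := loc_proof gauge_proof X r E
  have hRepl := repl_proof X r E hLoc
  have hSeq := seq_proof X r E hRepl hCmp hBdApi
  have hXInt := xint_proof hIntEq hDT X r E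
  have hXBd := xbd_proof hBMod hDT X r E
  have hEqc := eqc_proof X r E hXInt hXBd hBdApi hDT
  have hFresh := fresh_proof X r E
  have hFSub := fsub_proof hDT hBdApi hTP stab_proof hLM X r E hFresh hEqc
  have hGlue := glue_proof X r E hLim hDT hBdApi
  have hExh := exh_proof hLim hDT hBdApi X r E
  exact exist_global X r E hMaxP hFin hGood hSeq hFSub hGlue hExh h hh t ht

end Pool.Agent.HSC
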