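import Pool.Agent.HSC.Stmts2

/-!
# SMP: the strong maximum principle on a disc
-/

set_option autoImplicit false

open scoped Matrix.Norms.Frobenius ContDiff Topology Manifold ComplexOrder ComplexConjugate
open Matrix Set Filter MeasureTheory Metric

noncomputable section

namespace Pool.Agent.HSC

namespace SMP

theorem dz_cexp {u : ℂ → ℂ} {z : ℂ} (hu : DifferentiableAt ℝ u z) :
    dz (fun w => Complex.exp (u w)) z = Complex.exp (u z) * dz u z := by
  have h : HasFDerivAt (fun w => Complex.exp (u w)) (Complex.exp (u z) • fderiv ℝ u z) z :=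
    hu.hasFDerivAt.cexp
  unfold dz
  rw [h.fderiv]
  simp only [_root_.smul_apply, smul_eq_mul]
  ring

theorem db_cexp {u : ℂ → ℂ} {z : ℂ} (hu : DifferentiableAt ℝ u z) :
    db (fun w => Complex.exp (u w)) z = Complex.exp (u z) * db u z := by
  have h : HasFDerivAt (fun w => Complex.exp (u w)) (Complex.exp (u z) • fderiv ℝ u z) z :=
    hu.hasFDerivAt.cexp
  unfold db
  rw [h.fderiv]
  simp only [_root_.smul_apply, smul_eq_mul]
  ring

/-- the barrier function -/
def bar (α : ℝ) (y w : ℂ) : ℝ := Real.exp (-(α * ‖w - y‖ ^ 2))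

theorem contDiff_bar (α : ℝ) (y : ℂ) : ContDiff ℝ 2 (bar α y) := by
  unfold bar
  have h1 : ContDiff ℝ 2 (fun w : ℂ => ‖w - y‖ ^ 2) := by
    apply ContDiff.norm_sq ℝ
    fun_prop
  exact Real.contDiff_exp.comp ((contDiff_const.mul h1).neg)

theorem ddb_bar (α : ℝ) (y z : ℂ) :
    ddb (bar α y) z = (α ^ 2 * ‖z - y‖ ^ 2 - α) * Real.exp (-(α * ‖z - y‖ ^ 2)) := by
  have e : (fun w : ℂ => ((bar α y w : ℝ) : ℂ)) =
      fun w => Complex.exp (-((α : ℂ) * ((w - y) * star (w - y)))) := by
    funext w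
    rw [bar, Complex.star_def, Complex.mul_conj, Complex.normSq_eq_norm_sq]
    push_cast
    rfl
  have h1 : ∀ w : ℂ, DifferentiableAt ℝ (fun w : ℂ => w - y) w := fun w => by fun_prop
  have h1' : ∀ w : ℂ, DifferentiableAt ℂ (fun w : ℂ => w - y) w := fun w => by fun_prop
  have h2 : ∀ w : ℂ, DifferentiableAt ℝ (fun w : ℂ => (w - y) * star (w - y)) w := fun w =>
    (h1 w).mul (differentiableAt_star (h1 w))
  have h3 : ∀ w : ℂ, DifferentiableAt ℝ (fun w : ℂ => -((α : ℂ) * ((w - y) * star (w - y)))) w :=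
    fun w => ((h2 w).const_mul (α : ℂ)).neg
  have hdz : ∀ w, dz (fun w : ℂ => -((α : ℂ) * ((w - y) * star (w - y)))) w =
      -((α : ℂ) * star (w - y)) := by
    intro w
    have h4 := dz_const_smul (α : ℂ) (h2 w)
    simp only [smul_eq_mul] at h4
    rw [dz_neg, h4, dz_mul (h1 w) (differentiableAt_star (h1 w)), dz_star (h1 w),
      dz_holo (h1' w), db_holo (h1' w)]
    simp
  have hdb : ∀ w, db (fun w : ℂ => -((α : ℂ) * ((w - y) * star (w - y)))) w =
      -((α : ℂ) * (w - y)) := by
    intro w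
    have h4 := db_const_smul (α : ℂ) (h2 w)
    simp only [smul_eq_mul] at h4
    rw [db_neg, h4, db_mul (h1 w) (differentiableAt_star (h1 w)), db_star (h1 w),
      dz_holo (h1' w), db_holo (h1' w)]
    simp
  have hE : ∀ w, DifferentiableAt ℝ
      (fun w : ℂ => Complex.exp (-((α : ℂ) * ((w - y) * star (w - y))))) w := fun w => (h3 w).cexp
  have h5 : dz (fun w : ℂ => Complex.exp (-((α : ℂ) * ((w - y) * star (w - y))))) =
      fun w => Complex.exp (-((α : ℂ) * ((w - y) * star (w - y)))) *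
        (-((α : ℂ) * star (w - y))) := by
    funext w
    rw [dz_cexp (h3 w), hdz w]
  have h6 : DifferentiableAt ℝ (fun w : ℂ => (-((α : ℂ) * star (w - y)))) z :=
    ((differentiableAt_star (h1 z)).const_mul (α : ℂ)).neg
  have h7 : db (fun w : ℂ => (-((α : ℂ) * star (w - y)))) z = -(α : ℂ) := by
    have h4 := db_const_smul (α : ℂ) (differentiableAt_star (h1 z))
    simp only [smul_eq_mul] at h4
    rw [db_neg, h4, db_star (h1 z), dz_holo (h1' z)]
    simp
  have h8 : ((z - y) * star (z - y) : ℂ) = ((‖z - y‖ ^ 2 : ℝ) : ℂ) := by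
    rw [Complex.star_def, Complex.mul_conj, Complex.normSq_eq_norm_sq]
  unfold ddb
  rw [e, h5, db_mul (hE z) h6, db_cexp (h3 z), hdb z, h7]
  have h9 : Complex.exp (-((α : ℂ) * ((z - y) * star (z - y)))) * -((α : ℂ) * (z - y)) *
      -((α : ℂ) * star (z - y)) +
      Complex.exp (-((α : ℂ) * ((z - y) * star (z - y)))) * -(α : ℂ) =
      (((α ^ 2 * ‖z - y‖ ^ 2 - α) * Real.exp (-(α * ‖z - y‖ ^ 2)) : ℝ) : ℂ) := by
    have h10 : Complex.exp (-((α : ℂ) * ((z - y) * star (z - y)))) * -((α : ℂ) * (z - y)) *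
      -((α : ℂ) * star (z - y)) +
      Complex.exp (-((α : ℂ) * ((z - y) * star (z - y)))) * -(α : ℂ) =
      ((α : ℂ) ^ 2 * ((z - y) * star (z - y)) - α) *
        Complex.exp (-((α : ℂ) * ((z - y) * star (z - y)))) := by ring
    rw [h10, h8]
    push_cast
    rfl
  rw [h9, Complex.ofReal_re]

end SMP

open SMP in
theorem smp_proof : Stmt_Smp := by
  intro f a ρ S hρ hf hsub hle hfa y hy
  by_contra hne
  have hyρ : dist y a < ρ := mem_ball.mp hy
  have hyS : f y < S := lt_of_le_of_ne (hle y (ball_subset_ball (by linarith) hy)) hne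
  have hsub2 : closedBall a (2 * ρ) ⊆ ball a (3 * ρ) := closedBall_subset_ball (by linarith)
  -- the nearest point
  set Z : Set ℂ := closedBall a (2 * ρ) ∩ f ⁻¹' {S} with hZ
  have hZc : IsCompact Z := by
    have h1 : IsClosed Z :=
      (hf.mono hsub2).preimage_isClosed_of_isClosed isClosed_closedBall isClosed_singleton
    exact (isCompact_closedBall a (2 * ρ)).of_isClosed_subset h1 inter_subset_left
  have haZ : a ∈ Z := ⟨mem_closedBall_self (by linarith), hfa⟩
  obtain ⟨z₁, hz₁, hmin⟩ := hZc.exists_isMinOn ⟨a, haZ⟩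
    (f := fun z => dist z y) (by fun_prop)
  have hmin' : ∀ z ∈ Z, dist z₁ y ≤ dist z y := fun z hz => hmin hz
  set d := dist z₁ y with hd
  have hdρ : d < ρ := lt_of_le_of_lt (hmin' a haZ) (by rwa [dist_comm] at hyρ)
  have hd0 : 0 < d := by
    rw [hd, dist_pos]
    rintro rfl
    exact hne hz₁.2
  -- below `S` inside
  have hlt : ∀ z, dist z y < d → f z < S := by
    intro z hz
    have h1 : z ∈ closedBall a (2 * ρ) := by
      rw [mem_closedBall]
      have := dist_triangle z y a
      linarith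
    apply lt_of_le_of_ne (hle z (hsub2 h1))
    intro h2
    have := hmin' z ⟨h1, h2⟩
    linarith
  -- the barrier
  obtain ⟨α, hα⟩ : ∃ α : ℝ, 4 / d ^ 2 < α := exists_gt _
  have hα0 : 0 < α := lt_trans (by positivity) hα
  set h : ℂ → ℝ := fun w => bar α y w - Real.exp (-(α * d ^ 2)) with hh
  -- the inner circle
  have hinner : IsCompact (sphere y (d / 2)) := isCompact_sphere y (d / 2)
  have hin3 : sphere y (d / 2) ⊆ ball a (3 * ρ) := by
    intro z hz
    rw [mem_sphere] at hz
    rw [mem_ball]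
    have := dist_triangle z y a
    linarith
  obtain ⟨m, hmS, hm⟩ : ∃ m < S, ∀ z ∈ sphere y (d / 2), f z ≤ m := by
    have hne : (sphere y (d / 2)).Nonempty := NormedSpace.sphere_nonempty.mpr (by positivity)
    obtain ⟨z₂, hz₂, hmax⟩ := hinner.exists_isMaxOn hne (hf.mono hin3)
    refine ⟨f z₂, hlt z₂ ?_, fun z hz => hmax hz⟩
    rw [mem_sphere] at hz₂
    linarith
  set η := (S - m) / 2 with hη
  have hη0 : 0 < η := by rw [hη]; linarith
  have hbar_le : ∀ w, bar α y w ≤ 1 := by
    intro w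
    rw [bar, Real.exp_le_one_iff]
    have : 0 ≤ α * ‖w - y‖ ^ 2 := by positivity
    linarith
  set d' := d + ρ with hd'
  set A : Set ℂ := closedBall y d' \ ball y (d / 2) with hA
  have hAc : IsCompact A := (isCompact_closedBall y d').diff isOpen_ball
  have hA3 : A ⊆ ball a (3 * ρ) := by
    intro z hz
    have := mem_closedBall.mp hz.1
    rw [mem_ball]
    have := dist_triangle z y a
    linarith
  have hz₁A : z₁ ∈ A := by
    refine ⟨?_, ?_⟩
    · rw [mem_closedBall]
      linarith
    · rw [mem_ball]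
      push Not
      linarith
  have hhc : Continuous h := (contDiff_bar α y).continuous.sub continuous_const
  obtain ⟨z, hzA, hzmax⟩ := hAc.exists_isMaxOn ⟨z₁, hz₁A⟩
    (f := fun z => f z + η * h z) ((hf.mono hA3).add (hhc.const_mul η |>.continuousOn))
  have hmax1 : S ≤ f z + η * h z := by
    have h1 : f z₁ + η * h z₁ ≤ f z + η * h z := hzmax hz₁A
    have h2 : h z₁ = 0 := by
      rw [hh]
      simp only
      rw [bar, ← dist_eq_norm, ← hd, sub_self]
    rw [h2, mul_zero, add_zero] at h1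
    have h3 : f z₁ = S := hz₁.2
    linarith
  -- `z` is in the interior
  have hzout : dist z y < d' := by
    have h1 := mem_closedBall.mp hzA.1
    apply lt_of_le_of_ne h1
    intro h2
    have h3 : h z < 0 := by
      rw [hh]
      simp only
      rw [bar, sub_neg, Real.exp_lt_exp, neg_lt_neg_iff, ← dist_eq_norm, h2]
      apply mul_lt_mul_of_pos_left _ hα0
      apply pow_lt_pow_left₀ _ hd0.le two_ne_zero
      linarith
    have h4 := hle z (hA3 hzA)
    have h5 : η * h z < 0 := mul_neg_of_pos_of_neg hη0 h3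
    linarith
  have hzin : d / 2 < dist z y := by
    have h1 : d / 2 ≤ dist z y := by
      have := hzA.2
      rw [mem_ball] at this
      push Not at this
      exact this
    apply lt_of_le_of_ne h1
    intro h2
    have h3 := hm z (mem_sphere.mpr h2.symm)
    have h4 : h z ≤ 1 := by
      have := hbar_le z
      have := Real.exp_pos (-(α * d ^ 2))
      rw [hh]
      simp only
      linarith
    have h5 : η * h z ≤ η * 1 := mul_le_mul_of_nonneg_left h4 hη0.le
    linarith
  -- the test function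
  set ψ : ℂ → ℝ := fun w => (-η) * bar α y w + η * Real.exp (-(α * d ^ 2)) with hψ
  have hψ2 : ContDiffAt ℝ 2 ψ z :=
    ((contDiff_const.mul (contDiff_bar α y)).add contDiff_const).contDiffAt
  have hev : ∀ᶠ w in 𝓝 z, f w - ψ w ≤ f z - ψ z := by
    have hopen : IsOpen (ball y d' \ closedBall y (d / 2)) :=
      isOpen_ball.sdiff isClosed_closedBall
    have hmem : z ∈ ball y d' \ closedBall y (d / 2) := by
      refine ⟨hzout, ?_⟩
      rw [mem_closedBall]
      push Not
      exact hzin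
    filter_upwards [hopen.mem_nhds hmem] with w hw
    have hwA : w ∈ A := ⟨ball_subset_closedBall hw.1, fun h1 => hw.2 (ball_subset_closedBall h1)⟩
    have h1 : f w + η * h w ≤ f z + η * h z := hzmax hwA
    have h2 : ∀ w, ψ w = -(η * h w) := by
      intro w
      rw [hψ, hh]
      ring
    rw [h2, h2]
    linarith
  have hfin := hsub z (hA3 hzA) ψ hψ2 hev
  have hddb : ddb ψ z = (-η) * ((α ^ 2 * ‖z - y‖ ^ 2 - α) * Real.exp (-(α * ‖z - y‖ ^ 2))) := by
    rw [hψ, ddb_add (contDiff_const.mul (contDiff_bar α y)).contDiffAt contDiffAt_const,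
      ddb_const_mul _ (contDiff_bar α y).contDiffAt, ddb_const, ddb_bar, add_zero]
  rw [hddb] at hfin
  have h1 : 0 < α ^ 2 * ‖z - y‖ ^ 2 - α := by
    have h2 : d ^ 2 / 4 < ‖z - y‖ ^ 2 := by
      rw [← dist_eq_norm]
      have : (d / 2) ^ 2 < dist z y ^ 2 := pow_lt_pow_left₀ hzin (by positivity) two_ne_zero
      calc d ^ 2 / 4 = (d / 2) ^ 2 := by ring
        _ < _ := this
    have h3 : 1 < α * (d ^ 2 / 4) := by
      rw [div_lt_iff₀ (by positivity)] at hα
      linarith
    have h4 : 1 < α * ‖z - y‖ ^ 2 := lt_trans h3 (mul_lt_mul_of_pos_left h2 hα0)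
    nlinarith
  have h2 : 0 < (α ^ 2 * ‖z - y‖ ^ 2 - α) * Real.exp (-(α * ‖z - y‖ ^ 2)) :=
    mul_pos h1 (Real.exp_pos _)
  nlinarith

end Pool.Agent.HSC
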