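import Pool.Agent.HSC.Global

/-!
# Statements of the modules of part two (global part)
-/

set_option autoImplicit false

open scoped Matrix.Norms.Frobenius ContDiff Topology Manifold ComplexOrder ComplexConjugate
open Matrix Set Filter MeasureTheory Metric

noncomputable section

namespace Pool.Agent.HSC

universe u v

/-! ## Topology and maximum principle -/

/-- stability of viscosity subsolutions -/
def Stmt_Stab : Prop := ∀ (f : ℂ → ℝ) (d : ℕ → ℂ → ℝ) (x : ℂ) (R : ℝ), 0 < R →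
  (∀ k, ∀ y ∈ ball x R, VSub 0 (d k) y) → (∀ k, ContinuousOn (d k) (closedBall x R)) →
  (∀ y ∈ closedBall x R, ∀ ε > 0, ∀ᶠ k in atTop, d k y ≤ f y + ε) →
  (∀ y ∈ closedBall x R, ∀ ε > 0, ∃ δ > 0, ∀ᶠ k in atTop, ∀ z ∈ closedBall x R,
    ‖z - y‖ < δ → d k z ≤ d k y + ε) →
  Tendsto (fun k => d k x) atTop (𝓝 (f x)) → VSub 0 f x

/-- strong maximum principle on a disc -/
def Stmt_Smp : Prop := ∀ (f : ℂ → ℝ) (a : ℂ) (ρ S : ℝ), 0 < ρ → ContinuousOn f (ball a (3 * ρ)) →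
  (∀ z ∈ ball a (3 * ρ), VSub 0 f z) → (∀ z ∈ ball a (3 * ρ), f z ≤ S) → f a = S →
  ∀ z ∈ ball a ρ, f z = S

/-- removable points -/
def Stmt_Rem : Prop := ∀ (f : ℂ → ℝ) (a : ℂ) (ρ S B : ℝ), 0 < ρ →
  ContinuousOn f (closedBall a ρ \ {a}) → (∀ z ∈ ball a ρ, z ≠ a → VSub 0 f z) →
  (∀ z ∈ closedBall a ρ, f z ≤ B) → (∀ z ∈ sphere a ρ, f z ≤ S) →
  ∀ z ∈ closedBall a ρ, z ≠ a → f z ≤ S

/-- the maximum principle on a connected non-compact surface -/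
def Stmt_MaxP : Prop := ∀ (X : Type u) [TopologicalSpace X] [T2Space X] [ConnectedSpace X]
  [NoncompactSpace X] (ι : Type v) (φ : ι → OpenPartialHomeomorph X ℂ) (F C : Set X)
  (f : X → ℝ) (B : ℝ), (∀ x, ∃ i, x ∈ (φ i).source) → F.Finite → IsCompact C →
  (∀ x ∉ C, f x = 0) → (∀ x, 0 ≤ f x) → (∀ x, f x ≤ B) → (∀ x ∉ F, ContinuousAt f x) →
  (∀ i, ∀ x ∈ (φ i).source, x ∉ F → VSub 0 (fun z => f ((φ i).symm z)) (φ i x)) →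
  ∀ x ∉ F, f x = 0

section

variable (X : Type u) [TopologicalSpace X] [T2Space X] [ChartedSpace ℂ X] [IsManifold 𝓘(ℂ) ω X]
  (r : ℕ) (E : HiggsBundle.{u, v} X r)

/-- choice of the discs, with a finite exceptional set -/
def FinAt : Prop := ∀ (C : Set X) (S : Disc E → Prop), IsCompact C → C.Nonempty →
  (∀ x ∈ C, ∃ i, x ∈ (E.φ i).source ∧ ∃ R > 0, closedBall (E.φ i x) R ⊆ (E.φ i).target ∧
    ∀ D : Disc E, D.i = i → D.a = E.φ i x → D.ρ ≤ R → S D) →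
  ∃ (N : ℕ) (D : ℕ → Disc E), 0 < N ∧ (∀ m, D (m + N) = D m) ∧ C ⊆ (⋃ m, (D m).op) ∧
    (∀ m, S (D m)) ∧ (Exc N D).Finite

/-- being a solution does not depend on the frame and the chart -/
def LocAt : Prop := ∀ (q : ℝ) (i : E.ι) (Ω : Set X) (h : E.ι → X → M r), IsOpen Ω →
  Ω ⊆ (E.φ i).source → MetX E Ω h → Sol (E.dom i Ω) q (E.θ i) (E.loc h i) → SolX E q Ω h

/-- replacement of a metric on a disc -/
def ReplAt : Prop := ∀ (q : ℝ) (D : Disc E) (h : E.ι → X → M r) (K : ℂ → M r),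
  MetX E univ h → ContinuousOn K (closedBall D.a D.ρ) →
  (∀ z ∈ closedBall D.a D.ρ, (K z).PosDef) → (∀ z ∈ sphere D.a D.ρ, K z = E.loc h D.i z) →
  Sol (ball D.a D.ρ) q (E.θ D.i) K → ∃ h' : E.ι → X → M r, MetX E univ h' ∧
    (∀ x ∉ D.op, ∀ i, h' i x = h i x) ∧ (∀ z ∈ closedBall D.a D.ρ, E.loc h' D.i z = K z) ∧
    SolX E q D.op h'

/-- every point has discs on which the Dirichlet problem is solvable -/
def GoodAt : Prop := ∀ (q c : ℝ) (P : E.ι → X → M r), 0 < q → MetX E univ P → ∀ x : X,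
  ∃ i, x ∈ (E.φ i).source ∧ ∃ R > 0, closedBall (E.φ i x) R ⊆ (E.φ i).target ∧
    ∀ D : Disc E, D.i = i → D.a = E.φ i x → D.ρ ≤ R → D.Solv q c P

/-- existence of the sweeping sequence -/
def SeqAt : Prop := ∀ (p q : ℝ) (b : ℕ → ℝ) (P : E.ι → X → M r) (N : ℕ) (D : ℕ → Disc E),
  0 < p → 0 < q → b 0 = 0 → b r = 0 → (∀ j ≤ r, 0 ≤ b j) →
  (∀ j, 1 ≤ j → j < r → |Real.log (q / p)| ≤ 2 * b j - b (j - 1) - b (j + 1)) →
  MetX E univ P → SolX E p univ P → 0 < N → (∀ m, D (m + N) = D m) →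
  (∀ m, (D m).Solv q (max (b 1) (b (r - 1))) P) → ∃ H : ℕ → E.ι → X → M r, Sweep E q b P N D H

/-- near a point of the union of the discs, every `H m` agrees at `x` with a recent `H m'` which is a
solution near `x` -/
def FreshAt : Prop := ∀ (q : ℝ) (b : ℕ → ℝ) (P : E.ι → X → M r) (N : ℕ) (D : ℕ → Disc E)
  (H : ℕ → E.ι → X → M r), Sweep E q b P N D H → ∀ x ∈ (⋃ m, (D m).op), ∃ W : Set X, IsOpen W ∧
    x ∈ W ∧ ∀ m, N ≤ m → ∃ m' ≤ m, m ≤ m' + N ∧ SolX E q W (H m') ∧ ∀ i, H m' i x = H m i x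

/-- interior equicontinuity on `X` -/
def XIntAt : Prop := ∀ (q c : ℝ) (P : E.ι → X → M r) (W : Set X) (i : E.ι) (x : X), 0 ≤ q →
  0 ≤ c → MetX E univ P → IsOpen W → x ∈ W → x ∈ (E.φ i).source → ∀ ε > 0, ∃ V ∈ 𝓝 x,
    V ⊆ (E.φ i).source ∧ ∀ h : E.ι → X → M r, MetX E univ h → SolX E q W h →
      (∀ y ∈ W ∩ (E.φ i).source, Thm c (h i y) (P i y)) → ∀ y ∈ V, dT (h i x) (h i y) ≤ ε

/-- boundary equicontinuity on `X` -/
def XBdAt : Prop := ∀ (q c : ℝ) (P : E.ι → X → M r) (D : Disc E) (x : X) (W : Set X), 0 ≤ q →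
  0 ≤ c → MetX E univ P → x ∈ D.cir → W ∈ 𝓝 x → ∀ ε > 0, ∃ V ∈ 𝓝 x,
    ∀ h : E.ι → X → M r, MetX E univ h → SolX E q D.op h →
      (∀ y ∈ D.cl, Thm c (h D.i y) (P D.i y)) →
      (∀ y ∈ W ∩ D.cir, dT (h D.i x) (h D.i y) ≤ ε) →
      ∀ y ∈ V ∩ D.cl, dT (h D.i x) (h D.i y) ≤ 2 * ε

/-- equicontinuity of the sweeping sequence off the exceptional set -/
def EqcAt : Prop := ∀ (q : ℝ) (b : ℕ → ℝ) (P : E.ι → X → M r) (N : ℕ) (D : ℕ → Disc E)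
  (H : ℕ → E.ι → X → M r), 0 ≤ q → (∀ j ≤ r, 0 ≤ b j) → Sweep E q b P N D H →
  ∀ x ∉ Exc N D, ∃ i, x ∈ (E.φ i).source ∧ ∀ ε > 0, ∃ n₀ : ℕ, ∀ᶠ y in 𝓝 x,
    y ∈ (E.φ i).source ∧ ∀ m ≥ n₀, dT (H m i x) (H m i y) ≤ ε

/-- properties of the oscillation function -/
def FSubAt : Prop := ∀ (q : ℝ) (b : ℕ → ℝ) (P : E.ι → X → M r) (N : ℕ) (D : ℕ → Disc E)
  (H : ℕ → E.ι → X → M r), 0 ≤ q → (∀ j ≤ r, 0 ≤ b j) → Sweep E q b P N D H →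
  (∀ x, 0 ≤ fX E H x) ∧ (∃ B, ∀ x, fX E H x ≤ B) ∧ (∀ x ∉ (⋃ m, (D m).cl), fX E H x = 0) ∧
  (∀ x ∉ Exc N D, ContinuousAt (fX E H) x) ∧
  ∀ x ∉ Exc N D, ∀ i, x ∈ (E.φ i).source →
    VSub 0 (fun z => fX E H ((E.φ i).symm z)) (E.φ i x)

/-- convergence of the sweeping sequence -/
def GlueAt : Prop := ∀ (q : ℝ) (b : ℕ → ℝ) (P : E.ι → X → M r) (N : ℕ) (D : ℕ → Disc E)
  (H : ℕ → E.ι → X → M r), 0 ≤ q → (∀ j ≤ r, 0 ≤ b j) → Sweep E q b P N D H →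
  (Exc N D).Finite → (∀ x ∉ Exc N D, fX E H x = 0) →
  ∃ K : E.ι → X → M r, MetX E (⋃ m, (D m).op) K ∧ SolX E q (⋃ m, (D m).op) K ∧
    ∀ i, ∀ x ∈ (E.φ i).source ∩ (⋃ m, (D m).op), Bd b (P i x) (K i x)

/-- from compact sets to the whole surface -/
def ExhAt : Prop := ∀ (q : ℝ) (b : ℕ → ℝ) (P : E.ι → X → M r), 0 ≤ q → (∀ j ≤ r, 0 ≤ b j) →
  MetX E univ P →
  (∀ C : Set X, IsCompact C → ∃ (Ω : Set X) (K : E.ι → X → M r), IsOpen Ω ∧ C ⊆ Ω ∧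
    MetX E Ω K ∧ SolX E q Ω K ∧ ∀ i, ∀ x ∈ (E.φ i).source ∩ Ω, Bd b (P i x) (K i x)) →
  ∃ K : E.ι → X → M r, MetX E univ K ∧ SolX E q univ K

end

end Pool.Agent.HSC
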